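import Mathlib

/-!
# HI61/ALin : approximately linear functions on a ball are close to linear functionals

PROOF.  For `y : Y` let `p y = inf {∑ λ_a (θ (y_a) + M) | y = ∑ λ_a y_a, λ_a ≥ 0, ‖y_a‖ ≤ 1}` (finite sums;
the set is nonempty: `y = ‖y‖ (y / ‖y‖)`).  It is bounded below: if also `y = ‖y‖ y'` with `‖y'‖ ≤ 1`
(fixed representation) then by the hypothesis applied to the difference
`∑ λ_a θ(y_a) - ‖y‖ θ(y') ≥ - M (∑ λ_a + ‖y‖)`, so `∑ λ_a (θ(y_a) + M) ≥ ‖y‖ (θ(y') - M)`.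
`p` is sublinear (positively homogeneous and subadditive).  By the Hahn-Banach theorem
(`exists_extension_of_le_sublinear` on the zero subspace) there is a linear `L ≤ p`.  For `‖y‖ ≤ 1`:
`L y ≤ p y ≤ θ y + M`, and `- L y = L (-y) ≤ θ (-y) + M = - θ y + M` (`hodd`).  So `|θ y - L y| ≤ M`, and
`|L y| ≤ C + M` for `‖y‖ ≤ 1`, so `L` is continuous (`LinearMap.mkContinuous`).
-/

namespace Pool.Agent.HI61

open Finset

/-- the set of values of the representations of `y` -/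
private def alS {Y : Type*} [NormedAddCommGroup Y] [NormedSpace ℝ Y] (θ : Y → ℝ) (M : ℝ) (y : Y) : Set ℝ :=
  {r | ∃ (n : ℕ) (lam : Fin n → ℝ) (z : Fin n → Y), (∀ a, 0 ≤ lam a) ∧ (∀ a, ‖z a‖ ≤ 1) ∧
    ∑ a, lam a • z a = y ∧ r = ∑ a, lam a * (θ (z a) + M)}

private theorem al_rep {Y : Type*} [NormedAddCommGroup Y] [NormedSpace ℝ Y] (y : Y) :
    ∃ y' : Y, ‖y'‖ ≤ 1 ∧ ‖y‖ • y' = y := by
  by_cases hy : y = 0
  · exact ⟨0, by simp, by simp [hy]⟩
  · have h0 : ‖y‖ ≠ 0 := by simpa using hy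
    refine ⟨‖y‖⁻¹ • y, ?_, ?_⟩
    · rw [norm_smul, norm_inv, norm_norm, inv_mul_cancel₀ h0]
    · rw [smul_smul, mul_inv_cancel₀ h0, one_smul]

theorem approx_linear {Y : Type*} [NormedAddCommGroup Y] [NormedSpace ℝ Y] (θ : Y → ℝ) (M C : ℝ)
    (hM : 0 ≤ M) (hC : ∀ y, ‖y‖ ≤ 1 → |θ y| ≤ C) (hodd : ∀ y, θ (-y) = - θ y)
    (h : ∀ (n : ℕ) (lam : Fin n → ℝ) (y : Fin n → Y), (∀ a, ‖y a‖ ≤ 1) →
      ∑ a, lam a • y a = 0 → |∑ a, lam a * θ (y a)| ≤ M * ∑ a, |lam a|) :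
    ∃ L : Y →L[ℝ] ℝ, ∀ y, ‖y‖ ≤ 1 → |θ y - L y| ≤ M := by
  have hlow : ∀ y y' : Y, ‖y'‖ ≤ 1 → ‖y‖ • y' = y → ∀ r ∈ alS θ M y, ‖y‖ * (θ y' - M) ≤ r := by
    rintro y y' hy' hyy r ⟨n, lam, z, hl, hz, hs, rfl⟩
    have h1 := h (n + 1) (Fin.cons (-‖y‖) lam) (Fin.cons y' z) (by
      intro a
      refine Fin.cases ?_ ?_ a
      · simpa using hy'
      · intro i; simpa using hz i) (by
      rw [Fin.sum_univ_succ]
      simp only [Fin.cons_zero, Fin.cons_succ]
      rw [hs, neg_smul, hyy]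
      simp)
    rw [Fin.sum_univ_succ, Fin.sum_univ_succ] at h1
    simp only [Fin.cons_zero, Fin.cons_succ] at h1
    rw [abs_neg, abs_of_nonneg (norm_nonneg y)] at h1
    have h2 : ∑ i, |lam i| = ∑ i, lam i := Finset.sum_congr rfl fun i _ => abs_of_nonneg (hl i)
    rw [h2] at h1
    have h3 := (abs_le.mp h1).1
    have h4 : ∑ a, lam a * (θ (z a) + M) = ∑ a, lam a * θ (z a) + M * ∑ a, lam a := by
      rw [Finset.mul_sum, ← Finset.sum_add_distrib]
      exact Finset.sum_congr rfl fun i _ => by ring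
    rw [h4]
    nlinarith
  have hbdd : ∀ y : Y, BddBelow (alS θ M y) := by
    intro y
    obtain ⟨y', h1, h2⟩ := al_rep y
    exact ⟨_, fun r hr => hlow y y' h1 h2 r hr⟩
  have hne : ∀ y : Y, (alS θ M y).Nonempty := by
    intro y
    obtain ⟨y', h1, h2⟩ := al_rep y
    exact ⟨_, 1, fun _ => ‖y‖, fun _ => y', fun _ => norm_nonneg y, fun _ => h1, by simpa using h2, rfl⟩
  have hhom1 : ∀ c : ℝ, 0 < c → ∀ x : Y, sInf (alS θ M (c • x)) ≤ c * sInf (alS θ M x) := by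
    intro c hc x
    rw [mul_comm, ← div_le_iff₀ hc]
    apply le_csInf (hne x)
    rintro r ⟨n, lam, z, hl, hz, hs, rfl⟩
    rw [div_le_iff₀ hc]
    apply csInf_le (hbdd _)
    refine ⟨n, fun a => c * lam a, z, fun a => mul_nonneg hc.le (hl a), hz, ?_, ?_⟩
    · rw [← hs, Finset.smul_sum]
      exact Finset.sum_congr rfl fun i _ => by rw [smul_smul]
    · rw [Finset.sum_mul]
      exact Finset.sum_congr rfl fun i _ => by ring
  have hhom : ∀ c : ℝ, 0 < c → ∀ x : Y, sInf (alS θ M (c • x)) = c * sInf (alS θ M x) := by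
    intro c hc x
    apply le_antisymm (hhom1 c hc x)
    have h1 := hhom1 c⁻¹ (inv_pos.mpr hc) (c • x)
    rw [smul_smul, inv_mul_cancel₀ hc.ne', one_smul] at h1
    calc c * sInf (alS θ M x) ≤ c * (c⁻¹ * sInf (alS θ M (c • x))) := by gcongr
      _ = sInf (alS θ M (c • x)) := by rw [← mul_assoc, mul_inv_cancel₀ hc.ne', one_mul]
  have hadd : ∀ x y : Y, sInf (alS θ M (x + y)) ≤ sInf (alS θ M x) + sInf (alS θ M y) := by
    intro x y
    rw [← sub_le_iff_le_add]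
    apply le_csInf (hne x)
    rintro r ⟨n, lam, z, hl, hz, hs, rfl⟩
    rw [sub_le_comm]
    apply le_csInf (hne y)
    rintro s ⟨m, mu, w, hl', hw, hs', rfl⟩
    rw [sub_le_iff_le_add]
    apply csInf_le (hbdd _)
    refine ⟨n + m, Fin.append lam mu, Fin.append z w, ?_, ?_, ?_, ?_⟩
    · intro a
      refine Fin.addCases (fun i => ?_) (fun i => ?_) a
      · rw [Fin.append_left]; exact hl i
      · rw [Fin.append_right]; exact hl' i
    · intro a
      refine Fin.addCases (fun i => ?_) (fun i => ?_) a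
      · rw [Fin.append_left]; exact hz i
      · rw [Fin.append_right]; exact hw i
    · rw [Fin.sum_univ_add]
      simp only [Fin.append_left, Fin.append_right]
      rw [hs, hs']
    · rw [Fin.sum_univ_add]
      simp only [Fin.append_left, Fin.append_right]
      ring
  obtain ⟨L, -, hL⟩ := exists_extension_of_le_sublinear (⊥ : Y →ₗ.[ℝ] ℝ) (fun y => sInf (alS θ M y)) hhom hadd (by
    rintro ⟨x, hx⟩
    have hx0 : x = 0 := by
      change x ∈ (⊥ : Submodule ℝ Y) at hx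
      exact (Submodule.mem_bot ℝ).mp hx
    subst hx0
    have h1 : (⊥ : Y →ₗ.[ℝ] ℝ) ⟨0, hx⟩ = 0 := by
      exact map_zero (⊥ : Y →ₗ.[ℝ] ℝ).toFun
    rw [h1]
    apply le_csInf (hne _)
    intro r hr
    have := hlow 0 0 (by simp) (by simp) r hr
    simpa using this)
  have hup : ∀ y, ‖y‖ ≤ 1 → L y ≤ θ y + M := by
    intro y hy
    refine (hL y).trans ?_
    apply csInf_le (hbdd _)
    exact ⟨1, fun _ => 1, fun _ => y, fun _ => zero_le_one, fun _ => hy, by simp, by simp⟩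
  have hdn : ∀ y, ‖y‖ ≤ 1 → θ y - M ≤ L y := by
    intro y hy
    have h1 := hup (-y) (by rwa [norm_neg])
    rw [map_neg, hodd] at h1
    linarith
  have hbd : ∀ y, ‖L y‖ ≤ (C + M) * ‖y‖ := by
    intro y
    obtain ⟨y', h1, h2⟩ := al_rep y
    have h3 : ‖L y'‖ ≤ C + M := by
      rw [Real.norm_eq_abs, abs_le]
      have := abs_le.mp (hC y' h1)
      constructor
      · linarith [hdn y' h1]
      · linarith [hup y' h1]
    have h4 : L y = ‖y‖ * L y' := by
      conv_lhs => rw [← h2]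
      rw [map_smul, smul_eq_mul]
    rw [h4, norm_mul, norm_norm, mul_comm]
    gcongr
  refine ⟨L.mkContinuous (C + M) hbd, ?_⟩
  intro y hy
  rw [LinearMap.mkContinuous_apply, abs_le]
  constructor
  · linarith [hup y hy]
  · linarith [hdn y hy]

end Pool.Agent.HI61
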