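import Pool.Agent.HI61.WDefs2

/-!
# HI61/WDefs3 : the completed space with its projections; sign type and cotype
-/

namespace Pool.Agent.HI61

open Finset Filter Topology
open scoped Classical

/-- equal norm sign cotype -/
def SignCotype (X : Type*) [NormedAddCommGroup X] [NormedSpace ℝ X] (q c : ℝ) : Prop :=
  ∀ (n : ℕ) (x : Fin n → X), (∀ i, 1 ≤ ‖x i‖) →
    ∃ θ : Fin n → ℝ, (∀ i, |θ i| = 1) ∧ c * (n : ℝ) ^ (1 / q) ≤ ‖∑ i, θ i • x i‖

/-- equal norm sign type -/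
def SignType (X : Type*) [NormedAddCommGroup X] [NormedSpace ℝ X] (p C : ℝ) : Prop :=
  ∀ (n : ℕ) (x : Fin n → X), (∀ i, ‖x i‖ ≤ 1) →
    ∃ θ : Fin n → ℝ, (∀ i, |θ i| = 1) ∧ ‖∑ i, θ i • x i‖ ≤ C * (n : ℝ) ^ (1 / p)

/-- `X` is reflexive -/
def Reflexive' (X : Type*) [NormedAddCommGroup X] [NormedSpace ℝ X] : Prop :=
  Function.Surjective (NormedSpace.inclusionInDoubleDual ℝ X)

section

variable {X V : Type} [NormedAddCommGroup X] [NormedSpace ℝ X]
  [NormedAddCommGroup V] [NormedSpace ℝ V]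

/-- The completed space `W` with the extended projections. -/
structure Comp (H : Host X V) (pW : Seminorm ℝ (W0 X)) (W : Type) [NormedAddCommGroup W]
    [NormedSpace ℝ W] where
  j : W0 X →ₗ[ℝ] W
  norm_j : ∀ w, ‖j w‖ = pW w
  dense : DenseRange j
  Q : ℕ → W →L[ℝ] W
  Q_j : ∀ k w, Q k (j w) = j (Qk X k w)
  Q_le : ∀ k x, ‖Q k x‖ ≤ 6 * ‖x‖
  Q_comp : ∀ k l x, Q k (Q l x) = Q (min k l) x
  Q_lim : ∀ x, Tendsto (fun k => Q k x) atTop (𝓝 x)
  Q_range : ∀ k x, Q k x ∈ Submodule.span ℝ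
    {y | ∃ l i, l ≤ k ∧ i < (H.pel l).n ∧ y = j (H.eb l (Finsupp.single i 1))}

/-- the sequences of the coordinates of a far sequence -/
theorem farSeq_supp {H : Host X V} {pW : Seminorm ℝ (W0 X)} (Fs : FarSeq H pW) (n i : ℕ)
    (hi : H.hat (Fs.z n) i ≠ 0) : Fs.s n ≤ blk i ∧ blk i < Fs.s (n + 1) := by
  have : (Fs.z n).2 (blk i) ≠ 0 := fun h0 => hi (by
    change H.gam i ((Fs.z n).2 (blk i)) = 0
    rw [h0, map_zero])
  exact Fs.supp n _ (Finsupp.mem_support_iff.2 this)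

theorem hat_bdd (H : Host X V) (w : W0 X) : ∃ B : ℝ, ∀ i, |H.hat w i| ≤ B := by
  refine ⟨∑ k ∈ w.2.support, H.q k (w.2 k), fun i => ?_⟩
  have hq : ∀ k, 0 ≤ H.q k (w.2 k) := fun k => (apply_nonneg (H.F.p k) _).trans (le_max_left _ _)
  by_cases h : blk i ∈ w.2.support
  · exact (H.gam_le i (w.2 (blk i))).trans
      (Finset.single_le_sum (f := fun k => H.q k (w.2 k)) (fun k _ => hq k) h)
  · rw [Finsupp.notMem_support_iff] at h
    change |H.gam i (w.2 (blk i))| ≤ _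
    rw [h, map_zero, abs_zero]
    exact Finset.sum_nonneg fun k _ => hq k

/-- the block sequence of coordinates of a far sequence -/
noncomputable def FarSeq.toB {H : Host X V} {pW : Seminorm ℝ (W0 X)} (Fs : FarSeq H pW) :
    BSeq where
  ζ n := H.hat (Fs.z n)
  s := Fs.s
  mono := Fs.mono
  supp n i hi := farSeq_supp Fs n i hi
  bd n := hat_bdd H (Fs.z n)

theorem toB_comb {H : Host X V} {pW : Seminorm ℝ (W0 X)} (Fs : FarSeq H pW) (a : ℕ →₀ ℝ) :
    Fs.toB.comb a = H.hat (T0 Fs.z a) := by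
  funext i
  simp only [comb_apply, T0, Finsupp.sum, map_sum, map_smul, Finset.sum_apply, Pi.smul_apply,
    smul_eq_mul]
  rfl

end

end Pool.Agent.HI61
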