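import Pool.Agent.HI61.Simons
import Pool.Agent.HI61.WDefs3

/-!
# HI61/AV : almost invariant convex combinations of the projections

PROOF.  Let `K1` be the closed unit ball of `X**` with the weak* topology (compact: Banach-Alaoglu,
`WeakDual.isCompact_closedBall`), `K2 = {φ ∈ V* | ‖φ‖ ≤ 1, φ ∘ ι = 0}` with the weak* topology (a closed subset
of the ball, compact), `K = K1 × K2` (nonempty: `0`).  For `Φ ∈ K1` let `x_Φ ∈ X` with `Φ f = f x_Φ` (reflexivity);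
`‖x_Φ‖ ≤ 1`.  `h n (Φ, φ) = φ (Pn n (ι x_Φ))`.  Continuity: `Pn n` has finite rank, so
`Pn n v = ∑_i f_i v • u_i` (finite sum, `f_i ∈ V*`, `u_i ∈ V`), and `h n (Φ, φ) = ∑_i Φ (f_i ∘ ι) φ (u_i)`.
`|h n| ≤ 1`; `h n (Φ, φ) → φ (ι x_Φ) = 0`.  `simons` with `δ = ε / 2` gives `w, M`.  Let `T = ∑_{n<M} w n • Pn n`.
For `‖x‖ ≤ 1` and `φ ∈ K2`: `φ (T (ι x)) ≤ ε / 2` (`Φ = J x`).  By Hahn-Banach the distance of `T (ι x)` to the
closed subspace `range ι` (`X` is complete) is `max_{φ ∈ K2} φ (T (ι x)) ≤ ε / 2`.  For `x ≠ 0` apply this to `x / ‖x‖`: the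
distance of `T (ι x)` to `range ι` is `≤ (ε/2) ‖x‖ < ε ‖x‖`, so `y` exists; for `x = 0` take `y = 0`.
(Hahn-Banach for the distance: the quotient `V ⧸ range ι` and a norming functional, or
`exists_dual_vector` in the quotient composed with `mkQ`.)
-/

namespace Pool.Agent.HI61

open Finset Filter Topology

private theorem ball_iff {E : Type} [NormedAddCommGroup E] [NormedSpace ℝ E]
    (Φ : StrongDual ℝ E) : Φ ∈ Metric.closedBall (0 : StrongDual ℝ E) 1 ↔ ‖Φ‖ ≤ 1 := by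
  rw [Metric.mem_closedBall]
  have h : dist Φ (0 : StrongDual ℝ E) = ‖Φ‖ := dist_zero_right Φ
  rw [h]

private theorem fin_repr {X V : Type} [NormedAddCommGroup X] [NormedSpace ℝ X]
    [NormedAddCommGroup V] [NormedSpace ℝ V] (T : X →L[ℝ] V) (F : Submodule ℝ V)
    [FiniteDimensional ℝ F] (hT : ∀ x, T x ∈ F) :
    ∃ (m : ℕ) (f : Fin m → (X →L[ℝ] ℝ)) (u : Fin m → V), ∀ x, T x = ∑ i, f i x • u i := by
  let b := Module.finBasis ℝ F
  refine ⟨Module.finrank ℝ F, fun i => (LinearMap.toContinuousLinearMap (b.coord i)).comp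
    (T.codRestrict F hT), fun i => (b i : V), fun x => ?_⟩
  have h1 := b.sum_repr (T.codRestrict F hT x)
  have h2 := congrArg Subtype.val h1
  rw [AddSubmonoidClass.coe_finsetSum] at h2
  exact h2.symm

private theorem close_of_dual {X V : Type} [NormedAddCommGroup X] [NormedSpace ℝ X]
    [CompleteSpace X] [NormedAddCommGroup V] [NormedSpace ℝ V] (ι : X →ₗᵢ[ℝ] V) (v : V) (δ : ℝ)
    (hδ : 0 < δ) (h : ∀ φ : V →L[ℝ] ℝ, ‖φ‖ ≤ 1 → (∀ x, φ (ι x) = 0) → φ v ≤ δ) :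
    ∃ y : X, ‖v - ι y‖ ≤ 2 * δ := by
  set S : Submodule ℝ V := LinearMap.range ι.toLinearMap with hSd
  obtain ⟨g, hg1, hg2⟩ := exists_dual_vector'' ℝ (Submodule.Quotient.mk v : V ⧸ S)
  let φ : V →L[ℝ] ℝ := LinearMap.mkContinuous (g.toLinearMap ∘ₗ S.mkQ) 1 (by
    intro x
    have h1 := g.le_opNorm (Submodule.Quotient.mk x : V ⧸ S)
    have h2 := Submodule.Quotient.norm_mk_le S x
    have h3 := norm_nonneg (Submodule.Quotient.mk x : V ⧸ S)
    show ‖g (Submodule.Quotient.mk x)‖ ≤ 1 * ‖x‖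
    nlinarith [norm_nonneg g])
  have hφ1 : ‖φ‖ ≤ 1 := LinearMap.mkContinuous_norm_le _ zero_le_one _
  have hφ2 : ∀ x, φ (ι x) = 0 := by
    intro x
    show g (Submodule.Quotient.mk (ι x)) = 0
    have : (Submodule.Quotient.mk (ι x) : V ⧸ S) = 0 :=
      (Submodule.Quotient.mk_eq_zero S).2 ⟨x, rfl⟩
    rw [this, map_zero]
  have h1 := h φ hφ1 hφ2
  have h2 : ‖(Submodule.Quotient.mk v : V ⧸ S)‖ ≤ δ := by
    have h3 : φ v = ‖(Submodule.Quotient.mk v : V ⧸ S)‖ := hg2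
    rwa [h3] at h1
  obtain ⟨m, hm1, hm2⟩ := Submodule.Quotient.norm_mk_lt (Submodule.Quotient.mk v : V ⧸ S) hδ
  have h3 : v - m ∈ S := by
    rw [← Submodule.Quotient.eq, hm1]
  obtain ⟨y, hy⟩ := h3
  refine ⟨y, ?_⟩
  have h4 : v - ι y = m := by
    have : ι y = v - m := hy
    rw [this]
    abel
  rw [h4]
  linarith

theorem almost_invariant {X V : Type} [NormedAddCommGroup X] [NormedSpace ℝ X] [CompleteSpace X]
    [NormedAddCommGroup V] [NormedSpace ℝ V] (ι : X →ₗᵢ[ℝ] V) (Pn : ℕ → V →L[ℝ] V)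
    (h1 : ∀ n v, ‖Pn n v‖ ≤ ‖v‖) (h3 : ∀ v, Tendsto (fun n => Pn n v) atTop (𝓝 v))
    (h4 : ∀ n, FiniteDimensional ℝ (LinearMap.range (Pn n : V →ₗ[ℝ] V)))
    (hrefl : Reflexive' X) (N : ℕ) (ε : ℝ) (hε : 0 < ε) :
    ∃ (w : ℕ → ℝ) (M : ℕ), (∀ n, 0 ≤ w n) ∧ (∀ n, w n ≠ 0 → N ≤ n ∧ n < M) ∧
      ∑ n ∈ range M, w n = 1 ∧
      ∀ x : X, ∃ y : X, ‖∑ n ∈ range M, w n • Pn n (ι x) - ι y‖ ≤ ε * ‖x‖ := by
  classical
  -- finite rank representation
  have hrep : ∀ n, ∃ (m : ℕ) (f : Fin m → (X →L[ℝ] ℝ)) (u : Fin m → V),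
      ∀ x, Pn n (ι x) = ∑ i, f i x • u i := by
    intro n
    have := h4 n
    obtain ⟨m, f, u, hfu⟩ := fin_repr ((Pn n).comp ι.toContinuousLinearMap)
      (LinearMap.range (Pn n : V →ₗ[ℝ] V)) (fun x => ⟨ι x, rfl⟩)
    exact ⟨m, f, u, fun x => hfu x⟩
  choose m f u hfu using hrep
  -- the compact spaces
  let K1 : Set (WeakDual ℝ (StrongDual ℝ X)) :=
    WeakDual.toStrongDual ⁻¹' Metric.closedBall 0 1
  let K2 : Set (WeakDual ℝ V) :=
    (WeakDual.toStrongDual ⁻¹' Metric.closedBall 0 1) ∩ {φ | ∀ x, φ (ι x) = 0}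
  have hK1 : IsCompact K1 := WeakDual.isCompact_closedBall 0 1
  have hK2c : IsClosed {φ : WeakDual ℝ V | ∀ x, φ (ι x) = 0} := by
    have : {φ : WeakDual ℝ V | ∀ x, φ (ι x) = 0} = ⋂ x, {φ : WeakDual ℝ V | φ (ι x) = 0} := by
      ext φ
      simp
    rw [this]
    exact isClosed_iInter fun x => isClosed_eq (WeakDual.eval_continuous (ι x)) continuous_const
  have hK2 : IsCompact K2 := (WeakDual.isCompact_closedBall 0 1).inter_right hK2c
  have : CompactSpace K1 := isCompact_iff_compactSpace.1 hK1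
  have : CompactSpace K2 := isCompact_iff_compactSpace.1 hK2
  have : Nonempty K1 := ⟨⟨0, by
    show WeakDual.toStrongDual (0 : WeakDual ℝ (StrongDual ℝ X)) ∈ Metric.closedBall 0 1
    rw [map_zero]
    exact Metric.mem_closedBall_self zero_le_one⟩⟩
  have : Nonempty K2 := ⟨⟨0, by
    refine ⟨?_, fun x => rfl⟩
    show WeakDual.toStrongDual (0 : WeakDual ℝ V) ∈ Metric.closedBall 0 1
    rw [map_zero]
    exact Metric.mem_closedBall_self zero_le_one⟩⟩
  -- the functions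
  let h : ℕ → C(K1 × K2, ℝ) := fun n =>
    ⟨fun z => ∑ i, z.1.1 (f n i) * z.2.1 (u n i), by
      refine continuous_finsetSum _ fun i _ => Continuous.mul ?_ ?_
      · exact (WeakDual.eval_continuous (f n i)).comp
          (continuous_subtype_val.comp continuous_fst)
      · exact (WeakDual.eval_continuous (u n i)).comp
          (continuous_subtype_val.comp continuous_snd)⟩
  -- values
  have hval : ∀ (x : X) (z : K1 × K2), (∀ g : StrongDual ℝ X, z.1.1 g = g x) → ∀ n,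
      h n z = z.2.1 (Pn n (ι x)) := by
    intro x z hz n
    show ∑ i, z.1.1 (f n i) * z.2.1 (u n i) = z.2.1 (Pn n (ι x))
    rw [hfu n x, map_sum]
    refine Finset.sum_congr rfl fun i _ => ?_
    rw [hz, map_smul, smul_eq_mul]
  have hx : ∀ z : K1 × K2, ∃ x : X, ‖x‖ ≤ 1 ∧ ∀ g : StrongDual ℝ X, z.1.1 g = g x := by
    intro z
    obtain ⟨x, hx⟩ := hrefl (WeakDual.toStrongDual z.1.1)
    refine ⟨x, ?_, fun g => ?_⟩
    · have h5 : ‖NormedSpace.inclusionInDoubleDual ℝ X x‖ = ‖x‖ :=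
        (NormedSpace.inclusionInDoubleDualLi ℝ (E := X)).norm_map x
      rw [← h5, hx]
      have h6 := z.1.2
      have h7 : WeakDual.toStrongDual z.1.1 ∈ Metric.closedBall 0 1 := h6
      exact (ball_iff _).1 h7
    · have h5 := congrArg (fun F => F g) hx
      exact h5.symm
  have hn2 : ∀ z : K2, ‖WeakDual.toStrongDual z.1‖ ≤ 1 := by
    intro z
    have h7 : WeakDual.toStrongDual z.1 ∈ Metric.closedBall 0 1 := z.2.1
    rwa [mem_closedBall_zero_iff] at h7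
  have hb : ∀ n z, |h n z| ≤ 1 := by
    intro n z
    obtain ⟨x, hx1, hx2⟩ := hx z
    rw [hval x z hx2 n]
    have h5 := (WeakDual.toStrongDual z.2.1).le_opNorm (Pn n (ι x))
    have h6 := hn2 z.2
    have h7 := h1 n (ι x)
    rw [ι.norm_map] at h7
    have h8 : ‖z.2.1 (Pn n (ι x))‖ ≤ 1 := by
      have h9 : ‖z.2.1 (Pn n (ι x))‖ ≤ ‖WeakDual.toStrongDual z.2.1‖ * ‖Pn n (ι x)‖ := h5
      have h10 := norm_nonneg (Pn n (ι x))
      nlinarith [norm_nonneg (WeakDual.toStrongDual z.2.1)]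
    rwa [Real.norm_eq_abs] at h8
  have hlim : ∀ z, Tendsto (fun n => h n z) atTop (𝓝 0) := by
    intro z
    obtain ⟨x, hx1, hx2⟩ := hx z
    have h5 : (fun n => h n z) = fun n => (WeakDual.toStrongDual z.2.1) (Pn n (ι x)) :=
      funext fun n => hval x z hx2 n
    rw [h5]
    have h6 := ((WeakDual.toStrongDual z.2.1).continuous.tendsto (ι x)).comp (h3 (ι x))
    have h7 : (WeakDual.toStrongDual z.2.1) (ι x) = 0 := z.2.2.2 x
    rw [h7] at h6
    exact h6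
  obtain ⟨w, M, hw0, hw1, hw2, hw3⟩ := simons h hb hlim N (ε / 2) (by positivity)
  refine ⟨w, M, hw0, hw1, hw2, fun x => ?_⟩
  by_cases hx0 : x = 0
  · refine ⟨0, ?_⟩
    rw [hx0]
    simp
  have hxn : 0 < ‖x‖ := norm_pos_iff.2 hx0
  have hclose := close_of_dual ι (∑ n ∈ range M, w n • Pn n (ι x)) (ε / 2 * ‖x‖) (by positivity) ?_
  · obtain ⟨y, hy⟩ := hclose
    exact ⟨y, hy.trans (by linarith)⟩
  intro φ hφ1 hφ2
  let x' : X := ‖x‖⁻¹ • x
  have hx' : ‖x'‖ ≤ 1 := by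
    show ‖‖x‖⁻¹ • x‖ ≤ 1
    rw [norm_smul, norm_inv, norm_norm, inv_mul_cancel₀ hxn.ne']
  let z1 : K1 := ⟨StrongDual.toWeakDual (NormedSpace.inclusionInDoubleDual ℝ X x'), by
    show WeakDual.toStrongDual (StrongDual.toWeakDual
      (NormedSpace.inclusionInDoubleDual ℝ X x')) ∈ Metric.closedBall 0 1
    rw [StrongDual.toStrongDual_toWeakDual]
    refine (ball_iff _).2 ?_
    have h5 : ‖NormedSpace.inclusionInDoubleDual ℝ X x'‖ = ‖x'‖ :=
      (NormedSpace.inclusionInDoubleDualLi ℝ (E := X)).norm_map x'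
    exact h5.trans_le hx'⟩
  let z2 : K2 := ⟨StrongDual.toWeakDual φ, by
    refine ⟨?_, fun x => hφ2 x⟩
    show WeakDual.toStrongDual (StrongDual.toWeakDual φ) ∈ Metric.closedBall 0 1
    rw [StrongDual.toStrongDual_toWeakDual, mem_closedBall_zero_iff]
    exact hφ1⟩
  have h5 := hw3 (z1, z2)
  have h6 : ∀ n, h n (z1, z2) = φ (Pn n (ι x')) := fun n => hval x' (z1, z2) (fun g => rfl) n
  have h7 : ∑ n ∈ range M, w n * h n (z1, z2) = ‖x‖⁻¹ * φ (∑ n ∈ range M, w n • Pn n (ι x)) := by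
    rw [map_sum, Finset.mul_sum]
    refine Finset.sum_congr rfl fun n _ => ?_
    rw [h6 n]
    show w n * φ (Pn n (ι (‖x‖⁻¹ • x))) = _
    rw [map_smul, map_smul, map_smul, map_smul, smul_eq_mul, smul_eq_mul]
    ring
  rw [h7] at h5
  have h8 : φ (∑ n ∈ range M, w n • Pn n (ι x)) =
      ‖x‖ * (‖x‖⁻¹ * φ (∑ n ∈ range M, w n • Pn n (ι x))) := by
    rw [← mul_assoc, mul_inv_cancel₀ hxn.ne', one_mul]
  rw [h8]
  have h9 := mul_le_mul_of_nonneg_left h5 hxn.le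
  linarith

end Pool.Agent.HI61
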