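import Pool.Agent.HI61.Defs2

/-!
# HI61/RealAn : two lemmas of real analysis for the averages

PROOF of `half_le`.  `β 1 ≥ 1`: for `n = L 0 ≥ 1` we have `β n > 0` (`hlow`, `M > 0`) and
`β n ≤ β n * β 1`.  So `d = 1` is fine.  Let `d ≥ 2` and suppose `β d < (1/2) d^{1/r}`.  For `i` let
`n = L (2 i)` and `m` with `d ^ m ≤ n < d ^ (m+1)` (`Nat.log`).  Then
`(1/2) n^{1/r} / M ≤ β n ≤ β (d ^ (m+1)) ≤ (β d) ^ (m+1) ≤ ((1/2) d^{1/r}) ^ (m+1)`, hence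
`n^{1/r} / M ≤ 2^{-m} (d ^ m)^{1/r} d^{1/r} ≤ 2^{-m} n^{1/r} d`, i.e. `2 ^ m ≤ M (2 i) * d`.
But `n ≥ n^{1/r} ≥ (8 Lam) ^ e` with `e = e (2 i)`, `Lam = Lam (2 i) ≥ 2 i + 1` (`Lreg`, `Lam_ge`,
`1/r ≤ 1`, `M ≥ 1`).  If `8 (2 i + 1) ≥ d ^ 2` then `d ^ (m+1) > n ≥ d ^ (2 e)`, so `m + 1 > 2 e`, `m ≥ 2 e`,
and `4 ^ e ≤ 2 ^ m ≤ 8 * 2 ^ e * d`, i.e. `2 ^ e ≤ 8 d`; but `e (2 i) ≥ 2 i → ∞` (`e_step` gives
`e κ ≥ κ`), contradiction for `i` large.
PROOF of `exists_D`.  If `h` is unbounded on `{s ≥ 1}` take `Ds = 1`, `K0 = max (G 1) 1` and let `D` be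
the first `s ≥ 1` with `h s > max_{1 ≤ t ≤ K0} h t` — then `D > K0` and for `1 ≤ s < D` we have
`h s ≤ max_{1 ≤ t ≤ K0} h t < h D` (for `s ≤ K0` by definition of the maximum, for `K0 < s < D` by
minimality of `D`); so `h s ≤ 2 h D` (`h D ≥ c > 0`).
If `h` is bounded, let `H = limsup h ≥ c > 0` (or `H = inf_n sup_{s ≥ n} h s`); choose `Ds ≥ 1` with
`h s ≤ 3/2 H` for `s ≥ Ds` and then `D ≥ max (G Ds) Ds` with `h D ≥ 3/4 H`.
-/

namespace Pool.Agent.HI61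

open Finset

private theorem e_geR {P : Par} (hG : Good P) (κ : ℕ) : κ ≤ P.e κ := by
  induction κ with
  | zero => exact Nat.zero_le _
  | succ κ ih =>
    have := hG.e_step κ
    omega

theorem half_le {P : Par} (hG : Good P) (β : ℕ → ℝ) (h0 : ∀ d, 0 ≤ β d) (hmono : Monotone β)
    (hmul : ∀ a b, β (a * b) ≤ β a * β b)
    (hlow : ∀ i, 1 / 2 * ((P.L (2 * i) : ℝ) ^ (1 / P.r) / P.M (2 * i)) ≤ β (P.L (2 * i))) :
    ∀ d : ℕ, 1 ≤ d → 1 / 2 * (d : ℝ) ^ (1 / P.r) ≤ β d := by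
  have hq := hG.q1
  have hr2 : 2 ≤ P.r := by unfold Par.r; linarith
  have hr0 : 0 ≤ 1 / P.r := by positivity
  have hr1 : 1 / P.r ≤ 1 := by
    rw [div_le_one (by linarith)]
    linarith
  have hMpos : ∀ κ, (1 : ℝ) ≤ P.M κ := by
    intro κ
    have : 1 ≤ P.M κ := by
      unfold Par.M
      have := Nat.one_le_two_pow (n := P.e κ)
      omega
    exact_mod_cast this
  have hLpos : ∀ κ, (1 : ℝ) ≤ P.L κ := fun κ => by exact_mod_cast hG.L_pos κ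
  have hβ1 : 1 ≤ β 1 := by
    have h1 := hlow 0
    have h2 := hmul (P.L (2 * 0)) 1
    rw [mul_one] at h2
    have h3 : 0 < 1 / 2 * ((P.L (2 * 0) : ℝ) ^ (1 / P.r) / P.M (2 * 0)) := by
      have a := hMpos (2 * 0)
      have b := hLpos (2 * 0)
      have c : 0 < (P.L (2 * 0) : ℝ) ^ (1 / P.r) := Real.rpow_pos_of_pos (by linarith) _
      have d : (0 : ℝ) < P.M (2 * 0) := by linarith
      positivity
    have h4 : 0 < β (P.L (2 * 0)) := lt_of_lt_of_le h3 h1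
    by_contra hcon
    push Not at hcon
    have : β (P.L (2 * 0)) * β 1 < β (P.L (2 * 0)) * 1 := mul_lt_mul_of_pos_left hcon h4
    linarith
  intro d hd
  rcases hd.eq_or_lt with hd1 | hd2
  · rw [← hd1, Nat.cast_one, Real.one_rpow]
    linarith
  by_contra hcon
  push Not at hcon
  have hpw : ∀ k, β (d ^ (k + 1)) ≤ (β d) ^ (k + 1) := by
    intro k
    induction k with
    | zero => simp
    | succ k ih =>
      rw [pow_succ d (k + 1), pow_succ (β d) (k + 1)]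
      exact le_trans (hmul _ _) (mul_le_mul_of_nonneg_right ih (h0 d))
  have hdR : (2 : ℝ) ≤ d := by exact_mod_cast hd2
  have key : ∀ i, (2 : ℝ) ^ (Nat.log d (P.L (2 * i))) ≤ P.M (2 * i) * d := by
    intro i
    have hM := hMpos (2 * i)
    have hL := hLpos (2 * i)
    have hx0 : 0 < (P.L (2 * i) : ℝ) ^ (1 / P.r) := Real.rpow_pos_of_pos (by linarith) _
    have hy0 : 0 ≤ (d : ℝ) ^ (1 / P.r) := Real.rpow_nonneg (by linarith) _
    have hyd : (d : ℝ) ^ (1 / P.r) ≤ d := by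
      have := Real.rpow_le_rpow_of_exponent_le (show (1 : ℝ) ≤ d by linarith) hr1
      rwa [Real.rpow_one] at this
    have hm1 : d ^ (Nat.log d (P.L (2 * i))) ≤ P.L (2 * i) :=
      Nat.pow_log_le_self d (by have := hG.L_pos (2 * i); omega)
    have hm2 : P.L (2 * i) < d ^ (Nat.log d (P.L (2 * i)) + 1) :=
      Nat.lt_pow_succ_log_self hd2 _
    set m := Nat.log d (P.L (2 * i)) with hm
    have hym : ((d : ℝ) ^ (1 / P.r)) ^ m ≤ (P.L (2 * i) : ℝ) ^ (1 / P.r) := by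
      rw [Real.rpow_pow_comm (by linarith : (0 : ℝ) ≤ d)]
      refine Real.rpow_le_rpow (by positivity) ?_ hr0
      exact_mod_cast hm1
    have h1 : 1 / 2 * ((P.L (2 * i) : ℝ) ^ (1 / P.r) / P.M (2 * i)) ≤
        (1 / 2) ^ (m + 1) * ((P.L (2 * i) : ℝ) ^ (1 / P.r)) * d := by
      calc 1 / 2 * ((P.L (2 * i) : ℝ) ^ (1 / P.r) / P.M (2 * i))
          ≤ β (P.L (2 * i)) := hlow i
        _ ≤ β (d ^ (m + 1)) := hmono hm2.le
        _ ≤ (β d) ^ (m + 1) := hpw m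
        _ ≤ (1 / 2 * (d : ℝ) ^ (1 / P.r)) ^ (m + 1) := pow_le_pow_left₀ (h0 d) hcon.le _
        _ = (1 / 2) ^ (m + 1) * (((d : ℝ) ^ (1 / P.r)) ^ m) * (d : ℝ) ^ (1 / P.r) := by
            rw [mul_pow, pow_succ ((d : ℝ) ^ (1 / P.r)) m]
            ring
        _ ≤ (1 / 2) ^ (m + 1) * ((P.L (2 * i) : ℝ) ^ (1 / P.r)) * d := by
            gcongr
    generalize hX : (P.L (2 * i) : ℝ) ^ (1 / P.r) = x at h1 hx0
    have hM0 : (0 : ℝ) < P.M (2 * i) := by linarith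
    have h2 : x * (1 / (2 * P.M (2 * i))) ≤ x * ((1 / 2) ^ (m + 1) * d) := by
      calc x * (1 / (2 * P.M (2 * i))) = 1 / 2 * (x / P.M (2 * i)) := by
            field_simp
        _ ≤ (1 / 2) ^ (m + 1) * x * d := h1
        _ = x * ((1 / 2) ^ (m + 1) * d) := by ring
    have h3 := le_of_mul_le_mul_left h2 hx0
    rw [div_le_iff₀ (by positivity)] at h3
    have h4 : ((1 : ℝ) / 2) ^ (m + 1) * 2 ^ (m + 1) = 1 := by
      rw [← mul_pow]
      norm_num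
    have h5 : (2 : ℝ) ^ (m + 1) * 1 ≤ 2 ^ (m + 1) * ((1 / 2) ^ (m + 1) * d * (2 * P.M (2 * i))) :=
      mul_le_mul_of_nonneg_left h3 (by positivity)
    have h6 : (2 : ℝ) ^ (m + 1) * ((1 / 2) ^ (m + 1) * d * (2 * P.M (2 * i))) =
        2 * (P.M (2 * i) * d) := by
      linear_combination (d * (2 * P.M (2 * i) : ℝ)) * h4
    rw [h6, pow_succ] at h5
    linarith
  -- a large index
  have hi := key (8 * d ^ 2)
  set i := 8 * d ^ 2 with hi'
  have he := e_geR hG (2 * i)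
  have hLam := hG.Lam_ge (2 * i)
  have hLamR : (2 * i : ℝ) + 1 ≤ P.Lam (2 * i) := by exact_mod_cast hLam
  have hreg := hG.Lreg i
  have hM := hMpos (2 * i)
  have hL := hLpos (2 * i)
  have hi0 : (0 : ℝ) ≤ i := Nat.cast_nonneg i
  have hQ : (8 * (P.Lam (2 * i) : ℝ)) ^ P.e (2 * i) ≤ P.L (2 * i) := by
    have hQ0 : 0 ≤ (8 * (P.Lam (2 * i) : ℝ)) ^ P.e (2 * i) := by positivity
    have a1 : (P.L (2 * i) : ℝ) ^ (1 / P.r) ≤ P.L (2 * i) := by
      have := Real.rpow_le_rpow_of_exponent_le hL hr1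
      rwa [Real.rpow_one] at this
    generalize (8 * (P.Lam (2 * i) : ℝ)) ^ P.e (2 * i) = Q at hreg hQ0 ⊢
    have a2 : Q ≤ 7 + 6 * (3 + Q) * P.Lam (2 * i) := by
      have : 6 * (3 + Q) * 1 ≤ 6 * (3 + Q) * P.Lam (2 * i) :=
        mul_le_mul_of_nonneg_left (by linarith) (by linarith)
      linarith
    have a3 : 1 * Q ≤ (P.M (2 * i) : ℝ) * (7 + 6 * (3 + Q) * P.Lam (2 * i)) :=
      mul_le_mul hM a2 hQ0 (by linarith)
    linarith
  have hdn : d ^ (2 * P.e (2 * i)) ≤ P.L (2 * i) := by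
    have : ((d : ℝ) ^ 2) ^ P.e (2 * i) ≤ P.L (2 * i) := by
      refine le_trans (pow_le_pow_left₀ (by positivity) ?_ _) hQ
      have : (i : ℝ) = 8 * (d : ℝ) ^ 2 := by
        rw [hi']
        push_cast
        ring
      nlinarith
    rw [← pow_mul] at this
    exact_mod_cast this
  have hm : 2 * P.e (2 * i) ≤ Nat.log d (P.L (2 * i)) :=
    Nat.le_log_of_pow_le hd2 hdn
  have h7 : (2 : ℝ) ^ (2 * P.e (2 * i)) ≤ P.M (2 * i) * d :=
    le_trans (pow_le_pow_right₀ (by norm_num) hm) hi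
  have h8 : 2 ^ (2 * P.e (2 * i)) ≤ 8 * 2 ^ P.e (2 * i) * d := by
    have : (2 : ℝ) ^ (2 * P.e (2 * i)) ≤ ((8 * 2 ^ P.e (2 * i) : ℕ) : ℝ) * d := h7
    exact_mod_cast this
  have h9 : 2 ^ P.e (2 * i) ≤ 8 * d := by
    have h10 : 2 ^ P.e (2 * i) * 2 ^ P.e (2 * i) ≤ 2 ^ P.e (2 * i) * (8 * d) := by
      calc 2 ^ P.e (2 * i) * 2 ^ P.e (2 * i) = 2 ^ (2 * P.e (2 * i)) := by
            rw [two_mul (P.e (2 * i)), pow_add]
        _ ≤ 8 * 2 ^ P.e (2 * i) * d := h8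
        _ = 2 ^ P.e (2 * i) * (8 * d) := by ring
    exact Nat.le_of_mul_le_mul_left h10 (by positivity)
  have h11 : P.e (2 * i) < 2 ^ P.e (2 * i) := Nat.lt_two_pow_self
  have h12 : d ≤ d ^ 2 := by nlinarith
  omega

theorem exists_D (h : ℕ → ℝ) (c : ℝ) (hc : 0 < c) (hlow : ∀ s, 1 ≤ s → c ≤ h s) (G : ℕ → ℕ) :
    ∃ Ds D, 1 ≤ Ds ∧ Ds ≤ D ∧ G Ds ≤ D ∧ ∀ s, Ds ≤ s → s ≤ D → h s ≤ 2 * h D := by
  classical
  by_cases hB : ∃ B, ∃ n, 1 ≤ n ∧ ∀ s, n ≤ s → h s ≤ B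
  · obtain ⟨B, n0, hn0, hB⟩ := hB
    have hBc : c ≤ B := le_trans (hlow n0 hn0) (hB n0 le_rfl)
    have hex : ∃ k : ℕ, ¬ ∃ n, 1 ≤ n ∧ ∀ s, n ≤ s → h s ≤ B / 2 ^ k := by
      obtain ⟨k, hk⟩ := pow_unbounded_of_one_lt (B / c) (by norm_num : (1 : ℝ) < 2)
      refine ⟨k, ?_⟩
      rintro ⟨n, hn, h1⟩
      have h2 := le_trans (hlow n hn) (h1 n le_rfl)
      rw [le_div_iff₀ (by positivity)] at h2
      rw [div_lt_iff₀ hc] at hk
      linarith
    have hk := Nat.find_spec hex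
    have hmin := fun j (hj : j < Nat.find hex) => not_not.1 (Nat.find_min hex hj)
    have hpos : Nat.find hex ≠ 0 := by
      intro h0
      rw [h0] at hk
      exact hk ⟨n0, hn0, by simpa using hB⟩
    obtain ⟨k, hk'⟩ := Nat.exists_eq_succ_of_ne_zero hpos
    obtain ⟨Ds, hDs, h1⟩ := hmin k (by omega)
    rw [hk'] at hk
    push Not at hk
    obtain ⟨D, hD, h2⟩ := hk (max Ds (G Ds)) (le_trans hDs (le_max_left _ _))
    refine ⟨Ds, D, hDs, le_trans (le_max_left _ _) hD, le_trans (le_max_right _ _) hD,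
      fun s hs _ => ?_⟩
    have h3 := h1 s hs
    have h4 : B / 2 ^ (k.succ) = B / 2 ^ k / 2 := by
      rw [Nat.succ_eq_add_one, pow_succ]
      field_simp
    rw [h4] at h2
    linarith
  · push Not at hB
    obtain ⟨D0, hD0, hD0'⟩ := hB (∑ t ∈ Finset.Icc 1 (max (G 1) 1), h t) 1 le_rfl
    have hex : ∃ s, 1 ≤ s ∧ ∑ t ∈ Finset.Icc 1 (max (G 1) 1), h t < h s := ⟨D0, hD0, hD0'⟩
    obtain ⟨hD1, hD2⟩ := Nat.find_spec hex
    have hmin := fun j (hj : j < Nat.find hex) => Nat.find_min hex hj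
    have hsum : ∀ s, 1 ≤ s → s ≤ max (G 1) 1 → h s ≤ ∑ t ∈ Finset.Icc 1 (max (G 1) 1), h t := by
      intro s hs1 hs2
      refine Finset.single_le_sum (f := h) (fun t ht => ?_) (Finset.mem_Icc.2 ⟨hs1, hs2⟩)
      exact le_trans hc.le (hlow t (Finset.mem_Icc.1 ht).1)
    have hgt : max (G 1) 1 < Nat.find hex := by
      by_contra hcon
      push Not at hcon
      have := hsum _ hD1 hcon
      linarith
    refine ⟨1, Nat.find hex, le_rfl, hD1, le_trans (le_max_left _ _) hgt.le, fun s hs1 hs2 => ?_⟩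
    have hDc := hlow _ hD1
    rcases hs2.eq_or_lt with h3 | h3
    · rw [h3]
      linarith
    · have := hmin s h3
      push Not at this
      have := this hs1
      linarith

end Pool.Agent.HI61
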