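import Pool.Agent.HI61.Defs2

/-!
# HI61/Split : successive functionals against successive vectors

Let `f_0, ..., f_{n-1}` be successive, `s` monotone.  The `k`-th interval is `[s k, s (k+1))`.
PROOF.
`split_two`: Suppose `k1 < k2 < k3` in the filter, all hit by `f l`, and `k2` is hit by another
`f l'`.  Take `i1, i3 ∈ (f l).support` with `blk i1 < s (k1+1) ≤ s k2` and `s k3 ≤ blk i3`,
`s (k2+1) ≤ s k3`, and `i2 ∈ (f l').support` with `s k2 ≤ blk i2 < s (k2+1)`.  So
`blk i1 < blk i2 < blk i3`; if `l < l'` then `Before (f l) (f l')` gives `blk i3 < blk i2`,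
contradiction; if `l' < l` then `blk i2 < blk i1`, contradiction.  A finite set of natural numbers
with at least 3 elements contains `k1 < k2 < k3`.
`split_card`: double counting: every `k ∈ S2` is hit by at least two `l`, every `l` hits at most
two `k ∈ S2` : `2 * #S2 ≤ ∑_{k ∈ S2} #{l | hit} = ∑_l #{k ∈ S2 | hit} ≤ 2 n`.
`ev_eq_zero_of_not_hit`: all the terms of `ev f x` vanish.
-/

namespace Pool.Agent.HI61

open Finset
open scoped Classical

/-- the indices `k ∈ S` which are hit by at least two functionals -/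
noncomputable def S2 {n : ℕ} (s : ℕ → ℕ) (f : Fin n → Fn) (S : Finset ℕ) : Finset ℕ :=
  S.filter fun k => ∃ l l', l ≠ l' ∧ Hit s (f l) k ∧ Hit s (f l') k

theorem split_two {n : ℕ} (f : Fin n → Fn) (hb : ∀ l l', l < l' → Before (f l) (f l'))
    (s : ℕ → ℕ) (hs : Monotone s) (S : Finset ℕ) (l : Fin n) :
    ((S2 s f S).filter fun k => Hit s (f l) k).card ≤ 2 := by
  by_contra hcon
  push Not at hcon
  obtain ⟨e, he⟩ : ∃ e : Fin 3 ↪o ℕ, ∀ i, e i ∈ (S2 s f S).filter fun k => Hit s (f l) k :=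
    ⟨Finset.orderEmbOfCardLe _ (show 3 ≤ ((S2 s f S).filter fun k => Hit s (f l) k).card from hcon),
      fun i => Finset.orderEmbOfCardLe_mem _ _ _⟩
  have h12 : e 0 < e 1 := e.strictMono (by decide)
  have h23 : e 1 < e 2 := e.strictMono (by decide)
  have m0 := he 0
  have m1 := he 1
  have m2 := he 2
  rw [mem_filter] at m0 m1 m2
  obtain ⟨i1, hi1, a1, b1⟩ := m0.2
  obtain ⟨i3, hi3, a3, b3⟩ := m2.2
  obtain ⟨l', hl', i2, hi2, a2, b2⟩ : ∃ l', l' ≠ l ∧ Hit s (f l') (e 1) := by
    have := m1.1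
    unfold S2 at this
    rw [mem_filter] at this
    obtain ⟨-, a, b, hab, ha, hb'⟩ := this
    by_cases hal : a = l
    · exact ⟨b, fun h => hab (hal.trans h.symm), hb'⟩
    · exact ⟨a, hal, ha⟩
  have c1 : s (e 0 + 1) ≤ s (e 1) := hs h12
  have c2 : s (e 1 + 1) ≤ s (e 2) := hs h23
  rcases lt_or_gt_of_ne hl' with h | h
  · have := hb l' l h i2 hi2 i1 hi1
    omega
  · have := hb l l' h i3 hi3 i2 hi2
    omega

theorem split_card {n : ℕ} (f : Fin n → Fn) (hb : ∀ l l', l < l' → Before (f l) (f l'))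
    (s : ℕ → ℕ) (hs : Monotone s) (S : Finset ℕ) : (S2 s f S).card ≤ n := by
  have h := Finset.card_mul_le_card_mul (s := S2 s f S) (t := (Finset.univ : Finset (Fin n)))
    (fun k l => Hit s (f l) k) (m := 2) (n := 2) (fun k hk => by
      unfold S2 at hk
      rw [mem_filter] at hk
      obtain ⟨-, a, b, hab, ha, hb'⟩ := hk
      refine le_trans (le_of_eq (Finset.card_pair hab).symm) (Finset.card_le_card ?_)
      intro x hx
      rw [mem_insert, mem_singleton] at hx
      rw [Finset.mem_bipartiteAbove]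
      rcases hx with rfl | rfl
      · exact ⟨mem_univ _, ha⟩
      · exact ⟨mem_univ _, hb'⟩) (fun l _ => by
      refine le_trans (Finset.card_le_card ?_) (split_two f hb s hs S l)
      intro k hk
      rw [Finset.mem_bipartiteBelow] at hk
      rw [mem_filter]
      exact hk)
  rw [Finset.card_univ, Fintype.card_fin] at h
  omega

theorem ev_eq_zero_of_not_hit (f : Fn) (s : ℕ → ℕ) (k : ℕ) (x : ℕ → ℝ)
    (hx : ∀ i, x i ≠ 0 → s k ≤ blk i ∧ blk i < s (k + 1)) (h : ¬ Hit s f k) : ev f x = 0 := by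
  unfold ev Finsupp.sum
  refine Finset.sum_eq_zero fun i hi => ?_
  by_cases hxi : x i = 0
  · simp only [hxi, mul_zero]
  · exact absurd ⟨i, hi, hx i hxi⟩ h

end Pool.Agent.HI61
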