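import Pool.Agent.HI61.Beta
import Pool.Agent.HI61.RealAn
import Pool.Agent.HI61.Split

/-!
# HI61/Avg : averages exist in every block sequence

PROOF.  Fix `m, lo`; `β = beta P Z m`.  Let `Lx = 1 + ∑_{κ < lo} L κ` (so `L κ ≤ Lx` for `κ < lo`).
By `half_le` (`beta_nonneg, beta_mono, beta_mul, beta_low`), `β d ≥ (1/2) d^{1/r}` for `d ≥ 1`.
Apply `exists_D` to `h s = β s / s^{1/r}`, `c = 1/2`, `G Ds = ⌈(2 (Lx Ds + Lx^2)) ^ r⌉`; then
`β D ≥ (1/2) D^{1/r} ≥ Lx Ds + Lx^2`.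
`beta_attain` for `D`: `v, μ, f0`.  Let `B = sup {|ev f (comb (∑ v))| | f ∈ K}`,
`β D / 2 ≤ B ≤ β D`, `B > 0`; `a = B⁻¹ • ∑_{l < D} v l`.  `Tail m a`: `m ≤ μ 0 ≤ μ l`.
`Unit'`: `Kle` is clear, and there is `f ∈ K` with `|ev f| ≥ 3/4 B` before scaling (replace `f` by
`-f` if necessary, `K_neg`).
`KS P κ (comb a) 6` for `κ < lo`: let `n ≤ L κ ≤ Lx`, `d`, `f` be given.  Put `x k = comb (v k)`,
`s k = Z.s (μ k)` (`comb_supp`: `x k` lives in the blocks `[s k, s (k+1))`), `S = range D`, `S2` as in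
Split, `S1(l) = {k ∈ S \ S2 | Hit s (f l) k}` (pairwise disjoint).  Then
`|∑_l d_l ev (f l) (∑_k x k)| ≤ ∑_{k ∈ S2} ∑_l |d_l| |ev (f l) (x k)| + ∑_l |d_l| |ev (f l) (comb ∑_{S1(l)} v)|`.
First sum `≤ #S2 * n ≤ Lx^2` (`|d_l| ≤ 1`, `split_card`).  Second sum, by `le_beta_finset`,
`≤ ∑_l |d_l| β(#S1(l))`; the terms with `#S1(l) < Ds` contribute at most `Lx * Ds` (`beta_le`); for
the others `β(s) ≤ 2 h(D) s^{1/r}` and by Hölder
`∑ |d_l| #S1(l)^{1/r} ≤ (∑ #S1(l))^{1/r} ≤ D^{1/r}`, so they contribute at most `2 β D`.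
Total `≤ 2 β D + Lx Ds + Lx^2 ≤ 3 β D ≤ 6 B`.
-/

namespace Pool.Agent.HI61

open Finset
open scoped Classical

private theorem ev_comb_sumA {Z : BSeq} (v : ℕ → (ℕ →₀ ℝ)) (S : Finset ℕ) (f : Fn) :
    ev f (Z.comb (∑ l ∈ S, v l)) = ∑ l ∈ S, ev f (Z.comb (v l)) := by
  have h := comb_sum Z v S (fun _ => 1)
  simp only [one_smul] at h
  rw [h, ev_lc]
  simp only [one_mul]

private theorem rA {P : Par} (hG : Good P) : 2 ≤ P.r ∧ Real.HolderConjugate P.rc P.r := by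
  have hq := hG.q1
  have hr2 : 2 ≤ P.r := by unfold Par.r; linarith
  refine ⟨hr2, ?_⟩
  rw [Real.holderConjugate_iff]
  unfold Par.rc
  constructor
  · rw [lt_div_iff₀ (by linarith)]
    linarith
  · have h1 : P.r ≠ 0 := by linarith
    have h2 : P.r - 1 ≠ 0 := by linarith
    field_simp
    ring

/-- the main estimate -/
private theorem main_est {P : Par} (hG : Good P) (Z : BSeq) (m Lx Ds D : ℕ)
    (hDs : 1 ≤ Ds) (hDD : Ds ≤ D)
    (hh : ∀ s : ℕ, Ds ≤ s → s ≤ D →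
      beta P Z m s / (s : ℝ) ^ (1 / P.r) ≤ 2 * (beta P Z m D / (D : ℝ) ^ (1 / P.r)))
    (v : ℕ → (ℕ →₀ ℝ)) (μ : ℕ → ℕ) (hμ : m ≤ μ 0) (hB : Blks μ v D)
    (hv : ∀ l < D, Kle P (Z.comb (v l)) 1)
    (n : ℕ) (hn : n ≤ Lx) (d : Fin n → ℝ) (f : Fin n → Fn) (hf : ∀ l, K P (f l))
    (hb : ∀ l l', l < l' → Before (f l) (f l')) (hd : ∑ l, |d l| ^ P.rc ≤ 1) :
    |∑ l, d l * ev (f l) (Z.comb (∑ l ∈ range D, v l))| ≤
      (Lx : ℝ) ^ 2 + Lx * Ds + 2 * beta P Z m D := by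
  obtain ⟨hr2, hconj⟩ := rA hG
  have hr0 : 0 < P.r := by linarith
  have hrc : 0 < P.rc := hconj.pos
  have hD1 : 1 ≤ D := hDs.trans hDD
  have hD0 : (0 : ℝ) < D := by exact_mod_cast hD1
  have hDp : (0 : ℝ) < (D : ℝ) ^ (1 / P.r) := Real.rpow_pos_of_pos hD0 _
  have hβD := beta_nonneg hG Z m D
  set S := range D with hS
  set s : ℕ → ℕ := fun k => Z.s (μ k) with hs
  have hsm : Monotone s := Z.mono.monotone.comp hB.1
  have hx : ∀ k < D, ∀ i, Z.comb (v k) i ≠ 0 → s k ≤ blk i ∧ blk i < s (k + 1) := by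
    intro k hk i hi
    exact comb_supp Z (v k) (μ k) (μ (k + 1)) (hB.2 k hk) i hi
  set T2 := S2 s f S with hT2
  have hT2S : T2 ⊆ S := Finset.filter_subset _ _
  have hT2c : T2.card ≤ n := split_card f hb s hsm S
  let S1 : Fin n → Finset ℕ := fun l => (S \ T2).filter (fun k => Hit s (f l) k)
  have hS1S : ∀ l, S1 l ⊆ S := fun l =>
    (Finset.filter_subset _ _).trans (Finset.sdiff_subset)
  have hd1 : ∀ l, |d l| ≤ 1 := by
    intro l
    have h1 : |d l| ^ P.rc ≤ 1 := le_trans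
      (Finset.single_le_sum (f := fun l => |d l| ^ P.rc)
        (fun i _ => Real.rpow_nonneg (abs_nonneg _) _) (Finset.mem_univ l)) hd
    by_contra hcon
    push Not at hcon
    have := Real.one_lt_rpow hcon hrc
    linarith
  have hsplit : ∀ l, ev (f l) (Z.comb (∑ l ∈ S, v l)) =
      ∑ k ∈ T2, ev (f l) (Z.comb (v k)) + ev (f l) (Z.comb (∑ k ∈ S1 l, v k)) := by
    intro l
    rw [ev_comb_sumA, ev_comb_sumA, ← Finset.sum_sdiff hT2S, add_comm]
    congr 1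
    rw [Finset.sum_filter]
    refine Finset.sum_congr rfl fun k hk => ?_
    split_ifs with hhit
    · rfl
    · have hkD : k < D := Finset.mem_range.1 (Finset.sdiff_subset hk)
      exact ev_eq_zero_of_not_hit (f l) s k _ (hx k hkD) hhit
  have hcard : ∑ l, (S1 l).card ≤ D := by
    rw [← Finset.card_biUnion]
    · refine le_trans (Finset.card_le_card (Finset.biUnion_subset.2 fun l _ => hS1S l)) ?_
      rw [hS, Finset.card_range]
    · intro l _ l' _ hne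
      rw [Function.onFun, Finset.disjoint_left]
      intro k hk hk'
      have h1 := Finset.mem_filter.1 hk
      have h2 := Finset.mem_filter.1 hk'
      have h3 := Finset.mem_sdiff.1 h1.1
      refine h3.2 ?_
      rw [hT2]
      unfold S2
      exact Finset.mem_filter.2 ⟨h3.1, l, l', hne, h1.2, h2.2⟩
  have hβ : ∀ l, beta P Z m (S1 l).card ≤
      Ds + 2 * (beta P Z m D / (D : ℝ) ^ (1 / P.r)) * ((S1 l).card : ℝ) ^ (1 / P.r) := by
    intro l
    have h0 : 0 ≤ 2 * (beta P Z m D / (D : ℝ) ^ (1 / P.r)) * ((S1 l).card : ℝ) ^ (1 / P.r) := by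
      positivity
    rcases lt_or_ge (S1 l).card Ds with h1 | h1
    · have h2 := beta_le hG Z m (S1 l).card
      have h3 : ((S1 l).card : ℝ) ≤ Ds := by exact_mod_cast h1.le
      linarith
    · have h2 : (S1 l).card ≤ D := by
        have := Finset.card_le_card (hS1S l)
        rwa [hS, Finset.card_range] at this
      have h3 := hh _ h1 h2
      have h4 : (0 : ℝ) < ((S1 l).card : ℝ) ^ (1 / P.r) := by
        apply Real.rpow_pos_of_pos
        exact_mod_cast lt_of_lt_of_le hDs h1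
      rw [div_le_iff₀ h4] at h3
      have h5 : (0 : ℝ) ≤ Ds := Nat.cast_nonneg _
      linarith
  have e1 : ∑ l, d l * ev (f l) (Z.comb (∑ l ∈ S, v l)) =
      ∑ l, d l * ∑ k ∈ T2, ev (f l) (Z.comb (v k)) +
        ∑ l, d l * ev (f l) (Z.comb (∑ k ∈ S1 l, v k)) := by
    rw [← Finset.sum_add_distrib]
    refine Finset.sum_congr rfl fun l _ => ?_
    rw [hsplit]
    ring
  rw [e1]
  have b1 : |∑ l, d l * ∑ k ∈ T2, ev (f l) (Z.comb (v k))| ≤ (Lx : ℝ) ^ 2 := by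
    calc |∑ l, d l * ∑ k ∈ T2, ev (f l) (Z.comb (v k))|
        ≤ ∑ l, |d l * ∑ k ∈ T2, ev (f l) (Z.comb (v k))| := Finset.abs_sum_le_sum_abs _ _
      _ ≤ ∑ _l : Fin n, (n : ℝ) := by
          refine Finset.sum_le_sum fun l _ => ?_
          rw [abs_mul]
          have h1 : |∑ k ∈ T2, ev (f l) (Z.comb (v k))| ≤ n := by
            calc |∑ k ∈ T2, ev (f l) (Z.comb (v k))|
                ≤ ∑ k ∈ T2, |ev (f l) (Z.comb (v k))| := Finset.abs_sum_le_sum_abs _ _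
              _ ≤ ∑ _k ∈ T2, (1 : ℝ) := Finset.sum_le_sum fun k hk =>
                  hv k (Finset.mem_range.1 (hT2S hk)) _ (hf l)
              _ = T2.card := by rw [Finset.sum_const, nsmul_eq_mul, mul_one]
              _ ≤ n := by exact_mod_cast hT2c
          calc |d l| * |∑ k ∈ T2, ev (f l) (Z.comb (v k))| ≤ 1 * n :=
                mul_le_mul (hd1 l) h1 (abs_nonneg _) zero_le_one
            _ = n := one_mul _
      _ = n * n := by rw [Finset.sum_const, Finset.card_univ, Fintype.card_fin, nsmul_eq_mul]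
      _ ≤ (Lx : ℝ) ^ 2 := by
          have : (n : ℝ) ≤ Lx := by exact_mod_cast hn
          have h0 : (0 : ℝ) ≤ n := Nat.cast_nonneg _
          nlinarith
  have b2 : |∑ l, d l * ev (f l) (Z.comb (∑ k ∈ S1 l, v k))| ≤ Lx * Ds + 2 * beta P Z m D := by
    have h1 : |∑ l, d l * ev (f l) (Z.comb (∑ k ∈ S1 l, v k))| ≤
        ∑ l, |d l| * (Ds + 2 * (beta P Z m D / (D : ℝ) ^ (1 / P.r)) *
          ((S1 l).card : ℝ) ^ (1 / P.r)) := by
      refine (Finset.abs_sum_le_sum_abs _ _).trans (Finset.sum_le_sum fun l _ => ?_)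
      rw [abs_mul]
      refine mul_le_mul_of_nonneg_left ?_ (abs_nonneg _)
      refine le_trans ?_ (hβ l)
      exact le_beta_finset hG Z m D v μ hμ hB hv (S1 l) (hS1S l) (f l) (hf l)
    have h2 : ∑ l, |d l| * (Ds + 2 * (beta P Z m D / (D : ℝ) ^ (1 / P.r)) *
          ((S1 l).card : ℝ) ^ (1 / P.r)) =
        (∑ l, |d l|) * Ds + 2 * (beta P Z m D / (D : ℝ) ^ (1 / P.r)) *
          ∑ l, |d l| * ((S1 l).card : ℝ) ^ (1 / P.r) := by
      rw [Finset.sum_mul, Finset.mul_sum, ← Finset.sum_add_distrib]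
      refine Finset.sum_congr rfl fun l _ => ?_
      ring
    have h3 : ∑ l, |d l| ≤ (Lx : ℝ) := by
      calc ∑ l, |d l| ≤ ∑ _l : Fin n, (1 : ℝ) := Finset.sum_le_sum fun l _ => hd1 l
        _ = n := by rw [Finset.sum_const, Finset.card_univ, Fintype.card_fin, nsmul_eq_mul, mul_one]
        _ ≤ Lx := by exact_mod_cast hn
    have h4 : ∑ l, |d l| * ((S1 l).card : ℝ) ^ (1 / P.r) ≤ (D : ℝ) ^ (1 / P.r) := by
      have h5 := Real.inner_le_Lp_mul_Lq (Finset.univ : Finset (Fin n)) (fun l => |d l|)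
        (fun l => ((S1 l).card : ℝ) ^ (1 / P.r)) hconj
      refine h5.trans ?_
      have h6 : (∑ l, |(|d l|)| ^ P.rc) ^ (1 / P.rc) ≤ 1 := by
        simp only [abs_abs]
        exact Real.rpow_le_one (Finset.sum_nonneg fun l _ => Real.rpow_nonneg (abs_nonneg _) _) hd
          (by positivity)
      have h7 : (∑ l, |((S1 l).card : ℝ) ^ (1 / P.r)| ^ P.r) ^ (1 / P.r) ≤ (D : ℝ) ^ (1 / P.r) := by
        refine Real.rpow_le_rpow (Finset.sum_nonneg fun l _ => Real.rpow_nonneg (abs_nonneg _) _) ?_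
          (by positivity)
        have h8 : ∀ l, |((S1 l).card : ℝ) ^ (1 / P.r)| ^ P.r = ((S1 l).card : ℝ) := by
          intro l
          rw [abs_of_nonneg (Real.rpow_nonneg (Nat.cast_nonneg _) _),
            ← Real.rpow_mul (Nat.cast_nonneg _), one_div, inv_mul_cancel₀ hr0.ne', Real.rpow_one]
        rw [Finset.sum_congr rfl fun l _ => h8 l]
        exact_mod_cast hcard
      calc _ ≤ 1 * (D : ℝ) ^ (1 / P.r) := mul_le_mul h6 h7
            (Real.rpow_nonneg (Finset.sum_nonneg fun l _ => Real.rpow_nonneg (abs_nonneg _) _) _)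
            zero_le_one
        _ = _ := one_mul _
    have h5 : 2 * (beta P Z m D / (D : ℝ) ^ (1 / P.r)) *
          ∑ l, |d l| * ((S1 l).card : ℝ) ^ (1 / P.r) ≤ 2 * beta P Z m D := by
      calc _ ≤ 2 * (beta P Z m D / (D : ℝ) ^ (1 / P.r)) * (D : ℝ) ^ (1 / P.r) :=
            mul_le_mul_of_nonneg_left h4 (by positivity)
        _ = 2 * beta P Z m D := by
            field_simp
    have h6 : (∑ l, |d l|) * Ds ≤ (Lx : ℝ) * Ds := mul_le_mul_of_nonneg_right h3 (Nat.cast_nonneg _)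
    rw [h2] at h1
    linarith
  have := abs_add_le (∑ l, d l * ∑ k ∈ T2, ev (f l) (Z.comb (v k)))
    (∑ l, d l * ev (f l) (Z.comb (∑ k ∈ S1 l, v k)))
  linarith

theorem avg {P : Par} (hG : Good P) (Z : BSeq) (hN : NonTriv P Z) :
    Supply P Z (fun _ => True) := by
  intro m lo
  obtain ⟨hr2, hconj⟩ := rA hG
  have hr0 : 0 < P.r := by linarith
  have hhalf := half_le hG (beta P Z m) (beta_nonneg hG Z m) (beta_mono hG Z m)
    (fun a b => beta_mul hG Z m a b) (fun i => beta_low hG Z hN m i)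
  set Lx : ℕ := 1 + ∑ κ ∈ range lo, P.L κ with hLx
  have hLx' : ∀ κ < lo, P.L κ ≤ Lx := by
    intro κ hκ
    have := Finset.single_le_sum (f := fun κ => P.L κ) (fun i _ => Nat.zero_le _)
      (Finset.mem_range.2 hκ)
    omega
  obtain ⟨Ds, D, hDs, hDD, hGD, hh⟩ := exists_D (fun s => beta P Z m s / (s : ℝ) ^ (1 / P.r)) (1 / 2)
    (by norm_num) (fun s hs => by
      have h1 := hhalf s hs
      have h2 : (0 : ℝ) < (s : ℝ) ^ (1 / P.r) := by
        apply Real.rpow_pos_of_pos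
        exact_mod_cast hs
      rw [le_div_iff₀ h2]
      exact h1) (fun Ds => ⌈(2 * ((Lx : ℝ) * Ds + (Lx : ℝ) ^ 2)) ^ P.r⌉₊)
  have hD1 : 1 ≤ D := hDs.trans hDD
  have hD0 : (0 : ℝ) < D := by exact_mod_cast hD1
  have hbig : (Lx : ℝ) * Ds + (Lx : ℝ) ^ 2 ≤ beta P Z m D := by
    have h1 := hhalf D hD1
    have h2 : (2 * ((Lx : ℝ) * Ds + (Lx : ℝ) ^ 2)) ^ P.r ≤ D := Nat.ceil_le.1 hGD
    have h3 : 0 ≤ 2 * ((Lx : ℝ) * Ds + (Lx : ℝ) ^ 2) := by positivity
    have h4 := Real.rpow_le_rpow (Real.rpow_nonneg h3 _) h2 (show 0 ≤ 1 / P.r by positivity)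
    rw [← Real.rpow_mul h3, mul_one_div_cancel hr0.ne', Real.rpow_one] at h4
    linarith
  have hβpos : 0 < beta P Z m D := by
    have h1 := hhalf D hD1
    have h2 : (0 : ℝ) < (D : ℝ) ^ (1 / P.r) := Real.rpow_pos_of_pos hD0 _
    linarith
  obtain ⟨v, μ, hμ, hB, hv, f0, hf0, hf0v⟩ := beta_attain hG Z m D hβpos
  set w : ℕ →₀ ℝ := ∑ l ∈ range D, v l with hw
  set NS : Set ℝ := {t | ∃ f, K P f ∧ t = |ev f (Z.comb w)|} with hNS
  have hbdd : BddAbove NS := by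
    refine ⟨beta P Z m D, ?_⟩
    rintro t ⟨f, hf, rfl⟩
    have := le_beta_finset hG Z m D v μ hμ hB hv (range D) (fun _ h => h) f hf
    rwa [Finset.card_range] at this
  have hne : NS.Nonempty := ⟨_, f0, hf0, rfl⟩
  set B := sSup NS with hBdef
  have hleB : ∀ f, K P f → |ev f (Z.comb w)| ≤ B := fun f hf => le_csSup hbdd ⟨f, hf, rfl⟩
  have hBge : 1 / 2 * beta P Z m D ≤ B := hf0v.trans (hleB f0 hf0)
  have hBpos : 0 < B := by linarith
  obtain ⟨t, ⟨f1, hf1, rfl⟩, ht⟩ := exists_lt_of_lt_csSup hne (show 3 / 4 * B < sSup NS by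
    rw [← hBdef]; linarith)
  obtain ⟨g1, hg1, hg1v⟩ : ∃ g, K P g ∧ 3 / 4 * B ≤ ev g (Z.comb w) := by
    rcases le_total 0 (ev f1 (Z.comb w)) with h | h
    · rw [abs_of_nonneg h] at ht
      exact ⟨f1, hf1, ht.le⟩
    · rw [abs_of_nonpos h] at ht
      exact ⟨-f1, K_neg hG hf1, by rw [ev_neg_left]; exact ht.le⟩
  refine ⟨B⁻¹ • w, ?_, trivial, ⟨?_, g1, hg1, ?_⟩, ?_⟩
  · intro n hn
    have h1 := Finsupp.support_smul hn
    rw [hw] at h1
    have h2 := Finsupp.support_finsetSum h1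
    rw [Finset.mem_biUnion] at h2
    obtain ⟨l, hl, hln⟩ := h2
    have h3 := hB.2 l (Finset.mem_range.1 hl) n hln
    exact (hμ.trans (hB.1 (Nat.zero_le l))).trans h3.1
  · intro f hf
    rw [comb_smul, ev_smul_right, abs_mul, abs_of_pos (inv_pos.2 hBpos)]
    calc B⁻¹ * |ev f (Z.comb w)| ≤ B⁻¹ * B :=
          mul_le_mul_of_nonneg_left (hleB f hf) (inv_pos.2 hBpos).le
      _ = 1 := inv_mul_cancel₀ hBpos.ne'
  · rw [comb_smul, ev_smul_right]
    calc (3 : ℝ) / 4 = B⁻¹ * (3 / 4 * B) := by field_simp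
      _ ≤ B⁻¹ * ev g1 (Z.comb w) := mul_le_mul_of_nonneg_left hg1v (inv_pos.2 hBpos).le
  · intro κ hκ n hn d f hf hb hd
    have h1 := main_est hG Z m Lx Ds D hDs hDD hh v μ hμ hB hv n (hn.trans (hLx' κ hκ)) d f hf hb hd
    have h2 : ∑ l, d l * ev (f l) (Z.comb (B⁻¹ • w)) = B⁻¹ * ∑ l, d l * ev (f l) (Z.comb w) := by
      rw [Finset.mul_sum]
      refine Finset.sum_congr rfl fun l _ => ?_
      rw [comb_smul, ev_smul_right]
      ring
    rw [h2, abs_mul, abs_of_pos (inv_pos.2 hBpos)]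
    calc B⁻¹ * |∑ l, d l * ev (f l) (Z.comb w)| ≤ B⁻¹ * (6 * B) := by
          refine mul_le_mul_of_nonneg_left ?_ (inv_pos.2 hBpos).le
          linarith
      _ = 6 := by field_simp

end Pool.Agent.HI61
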