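import Pool.Agent.HI61.TreeBasic

/-!
# HI61/DomSpec : special combinations are dominated by combinations of one chain

PROOF.  For fixed `z, h, T0` the function `Φ c = A_j * |∑_{t ∈ T0} c t * ev (h t) z|` is convex in
`c : List Fn → ℝ`, so it is enough to bound it by `T / M` at the points of `Atom j`
(`{c | Φ c ≤ T / M}` is convex and contains `Atom j`, hence contains its convex hull:
`convexHull_min`).
Let `c ∈ Atom j` with `v, S`.  Choose for every `t ∈ T0` with `c t ≠ 0` an element `τ t ∈ S` with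
`t <:+ τ t`; for `s ∈ S` let `T_s` be the set of the `t ∈ T0` with `c t ≠ 0`, `τ t = s`, and let
`t_0, ..., t_{n-1}`, `n ≤ ell j = L (2 j + 1)` be its enumeration (`chain_enum` applied to `T_s`
and the chain `s`; all the elements of `T_s` are suffixes of `s`).
Put `d_l = A_j C_j M c (t_l)`, `M = M (2 j + 1)`.  Then
`∑ |d_l| ^ rc ≤ ∑ (A_j C_j M al_j |v (code t_l)|) ^ rc ≤ 1` by `hG.lr` for the set
`D = {code t_l}` (`code_inj`, `base_le_code`; `rc > 0`).  The functionals `h (t_l)` are successive by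
`hbef`.  Hence `|∑ d_l ev (h t_l) z| ≤ T`, i.e. `A_j |∑_{t ∈ T_s} c t ev (h t) z| ≤ T / (C_j M)`.
Sum over the at most `C_j` elements of `S` (`T ≥ 0`: take `n = 0`; `C_j ≥ 1`).
(`rc = r / (r - 1) > 0` because `r = 2 q ≥ 2`.)
-/

namespace Pool.Agent.HI61

open Finset
open scoped Classical

private theorem chain_bound {P : Par} (hG : Good P) (j : ℕ) (z : ℕ → ℝ) (T0 : Finset (List Fn))
    (hT0 : ∀ t ∈ T0, P.NodeOK j t) (c : List Fn → ℝ) (h : List Fn → Fn)
    (hbef : ∀ s ∈ T0, ∀ t ∈ T0, s <:+ t → s ≠ t → Before (h s) (h t))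
    (Q : Fn → Prop) (hQ : ∀ t ∈ T0, Q (h t)) (T : ℝ)
    (hT : ∀ n ≤ P.L (2 * j + 1), ∀ (d : Fin n → ℝ) (f : Fin n → Fn), (∀ l, Q (f l)) →
      (∀ l l', l < l' → Before (f l) (f l')) → ∑ l, |d l| ^ P.rc ≤ 1 →
      |∑ l, d l * ev (f l) z| ≤ T)
    (hrc : 0 ≤ P.rc) (v : ℕ → ℝ) (hv : v ∈ P.VS)
    (hcv : ∀ t, |c t| ≤ P.al j * |v (P.code j t)|)
    (s : List Fn) (Ts : Finset (List Fn)) (hTs : Ts ⊆ T0) (hsuf : ∀ t ∈ Ts, t <:+ s) :
    ((P.A j : ℝ) * P.C j * P.M (2 * j + 1)) * |∑ t ∈ Ts, c t * ev (h t) z| ≤ T := by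
  obtain ⟨n, t, hn, hinj, hlt, hmem⟩ := chain_enum Ts (fun x hx => hT0 x (hTs hx)) s
  have hfil : Ts.filter (fun t => t <:+ s) = Ts :=
    Finset.filter_true_of_mem (fun x hx => hsuf x hx)
  rw [hfil] at hmem
  have htm : ∀ l, t l ∈ Ts := fun l => (hmem _).2 ⟨l, rfl⟩
  have himg : Ts = Finset.univ.image t := by
    ext x
    rw [hmem, Finset.mem_image]
    simp
  have hsum : ∑ x ∈ Ts, c x * ev (h x) z = ∑ l, c (t l) * ev (h (t l)) z := by
    rw [himg, Finset.sum_image (fun a _ b _ e => hinj e)]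
  set κ : ℝ := (P.A j : ℝ) * P.C j * P.M (2 * j + 1) with hκ
  have hκ0 : 0 ≤ κ := by positivity
  have hd : ∑ l, |κ * c (t l)| ^ P.rc ≤ 1 := by
    have h1 := hG.lr j v hv (Finset.univ.image (fun l => P.code j (t l)))
      (by
        refine Finset.card_image_le.trans ?_
        rw [Finset.card_univ, Fintype.card_fin]
        exact hn)
      (by
        intro k hk
        rw [Finset.mem_image] at hk
        obtain ⟨l, _, rfl⟩ := hk
        exact base_le_code P j (t l))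
    rw [Finset.sum_image (fun a _ b _ e => hinj (code_inj P j e))] at h1
    refine le_trans (Finset.sum_le_sum fun l _ => ?_) h1
    refine Real.rpow_le_rpow (abs_nonneg _) ?_ hrc
    rw [abs_mul, abs_of_nonneg hκ0]
    calc κ * |c (t l)| ≤ κ * (P.al j * |v (P.code j (t l))|) :=
          mul_le_mul_of_nonneg_left (hcv _) hκ0
      _ = P.al j * P.C j * P.A j * P.M (2 * j + 1) * |v (P.code j (t l))| := by
          rw [hκ]; ring
  have h2 := hT n hn (fun l => κ * c (t l)) (fun l => h (t l)) (fun l => hQ _ (hTs (htm l)))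
    (fun l l' hl => hbef _ (hTs (htm l)) _ (hTs (htm l')) (hlt l l' hl).1 (hlt l l' hl).2) hd
  have h3 : ∑ l, κ * c (t l) * ev (h (t l)) z = κ * ∑ x ∈ Ts, c x * ev (h x) z := by
    rw [hsum, Finset.mul_sum]
    exact Finset.sum_congr rfl fun l _ => by ring
  rw [h3, abs_mul, abs_of_nonneg hκ0] at h2
  exact h2

theorem dom_spec {P : Par} (hG : Good P) (j : ℕ) (z : ℕ → ℝ) (T0 : Finset (List Fn))
    (hT0 : ∀ t ∈ T0, P.NodeOK j t) (c : List Fn → ℝ) (hc : c ∈ convexHull ℝ (P.Atom j))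
    (h : List Fn → Fn)
    (hbef : ∀ s ∈ T0, ∀ t ∈ T0, s <:+ t → s ≠ t → Before (h s) (h t))
    (Q : Fn → Prop) (hQ : ∀ t ∈ T0, Q (h t)) (T : ℝ)
    (hT : ∀ n ≤ P.L (2 * j + 1), ∀ (d : Fin n → ℝ) (f : Fin n → Fn), (∀ l, Q (f l)) →
      (∀ l l', l < l' → Before (f l) (f l')) → ∑ l, |d l| ^ P.rc ≤ 1 →
      |∑ l, d l * ev (f l) z| ≤ T) :
    P.A j * |∑ t ∈ T0, c t * ev (h t) z| ≤ T / P.M (2 * j + 1) := by
  have hq := hG.q1
  have hrc : 0 ≤ P.rc := by
    unfold Par.rc Par.r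
    apply div_nonneg <;> linarith
  have hTn : 0 ≤ T := by
    have h0 := hT 0 (Nat.zero_le _) (fun l => l.elim0) (fun l => l.elim0) (fun l => l.elim0)
      (fun l => l.elim0) (by simp)
    simpa using h0
  have hM : (0 : ℝ) < P.M (2 * j + 1) := by
    have : 0 < P.M (2 * j + 1) := by
      unfold Par.M
      positivity
    exact_mod_cast this
  have hC : (0 : ℝ) < P.C j := by exact_mod_cast hG.C_pos j
  have hA : (0 : ℝ) < P.A j := by exact_mod_cast hG.A_pos j
  have hsub : P.Atom j ⊆ {c : List Fn → ℝ |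
      P.A j * |∑ t ∈ T0, c t * ev (h t) z| ≤ T / P.M (2 * j + 1)} := by
    rintro c ⟨v, hv, S, hS, hcS, hcv⟩
    show P.A j * |∑ t ∈ T0, c t * ev (h t) z| ≤ T / P.M (2 * j + 1)
    have hτ : ∀ t : List Fn, ∃ s : List Fn, c t ≠ 0 → s ∈ S ∧ t <:+ s := by
      intro t
      by_cases h0 : c t = 0
      · exact ⟨[], fun h1 => absurd h0 h1⟩
      · obtain ⟨s, hs, hs'⟩ := hcS t h0
        exact ⟨s, fun _ => ⟨hs, hs'⟩⟩
    choose τ hτ using hτ
    have e1 : ∑ t ∈ T0, c t * ev (h t) z = ∑ t ∈ T0.filter (fun t => c t ≠ 0), c t * ev (h t) z := by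
      rw [Finset.sum_filter]
      refine Finset.sum_congr rfl fun t _ => ?_
      by_cases h0 : c t = 0
      · simp [h0]
      · rw [if_pos h0]
    have e2 : ∑ t ∈ T0.filter (fun t => c t ≠ 0), c t * ev (h t) z =
        ∑ s ∈ S, ∑ t ∈ (T0.filter (fun t => c t ≠ 0)).filter (fun t => τ t = s),
          c t * ev (h t) z := by
      rw [Finset.sum_fiberwise_of_maps_to]
      intro t ht
      exact (hτ t (Finset.mem_filter.1 ht).2).1
    rw [e1, e2]
    have h4 : ∀ s ∈ S, P.A j * |∑ t ∈ (T0.filter (fun t => c t ≠ 0)).filter (fun t => τ t = s),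
          c t * ev (h t) z| ≤ T / P.M (2 * j + 1) / P.C j := by
      intro s _
      have h5 := chain_bound hG j z T0 hT0 c h hbef Q hQ T hT hrc v hv hcv s
        ((T0.filter (fun t => c t ≠ 0)).filter (fun t => τ t = s))
        ((Finset.filter_subset _ _).trans (Finset.filter_subset _ _))
        (by
          intro t ht
          rw [Finset.mem_filter, Finset.mem_filter] at ht
          have := (hτ t ht.1.2).2
          rwa [ht.2] at this)
      rw [div_div, le_div_iff₀ (by positivity)]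
      calc _ = (P.A j : ℝ) * P.C j * P.M (2 * j + 1) *
            |∑ t ∈ (T0.filter (fun t => c t ≠ 0)).filter (fun t => τ t = s),
              c t * ev (h t) z| := by ring
        _ ≤ T := h5
    calc P.A j * |∑ s ∈ S, ∑ t ∈ (T0.filter (fun t => c t ≠ 0)).filter (fun t => τ t = s),
          c t * ev (h t) z|
        ≤ P.A j * ∑ s ∈ S, |∑ t ∈ (T0.filter (fun t => c t ≠ 0)).filter (fun t => τ t = s),
          c t * ev (h t) z| :=
          mul_le_mul_of_nonneg_left (Finset.abs_sum_le_sum_abs _ _) hA.le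
      _ = ∑ s ∈ S, P.A j * |∑ t ∈ (T0.filter (fun t => c t ≠ 0)).filter (fun t => τ t = s),
          c t * ev (h t) z| := by rw [Finset.mul_sum]
      _ ≤ ∑ _s ∈ S, T / P.M (2 * j + 1) / P.C j := Finset.sum_le_sum h4
      _ = S.card * (T / P.M (2 * j + 1) / P.C j) := by rw [Finset.sum_const, nsmul_eq_mul]
      _ ≤ P.C j * (T / P.M (2 * j + 1) / P.C j) := by
          refine mul_le_mul_of_nonneg_right (by exact_mod_cast hS) ?_
          positivity
      _ = T / P.M (2 * j + 1) := by field_simp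
  have hconv : Convex ℝ {c : List Fn → ℝ |
      P.A j * |∑ t ∈ T0, c t * ev (h t) z| ≤ T / P.M (2 * j + 1)} := by
    intro x hx y hy a b ha hb hab
    show P.A j * |∑ t ∈ T0, (a • x + b • y) t * ev (h t) z| ≤ T / P.M (2 * j + 1)
    have hx' : P.A j * |∑ t ∈ T0, x t * ev (h t) z| ≤ T / P.M (2 * j + 1) := hx
    have hy' : P.A j * |∑ t ∈ T0, y t * ev (h t) z| ≤ T / P.M (2 * j + 1) := hy
    have e : ∑ t ∈ T0, (a • x + b • y) t * ev (h t) z =
        a * ∑ t ∈ T0, x t * ev (h t) z + b * ∑ t ∈ T0, y t * ev (h t) z := by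
      rw [Finset.mul_sum, Finset.mul_sum, ← Finset.sum_add_distrib]
      refine Finset.sum_congr rfl fun t _ => ?_
      simp only [Pi.add_apply, Pi.smul_apply, smul_eq_mul]
      ring
    rw [e]
    calc P.A j * |a * ∑ t ∈ T0, x t * ev (h t) z + b * ∑ t ∈ T0, y t * ev (h t) z|
        ≤ P.A j * (|a * ∑ t ∈ T0, x t * ev (h t) z| + |b * ∑ t ∈ T0, y t * ev (h t) z|) :=
          mul_le_mul_of_nonneg_left (abs_add_le _ _) hA.le
      _ = a * (P.A j * |∑ t ∈ T0, x t * ev (h t) z|) +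
          b * (P.A j * |∑ t ∈ T0, y t * ev (h t) z|) := by
          rw [abs_mul, abs_mul, abs_of_nonneg ha, abs_of_nonneg hb]; ring
      _ ≤ a * (T / P.M (2 * j + 1)) + b * (T / P.M (2 * j + 1)) :=
          add_le_add (mul_le_mul_of_nonneg_left hx' ha) (mul_le_mul_of_nonneg_left hy' hb)
      _ = T / P.M (2 * j + 1) := by rw [← add_mul, hab, one_mul]
  exact convexHull_min hsub hconv hc

end Pool.Agent.HI61
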