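import Pool.Agent.HI61.KClosure
import Pool.Agent.HI61.DomSpec

/-!
# HI61/KInduct : the induction principle for the norming set

PROOF of `K_induct`.  Prove by induction on `InK P ty f` the statement
`Pr' f := ∀ a b, Pr (res a b f)`; the conclusion follows from `exists_res_eq_self`.
* ground: `res_single`, `hg`.
* reg, `f = (1 / M κ) • ∑ d_l • f_l`: `res a b f = (1 / M κ) • ∑ d_l • res a b (f_l)` is in `K` with
  type `some κ` (`InK_res`).  By `hstep` it is enough to prove `Dom P κ Pr (res a b f)`: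
  `|ev (res a b f) z| = (1 / M κ) |∑ d_l ev (res a b (f l)) z| ≤ T / M κ`, where the hypothesis of
  `Dom` is applied to `d` (cast to `ℝ`) and `f' l = res a b (f l)`, which is in `K` and satisfies
  `Pr` by the induction hypothesis (`ev_smul_left`, `ev_sum_left`).
* spec, `f = A_j • ∑ c t • res a' b' (hd t)`: `res a b f` is in `K` with type `some κ`
  (`InK_res`), `κ = 2 j + 1`.  `Dom P κ Pr (res a b f)`: apply `dom_spec` with
  `T0 = c.support`, `h t = res a b (res a' b' (hd t))` (`= res (max a a') (min b b') (hd t)`),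
  `Q f' = K P f' ∧ Pr f'`; `hbef` by `hd_before` and `before_res`; `hQ`: `hd t` is in `K` by `hK`
  (`t = g :: p`, take the suffix `t` of `t`), `Pr (res _ _ (hd t))` is the induction hypothesis for
  `hK t _ g p`.
`dom_K`: apply `K_induct`-like reasoning, or simply: `K_induct` with
`Pr f := True`; more directly prove by cases on `InK` that `Dom P κ (fun _ => True) f`.
(Same computation as above without restrictions.)
-/

namespace Pool.Agent.HI61

open Finset
open scoped Classical

private theorem kind_reg {P : Par} {κ n : ℕ} (hn : n ≤ P.L κ) (d : Fin n → ℚ) (f : Fin n → Fn)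
    (Pr : Fn → Prop) (hK : ∀ l, K P (f l)) (hPr : ∀ l, Pr (f l))
    (hb : ∀ l l', l < l' → Before (f l) (f l')) (hd : ∑ l, |(d l : ℝ)| ^ P.rc ≤ 1) :
    Dom P κ Pr ((1 / (P.M κ : ℚ)) • ∑ l, d l • f l) := by
  intro z T hT
  have h1 := hT n hn (fun l => (d l : ℝ)) f (fun l => ⟨hK l, hPr l⟩) hb hd
  rw [ev_smul_left, ev_sum_left]
  simp only [ev_smul_left]
  rw [abs_mul]
  have : |((1 / (P.M κ : ℚ) : ℚ) : ℝ)| = 1 / (P.M κ : ℝ) := by
    push_cast
    rw [abs_of_nonneg (by positivity)]
  rw [this, one_div, inv_mul_eq_div]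
  exact div_le_div_of_nonneg_right h1 (by positivity)

private theorem kind_spec {P : Par} (hG : Good P) {j : ℕ} (c : List Fn →₀ ℚ)
    (hN : ∀ t ∈ c.support, P.NodeOK j t)
    (h2 : (fun t => (c t : ℝ)) ∈ convexHull ℝ (P.Atom j)) (a b : ℕ) (Pr : Fn → Prop)
    (hK : ∀ t ∈ c.support, K P (res a b (hd t)) ∧ Pr (res a b (hd t))) :
    Dom P (2 * j + 1) Pr ((P.A j : ℚ) • ∑ t ∈ c.support, c t • res a b (hd t)) := by
  intro z T hT
  have hb : ∀ s ∈ c.support, ∀ t ∈ c.support, s <:+ t → s ≠ t →
      Before (res a b (hd s)) (res a b (hd t)) := by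
    intro s hs t ht hst hne
    exact before_res (hd_before (hN t ht) hst (hN s hs).1 hne) a b
  have h1 := dom_spec hG j z c.support hN (fun t => (c t : ℝ)) h2 (fun t => res a b (hd t)) hb
    (fun f => K P f ∧ Pr f) hK T hT
  rw [ev_smul_left, ev_sum_left]
  simp only [ev_smul_left]
  rw [abs_mul]
  have : |((P.A j : ℚ) : ℝ)| = P.A j := by simp
  rw [this]
  exact h1

private theorem kind_hd {P : Par} {j : ℕ} {c : List Fn →₀ ℚ} (hN : ∀ t ∈ c.support, P.NodeOK j t)
    {Q : Fn → Prop} (hK : ∀ t ∈ c.support, ∀ g p, (g :: p) <:+ t → Q g) :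
    ∀ t ∈ c.support, Q (hd t) := by
  intro t ht
  obtain ⟨hne, -, -⟩ := hN t ht
  cases t with
  | nil => exact absurd rfl hne
  | cons g p => exact hK _ ht g p (List.suffix_refl _)

theorem K_induct {P : Par} (hG : Good P) (Pr : Fn → Prop)
    (hg : ∀ (i : ℕ) (s : ℚ), |s| ≤ 1 → Pr (Finsupp.single i s))
    (hstep : ∀ κ f, InK P (some κ) f → Dom P κ Pr f → Pr f) : ∀ f, K P f → Pr f := by
  have key : ∀ ty f, InK P ty f → ∀ a b, Pr (res a b f) := by
    intro ty f hf
    induction hf with
    | ground i s hs =>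
      intro a b
      rw [res_single]
      apply hg
      split_ifs
      · exact hs
      · simp
    | reg κ i n hκ hn d f ty hf hb hd ih =>
      intro a b
      have h0 := InK_res hG (InK.reg κ i n hκ hn d f ty hf hb hd) a b
      apply hstep κ _ h0
      rw [res_smul, res_sum]
      simp only [res_smul]
      exact kind_reg hn d (fun l => res a b (f l)) Pr (fun l => K_res hG ⟨_, hf l⟩ a b)
        (fun l => ih l a b) (fun l l' hl => before_res (hb l l' hl) a b) hd
    | spec κ j a' b' hκ c hN hK h1 h2 ih =>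
      intro a b
      have h0 := InK_res hG (InK.spec κ j a' b' hκ c hN hK h1 h2) a b
      apply hstep κ _ h0
      subst hκ
      rw [res_smul, res_sum]
      simp only [res_smul, res_res]
      apply kind_spec hG c hN h2
      intro t ht
      refine ⟨K_res hG (kind_hd (Q := K P) hN (fun t ht g p hgp => ⟨_, hK t ht g p hgp⟩) t ht)
        _ _, ?_⟩
      exact kind_hd (Q := fun g => ∀ a b, Pr (res a b g)) hN
        (fun t ht g p hgp => ih t ht g p hgp) t ht _ _
  rintro f ⟨ty, hf⟩
  obtain ⟨b, hb⟩ := exists_res_eq_self f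
  rw [← hb]
  exact key ty f hf 0 b

theorem dom_K {P : Par} (hG : Good P) {κ : ℕ} {f : Fn} (hf : InK P (some κ) f) (z : ℕ → ℝ) (T : ℝ)
    (h : KS P κ z T) : |ev f z| ≤ T / P.M κ := by
  have hD : Dom P κ (fun _ => True) f := by
    cases hf with
    | reg κ i n hκ hn d f ty hf hb hd =>
      exact kind_reg hn d f _ (fun l => ⟨_, hf l⟩) (fun _ => trivial) hb hd
    | spec κ j a b hκ c hN hK h1 h2 =>
      subst hκ
      apply kind_spec hG c hN h2
      intro t ht
      exact ⟨K_res hG (kind_hd (Q := K P) hN (fun t ht g p hgp => ⟨_, hK t ht g p hgp⟩) t ht)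
        _ _, trivial⟩
  exact hD z T fun n hn d f' hf' hb hd => h n hn d f' (fun l => (hf' l).1) hb hd

end Pool.Agent.HI61
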