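import Pool.Agent.HI61.OneStep
import Pool.Agent.HI61.KInduct

/-!
# HI61/BI : the basic inequality for rapidly increasing sequences

PROOF.  `split3`: let `f ∈ K` have type `κ ∉ Ex`.  Split `S` into
`Shi = {k | hi k ≤ κ}`, `Slo = {k | κ < lo k}` and the rest `Sex = {k | lo k ≤ κ < hi k}`, which has
at most one element (`hl`, `lh`: for `k < k'` in `range N`, `hi k ≤ lo (k+1) ≤ hi (k+1) ≤ ... ≤ lo k'`).
Hence `|ev f (lc x S θ)| ≤ ∑_{Shi} δ + C + |ev f (lc x Slo θ)|` (`R3`, `R1`, `ev_lc`).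
`BI0` (the case `k = 0`): `|ev f (lc x S θ)| ≤ C (2 + (1 + dl) #S ^ (1/r)) + ∑_S δ` for all `f ∈ K`,
`S ⊆ range N`, `|θ| ≤ 1`: `K_induct` with `Pr f` := this bound for all `S, θ`.  ground: a ground
functional meets at most one `x k`, so the value is at most `C` (`R1`).  Step: `κ ∈ Ex`: `hleaf`.
`κ ∉ Ex`: by `split3` it is enough to bound `|ev f (lc x Slo θ)|`, by `Dom` with
`z = lc x Slo θ` and `T` from `one_step` with `a = 1`, `b = 1 + dl`:
`T = C ((3 + 1) #Slo ^ (1/r) + (1 + dl) #Slo ^ (1/r)) + ∑_{Slo} δ`, `M κ ≥ 8`: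
`T / 8 ≤ C (1 + dl) #S ^ (1/r) + ∑_{Slo} δ`  (`(5 + dl)/8 ≤ 1 + dl`).
`BI`: fix `κ0, k, Lm`.  Prove for `m ≤ k`, by induction on `m`:
`|ev f (lc x S θ)| ≤ C (1 + (8 Lm) ^ m + ((1/2) ^ m + dl) #S ^ (1/r)) + ∑_S δ` for all `f ∈ K, S, θ`.
`m = 0` is `BI0`.  `m → m + 1`: ground: `C`.  `κ ∈ Ex`: `hleaf` (`2 ≤ 1 + (8 Lm) ^ (m+1)`).
`κ ∉ Ex`: `split3`, then `dom_K` for `f` and `z = lc x Slo θ`, where `KS P κ z T` follows from
`one_step`:
 * if `κ ≥ κ0`: `M κ = 8 * 2 ^ e κ ≥ 8 * 2 ^ k`; use the bound `BI0` for the components (`a = 1`,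
   `b = 1 + dl`): `T / M κ ≤ C (5 + dl) / (8 * 2 ^ k) #S ^ (1/r) + ∑ δ ≤ C ((1/2)^(m+1) + dl) #S ^ (1/r) + ∑ δ`;
 * if `κ < κ0`: `L κ ≤ Lm`, use the bound for `m` (`a = (8 Lm) ^ m`, `b = (1/2)^m + dl`):
   `(min #S (L κ)) ^ (1/r) ≤ Lm` (`1/r ≤ 1`, `Lm ≥ 1`) and
   `T / 8 ≤ C ((3 + (8 Lm) ^ m) Lm / 8 + ((1/2) ^ m + dl)/8 * #S ^ (1/r)) + ∑ δ`, and
   `(3 + (8 Lm)^m) Lm / 8 ≤ 4 (8 Lm)^m Lm / 8 ≤ (8 Lm) ^ (m + 1)`.
The sums of `δ` over `Shi` and `Slo` (disjoint) add up to at most `∑_S δ`.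
-/

namespace Pool.Agent.HI61

open Finset
open scoped Classical

/-- consecutive `hi`, `lo` -/
theorem bi_hi_le_lo {P : Par} {x : ℕ → ℕ → ℝ} {s : ℕ → ℕ} {N : ℕ} {C : ℝ}
    {lo hi : ℕ → ℕ} {δ : ℕ → ℝ} (hR : RIS P x s N C lo hi δ) (k k' : ℕ) (h : k < k')
    (h' : k' < N) : hi k ≤ lo k' := by
  induction k' with
  | zero => omega
  | succ n ih =>
    rcases Nat.lt_succ_iff_lt_or_eq.1 h with h1 | h1
    · have h2 := ih h1 (by omega)
      have h3 := hR.lh n (by omega)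
      have h4 := hR.hl n h'
      omega
    · subst h1
      exact hR.hl k h'

theorem bi_split3 {P : Par} {x : ℕ → ℕ → ℝ} {s : ℕ → ℕ} {N : ℕ} {C : ℝ}
    {lo hi : ℕ → ℕ} {δ : ℕ → ℝ} (hR : RIS P x s N C lo hi δ) (κ : ℕ) (f : Fn)
    (hf : InK P (some κ) f) (S : Finset ℕ) (hS : S ⊆ range N) (θ : ℕ → ℝ)
    (hθ : ∀ k, |θ k| ≤ 1) :
    |ev f (lc x S θ)| + ∑ k ∈ S.filter (fun k => κ < lo k), δ k ≤
      C + ∑ k ∈ S, δ k + |ev f (lc x (S.filter (fun k => κ < lo k)) θ)| := by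
  have hterm : ∀ k ∈ S, |θ k * ev f (x k)| ≤ |ev f (x k)| := fun k _ => by
    rw [abs_mul]
    have h1 := mul_le_mul_of_nonneg_right (hθ k) (abs_nonneg (ev f (x k)))
    linarith
  have e1 : ev f (lc x S θ) = ev f (lc x (S.filter (fun k => κ < lo k)) θ) +
      ∑ k ∈ S.filter (fun k => ¬ κ < lo k), θ k * ev f (x k) := by
    rw [ev_lc, ev_lc, Finset.sum_filter_add_sum_filter_not]
  have e2 : ∑ k ∈ S.filter (fun k => ¬ κ < lo k), θ k * ev f (x k) =
      ∑ k ∈ (S.filter (fun k => ¬ κ < lo k)).filter (fun k => hi k ≤ κ), θ k * ev f (x k) +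
      ∑ k ∈ (S.filter (fun k => ¬ κ < lo k)).filter (fun k => ¬ hi k ≤ κ), θ k * ev f (x k) := by
    rw [Finset.sum_filter_add_sum_filter_not]
  have e3 : ∑ k ∈ S, δ k = ∑ k ∈ S.filter (fun k => κ < lo k), δ k +
      ∑ k ∈ S.filter (fun k => ¬ κ < lo k), δ k := by
    rw [Finset.sum_filter_add_sum_filter_not]
  have e4 : ∑ k ∈ (S.filter (fun k => ¬ κ < lo k)).filter (fun k => hi k ≤ κ), δ k ≤
      ∑ k ∈ S.filter (fun k => ¬ κ < lo k), δ k :=
    Finset.sum_le_sum_of_subset_of_nonneg (Finset.filter_subset _ _) fun k _ _ => hR.δ0 k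
  have h1 : |∑ k ∈ (S.filter (fun k => ¬ κ < lo k)).filter (fun k => hi k ≤ κ),
      θ k * ev f (x k)| ≤
      ∑ k ∈ (S.filter (fun k => ¬ κ < lo k)).filter (fun k => hi k ≤ κ), δ k := by
    refine (Finset.abs_sum_le_sum_abs _ _).trans (Finset.sum_le_sum fun k hk => ?_)
    rw [Finset.mem_filter, Finset.mem_filter] at hk
    have hkN : k < N := Finset.mem_range.1 (hS hk.1.1)
    exact (hterm k hk.1.1).trans (hR.R3 k hkN κ hk.2 f hf)
  have h2 : |∑ k ∈ (S.filter (fun k => ¬ κ < lo k)).filter (fun k => ¬ hi k ≤ κ),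
      θ k * ev f (x k)| ≤ C := by
    have hcard : ((S.filter (fun k => ¬ κ < lo k)).filter (fun k => ¬ hi k ≤ κ)).card ≤ 1 := by
      rw [Finset.card_le_one]
      intro a ha b hb
      rw [Finset.mem_filter, Finset.mem_filter] at ha hb
      have haN : a < N := Finset.mem_range.1 (hS ha.1.1)
      have hbN : b < N := Finset.mem_range.1 (hS hb.1.1)
      rcases lt_trichotomy a b with h | h | h
      · have := bi_hi_le_lo hR a b h hbN
        omega
      · exact h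
      · have := bi_hi_le_lo hR b a h haN
        omega
    rcases Finset.card_le_one_iff_subset_singleton.1 hcard with ⟨k0, hk0⟩
    rcases Finset.subset_singleton_iff.1 hk0 with h | h
    · rw [h]; simp only [Finset.sum_empty, abs_zero]; exact hR.C0
    · rw [h, Finset.sum_singleton]
      have hk : k0 ∈ (S.filter (fun k => ¬ κ < lo k)).filter (fun k => ¬ hi k ≤ κ) := by
        rw [h]; exact Finset.mem_singleton_self _
      rw [Finset.mem_filter, Finset.mem_filter] at hk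
      have hkN : k0 < N := Finset.mem_range.1 (hS hk.1.1)
      exact (hterm k0 hk.1.1).trans (hR.R1 k0 hkN f ⟨_, hf⟩)
  rw [e1, e2, e3]
  have h3 := abs_add_le (ev f (lc x (S.filter (fun k => κ < lo k)) θ))
    (∑ k ∈ (S.filter (fun k => ¬ κ < lo k)).filter (fun k => hi k ≤ κ), θ k * ev f (x k) +
      ∑ k ∈ (S.filter (fun k => ¬ κ < lo k)).filter (fun k => ¬ hi k ≤ κ), θ k * ev f (x k))
  have h4 := abs_add_le
    (∑ k ∈ (S.filter (fun k => ¬ κ < lo k)).filter (fun k => hi k ≤ κ), θ k * ev f (x k))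
    (∑ k ∈ (S.filter (fun k => ¬ κ < lo k)).filter (fun k => ¬ hi k ≤ κ), θ k * ev f (x k))
  linarith

/-- a ground functional meets at most one member -/
theorem bi_ground {P : Par} {x : ℕ → ℕ → ℝ} {s : ℕ → ℕ} {N : ℕ} {C : ℝ}
    {lo hi : ℕ → ℕ} {δ : ℕ → ℝ} (hR : RIS P x s N C lo hi δ) (i : ℕ) (q : ℚ) (hq : |q| ≤ 1)
    (S : Finset ℕ) (hS : S ⊆ range N) (θ : ℕ → ℝ) (hθ : ∀ k, |θ k| ≤ 1) :
    |ev (Finsupp.single i q) (lc x S θ)| ≤ C := by
  rw [ev_lc]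
  have h0 : ∀ k ∈ S, ∀ k' ∈ S, x k i ≠ 0 → x k' i ≠ 0 → k = k' := by
    intro a ha b hb h1 h2
    have ha' := hR.supp a (Finset.mem_range.1 (hS ha)) i h1
    have hb' := hR.supp b (Finset.mem_range.1 (hS hb)) i h2
    rcases lt_trichotomy a b with h | h | h
    · have := hR.mono (show a + 1 ≤ b by omega)
      omega
    · exact h
    · have := hR.mono (show b + 1 ≤ a by omega)
      omega
  by_cases hex : ∃ k ∈ S, x k i ≠ 0
  · obtain ⟨k0, hk0, hne⟩ := hex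
    rw [Finset.sum_eq_single_of_mem k0 hk0 (fun k hk hkk => by
      rw [ev_single]
      by_cases hz : x k i = 0
      · rw [hz]; ring
      · exact absurd (h0 k hk k0 hk0 hz hne) hkk)]
    rw [abs_mul]
    have h1 := hR.R1 k0 (Finset.mem_range.1 (hS hk0)) (Finsupp.single i q)
      ⟨none, InK.ground i q hq⟩
    have h2 := mul_le_mul_of_nonneg_right (hθ k0) (abs_nonneg (ev (Finsupp.single i q) (x k0)))
    linarith
  · push Not at hex
    rw [Finset.sum_eq_zero (fun k hk => by rw [ev_single, hex k hk]; ring)]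
    rw [abs_zero]; exact hR.C0

theorem bi_rinv {P : Par} (hG : Good P) : 0 ≤ 1 / P.r ∧ 1 / P.r ≤ 1 := by
  have h := hG.q1
  have h1 : (1 : ℝ) ≤ P.r := by unfold Par.r; linarith
  exact ⟨by positivity, by rw [div_le_one (by linarith)]; exact h1⟩

theorem bi_M {P : Par} (κ : ℕ) : (8 : ℝ) ≤ P.M κ := by
  unfold Par.M
  push_cast
  have : (1 : ℝ) ≤ 2 ^ P.e κ := one_le_pow₀ (by norm_num)
  linarith

/-- the numerical part of the step -/
theorem bi_div {T M M0 : ℝ} (hT : 0 ≤ T) (h0 : 0 < M0) (h : M0 ≤ M) : T / M ≤ T / M0 :=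
  div_le_div_of_nonneg_left hT h0 h

theorem bi_card_rpow {P : Par} (hG : Good P) {m n : ℕ} (h : m ≤ n) :
    (m : ℝ) ^ (1 / P.r) ≤ (n : ℝ) ^ (1 / P.r) :=
  Real.rpow_le_rpow (Nat.cast_nonneg _) (by exact_mod_cast h) (bi_rinv hG).1

theorem bi_card_nonneg {P : Par} (n : ℕ) : 0 ≤ (n : ℝ) ^ (1 / P.r) :=
  Real.rpow_nonneg (Nat.cast_nonneg _) _

theorem bi_zero' {P : Par} (hG : Good P) {x : ℕ → ℕ → ℝ} {s : ℕ → ℕ} {N : ℕ} {C : ℝ}
    {lo hi : ℕ → ℕ} {δ : ℕ → ℝ} (hR : RIS P x s N C lo hi δ) (Ex : Set ℕ) (dl : ℝ) (hdl : 0 ≤ dl)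
    (hleaf : ∀ κ ∈ Ex, ∀ f, InK P (some κ) f → ∀ S ⊆ range N, ∀ θ : ℕ → ℝ, (∀ k, |θ k| ≤ 1) →
      |ev f (lc x S θ)| ≤ C * (2 + dl * (S.card : ℝ) ^ (1 / P.r)) + ∑ k ∈ S, δ k) :
    ∀ f, K P f → ∀ S ⊆ range N, ∀ θ : ℕ → ℝ, (∀ k, |θ k| ≤ 1) →
      |ev f (lc x S θ)| ≤ C * (2 + (1 + dl) * (S.card : ℝ) ^ (1 / P.r)) + ∑ k ∈ S, δ k := by
  have hC := hR.C0
  apply K_induct hG
  · intro i q hq S hS θ hθ
    have h1 := bi_ground hR i q hq S hS θ hθ
    have h2 : 0 ≤ ∑ k ∈ S, δ k := Finset.sum_nonneg fun k _ => hR.δ0 k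
    have h3 := bi_card_nonneg (P := P) S.card
    have h4 : 0 ≤ C * ((1 + dl) * (S.card : ℝ) ^ (1 / P.r)) := by positivity
    have e : C * (2 + (1 + dl) * (S.card : ℝ) ^ (1 / P.r)) =
      C + C + C * ((1 + dl) * (S.card : ℝ) ^ (1 / P.r)) := by ring
    rw [e]
    linarith
  · intro κ f hf hdom S hS θ hθ
    have h3 := bi_card_nonneg (P := P) S.card
    by_cases hκ : κ ∈ Ex
    · have h1 := hleaf κ hκ f hf S hS θ hθ
      have h4 : 0 ≤ C * (S.card : ℝ) ^ (1 / P.r) := by positivity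
      have e : C * (2 + (1 + dl) * (S.card : ℝ) ^ (1 / P.r)) =
        C * (2 + dl * (S.card : ℝ) ^ (1 / P.r)) + C * (S.card : ℝ) ^ (1 / P.r) := by ring
      rw [e]
      linarith
    · obtain ⟨Sl, hSl⟩ : ∃ Sl, Sl = S.filter (fun k => κ < lo k) := ⟨_, rfl⟩
      have hsp := bi_split3 hR κ f hf S hS θ hθ
      rw [← hSl] at hsp
      have hSlS : Sl ⊆ S := by rw [hSl]; exact Finset.filter_subset _ _
      have hdom' := hdom (lc x Sl θ)
        (C * ((3 + 1) * ((min Sl.card (P.L κ) : ℕ) : ℝ) ^ (1 / P.r) +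
          (1 + dl) * (Sl.card : ℝ) ^ (1 / P.r)) + ∑ k ∈ Sl, δ k) (by
        intro n hn d f' hf' hb hd
        refine one_step hG hR κ Sl (hSlS.trans hS)
          (fun k hk => by rw [hSl] at hk; exact (Finset.mem_filter.1 hk).2) θ hθ 1 (1 + dl)
          (by norm_num) (by linarith) n hn d f' (fun l => (hf' l).1) hb hd ?_
        intro l S' hS'
        have h5 := (hf' l).2 S' ((hS'.trans hSlS).trans hS) θ hθ
        rw [show (1 : ℝ) + 1 = 2 by norm_num]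
        exact h5)
      have hmin : ((min Sl.card (P.L κ) : ℕ) : ℝ) ^ (1 / P.r) ≤ (S.card : ℝ) ^ (1 / P.r) :=
        bi_card_rpow hG ((min_le_left _ _).trans (Finset.card_le_card hSlS))
      have hSlc : (Sl.card : ℝ) ^ (1 / P.r) ≤ (S.card : ℝ) ^ (1 / P.r) :=
        bi_card_rpow hG (Finset.card_le_card hSlS)
      have hminn := bi_card_nonneg (P := P) (min Sl.card (P.L κ))
      have hSln := bi_card_nonneg (P := P) Sl.card
      have hδl : 0 ≤ ∑ k ∈ Sl, δ k := Finset.sum_nonneg fun k _ => hR.δ0 k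
      obtain ⟨u, hu⟩ : ∃ u, u = ((min Sl.card (P.L κ) : ℕ) : ℝ) ^ (1 / P.r) := ⟨_, rfl⟩
      obtain ⟨v, hv⟩ : ∃ v, v = (Sl.card : ℝ) ^ (1 / P.r) := ⟨_, rfl⟩
      obtain ⟨w, hw⟩ : ∃ w, w = (S.card : ℝ) ^ (1 / P.r) := ⟨_, rfl⟩
      rw [← hu] at hmin hminn hdom'
      rw [← hv] at hSlc hSln hdom'
      rw [← hw] at hmin hSlc h3 ⊢
      have hT0 : 0 ≤ C * ((3 + 1) * u + (1 + dl) * v) + ∑ k ∈ Sl, δ k := by positivity
      have h6 := bi_div hT0 (by norm_num : (0 : ℝ) < 8) (bi_M (P := P) κ)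
      have h7 : C * ((3 + 1) * u + (1 + dl) * v) ≤ C * ((5 + dl) * w) := by
        refine mul_le_mul_of_nonneg_left ?_ hC
        have := mul_le_mul_of_nonneg_left hSlc (by linarith : (0:ℝ) ≤ 1 + dl)
        linarith
      have h8 : 0 ≤ C * w := by positivity
      have h9 : 0 ≤ C * (dl * w) := by positivity
      have e1 : C * ((5 + dl) * w) = 5 * (C * w) + C * (dl * w) := by ring
      have e2 : C * (2 + (1 + dl) * w) = C + C + C * w + C * (dl * w) := by ring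
      rw [e2]
      have h10 : (C * ((3 + 1) * u + (1 + dl) * v) + ∑ k ∈ Sl, δ k) / 8 ≤
        (5 * (C * w) + C * (dl * w) + ∑ k ∈ Sl, δ k) / 8 := by
        rw [← e1]
        linarith
      linarith

theorem BI {P : Par} (hG : Good P) {x : ℕ → ℕ → ℝ} {s : ℕ → ℕ} {N : ℕ} {C : ℝ}
    {lo hi : ℕ → ℕ} {δ : ℕ → ℝ} (hR : RIS P x s N C lo hi δ) (Ex : Set ℕ) (dl : ℝ) (hdl : 0 ≤ dl)
    (hleaf : ∀ κ ∈ Ex, ∀ f, InK P (some κ) f → ∀ S ⊆ range N, ∀ θ : ℕ → ℝ, (∀ k, |θ k| ≤ 1) →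
      |ev f (lc x S θ)| ≤ C * (2 + dl * (S.card : ℝ) ^ (1 / P.r)) + ∑ k ∈ S, δ k)
    (κ0 k Lm : ℕ) (hLm : 1 ≤ Lm) (h1 : ∀ κ < κ0, κ ∉ Ex → P.L κ ≤ Lm)
    (h2 : ∀ κ, κ0 ≤ κ → κ ∉ Ex → k ≤ P.e κ)
    (f : Fn) (hf : K P f) (S : Finset ℕ) (hS : S ⊆ range N) (θ : ℕ → ℝ) (hθ : ∀ k, |θ k| ≤ 1) :
    |ev f (lc x S θ)| ≤ C * (1 + (8 * (Lm : ℝ)) ^ k + ((1 / 2) ^ k + dl) *
      (S.card : ℝ) ^ (1 / P.r)) + ∑ k ∈ S, δ k := by
  have hC := hR.C0
  have key : ∀ m ≤ k, ∀ f, K P f → ∀ S ⊆ range N, ∀ θ : ℕ → ℝ, (∀ k, |θ k| ≤ 1) →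
      |ev f (lc x S θ)| ≤ C * (1 + (8 * (Lm : ℝ)) ^ m + ((1 / 2) ^ m + dl) *
        (S.card : ℝ) ^ (1 / P.r)) + ∑ k ∈ S, δ k := by
    intro m
    induction m with
    | zero =>
      intro _ f hf S hS θ hθ
      have h := bi_zero' hG hR Ex dl hdl hleaf f hf S hS θ hθ
      rw [pow_zero, pow_zero, show (1 : ℝ) + 1 = 2 by norm_num]
      exact h
    | succ m ih =>
      intro hm f hf S hS θ hθ
      have h3 := bi_card_nonneg (P := P) S.card
      have hδS : 0 ≤ ∑ k ∈ S, δ k := Finset.sum_nonneg fun k _ => hR.δ0 k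
      have hLm1 : (1 : ℝ) ≤ Lm := by exact_mod_cast hLm
      have hpm : (1 : ℝ) ≤ (8 * (Lm : ℝ)) ^ m := one_le_pow₀ (by linarith)
      have hpm1 : (8 * (Lm : ℝ)) ^ (m + 1) = 8 * ((8 * (Lm : ℝ)) ^ m * Lm) := by
        rw [pow_succ]; ring
      have hpmL : (1 : ℝ) ≤ (8 * (Lm : ℝ)) ^ m * Lm := by
        have := mul_le_mul hpm hLm1 zero_le_one (by linarith)
        linarith
      have hh0 : (0 : ℝ) < (1 / 2) ^ m := by positivity
      have hh1 : ((1 : ℝ) / 2) ^ (m + 1) = (1 / 2) ^ m / 2 := by rw [pow_succ]; ring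
      obtain ⟨A, hA⟩ : ∃ A, A = (8 * (Lm : ℝ)) ^ m := ⟨_, rfl⟩
      obtain ⟨H, hH⟩ : ∃ H, H = ((1 : ℝ) / 2) ^ m := ⟨_, rfl⟩
      rw [hpm1, hh1]
      rw [← hA] at hpm hpmL ⊢
      rw [← hH] at hh0 ⊢
      have hgen : C * (1 + 8 * (A * Lm) + (H / 2 + dl) * (S.card : ℝ) ^ (1 / P.r)) =
          C + 8 * (C * (A * Lm)) + (C * (H * (S.card : ℝ) ^ (1 / P.r))) / 2 +
            C * (dl * (S.card : ℝ) ^ (1 / P.r)) := by ring
      rw [hgen]
      have g1 : C ≤ C * (A * Lm) := by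
        have := mul_le_mul_of_nonneg_left hpmL hC
        linarith
      have g2 : 0 ≤ C * (H * (S.card : ℝ) ^ (1 / P.r)) := by positivity
      have g3 : 0 ≤ C * (dl * (S.card : ℝ) ^ (1 / P.r)) := by positivity
      obtain ⟨ty, hf⟩ := hf
      cases ty with
      | none =>
        cases hf with
        | ground i q hq =>
          have h1 := bi_ground hR i q hq S hS θ hθ
          linarith
      | some κ =>
        by_cases hκ : κ ∈ Ex
        · have h1 := hleaf κ hκ f hf S hS θ hθ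
          have e : C * (2 + dl * (S.card : ℝ) ^ (1 / P.r)) =
            C + C + C * (dl * (S.card : ℝ) ^ (1 / P.r)) := by ring
          rw [e] at h1
          linarith
        · obtain ⟨Sl, hSl⟩ : ∃ Sl, Sl = S.filter (fun k => κ < lo k) := ⟨_, rfl⟩
          have hsp := bi_split3 hR κ f hf S hS θ hθ
          rw [← hSl] at hsp
          have hSlS : Sl ⊆ S := by rw [hSl]; exact Finset.filter_subset _ _
          have hSlc : (Sl.card : ℝ) ^ (1 / P.r) ≤ (S.card : ℝ) ^ (1 / P.r) :=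
            bi_card_rpow hG (Finset.card_le_card hSlS)
          have hSln := bi_card_nonneg (P := P) Sl.card
          have hδl : 0 ≤ ∑ k ∈ Sl, δ k := Finset.sum_nonneg fun k _ => hR.δ0 k
          have hminn := bi_card_nonneg (P := P) (min Sl.card (P.L κ))
          by_cases hκ0 : κ0 ≤ κ
          · have hKS : KS P κ (lc x Sl θ)
              (C * ((3 + 1) * ((min Sl.card (P.L κ) : ℕ) : ℝ) ^ (1 / P.r) +
              (1 + dl) * (Sl.card : ℝ) ^ (1 / P.r)) + ∑ k ∈ Sl, δ k) := by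
              intro n hn d f' hf' hb hd
              refine one_step hG hR κ Sl (hSlS.trans hS)
                (fun k hk => by rw [hSl] at hk; exact (Finset.mem_filter.1 hk).2) θ hθ 1 (1 + dl)
                (by norm_num) (by linarith) n hn d f' hf' hb hd ?_
              intro l S' hS'
              have h5 := bi_zero' hG hR Ex dl hdl hleaf (f' l) (hf' l) S'
                ((hS'.trans hSlS).trans hS) θ hθ
              rw [show (1 : ℝ) + 1 = 2 by norm_num]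
              exact h5
            have hdom' := dom_K hG hf _ _ hKS
            have hmin : ((min Sl.card (P.L κ) : ℕ) : ℝ) ^ (1 / P.r) ≤
                (S.card : ℝ) ^ (1 / P.r) :=
              bi_card_rpow hG ((min_le_left _ _).trans (Finset.card_le_card hSlS))
            obtain ⟨u, hu⟩ : ∃ u, u = ((min Sl.card (P.L κ) : ℕ) : ℝ) ^ (1 / P.r) := ⟨_, rfl⟩
            obtain ⟨v, hv⟩ : ∃ v, v = (Sl.card : ℝ) ^ (1 / P.r) := ⟨_, rfl⟩
            obtain ⟨w, hw⟩ : ∃ w, w = (S.card : ℝ) ^ (1 / P.r) := ⟨_, rfl⟩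
            rw [← hu] at hmin hminn hdom'
            rw [← hv] at hSlc hSln hdom'
            rw [← hw] at hmin hSlc h3 g2 g3 ⊢
            have hMk : 8 * ((2 : ℝ) ^ (m + 1)) ≤ P.M κ := by
              have h1 := h2 κ hκ0 hκ
              unfold Par.M
              push_cast
              have : (2 : ℝ) ^ (m + 1) ≤ 2 ^ P.e κ := pow_le_pow_right₀ (by norm_num) (by omega)
              linarith
            have hT0 : 0 ≤ C * ((3 + 1) * u + (1 + dl) * v) + ∑ k ∈ Sl, δ k := by positivity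
            have h6 := bi_div hT0 (by positivity : (0 : ℝ) < 8 * (2 : ℝ) ^ (m + 1)) hMk
            have h7 : C * ((3 + 1) * u + (1 + dl) * v) ≤ 5 * (C * w) + C * (dl * w) := by
              have e1 : C * ((5 + dl) * w) = 5 * (C * w) + C * (dl * w) := by ring
              rw [← e1]
              refine mul_le_mul_of_nonneg_left ?_ hC
              have := mul_le_mul_of_nonneg_left hSlc (by linarith : (0:ℝ) ≤ 1 + dl)
              linarith
            have e3 : (C * ((3 + 1) * u + (1 + dl) * v) + ∑ k ∈ Sl, δ k) / (8 * 2 ^ (m + 1)) =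
              (C * ((3 + 1) * u + (1 + dl) * v) + ∑ k ∈ Sl, δ k) * (H / 16) := by
              have hH' : H = 1 / 2 ^ m := by rw [hH, one_div, inv_pow, one_div]
              have h2m : (2 : ℝ) ^ m ≠ 0 := by positivity
              rw [hH', pow_succ]
              generalize C * ((3 + 1) * u + (1 + dl) * v) + ∑ k ∈ Sl, δ k = X
              field_simp
              ring
            rw [e3] at h6
            have hH1 : H ≤ 1 := by rw [hH]; exact pow_le_one₀ (by norm_num) (by norm_num)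
            have h8 : (C * ((3 + 1) * u + (1 + dl) * v) + ∑ k ∈ Sl, δ k) * (H / 16) ≤
              (5 * (C * w) + C * (dl * w) + ∑ k ∈ Sl, δ k) * (H / 16) := by
              refine mul_le_mul_of_nonneg_right ?_ (by linarith)
              linarith
            have e4 : (5 * (C * w) + C * (dl * w) + ∑ k ∈ Sl, δ k) * (H / 16) =
              5 / 16 * (C * (H * w)) + (C * (dl * w) + ∑ k ∈ Sl, δ k) * (H / 16) := by ring
            have h9 : (C * (dl * w) + ∑ k ∈ Sl, δ k) * (H / 16) ≤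
              (C * (dl * w) + ∑ k ∈ Sl, δ k) * 1 := by
              refine mul_le_mul_of_nonneg_left (by linarith) (by linarith)
            linarith
          · have hLκ : P.L κ ≤ Lm := h1 κ (by omega) hκ
            have hKS : KS P κ (lc x Sl θ)
              (C * ((3 + A) * ((min Sl.card (P.L κ) : ℕ) : ℝ) ^ (1 / P.r) +
              (H + dl) * (Sl.card : ℝ) ^ (1 / P.r)) + ∑ k ∈ Sl, δ k) := by
              intro n hn d f' hf' hb hd
              refine one_step hG hR κ Sl (hSlS.trans hS)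
                (fun k hk => by rw [hSl] at hk; exact (Finset.mem_filter.1 hk).2) θ hθ A (H + dl)
                (by linarith) (by linarith) n hn d f' hf' hb hd ?_
              intro l S' hS'
              have h5 := ih (by omega) (f' l) (hf' l) S' ((hS'.trans hSlS).trans hS) θ hθ
              rw [← hA, ← hH] at h5
              exact h5
            have hdom' := dom_K hG hf _ _ hKS
            have hmin : ((min Sl.card (P.L κ) : ℕ) : ℝ) ^ (1 / P.r) ≤ Lm := by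
              have h5 : ((min Sl.card (P.L κ) : ℕ) : ℝ) ^ (1 / P.r) ≤ (Lm : ℝ) ^ (1 / P.r) :=
                bi_card_rpow hG ((min_le_right _ _).trans hLκ)
              have h6 : (Lm : ℝ) ^ (1 / P.r) ≤ (Lm : ℝ) ^ (1 : ℝ) :=
                Real.rpow_le_rpow_of_exponent_le hLm1 (bi_rinv hG).2
              rw [Real.rpow_one] at h6
              exact h5.trans h6
            obtain ⟨u, hu⟩ : ∃ u, u = ((min Sl.card (P.L κ) : ℕ) : ℝ) ^ (1 / P.r) := ⟨_, rfl⟩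
            obtain ⟨v, hv⟩ : ∃ v, v = (Sl.card : ℝ) ^ (1 / P.r) := ⟨_, rfl⟩
            obtain ⟨w, hw⟩ : ∃ w, w = (S.card : ℝ) ^ (1 / P.r) := ⟨_, rfl⟩
            rw [← hu] at hmin hminn hdom'
            rw [← hv] at hSlc hSln hdom'
            rw [← hw] at hSlc h3 g2 g3 ⊢
            have hA0 : 0 ≤ A := by linarith
            have hHd : 0 ≤ H + dl := by linarith
            have hT0 : 0 ≤ C * ((3 + A) * u + (H + dl) * v) + ∑ k ∈ Sl, δ k := by positivity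
            have h6 := bi_div hT0 (by norm_num : (0 : ℝ) < 8) (bi_M (P := P) κ)
            have h7 : C * ((3 + A) * u + (H + dl) * v) ≤
                4 * (C * (A * Lm)) + C * (H * w) + C * (dl * w) := by
              have e1 : C * (4 * (A * Lm) + (H + dl) * w) =
                4 * (C * (A * Lm)) + C * (H * w) + C * (dl * w) := by ring
              rw [← e1]
              refine mul_le_mul_of_nonneg_left ?_ hC
              have h8 := mul_le_mul_of_nonneg_left hSlc hHd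
              have h9 : (3 + A) * u ≤ (4 * A) * Lm := by
                refine mul_le_mul (by linarith) hmin hminn (by linarith)
              linarith
            linarith
  exact key k le_rfl f hf S hS θ hθ

/-- the basic inequality without exceptional types -/
theorem BI_noex {P : Par} (hG : Good P) {x : ℕ → ℕ → ℝ} {s : ℕ → ℕ} {N : ℕ} {C : ℝ}
    {lo hi : ℕ → ℕ} {δ : ℕ → ℝ} (hR : RIS P x s N C lo hi δ)
    (κ0 k Lm : ℕ) (hLm : 1 ≤ Lm) (h1 : ∀ κ < κ0, P.L κ ≤ Lm) (h2 : ∀ κ, κ0 ≤ κ → k ≤ P.e κ)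
    (f : Fn) (hf : K P f) (S : Finset ℕ) (hS : S ⊆ range N) (θ : ℕ → ℝ) (hθ : ∀ k, |θ k| ≤ 1) :
    |ev f (lc x S θ)| ≤ C * (1 + (8 * (Lm : ℝ)) ^ k + (1 / 2) ^ k *
      (S.card : ℝ) ^ (1 / P.r)) + ∑ k ∈ S, δ k := by
  have := BI hG hR ∅ 0 le_rfl (by simp) κ0 k Lm hLm (fun κ h _ => h1 κ h) (fun κ h _ => h2 κ h)
    f hf S hS θ hθ
  simpa using this

/-- `|f (x)| ≤ C (2 + n^{1/r}) + ∑ δ` -/
theorem BI_zero {P : Par} (hG : Good P) {x : ℕ → ℕ → ℝ} {s : ℕ → ℕ} {N : ℕ} {C : ℝ}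
    {lo hi : ℕ → ℕ} {δ : ℕ → ℝ} (hR : RIS P x s N C lo hi δ)
    (f : Fn) (hf : K P f) (S : Finset ℕ) (hS : S ⊆ range N) (θ : ℕ → ℝ) (hθ : ∀ k, |θ k| ≤ 1) :
    |ev f (lc x S θ)| ≤ C * (2 + (S.card : ℝ) ^ (1 / P.r)) + ∑ k ∈ S, δ k := by
  have := BI_noex hG hR 0 0 1 le_rfl (by simp) (by simp) f hf S hS θ hθ
  simp only [pow_zero] at this
  linarith [this]

/-- large types: splitting off the exceptional member.  For `f ∈ K` of type `κ`:
`|f(∑ θ x)| ≤ C + ∑ δ + (1 / M κ) (C (4 n^{1/r} + n^{1/r}) + ∑ δ)`. -/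
theorem BI_large {P : Par} (hG : Good P) {x : ℕ → ℕ → ℝ} {s : ℕ → ℕ} {N : ℕ} {C : ℝ}
    {lo hi : ℕ → ℕ} {δ : ℕ → ℝ} (hR : RIS P x s N C lo hi δ) (κ : ℕ)
    (f : Fn) (hf : InK P (some κ) f) (S : Finset ℕ) (hS : S ⊆ range N) (θ : ℕ → ℝ)
    (hθ : ∀ k, |θ k| ≤ 1) :
    |ev f (lc x S θ)| ≤ C + ∑ k ∈ S, δ k +
      (5 * C * (S.card : ℝ) ^ (1 / P.r) + ∑ k ∈ S, δ k) / P.M κ := by
  obtain ⟨Sl, hSl⟩ : ∃ Sl, Sl = S.filter (fun k => κ < lo k) := ⟨_, rfl⟩
  have hC := hR.C0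
  have hsp := bi_split3 hR κ f hf S hS θ hθ
  rw [← hSl] at hsp
  have hSlS : Sl ⊆ S := by rw [hSl]; exact Finset.filter_subset _ _
  have hSlc : (Sl.card : ℝ) ^ (1 / P.r) ≤ (S.card : ℝ) ^ (1 / P.r) :=
    bi_card_rpow hG (Finset.card_le_card hSlS)
  have hSln := bi_card_nonneg (P := P) Sl.card
  have hδl : 0 ≤ ∑ k ∈ Sl, δ k := Finset.sum_nonneg fun k _ => hR.δ0 k
  have hδle : ∑ k ∈ Sl, δ k ≤ ∑ k ∈ S, δ k :=
    Finset.sum_le_sum_of_subset_of_nonneg hSlS fun k _ _ => hR.δ0 k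
  have hminn := bi_card_nonneg (P := P) (min Sl.card (P.L κ))
  have hmin : ((min Sl.card (P.L κ) : ℕ) : ℝ) ^ (1 / P.r) ≤ (S.card : ℝ) ^ (1 / P.r) :=
    bi_card_rpow hG ((min_le_left _ _).trans (Finset.card_le_card hSlS))
  have hKS : KS P κ (lc x Sl θ)
    (C * ((3 + 1) * ((min Sl.card (P.L κ) : ℕ) : ℝ) ^ (1 / P.r) +
    1 * (Sl.card : ℝ) ^ (1 / P.r)) + ∑ k ∈ Sl, δ k) := by
    intro n hn d f' hf' hb hd
    refine one_step hG hR κ Sl (hSlS.trans hS)
      (fun k hk => by rw [hSl] at hk; exact (Finset.mem_filter.1 hk).2) θ hθ 1 1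
      (by norm_num) (by norm_num) n hn d f' hf' hb hd ?_
    intro l S' hS'
    have h5 := BI_zero hG hR (f' l) (hf' l) S' ((hS'.trans hSlS).trans hS) θ hθ
    rw [show (1 : ℝ) + 1 = 2 by norm_num, one_mul]
    exact h5
  have hdom' := dom_K hG hf _ _ hKS
  have hM := bi_M (P := P) κ
  have h7 : C * ((3 + 1) * ((min Sl.card (P.L κ) : ℕ) : ℝ) ^ (1 / P.r) +
      1 * (Sl.card : ℝ) ^ (1 / P.r)) ≤ 5 * C * (S.card : ℝ) ^ (1 / P.r) := by
    have e1 : C * (5 * (S.card : ℝ) ^ (1 / P.r)) = 5 * C * (S.card : ℝ) ^ (1 / P.r) := by ring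
    rw [← e1]
    refine mul_le_mul_of_nonneg_left ?_ hC
    linarith
  have h8 : (C * ((3 + 1) * ((min Sl.card (P.L κ) : ℕ) : ℝ) ^ (1 / P.r) +
      1 * (Sl.card : ℝ) ^ (1 / P.r)) + ∑ k ∈ Sl, δ k) / P.M κ ≤
      (5 * C * (S.card : ℝ) ^ (1 / P.r) + ∑ k ∈ S, δ k) / P.M κ := by
    refine div_le_div_of_nonneg_right ?_ (by linarith)
    linarith
  linarith

end Pool.Agent.HI61
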