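import Pool.Agent.HI61.Defs

/-!
# HI61/Basic : elementary identities for `ev`, `res`, `cutv`, `comb`, `lc`, `code`
-/

namespace Pool.Agent.HI61

open Finset
open scoped Classical

theorem ev_eq_sum (f : Fn) (z : ℕ → ℝ) : ev f z = ∑ i ∈ f.support, (f i : ℝ) * z i := rfl

theorem ev_eq_sum_of_subset (f : Fn) (z : ℕ → ℝ) (T : Finset ℕ) (h : f.support ⊆ T) :
    ev f z = ∑ i ∈ T, (f i : ℝ) * z i := by
  rw [ev_eq_sum]
  refine Finset.sum_subset h fun i _ hi => ?_
  rw [Finsupp.notMem_support_iff] at hi
  simp [hi]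

@[simp] theorem ev_zero_left (z : ℕ → ℝ) : ev 0 z = 0 := by simp [ev]

theorem ev_add_left (f g : Fn) (z : ℕ → ℝ) : ev (f + g) z = ev f z + ev g z := by
  unfold ev
  rw [Finsupp.sum_add_index']
  · intro a; simp
  · intro a b c; push_cast; ring

theorem ev_smul_left (c : ℚ) (f : Fn) (z : ℕ → ℝ) : ev (c • f) z = (c : ℝ) * ev f z := by
  unfold ev
  rw [Finsupp.sum_smul_index (by intro i; simp)]
  simp only [Finsupp.sum, Finset.mul_sum]
  refine Finset.sum_congr rfl fun i _ => ?_
  push_cast; ring

theorem ev_neg_left (f : Fn) (z : ℕ → ℝ) : ev (-f) z = - ev f z := by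
  have := ev_smul_left (-1) f z
  simpa using this

theorem ev_sum_left {ι : Type*} (T : Finset ι) (f : ι → Fn) (z : ℕ → ℝ) :
    ev (∑ l ∈ T, f l) z = ∑ l ∈ T, ev (f l) z := by
  classical
  induction T using Finset.induction_on with
  | empty => simp
  | insert a s ha ih => rw [Finset.sum_insert ha, Finset.sum_insert ha, ev_add_left, ih]

@[simp] theorem ev_zero_right (f : Fn) : ev f (fun _ => 0) = 0 := by simp [ev]

theorem ev_add_right (f : Fn) (z w : ℕ → ℝ) : ev f (fun i => z i + w i) = ev f z + ev f w := by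
  simp only [ev_eq_sum, ← Finset.sum_add_distrib]
  exact Finset.sum_congr rfl fun i _ => by ring

theorem ev_sub_right (f : Fn) (z w : ℕ → ℝ) : ev f (fun i => z i - w i) = ev f z - ev f w := by
  simp only [ev_eq_sum, ← Finset.sum_sub_distrib]
  exact Finset.sum_congr rfl fun i _ => by ring

theorem ev_smul_right (f : Fn) (c : ℝ) (z : ℕ → ℝ) : ev f (fun i => c * z i) = c * ev f z := by
  simp only [ev_eq_sum, Finset.mul_sum]
  exact Finset.sum_congr rfl fun i _ => by ring

theorem ev_lc (f : Fn) (x : ℕ → ℕ → ℝ) (S : Finset ℕ) (θ : ℕ → ℝ) :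
    ev f (lc x S θ) = ∑ k ∈ S, θ k * ev f (x k) := by
  simp only [ev_eq_sum, lc, Finset.mul_sum]
  rw [Finset.sum_comm]
  refine Finset.sum_congr rfl fun k _ => Finset.sum_congr rfl fun i _ => by ring

theorem ev_congr (f : Fn) (z w : ℕ → ℝ) (h : ∀ i ∈ f.support, z i = w i) : ev f z = ev f w := by
  simp only [ev_eq_sum]
  exact Finset.sum_congr rfl fun i hi => by rw [h i hi]

theorem ev_single (i : ℕ) (s : ℚ) (z : ℕ → ℝ) : ev (Finsupp.single i s) z = s * z i := by
  unfold ev
  rw [Finsupp.sum_single_index]; simp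

theorem res_apply (a b : ℕ) (f : Fn) (i : ℕ) :
    res a b f i = if a ≤ blk i ∧ blk i < b then f i else 0 := by
  unfold res; rw [Finsupp.filter_apply]

theorem res_support (a b : ℕ) (f : Fn) :
    (res a b f).support = f.support.filter fun i => a ≤ blk i ∧ blk i < b := by
  ext i
  simp only [Finsupp.mem_support_iff, res_apply, Finset.mem_filter]
  by_cases h : a ≤ blk i ∧ blk i < b <;> simp [h]

theorem ev_res (a b : ℕ) (f : Fn) (z : ℕ → ℝ) : ev (res a b f) z = ev f (cutv a b z) := by
  rw [ev_eq_sum_of_subset (res a b f) z f.support, ev_eq_sum]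
  · refine Finset.sum_congr rfl fun i _ => ?_
    rw [res_apply, cutv]
    by_cases h : a ≤ blk i ∧ blk i < b <;> simp [h]
  · rw [res_support]; exact Finset.filter_subset _ _

theorem res_smul (a b : ℕ) (c : ℚ) (f : Fn) : res a b (c • f) = c • res a b f := by
  ext i; simp only [res_apply, Finsupp.smul_apply]; split_ifs <;> simp

theorem res_add (a b : ℕ) (f g : Fn) : res a b (f + g) = res a b f + res a b g := by
  ext i; simp only [res_apply, Finsupp.add_apply]; split_ifs <;> simp

theorem res_neg (a b : ℕ) (f : Fn) : res a b (-f) = - res a b f := by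
  ext i; simp only [res_apply, Finsupp.neg_apply]; split_ifs <;> simp

@[simp] theorem res_zero (a b : ℕ) : res a b 0 = 0 := by
  ext i; simp [res_apply]

theorem res_sum {ι : Type*} (a b : ℕ) (T : Finset ι) (f : ι → Fn) :
    res a b (∑ l ∈ T, f l) = ∑ l ∈ T, res a b (f l) := by
  classical
  induction T using Finset.induction_on with
  | empty => simp
  | insert a s ha ih => rw [Finset.sum_insert ha, Finset.sum_insert ha, res_add, ih]

theorem res_res (a b a' b' : ℕ) (f : Fn) :
    res a b (res a' b' f) = res (max a a') (min b b') f := by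
  ext i; simp only [res_apply]
  split_ifs with h1 h2 h3 h4 <;> first | rfl | (exfalso; omega)

theorem res_eq_self (a b : ℕ) (f : Fn) (h : ∀ i ∈ f.support, a ≤ blk i ∧ blk i < b) :
    res a b f = f := by
  ext i; rw [res_apply]
  by_cases hi : f i = 0
  · simp [hi]
  · rw [if_pos (h i (Finsupp.mem_support_iff.2 hi))]

theorem res_single (a b i : ℕ) (s : ℚ) :
    res a b (Finsupp.single i s) = Finsupp.single i (if a ≤ blk i ∧ blk i < b then s else 0) := by
  ext k; rw [res_apply]
  by_cases hk : i = k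
  · subst hk; simp
  · simp [Finsupp.single_apply, hk]

/-- `res` over all the blocks -/
theorem exists_res_eq_self (f : Fn) : ∃ b, res 0 b f = f := by
  refine ⟨f.support.sup blk + 1, res_eq_self _ _ _ fun i hi => ⟨Nat.zero_le _, ?_⟩⟩
  exact Nat.lt_succ_of_le (Finset.le_sup (f := blk) hi)

theorem cutv_cutv (a b a' b' : ℕ) (z : ℕ → ℝ) :
    cutv a b (cutv a' b' z) = cutv (max a a') (min b b') z := by
  funext i; simp only [cutv]
  split_ifs with h1 h2 h3 h4 <;> first | rfl | (exfalso; omega)

theorem before_res_left {f g : Fn} (h : Before f g) (a b : ℕ) : Before (res a b f) g := by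
  intro i hi j hj
  rw [res_support, Finset.mem_filter] at hi
  exact h i hi.1 j hj

theorem before_res_right {f g : Fn} (h : Before f g) (a b : ℕ) : Before f (res a b g) := by
  intro i hi j hj
  rw [res_support, Finset.mem_filter] at hj
  exact h i hi j hj.1

theorem before_res {f g : Fn} (h : Before f g) (a b : ℕ) : Before (res a b f) (res a b g) :=
  before_res_left (before_res_right h a b) a b

theorem before_smul {f g : Fn} (h : Before f g) (c d : ℚ) : Before (c • f) (d • g) :=
  fun i hi j hj => h i (Finsupp.support_smul hi) j (Finsupp.support_smul hj)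

theorem comb_apply (Z : BSeq) (a : ℕ →₀ ℝ) (i : ℕ) : Z.comb a i = a.sum fun n c => c * Z.ζ n i :=
  rfl

theorem comb_add (Z : BSeq) (a b : ℕ →₀ ℝ) :
    Z.comb (a + b) = fun i => Z.comb a i + Z.comb b i := by
  funext i
  simp only [comb_apply]
  rw [Finsupp.sum_add_index']
  · intro n; simp
  · intro n c d; ring

theorem comb_smul (Z : BSeq) (c : ℝ) (a : ℕ →₀ ℝ) :
    Z.comb (c • a) = fun i => c * Z.comb a i := by
  funext i
  simp only [comb_apply]
  rw [Finsupp.sum_smul_index (by intro n; simp)]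
  simp only [Finsupp.sum, Finset.mul_sum]
  exact Finset.sum_congr rfl fun n _ => by ring

@[simp] theorem comb_zero (Z : BSeq) : Z.comb 0 = fun _ => 0 := by
  funext i; simp [comb_apply]

theorem comb_sum (Z : BSeq) (x : ℕ → (ℕ →₀ ℝ)) (S : Finset ℕ) (θ : ℕ → ℝ) :
    Z.comb (∑ k ∈ S, θ k • x k) = lc (fun k => Z.comb (x k)) S θ := by
  classical
  induction S using Finset.induction_on with
  | empty => funext i; simp [lc]
  | insert a s ha ih =>
    rw [Finset.sum_insert ha, comb_add, ih, comb_smul]
    funext i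
    simp only [lc]
    rw [Finset.sum_insert ha]

theorem comb_supp (Z : BSeq) (a : ℕ →₀ ℝ) (m m' : ℕ) (h : ∀ n ∈ a.support, m ≤ n ∧ n < m') (i : ℕ)
    (hi : Z.comb a i ≠ 0) : Z.s m ≤ blk i ∧ blk i < Z.s m' := by
  rw [comb_apply, Finsupp.sum] at hi
  obtain ⟨n, hn, hne⟩ := Finset.exists_ne_zero_of_sum_ne_zero hi
  have h1 := Z.supp n i (fun h0 => hne (by rw [h0]; simp))
  have h2 := h n hn
  exact ⟨(Z.mono.monotone h2.1).trans h1.1, h1.2.trans_le (Z.mono.monotone h2.2)⟩

theorem comb_bd (Z : BSeq) (a : ℕ →₀ ℝ) : ∃ B : ℝ, ∀ i, |Z.comb a i| ≤ B := by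
  choose B hB using Z.bd
  refine ⟨∑ n ∈ a.support, |a n| * B n, fun i => ?_⟩
  rw [comb_apply, Finsupp.sum]
  refine (Finset.abs_sum_le_sum_abs _ _).trans (Finset.sum_le_sum fun n _ => ?_)
  rw [abs_mul]
  exact mul_le_mul_of_nonneg_left (hB n i) (abs_nonneg _)

theorem lc_apply (x : ℕ → ℕ → ℝ) (S : Finset ℕ) (θ : ℕ → ℝ) (i : ℕ) :
    lc x S θ i = ∑ k ∈ S, θ k * x k i := rfl

/-! ### codes -/

theorem encL_inj : Function.Injective encL := by
  intro s
  induction s with
  | nil => intro t h; cases t with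
    | nil => rfl
    | cons g p => simp [encL] at h
  | cons g p ih => intro t h; cases t with
    | nil => simp [encL] at h
    | cons g' p' =>
      simp only [encL, Nat.add_right_cancel_iff, Nat.pair_eq_pair] at h
      rw [enc_inj h.1, ih h.2]

theorem encL_lt (g : Fn) (p : List Fn) : encL p < encL (g :: p) := by
  simp only [encL]
  exact Nat.lt_succ_of_le (Nat.right_le_pair _ _)

theorem mb_le (g : Fn) (p : List Fn) : mb p ≤ mb (g :: p) := le_max_right _ _

theorem blk_le_mb (g : Fn) (p : List Fn) (i : ℕ) (hi : i ∈ g.support) : blk i ≤ mb (g :: p) :=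
  le_max_of_le_left (Finset.le_sup (f := blk) hi)

variable (P : Par)

theorem code_inj (j : ℕ) : Function.Injective (P.code j) := by
  intro s t h
  simp only [Par.code, Nat.add_left_cancel_iff, Nat.pair_eq_pair] at h
  exact encL_inj h.1

theorem sig_inj (j : ℕ) : Function.Injective (P.sig j) := by
  intro s t h
  simp only [Par.sig, Nat.add_left_cancel_iff] at h
  exact encL_inj h

theorem code_lt (j : ℕ) (g : Fn) (p : List Fn) : P.code j p < P.code j (g :: p) := by
  simp only [Par.code, Nat.add_lt_add_iff_left]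
  calc Nat.pair (encL p) (mb p) < Nat.pair (encL (g :: p)) (mb p) :=
        Nat.pair_lt_pair_left _ (encL_lt g p)
    _ ≤ Nat.pair (encL (g :: p)) (mb (g :: p)) := by
        rcases (mb_le g p).eq_or_lt with h | h
        · rw [h]
        · exact (Nat.pair_lt_pair_right _ h).le

theorem blk_le_code (j : ℕ) (g : Fn) (p : List Fn) (i : ℕ) (hi : i ∈ g.support) :
    blk i ≤ P.code j (g :: p) :=
  (blk_le_mb g p i hi).trans ((Nat.right_le_pair _ _).trans (Nat.le_add_left _ _))

theorem base_le_code (j : ℕ) (t : List Fn) : P.base j ≤ P.code j t := Nat.le_add_right _ _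

theorem W_le_sig (j : ℕ) (t : List Fn) : P.W j ≤ P.sig j t := Nat.le_add_right _ _

/-- codes increase along chains -/
theorem code_mono (j : ℕ) {s t : List Fn} (h : s <:+ t) : P.code j s ≤ P.code j t := by
  induction t with
  | nil => rw [List.suffix_nil] at h; rw [h]
  | cons g p ih =>
    rcases List.suffix_cons_iff.1 h with h | h
    · rw [h]
    · exact (ih h).trans (code_lt P j g p).le

theorem code_strict (j : ℕ) {s t : List Fn} (h : s <:+ t) (hne : s ≠ t) :
    P.code j s < P.code j t :=
  lt_of_le_of_ne (code_mono P j h) fun he => hne (code_inj P j he)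

end Pool.Agent.HI61
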