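import Pool.Agent.HI61.WDefs3

/-!
# HI61/BasisGlue : a Schauder basis from uniformly equivalent bases of the summands

PROOF.  Let `D_k = Q k - Q (k-1)` (`Q (-1) = 0`), `N_k = ∑_{l<k} n l`.
(1) `D_k x` is a combination `∑_{i < n k} β_i • e k i`: by `hrange`, `Q k x` is a combination of `e l i`,
`l ≤ k`; apply `D_k`: `D_k (Q k x) = D_k x` (by `hQe` and continuity, or: `Q k x - Q (k-1) (Q k x)`; note
`Q (k-1) (Q k x) = Q (k-1) x` is `hcomp`), and `D_k (e l i) = e k i` if `l = k`, `0` if `l < k`.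
(2) The coefficients are unique: if `∑_{i<n k} β_i • e k i = 0` then by `hblock` all the partial sums vanish,
so `β_i • e k i = 0`, `β_i = 0` (`hne`).
(3) `N_k → ∞`: otherwise `n l = 0` for `l ≥ k0`, so by `hrange` all `Q k x` lie in a fixed finite
dimensional (closed) subspace, and so does `x = lim Q k x`; contradiction to `hinf`.
(4) For `m : ℕ` let `k` be the unique index with `N_k ≤ m < N_{k+1}` and `e' m = e k (m - N_k)`.
For `x : W` let `a m` be the coefficient of `D_k x` at `m - N_k`.  Then for `N_k ≤ m < N_{k+1}`,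
`∑_{m' < m} a m' • e' m' = Q (k-1) x + ∑_{i < m - N_k} β_i • e k i`, and the second term has norm at most
`C ‖D_k x‖ → 0` (`hlim`); `Q (k-1) x → x`.  So the series converges to `x`.
(5) Uniqueness: if `∑ a m • e' m = ∑ a' m • e' m` then applying the continuous operator `D_k` to the partial
sums (which become constant, `hQe`): `∑_{i<n k} (a - a')_{N_k + i} • e k i = 0`; use (2).
-/

namespace Pool.Agent.HI61

open Finset Filter Topology

section BG

variable {W : Type} [NormedAddCommGroup W] [NormedSpace ℝ W]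

/-- shifted projections -/
private noncomputable def PPbg (Q : ℕ → W →L[ℝ] W) : ℕ → W →L[ℝ] W
  | 0 => 0
  | k + 1 => Q k

/-- differences -/
private noncomputable def DDbg (Q : ℕ → W →L[ℝ] W) (k : ℕ) : W →L[ℝ] W :=
  PPbg Q (k + 1) - PPbg Q k

private theorem PPbg_comp (Q : ℕ → W →L[ℝ] W)
    (hcomp : ∀ k l x, Q k (Q l x) = Q (min k l) x) (k l : ℕ) (x : W) :
    PPbg Q k (PPbg Q l x) = PPbg Q (min k l) x := by
  cases k with
  | zero => simp [PPbg]
  | succ k =>
    cases l with
    | zero => simp [PPbg]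
    | succ l =>
      rw [Nat.succ_min_succ]
      exact hcomp k l x

private theorem PPbg_e (n : ℕ → ℕ) (e : ℕ → ℕ → W) (Q : ℕ → W →L[ℝ] W)
    (hQe : ∀ k l i, i < n l → Q k (e l i) = if l ≤ k then e l i else 0) (k l i : ℕ)
    (hi : i < n l) : PPbg Q k (e l i) = if l < k then e l i else 0 := by
  cases k with
  | zero => simp [PPbg]
  | succ k =>
    rw [show PPbg Q (k + 1) = Q k from rfl, hQe k l i hi]
    by_cases h : l ≤ k
    · rw [if_pos h, if_pos (Nat.lt_succ_of_le h)]
    · rw [if_neg h, if_neg (fun h' => h (Nat.le_of_lt_succ h'))]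

private theorem DDbg_e (n : ℕ → ℕ) (e : ℕ → ℕ → W) (Q : ℕ → W →L[ℝ] W)
    (hQe : ∀ k l i, i < n l → Q k (e l i) = if l ≤ k then e l i else 0) (k l i : ℕ)
    (hi : i < n l) : DDbg Q k (e l i) = if l = k then e l i else 0 := by
  unfold DDbg
  rw [sub_apply, PPbg_e n e Q hQe _ _ _ hi, PPbg_e n e Q hQe _ _ _ hi]
  rcases lt_trichotomy l k with h | h | h
  · rw [if_pos (by omega), if_pos h, if_neg (by omega), sub_self]
  · rw [if_pos (by omega), if_neg (by omega), if_pos h, sub_zero]
  · rw [if_neg (by omega), if_neg (by omega), if_neg (by omega), sub_self]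

private theorem PPbg_lim (Q : ℕ → W →L[ℝ] W)
    (hlim : ∀ x, Tendsto (fun k => Q k x) atTop (𝓝 x)) (x : W) :
    Tendsto (fun k => PPbg Q k x) atTop (𝓝 x) := by
  rw [← tendsto_add_atTop_iff_nat 1]
  exact hlim x

private theorem DDbg_lim (Q : ℕ → W →L[ℝ] W)
    (hlim : ∀ x, Tendsto (fun k => Q k x) atTop (𝓝 x)) (x : W) :
    Tendsto (fun k => DDbg Q k x) atTop (𝓝 0) := by
  have h1 := PPbg_lim Q hlim x
  have h2 := (tendsto_add_atTop_iff_nat 1).2 h1
  have h3 := h2.sub h1
  rw [sub_self] at h3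
  exact h3

private theorem DDbg_rep (n : ℕ → ℕ) (e : ℕ → ℕ → W) (Q : ℕ → W →L[ℝ] W)
    (hcomp : ∀ k l x, Q k (Q l x) = Q (min k l) x)
    (hQe : ∀ k l i, i < n l → Q k (e l i) = if l ≤ k then e l i else 0)
    (hrange : ∀ k x, Q k x ∈ Submodule.span ℝ {y | ∃ l i, l ≤ k ∧ i < n l ∧ y = e l i})
    (k : ℕ) (x : W) : ∃ β : ℕ → ℝ, DDbg Q k x = ∑ i ∈ range (n k), β i • e k i := by
  have key : ∀ y ∈ Submodule.span ℝ {y | ∃ l i, l ≤ k ∧ i < n l ∧ y = e l i},
      ∃ β : ℕ → ℝ, DDbg Q k y = ∑ i ∈ range (n k), β i • e k i := by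
    intro y hy
    induction hy using Submodule.span_induction with
    | mem y hy =>
      obtain ⟨l, i, hl, hi, rfl⟩ := hy
      rw [DDbg_e n e Q hQe k l i hi]
      by_cases h : l = k
      · subst h
        refine ⟨fun j => if j = i then 1 else 0, ?_⟩
        rw [if_pos rfl, Finset.sum_eq_single i]
        · simp only [if_true, one_smul]
        · intro j _ hj
          simp only [if_neg hj, zero_smul]
        · intro h
          exact absurd (mem_range.2 hi) h
      · exact ⟨0, by simp [if_neg h]⟩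
    | zero => exact ⟨0, by simp⟩
    | add y z _ _ hy hz =>
      obtain ⟨β, hβ⟩ := hy
      obtain ⟨γ, hγ⟩ := hz
      exact ⟨β + γ, by
        rw [map_add, hβ, hγ, ← Finset.sum_add_distrib]
        exact Finset.sum_congr rfl fun i _ => by rw [Pi.add_apply, add_smul]⟩
    | smul c y _ hy =>
      obtain ⟨β, hβ⟩ := hy
      exact ⟨fun i => c * β i, by
        rw [map_smul, hβ, Finset.smul_sum]
        exact Finset.sum_congr rfl fun i _ => by rw [mul_smul]⟩
  obtain ⟨β, hβ⟩ := key (Q k x) (hrange k x)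
  refine ⟨β, ?_⟩
  rw [← hβ]
  have h1 : DDbg Q k (Q k x) = PPbg Q (k + 1) (PPbg Q (k + 1) x) - PPbg Q k (PPbg Q (k + 1) x) := rfl
  rw [h1, PPbg_comp Q hcomp, PPbg_comp Q hcomp, min_self, Nat.min_eq_left (Nat.le_succ k)]
  rfl

private theorem coef_zero_bg (n : ℕ → ℕ) (e : ℕ → ℕ → W) (C : ℝ)
    (hne : ∀ l i, i < n l → e l i ≠ 0)
    (hblock : ∀ (k : ℕ) (β : ℕ → ℝ) (m : ℕ), m ≤ n k →
      ‖∑ i ∈ range m, β i • e k i‖ ≤ C * ‖∑ i ∈ range (n k), β i • e k i‖)
    (k : ℕ) (β : ℕ → ℝ) (h0 : ∑ i ∈ range (n k), β i • e k i = 0) (i : ℕ) (hi : i < n k) :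
    β i = 0 := by
  have hz : ∀ m, m ≤ n k → ∑ i ∈ range m, β i • e k i = 0 := by
    intro m hm
    have h := hblock k β m hm
    rw [h0, norm_zero, mul_zero] at h
    exact norm_le_zero_iff.1 h
  have h1 := hz (i + 1) hi
  rw [Finset.sum_range_succ, hz i hi.le, zero_add] at h1
  rcases smul_eq_zero.1 h1 with h | h
  · exact h
  · exact absurd h (hne k i hi)

private theorem inf_blocks_bg (n : ℕ → ℕ) (e : ℕ → ℕ → W) (Q : ℕ → W →L[ℝ] W)
    (hlim : ∀ x, Tendsto (fun k => Q k x) atTop (𝓝 x))
    (hrange : ∀ k x, Q k x ∈ Submodule.span ℝ {y | ∃ l i, l ≤ k ∧ i < n l ∧ y = e l i})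
    (hinf : ¬ FiniteDimensional ℝ W) (k0 : ℕ) : ∃ l, k0 ≤ l ∧ 0 < n l := by
  by_contra hcon
  push Not at hcon
  apply hinf
  let A : Set W := ⋃ l ∈ Set.Iio k0, (fun i => e l i) '' (Set.Iio (n l))
  have hA : A.Finite := (Set.finite_Iio k0).biUnion fun l _ => (Set.finite_Iio (n l)).image _
  have hF : FiniteDimensional ℝ (Submodule.span ℝ A) := FiniteDimensional.span_of_finite ℝ hA
  have hcl : IsClosed (Submodule.span ℝ A : Set W) := Submodule.closed_of_finiteDimensional _
  have hall : ∀ k x, Q k x ∈ Submodule.span ℝ A := by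
    intro k x
    refine Submodule.span_mono ?_ (hrange k x)
    rintro y ⟨l, i, _, hi, rfl⟩
    have hl : l < k0 := by
      by_contra hl
      have := hcon l (by omega)
      omega
    exact Set.mem_biUnion (show l ∈ Set.Iio k0 from hl) ⟨i, hi, rfl⟩
  have htop : Submodule.span ℝ A = ⊤ := by
    rw [eq_top_iff]
    intro x _
    exact hcl.mem_of_tendsto (hlim x) (Eventually.of_forall fun k => hall k x)
  rw [htop] at hF
  exact Module.Finite.equiv (Submodule.topEquiv (R := ℝ) (M := W))

private theorem unbdd_bg (n : ℕ → ℕ) (hn : ∀ k0, ∃ l, k0 ≤ l ∧ 0 < n l) (m : ℕ) :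
    ∃ k, m < ∑ l ∈ range (k + 1), n l := by
  have hmono : Monotone fun k => ∑ l ∈ range k, n l := fun a b hab =>
    Finset.sum_le_sum_of_subset (Finset.range_subset_range.2 hab)
  induction m with
  | zero =>
    obtain ⟨l, _, hl⟩ := hn 0
    exact ⟨l, by rw [Finset.sum_range_succ]; omega⟩
  | succ m ih =>
    obtain ⟨k, hk⟩ := ih
    obtain ⟨l, hl, hl0⟩ := hn (k + 1)
    refine ⟨l, ?_⟩
    have h1 := hmono hl
    simp only at h1
    rw [Finset.sum_range_succ _ l]
    omega

end BG

theorem basis_of_blocks {W : Type} [NormedAddCommGroup W] [NormedSpace ℝ W] [CompleteSpace W]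
    (n : ℕ → ℕ) (e : ℕ → ℕ → W) (Q : ℕ → W →L[ℝ] W) (C : ℝ)
    (hcomp : ∀ k l x, Q k (Q l x) = Q (min k l) x)
    (hQe : ∀ k l i, i < n l → Q k (e l i) = if l ≤ k then e l i else 0)
    (hlim : ∀ x, Tendsto (fun k => Q k x) atTop (𝓝 x))
    (hrange : ∀ k x, Q k x ∈ Submodule.span ℝ {y | ∃ l i, l ≤ k ∧ i < n l ∧ y = e l i})
    (hne : ∀ l i, i < n l → e l i ≠ 0)
    (hblock : ∀ (k : ℕ) (β : ℕ → ℝ) (m : ℕ), m ≤ n k →
      ‖∑ i ∈ range m, β i • e k i‖ ≤ C * ‖∑ i ∈ range (n k), β i • e k i‖)
    (hinf : ¬ FiniteDimensional ℝ W) : HasSchauderBasis W := by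
  have hn := inf_blocks_bg n e Q hlim hrange hinf
  have hex := unbdd_bg n hn
  obtain ⟨N, hN⟩ : ∃ N : ℕ → ℕ, ∀ k, N k = ∑ l ∈ range k, n l := ⟨_, fun _ => rfl⟩
  have hN0 : N 0 = 0 := by rw [hN, Finset.sum_range_zero]
  have hNs : ∀ k, N (k + 1) = N k + n k := by
    intro k
    rw [hN, hN, Finset.sum_range_succ]
  have hNm : Monotone N := monotone_nat_of_le_succ fun k => by rw [hNs]; omega
  have hex' : ∀ m, ∃ k, N k ≤ m ∧ m < N (k + 1) := by
    intro m
    have h1 : ∃ k, m < N (k + 1) := by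
      obtain ⟨k, hk⟩ := hex m
      exact ⟨k, by rw [hN]; exact hk⟩
    refine ⟨Nat.find h1, ?_, Nat.find_spec h1⟩
    rcases Nat.eq_zero_or_pos (Nat.find h1) with h | h
    · rw [h, hN0]; exact Nat.zero_le _
    · have h2 := Nat.find_min h1 (Nat.sub_lt h Nat.one_pos)
      rw [Nat.sub_add_cancel h] at h2
      exact Nat.le_of_not_lt h2
  choose K hK1 hK2 using hex'
  have hKu : ∀ k i, i < n k → K (N k + i) = k := by
    intro k i hi
    have h1 := hK1 (N k + i)
    have h2 := hK2 (N k + i)
    rcases lt_trichotomy (K (N k + i)) k with h | h | h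
    · have := hNm (show K (N k + i) + 1 ≤ k from h)
      omega
    · exact h
    · have := hNm (show k + 1 ≤ K (N k + i) from h)
      rw [hNs] at this
      omega
  have hKt : Tendsto K atTop atTop := by
    rw [tendsto_atTop]
    intro b
    filter_upwards [eventually_ge_atTop (N b)] with m hm
    by_contra hcon
    have h1 := hNm (show K m + 1 ≤ b by omega)
    have h2 := hK2 m
    omega
  obtain ⟨e', he'⟩ : ∃ e' : ℕ → W, ∀ m, e' m = e (K m) (m - N (K m)) := ⟨_, fun _ => rfl⟩
  have he'' : ∀ k i, i < n k → e' (N k + i) = e k i := by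
    intro k i hi
    rw [he', hKu k i hi, Nat.add_sub_cancel_left]
  have hlt : ∀ m, m - N (K m) < n (K m) := by
    intro m
    have h1 := hK1 m
    have h2 := hK2 m
    rw [hNs] at h2
    omega
  have hDe : ∀ k m, DDbg Q k (e' m) = if K m = k then e' m else 0 := by
    intro k m
    rw [he', DDbg_e n e Q hQe k _ _ (hlt m)]
  have hsplit : ∀ (a : ℕ → ℝ) (k j : ℕ), j ≤ n k → ∑ i ∈ range (N k + j), a i • e' i =
      ∑ i ∈ range (N k), a i • e' i + ∑ i ∈ range j, a (N k + i) • e k i := by
    intro a k j hj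
    rw [Finset.sum_range_add]
    congr 1
    refine Finset.sum_congr rfl fun i hi => ?_
    rw [he'' k i (lt_of_lt_of_le (mem_range.1 hi) hj)]
  refine ⟨e', fun x => ?_⟩
  have hrep := fun k => DDbg_rep n e Q hcomp hQe hrange k x
  choose β hβ using hrep
  refine ⟨fun m => β (K m) (m - N (K m)), ?_, ?_⟩
  · change Tendsto (fun m => ∑ i ∈ range m, β (K i) (i - N (K i)) • e' i) atTop (𝓝 x)
    have hβ' : ∀ k i, i < n k → β (K (N k + i)) (N k + i - N (K (N k + i))) = β k i := by
      intro k i hi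
      rw [hKu k i hi, Nat.add_sub_cancel_left]
    have hsum : ∀ k j, j ≤ n k → ∑ i ∈ range (N k + j), β (K i) (i - N (K i)) • e' i =
        ∑ i ∈ range (N k), β (K i) (i - N (K i)) • e' i + ∑ i ∈ range j, β k i • e k i := by
      intro k j hj
      rw [hsplit _ k j hj]
      congr 1
      refine Finset.sum_congr rfl fun i hi => ?_
      rw [hβ' k i (lt_of_lt_of_le (mem_range.1 hi) hj)]
    have hP : ∀ k, ∑ i ∈ range (N k), β (K i) (i - N (K i)) • e' i = PPbg Q k x := by
      intro k
      induction k with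
      | zero =>
        rw [hN0, Finset.sum_range_zero]
        rfl
      | succ k ih =>
        rw [hNs, hsum k (n k) le_rfl, ih, ← hβ k]
        unfold DDbg
        rw [sub_apply]
        abel
    have hP1 : Tendsto (fun m => PPbg Q (K m) x) atTop (𝓝 x) := (PPbg_lim Q hlim x).comp hKt
    have hD1 : Tendsto (fun m => C * ‖DDbg Q (K m) x‖) atTop (𝓝 0) := by
      have h := ((DDbg_lim Q hlim x).norm.const_mul C).comp hKt
      rw [norm_zero, mul_zero] at h
      exact h
    have hdiff : Tendsto (fun m => ∑ i ∈ range m, β (K i) (i - N (K i)) • e' i - PPbg Q (K m) x)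
        atTop (𝓝 0) := by
      refine squeeze_zero_norm (fun m => ?_) hD1
      have hm : m = N (K m) + (m - N (K m)) := by
        have := hK1 m
        omega
      have h1 := hsum (K m) (m - N (K m)) (hlt m).le
      rw [← hm, hP] at h1
      rw [h1, add_sub_cancel_left, hβ (K m)]
      exact hblock (K m) (β (K m)) _ (hlt m).le
    have h2 := hdiff.add hP1
    simp only [sub_add_cancel, zero_add] at h2
    exact h2
  · intro a ha
    change Tendsto (fun m => ∑ i ∈ range m, a i • e' i) atTop (𝓝 x) at ha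
    have hmain : ∀ k i, i < n k → a (N k + i) = β k i := by
      intro k i hi
      have hconst : ∀ r, DDbg Q k (∑ i ∈ range (N (k + 1) + r), a i • e' i) =
          ∑ i ∈ range (n k), a (N k + i) • e k i := by
        intro r
        rw [map_sum, Finset.sum_range_add, hNs, Finset.sum_range_add]
        have z1 : ∑ i ∈ range (N k), DDbg Q k (a i • e' i) = 0 := by
          refine Finset.sum_eq_zero fun i hi => ?_
          have hi' := mem_range.1 hi
          rw [map_smul, hDe, if_neg, smul_zero]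
          intro h
          have := hK1 i
          rw [h] at this
          omega
        have z2 : ∑ i ∈ range r, DDbg Q k (a (N k + n k + i) • e' (N k + n k + i)) = 0 := by
          refine Finset.sum_eq_zero fun i _ => ?_
          rw [map_smul, hDe, if_neg, smul_zero]
          intro h
          have := hK2 (N k + n k + i)
          rw [h, hNs] at this
          omega
        rw [z1, z2, zero_add, add_zero]
        refine Finset.sum_congr rfl fun i hi => ?_
        rw [map_smul, hDe, if_pos (hKu k i (mem_range.1 hi)), he'' k i (mem_range.1 hi)]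
      have hl1 : Tendsto (fun r => DDbg Q k (∑ i ∈ range (r + N (k + 1)), a i • e' i)) atTop
          (𝓝 (DDbg Q k x)) :=
        ((DDbg Q k).continuous.tendsto x).comp ((tendsto_add_atTop_iff_nat (N (k + 1))).2 ha)
      have hl2 : Tendsto (fun r => DDbg Q k (∑ i ∈ range (r + N (k + 1)), a i • e' i)) atTop
          (𝓝 (∑ i ∈ range (n k), a (N k + i) • e k i)) := by
        have : (fun r => DDbg Q k (∑ i ∈ range (r + N (k + 1)), a i • e' i)) =
            fun _ => ∑ i ∈ range (n k), a (N k + i) • e k i := by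
          funext r
          rw [add_comm r, hconst r]
        rw [this]
        exact tendsto_const_nhds
      have heq := tendsto_nhds_unique hl1 hl2
      rw [hβ k] at heq
      have hz : ∑ i ∈ range (n k), (a (N k + i) - β k i) • e k i = 0 := by
        simp only [sub_smul]
        rw [Finset.sum_sub_distrib, heq, sub_self]
      have := coef_zero_bg n e C hne hblock k (fun i => a (N k + i) - β k i) hz i hi
      exact sub_eq_zero.1 this
    funext m
    have hm : N (K m) + (m - N (K m)) = m := by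
      have := hK1 m
      omega
    have := hmain (K m) (m - N (K m)) (hlt m)
    rw [hm] at this
    exact this

end Pool.Agent.HI61
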