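import Pool.Agent.HI61.Coord

/-!
# HI61/Beta : the function beta

PROOFS.
`betaSet_le`: `|ev f (comb (∑ v l))| ≤ ∑ |ev f (comb (v l))| ≤ d` (`comb_sum` with `θ = 1`, `ev_lc`).
`le_beta_finset`: let `σ` be the increasing enumeration of `S` (`Finset.orderEmbOfFin` or
`Nat.nth`), `v' i = v (σ i)` and `μ' i = μ (σ i)` for `i < #S`, `μ' i = μ N` for `i ≥ #S`; then
`Blks μ' v' #S` because `σ i + 1 ≤ σ (i+1)`.  `le_csSup`.
`beta_scaled`: for `B > 0` apply `le_beta` to `B⁻¹ • v l`; for `B = 0` every `ev f (comb (v l))`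
vanishes.
`beta_mono`: put `v l = 0` for `l ≥ d` (`μ` eventually constant).
`beta_mul`: given `v, μ, f` for `a * b`, let `w i = ∑_{l ∈ [i b, (i+1) b)} v l`, `μ' i = μ (i b)`.
By `le_beta_finset` (applied to `Ico (i b) ((i+1) b)`), `Kle P (comb (w i)) (beta b)`, so by
`beta_scaled` `|ev f (comb (∑ w i))| ≤ beta b * beta a`.  `csSup_le`.
`beta_low`: `n = L (2 i)`.  By `NonTriv` choose successive `v l` (each starts after the end of the
previous one) and `g l ∈ K` with `ev (g l) (comb (v l)) ≥ 3/4`; replace `g l` by its restriction to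
the blocks `[Z.s (μ l), Z.s (μ (l+1)))` (`K_res`; `comb (v l)` is supported there, `comb_supp`), so
that the `g l` are successive and `ev (g l) (comb (v l')) = 0` for `l ≠ l'`.
Take rationals `d_l` with `3/4 n^{-1/rc} ≤ d_l ≤ n^{-1/rc}`; then `∑ |d_l| ^ rc ≤ 1`, so
`f = (1 / M) • ∑ d_l • g_l` is in `K` (constructor `reg`), and
`ev f (comb (∑ v)) ≥ (1 / M) n (3/4)^2 n^{-1/rc} ≥ (1/2) n^{1/r} / M` as `1 - 1/rc = 1/r`.
-/

namespace Pool.Agent.HI61

open Finset
open scoped Classical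

private theorem ev_comb_sum {Z : BSeq} (v : ℕ → (ℕ →₀ ℝ)) (S : Finset ℕ) (f : Fn) :
    ev f (Z.comb (∑ l ∈ S, v l)) = ∑ l ∈ S, ev f (Z.comb (v l)) := by
  have h := comb_sum Z v S (fun _ => 1)
  simp only [one_smul] at h
  rw [h, ev_lc]
  simp only [one_mul]

theorem betaSet_le {P : Par} (hG : Good P) (Z : BSeq) (m d : ℕ) :
    ∀ t ∈ betaSet P Z m d, 0 ≤ t ∧ t ≤ d := by
  rintro t ⟨v, μ, hμ, hB, hv, f, hf, rfl⟩
  refine ⟨abs_nonneg _, ?_⟩
  rw [ev_comb_sum]
  calc |∑ l ∈ range d, ev f (Z.comb (v l))| ≤ ∑ l ∈ range d, |ev f (Z.comb (v l))| :=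
        Finset.abs_sum_le_sum_abs _ _
    _ ≤ ∑ _l ∈ range d, (1 : ℝ) :=
        Finset.sum_le_sum fun l hl => hv l (Finset.mem_range.1 hl) f hf
    _ = d := by rw [Finset.sum_const, Finset.card_range, nsmul_eq_mul, mul_one]

theorem betaSet_nonempty {P : Par} (hG : Good P) (Z : BSeq) (m d : ℕ) :
    (betaSet P Z m d).Nonempty := by
  refine ⟨_, fun _ => 0, fun _ => m, le_rfl, ⟨fun _ _ _ => le_rfl, ?_⟩, ?_, 0, K_zero hG, rfl⟩
  · intro k _ n hn
    simp at hn
  · intro l _ f _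
    rw [comb_zero, ev_zero_right, abs_zero]
    exact zero_le_one

private theorem betaSet_bdd {P : Par} (hG : Good P) (Z : BSeq) (m d : ℕ) :
    BddAbove (betaSet P Z m d) := ⟨d, fun t ht => (betaSet_le hG Z m d t ht).2⟩

theorem beta_nonneg {P : Par} (hG : Good P) (Z : BSeq) (m d : ℕ) : 0 ≤ beta P Z m d :=
  Real.sSup_nonneg fun t ht => (betaSet_le hG Z m d t ht).1

theorem beta_le {P : Par} (hG : Good P) (Z : BSeq) (m d : ℕ) : beta P Z m d ≤ d :=
  csSup_le (betaSet_nonempty hG Z m d) fun t ht => (betaSet_le hG Z m d t ht).2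

theorem le_beta_finset {P : Par} (hG : Good P) (Z : BSeq) (m N : ℕ) (v : ℕ → (ℕ →₀ ℝ))
    (μ : ℕ → ℕ) (hμ : m ≤ μ 0) (hB : Blks μ v N) (hv : ∀ l < N, Kle P (Z.comb (v l)) 1)
    (S : Finset ℕ) (hS : S ⊆ range N) (f : Fn) (hf : K P f) :
    |ev f (Z.comb (∑ l ∈ S, v l))| ≤ beta P Z m S.card := by
  obtain ⟨hmono, hsupp⟩ := hB
  set σ := S.orderEmbOfFin rfl with hσ
  have hσS : ∀ i, σ i ∈ S := fun i => S.orderEmbOfFin_mem rfl i
  have hσN : ∀ i, σ i < N := fun i => Finset.mem_range.1 (hS (hσS i))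
  let v' : ℕ → (ℕ →₀ ℝ) := fun i => if h : i < S.card then v (σ ⟨i, h⟩) else 0
  let μ' : ℕ → ℕ := fun i => if h : i < S.card then μ (σ ⟨i, h⟩) else μ N
  have hv1 : ∀ (i : ℕ) (h : i < S.card), v' i = v (σ ⟨i, h⟩) := fun i h => dif_pos h
  have hμ1 : ∀ (i : ℕ) (h : i < S.card), μ' i = μ (σ ⟨i, h⟩) := fun i h => dif_pos h
  have hμ2 : ∀ (i : ℕ), ¬ i < S.card → μ' i = μ N := fun i h => dif_neg h
  have hsum : ∑ l ∈ range S.card, v' l = ∑ l ∈ S, v l := by
    rw [Finset.sum_range]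
    have e1 : ∑ i : Fin S.card, v' ↑i = ∑ i : Fin S.card, v (σ i) :=
      Finset.sum_congr rfl fun i _ => by rw [hv1 i i.2]
    rw [e1]
    have e2 : S = Finset.univ.map σ.toEmbedding := by
      rw [hσ]
      exact (S.map_orderEmbOfFin_univ rfl).symm
    conv_rhs => rw [e2, Finset.sum_map]
    rfl
  refine le_csSup (betaSet_bdd hG Z m S.card) ⟨v', μ', ?_, ⟨?_, ?_⟩, ?_, f, hf, by rw [hsum]⟩
  · by_cases h : 0 < S.card
    · rw [hμ1 0 h]
      exact hμ.trans (hmono (Nat.zero_le _))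
    · rw [hμ2 0 h]
      exact hμ.trans (hmono (Nat.zero_le _))
  · intro i j hij
    by_cases hj : j < S.card
    · have hi : i < S.card := lt_of_le_of_lt hij hj
      rw [hμ1 i hi, hμ1 j hj]
      exact hmono (σ.monotone (Fin.mk_le_mk.2 hij))
    · rw [hμ2 j hj]
      by_cases hi : i < S.card
      · rw [hμ1 i hi]
        exact hmono (hσN _).le
      · rw [hμ2 i hi]
  · intro k hk n hn
    rw [hv1 k hk] at hn
    obtain ⟨h1, h2⟩ := hsupp _ (hσN _) n hn
    refine ⟨by rw [hμ1 k hk]; exact h1, lt_of_lt_of_le h2 ?_⟩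
    by_cases hk1 : k + 1 < S.card
    · rw [hμ1 (k + 1) hk1]
      refine hmono (Nat.succ_le_of_lt ?_)
      exact σ.strictMono (Fin.mk_lt_mk.2 (Nat.lt_succ_self k))
    · rw [hμ2 (k + 1) hk1]
      exact hmono (Nat.succ_le_of_lt (hσN _))
  · intro l hl
    rw [hv1 l hl]
    exact hv _ (hσN _)

theorem beta_scaled {P : Par} (hG : Good P) (Z : BSeq) (m N : ℕ) (v : ℕ → (ℕ →₀ ℝ))
    (μ : ℕ → ℕ) (hμ : m ≤ μ 0) (hB : Blks μ v N) (B : ℝ) (hB0 : 0 ≤ B)
    (hv : ∀ l < N, Kle P (Z.comb (v l)) B) (f : Fn) (hf : K P f) :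
    |ev f (Z.comb (∑ l ∈ range N, v l))| ≤ B * beta P Z m N := by
  rcases hB0.eq_or_lt with h0 | hpos
  · rw [ev_comb_sum, Finset.sum_eq_zero, abs_zero, ← h0, zero_mul]
    intro l hl
    have h1 := hv l (Finset.mem_range.1 hl) f hf
    rw [← h0] at h1
    exact abs_eq_zero.1 (le_antisymm h1 (abs_nonneg _))
  · have hB' : Blks μ (fun l => B⁻¹ • v l) N := by
      refine ⟨hB.1, fun k hk n hn => hB.2 k hk n (Finsupp.support_smul hn)⟩
    have hv' : ∀ l < N, Kle P (Z.comb (B⁻¹ • v l)) 1 := by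
      intro l hl f' hf'
      rw [comb_smul, ev_smul_right, abs_mul, abs_of_pos (inv_pos.2 hpos)]
      calc B⁻¹ * |ev f' (Z.comb (v l))| ≤ B⁻¹ * B :=
            mul_le_mul_of_nonneg_left (hv l hl f' hf') (inv_pos.2 hpos).le
        _ = 1 := inv_mul_cancel₀ hpos.ne'
    have h1 := le_beta_finset hG Z m N (fun l => B⁻¹ • v l) μ hμ hB' hv' (range N) (fun _ h => h) f hf
    rw [Finset.card_range, ← Finset.smul_sum, comb_smul, ev_smul_right, abs_mul,
      abs_of_pos (inv_pos.2 hpos)] at h1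
    have h2 := mul_le_mul_of_nonneg_left h1 hpos.le
    rwa [← mul_assoc, mul_inv_cancel₀ hpos.ne', one_mul] at h2

theorem beta_mono {P : Par} (hG : Good P) (Z : BSeq) (m : ℕ) : Monotone (beta P Z m) := by
  intro d d' hd
  refine csSup_le (betaSet_nonempty hG Z m d) ?_
  rintro t ⟨v, μ, hμ, hB, hv, f, hf, rfl⟩
  let v' : ℕ → (ℕ →₀ ℝ) := fun l => if l < d then v l else 0
  have h1 : ∑ l ∈ range d', v' l = ∑ l ∈ range d, v l := by
    rw [← Finset.sum_subset (Finset.range_subset_range.2 hd)]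
    · exact Finset.sum_congr rfl fun l hl => if_pos (Finset.mem_range.1 hl)
    · intro l _ hl
      exact if_neg (fun h => hl (Finset.mem_range.2 h))
  have hB' : Blks μ v' d' := by
    refine ⟨hB.1, fun k hk n hn => ?_⟩
    by_cases h : k < d
    · have e : v' k = v k := if_pos h
      rw [e] at hn
      exact hB.2 k h n hn
    · have e : v' k = 0 := if_neg h
      rw [e] at hn
      simp at hn
  have hv' : ∀ l < d', Kle P (Z.comb (v' l)) 1 := by
    intro l _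
    by_cases h : l < d
    · have e : v' l = v l := if_pos h
      rw [e]
      exact hv l h
    · have e : v' l = 0 := if_neg h
      rw [e]
      intro f' _
      rw [comb_zero, ev_zero_right, abs_zero]
      exact zero_le_one
  have h2 := le_beta_finset hG Z m d' v' μ hμ hB' hv' (range d') (fun _ h => h) f hf
  rwa [h1, Finset.card_range] at h2

private theorem sum_blocks (v : ℕ → (ℕ →₀ ℝ)) (b : ℕ) : ∀ a : ℕ,
    ∑ i ∈ range a, ∑ l ∈ Ico (i * b) ((i + 1) * b), v l = ∑ l ∈ range (a * b), v l := by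
  intro a
  induction a with
  | zero => simp
  | succ a ih =>
    rw [Finset.sum_range_succ, ih]
    exact Finset.sum_range_add_sum_Ico v (Nat.mul_le_mul_right b (Nat.le_succ a))

theorem beta_mul {P : Par} (hG : Good P) (Z : BSeq) (m a b : ℕ) :
    beta P Z m (a * b) ≤ beta P Z m a * beta P Z m b := by
  refine csSup_le (betaSet_nonempty hG Z m (a * b)) ?_
  rintro t ⟨v, μ, hμ, hB, hv, f, hf, rfl⟩
  let w : ℕ → (ℕ →₀ ℝ) := fun i => ∑ l ∈ Ico (i * b) ((i + 1) * b), v l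
  have hIco : ∀ i < a, Ico (i * b) ((i + 1) * b) ⊆ range (a * b) := by
    intro i hi l hl
    rw [Finset.mem_Ico] at hl
    rw [Finset.mem_range]
    exact lt_of_lt_of_le hl.2 (Nat.mul_le_mul_right b hi)
  have hBw : Blks (fun i => μ (i * b)) w a := by
    refine ⟨fun i j hij => hB.1 (Nat.mul_le_mul_right b hij), fun i hi n hn => ?_⟩
    have h1 := Finsupp.support_finsetSum hn
    rw [Finset.mem_biUnion] at h1
    obtain ⟨l, hl, hln⟩ := h1
    have h2 := hB.2 l (Finset.mem_range.1 (hIco i hi hl)) n hln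
    rw [Finset.mem_Ico] at hl
    exact ⟨(hB.1 hl.1).trans h2.1, lt_of_lt_of_le h2.2 (hB.1 hl.2)⟩
  have hKw : ∀ i < a, Kle P (Z.comb (w i)) (beta P Z m b) := by
    intro i hi f' hf'
    have h1 := le_beta_finset hG Z m (a * b) v μ hμ hB hv _ (hIco i hi) f' hf'
    have e : (Ico (i * b) ((i + 1) * b)).card = b := by
      rw [Nat.card_Ico, Nat.succ_mul]
      omega
    rwa [e] at h1
  have h1 := beta_scaled hG Z m a w (fun i => μ (i * b)) (by
    show m ≤ μ (0 * b)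
    rw [Nat.zero_mul]
    exact hμ) hBw (beta P Z m b) (beta_nonneg hG Z m b) hKw f hf
  rw [sum_blocks v b a, mul_comm (beta P Z m b)] at h1
  exact h1

/-- a successive sequence of vectors of norm one -/
private theorem exists_succ {P : Par} (Z : BSeq) (hN : NonTriv P Z) (m : ℕ) :
    ∃ (v : ℕ → (ℕ →₀ ℝ)) (μ : ℕ → ℕ), μ 0 = m ∧ Monotone μ ∧
      (∀ k, ∀ n ∈ (v k).support, μ k ≤ n ∧ n < μ (k + 1)) ∧ ∀ k, Unit' P (Z.comb (v k)) := by
  choose A hA1 hA2 using hN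
  let μ : ℕ → ℕ := fun k => Nat.rec m (fun _ p => max p ((A p).support.sup id + 1)) k
  have hμs : ∀ k, μ (k + 1) = max (μ k) ((A (μ k)).support.sup id + 1) := fun k => rfl
  refine ⟨fun k => A (μ k), μ, rfl, monotone_nat_of_le_succ fun k => ?_, fun k n hn => ⟨?_, ?_⟩,
    fun k => hA2 _⟩
  · rw [hμs]
    exact le_max_left _ _
  · exact hA1 _ n hn
  · rw [hμs]
    refine lt_of_lt_of_le (Nat.lt_succ_of_le ?_) (le_max_right _ _)
    exact Finset.le_sup (f := id) hn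

theorem beta_low {P : Par} (hG : Good P) (Z : BSeq) (hN : NonTriv P Z) (m i : ℕ) :
    1 / 2 * ((P.L (2 * i) : ℝ) ^ (1 / P.r) / P.M (2 * i)) ≤ beta P Z m (P.L (2 * i)) := by
  obtain ⟨v, μ, hμ0, hμ, hsupp, hU⟩ := exists_succ Z hN m
  have hg0 : ∀ l, ∃ f, K P f ∧ 3 / 4 ≤ ev f (Z.comb (v l)) := fun l => (hU l).2
  choose g0 hg0K hg0v using hg0
  set n := P.L (2 * i) with hn
  have hn1 : 1 ≤ n := hG.L_pos _
  have hn0 : (0 : ℝ) < n := by exact_mod_cast hn1
  have hr2 : 2 ≤ P.r := by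
    have := hG.q1
    unfold Par.r
    linarith
  have hr0 : 0 < P.r := by linarith
  have hr1 : 0 < P.r - 1 := by linarith
  have hrc : 0 < P.rc := div_pos hr0 hr1
  have hM : (0 : ℝ) < P.M (2 * i) := by
    unfold Par.M
    positivity
  let g : ℕ → Fn := fun l => res (Z.s (μ l)) (Z.s (μ (l + 1))) (g0 l)
  have hcut : ∀ l l', cutv (Z.s (μ l)) (Z.s (μ (l + 1))) (Z.comb (v l')) =
      if l = l' then Z.comb (v l') else fun _ => 0 := by
    intro l l'
    funext k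
    by_cases hk : Z.comb (v l') k = 0
    · have h1 : cutv (Z.s (μ l)) (Z.s (μ (l + 1))) (Z.comb (v l')) k = 0 := by
        unfold cutv
        rw [hk, ite_self]
      rw [h1]
      split_ifs
      · exact hk.symm
      · rfl
    · have h1 := comb_supp Z (v l') (μ l') (μ (l' + 1)) (hsupp l') k hk
      by_cases hll : l = l'
      · subst hll
        rw [if_pos rfl]
        unfold cutv
        rw [if_pos h1]
      · rw [if_neg hll]
        unfold cutv
        refine if_neg fun h2 => ?_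
        rcases lt_or_gt_of_ne hll with h3 | h3
        · have h4 := Z.mono.monotone (hμ (Nat.succ_le_of_lt h3))
          exact absurd (h2.2.trans_le (h4.trans h1.1)) (lt_irrefl _)
        · have h4 := Z.mono.monotone (hμ (Nat.succ_le_of_lt h3))
          exact absurd (h1.2.trans_le (h4.trans h2.1)) (lt_irrefl _)
  have hgev : ∀ l l', ev (g l) (Z.comb (v l')) = if l = l' then ev (g0 l) (Z.comb (v l)) else 0 := by
    intro l l'
    show ev (res _ _ (g0 l)) _ = _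
    rw [ev_res, hcut]
    split_ifs with h
    · rw [h]
    · exact ev_zero_right _
  have hgK : ∀ l, K P (g l) := fun l => K_res hG (hg0K l) _ _
  choose ty hty using hgK
  have hbef : ∀ l l', l < l' → Before (g l) (g l') := by
    intro l l' hl a ha b hb
    have ha' := ha
    have hb' := hb
    rw [res_support, Finset.mem_filter] at ha' hb'
    exact lt_of_lt_of_le ha'.2.2 ((Z.mono.monotone (hμ (Nat.succ_le_of_lt hl))).trans hb'.2.1)
  -- the coefficient
  have hx : 0 < (n : ℝ) ^ (-(1 / P.rc)) := Real.rpow_pos_of_pos hn0 _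
  obtain ⟨d, hd1, hd2⟩ := exists_rat_btwn (show 3 / 4 * (n : ℝ) ^ (-(1 / P.rc)) <
    (n : ℝ) ^ (-(1 / P.rc)) by linarith)
  have hd0 : (0 : ℝ) < d := lt_trans (by positivity) hd1
  have hdsum : ∑ _l : Fin n, |(d : ℝ)| ^ P.rc ≤ 1 := by
    rw [Finset.sum_const, Finset.card_univ, Fintype.card_fin, nsmul_eq_mul, abs_of_pos hd0]
    calc (n : ℝ) * (d : ℝ) ^ P.rc ≤ n * ((n : ℝ) ^ (-(1 / P.rc))) ^ P.rc :=
          mul_le_mul_of_nonneg_left (Real.rpow_le_rpow hd0.le hd2.le hrc.le) hn0.le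
      _ = n * (n : ℝ) ^ (-1 : ℝ) := by
          rw [← Real.rpow_mul hn0.le]
          congr 2
          field_simp
      _ = 1 := by
          rw [Real.rpow_neg_one]
          exact mul_inv_cancel₀ hn0.ne'
  have hf : InK P (some (2 * i)) ((1 / (P.M (2 * i) : ℚ)) • ∑ l : Fin n, d • g l) :=
    InK.reg (2 * i) i n rfl le_rfl (fun _ => d) (fun l => g l) (fun l => ty l) (fun l => hty l)
      (fun l l' hl => hbef l l' hl) hdsum
  have hB : Blks μ v n := ⟨hμ, fun k _ => hsupp k⟩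
  have h1 := le_beta_finset hG Z m n v μ hμ0.ge hB (fun l _ => (hU l).1) (range n) (fun _ h => h)
    _ ⟨_, hf⟩
  rw [Finset.card_range] at h1
  refine le_trans ?_ h1
  refine le_trans ?_ (le_abs_self _)
  rw [ev_smul_left, ev_sum_left]
  have h2 : ∀ l : Fin n, 3 / 4 * (3 / 4 * (n : ℝ) ^ (-(1 / P.rc))) ≤
      ev (d • g l) (Z.comb (∑ l ∈ range n, v l)) := by
    intro l
    rw [ev_smul_left, ev_comb_sum]
    have h3 : ∑ l' ∈ range n, ev (g l) (Z.comb (v l')) = ev (g0 l) (Z.comb (v l)) := by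
      rw [Finset.sum_eq_single (l : ℕ)]
      · rw [hgev, if_pos rfl]
      · intro l' _ hne
        rw [hgev, if_neg (Ne.symm hne)]
      · intro hl
        exact absurd (Finset.mem_range.2 l.2) hl
    rw [h3]
    have h4 := hg0v l
    nlinarith [mul_le_mul hd1.le h4 (by norm_num) hd0.le]
  have h3 : (n : ℝ) * (3 / 4 * (3 / 4 * (n : ℝ) ^ (-(1 / P.rc)))) ≤
      ∑ l : Fin n, ev (d • g l) (Z.comb (∑ l ∈ range n, v l)) := by
    have h4 := Finset.sum_le_sum (s := (Finset.univ : Finset (Fin n))) fun l _ => h2 l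
    rwa [Finset.sum_const, Finset.card_univ, Fintype.card_fin, nsmul_eq_mul] at h4
  have h4 : (n : ℝ) * (n : ℝ) ^ (-(1 / P.rc)) = (n : ℝ) ^ (1 / P.r) := by
    have h5 : (n : ℝ) * (n : ℝ) ^ (-(1 / P.rc)) = (n : ℝ) ^ (1 + -(1 / P.rc)) := by
      rw [Real.rpow_add hn0, Real.rpow_one]
    rw [h5]
    congr 1
    unfold Par.rc
    field_simp
    ring
  have h5 : ((1 / (P.M (2 * i) : ℚ) : ℚ) : ℝ) = 1 / (P.M (2 * i) : ℝ) := by push_cast; rfl
  rw [h5]
  have h6 : (0 : ℝ) < (n : ℝ) ^ (1 / P.r) := Real.rpow_pos_of_pos hn0 _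
  calc 1 / 2 * ((n : ℝ) ^ (1 / P.r) / P.M (2 * i))
      = 1 / (P.M (2 * i) : ℝ) * (1 / 2 * (n : ℝ) ^ (1 / P.r)) := by ring
    _ ≤ 1 / (P.M (2 * i) : ℝ) * ((n : ℝ) * (3 / 4 * (3 / 4 * (n : ℝ) ^ (-(1 / P.rc))))) := by
        refine mul_le_mul_of_nonneg_left ?_ (by positivity)
        have e : (n : ℝ) * (3 / 4 * (3 / 4 * (n : ℝ) ^ (-(1 / P.rc)))) =
            9 / 16 * ((n : ℝ) * (n : ℝ) ^ (-(1 / P.rc))) := by ring
        rw [e, h4]
        linarith
    _ ≤ _ := mul_le_mul_of_nonneg_left h3 (by positivity)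

/-- almost optimal sums -/
theorem beta_attain {P : Par} (hG : Good P) (Z : BSeq) (m d : ℕ) (hpos : 0 < beta P Z m d) :
    ∃ (v : ℕ → (ℕ →₀ ℝ)) (μ : ℕ → ℕ), m ≤ μ 0 ∧ Blks μ v d ∧
      (∀ l < d, Kle P (Z.comb (v l)) 1) ∧
      ∃ f, K P f ∧ 1 / 2 * beta P Z m d ≤ |ev f (Z.comb (∑ l ∈ range d, v l))| := by
  have h1 : 1 / 2 * beta P Z m d < sSup (betaSet P Z m d) := by
    show 1 / 2 * beta P Z m d < beta P Z m d
    linarith
  obtain ⟨t, ⟨v, μ, hμ, hB, hv, f, hf, rfl⟩, ht⟩ :=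
    exists_lt_of_lt_csSup (betaSet_nonempty hG Z m d) h1
  exact ⟨v, μ, hμ, hB, hv, f, hf, ht.le⟩

end Pool.Agent.HI61
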