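import Pool.Agent.HI61.WBasic

/-!
# HI61/QAlg : algebra of the projections `Q_k`

PROOFS.  All are componentwise computations with `Finsupp`:
`(Qk k w).2 l = w.2 l` for `l < k`, `= w.2 k + (σ_k w, 0)` for `l = k`, `= 0` for `l > k`.
`sig_Qk`: for `k < l`: `σ_k (Qk l w) = ∑_{k < i < l} x_i + x_l + σ_l w = σ_k w`; for `l ≤ k` it is `0`.
`Qk_Qk`: from this.  `pos_Qk`: `pos (Qk k w) = ∑_{l<k} R_l ι x_l + R_k ι (x_k + σ_k w)` and
`R_k (pos w) = R_k ι x + ∑_{l<k} R_l ι x_l + R_k R_k ι x_k + ∑_{l>k} R_k ι x_l` (`R_gt`, `R_lt`), and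
`R_k ι (σ_k w) = R_k ι x + ∑_{l>k} R_k ι x_l`.
`hat_Qk`: `gam i` is linear; for `blk i = k` the second summand appears.
`Qk_diff_supp`: for `l < s` both have the component `w.2 l` (`s ≤ N`).
-/

namespace Pool.Agent.HI61

open Finset
open scoped Classical

variable {X V : Type} [NormedAddCommGroup X] [NormedSpace ℝ X]
  [NormedAddCommGroup V] [NormedSpace ℝ V]

theorem Qk_fst (k : ℕ) (w : W0 X) : (Qk X k w).1 = 0 := rfl

private theorem Qk_snd_ap (k l : ℕ) (w : W0 X) : (Qk X k w).2 l =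
    (if l ≤ k then w.2 l else 0) + (if k = l then ((Host.sig' k w, 0) : Eb X) else 0) := by
  show (w.2.filter (fun l => l ≤ k) + Finsupp.single k ((Host.sig' k w, 0) : Eb X)) l = _
  rw [Finsupp.add_apply, Finsupp.filter_apply, Finsupp.single_apply]

theorem Qk_snd_lt (k l : ℕ) (w : W0 X) (h : l < k) : (Qk X k w).2 l = w.2 l := by
  rw [Qk_snd_ap, if_pos h.le, if_neg (by omega), add_zero]

theorem Qk_snd_eq (k : ℕ) (w : W0 X) : (Qk X k w).2 k = w.2 k + (Host.sig' k w, 0) := by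
  rw [Qk_snd_ap, if_pos le_rfl, if_pos rfl]

theorem Qk_snd_gt (k l : ℕ) (w : W0 X) (h : k < l) : (Qk X k w).2 l = 0 := by
  rw [Qk_snd_ap, if_neg (by omega), if_neg (by omega), add_zero]

private theorem filter_sum {M : Type*} [AddCommMonoid M] (g : ℕ →₀ Eb X) (k : ℕ)
    (f : ℕ → Eb X → M) :
    (g.filter (fun l => l ≤ k)).sum f = g.sum (fun l e => if l ≤ k then f l e else 0) := by
  rw [Finsupp.sum, Finsupp.sum, Finsupp.support_filter, Finset.sum_filter]
  apply Finset.sum_congr rfl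
  intro l _
  split_ifs with hl
  · rw [Finsupp.filter_apply, if_pos hl]
  · rfl

private theorem sig_ap (k : ℕ) (w : W0 X) :
    Host.sig' k w = w.1 + w.2.sum fun l e => if k < l then e.1 else 0 := rfl

private theorem Qk_sum {M : Type*} [AddCommMonoid M] (k : ℕ) (w : W0 X) (f : ℕ → Eb X → M)
    (h0 : ∀ l, f l 0 = 0) (ha : ∀ l e e', f l (e + e') = f l e + f l e') :
    (Qk X k w).2.sum f = w.2.sum (fun l e => if l ≤ k then f l e else 0) +
      f k (Host.sig' k w, 0) := by
  show (w.2.filter (fun l => l ≤ k) + Finsupp.single k ((Host.sig' k w, 0) : Eb X)).sum f = _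
  rw [Finsupp.sum_add_index' h0 ha, filter_sum, Finsupp.sum_single_index (h0 k)]

private theorem sig_Qk (k l : ℕ) (w : W0 X) :
    Host.sig' k (Qk X l w) = if k < l then Host.sig' k w else 0 := by
  rw [sig_ap, Qk_fst, zero_add, Qk_sum l w _ (by intro m; simp)
    (by intro m e e'; split_ifs <;> simp)]
  split_ifs with h
  · rw [sig_ap, sig_ap, add_left_comm, ← Finsupp.sum_add]
    congr 1
    apply Finsupp.sum_congr
    intro m _
    by_cases h1 : m ≤ l
    · by_cases h2 : k < m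
      · simp [h1, h2, Nat.not_lt.mpr h1]
      · simp [h2, Nat.not_lt.mpr h1]
    · have h2 : k < m := by omega
      simp [h1, h2, Nat.not_le.mp h1]
  · rw [add_zero]
    unfold Finsupp.sum
    apply Finset.sum_eq_zero
    intro m _
    dsimp only
    by_cases h1 : m ≤ l
    · rw [if_pos h1, if_neg (by omega)]
    · rw [if_neg h1]

theorem Qk_Qk (k l : ℕ) (w : W0 X) : Qk X k (Qk X l w) = Qk X (min k l) w := by
  refine Prod.ext rfl ?_
  ext1 m
  rw [Qk_snd_ap, sig_Qk]
  by_cases hkl : k < l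
  · rw [min_eq_left hkl.le, if_pos hkl, Qk_snd_ap k m w]
    by_cases hm : m ≤ k
    · rw [if_pos hm, if_pos hm, Qk_snd_lt l m w (by omega)]
    · rw [if_neg hm, if_neg hm]
  · rw [min_eq_right (Nat.not_lt.mp hkl), if_neg hkl]
    by_cases hm : m ≤ k
    · rw [if_pos hm]
      split_ifs <;> simp
    · rw [if_neg hm, Qk_snd_gt l m w (by omega)]
      split_ifs <;> simp

private theorem sig_of_supp (k : ℕ) (w : W0 X) (h2 : ∀ l ∈ w.2.support, l ≤ k) :
    Host.sig' k w = w.1 := by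
  rw [sig_ap]
  have : (w.2.sum fun l e => if k < l then e.1 else 0) = (0 : X) := by
    unfold Finsupp.sum
    apply Finset.sum_eq_zero
    intro l hl
    dsimp only
    rw [if_neg (Nat.not_lt.mpr (h2 l hl))]
  rw [this, add_zero]

private theorem filter_of_supp (k : ℕ) (w : W0 X) (h2 : ∀ l ∈ w.2.support, l ≤ k) :
    w.2.filter (fun l => l ≤ k) = w.2 := by
  rw [Finsupp.filter_eq_self_iff]
  intro l hl
  exact h2 l (Finsupp.mem_support_iff.mpr hl)

theorem Qk_of_supp (k : ℕ) (w : W0 X) (h1 : w.1 = 0) (h2 : ∀ l ∈ w.2.support, l ≤ k) :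
    Qk X k w = w := by
  refine Prod.ext h1.symm ?_
  show w.2.filter (fun l => l ≤ k) + Finsupp.single k ((Host.sig' k w, 0) : Eb X) = w.2
  rw [sig_of_supp k w h2, h1, filter_of_supp k w h2]
  have : ((0, 0) : Eb X) = 0 := rfl
  rw [this, Finsupp.single_zero]
  exact add_zero w.2

theorem pos_Qk (H : Host X V) (k : ℕ) (w : W0 X) :
    H.pos (Qk X k w) = H.F.R k (H.pos w) +
      (H.F.R k (H.F.ι (w.2 k).1) - H.F.R k (H.F.R k (H.F.ι (w.2 k).1))) := by
  rw [pos_apply, pos_apply, Qk_fst, map_zero, zero_add,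
    Qk_sum k w _ (by intro m; simp) (by intro m e e'; simp), sig_ap, map_add, map_add, map_add]
  have e1 : (H.F.R k (H.F.ι (w.2 k).1) - H.F.R k (H.F.R k (H.F.ι (w.2 k).1))) =
      w.2.sum (fun m e => if m = k then H.F.R k (H.F.ι e.1) - H.F.R k (H.F.R k (H.F.ι e.1))
        else 0) := by
    unfold Finsupp.sum
    rw [Finset.sum_ite_eq']
    split_ifs with h
    · rfl
    · rw [Finsupp.notMem_support_iff.mp h]
      simp
  have e2 : H.F.R k (H.F.ι (w.2.sum fun l e => if k < l then e.1 else 0)) =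
      w.2.sum (fun l e => if k < l then H.F.R k (H.F.ι e.1) else 0) := by
    unfold Finsupp.sum
    rw [map_sum, map_sum]
    apply Finset.sum_congr rfl
    intro m _
    dsimp only
    split_ifs <;> simp
  have e3 : H.F.R k (w.2.sum fun l e => H.F.R l (H.F.ι e.1)) =
      w.2.sum (fun l e => H.F.R k (H.F.R l (H.F.ι e.1))) := by
    unfold Finsupp.sum
    rw [map_sum]
  rw [e1, e2, e3, add_left_comm, add_assoc, ← Finsupp.sum_add, ← Finsupp.sum_add]
  congr 1
  apply Finsupp.sum_congr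
  intro m _
  rcases lt_trichotomy m k with h | h | h
  · rw [if_pos h.le, if_neg (by omega), if_neg (by omega), H.F.R_gt m k h]
  · subst h
    simp
  · rw [if_neg (by omega), if_pos h, if_neg (by omega), H.F.R_lt k m h]
    simp

theorem hat_Qk (H : Host X V) (k : ℕ) (w : W0 X) :
    H.hat (Qk X k w) = fun i => cutv 0 (k + 1) (H.hat w) i +
      H.hat ((0, Finsupp.single k (Host.sig' k w, 0)) : W0 X) i := by
  funext i
  rw [hat_apply, hat_apply, Qk_snd_ap, map_add]
  congr 1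
  · unfold cutv
    by_cases h : blk i ≤ k
    · rw [if_pos h, if_pos ⟨Nat.zero_le _, by omega⟩, hat_apply]
    · rw [if_neg h, if_neg (by omega), map_zero]
  · show _ = H.gam i ((Finsupp.single k ((Host.sig' k w, 0) : Eb X)) (blk i))
    rw [Finsupp.single_apply]

theorem Qk_diff_supp (s N : ℕ) (w : W0 X) (h : s ≤ N) :
    (Qk X N w - Qk X s w).1 = 0 ∧
      (∀ l ∈ (Qk X N w - Qk X s w).2.support, s ≤ l ∧ l ≤ N) ∧
      ∀ k < s, Qk X k (Qk X N w - Qk X s w) = 0 := by
  refine ⟨?_, ?_, ?_⟩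
  · rw [Prod.fst_sub, Qk_fst, Qk_fst, sub_zero]
  · intro l hl
    rw [Finsupp.mem_support_iff] at hl
    by_contra hc
    apply hl
    rw [Prod.snd_sub, Finsupp.sub_apply]
    rcases lt_or_ge l s with h1 | h1
    · rw [Qk_snd_lt N l w (by omega), Qk_snd_lt s l w h1, sub_self]
    · have h2 : N < l := by
        by_contra h3
        exact hc ⟨h1, by omega⟩
      rw [Qk_snd_gt N l w h2, Qk_snd_gt s l w (by omega), sub_self]
  · intro k hk
    have e1 : Qk X s w + (Qk X N w - Qk X s w) = Qk X N w := by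
      refine Prod.ext ?_ ?_
      · rw [Prod.fst_add, Prod.fst_sub, add_sub_cancel]
      · rw [Prod.snd_add, Prod.snd_sub]
        exact add_sub_cancel (Qk X s w).2 (Qk X N w).2
    have e2 := congrArg (Qk X k) e1
    rw [map_add, Qk_Qk, Qk_Qk, min_eq_left hk.le, min_eq_left (hk.le.trans h)] at e2
    refine Prod.ext rfl ?_
    have e3 := congrArg Prod.snd e2
    rw [Prod.snd_add] at e3
    exact (add_eq_left (a := (Qk X k w).2) (b := (Qk X k (Qk X N w - Qk X s w)).2)).mp e3

/-- `w - Q_n w = (x; -(x, 0) at n)` for large `n` -/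
theorem sub_Qk (w : W0 X) (n : ℕ) (h : ∀ l ∈ w.2.support, l < n) :
    w - Qk X n w = (w.1, - Finsupp.single n (w.1, 0)) := by
  refine Prod.ext ?_ ?_
  · rw [Prod.fst_sub, Qk_fst, sub_zero]
  · rw [Prod.snd_sub]
    show w.2 - (w.2.filter (fun l => l ≤ n) + Finsupp.single n ((Host.sig' n w, 0) : Eb X)) = _
    rw [sig_of_supp n w (fun l hl => (h l hl).le), filter_of_supp n w (fun l hl => (h l hl).le)]
    exact sub_add_cancel_left w.2 (Finsupp.single n ((w.1, 0) : Eb X))

end Pool.Agent.HI61
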