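import Pool.Agent.HI61.WBasic

/-!
# HI61/SingleB : vectors supported by few blocks

PROOFS.  `Kle_hat`: `coord_supp`-like: for `f ∈ K` choose `b` with `res 0 b f = f`... more precisely
`coord` with `q i := H.q i (w.2 i)` (`hat_le`) gives `|ev f (hat w)| ≤ ∑_{k < b} q k (w.2 k)` for every
`b` with `res 0 b f = f` (`exists_res_eq_self`), and `q k (w.2 k) = 0` outside of the support (`q_zero`).
`Th_hat`: `Th_eq_sum` and `Fj_l1`: `∑_j al C ≤ ∑_j (1/100) (1/2)^j ≤ 1/50` (`off`, `A ≥ 1`).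
-/

namespace Pool.Agent.HI61

open Finset
open scoped Classical

variable {X V : Type} [NormedAddCommGroup X] [NormedSpace ℝ X]
  [NormedAddCommGroup V] [NormedSpace ℝ V]

private theorem exists_b (w : W0 X) : ∃ b : ℕ, ∀ k ∈ w.2.support, k < b :=
  ⟨w.2.support.sup id + 1, fun k hk => Nat.lt_succ_of_le (Finset.le_sup (f := id) hk)⟩

private theorem sum_range_q (H : Host X V) (w : W0 X) (b : ℕ) (hb : ∀ k ∈ w.2.support, k < b) :
    ∑ k ∈ range b, H.q k (w.2 k) = ∑ k ∈ w.2.support, H.q k (w.2 k) := by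
  symm
  refine Finset.sum_subset (fun k hk => Finset.mem_range.2 (hb k hk)) fun k _ hk => ?_
  rw [Finsupp.notMem_support_iff.1 hk, q_zero]

theorem Kle_hat (H : Host X V) (w : W0 X) :
    Kle H.P (H.hat w) (∑ k ∈ w.2.support, H.q k (w.2 k)) := by
  obtain ⟨b, hb⟩ := exists_b w
  rw [← sum_range_q H w b hb]
  exact coord_supp H.good (H.hat w) (fun k => H.q k (w.2 k)) (hat_le H w) b
    (fun i hi => hb _ (hat_supp H w i hi))

theorem Th_sub_pos_le (H : Host X V) (w : W0 X) (v : V →L[ℝ] ℝ) (hv : ‖v‖ ≤ 1) :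
    |H.Th 0 v w - v (H.pos w)| ≤ 1 / 50 * ∑ k ∈ w.2.support, H.q k (w.2 k) := by
  obtain ⟨b, hb⟩ := exists_b w
  have hS : 0 ≤ ∑ k ∈ w.2.support, H.q k (w.2 k) :=
    Finset.sum_nonneg fun k _ => q_nonneg H k _
  rw [Th_eq_sum H w v b (fun k hk => (hb k hk).le) 0, add_sub_cancel_left]
  have h1 : ∀ j, |Fj H.P j (H.vs v) (H.hat w)| ≤
      1 / 100 * (∑ k ∈ w.2.support, H.q k (w.2 k)) * (1 / 2) ^ j := by
    intro j
    have h2 := Fj_l1 H.good j (H.vs v) (vs_mem H v hv) (H.hat w) (fun k => H.q k (w.2 k))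
      (hat_le H w) b (fun i hi => hb _ (hat_supp H w i hi))
    rw [sum_range_q H w b hb] at h2
    have hoff := H.good.off j
    have hal := H.good.al_pos j
    have hA : (1 : ℝ) ≤ H.P.A j := by exact_mod_cast H.good.A_pos j
    have hC : (0 : ℝ) ≤ H.P.C j := Nat.cast_nonneg _
    have h3 : H.P.al j * H.P.C j ≤ 1 / 100 * (1 / 2) ^ j := by
      have h4 : 0 ≤ H.P.al j * H.P.C j := by positivity
      have h5 : H.P.al j * H.P.C j ≤ H.P.A j * (H.P.al j * H.P.C j) := by nlinarith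
      nlinarith
    calc |Fj H.P j (H.vs v) (H.hat w)|
        ≤ H.P.al j * H.P.C j * ∑ k ∈ w.2.support, H.q k (w.2 k) := h2
      _ ≤ 1 / 100 * (1 / 2) ^ j * ∑ k ∈ w.2.support, H.q k (w.2 k) :=
          mul_le_mul_of_nonneg_right h3 hS
      _ = _ := by ring
  calc |∑ j ∈ Ico 0 b, Fj H.P j (H.vs v) (H.hat w)|
      ≤ ∑ j ∈ Ico 0 b, |Fj H.P j (H.vs v) (H.hat w)| := Finset.abs_sum_le_sum_abs _ _
    _ ≤ ∑ j ∈ Ico 0 b, 1 / 100 * (∑ k ∈ w.2.support, H.q k (w.2 k)) * (1 / 2) ^ j :=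
        Finset.sum_le_sum fun j _ => h1 j
    _ = 1 / 100 * (∑ k ∈ w.2.support, H.q k (w.2 k)) * ∑ j ∈ range b, (1 / 2) ^ j := by
        rw [← Finset.mul_sum, Finset.range_eq_Ico]
    _ ≤ 1 / 100 * (∑ k ∈ w.2.support, H.q k (w.2 k)) * 2 :=
        mul_le_mul_of_nonneg_left (sum_geometric_two_le b) (by positivity)
    _ = 1 / 50 * ∑ k ∈ w.2.support, H.q k (w.2 k) := by ring

/-- upper bound for the norm -/
theorem pW_le (H : Host X V) (pW : Seminorm ℝ (W0 X)) (hN : H.IsNorm pW) (w : W0 X) :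
    pW w ≤ ‖H.pos w‖ + ∑ k ∈ w.2.support, H.q k (w.2 k) := by
  have hS : 0 ≤ ∑ k ∈ w.2.support, H.q k (w.2 k) :=
    Finset.sum_nonneg fun k _ => q_nonneg H k _
  apply hN.N3 w _ (by positivity)
  · intro v hv
    have h1 := Th_sub_pos_le H w v hv
    have h2 : |v (H.pos w)| ≤ ‖H.pos w‖ := by
      have h3 := v.le_opNorm (H.pos w)
      rw [Real.norm_eq_abs] at h3
      exact h3.trans (mul_le_of_le_one_left (norm_nonneg _) hv)
    calc |H.Th 0 v w| = |v (H.pos w) + (H.Th 0 v w - v (H.pos w))| := by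
          rw [add_sub_cancel]
      _ ≤ |v (H.pos w)| + |H.Th 0 v w - v (H.pos w)| := abs_add_le _ _
      _ ≤ ‖H.pos w‖ + 1 / 50 * ∑ k ∈ w.2.support, H.q k (w.2 k) := add_le_add h2 h1
      _ ≤ _ := by linarith
  · intro f hf
    exact (Kle_hat H w f hf).trans (le_add_of_nonneg_left (norm_nonneg _))

/-- lower bound for the norm -/
theorem norm_pos_le (H : Host X V) (pW : Seminorm ℝ (W0 X)) (hN : H.IsNorm pW) (w : W0 X) :
    ‖H.pos w‖ ≤ pW w + 1 / 50 * ∑ k ∈ w.2.support, H.q k (w.2 k) := by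
  obtain ⟨v, hv, hv'⟩ := exists_dual_vector'' ℝ (H.pos w)
  have h1 := Th_sub_pos_le H w v hv
  have h2 := hN.N1 w v hv
  have h3 : v (H.pos w) = ‖H.pos w‖ := by simpa using hv'
  rw [h3] at h1
  have h4 := (abs_le.1 h1).1
  have h5 := (abs_le.1 h2).2
  linarith

end Pool.Agent.HI61
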