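import Pool.Agent.HI61.FrameP
import Pool.Agent.HI61.QAlg
import Pool.Agent.HI61.SingleB

/-!
# HI61/BlockB : the vectors `e(k, β)`

Notation: `S_m β = ∑_{i < m} β_i z_i`, `n = (pel k).n`, `S β = S_n β`, `s = F.s k`, `w = eb k β`.
PROOFS.  The components of `w`: block `k`: `(S β, β)`, block `k - 1` (if `k ≥ 1`): `(-S β, 0)`.
`pos w = R_k ι (S β) - R'_k ι (S β)`, so `‖pos w‖ = nr k (S β)`.
`eb_le`: `nr k (S β) ≤ s (S β) ≤ D`, `q k (S β, β) = max (p k (S β)) (pH β) ≤ max D (3 D)` (`P2`),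
`q (k-1) (-S β, 0) = p (k-1) (S β) = p' k (S β) ≤ D`.  `pW_le`: `≤ D + 3 D + D = 5 D` (`D ≥ 0` because it
bounds the seminorm for `m = 0`).
`le_eb`: let `B = pW w`.  `q_le_of_Kle` (`N2`): `p k (S β) ≤ B`, `pH β ≤ B`, `p' k (S β) ≤ B`; by `norm_pos_le`
`nr k (S β) = ‖pos w‖ ≤ B + (1/50) 2 B ≤ 2 B`.  So `s (S β) ≤ 2 B` and by `P1` `s (S_m β) ≤ 3 max (2 B) B = 6 B`.
`eb_trunc`: let `β' = β.filter (· < m)`; for `m' ≤ n`, `S_{m'} β' = S_{min m' m} β`, so `s (S_{m'} β') ≤ 6 B`; `eb_le`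
with `D = 6 B`: `pW (eb k β') ≤ 30 B`.
`Q_eb`: `k ≤ l`: `Qk_of_supp`.  `l = k - 1`: the component `k - 1` is `(-S β, 0) + (σ, 0)`, `σ = S β`, and the smaller
ones vanish.  `l < k - 1`: `σ_l = S β - S β = 0`.
`diff_eb`: `u = Q_k w - Q_{k-1} w` (`k ≥ 1`): components: `k - 1`: `w.2 (k-1) - w.2 (k-1) - (σ_{k-1}, 0) = -(y, 0)` with
`y = σ_{k-1} w = σ_k w + x_k`; `k`: `(x_k, h_k) + (σ_k, 0) = (y, h_k)`; all the others `0`.  For `k = 0`:
`Q_0 w = (0; (y, h_0) at 0)`, `y = x_0 + σ_0 w`.  Take `β` from `P3` for `(y, h_k)`: `u - eb k β` has the components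
`(y - S β, h_k - β)` at `k` and `-(y - S β, 0)` at `k - 1`, `s (y - S β) = 0`, `pH (h_k - β) = 0`; by `pW_le` its norm
is at most `nr k (y - S β) + q + q = 0`.
`eb_pos`: `le_eb` with `β = single i 1`, and `s (z i) = s (S_{i+1} β - S_i β) ≤ 12 pW`; `P4`.
-/

namespace Pool.Agent.HI61

open Finset
open scoped Classical

variable {X V : Type} [NormedAddCommGroup X] [NormedSpace ℝ X]
  [NormedAddCommGroup V] [NormedSpace ℝ V]

private theorem w_sub_zero (a : W0 X) : a - 0 = a := sub_zero a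

private theorem w_sub_zero' (a : ℕ →₀ Eb X) : a - 0 = a := sub_zero a

private theorem w_smul_sub (c : ℝ) (a b : W0 X) : c • (a - b) = c • a - c • b := smul_sub c a b

private theorem w_add_neg (a b : W0 X) : a + (-1 : ℝ) • b = a - b := by
  have h1 : (-1 : ℝ) • b = -b :=
    Prod.ext (neg_one_smul ℝ b.1) (Finsupp.ext fun i => neg_one_smul ℝ (b.2 i))
  rw [h1]
  exact (sub_eq_add_neg a b).symm

private theorem w_pos_sub (H : Host X V) (a b : W0 X) : H.pos (a - b) = H.pos a - H.pos b :=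
  map_sub H.pos a b

private theorem w_sig_sub (l : ℕ) (a b : W0 X) :
    Host.sig' l (a - b) = Host.sig' l a - Host.sig' l b := map_sub (Host.sig' l) a b

/-- a vector with one block component -/
private noncomputable def UU (k : ℕ) (e : Eb X) : W0 X := (0, Finsupp.single k e)

private theorem UU_add (k : ℕ) (e e' : Eb X) : UU k (e + e') = UU k e + UU k e' := by
  unfold UU
  rw [Finsupp.single_add]
  exact Prod.ext (by simp) (by simp)

private theorem UU_smul (k : ℕ) (c : ℝ) (e : Eb X) : UU k (c • e) = c • UU k e := by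
  unfold UU
  rw [← Finsupp.smul_single]
  exact Prod.ext (by simp) (by simp)

/-- the vector `(y, h)` at `k`, `-(y, 0)` at `k - 1` -/
private noncomputable def YY (k : ℕ) (y : X) (h : ℕ →₀ ℝ) : W0 X :=
  UU k (y, h) - (if k = 0 then 0 else UU (k - 1) (y, 0))

private theorem YY_add (k : ℕ) (y y' : X) (h h' : ℕ →₀ ℝ) :
    YY k (y + y') (h + h') = YY k y h + YY k y' h' := by
  unfold YY
  have e1 : ((y + y', h + h') : Eb X) = (y, h) + (y', h') := rfl
  have e2 : ((y + y', 0) : Eb X) = (y, 0) + (y', 0) := Prod.ext rfl (by simp)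
  rw [e1, e2, UU_add, UU_add]
  split_ifs <;> abel

private theorem YY_smul (k : ℕ) (c : ℝ) (y : X) (h : ℕ →₀ ℝ) :
    YY k (c • y) (c • h) = c • YY k y h := by
  unfold YY
  have e1 : ((c • y, c • h) : Eb X) = c • (y, h) := rfl
  have e2 : ((c • y, 0) : Eb X) = c • (y, 0) := Prod.ext rfl (by simp)
  rw [e1, e2, UU_smul, UU_smul, w_smul_sub]
  split_ifs <;> simp

private theorem YY_sub (k : ℕ) (y y' : X) (h h' : ℕ →₀ ℝ) :
    YY k (y - y') (h - h') = YY k y h - YY k y' h' := by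
  have e1 : y - y' = y + (-1 : ℝ) • y' := by rw [neg_one_smul, sub_eq_add_neg]
  have e2 : h - h' = h + (-1 : ℝ) • h' := by rw [neg_one_smul, sub_eq_add_neg]
  rw [e1, e2, YY_add, YY_smul, w_add_neg]

private theorem YY_fst (k : ℕ) (y : X) (h : ℕ →₀ ℝ) : (YY k y h).1 = 0 := by
  unfold YY UU
  split_ifs <;> simp

private theorem YY_zero_snd (y : X) (h : ℕ →₀ ℝ) : (YY 0 y h).2 = Finsupp.single 0 (y, h) := by
  unfold YY UU
  rw [if_pos rfl, w_sub_zero]

private theorem YY_succ_snd (k : ℕ) (y : X) (h : ℕ →₀ ℝ) :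
    (YY (k + 1) y h).2 = Finsupp.single (k + 1) (y, h) - Finsupp.single k (y, 0) := by
  unfold YY UU
  rw [if_neg (Nat.succ_ne_zero k), Nat.add_sub_cancel]
  rfl

private theorem YY_snd_self (k : ℕ) (y : X) (h : ℕ →₀ ℝ) : (YY k y h).2 k = (y, h) := by
  cases k with
  | zero => rw [YY_zero_snd, Finsupp.single_eq_same]
  | succ k =>
    rw [YY_succ_snd, Finsupp.sub_apply, Finsupp.single_eq_same,
      Finsupp.single_eq_of_ne (Nat.succ_ne_self k), sub_zero]

private theorem YY_snd_pred (k : ℕ) (y : X) (h : ℕ →₀ ℝ) :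
    (YY (k + 1) y h).2 k = -((y, 0) : Eb X) := by
  rw [YY_succ_snd, Finsupp.sub_apply, Finsupp.single_eq_same,
    Finsupp.single_eq_of_ne (Nat.succ_ne_self k).symm, zero_sub]

private theorem YY_snd_other (k l : ℕ) (y : X) (h : ℕ →₀ ℝ) (h1 : l ≠ k) (h2 : l + 1 ≠ k) :
    (YY k y h).2 l = 0 := by
  cases k with
  | zero => rw [YY_zero_snd, Finsupp.single_eq_of_ne h1]
  | succ k =>
    have h3 : l ≠ k := fun e => h2 (by rw [e])
    rw [YY_succ_snd, Finsupp.sub_apply, Finsupp.single_eq_of_ne h1, Finsupp.single_eq_of_ne h3,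
      sub_zero]

private theorem pos_UU (H : Host X V) (k : ℕ) (e : Eb X) :
    H.pos (UU k e) = H.F.R k (H.F.ι e.1) := by
  rw [pos_apply]
  unfold UU
  rw [Finsupp.sum_single_index (by simp), map_zero, zero_add]

private theorem pos_YY (H : Host X V) (k : ℕ) (y : X) (h : ℕ →₀ ℝ) :
    H.pos (YY k y h) = H.F.R k (H.F.ι y) - H.F.R' k (H.F.ι y) := by
  unfold YY
  rw [w_pos_sub, pos_UU]
  cases k with
  | zero =>
    rw [if_pos rfl, map_zero]
    rfl
  | succ k =>
    rw [if_neg (Nat.succ_ne_zero k), Nat.add_sub_cancel, pos_UU]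
    rfl

private theorem norm_pos_YY (H : Host X V) (k : ℕ) (y : X) (h : ℕ →₀ ℝ) :
    ‖H.pos (YY k y h)‖ = H.F.nr k y := by
  rw [pos_YY]
  rfl

private theorem nr_le (H : Host X V) (k : ℕ) (y : X) : H.F.nr k y ≤ H.F.s k y :=
  (le_sup_left (b := H.F.p k)).trans (le_sup_left (b := H.F.p' k)) y

private theorem p_le_s (H : Host X V) (k : ℕ) (y : X) : H.F.p k y ≤ H.F.s k y :=
  (le_sup_right (a := H.F.nr k)).trans (le_sup_left (b := H.F.p' k)) y

private theorem p'_le_s (H : Host X V) (k : ℕ) (y : X) : H.F.p' k y ≤ H.F.s k y :=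
  (le_sup_right (a := H.F.nr k ⊔ H.F.p k)) y

private theorem s_le (H : Host X V) (k : ℕ) (y : X) (B : ℝ) (h1 : H.F.nr k y ≤ B)
    (h2 : H.F.p k y ≤ B) (h3 : H.F.p' k y ≤ B) : H.F.s k y ≤ B := by
  show max (max (H.F.nr k y) (H.F.p k y)) (H.F.p' k y) ≤ B
  exact max_le (max_le h1 h2) h3

private theorem q_neg_pair (H : Host X V) (k : ℕ) (y : X) :
    H.q k (-((y, 0) : Eb X)) = H.F.p k y := by
  have e : (-((y, 0) : Eb X)) = (-y, -0) := rfl
  unfold Host.q
  rw [e, neg_zero]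
  show max (H.F.p k (-y)) ((H.pel k).pH 0) = _
  rw [map_neg_eq_map, map_zero]
  exact max_eq_left (apply_nonneg _ _)

private theorem sum_q_YY (H : Host X V) (k : ℕ) (y : X) (h : ℕ →₀ ℝ) :
    ∑ l ∈ (YY k y h).2.support, H.q l ((YY k y h).2 l) ≤ H.q k (y, h) + H.F.p' k y := by
  cases k with
  | zero =>
    have h1 : (YY 0 y h).2.support ⊆ {0} := by
      intro l hl
      rw [Finset.mem_singleton]
      by_contra hne
      exact (Finsupp.mem_support_iff.1 hl) (YY_snd_other 0 l y h hne (Nat.succ_ne_zero l))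
    refine (Finset.sum_le_sum_of_subset_of_nonneg h1 fun l _ _ => q_nonneg H l _).trans ?_
    rw [Finset.sum_singleton, YY_snd_self]
    exact le_add_of_nonneg_right (apply_nonneg _ _)
  | succ k =>
    have h1 : (YY (k + 1) y h).2.support ⊆ {k + 1, k} := by
      intro l hl
      rw [Finset.mem_insert, Finset.mem_singleton]
      by_contra hne
      rw [not_or] at hne
      exact (Finsupp.mem_support_iff.1 hl) (YY_snd_other (k + 1) l y h hne.1
        (fun e => hne.2 (Nat.succ_injective e)))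
    refine (Finset.sum_le_sum_of_subset_of_nonneg h1 fun l _ _ => q_nonneg H l _).trans ?_
    rw [Finset.sum_pair (Nat.succ_ne_self k), YY_snd_self, YY_snd_pred, q_neg_pair]
    exact le_rfl

private theorem pW_YY (H : Host X V) (pW : Seminorm ℝ (W0 X)) (hN : H.IsNorm pW) (k : ℕ) (y : X)
    (h : ℕ →₀ ℝ) : pW (YY k y h) ≤ H.F.nr k y + (max (H.F.p k y) ((H.pel k).pH h) + H.F.p' k y) := by
  have h1 := pW_le H pW hN (YY k y h)
  rw [norm_pos_YY] at h1
  exact h1.trans (add_le_add_right (sum_q_YY H k y h) _)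

/-- the sum `S_m β` -/
private noncomputable def SS (H : Host X V) (k : ℕ) (β : ℕ →₀ ℝ) (m : ℕ) : X :=
  ∑ i ∈ range m, β i • (H.pel k).z i

private theorem SS_add (H : Host X V) (k : ℕ) (β β' : ℕ →₀ ℝ) (m : ℕ) :
    SS H k (β + β') m = SS H k β m + SS H k β' m := by
  unfold SS
  rw [← Finset.sum_add_distrib]
  exact Finset.sum_congr rfl fun i _ => by rw [Finsupp.add_apply, add_smul]

private theorem SS_smul (H : Host X V) (k : ℕ) (c : ℝ) (β : ℕ →₀ ℝ) (m : ℕ) :
    SS H k (c • β) m = c • SS H k β m := by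
  unfold SS
  rw [Finset.smul_sum]
  exact Finset.sum_congr rfl fun i _ => by rw [Finsupp.smul_apply, smul_eq_mul, mul_smul]

private theorem eb_eq (H : Host X V) (k : ℕ) (β : ℕ →₀ ℝ) :
    H.eb k β = YY k (SS H k β (H.pel k).n) β := by
  have h1 : (H.eb k β).1 = 0 := rfl
  cases k with
  | zero =>
    refine Prod.ext (h1.trans (YY_fst _ _ _).symm) ?_
    rw [YY_zero_snd]
    show Finsupp.single 0 _ - (if (0 : ℕ) = 0 then 0 else _) = _
    rw [if_pos rfl, w_sub_zero']
    rfl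
  | succ k =>
    refine Prod.ext (h1.trans (YY_fst _ _ _).symm) ?_
    rw [YY_succ_snd]
    show Finsupp.single (k + 1) _ - (if k + 1 = 0 then 0 else _) = _
    rw [if_neg (Nat.succ_ne_zero k), Nat.add_sub_cancel]
    rfl

theorem eb_add (H : Host X V) (k : ℕ) (β β' : ℕ →₀ ℝ) :
    H.eb k (β + β') = H.eb k β + H.eb k β' := by
  rw [eb_eq, eb_eq, eb_eq, SS_add, YY_add]

theorem eb_smul (H : Host X V) (k : ℕ) (c : ℝ) (β : ℕ →₀ ℝ) : H.eb k (c • β) = c • H.eb k β := by
  rw [eb_eq, eb_eq, SS_smul, YY_smul]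

theorem eb_le (H : Host X V) (pW : Seminorm ℝ (W0 X)) (hN : H.IsNorm pW) (k : ℕ) (β : ℕ →₀ ℝ)
    (D : ℝ) (hD : ∀ m ≤ (H.pel k).n, H.F.s k (∑ i ∈ range m, β i • (H.pel k).z i) ≤ D) :
    pW (H.eb k β) ≤ 5 * D := by
  have hD0 : 0 ≤ D := (apply_nonneg (H.F.s k) _).trans (hD 0 (Nat.zero_le _))
  have h1 := hD (H.pel k).n le_rfl
  have h2 := (H.pel k).P2 β D hD
  rw [eb_eq]
  refine (pW_YY H pW hN k _ β).trans ?_
  have h3 : H.F.nr k (SS H k β (H.pel k).n) ≤ D := (nr_le H k _).trans h1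
  have h4 : H.F.p k (SS H k β (H.pel k).n) ≤ D := (p_le_s H k _).trans h1
  have h5 : H.F.p' k (SS H k β (H.pel k).n) ≤ D := (p'_le_s H k _).trans h1
  have h6 : max (H.F.p k (SS H k β (H.pel k).n)) ((H.pel k).pH β) ≤ 3 * D :=
    max_le (by linarith) h2
  linarith

theorem le_eb (H : Host X V) (pW : Seminorm ℝ (W0 X)) (hN : H.IsNorm pW) (k : ℕ) (β : ℕ →₀ ℝ)
    (m : ℕ) (hm : m ≤ (H.pel k).n) :
    H.F.s k (∑ i ∈ range m, β i • (H.pel k).z i) ≤ 6 * pW (H.eb k β) := by
  have hK := hN.N2 (H.eb k β)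
  have hB0 : 0 ≤ pW (H.eb k β) := apply_nonneg _ _
  have h1 := q_le_of_Kle H (H.eb k β) _ hK k
  have hpos := norm_pos_le H pW hN (H.eb k β)
  rw [eb_eq] at h1 hpos hB0 ⊢
  rw [eb_eq] at hK
  set y := SS H k β (H.pel k).n with hy
  set B := pW (YY k y β) with hB
  rw [YY_snd_self] at h1
  have h1p : H.F.p k y ≤ B := (le_max_left _ _).trans h1
  have h1h : (H.pel k).pH β ≤ B := (le_max_right _ _).trans h1
  have h2 : H.F.p' k y ≤ B := by
    cases k with
    | zero => exact hB0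
    | succ k =>
      have h3 := q_le_of_Kle H _ _ hK k
      rw [YY_snd_pred, q_neg_pair] at h3
      exact h3
  rw [norm_pos_YY] at hpos
  have h3 := sum_q_YY H k y β
  have h4 : H.q k (y, β) ≤ B := h1
  have h5 : H.F.nr k y ≤ 2 * B := by linarith
  have h6 : H.F.s k y ≤ 2 * B := s_le H k y _ h5 (by linarith) (by linarith)
  have h7 := (H.pel k).P1 β m hm
  have h8 : max (H.F.s k (∑ i ∈ range (H.pel k).n, β i • (H.pel k).z i)) ((H.pel k).pH β) ≤ 2 * B :=
    max_le h6 (by linarith)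
  linarith

theorem eb_trunc (H : Host X V) (pW : Seminorm ℝ (W0 X)) (hN : H.IsNorm pW) (k : ℕ)
    (β : ℕ →₀ ℝ) (m : ℕ) : pW (H.eb k (β.filter fun i => i < m)) ≤ 30 * pW (H.eb k β) := by
  have h1 := eb_le H pW hN k (β.filter fun i => i < m) (6 * pW (H.eb k β)) (by
    intro m' hm'
    have e : ∑ i ∈ range m', (β.filter fun i => i < m) i • (H.pel k).z i =
        ∑ i ∈ range (min m' m), β i • (H.pel k).z i := by
      have h2 : range (min m' m) ⊆ range m' := Finset.range_subset_range.2 (min_le_left _ _)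
      rw [← Finset.sum_subset h2]
      · refine Finset.sum_congr rfl fun i hi => ?_
        rw [Finset.mem_range, lt_min_iff] at hi
        rw [Finsupp.filter_apply, if_pos hi.2]
      · intro i hi hni
        rw [Finset.mem_range] at hi
        rw [Finset.mem_range, lt_min_iff, not_and] at hni
        rw [Finsupp.filter_apply, if_neg (hni hi), zero_smul]
    rw [e]
    exact le_eb H pW hN k β _ ((min_le_left _ _).trans hm'))
  linarith

private theorem sig_UU (l k : ℕ) (e : Eb X) :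
    Host.sig' l (UU k e) = if l < k then e.1 else 0 := by
  show (0 : X) + (Finsupp.single k e).sum (fun l' e => if l < l' then e.1 else 0) = _
  rw [Finsupp.sum_single_index (by simp), zero_add]

private theorem sig_YY (l k : ℕ) (y : X) (h : ℕ →₀ ℝ) :
    Host.sig' l (YY k y h) = if l + 1 = k then y else 0 := by
  unfold YY
  rw [w_sig_sub, sig_UU]
  cases k with
  | zero =>
    rw [if_pos rfl, map_zero, if_neg (Nat.not_lt_zero l), if_neg (Nat.succ_ne_zero l), sub_zero]
  | succ k =>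
    rw [if_neg (Nat.succ_ne_zero k), Nat.add_sub_cancel, sig_UU]
    rcases lt_trichotomy l k with h1 | h1 | h1
    · rw [if_pos (by omega), if_pos h1, if_neg (by omega), sub_self]
    · rw [if_pos (by omega), if_neg (by omega), if_pos (by omega), sub_zero]
    · rw [if_neg (by omega), if_neg (by omega), if_neg (by omega), sub_zero]

theorem Q_eb (H : Host X V) (k l : ℕ) (β : ℕ →₀ ℝ) :
    Qk X l (H.eb k β) = if k ≤ l then H.eb k β else 0 := by
  rw [eb_eq]
  generalize SS H k β (H.pel k).n = y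
  split_ifs with hkl
  · refine Qk_of_supp l _ (YY_fst _ _ _) fun l' hl' => ?_
    by_contra hne
    rw [not_le] at hne
    exact (Finsupp.mem_support_iff.1 hl') (YY_snd_other k l' y β (by omega) (by omega))
  · rw [not_le] at hkl
    refine Prod.ext (Qk_fst _ _) (Finsupp.ext fun l' => ?_)
    show (Qk X l (YY k y β)).2 l' = 0
    rcases lt_trichotomy l' l with h1 | h1 | h1
    · rw [Qk_snd_lt l l' _ h1]
      exact YY_snd_other k l' y β (by omega) (by omega)
    · subst h1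
      rw [Qk_snd_eq, sig_YY]
      by_cases h2 : l' + 1 = k
      · subst h2
        rw [if_pos rfl, YY_snd_pred]
        exact Prod.ext (by simp) (by simp)
      · rw [if_neg h2, YY_snd_other k l' y β (by omega) h2]
        exact Prod.ext (by simp) (by simp)
    · exact Qk_snd_gt l l' _ h1

private theorem sig_succ (k : ℕ) (w : W0 X) :
    Host.sig' k w = Host.sig' (k + 1) w + (w.2 (k + 1)).1 := by
  show w.1 + w.2.sum (fun l e => if k < l then e.1 else 0) =
    w.1 + w.2.sum (fun l e => if k + 1 < l then e.1 else 0) + (w.2 (k + 1)).1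
  rw [add_assoc]
  congr 1
  have h1 : (w.2 (k + 1)).1 = w.2.sum (fun l e => if k + 1 = l then e.1 else 0) := by
    rw [Finsupp.sum, Finset.sum_ite_eq]
    split_ifs with h
    · rfl
    · rw [Finsupp.notMem_support_iff.1 h]
      rfl
  rw [h1, Finsupp.sum, Finsupp.sum, Finsupp.sum, ← Finset.sum_add_distrib]
  refine Finset.sum_congr rfl fun l _ => ?_
  rcases lt_trichotomy l (k + 1) with h | h | h
  · rw [if_neg (by omega), if_neg (by omega), if_neg (by omega), add_zero]
  · rw [if_pos (by omega), if_neg (by omega), if_pos (by omega), zero_add]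
  · rw [if_pos (by omega), if_pos (by omega), if_neg (by omega), add_zero]

private theorem diff_eq (k : ℕ) (w : W0 X) :
    Qk X k w - (if k = 0 then 0 else Qk X (k - 1) w) =
      YY k (Host.sig' k w + (w.2 k).1) (w.2 k).2 := by
  cases k with
  | zero =>
    rw [if_pos rfl, w_sub_zero]
    refine Prod.ext ((Qk_fst _ _).trans (YY_fst _ _ _).symm) (Finsupp.ext fun l => ?_)
    rcases Nat.eq_zero_or_pos l with h | h
    · subst h
      rw [Qk_snd_eq, YY_snd_self]
      exact Prod.ext (by simp [add_comm]) (by simp)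
    · rw [Qk_snd_gt 0 l w h, YY_snd_other 0 l _ _ (by omega) (by omega)]
  | succ k =>
    rw [if_neg (Nat.succ_ne_zero k), Nat.add_sub_cancel, ← sig_succ]
    refine Prod.ext ?_ (Finsupp.ext fun l => ?_)
    · rw [Prod.fst_sub, Qk_fst, Qk_fst, YY_fst, sub_zero]
    · rw [Prod.snd_sub, Finsupp.sub_apply]
      rcases lt_trichotomy l (k + 1) with h | h | h
      · rw [Qk_snd_lt (k + 1) l w h]
        rcases (Nat.lt_succ_iff.1 h).eq_or_lt with h1 | h1
        · subst h1
          rw [Qk_snd_eq, YY_snd_pred]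
          exact Prod.ext (by simp) (by simp)
        · rw [Qk_snd_lt k l w h1, sub_self, YY_snd_other (k + 1) l _ _ (by omega) (by omega)]
      · subst h
        rw [Qk_snd_eq, Qk_snd_gt k (k + 1) w (Nat.lt_succ_self k), YY_snd_self, sig_succ k w]
        exact Prod.ext (by simp [add_comm]) (by simp)
      · rw [Qk_snd_gt (k + 1) l w h, Qk_snd_gt k l w (by omega), sub_zero,
          YY_snd_other (k + 1) l _ _ (by omega) (by omega)]

theorem diff_eb (H : Host X V) (pW : Seminorm ℝ (W0 X)) (hN : H.IsNorm pW) (k : ℕ) (w : W0 X) :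
    ∃ β : ℕ →₀ ℝ, (∀ i ∈ β.support, i < (H.pel k).n) ∧
      pW (Qk X k w - (if k = 0 then 0 else Qk X (k - 1) w) - H.eb k β) = 0 := by
  obtain ⟨β, hβ, h1, h2⟩ := (H.pel k).P3 (Host.sig' k w + (w.2 k).1) (w.2 k).2
  refine ⟨β, hβ, ?_⟩
  rw [diff_eq, eb_eq, ← YY_sub]
  have h3 : H.F.s k (Host.sig' k w + (w.2 k).1 - SS H k β (H.pel k).n) = 0 := h1
  have h4 := pW_YY H pW hN k (Host.sig' k w + (w.2 k).1 - SS H k β (H.pel k).n) ((w.2 k).2 - β)
  have h5 := nr_le H k (Host.sig' k w + (w.2 k).1 - SS H k β (H.pel k).n)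
  have h6 := p_le_s H k (Host.sig' k w + (w.2 k).1 - SS H k β (H.pel k).n)
  have h7 := p'_le_s H k (Host.sig' k w + (w.2 k).1 - SS H k β (H.pel k).n)
  rw [h3] at h5 h6 h7
  rw [h2] at h4
  have h8 : max (H.F.p k (Host.sig' k w + (w.2 k).1 - SS H k β (H.pel k).n)) 0 ≤ 0 :=
    max_le h6 le_rfl
  refine le_antisymm ?_ (apply_nonneg _ _)
  linarith

theorem eb_pos (H : Host X V) (pW : Seminorm ℝ (W0 X)) (hN : H.IsNorm pW) (k i : ℕ)
    (hi : i < (H.pel k).n) : 0 < pW (H.eb k (Finsupp.single i 1)) := by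
  have h1 := le_eb H pW hN k (Finsupp.single i 1) (i + 1) hi
  have e : ∑ j ∈ range (i + 1), (Finsupp.single i (1 : ℝ)) j • (H.pel k).z j = (H.pel k).z i := by
    rw [Finset.sum_eq_single i]
    · rw [Finsupp.single_eq_same, one_smul]
    · intro j _ hj
      rw [Finsupp.single_eq_of_ne hj, zero_smul]
    · intro hni
      exact absurd (Finset.mem_range.2 (Nat.lt_succ_self i)) hni
  rw [e] at h1
  have h2 := (H.pel k).P4 i hi
  linarith

end Pool.Agent.HI61
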