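import Mathlib

/-!
# HI61/CantorC : the space `C(Cantor)` : projections and universality

PROOFS.
`cantor_proj`: `τ_n : (ℕ → Bool) → (ℕ → Bool)`, `τ_n s i = s i` for `i < n` and `false` for `i ≥ n`; continuous,
`τ_n ∘ τ_m = τ_{min n m}`.  `Pn n f = f ∘ τ_n` (`ContinuousMap.compRightContinuousMap`, or `LinearMap.mkContinuous`).
`‖f ∘ τ_n‖ ≤ ‖f‖`.  Convergence: `f` is uniformly continuous on the compact space and `τ_n → id` uniformly (e.g. for
the metric `PiNat.dist`, or: for every entourage...; alternatively cover by finitely many cylinders on which the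
oscillation of `f` is small: every point has a cylinder neighbourhood; by compactness there is `n` such that `f`
varies by at most `ε` on every cylinder of length `n`).  Finite rank: `Pn n f` only depends on the
values of `f` at the `2^n` points `τ_n s`: `Pn n f = f ∘ τ_n` is determined by a function on `Fin n → Bool`, so the range
of `Pn n` is the image of a linear map from the finite dimensional space `(Fin n → Bool) → ℝ`.
`embed_C`: the closed unit ball `B` of the dual of `X` with the weak* topology is compact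
(`WeakDual.isCompact_closedBall`) and metrizable (`WeakDual.metrizable_of_isCompact`, `X` separable), nonempty, so there is a
continuous surjection `π : (ℕ → Bool) → B` (`exists_nat_bool_continuous_surjective_of_compact`).
`ι x = (s ↦ π s x)`; `‖ι x‖ = sup_{φ ∈ B} |φ x| = ‖x‖` (Hahn-Banach).
-/

namespace Pool.Agent.HI61

open Filter Topology

/-- truncation of a point of the Cantor space -/
def ctau (n : ℕ) : C(ℕ → Bool, ℕ → Bool) where
  toFun s i := if i < n then s i else false
  continuous_toFun := by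
    refine continuous_pi (fun i => ?_)
    by_cases h : i < n
    · simp only [h, if_true]
      exact continuous_apply i
    · simp only [h, if_false]
      exact continuous_const

theorem ctau_apply (n : ℕ) (s : ℕ → Bool) (i : ℕ) : ctau n s i = if i < n then s i else false := rfl

/-- the projections -/
noncomputable def cPn (n : ℕ) : C(ℕ → Bool, ℝ) →L[ℝ] C(ℕ → Bool, ℝ) :=
  LinearMap.mkContinuous
    { toFun := fun f => f.comp (ctau n)
      map_add' := fun _ _ => rfl
      map_smul' := fun _ _ => rfl } 1 (by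
    intro f
    rw [one_mul]
    refine (ContinuousMap.norm_le _ (norm_nonneg f)).2 (fun s => ?_)
    exact f.norm_coe_le_norm (ctau n s))

theorem cPn_apply (n : ℕ) (f : C(ℕ → Bool, ℝ)) (s : ℕ → Bool) : cPn n f s = f (ctau n s) := rfl

theorem tendstoUniformly_ctau : TendstoUniformly (fun n => (ctau n : (ℕ → Bool) → (ℕ → Bool))) id atTop := by
  rw [tendstoUniformly_iff_tendsto, Pi.uniformity, tendsto_iInf]
  intro i
  rw [tendsto_comap_iff]
  intro U hU
  rw [mem_map]
  have h1 : {n : ℕ | i < n} ∈ (atTop : Filter ℕ) := Ioi_mem_atTop i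
  filter_upwards [prod_mem_prod h1 (univ_mem : (Set.univ : Set (ℕ → Bool)) ∈ (⊤ : Filter (ℕ → Bool)))] with q hq
  have hq1 : i < q.1 := hq.1
  show (q.2 i, ctau q.1 q.2 i) ∈ U
  rw [ctau_apply, if_pos hq1]
  exact refl_mem_uniformity hU

theorem cantor_proj : ∃ Pn : ℕ → C(ℕ → Bool, ℝ) →L[ℝ] C(ℕ → Bool, ℝ),
    (∀ n v, ‖Pn n v‖ ≤ ‖v‖) ∧ (∀ n m v, Pn n (Pn m v) = Pn (min n m) v) ∧
    (∀ v, Tendsto (fun n => Pn n v) atTop (𝓝 v)) ∧
    ∀ n, FiniteDimensional ℝ (LinearMap.range (Pn n : C(ℕ → Bool, ℝ) →ₗ[ℝ] C(ℕ → Bool, ℝ))) := by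
  refine ⟨cPn, ?_, ?_, ?_, ?_⟩
  · intro n v
    refine (ContinuousMap.norm_le _ (norm_nonneg v)).2 (fun s => ?_)
    exact v.norm_coe_le_norm (ctau n s)
  · intro n m v
    ext s
    rw [cPn_apply, cPn_apply, cPn_apply]
    congr 1
    funext i
    rw [ctau_apply, ctau_apply, ctau_apply]
    by_cases h1 : i < m
    · by_cases h2 : i < n
      · rw [if_pos h1, if_pos h2, if_pos (lt_min h2 h1)]
      · rw [if_pos h1, if_neg h2, if_neg (fun h => h2 (lt_of_lt_of_le h (min_le_left _ _)))]
    · rw [if_neg h1, if_neg (fun h => h1 (lt_of_lt_of_le h (min_le_right _ _)))]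
  · intro v
    have huc : UniformContinuous v := CompactSpace.uniformContinuous_of_continuous v.continuous
    have h := huc.comp_tendstoUniformly tendstoUniformly_ctau
    rw [ContinuousMap.tendsto_iff_tendstoUniformly]
    exact h
  · intro n
    -- the finite dimensional model
    let r : (ℕ → Bool) → (Fin n → Bool) := fun s i => s i
    have hr : Continuous r := continuous_pi (fun i => continuous_apply _)
    let e : (Fin n → Bool) → (ℕ → Bool) := fun t i => if h : i < n then t ⟨i, h⟩ else false
    have her : ∀ s, e (r s) = ctau n s := by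
      intro s
      funext i
      rw [ctau_apply]
      by_cases h : i < n
      · simp [e, r, h]
      · simp [e, h]
    let L : ((Fin n → Bool) → ℝ) →ₗ[ℝ] C(ℕ → Bool, ℝ) :=
      { toFun := fun g => ⟨fun s => g (r s), (continuous_of_discreteTopology (f := g)).comp hr⟩
        map_add' := fun _ _ => rfl
        map_smul' := fun _ _ => rfl }
    have hle : LinearMap.range (cPn n : C(ℕ → Bool, ℝ) →ₗ[ℝ] C(ℕ → Bool, ℝ)) ≤ LinearMap.range L := by
      rintro _ ⟨f, rfl⟩
      refine ⟨fun t => f (e t), ?_⟩
      ext s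
      show f (e (r s)) = f (ctau n s)
      rw [her]
    exact Submodule.finiteDimensional_of_le hle

theorem embed_C (X : Type*) [NormedAddCommGroup X] [NormedSpace ℝ X]
    [TopologicalSpace.SeparableSpace X] : Nonempty (X →ₗᵢ[ℝ] C(ℕ → Bool, ℝ)) := by
  let K : Set (WeakDual ℝ X) := WeakDual.toStrongDual ⁻¹' Metric.closedBall (0 : StrongDual ℝ X) 1
  have hK : IsCompact K := WeakDual.isCompact_closedBall (0 : StrongDual ℝ X) 1
  have hKm : TopologicalSpace.MetrizableSpace K := WeakDual.metrizable_of_isCompact ℝ X K hK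
  have hKc : CompactSpace K := isCompact_iff_compactSpace.1 hK
  have hKn : Nonempty K := ⟨⟨0, by
    show WeakDual.toStrongDual (0 : WeakDual ℝ X) ∈ Metric.closedBall (0 : StrongDual ℝ X) 1
    rw [map_zero]
    exact Metric.mem_closedBall_self zero_le_one⟩⟩
  let _ : MetricSpace K := TopologicalSpace.metrizableSpaceMetric K
  obtain ⟨π, hπc, hπs⟩ := exists_nat_bool_continuous_surjective_of_compact K
  have hnorm : ∀ (φ : K) (x : X), ‖(φ : WeakDual ℝ X) x‖ ≤ ‖x‖ := by
    intro φ x
    have h1 : WeakDual.toStrongDual (φ : WeakDual ℝ X) ∈ Metric.closedBall (0 : StrongDual ℝ X) 1 := φ.2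
    rw [mem_closedBall_zero_iff] at h1
    have h2 := (WeakDual.toStrongDual (φ : WeakDual ℝ X)).le_opNorm x
    calc ‖(φ : WeakDual ℝ X) x‖ = ‖(WeakDual.toStrongDual (φ : WeakDual ℝ X)) x‖ := rfl
      _ ≤ ‖WeakDual.toStrongDual (φ : WeakDual ℝ X)‖ * ‖x‖ := h2
      _ ≤ 1 * ‖x‖ := mul_le_mul_of_nonneg_right h1 (norm_nonneg _)
      _ = ‖x‖ := one_mul _
  let I : X →ₗ[ℝ] C(ℕ → Bool, ℝ) :=
    { toFun := fun x => ⟨fun s => (π s : WeakDual ℝ X) x,
        (WeakDual.eval_continuous x).comp (continuous_subtype_val.comp hπc)⟩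
      map_add' := fun x y => by
        ext s
        exact map_add (π s : WeakDual ℝ X) x y
      map_smul' := fun c x => by
        ext s
        exact map_smul (π s : WeakDual ℝ X) c x }
  refine ⟨⟨I, fun x => ?_⟩⟩
  apply le_antisymm
  · exact (ContinuousMap.norm_le _ (norm_nonneg x)).2 (fun s => hnorm (π s) x)
  · rcases eq_or_ne x 0 with hx | hx
    · subst hx
      rw [norm_zero]
      exact norm_nonneg _
    · obtain ⟨g, hg1, hg2⟩ := exists_dual_vector ℝ x (norm_ne_zero_iff.2 hx)
      have hgK : (StrongDual.toWeakDual g) ∈ K := by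
        show WeakDual.toStrongDual (StrongDual.toWeakDual g) ∈ Metric.closedBall (0 : StrongDual ℝ X) 1
        rw [mem_closedBall_zero_iff]
        exact hg1.le
      obtain ⟨s, hs⟩ := hπs ⟨StrongDual.toWeakDual g, hgK⟩
      have h1 : (I x) s = ‖x‖ := by
        show (π s : WeakDual ℝ X) x = ‖x‖
        rw [hs]
        exact hg2
      calc ‖x‖ = ‖(I x) s‖ := by rw [h1, norm_norm]
        _ ≤ ‖I x‖ := (I x).norm_coe_le_norm s

end Pool.Agent.HI61
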