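import Pool.Agent.HI61.Defs2

/-!
# HI61/TreeBasic : nodes, chains

PROOFS.
`nodeOK_suffix`, `tree_suffix`: transitivity of `<:+` and `List.IsSuffix.length_le`.
`hd_before`: write `t = g :: p` (`NodeOK` gives `t ≠ []`); `s <:+ t`, `s ≠ t` gives `s <:+ p`
(`List.suffix_cons_iff`); `s = g' :: p'`.  For `i ∈ g'.support`, `blk i ≤ code j s` (`blk_le_code`)
`≤ code j p` (`code_mono`) `< blk i'` for `i' ∈ g.support` (third part of `NodeOK`).
`tree_hd`: `t = g :: p`, take the suffix `t` itself.
`chain_enum`: the elements of `T` which are suffixes of `s` have different lengths (two suffixes of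
the same list with the same length are equal) and all the lengths are in `[1, ell j]`; so there are
at most `ell j` of them, and sorting them by length (e.g. `Finset.orderEmbOfFin` of the set of the
lengths, then `t l = s.drop (s.length - len l)`, or `List.mergeSort`) gives the enumeration; two
suffixes of `s` are comparable (`List.suffix_of_suffix_length_le`).
-/

namespace Pool.Agent.HI61

open Finset
open scoped Classical

theorem nodeOK_suffix {P : Par} {j : ℕ} {s t : List Fn} (h : P.NodeOK j t) (hs : s <:+ t)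
    (hne : s ≠ []) : P.NodeOK j s :=
  ⟨hne, hs.length_le.trans h.2.1, fun g p hgp => h.2.2 g p (hgp.trans hs)⟩

theorem tree_suffix {P : Par} {j : ℕ} {s t : List Fn} (h : Tree P j t) (hs : s <:+ t)
    (hne : s ≠ []) : Tree P j s :=
  ⟨nodeOK_suffix h.1 hs hne, fun g p hgp => h.2 g p (hgp.trans hs)⟩

theorem hd_before {P : Par} {j : ℕ} {s t : List Fn} (h : P.NodeOK j t) (hs : s <:+ t)
    (hne : s ≠ []) (hst : s ≠ t) : Before (hd s) (hd t) := by
  obtain ⟨g, p, rfl⟩ := List.exists_cons_of_ne_nil h.1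
  obtain ⟨g', p', rfl⟩ := List.exists_cons_of_ne_nil hne
  rcases List.suffix_cons_iff.1 hs with h1 | h1
  · exact absurd h1 hst
  · intro i hi i' hi'
    have h2 : blk i ≤ P.code j (g' :: p') := blk_le_code P j g' p' i hi
    have h3 : P.code j (g' :: p') ≤ P.code j p := code_mono P j h1
    have h4 : P.code j p < blk i' := h.2.2 g p List.suffix_rfl i' hi'
    omega

theorem tree_hd {P : Par} {j : ℕ} {t : List Fn} (h : Tree P j t) :
    InK P (some (2 * P.sig j t.tail)) (hd t) := by
  obtain ⟨g, p, rfl⟩ := List.exists_cons_of_ne_nil h.1.1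
  exact h.2 g p List.suffix_rfl

/-- increasing enumeration of the nodes of a finite set which are on a given chain -/
theorem chain_enum {P : Par} {j : ℕ} (T : Finset (List Fn)) (hT : ∀ t ∈ T, P.NodeOK j t)
    (s : List Fn) :
    ∃ (n : ℕ) (t : Fin n → List Fn), n ≤ P.ell j ∧ Function.Injective t ∧
      (∀ l l', l < l' → t l <:+ t l' ∧ t l ≠ t l') ∧
      ∀ x, x ∈ T.filter (fun t => t <:+ s) ↔ ∃ l, t l = x := by
  obtain ⟨F, hF⟩ : ∃ F : Finset (List Fn), F = T.filter (fun t => t <:+ s) := ⟨_, rfl⟩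
  obtain ⟨Λ, hΛ⟩ : ∃ Λ : Finset ℕ, Λ = F.image List.length := ⟨_, rfl⟩
  have hFs : ∀ x ∈ F, x <:+ s := fun x hx => by
    rw [hF] at hx; exact (Finset.mem_filter.1 hx).2
  have hdrop : ∀ x ∈ F, s.drop (s.length - x.length) = x := fun x hx =>
    (List.suffix_iff_eq_drop.1 (hFs x hx)).symm
  have hcard : Λ.card ≤ P.ell j := by
    have h1 : Λ ⊆ Finset.Icc 1 (P.ell j) := by
      intro n hn
      rw [hΛ, Finset.mem_image] at hn
      obtain ⟨x, hx, rfl⟩ := hn
      have h2 : P.NodeOK j x := by
        rw [hF] at hx; exact hT x (Finset.mem_filter.1 hx).1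
      rw [Finset.mem_Icc]
      exact ⟨List.length_pos_iff.2 h2.1, h2.2.1⟩
    have h2 := Finset.card_le_card h1
    rw [Nat.card_Icc] at h2
    omega
  obtain ⟨φ, hφ⟩ : ∃ φ : Fin Λ.card → ℕ, φ = fun l => Λ.orderEmbOfFin rfl l := ⟨_, rfl⟩
  have hmono : StrictMono φ := by
    rw [hφ]; exact (Λ.orderEmbOfFin rfl).strictMono
  have hx : ∀ l, ∃ x ∈ F, x.length = φ l ∧ s.drop (s.length - φ l) = x := by
    intro l
    have h1 : φ l ∈ Λ := by rw [hφ]; exact Λ.orderEmbOfFin_mem rfl l
    rw [hΛ, Finset.mem_image] at h1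
    obtain ⟨x, hx1, hx2⟩ := h1
    exact ⟨x, hx1, hx2, by rw [← hx2]; exact hdrop x hx1⟩
  have hlen : ∀ l, (s.drop (s.length - φ l)).length = φ l := by
    intro l
    obtain ⟨x, _, hx2, hx3⟩ := hx l
    rw [hx3, hx2]
  have hmem : ∀ l, s.drop (s.length - φ l) ∈ F := by
    intro l
    obtain ⟨x, hx1, _, hx3⟩ := hx l
    rw [hx3]; exact hx1
  rw [← hF]
  refine ⟨Λ.card, fun l => s.drop (s.length - φ l), hcard, ?_, ?_, ?_⟩
  · intro l l' h
    have h1 := congrArg List.length h
    simp only [hlen] at h1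
    exact hmono.injective h1
  · intro l l' h
    have h1 := hmono h
    refine ⟨List.suffix_of_suffix_length_le (hFs _ (hmem l)) (hFs _ (hmem l'))
      (by rw [hlen, hlen]; exact h1.le), fun h2 => ?_⟩
    have h3 := congrArg List.length h2
    simp only [hlen] at h3
    omega
  · intro x
    constructor
    · intro hxF
      have h1 : x.length ∈ Set.range (Λ.orderEmbOfFin rfl) := by
        rw [Finset.range_orderEmbOfFin, hΛ]
        exact Finset.mem_coe.2 (Finset.mem_image_of_mem _ hxF)
      obtain ⟨l, hl⟩ := h1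
      refine ⟨l, ?_⟩
      show s.drop (s.length - φ l) = x
      have h2 : φ l = x.length := by rw [hφ]; exact hl
      rw [h2]
      exact hdrop x hxF
    · rintro ⟨l, rfl⟩
      exact hmem l

end Pool.Agent.HI61
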