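import Pool.Agent.HI61.Exact
import Pool.Agent.HI61.TreeBasic

/-!
# HI61/Chain : branches of exact vectors

PROOF.  Recursion on `t`; state: `p t : List Fn` (with `length = t`) and `μ t : ℕ` such that
`code j (p t) < Z.s (μ t)` (possible: `Z.s n ≥ n`, `StrictMono.id_le`).  Let
`w = sig j (p t) ≥ W j`.  `exact_vec` with `m = μ t` gives `u, m', Gs`.  Put `b = Z.s m'`.  Let
`hi t ≥ 2 w` be such that `98 * b / M κ ≤ (1/2)^(t+1)` for `κ ≥ hi t` (`M κ ≥ κ`).  As `Gs` is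
infinite and `enc` injective, there is `g t ∈ Gs` with `enc (g t) ≥ hi t`; then
`sig j (g t :: p t) ≥ encL (g t :: p t) ≥ enc (g t) ≥ hi t` (`Nat.left_le_pair`), so
`hi t ≤ 2 * sig j (p (t+1)) = lo (t+1)`.
`p (t+1) = g t :: p t`, `u t = (ev (g t) (comb u))⁻¹ • u`, `μ (t+1) ≥ m'` with
`code j (p (t+1)) < Z.s (μ (t+1))`; `S t = Z.s (μ t)`; `δ t = (1/2)^(t+1)`.
`1 ≤ (ev (g t) (comb u))⁻¹ ≤ 2`, so all the bounds of `exact_vec` at most double: `Kle 98`, `KS 98`,
the bound for the large types, and `Dec ... 2` (`|c| ≤ 2 (M / L^{1/r})`).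
`R3`: `coord_ty_supp` with `q = 98` (`Kle_abs`).
`tree` for `t < ell j`: `NodeOK`: `p (t+1) ≠ []`, its length is `t + 1 ≤ ell j`, and a suffix
`g' :: p'` of `p (t+1)` is `p (t'+1)` with `t' ≤ t`, `g' = g t'`, `p' = p t'`; the blocks of `g t'`
are `≥ Z.s (μ t') > code j (p t')`.  Types: `g t' ∈ Gs` has type `2 * sig j (p t')`.
-/

namespace Pool.Agent.HI61

open Finset
open scoped Classical

private theorem ch_le_M {P : Par} (hG : Good P) (κ : ℕ) : κ ≤ P.M κ := by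
  have h1 : ∀ n, n ≤ P.e n := by
    intro n
    induction n with
    | zero => exact Nat.zero_le _
    | succ n ih =>
      have := hG.e_step n
      omega
  have h2 : κ < 2 ^ κ := Nat.lt_two_pow_self
  have h3 : 2 ^ κ ≤ 2 ^ P.e κ := Nat.pow_le_pow_right (by norm_num) (h1 κ)
  unfold Par.M
  omega

private theorem ch_step {P : Par} (hG : Good P) (Z : BSeq) (j : ℕ) (G : ℕ → (ℕ →₀ ℝ) → Prop)
    (hS : ∀ w, P.W j ≤ w → Supply P Z (G w)) (t : ℕ)
    (s : {pm : List Fn × ℕ // P.code j pm.1 < Z.s pm.2}) :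
    ∃ (g : Fn) (u : ℕ →₀ ℝ) (hi μ' : ℕ), s.1.2 ≤ μ' ∧ P.code j (g :: s.1.1) < Z.s μ' ∧
      (∀ n ∈ u.support, s.1.2 ≤ n ∧ n < μ') ∧ Dec P (G (P.sig j s.1.1)) (P.sig j s.1.1) 2 u ∧
      Kle P (Z.comb u) 98 ∧ (∀ κ < 2 * P.sig j s.1.1, KS P κ (Z.comb u) 98) ∧
      (∀ κ, 2 * P.sig j s.1.1 < κ → ∀ f, InK P (some κ) f → |ev f (Z.comb u)| ≤
        16 * (P.M (2 * P.sig j s.1.1) / (P.L (2 * P.sig j s.1.1) : ℝ) ^ (1 / P.r)) +
          62 * P.M (2 * P.sig j s.1.1) / P.M κ) ∧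
      InK P (some (2 * P.sig j s.1.1)) g ∧
      (∀ i ∈ g.support, Z.s s.1.2 ≤ blk i ∧ blk i < Z.s μ') ∧
      ev g (Z.comb u) = 1 ∧
      (∀ κ, hi ≤ κ → ∀ f, InK P (some κ) f → |ev f (Z.comb u)| ≤ (1 / 2) ^ (t + 1)) ∧
      2 * P.sig j s.1.1 ≤ hi ∧ hi ≤ 2 * P.sig j (g :: s.1.1) := by
  obtain ⟨⟨p, μ⟩, hs⟩ := s
  simp only at hs ⊢
  obtain ⟨u0, m', hm', hsupp, hDec, hKle, hKS, hbig, Gs, hGs, hGs2⟩ :=
    exact_vec hG Z (P.sig j p) (G (P.sig j p)) (hS _ (W_le_sig P j p)) μ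
  obtain ⟨_, ⟨g, hgG, rfl⟩, hgt⟩ := (hGs.image enc_inj.injOn).exists_gt
    (max (2 * P.sig j p) (98 * Z.s m' * 2 ^ (t + 1)))
  obtain ⟨hgK, hgsupp, hg1, hg2⟩ := hGs2 g hgG
  have hcpos : 0 < (ev g (Z.comb u0))⁻¹ := inv_pos.2 (by linarith)
  have hc2 : (ev g (Z.comb u0))⁻¹ ≤ 2 := by
    rw [inv_le_comm₀ (by linarith) (by norm_num)]
    norm_num
    linarith
  set c : ℝ := (ev g (Z.comb u0))⁻¹ with hc
  have hev : ∀ f, ev f (Z.comb (c • u0)) = c * ev f (Z.comb u0) := by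
    intro f
    rw [comb_smul, ev_smul_right]
  have habs : ∀ f (B : ℝ), |ev f (Z.comb u0)| ≤ B → |ev f (Z.comb (c • u0))| ≤ 2 * B := by
    intro f B hB
    rw [hev, abs_mul, abs_of_pos hcpos]
    exact mul_le_mul hc2 hB (abs_nonneg _) (by norm_num)
  have hK98 : Kle P (Z.comb (c • u0)) 98 := by
    intro f hf
    have := habs f 49 (hKle f hf)
    linarith
  have hsupp' : ∀ n ∈ (c • u0).support, μ ≤ n ∧ n < m' := fun n hn =>
    hsupp n (Finsupp.support_smul hn)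
  have hsig : enc g ≤ P.sig j (g :: p) := by
    unfold Par.sig
    have h1 : enc g ≤ Nat.pair (enc g) (encL p) := Nat.left_le_pair _ _
    have h2 : encL (g :: p) = Nat.pair (enc g) (encL p) + 1 := rfl
    omega
  refine ⟨g, c • u0, max (2 * P.sig j p) (98 * Z.s m' * 2 ^ (t + 1)),
    max m' (P.code j (g :: p) + 1), ?_, ?_, ?_, ?_, hK98, ?_, ?_, hgK, ?_, ?_, ?_,
    le_max_left _ _, ?_⟩
  · exact hm'.trans (le_max_left _ _)
  · have h1 := Z.mono.le_apply (x := max m' (P.code j (g :: p) + 1))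
    have h2 := le_max_right m' (P.code j (g :: p) + 1)
    omega
  · intro n hn
    have h1 := hsupp' n hn
    exact ⟨h1.1, lt_of_lt_of_le h1.2 (le_max_left _ _)⟩
  · obtain ⟨x, c0, h1, h2, h3⟩ := hDec
    refine ⟨x, c * c0, ?_, h2, ?_⟩
    · rw [abs_mul, abs_of_pos hcpos]
      rw [one_mul] at h1
      exact mul_le_mul hc2 h1 (abs_nonneg _) (by norm_num)
    · rw [h3, smul_smul]
  · intro κ hκ n hn d f hf hb hd
    have h1 := hKS κ hκ n hn d f hf hb hd
    have h2 : ∑ l, d l * ev (f l) (Z.comb (c • u0)) = c * ∑ l, d l * ev (f l) (Z.comb u0) := by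
      rw [Finset.mul_sum]
      exact Finset.sum_congr rfl fun l _ => by rw [hev]; ring
    rw [h2, abs_mul, abs_of_pos hcpos]
    have := mul_le_mul hc2 h1 (abs_nonneg _) (by norm_num)
    linarith
  · intro κ hκ f hf
    have := habs f _ (hbig κ hκ f hf)
    refine this.trans (le_of_eq ?_)
    ring
  · intro i hi
    have h1 := hgsupp i hi
    exact ⟨h1.1, lt_of_lt_of_le h1.2 (Z.mono.monotone (le_max_left _ _))⟩
  · rw [hev, hc]
    exact inv_mul_cancel₀ (by linarith)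
  · intro κ hκ f hf
    have h1 := coord_ty_supp hG (Z.comb (c • u0)) (fun _ => 98)
      (fun i => Kle_abs hK98 i) (Z.s m') (fun i hi => (comb_supp Z _ μ m' hsupp' i hi).2) hf
    refine h1.trans ?_
    rw [Finset.sum_const, Finset.card_range, nsmul_eq_mul]
    have h2 : (98 * Z.s m' * 2 ^ (t + 1) : ℕ) ≤ P.M κ :=
      ((le_max_right _ _).trans hκ).trans (ch_le_M hG κ)
    have h3 : (98 : ℝ) * Z.s m' * 2 ^ (t + 1) ≤ P.M κ := by exact_mod_cast h2
    have h4 : (0 : ℝ) < P.M κ := by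
      have : 0 < P.M κ := by unfold Par.M; positivity
      exact_mod_cast this
    have h5 : (0 : ℝ) < 2 ^ (t + 1) := by positivity
    rw [div_le_iff₀ h4, one_div, inv_pow, ← div_eq_inv_mul, le_div_iff₀ h5]
    linarith
  · exact (hgt.le.trans hsig).trans (by omega)

theorem exists_branch {P : Par} (hG : Good P) (Z : BSeq) (j : ℕ) (G : ℕ → (ℕ →₀ ℝ) → Prop)
    (hS : ∀ w, P.W j ≤ w → Supply P Z (G w)) : Nonempty (Branch P Z G j) := by
  choose gf uf hif μf hstep using ch_step hG Z j G hS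
  have h0 : P.code j ([] : List Fn) < Z.s (P.code j [] + 1) := by
    have := Z.mono.le_apply (x := P.code j [] + 1)
    omega
  obtain ⟨st, hst0, hst1, hst2⟩ : ∃ st : ℕ → {pm : List Fn × ℕ // P.code j pm.1 < Z.s pm.2},
      (st 0).1.1 = [] ∧ (∀ t, (st (t + 1)).1.1 = gf t (st t) :: (st t).1.1) ∧
      (∀ t, (st (t + 1)).1.2 = μf t (st t)) :=
    ⟨fun n => Nat.rec (motive := fun _ => {pm : List Fn × ℕ // P.code j pm.1 < Z.s pm.2})
      ⟨([], P.code j [] + 1), h0⟩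
      (fun t s => ⟨(gf t s :: s.1.1, μf t s), (hstep t s).2.1⟩) n, rfl, fun _ => rfl,
      fun _ => rfl⟩
  have hlen : ∀ t, (st t).1.1.length = t := by
    intro t
    induction t with
    | zero => rw [hst0]; rfl
    | succ t ih => rw [hst1, List.length_cons, ih]
  have hsuf : ∀ t g' p', (g' :: p') <:+ (st t).1.1 → ∃ t', t' < t ∧ g' = gf t' (st t') ∧
      p' = (st t').1.1 := by
    intro t
    induction t with
    | zero =>
      intro g' p' h
      rw [hst0, List.suffix_nil] at h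
      exact absurd h (List.cons_ne_nil _ _)
    | succ t ih =>
      intro g' p' h
      rw [hst1, List.suffix_cons_iff] at h
      rcases h with h | h
      · rw [List.cons.injEq] at h
        exact ⟨t, Nat.lt_succ_self t, h.1, h.2⟩
      · obtain ⟨t', h1, h2⟩ := ih g' p' h
        exact ⟨t', h1.trans (Nat.lt_succ_self t), h2⟩
  refine ⟨{
    g := fun t => gf t (st t)
    p := fun t => (st t).1.1
    u := fun t => uf t (st t)
    S := fun t => Z.s (st t).1.2
    hi := fun t => hif t (st t)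
    δ := fun t => (1 / 2) ^ (t + 1)
    p0 := hst0
    ps := hst1
    ris := ?_
    δsum := ?_
    tree := ?_
    gsupp := ?_
    one := ?_
    big := ?_
    dec := ?_ }⟩
  · refine ⟨by norm_num, fun k => by positivity, ?_, ?_, ?_, ?_, ?_, ?_, ?_⟩
    · exact monotone_nat_of_le_succ fun t => Z.mono.monotone (by
        rw [hst2]
        exact (hstep t (st t)).1)
    · intro k _ i hi
      have h1 := comb_supp Z (uf k (st k)) (st k).1.2 (μf k (st k)) (hstep k (st k)).2.2.1 i hi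
      rw [← hst2] at h1
      exact h1
    · intro k _
      exact (hstep k (st k)).2.2.2.2.1
    · intro k _ κ hκ
      exact (hstep k (st k)).2.2.2.2.2.1 κ hκ
    · intro k _ κ hκ f hf
      exact (hstep k (st k)).2.2.2.2.2.2.2.2.2.2.1 κ hκ f hf
    · intro k _
      exact (hstep k (st k)).2.2.2.2.2.2.2.2.2.2.2.1
    · intro k _
      have h1 := (hstep k (st k)).2.2.2.2.2.2.2.2.2.2.2.2
      rw [← hst1] at h1
      exact h1
  · have h1 : ∀ n, ∑ t ∈ range n, ((1 : ℝ) / 2) ^ (t + 1) = 1 - (1 / 2) ^ n := by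
      intro n
      induction n with
      | zero => simp
      | succ n ih =>
        rw [Finset.sum_range_succ, ih, pow_succ]
        ring
    rw [h1]
    have : (0 : ℝ) ≤ (1 / 2) ^ P.ell j := by positivity
    linarith
  · intro t ht
    refine ⟨⟨?_, ?_, ?_⟩, ?_⟩
    · rw [hst1]
      exact List.cons_ne_nil _ _
    · have h1 : ((st (t + 1)).1.1).length ≤ P.ell j := by
        rw [hlen]
        exact ht
      exact h1
    · intro g' p' h i hi
      have h' : (g' :: p') <:+ (st (t + 1)).1.1 := h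
      obtain ⟨t', _, rfl, rfl⟩ := hsuf (t + 1) g' p' h'
      have h1 := (hstep t' (st t')).2.2.2.2.2.2.2.2.1 i hi
      exact lt_of_lt_of_le (st t').2 h1.1
    · intro g' p' h
      have h' : (g' :: p') <:+ (st (t + 1)).1.1 := h
      obtain ⟨t', _, rfl, rfl⟩ := hsuf (t + 1) g' p' h'
      exact (hstep t' (st t')).2.2.2.2.2.2.2.1
  · intro t _ i hi
    have h1 := (hstep t (st t)).2.2.2.2.2.2.2.2.1 i hi
    rw [← hst2] at h1
    exact h1
  · intro t _
    exact (hstep t (st t)).2.2.2.2.2.2.2.2.2.1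
  · intro t _ κ hκ f hf
    exact (hstep t (st t)).2.2.2.2.2.2.1 κ hκ f hf
  · intro t _
    exact (hstep t (st t)).2.2.2.1

end Pool.Agent.HI61
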