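import Pool.Agent.HI61.FrameP
import Pool.Agent.HI61.SingleB

/-!
# HI61/Chi : the distance of `σ_k w` to `N_k` is controlled by the norm of `w`

PROOF.  Let `B = pW w`, `x_l = (w.2 l).1`, so `p l x_l ≤ B` (`N2`, `p_le_of_Kle`), and `η > 0` arbitrary.
By `p_dual` let `f : X → ℝ`, `‖f‖ ≤ 1`, `f = 0` on `N k`, `f (σ) = p k σ`, `σ = σ_k w`.  Let `v : V → ℝ` with
`‖v‖ ≤ 1` and `v ∘ ι = f` (Hahn-Banach, `Real.exists_extension_norm_eq` on the range of `ι`).
(0) `|f u| ≤ kap k * ‖R k (ι u)‖` for all `u` (`ker`: `f` vanishes on the kernel of `R k ∘ ι`, `mem_N_of_ker`).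
Write `x_l = y + z + x'` by `p_rep` (`y ∈ Xk l`, `R l (ι z) = 0`, `‖x'‖ ≤ B + η`); then
`R l (ι x_l) = ι y + R l (ι x')`; let `y' ∈ Xk (l+1)`, `‖R l (ι x') - ι y'‖ ≤ ep l (B + η)` (`near`).
(1) `l > k`: `f z = 0` since `R k (ι z) = R k (R l (ι z)) = 0` (`R_lt`), so `v (R l (ι x_l)) - f x_l
= v (R l (ι x')) - f x' = v (R l (ι x') - ι y') + f (y' - x')`, and by (0)
`|f (y' - x')| ≤ kap k ‖R k (ι y') - R k (ι x')‖ = kap k ‖R k (ι y' - R l (ι x'))‖ ≤ kap k ep l (B + η)`.  So the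
difference is at most `ep l (1 + kap k) (B + η) ≤ (1/2)^(l+2) (B + η)` (`ep_kap`).
(2) `l = k`: `v (ι y) = f y = 0`, `|v (R k (ι x'))| ≤ ‖x'‖ ≤ B + η`.
(3) `l < k`: `y, y' ∈ Xk k` (`Xk_mono`), so `f y = f y' = 0` and `|v (R l (ι x_l))| ≤ ep l (B + η)
≤ (1/2)^(l+2) (B + η)`.
Sum: `|v (pos w) - f (σ)| ≤ (1 + 1/2) (B + η)`  (`f σ = f w.1 + ∑_{l>k} f x_l`).
(4) `|f (b l)|`: `l < k`: `b l ∈ Xk (l+1) ≤ Xk k`, so `0`; `l ≥ k`: by (0) `≤ kap k ‖R k (ι (b l))‖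
≤ kap k ‖R l (ι (b l))‖ ≤ (1/2)^l` (`R_lt` and `R_le` if `k < l`; `b_small`).  Hence `∑_{l ∈ D} |f (b l)| ≤ 2 < 4 ≤ th`
for all finite `D`, and all `Fj P j (vs v) (hat w)` vanish (`Fj_zero_of_light`): `Th 0 v w = v (pos w)`.
(5) `|v (pos w)| = |Th 0 v w| ≤ B` (`N1`).  So `p k σ = f σ ≤ B + (3/2) (B + η)`; let `η → 0`.
-/

namespace Pool.Agent.HI61

open Finset
open scoped Classical

variable {X V : Type} [NormedAddCommGroup X] [NormedSpace ℝ X]
  [NormedAddCommGroup V] [NormedSpace ℝ V]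

private theorem ext_dual (F : Frame X V) (f : X →L[ℝ] ℝ) (hf : ‖f‖ ≤ 1) :
    ∃ v : V →L[ℝ] ℝ, ‖v‖ ≤ 1 ∧ ∀ x, v (F.ι x) = f x := by
  let e := F.ι.equivRange
  let g : StrongDual ℝ (LinearMap.range F.ι.toLinearMap) :=
    f.comp (e.symm.toContinuousLinearEquiv : _ →L[ℝ] X)
  have hg : ‖g‖ ≤ 1 := by
    refine ContinuousLinearMap.opNorm_le_bound _ zero_le_one fun y => ?_
    have h1 : g y = f (e.symm y) := rfl
    rw [h1]
    calc ‖f (e.symm y)‖ ≤ ‖f‖ * ‖e.symm y‖ := f.le_opNorm _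
      _ ≤ 1 * ‖y‖ := by
        rw [LinearIsometryEquiv.norm_map]
        exact mul_le_mul_of_nonneg_right hf (norm_nonneg _)
  obtain ⟨v, hv1, hv2⟩ := exists_extension_norm_eq (LinearMap.range F.ι.toLinearMap) g
  refine ⟨v, hv2.trans_le hg, fun x => ?_⟩
  have h2 := hv1 (e x)
  have h3 : ((e x : LinearMap.range F.ι.toLinearMap) : V) = F.ι x := rfl
  rw [h3] at h2
  rw [h2]
  show f (e.symm (e x)) = f x
  rw [LinearIsometryEquiv.symm_apply_apply]

private theorem f_le (F : Frame X V) (k : ℕ) (f : X →L[ℝ] ℝ) (hf : ‖f‖ ≤ 1)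
    (h0 : ∀ y ∈ F.N k, f y = 0) (u : X) : |f u| ≤ F.kap k * ‖F.R k (F.ι u)‖ := by
  obtain ⟨y, hy1, hy2⟩ := F.ker k u
  have h1 : f u = f (u - y) := by
    rw [map_sub, h0 y (mem_N_of_ker F k y hy1), sub_zero]
  rw [h1, ← Real.norm_eq_abs]
  calc ‖f (u - y)‖ ≤ ‖f‖ * ‖u - y‖ := f.le_opNorm _
    _ ≤ 1 * ‖u - y‖ := mul_le_mul_of_nonneg_right hf (norm_nonneg _)
    _ ≤ _ := by rw [one_mul]; exact hy2

private theorem geo (D : Finset ℕ) : ∑ l ∈ D, ((1 : ℝ) / 2) ^ l ≤ 2 := by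
  have h1 : D ⊆ range (D.sup id + 1) := fun l hl =>
    Finset.mem_range.2 (Nat.lt_succ_of_le (Finset.le_sup (f := id) hl))
  exact (Finset.sum_le_sum_of_subset_of_nonneg h1 (fun _ _ _ => by positivity)).trans
    (sum_geometric_two_le _)

private theorem v_le (v : V →L[ℝ] ℝ) (hv : ‖v‖ ≤ 1) (u : V) : |v u| ≤ ‖u‖ := by
  rw [← Real.norm_eq_abs]
  exact (v.le_opNorm u).trans (mul_le_of_le_one_left (norm_nonneg _) hv)

private theorem term (F : Frame X V) (k : ℕ) (f : X →L[ℝ] ℝ) (hf : ‖f‖ ≤ 1)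
    (h0 : ∀ y ∈ F.N k, f y = 0) (v : V →L[ℝ] ℝ) (hv : ‖v‖ ≤ 1) (hvf : ∀ x, v (F.ι x) = f x)
    (l : ℕ) (x : X) (B η : ℝ) (hη : 0 < η) (hB : F.p l x ≤ B) :
    |v (F.R l (F.ι x)) - (if k < l then f x else 0)| ≤
      ((if l = k then 1 else 0) + 1 / 4 * (1 / 2) ^ l) * (B + η) := by
  obtain ⟨y, hy, z, hz, hx'⟩ := p_rep F l x η hη
  obtain ⟨x', hx'def⟩ : ∃ x' : X, x' = x - y - z := ⟨_, rfl⟩
  rw [← hx'def] at hx'
  have hx'B : ‖x'‖ ≤ B + η := hx'.trans (by linarith)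
  have hBη : 0 ≤ B + η := (norm_nonneg _).trans hx'B
  have hx : x = y + z + x' := by rw [hx'def]; abel
  have hRx : F.R l (F.ι x) = F.ι y + F.R l (F.ι x') := by
    rw [hx, map_add, map_add, map_add, map_add, hz, F.Xk_fix l y hy l le_rfl, add_zero]
  have hpow : (0 : ℝ) ≤ 1 / 4 * (1 / 2) ^ l := by positivity
  have hpe : ((1 : ℝ) / 2) ^ (l + 2) = 1 / 4 * (1 / 2) ^ l := by rw [pow_add]; ring
  rcases lt_trichotomy l k with hlk | hlk | hlk
  · -- l < k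
    rw [if_neg (not_lt.2 hlk.le), if_neg hlk.ne, sub_zero, zero_add]
    obtain ⟨y', hy', hyn⟩ := F.near l x'
    have h1 : f y = 0 := h0 y (mem_N_of_Xk F k y (F.Xk_mono hlk.le hy))
    have h2 : f y' = 0 := h0 y' (mem_N_of_Xk F k y' (F.Xk_mono hlk hy'))
    have h3 : v (F.R l (F.ι x)) = v (F.R l (F.ι x') - F.ι y') := by
      rw [hRx, map_add, map_sub, hvf, hvf, h1, h2]; ring
    rw [h3]
    calc |v (F.R l (F.ι x') - F.ι y')| ≤ ‖F.R l (F.ι x') - F.ι y'‖ := v_le v hv _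
      _ ≤ F.ep l * ‖x'‖ := hyn
      _ ≤ F.ep l * (B + η) := mul_le_mul_of_nonneg_left hx'B (F.ep_pos l).le
      _ ≤ 1 / 4 * (1 / 2) ^ l * (B + η) := by
        refine mul_le_mul_of_nonneg_right ?_ hBη
        rw [← hpe]
        exact F.ep_le l
  · -- l = k
    subst hlk
    rw [if_neg (lt_irrefl _), if_pos rfl, sub_zero]
    have h1 : f y = 0 := h0 y (mem_N_of_Xk F l y hy)
    have h3 : v (F.R l (F.ι x)) = v (F.R l (F.ι x')) := by
      rw [hRx, map_add, hvf, h1, zero_add]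
    rw [h3]
    calc |v (F.R l (F.ι x'))| ≤ ‖F.R l (F.ι x')‖ := v_le v hv _
      _ ≤ ‖F.ι x'‖ := F.R_le l _
      _ = ‖x'‖ := F.ι.norm_map _
      _ ≤ B + η := hx'B
      _ ≤ _ := by nlinarith
  · -- k < l
    rw [if_pos hlk, if_neg hlk.ne', zero_add]
    obtain ⟨y', hy', hyn⟩ := F.near l x'
    have hfz : f z = 0 := by
      refine h0 z (mem_N_of_ker F k z ?_)
      rw [← F.R_lt k l hlk, hz, map_zero]
    have h3 : v (F.R l (F.ι x)) - f x = v (F.R l (F.ι x') - F.ι y') + f (y' - x') := by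
      have h4 : f x = f y + f x' := by
        conv_lhs => rw [hx]
        rw [map_add, map_add, hfz, add_zero]
      rw [hRx, map_add, map_sub, map_sub, hvf, hvf, h4]
      ring
    have h5 : ‖F.R l (F.ι x') - F.ι y'‖ ≤ F.ep l * (B + η) :=
      hyn.trans (mul_le_mul_of_nonneg_left hx'B (F.ep_pos l).le)
    have h6 : |f (y' - x')| ≤ F.kap k * (F.ep l * (B + η)) := by
      refine (f_le F k f hf h0 _).trans ?_
      refine mul_le_mul_of_nonneg_left ?_ (zero_le_one.trans (F.kap_ge k))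
      have h7 : F.R k (F.ι (y' - x')) = F.R k (F.ι y' - F.R l (F.ι x')) := by
        rw [map_sub F.ι, map_sub (F.R k), map_sub (F.R k), F.R_lt k l hlk]
      rw [h7]
      refine (F.R_le k _).trans ?_
      rw [norm_sub_rev]
      exact h5
    rw [h3]
    calc |v (F.R l (F.ι x') - F.ι y') + f (y' - x')|
        ≤ |v (F.R l (F.ι x') - F.ι y')| + |f (y' - x')| := abs_add_le _ _
      _ ≤ F.ep l * (B + η) + F.kap k * (F.ep l * (B + η)) :=
        add_le_add ((v_le v hv _).trans h5) h6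
      _ = F.ep l * (1 + F.kap k) * (B + η) := by ring
      _ ≤ 1 / 4 * (1 / 2) ^ l * (B + η) := by
        refine mul_le_mul_of_nonneg_right ?_ hBη
        rw [← hpe]
        exact F.ep_kap k l hlk

private theorem fb_le (F : Frame X V) (k : ℕ) (f : X →L[ℝ] ℝ) (hf : ‖f‖ ≤ 1)
    (h0 : ∀ y ∈ F.N k, f y = 0) (l : ℕ) : |f (F.b l)| ≤ (1 / 2) ^ l := by
  rcases lt_or_ge l k with hlk | hlk
  · have h1 : f (F.b l) = 0 := h0 _ (mem_N_of_Xk F k _ (F.Xk_mono hlk (F.b_mem l)))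
    rw [h1, abs_zero]
    positivity
  · refine (f_le F k f hf h0 _).trans (le_trans ?_ (F.b_small l k hlk))
    refine mul_le_mul_of_nonneg_left ?_ (zero_le_one.trans (F.kap_ge k))
    rcases hlk.eq_or_lt with h | h
    · rw [h]
    · rw [← F.R_lt k l h]
      exact F.R_le k _

theorem chi (H : Host X V) (pW : Seminorm ℝ (W0 X)) (hN : H.IsNorm pW) (k : ℕ) (w : W0 X) :
    H.F.p k (Host.sig' k w) ≤ 3 * pW w := by
  obtain ⟨f, hf, h0, hfσ⟩ := p_dual H.F k (Host.sig' k w)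
  obtain ⟨v, hv, hvf⟩ := ext_dual H.F f hf
  have hK : Kle H.P (H.hat w) (pW w) := hN.N2 w
  have hp := p_le_of_Kle H w _ hK
  have hB : 0 ≤ pW w := apply_nonneg _ _
  -- the functionals `Fj` vanish
  have hTh : H.Th 0 v w = v (H.pos w) := by
    rw [Th_eq_sum H w v (w.2.support.sup id) (fun l hl => Finset.le_sup (f := id) hl)]
    rw [Finset.sum_eq_zero, add_zero]
    intro j _
    refine Fj_zero_of_light H.good j _ (fun D => ?_) _
    have h1 : ∑ l ∈ D, |H.vs v l| ≤ 2 := by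
      refine le_trans (Finset.sum_le_sum fun l _ => ?_) (geo D)
      show |v (H.F.ι (H.F.b l))| ≤ _
      rw [hvf]
      exact fb_le H.F k f hf h0 l
    have h2 := H.good.th_ge j
    linarith
  have hpos : |v (H.pos w)| ≤ pW w := by
    rw [← hTh]
    exact hN.N1 w v hv
  have hdiff : ∀ η : ℝ, 0 < η →
      |v (H.pos w) - f (Host.sig' k w)| ≤ 3 / 2 * (pW w + η) := by
    intro η hη
    have e1 : v (H.pos w) - f (Host.sig' k w) = ∑ l ∈ w.2.support,
        (v (H.F.R l (H.F.ι (w.2 l).1)) - (if k < l then f (w.2 l).1 else 0)) := by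
      have e2 : Host.sig' k w = w.1 + ∑ l ∈ w.2.support, if k < l then (w.2 l).1 else 0 := rfl
      rw [pos_apply, Finsupp.sum, e2, map_add, map_add, map_sum, map_sum, hvf,
        Finset.sum_sub_distrib]
      have e3 : ∀ l, f (if k < l then (w.2 l).1 else 0) = if k < l then f (w.2 l).1 else 0 := by
        intro l
        split_ifs
        · rfl
        · exact map_zero f
      simp only [e3]
      ring
    rw [e1]
    refine (Finset.abs_sum_le_sum_abs _ _).trans ?_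
    refine (Finset.sum_le_sum fun l _ =>
      term H.F k f hf h0 v hv hvf l (w.2 l).1 (pW w) η hη (hp l)).trans ?_
    rw [← Finset.sum_mul]
    refine mul_le_mul_of_nonneg_right ?_ (by linarith)
    rw [Finset.sum_add_distrib, ← Finset.mul_sum]
    have g1 := geo w.2.support
    have g2 : ∑ l ∈ w.2.support, (if l = k then (1 : ℝ) else 0) ≤ 1 := by
      rw [Finset.sum_ite_eq']
      split_ifs
      · exact le_rfl
      · exact zero_le_one
    linarith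
  rw [← hfσ]
  refine le_of_forall_pos_le_add fun δ hδ => ?_
  have h1 := abs_le.1 (hdiff (δ / 3) (by positivity))
  have h2 := abs_le.1 hpos
  linarith [h1.1, h1.2, h2.1, h2.2]

end Pool.Agent.HI61
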