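import Mathlib

/-!
# HI61/CloseSub : a subspace which is nowhere far from `X'` is close to a subspace of `X'`

PROOF.  We may assume `δ ≤ 1`, `C ≥ 1`.  Let `η_n = δ (1/2)^(n+4) / C^2`... (any summable sequence with
`4 C ∑ η_n ≤ δ / 4` and `η_n ≤ 1/8`).  Choose recursively `k_0 = 0`, `u_n ∈ U` with `‖u_n‖ = 1`,
`Q k_n u_n = 0` and `x_n ∈ X'` with `‖u_n - x_n‖ ≤ η_n`: the subspace `U' = U ⊓ ker (Q k_n)` is closed and
infinite dimensional (`Q k_n` has finite rank), apply `hU` with a small constant and normalize.  Then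
`k_{n+1} > k_n` with `‖u_n - Q k_{n+1} u_n‖ ≤ η_n` (`hlim`).
(1) For a finite combination `u = ∑ a_m u_m` and every `n`:
`Q k_{n+1} u - Q k_n u = a_n u_n + error`, where the error is at most `∑_m |a_m| · 2·(1 + C) η_m`-small:
for `m > n`, `Q k_{n+1} u_m = Q k_{n+1} Q k_m u_m = 0` (`k_{n+1} ≤ k_m`) and likewise `Q k_n u_m = 0`; for `m < n`,
`Q k_{n+1} u_m - Q k_n u_m` is small: `‖Q k u_m - u_m‖ ≤ (1 + C) η_m`-type bounds for `k ≥ k_{m+1}`
(`u_m = Q k_{m+1} u_m + (u_m - Q k_{m+1} u_m)`); `m = n`: `Q k_{n+1} u_n = u_n + small`, `Q k_n u_n = 0`.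
With `A = max |a_m|` this gives `A ≤ 2 C ‖u‖ + A/2` when `∑ (2 + 2C) η_m ≤ 1/2`, so `|a_m| ≤ 4 C ‖u‖` for all `m`.
(2) `Y = closure (span {x_n})  ≤ X'`.  For `y = ∑ a_n x_n` and `u = ∑ a_n u_n`:
`‖y - u‖ ≤ ∑ |a_n| η_n ≤ 4 C (∑ η_n) ‖u‖ ≤ (δ/4) ‖u‖`, so `‖u‖ ≤ 2 ‖y‖` and `‖y - u‖ ≤ (δ/2) ‖y‖`.
For `y` in the closure, `y ≠ 0`, choose a finite combination `y'` with `‖y - y'‖ ≤ (δ/8) ‖y‖`.
(3) `Y` is infinite dimensional: the `x_n` are linearly independent, because `y = 0` implies `u = 0` and then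
`a = 0` by (1).
-/

namespace Pool.Agent.HI61

open Filter Topology

private theorem inf_ker_infinite {W : Type*} [NormedAddCommGroup W] [NormedSpace ℝ W]
    (q : W →L[ℝ] W) (hfin : FiniteDimensional ℝ (LinearMap.range (q : W →ₗ[ℝ] W)))
    (U : Submodule ℝ W) (hUinf : ¬ FiniteDimensional ℝ U) :
    ¬ FiniteDimensional ℝ (U ⊓ LinearMap.ker (q : W →ₗ[ℝ] W) : Submodule ℝ W) := by
  intro h
  apply hUinf
  rw [← Submodule.fg_iff_finiteDimensional] at h ⊢
  refine Submodule.fg_of_fg_map_of_fg_inf_ker (q : W →ₗ[ℝ] W) ?_ h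
  rw [Submodule.fg_iff_finiteDimensional]
  exact Submodule.finiteDimensional_of_le (LinearMap.map_le_range)

private theorem step {W : Type*} [NormedAddCommGroup W] [NormedSpace ℝ W]
    (Q : ℕ → W →L[ℝ] W)
    (hlim : ∀ x, Tendsto (fun k => Q k x) atTop (𝓝 x))
    (hfin : ∀ k, FiniteDimensional ℝ (LinearMap.range (Q k : W →ₗ[ℝ] W)))
    (X' U : Submodule ℝ W) (hUc : IsClosed (U : Set W))
    (hUinf : ¬ FiniteDimensional ℝ U)
    (hU : ∀ U' ≤ U, IsClosed (U' : Set W) → ¬ FiniteDimensional ℝ U' → ∀ c : ℝ, 0 < c →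
      ∃ u ∈ U', ∃ x ∈ X', ‖u - x‖ < c * ‖u‖) (k : ℕ) (c : ℝ) (hc : 0 < c) :
    ∃ u x : W, ∃ k' : ℕ, u ∈ U ∧ x ∈ X' ∧ ‖u‖ = 1 ∧ Q k u = 0 ∧ ‖u - x‖ ≤ c ∧ k ≤ k' ∧
      ∀ l, k' ≤ l → ‖Q l u - u‖ ≤ c := by
  have hcl : IsClosed ((U ⊓ LinearMap.ker (Q k : W →ₗ[ℝ] W) : Submodule ℝ W) : Set W) := by
    rw [Submodule.coe_inf]
    exact hUc.inter (Q k).isClosed_ker
  obtain ⟨u0, hu0, x0, hx0, h0⟩ := hU _ inf_le_left hcl
    (inf_ker_infinite (Q k) (hfin k) U hUinf) c hc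
  have hu0n : 0 < ‖u0‖ := by
    by_contra hneg
    have : ‖u0‖ = 0 := le_antisymm (not_lt.1 hneg) (norm_nonneg _)
    rw [this, mul_zero] at h0
    exact absurd h0 (not_lt.2 (norm_nonneg _))
  have hu0' : u0 ∈ U ∧ u0 ∈ LinearMap.ker (Q k : W →ₗ[ℝ] W) := hu0
  have hev : ∀ᶠ l in atTop, ‖Q l (‖u0‖⁻¹ • u0) - ‖u0‖⁻¹ • u0‖ < c := by
    have h1 := (tendsto_iff_norm_sub_tendsto_zero.1 (hlim (‖u0‖⁻¹ • u0)))
    exact h1.eventually (gt_mem_nhds hc)
  obtain ⟨k1, hk1⟩ := eventually_atTop.1 hev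
  refine ⟨‖u0‖⁻¹ • u0, ‖u0‖⁻¹ • x0, max k k1, U.smul_mem _ hu0'.1, X'.smul_mem _ hx0, ?_, ?_, ?_,
    le_max_left _ _, ?_⟩
  · rw [norm_smul, norm_inv, norm_norm, inv_mul_cancel₀ hu0n.ne']
  · rw [map_smul]
    have : Q k u0 = 0 := hu0'.2
    rw [this, smul_zero]
  · rw [← smul_sub, norm_smul, norm_inv, norm_norm, inv_mul_le_iff₀ hu0n]
    linarith [h0]
  · intro l hl
    exact (hk1 l (le_trans (le_max_right _ _) hl)).le

theorem close_subspace {W : Type*} [NormedAddCommGroup W] [NormedSpace ℝ W] [CompleteSpace W]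
    (Q : ℕ → W →L[ℝ] W) (C : ℝ) (hQ : ∀ k x, ‖Q k x‖ ≤ C * ‖x‖)
    (hcomp : ∀ k l x, Q k (Q l x) = Q (min k l) x)
    (hlim : ∀ x, Tendsto (fun k => Q k x) atTop (𝓝 x))
    (hfin : ∀ k, FiniteDimensional ℝ (LinearMap.range (Q k : W →ₗ[ℝ] W)))
    (X' U : Submodule ℝ W) (hX' : IsClosed (X' : Set W)) (hUc : IsClosed (U : Set W))
    (hUinf : ¬ FiniteDimensional ℝ U)
    (hU : ∀ U' ≤ U, IsClosed (U' : Set W) → ¬ FiniteDimensional ℝ U' → ∀ c : ℝ, 0 < c →
      ∃ u ∈ U', ∃ x ∈ X', ‖u - x‖ < c * ‖u‖)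
    (δ : ℝ) (hδ : 0 < δ) :
    ∃ Y ≤ X', IsClosed (Y : Set W) ∧ ¬ FiniteDimensional ℝ Y ∧
      ∀ y ∈ Y, ∃ u ∈ U, ‖y - u‖ ≤ δ * ‖y‖ := by
  classical
  set C1 : ℝ := max C 1 with hC1
  have hC1' : 1 ≤ C1 := le_max_right _ _
  have hQ1 : ∀ k x, ‖Q k x‖ ≤ C1 * ‖x‖ := fun k x =>
    (hQ k x).trans (mul_le_mul_of_nonneg_right (le_max_left _ _) (norm_nonneg _))
  set d : ℝ := min δ 1 with hd
  have hd0 : 0 < d := lt_min hδ one_pos
  have hd1 : d ≤ 1 := min_le_right _ _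
  have hC10 : 0 < C1 := lt_of_lt_of_le one_pos hC1'
  set η : ℕ → ℝ := fun n => d / (32 * C1) * (1 / 2) ^ n with hη
  have hηpos : ∀ n, 0 < η n := by
    intro n
    have : 0 < d / (32 * C1) := by positivity
    positivity
  have hsum : ∀ s : Finset ℕ, ∑ n ∈ s, η n ≤ d / (16 * C1) := by
    intro s
    rw [hη, ← Finset.mul_sum]
    have h1 : ∑ n ∈ s, ((1 : ℝ) / 2) ^ n ≤ 2 := by
      calc ∑ n ∈ s, ((1 : ℝ) / 2) ^ n ≤ ∑' n : ℕ, ((1 : ℝ) / 2) ^ n :=
            summable_geometric_two.sum_le_tsum s (fun i _ => by positivity)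
        _ = 2 := tsum_geometric_two
    have h2 : 0 < d / (32 * C1) := by positivity
    calc d / (32 * C1) * ∑ n ∈ s, ((1 : ℝ) / 2) ^ n ≤ d / (32 * C1) * 2 :=
          mul_le_mul_of_nonneg_left h1 h2.le
      _ = d / (16 * C1) := by field_simp; ring
  have hsum4 : ∀ s : Finset ℕ, ∑ n ∈ s, η n ≤ 1 / 4 := by
    intro s
    refine (hsum s).trans ?_
    rw [div_le_div_iff₀ (by positivity) (by norm_num)]
    nlinarith
  -- the construction
  choose fu fx fk hfU hfX hf1 hf0 hfx hfk hfl using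
    fun (n k : ℕ) => step Q hlim hfin X' U hUc hUinf hU k (η n) (hηpos n)
  let K : ℕ → ℕ := fun n => Nat.rec 0 (fun n k => fk n k) n
  have hK1 : ∀ n, K (n + 1) = fk n (K n) := fun n => rfl
  let u : ℕ → W := fun n => fu n (K n)
  let x : ℕ → W := fun n => fx n (K n)
  have huU : ∀ n, u n ∈ U := fun n => hfU n _
  have hxX : ∀ n, x n ∈ X' := fun n => hfX n _
  have hu1 : ∀ n, ‖u n‖ = 1 := fun n => hf1 n _
  have hQ0 : ∀ n, Q (K n) (u n) = 0 := fun n => hf0 n _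
  have hux : ∀ n, ‖u n - x n‖ ≤ η n := fun n => hfx n _
  have hKm : Monotone K := monotone_nat_of_le_succ fun n => by
    rw [hK1]; exact hfk n _
  have hQl : ∀ n l, K (n + 1) ≤ l → ‖Q l (u n) - u n‖ ≤ η n := fun n l hl => hfl n _ l hl
  -- (1) coefficients
  have hcoef : ∀ (s : Finset ℕ) (a : ℕ → ℝ), ∀ n ∈ s,
      |a n| ≤ 4 * C1 * ‖∑ m ∈ s, a m • u m‖ := by
    intro s a n0 hn0
    obtain ⟨n, hn, hmax⟩ := s.exists_max_image (fun m => |a m|) ⟨n0, hn0⟩
    refine (hmax n0 hn0).trans ?_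
    set w := ∑ m ∈ s, a m • u m with hw
    have hD : ∀ m ∈ s, m ≠ n → ‖Q (K (n + 1)) (u m) - Q (K n) (u m)‖ ≤ 2 * η m := by
      intro m _ hmn
      rcases lt_or_gt_of_ne hmn with h | h
      · have h1 := hQl m (K (n + 1)) (hKm (by omega : m + 1 ≤ n + 1))
        have h2 := hQl m (K n) (hKm (by omega : m + 1 ≤ n))
        calc ‖Q (K (n + 1)) (u m) - Q (K n) (u m)‖
            = ‖(Q (K (n + 1)) (u m) - u m) - (Q (K n) (u m) - u m)‖ := by congr 1; abel
          _ ≤ ‖Q (K (n + 1)) (u m) - u m‖ + ‖Q (K n) (u m) - u m‖ := norm_sub_le _ _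
          _ ≤ 2 * η m := by linarith
      · have h1 : Q (K (n + 1)) (u m) = 0 := by
          have := hcomp (K (n + 1)) (K m) (u m)
          rw [hQ0, map_zero, min_eq_left (hKm (by omega : n + 1 ≤ m))] at this
          exact this.symm
        have h2 : Q (K n) (u m) = 0 := by
          have := hcomp (K n) (K m) (u m)
          rw [hQ0, map_zero, min_eq_left (hKm (by omega : n ≤ m))] at this
          exact this.symm
        rw [h1, h2, sub_zero, norm_zero]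
        exact (mul_pos two_pos (hηpos m)).le
    have hexp : a n • u n = (Q (K (n + 1)) w - Q (K n) w) -
        (∑ m ∈ s.erase n, a m • (Q (K (n + 1)) (u m) - Q (K n) (u m)) +
          a n • (Q (K (n + 1)) (u n) - u n)) := by
      have h1 : Q (K (n + 1)) w - Q (K n) w =
          ∑ m ∈ s, a m • (Q (K (n + 1)) (u m) - Q (K n) (u m)) := by
        rw [hw, map_sum, map_sum, ← Finset.sum_sub_distrib]
        refine Finset.sum_congr rfl fun m _ => ?_
        rw [map_smul, map_smul, smul_sub]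
      rw [h1, ← Finset.add_sum_erase s _ hn, hQ0 n]
      rw [sub_zero, smul_sub]
      abel
    have hn1 : |a n| = ‖a n • u n‖ := by rw [norm_smul, hu1, mul_one, Real.norm_eq_abs]
    have hb1 : ‖Q (K (n + 1)) w - Q (K n) w‖ ≤ 2 * C1 * ‖w‖ := by
      have h1 := hQ1 (K (n + 1)) w
      have h2 := hQ1 (K n) w
      have h3 := norm_sub_le (Q (K (n + 1)) w) (Q (K n) w)
      linarith
    have hb2 : ‖∑ m ∈ s.erase n, a m • (Q (K (n + 1)) (u m) - Q (K n) (u m)) +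
          a n • (Q (K (n + 1)) (u n) - u n)‖ ≤ |a n| * (2 * ∑ m ∈ s, η m) := by
      calc _ ≤ ‖∑ m ∈ s.erase n, a m • (Q (K (n + 1)) (u m) - Q (K n) (u m))‖ +
          ‖a n • (Q (K (n + 1)) (u n) - u n)‖ := norm_add_le _ _
        _ ≤ ∑ m ∈ s.erase n, |a n| * (2 * η m) + |a n| * (2 * η n) := by
          refine add_le_add ?_ ?_
          · refine (norm_sum_le _ _).trans (Finset.sum_le_sum fun m hm => ?_)
            rw [norm_smul, Real.norm_eq_abs]
            have hms := Finset.mem_of_mem_erase hm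
            exact mul_le_mul (hmax m hms) (hD m hms (Finset.ne_of_mem_erase hm)) (norm_nonneg _)
              (abs_nonneg _)
          · rw [norm_smul, Real.norm_eq_abs]
            refine mul_le_mul_of_nonneg_left ?_ (abs_nonneg _)
            have := hQl n (K (n + 1)) le_rfl
            have := hηpos n
            linarith
        _ = |a n| * (2 * ∑ m ∈ s, η m) := by
          rw [← Finset.mul_sum, ← Finset.mul_sum, ← mul_add, ← mul_add, add_comm,
            Finset.add_sum_erase s _ hn]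
    have hb3 : |a n| ≤ 2 * C1 * ‖w‖ + |a n| * (2 * ∑ m ∈ s, η m) := by
      rw [hn1, hexp]
      refine (norm_sub_le _ _).trans (add_le_add hb1 ?_)
      rw [← hexp, ← hn1]
      exact hb2
    have hb4 : |a n| * (2 * ∑ m ∈ s, η m) ≤ |a n| * (1 / 2) := by
      refine mul_le_mul_of_nonneg_left ?_ (abs_nonneg _)
      have := hsum4 s
      linarith
    show |a n| ≤ 4 * C1 * ‖w‖
    linarith
  -- (2) comparison of y and u
  have hcmp : ∀ (s : Finset ℕ) (a : ℕ → ℝ),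
      ‖∑ m ∈ s, a m • x m - ∑ m ∈ s, a m • u m‖ ≤ d / 4 * ‖∑ m ∈ s, a m • u m‖ := by
    intro s a
    rw [← Finset.sum_sub_distrib]
    calc ‖∑ m ∈ s, (a m • x m - a m • u m)‖ ≤ ∑ m ∈ s, ‖a m • x m - a m • u m‖ := norm_sum_le _ _
      _ ≤ ∑ m ∈ s, (4 * C1 * ‖∑ m ∈ s, a m • u m‖) * η m := by
        refine Finset.sum_le_sum fun m hm => ?_
        rw [← smul_sub, norm_smul, Real.norm_eq_abs, norm_sub_rev]
        exact mul_le_mul (hcoef s a m hm) (hux m) (norm_nonneg _) (by positivity)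
      _ = (4 * C1 * ‖∑ m ∈ s, a m • u m‖) * ∑ m ∈ s, η m := by rw [Finset.mul_sum]
      _ ≤ (4 * C1 * ‖∑ m ∈ s, a m • u m‖) * (d / (16 * C1)) :=
        mul_le_mul_of_nonneg_left (hsum s) (by positivity)
      _ = d / 4 * ‖∑ m ∈ s, a m • u m‖ := by field_simp; ring
  have hun : ∀ (s : Finset ℕ) (a : ℕ → ℝ),
      ‖∑ m ∈ s, a m • u m‖ ≤ 2 * ‖∑ m ∈ s, a m • x m‖ := by
    intro s a
    have h1 := hcmp s a
    have h2 : ‖∑ m ∈ s, a m • u m‖ ≤ ‖∑ m ∈ s, a m • x m‖ +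
        ‖∑ m ∈ s, a m • x m - ∑ m ∈ s, a m • u m‖ := by
      have := norm_sub_norm_le (∑ m ∈ s, a m • u m) (∑ m ∈ s, a m • x m)
      rw [norm_sub_rev] at this
      linarith
    have h3 : d / 4 * ‖∑ m ∈ s, a m • u m‖ ≤ 1 / 4 * ‖∑ m ∈ s, a m • u m‖ :=
      mul_le_mul_of_nonneg_right (by linarith) (norm_nonneg _)
    have h4 := norm_nonneg (∑ m ∈ s, a m • x m)
    linarith
  have hspan : ∀ y ∈ Submodule.span ℝ (Set.range x), ∃ w ∈ U, ‖y - w‖ ≤ d / 2 * ‖y‖ := by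
    intro y hy
    obtain ⟨c, hc⟩ := Finsupp.mem_span_range_iff_exists_finsupp.1 hy
    refine ⟨∑ m ∈ c.support, c m • u m, U.sum_mem fun m _ => U.smul_mem _ (huU m), ?_⟩
    have h1 := hcmp c.support c
    have h2 := hun c.support c
    have hy' : ∑ m ∈ c.support, c m • x m = y := hc
    rw [hy'] at h1 h2
    have h3 : d / 4 * ‖∑ m ∈ c.support, c m • u m‖ ≤ d / 4 * (2 * ‖y‖) :=
      mul_le_mul_of_nonneg_left h2 (by positivity)
    linarith
  refine ⟨(Submodule.span ℝ (Set.range x)).topologicalClosure, ?_, ?_, ?_, ?_⟩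
  · refine Submodule.topologicalClosure_minimal _ ?_ hX'
    rw [Submodule.span_le]
    rintro _ ⟨n, rfl⟩
    exact hxX n
  · exact Submodule.isClosed_topologicalClosure _
  · intro hfd
    have hli : LinearIndependent ℝ x := by
      rw [linearIndependent_iff']
      intro s a hs i hi
      have h1 := hun s a
      rw [hs, norm_zero, mul_zero] at h1
      have h2 := hcoef s a i hi
      have h3 : ‖∑ m ∈ s, a m • u m‖ = 0 := le_antisymm h1 (norm_nonneg _)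
      rw [h3, mul_zero] at h2
      exact abs_eq_zero.1 (le_antisymm h2 (abs_nonneg _))
    have hmem : ∀ n, x n ∈ (Submodule.span ℝ (Set.range x)).topologicalClosure := fun n =>
      Submodule.le_topologicalClosure _ (Submodule.subset_span ⟨n, rfl⟩)
    have hli2 : LinearIndependent ℝ
        (fun n => (⟨x n, hmem n⟩ : (Submodule.span ℝ (Set.range x)).topologicalClosure)) := by
      refine LinearIndependent.of_comp
        (Submodule.subtype (Submodule.span ℝ (Set.range x)).topologicalClosure) ?_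
      exact hli
    have := hli2.finite
    exact not_finite ℕ
  · intro y hy
    by_cases hy0 : y = 0
    · exact ⟨0, U.zero_mem, by simp [hy0]⟩
    have hyn : 0 < ‖y‖ := norm_pos_iff.2 hy0
    have hy' : y ∈ closure ((Submodule.span ℝ (Set.range x) : Submodule ℝ W) : Set W) := hy
    obtain ⟨y', hy's, hyy'⟩ := Metric.mem_closure_iff.1 hy' (d / 8 * ‖y‖) (by positivity)
    obtain ⟨w, hwU, hw⟩ := hspan y' hy's
    refine ⟨w, hwU, ?_⟩
    rw [dist_eq_norm] at hyy'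
    have h1 : ‖y'‖ ≤ ‖y‖ + d / 8 * ‖y‖ := by
      have := norm_sub_norm_le y' y
      rw [norm_sub_rev] at this
      linarith
    have h2 : ‖y - w‖ ≤ ‖y - y'‖ + ‖y' - w‖ := by
      have := norm_add_le (y - y') (y' - w)
      rwa [sub_add_sub_cancel] at this
    have h3 : d / 2 * ‖y'‖ ≤ d / 2 * (‖y‖ + d / 8 * ‖y‖) :=
      mul_le_mul_of_nonneg_left h1 (by positivity)
    have h4 : d / 2 * (d / 8 * ‖y‖) ≤ d / 2 * (1 / 8 * ‖y‖) := by
      refine mul_le_mul_of_nonneg_left ?_ (by positivity)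
      exact mul_le_mul_of_nonneg_right (by linarith) hyn.le
    have h5 : d * ‖y‖ ≤ δ * ‖y‖ := mul_le_mul_of_nonneg_right (min_le_left _ _) hyn.le
    have h6 : 0 ≤ d * ‖y‖ := by positivity
    linarith

end Pool.Agent.HI61
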