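import Mathlib

/-!
# HI61/Compl : completion of a seminormed space, extension of operators

PROOFS.
`exists_completion`: on a type synonym of `E` put the `SeminormedAddCommGroup` and `NormedSpace`
structures given by `p` (`p.toAddGroupSeminorm.toSeminormedAddCommGroup`,
`NormedSpace` with `norm_smul_le`); `W = UniformSpace.Completion E`, `j` the canonical map
(`UniformSpace.Completion.norm_coe`, `denseRange_coe`).
`extend_op`: `T' (j e) = j (T e)` is well defined: if `j e = j e'` then `p (e - e') = 0`, so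
`‖j (T e) - j (T e')‖ = p (T (e - e')) = 0`.  Extend the bounded linear map `j e ↦ j (T e)`, defined on the
dense subspace `range j`, e.g. with `ContinuousLinearMap.extend`/`LinearMap.extend`..., or
`DenseRange`/`IsUniformInducing` for the seminormed structure on `E` given by `p`.
-/

namespace Pool.Agent.HI61

theorem exists_completion {E : Type} [AddCommGroup E] [Module ℝ E] (p : Seminorm ℝ E) :
    ∃ (W : Type) (_ : NormedAddCommGroup W) (_ : NormedSpace ℝ W) (_ : CompleteSpace W)
      (j : E →ₗ[ℝ] W), (∀ e, ‖j e‖ = p e) ∧ DenseRange j := by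
  letI : SeminormedAddCommGroup E := p.toAddGroupSeminorm.toSeminormedAddCommGroup
  letI : NormedSpace ℝ E := { norm_smul_le := fun a b => (map_smul_eq_mul p a b).le }
  refine ⟨UniformSpace.Completion E, inferInstance, inferInstance, inferInstance,
    (UniformSpace.Completion.toComplₗᵢ (𝕜 := ℝ) (E := E)).toLinearMap, fun e => ?_, ?_⟩
  · exact UniformSpace.Completion.norm_coe e
  · exact UniformSpace.Completion.denseRange_coe

theorem extend_op {E : Type} [AddCommGroup E] [Module ℝ E] (p : Seminorm ℝ E) {W : Type}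
    [NormedAddCommGroup W] [NormedSpace ℝ W] [CompleteSpace W] (j : E →ₗ[ℝ] W)
    (hj : ∀ e, ‖j e‖ = p e) (hd : DenseRange j) (T : E →ₗ[ℝ] E) (C : ℝ) (hC : 0 ≤ C)
    (hT : ∀ e, p (T e) ≤ C * p e) :
    ∃ T' : W →L[ℝ] W, (∀ e, T' (j e) = j (T e)) ∧ ∀ w, ‖T' w‖ ≤ C * ‖w‖ := by
  have hb : ∀ e, ‖(j ∘ₗ T) e‖ ≤ C * ‖j e‖ := fun e => by
    rw [LinearMap.comp_apply, hj, hj]
    exact hT e
  have heq : ∀ e, (j ∘ₗ T).extendOfNorm j (j e) = j (T e) := fun e =>
    LinearMap.extendOfNorm_eq hd ⟨C, hb⟩ e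
  exact ⟨(j ∘ₗ T).extendOfNorm j, heq, fun w =>
    LinearMap.norm_extendOfNorm_apply_le hd C hb w⟩

end Pool.Agent.HI61
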