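import Pool.Agent.HI61.KInduct

/-!
# HI61/Coord : the norm is at most the sum of the block norms

PROOF.  `sum_before`: for `f_0, ..., f_{n-1}` successive and each with
`|ev (res a b (f l)) z| ≤ ∑_{k ∈ Ico a b} q k` for all `a b`, one has
`∑_l |ev (res a b (f l)) z| ≤ ∑_{k ∈ Ico a b} q k`: if `f l ≠ 0` let `[a_l, b_l)` be the hull of
its blocks (`a_l` the least, `b_l` the largest plus one); then
`res a b (f l) = res (max a a_l) (min b b_l) (f l)`, the intervals
`Ico (max a a_l) (min b b_l)` are pairwise disjoint subsets of `Ico a b` (`Before`).  `q ≥ 0`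
because `|z i| ≤ q (blk i)` and every block `k` contains the index `Nat.pair k 0`.
`coord`: `K_induct` with `Pr f := ∀ a b, |ev (res a b f) z| ≤ ∑_{k ∈ Ico a b} q k`.
ground: `res_single`, `ev_single`.  Step: for `a b` apply `Dom` with the vector `cutv a b z`
(`ev_res`) and `T = ∑_{Ico a b} q`: `|∑ d_l ev (f' l) (cutv a b z)| ≤ ∑ |ev (res a b (f' l)) z| ≤ T`
(`|d_l| ≤ 1` because `∑ |d_l| ^ rc ≤ 1`), and `M κ ≥ 1`.
`coord_ty`: the same computation with `dom_K` (do not use the induction, use `coord` for the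
components) keeps the factor `1 / M κ`.
`coord_supp`, `KS_supp`: `z` supported in blocks `< b` : `ev f z = ev (res 0 b f) z`.
-/

namespace Pool.Agent.HI61

open Finset
open scoped Classical

private theorem q_nonneg {z : ℕ → ℝ} {q : ℕ → ℝ} (hq : ∀ i, |z i| ≤ q (blk i)) (k : ℕ) :
    0 ≤ q k := by
  have h := hq (Nat.pair k 0)
  rw [blk, Nat.unpair_pair] at h
  exact (abs_nonneg _).trans h

private theorem sum_before_gen {z : ℕ → ℝ} {q : ℕ → ℝ} (hq : ∀ k, 0 ≤ q k)
    (n : ℕ) (f : Fin n → Fn)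
    (hf : ∀ l a b, |ev (res a b (f l)) z| ≤ ∑ k ∈ Ico a b, q k)
    (hb : ∀ l l', l < l' → Before (f l) (f l')) (a b : ℕ) :
    ∑ l, |ev (res a b (f l)) z| ≤ ∑ k ∈ Ico a b, q k := by
  classical
  let J : Fin n → Finset ℕ := fun l => (Ico a b).filter (fun k =>
    ∃ i ∈ (res a b (f l)).support, ∃ i' ∈ (res a b (f l)).support, blk i ≤ k ∧ k ≤ blk i')
  have hJ : ∀ l, |ev (res a b (f l)) z| ≤ ∑ k ∈ J l, q k := by
    intro l
    by_cases h0 : (res a b (f l)).support.Nonempty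
    · obtain ⟨i0, hi0, hmin⟩ := exists_min_image _ blk h0
      obtain ⟨i1, hi1, hmax⟩ := exists_max_image _ blk h0
      have h1 : res (blk i0) (blk i1 + 1) (res a b (f l)) = res a b (f l) :=
        res_eq_self _ _ _ fun i hi => ⟨hmin i hi, Nat.lt_succ_of_le (hmax i hi)⟩
      rw [← h1, res_res]
      refine (hf l _ _).trans (sum_le_sum_of_subset_of_nonneg ?_ fun k _ _ => hq k)
      intro k hk
      rw [mem_Ico] at hk
      refine mem_filter.2 ⟨mem_Ico.2 ⟨by omega, by omega⟩, i0, hi0, i1, hi1, by omega, by omega⟩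
    · rw [not_nonempty_iff_eq_empty] at h0
      rw [ev_eq_sum, h0, sum_empty, abs_zero]
      exact sum_nonneg fun k _ => hq k
  have hd : ∀ l l', l < l' → Disjoint (J l) (J l') := by
    intro l l' hl
    rw [disjoint_left]
    intro k hk hk'
    obtain ⟨-, i, hi, i', hi', h1, h2⟩ := mem_filter.1 hk
    obtain ⟨-, m, hm, m', hm', h3, h4⟩ := mem_filter.1 hk'
    have h5 := before_res (hb l l' hl) a b i' hi' m hm
    omega
  calc ∑ l, |ev (res a b (f l)) z| ≤ ∑ l, ∑ k ∈ J l, q k := sum_le_sum fun l _ => hJ l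
    _ = ∑ k ∈ univ.biUnion J, q k := by
        rw [sum_biUnion]
        intro l _ l' _ hne
        rcases lt_or_gt_of_ne hne with h | h
        · exact hd l l' h
        · exact (hd l' l h).symm
    _ ≤ ∑ k ∈ Ico a b, q k := by
        refine sum_le_sum_of_subset_of_nonneg ?_ fun k _ _ => hq k
        intro k hk
        obtain ⟨l, -, hl⟩ := mem_biUnion.1 hk
        exact (mem_filter.1 hl).1

private theorem rc_pos {P : Par} (hG : Good P) : 0 < P.rc := by
  have h1 := hG.q1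
  have h2 : 2 ≤ P.r := by
    rw [Par.r]
    linarith
  rw [Par.rc]
  exact div_pos (by linarith) (by linarith)

private theorem d_le_one {P : Par} (hG : Good P) {n : ℕ} {d : Fin n → ℝ}
    (hd : ∑ l, |d l| ^ P.rc ≤ 1) (l : Fin n) : |d l| ≤ 1 := by
  by_contra h
  push Not at h
  have h1 : 1 < |d l| ^ P.rc := Real.one_lt_rpow h (rc_pos hG)
  have h2 : |d l| ^ P.rc ≤ ∑ l, |d l| ^ P.rc :=
    single_le_sum (f := fun l => |d l| ^ P.rc) (fun i _ => Real.rpow_nonneg (abs_nonneg _) _)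
      (mem_univ l)
  linarith

private theorem comb_le {P : Par} (hG : Good P) {z : ℕ → ℝ} {q : ℕ → ℝ} (hq : ∀ k, 0 ≤ q k)
    {n : ℕ} {d : Fin n → ℝ} (hd : ∑ l, |d l| ^ P.rc ≤ 1) {f : Fin n → Fn}
    (hf : ∀ l a b, |ev (res a b (f l)) z| ≤ ∑ k ∈ Ico a b, q k)
    (hb : ∀ l l', l < l' → Before (f l) (f l')) (a b : ℕ) :
    |∑ l, d l * ev (f l) (cutv a b z)| ≤ ∑ k ∈ Ico a b, q k := by
  simp only [← ev_res]
  refine (abs_sum_le_sum_abs _ _).trans (le_trans (sum_le_sum fun l _ => ?_)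
    (sum_before_gen hq n f hf hb a b))
  rw [abs_mul]
  exact mul_le_of_le_one_left (abs_nonneg _) (d_le_one hG hd l)

theorem coord {P : Par} (hG : Good P) (z : ℕ → ℝ) (q : ℕ → ℝ) (hq : ∀ i, |z i| ≤ q (blk i)) :
    ∀ f, K P f → ∀ a b, |ev (res a b f) z| ≤ ∑ k ∈ Ico a b, q k := by
  have hq0 := q_nonneg hq
  refine K_induct hG _ ?_ ?_
  · intro i s hs a b
    rw [res_single, ev_single]
    split_ifs with h
    · have h1 : |(s : ℝ)| ≤ 1 := by exact_mod_cast hs
      rw [abs_mul]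
      calc |(s : ℝ)| * |z i| ≤ |z i| := mul_le_of_le_one_left (abs_nonneg _) h1
        _ ≤ q (blk i) := hq i
        _ ≤ ∑ k ∈ Ico a b, q k :=
          single_le_sum (f := q) (fun k _ => hq0 k) (mem_Ico.2 h)
    · simpa using sum_nonneg fun k (_ : k ∈ Ico a b) => hq0 k
  · intro κ f _ hDom a b
    have hT : 0 ≤ ∑ k ∈ Ico a b, q k := sum_nonneg fun k _ => hq0 k
    have hM : (1 : ℝ) ≤ P.M κ := by
      have : 1 ≤ P.M κ := by
        rw [Par.M]
        have := Nat.one_le_two_pow (n := P.e κ)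
        omega
      exact_mod_cast this
    rw [ev_res]
    refine (hDom (cutv a b z) (∑ k ∈ Ico a b, q k) ?_).trans (div_le_self hT hM)
    intro n _ d f' hf' hb hd
    exact comb_le hG hq0 hd (fun l => (hf' l).2) hb a b

/-- successive functionals see disjoint blocks -/
theorem sum_before {P : Par} (hG : Good P) (z : ℕ → ℝ) (q : ℕ → ℝ) (hq : ∀ i, |z i| ≤ q (blk i))
    (n : ℕ) (f : Fin n → Fn) (hf : ∀ l, K P (f l)) (hb : ∀ l l', l < l' → Before (f l) (f l'))
    (a b : ℕ) : ∑ l, |ev (res a b (f l)) z| ≤ ∑ k ∈ Ico a b, q k :=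
  sum_before_gen (q_nonneg hq) n f (fun l => coord hG z q hq (f l) (hf l)) hb a b

theorem coord_ty {P : Par} (hG : Good P) (z : ℕ → ℝ) (q : ℕ → ℝ) (hq : ∀ i, |z i| ≤ q (blk i))
    {κ : ℕ} {f : Fn} (hf : InK P (some κ) f) (a b : ℕ) :
    |ev (res a b f) z| ≤ (∑ k ∈ Ico a b, q k) / P.M κ := by
  rw [ev_res]
  refine dom_K hG hf _ _ fun n _ d g hg hb hd => ?_
  exact comb_le hG (q_nonneg hq) hd (fun l => coord hG z q hq (g l) (hg l)) hb a b

private theorem cutv_self {z : ℕ → ℝ} {b : ℕ} (hb : ∀ i, z i ≠ 0 → blk i < b) :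
    cutv 0 b z = z := by
  funext i
  rw [cutv]
  split_ifs with h
  · rfl
  · by_contra h1
    exact h ⟨Nat.zero_le _, hb i fun h2 => h1 h2.symm⟩

theorem coord_supp {P : Par} (hG : Good P) (z : ℕ → ℝ) (q : ℕ → ℝ) (hq : ∀ i, |z i| ≤ q (blk i))
    (b : ℕ) (hb : ∀ i, z i ≠ 0 → blk i < b) : Kle P z (∑ k ∈ range b, q k) := by
  intro f hf
  have h := coord hG z q hq f hf 0 b
  rw [ev_res, cutv_self hb, ← range_eq_Ico] at h
  exact h

theorem coord_ty_supp {P : Par} (hG : Good P) (z : ℕ → ℝ) (q : ℕ → ℝ)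
    (hq : ∀ i, |z i| ≤ q (blk i)) (b : ℕ) (hb : ∀ i, z i ≠ 0 → blk i < b) {κ : ℕ} {f : Fn}
    (hf : InK P (some κ) f) : |ev f z| ≤ (∑ k ∈ range b, q k) / P.M κ := by
  have h := coord_ty hG z q hq hf 0 b
  rw [ev_res, cutv_self hb, ← range_eq_Ico] at h
  exact h

/-- a vector which is bounded and supported by finitely many blocks has a finite norm -/
theorem Kle_of_bounded {P : Par} (hG : Good P) (z : ℕ → ℝ) (B : ℝ) (hB : ∀ i, |z i| ≤ B)
    (b : ℕ) (hb : ∀ i, z i ≠ 0 → blk i < b) : Kle P z (b * B) := by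
  have h := coord_supp hG z (fun _ => B) hB b hb
  rw [sum_const, card_range, nsmul_eq_mul] at h
  exact h

end Pool.Agent.HI61
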