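import Pool.Agent.HI61.HeavyChains
import Pool.Agent.HI61.Coord

/-!
# HI61/FBasic : elementary properties of the functionals `F_j(v)`

PROOFS.
`Fj_eq_sum`: `finsum_eq_sum_of_support_subset`; the heavy set is finite.
`Fj_add`, `Fj_smul`: from `Fj_eq_sum` with `T0` = the heavy set, `ev_add_right`, `ev_smul_right`.
`Fj_neg`: `Heavy P j (-v) t ↔ Heavy P j v t` (the masses only depend on `|v|`), `co` changes sign.
`Fj_l1`: `|Fj| ≤ ∑_{s ∈ S} ∑_{t heavy, t <:+ s} al |v (code t)| |ev (hd t) z|` with the `S` of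
`heavy_chains`; along a chain the functionals `hd t ∈ K` are successive (`hd_before`, `chain_enum`), so
`∑_{t <:+ s} |ev (hd t) z| ≤ ∑_{k < b} q k` (`sum_before`, `res 0 b` acts as identity on `z`).
`Fj_crude`: every chain has at most `ell j` nodes and `|ev (hd t) z| ≤ B`; `al * C ≤ 1` (`off`, `A ≥ 1`).
`Fj_zero_of_supp`: all the blocks of `hd t`, `t` in the tree, are `> code j t.tail ≥ base j ≥ j`.
`Fj_zero_of_light`: then no node is heavy (`mass` is `∑_{k ∈ D} |v k|` for `D` = the codes).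
`Fj_plus`: `dom_spec` with `T0` = the heavy set, `c = co P j v` (`co_atom`, `subset_convexHull`),
`h = hd`, `Q = K P` (`tree_hd`).
-/

namespace Pool.Agent.HI61

open Finset
open scoped Classical

private theorem co_ne {P : Par} {j : ℕ} {v : ℕ → ℝ} {t : List Fn} (h : co P j v t ≠ 0) :
    Heavy P j v t := by
  by_contra h1
  exact h (by unfold co; rw [if_neg h1])

private theorem co_le {P : Par} (hG : Good P) (j : ℕ) (v : ℕ → ℝ) (hv : v ∈ P.VS) (t : List Fn) :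
    |co P j v t| ≤ P.al j := by
  have h1 := hG.al_pos j
  have h2 := hG.VS_le v hv (P.code j t)
  unfold co
  split_ifs
  · rw [abs_mul, abs_of_pos h1]
    calc P.al j * |v (P.code j t)| ≤ P.al j * 1 := mul_le_mul_of_nonneg_left h2 h1.le
      _ = P.al j := mul_one _
  · rw [abs_zero]; exact h1.le

private theorem cover_sum (Hs S : Finset (List Fn)) (w : List Fn → ℝ) (hw : ∀ t, 0 ≤ w t)
    (hc : ∀ t ∈ Hs, ∃ s ∈ S, t <:+ s) :
    ∑ t ∈ Hs, w t ≤ ∑ s ∈ S, ∑ t ∈ Hs.filter (fun t => t <:+ s), w t := by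
  have h1 : ∀ s ∈ S, ∑ t ∈ Hs.filter (fun t => t <:+ s), w t =
      ∑ t ∈ Hs, if t <:+ s then w t else 0 := fun s _ => Finset.sum_filter _ _
  rw [Finset.sum_congr rfl h1, Finset.sum_comm]
  refine Finset.sum_le_sum fun t ht => ?_
  obtain ⟨s, hs, hts⟩ := hc t ht
  have h2 : (if t <:+ s then w t else 0) ≤ ∑ s ∈ S, if t <:+ s then w t else 0 :=
    Finset.single_le_sum (f := fun s => if t <:+ s then w t else 0)
      (fun s _ => by split_ifs; exacts [hw t, le_rfl]) hs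
  rwa [if_pos hts] at h2

private theorem heavy_set {P : Par} (hG : Good P) (j : ℕ) (v : ℕ → ℝ) (hv : v ∈ P.VS) :
    ∃ Hs : Finset (List Fn), ∀ t, Heavy P j v t ↔ t ∈ Hs :=
  ⟨(heavy_finite hG j v hv).toFinset, fun t => by rw [Set.Finite.mem_toFinset]; rfl⟩

theorem Fj_eq_sum {P : Par} (hG : Good P) (j : ℕ) (v : ℕ → ℝ) (hv : v ∈ P.VS)
    (T0 : Finset (List Fn)) (hT0 : ∀ t, Heavy P j v t → t ∈ T0) (z : ℕ → ℝ) :
    Fj P j v z = ∑ t ∈ T0, co P j v t * ev (hd t) z := by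
  unfold Fj
  apply finsum_eq_sum_of_support_subset
  intro t ht
  rw [Function.mem_support] at ht
  exact Finset.mem_coe.2 (hT0 t (co_ne (left_ne_zero_of_mul ht)))

private theorem Fj_le_sum {P : Par} (hG : Good P) (j : ℕ) (v : ℕ → ℝ) (hv : v ∈ P.VS)
    (z : ℕ → ℝ) (W : ℝ) (hW : 0 ≤ W)
    (h : ∀ (Hs : Finset (List Fn)), (∀ t ∈ Hs, Tree P j t) → ∀ s,
      ∑ t ∈ Hs.filter (fun t => t <:+ s), |ev (hd t) z| ≤ W) :
    |Fj P j v z| ≤ P.al j * P.C j * W := by
  obtain ⟨Hs, hHs⟩ := heavy_set hG j v hv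
  obtain ⟨S, hS1, hS2, hS3⟩ := heavy_chains hG j v hv
  rw [Fj_eq_sum hG j v hv Hs (fun t ht => (hHs t).1 ht) z]
  have hal := hG.al_pos j
  have h1 : ∑ t ∈ Hs, |ev (hd t) z| ≤ P.C j * W := by
    calc ∑ t ∈ Hs, |ev (hd t) z|
        ≤ ∑ s ∈ S, ∑ t ∈ Hs.filter (fun t => t <:+ s), |ev (hd t) z| :=
          cover_sum Hs S _ (fun t => abs_nonneg _) (fun t ht => hS3 t ((hHs t).2 ht))
      _ ≤ ∑ s ∈ S, W :=
          Finset.sum_le_sum fun s _ => h Hs (fun t ht => ((hHs t).2 ht).1) s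
      _ = S.card * W := by rw [Finset.sum_const, nsmul_eq_mul]
      _ ≤ P.C j * W := mul_le_mul_of_nonneg_right (by exact_mod_cast hS1) hW
  calc |∑ t ∈ Hs, co P j v t * ev (hd t) z|
      ≤ ∑ t ∈ Hs, |co P j v t * ev (hd t) z| := Finset.abs_sum_le_sum_abs _ _
    _ ≤ ∑ t ∈ Hs, P.al j * |ev (hd t) z| := by
        refine Finset.sum_le_sum fun t _ => ?_
        rw [abs_mul]
        exact mul_le_mul_of_nonneg_right (co_le hG j v hv t) (abs_nonneg _)
    _ = P.al j * ∑ t ∈ Hs, |ev (hd t) z| := by rw [Finset.mul_sum]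
    _ ≤ P.al j * (P.C j * W) := mul_le_mul_of_nonneg_left h1 hal.le
    _ = P.al j * P.C j * W := by ring

theorem Fj_add {P : Par} (hG : Good P) (j : ℕ) (v : ℕ → ℝ) (hv : v ∈ P.VS) (z w : ℕ → ℝ) :
    Fj P j v (fun i => z i + w i) = Fj P j v z + Fj P j v w := by
  obtain ⟨Hs, hHs⟩ := heavy_set hG j v hv
  rw [Fj_eq_sum hG j v hv Hs (fun t ht => (hHs t).1 ht),
    Fj_eq_sum hG j v hv Hs (fun t ht => (hHs t).1 ht) z,
    Fj_eq_sum hG j v hv Hs (fun t ht => (hHs t).1 ht) w, ← Finset.sum_add_distrib]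
  refine Finset.sum_congr rfl fun t _ => ?_
  rw [ev_add_right, mul_add]

theorem Fj_smul {P : Par} (hG : Good P) (j : ℕ) (v : ℕ → ℝ) (hv : v ∈ P.VS) (c : ℝ)
    (z : ℕ → ℝ) : Fj P j v (fun i => c * z i) = c * Fj P j v z := by
  obtain ⟨Hs, hHs⟩ := heavy_set hG j v hv
  rw [Fj_eq_sum hG j v hv Hs (fun t ht => (hHs t).1 ht),
    Fj_eq_sum hG j v hv Hs (fun t ht => (hHs t).1 ht) z, Finset.mul_sum]
  refine Finset.sum_congr rfl fun t _ => ?_
  rw [ev_smul_right]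
  ring

private theorem heavy_neg {P : Par} (j : ℕ) (v : ℕ → ℝ) (t : List Fn) :
    Heavy P j (-v) t ↔ Heavy P j v t := by
  unfold Heavy mass
  simp only [Pi.neg_apply, abs_neg]

private theorem co_neg {P : Par} (j : ℕ) (v : ℕ → ℝ) (t : List Fn) :
    co P j (-v) t = - co P j v t := by
  unfold co
  by_cases h : Heavy P j v t
  · rw [if_pos h, if_pos ((heavy_neg j v t).2 h), Pi.neg_apply, mul_neg]
  · rw [if_neg h, if_neg (fun h1 => h ((heavy_neg j v t).1 h1)), neg_zero]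

theorem Fj_neg {P : Par} (j : ℕ) (v : ℕ → ℝ) (z : ℕ → ℝ) : Fj P j (-v) z = - Fj P j v z := by
  unfold Fj
  rw [← finsum_neg_distrib]
  refine finsum_congr fun t => ?_
  rw [co_neg, neg_mul]

private theorem chain_fun {P : Par} {j : ℕ} (Hs : Finset (List Fn)) (hHs : ∀ t ∈ Hs, Tree P j t)
    (s : List Fn) : ∃ (n : ℕ) (f : Fin n → Fn), n ≤ P.ell j ∧ (∀ l, K P (f l)) ∧
      (∀ l l', l < l' → Before (f l) (f l')) ∧ ∀ F : Fn → ℝ,
        ∑ t ∈ Hs.filter (fun t => t <:+ s), F (hd t) = ∑ l, F (f l) := by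
  obtain ⟨n, t, hn, hinj, hlt, hmem⟩ := chain_enum (P := P) (j := j) Hs
    (fun t ht => (hHs t ht).1) s
  have hT : ∀ l, t l ∈ Hs := fun l => (Finset.mem_filter.1 ((hmem (t l)).2 ⟨l, rfl⟩)).1
  refine ⟨n, fun l => hd (t l), hn, fun l => ⟨_, tree_hd (hHs _ (hT l))⟩, fun l l' h => ?_,
    fun F => ?_⟩
  · obtain ⟨h1, h2⟩ := hlt l l' h
    exact hd_before (hHs _ (hT l')).1 h1 (hHs _ (hT l)).1.1 h2
  · have e : Hs.filter (fun t => t <:+ s) = Finset.univ.image t := by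
      ext x
      rw [hmem x, Finset.mem_image]
      simp
    rw [e, Finset.sum_image (fun a _ b _ h => hinj h)]

theorem Fj_l1 {P : Par} (hG : Good P) (j : ℕ) (v : ℕ → ℝ) (hv : v ∈ P.VS) (z : ℕ → ℝ)
    (q : ℕ → ℝ) (hq : ∀ i, |z i| ≤ q (blk i)) (b : ℕ) (hb : ∀ i, z i ≠ 0 → blk i < b) :
    |Fj P j v z| ≤ P.al j * P.C j * ∑ k ∈ range b, q k := by
  have hcut : cutv 0 b z = z := by
    funext i
    unfold cutv
    by_cases h : z i = 0
    · rw [h]; simp
    · rw [if_pos ⟨Nat.zero_le _, hb i h⟩]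
  have e : Finset.Ico 0 b = Finset.range b := by rw [Finset.range_eq_Ico]
  apply Fj_le_sum hG j v hv z
  · have h0 := sum_before hG z q hq 0 (fun l => l.elim0) (fun l => l.elim0) (fun l => l.elim0) 0 b
    rw [e] at h0
    simpa using h0
  · intro Hs hHs s
    obtain ⟨n, f, _, hK, hB, hsum⟩ := chain_fun Hs hHs s
    rw [hsum (fun g => |ev g z|)]
    have h1 := sum_before hG z q hq n f hK hB 0 b
    rw [e] at h1
    simp only [ev_res, hcut] at h1
    exact h1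

theorem Fj_crude {P : Par} (hG : Good P) (j : ℕ) (v : ℕ → ℝ) (hv : v ∈ P.VS) (z : ℕ → ℝ)
    (B : ℝ) (hz : Kle P z B) : |Fj P j v z| ≤ P.ell j * B := by
  have hB : 0 ≤ B := by
    have h0 := hz 0 (K_zero hG)
    rwa [ev_zero_left, abs_zero] at h0
  have hell : (0 : ℝ) ≤ P.ell j * B := by positivity
  have h1 := Fj_le_sum hG j v hv z (P.ell j * B) hell (by
    intro Hs hHs s
    obtain ⟨n, f, hn, hK, hB', hsum⟩ := chain_fun Hs hHs s
    rw [hsum (fun g => |ev g z|)]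
    calc ∑ l, |ev (f l) z| ≤ ∑ _l : Fin n, B := Finset.sum_le_sum fun l _ => hz _ (hK l)
      _ = n * B := by simp
      _ ≤ P.ell j * B := mul_le_mul_of_nonneg_right (by exact_mod_cast hn) hB)
  have hoff := hG.off j
  have hal := hG.al_pos j
  have hA : (1 : ℝ) ≤ P.A j := by exact_mod_cast hG.A_pos j
  have hhalf : ((1 : ℝ) / 2) ^ j ≤ 1 := pow_le_one₀ (by norm_num) (by norm_num)
  have hC0 : (0 : ℝ) ≤ P.C j := Nat.cast_nonneg _
  have h2 : P.al j * P.C j ≤ 1 := by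
    have h3 : 0 ≤ P.al j * P.C j := by positivity
    have h4 : P.al j * P.C j ≤ P.A j * (P.al j * P.C j) := by nlinarith
    nlinarith
  calc |Fj P j v z| ≤ P.al j * P.C j * (P.ell j * B) := h1
    _ ≤ 1 * (P.ell j * B) := mul_le_mul_of_nonneg_right h2 hell
    _ = P.ell j * B := one_mul _

theorem Fj_zero_of_supp {P : Par} (hG : Good P) (j : ℕ) (v : ℕ → ℝ) (z : ℕ → ℝ)
    (hz : ∀ i, z i ≠ 0 → blk i ≤ j) : Fj P j v z = 0 := by
  unfold Fj
  have h : ∀ t, co P j v t * ev (hd t) z = 0 := by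
    intro t
    by_cases ht : Heavy P j v t
    · have h1 := ht.1
      obtain ⟨g, p, rfl⟩ := List.exists_cons_of_ne_nil h1.1.1
      have h2 : ev (hd (g :: p)) z = 0 := by
        rw [ev_eq_sum]
        refine Finset.sum_eq_zero fun i hi => ?_
        have h3 : P.code j p < blk i := h1.1.2.2 g p List.suffix_rfl i hi
        have h4 := base_le_code P j p
        have h5 := hG.base_ge j
        have h6 : z i = 0 := by
          by_contra h7
          have h8 := hz i h7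
          omega
        rw [h6, mul_zero]
      rw [h2, mul_zero]
    · unfold co
      rw [if_neg ht, zero_mul]
  simp only [h, finsum_zero]

theorem Fj_zero_of_light {P : Par} (hG : Good P) (j : ℕ) (v : ℕ → ℝ)
    (h : ∀ D : Finset ℕ, ∑ k ∈ D, |v k| < P.th j) (z : ℕ → ℝ) : Fj P j v z = 0 := by
  have h1 : ∀ t, ¬ Heavy P j v t := by
    rintro t ⟨_, s, _, _, hs⟩
    have h2 := h ((s.tails.toFinset.filter (fun u => t <:+ u)).image (P.code j))
    rw [Finset.sum_image (fun a _ b _ hab => code_inj P j hab)] at h2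
    exact absurd hs (not_le.2 h2)
  unfold Fj co
  simp only [h1, if_false, zero_mul, finsum_zero]

theorem Fj_plus {P : Par} (hG : Good P) (j : ℕ) (v : ℕ → ℝ) (hv : v ∈ P.VS) (z : ℕ → ℝ) (T : ℝ)
    (hz : KS P (2 * j + 1) z T) : P.A j * |Fj P j v z| ≤ T / P.M (2 * j + 1) := by
  obtain ⟨Hs, hHs⟩ := heavy_set hG j v hv
  rw [Fj_eq_sum hG j v hv Hs (fun t ht => (hHs t).1 ht) z]
  have hT : ∀ t ∈ Hs, Tree P j t := fun t ht => ((hHs t).2 ht).1
  exact dom_spec hG j z Hs (fun t ht => (hT t ht).1) (co P j v)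
    (subset_convexHull ℝ _ (co_atom hG j v hv)) hd
    (fun s hs t ht hst hne => hd_before (hT t ht).1 hst (hT s hs).1.1 hne)
    (K P) (fun t ht => ⟨_, tree_hd (hT t ht)⟩) T hz

end Pool.Agent.HI61
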