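import Pool.Agent.HI61.LightReal
import Pool.Agent.HI61.FBasic

/-!
# HI61/CutCmp : comparison of `F_j(v)` on a truncated vector with `F_j(v')`

Hypotheses: `v' l = v l` for `l < N`, `|v' l| ≤ (1/2)^l` for `l ≥ N`.
PROOF.  Let `H, H'` be the (finite) heavy sets of `v, v'`, and `z' = cutv 0 (N+1) z`.  By `Fj_eq_sum`
`Fj v z' - Fj v' z = I + II - III` where
 `I = ∑_{t ∈ H, code t < N} al v(code t) ev (hd t) z' - ∑_{t ∈ H', code t < N} al v'(code t) ev (hd t) z`,
 `II = ∑_{t ∈ H, code t ≥ N} al v(code t) ev (hd t) z'`,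
 `III = ∑_{t ∈ H', code t ≥ N} al v'(code t) ev (hd t) z`.
(I) For `code t < N` the blocks of `hd t` are `≤ code t < N` (`blk_le_code`), so
`ev (hd t) z' = ev (hd t) z`, and `v' = v` at `code t`.  So
`I = ∑_{D1} al v(code t) ev (hd t) z - ∑_{D2} al v(code t) ev (hd t) z` with
`D1 = {t ∈ H \ H', code t < N}`, `D2 = {t ∈ H' \ H, code t < N}`.  Each sum is at most `B / A` in
absolute value by `light_real`: for `D1`, `c t = al v(code t)` on `D1` and `0` elsewhere is an atom
(`v`, the chains of `heavy_chains` for `v`), and light: `∑_{t ∈ D1, t <:+ s} |v(code t)|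
= ∑ |v'(code t)| ≤ th` by `light_tail` for `v'`.  For `D2` exchange the roles (`c t = al v'(code t)`,
atom of `v'`, light by `light_tail` for `v`).
(II) On every chain `s` at most one node `t ∈ H` with `code t ≥ N` has `ev (hd t) z' ≠ 0`: if
`t1 <:+ t2`, `t1 ≠ t2` and `code t1 ≥ N` then the blocks of `hd t2` are `> code t2.tail ≥ code t1 ≥ N`
(`code_mono`), where `z'` vanishes.  So `|II| ≤ al * C * B` (`VS_le`, `Kle_cutv`, `heavy_chains`).
(III) `|III| ≤ al ∑_{t ∈ H', code t ≥ N} (1/2)^(code t) B ≤ 2 al B` (`code_inj`; sums of distinct powers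
of `1/2` are at most 2).  `C ≥ 1`.
-/

namespace Pool.Agent.HI61

open Finset
open scoped Classical

private theorem part_light {P : Par} (hG : Good P) (j N : ℕ) (v v' : ℕ → ℝ) (hv : v ∈ P.VS)
    (h1 : ∀ l < N, v' l = v l) (z : ℕ → ℝ) (B : ℝ) (hz : Kle P z B) (T : Finset (List Fn)) :
    |∑ t ∈ T.filter (fun t => P.code j t < N ∧ Heavy P j v t ∧ ¬ Heavy P j v' t),
      P.al j * v (P.code j t) * ev (hd t) z| ≤ B / P.A j := by
  generalize hD : T.filter (fun t => P.code j t < N ∧ Heavy P j v t ∧ ¬ Heavy P j v' t) = D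
  have hmD : ∀ t ∈ D, P.code j t < N ∧ Heavy P j v t ∧ ¬ Heavy P j v' t := by
    intro t ht
    rw [← hD] at ht
    exact (Finset.mem_filter.1 ht).2
  have hA0 : (0 : ℝ) < P.A j := by exact_mod_cast hG.A_pos j
  have hal := hG.al_pos j
  obtain ⟨S, hS1, -, hS3⟩ := heavy_chains hG j v hv
  have hb := light_real hG j D (fun t ht => (hmD t ht).2.1.1)
    (fun t => if t ∈ D then P.al j * v (P.code j t) else 0)
    (by
      intro t ht
      by_contra hc
      exact ht (if_neg hc))
    (by
      intro s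
      have h3 := light_tail hG j v' D (fun t ht => (hmD t ht).2.1.1)
        (fun t ht => (hmD t ht).2.2) s
      calc ∑ t ∈ D.filter (fun t => t <:+ s), |if t ∈ D then P.al j * v (P.code j t) else 0|
          = ∑ t ∈ D.filter (fun t => t <:+ s), P.al j * |v' (P.code j t)| := by
            refine Finset.sum_congr rfl fun t ht => ?_
            have ht' := (Finset.mem_filter.1 ht).1
            rw [if_pos ht', abs_mul, abs_of_pos hal, h1 _ (hmD t ht').1]
        _ = P.al j * ∑ t ∈ D.filter (fun t => t <:+ s), |v' (P.code j t)| := by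
            rw [Finset.mul_sum]
        _ ≤ P.al j * P.th j := mul_le_mul_of_nonneg_left h3 hal.le)
    (by
      refine subset_convexHull ℝ _ ⟨v, hv, S, hS1, ?_, ?_⟩
      · intro t ht
        have ht' : t ∈ D := by
          by_contra hc
          exact ht (if_neg hc)
        exact hS3 t (hmD t ht').2.1
      · intro t
        show |if t ∈ D then P.al j * v (P.code j t) else 0| ≤ P.al j * |v (P.code j t)|
        by_cases ht' : t ∈ D
        · rw [if_pos ht', abs_mul, abs_of_pos hal]
        · rw [if_neg ht', abs_zero]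
          positivity)
    z B hz
  rw [le_div_iff₀ hA0, mul_comm]
  refine le_trans (le_of_eq ?_) hb
  congr 2
  refine Finset.sum_congr rfl fun t ht => ?_
  rw [if_pos ht]

private theorem part_high {P : Par} (hG : Good P) (j N : ℕ) (v : ℕ → ℝ) (hv : v ∈ P.VS)
    (z : ℕ → ℝ) (B : ℝ) (hB : 0 ≤ B) (hz : Kle P z B) (T : Finset (List Fn)) :
    |∑ t ∈ T.filter (fun t => N ≤ P.code j t), co P j v t * ev (hd t) (cutv 0 (N + 1) z)| ≤
      P.C j * (P.al j * B) := by
  have hal := hG.al_pos j
  obtain ⟨S, hS1, -, hS3⟩ := heavy_chains hG j v hv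
  have hz' := Kle_cutv hG hz 0 (N + 1)
  generalize hzz : cutv 0 (N + 1) z = z' at hz'
  have hz0 : ∀ i, N < blk i → z' i = 0 := by
    intro i hi
    rw [← hzz, cutv, if_neg]
    omega
  have key : ∀ t1 t2 : List Fn, P.NodeOK j t2 → t1 <:+ t2 → t1 ≠ t2 → N ≤ P.code j t1 →
      ev (hd t2) z' = 0 := by
    intro t1 t2 h2 h12 hne hN
    obtain ⟨g, p, rfl⟩ := List.exists_cons_of_ne_nil h2.1
    rcases List.suffix_cons_iff.1 h12 with h3 | h3
    · exact absurd h3 hne
    · have h4 := code_mono P j h3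
      rw [ev_congr (hd (g :: p)) z' (fun _ => 0), ev_zero_right]
      intro i hi
      refine hz0 i ?_
      have h5 : P.code j p < blk i := h2.2.2 g p List.suffix_rfl i hi
      omega
  let F : Finset (List Fn) := T.filter (fun t => N ≤ P.code j t ∧ Heavy P j v t)
  have hmF : ∀ t ∈ F, N ≤ P.code j t ∧ Heavy P j v t := fun t ht => (Finset.mem_filter.1 ht).2
  calc |∑ t ∈ T.filter (fun t => N ≤ P.code j t), co P j v t * ev (hd t) z'|
      ≤ ∑ t ∈ T.filter (fun t => N ≤ P.code j t), |co P j v t * ev (hd t) z'| :=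
        Finset.abs_sum_le_sum_abs _ _
    _ = ∑ t ∈ F, |co P j v t * ev (hd t) z'| := by
        symm
        refine Finset.sum_subset ?_ ?_
        · intro t ht
          obtain ⟨h3, h4, h5⟩ := Finset.mem_filter.1 ht
          exact Finset.mem_filter.2 ⟨h3, h4⟩
        · intro t ht htF
          obtain ⟨h3, h4⟩ := Finset.mem_filter.1 ht
          have h5 : ¬ Heavy P j v t := fun h5 => htF (Finset.mem_filter.2 ⟨h3, h4, h5⟩)
          rw [co, if_neg h5, zero_mul, abs_zero]
    _ ≤ ∑ t ∈ F, ∑ s ∈ S.filter (fun s => t <:+ s), P.al j * |ev (hd t) z'| := by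
        refine Finset.sum_le_sum fun t ht => ?_
        obtain ⟨s, hs, hts⟩ := hS3 t (hmF t ht).2
        have h4 : |co P j v t| ≤ P.al j := by
          rw [co, if_pos (hmF t ht).2, abs_mul, abs_of_pos hal]
          calc P.al j * |v (P.code j t)| ≤ P.al j * 1 :=
                mul_le_mul_of_nonneg_left (hG.VS_le v hv _) hal.le
            _ = P.al j := mul_one _
        rw [abs_mul]
        calc |co P j v t| * |ev (hd t) z'| ≤ P.al j * |ev (hd t) z'| :=
              mul_le_mul_of_nonneg_right h4 (abs_nonneg _)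
          _ ≤ _ := Finset.single_le_sum (f := fun _ => P.al j * |ev (hd t) z'|)
              (fun _ _ => mul_nonneg hal.le (abs_nonneg _)) (Finset.mem_filter.2 ⟨hs, hts⟩)
    _ = ∑ s ∈ S, ∑ t ∈ F.filter (fun t => t <:+ s), P.al j * |ev (hd t) z'| := by
        rw [Finset.sum_comm' (t' := S) (s' := fun s => F.filter (fun t => t <:+ s))]
        intro t s
        simp only [Finset.mem_filter]
        tauto
    _ ≤ ∑ s ∈ S, P.al j * B := by
        refine Finset.sum_le_sum fun s _ => ?_
        rw [← Finset.mul_sum]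
        refine mul_le_mul_of_nonneg_left ?_ hal.le
        by_cases hex : ∃ t0 ∈ F.filter (fun t => t <:+ s), ev (hd t0) z' ≠ 0
        · obtain ⟨t0, ht0, hne0⟩ := hex
          obtain ⟨h01, h02⟩ := Finset.mem_filter.1 ht0
          rw [Finset.sum_eq_single_of_mem t0 ht0]
          · exact hz' _ ⟨_, tree_hd (hmF t0 h01).2.1⟩
          · intro t ht htn
            obtain ⟨h3, h4⟩ := Finset.mem_filter.1 ht
            rw [abs_eq_zero]
            rcases List.suffix_or_suffix_of_suffix h4 h02 with h5 | h5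
            · exact absurd (key t t0 (hmF t0 h01).2.1.1 h5 htn (hmF t h3).1) hne0
            · exact key t0 t (hmF t h3).2.1.1 h5 (fun h => htn h.symm) (hmF t0 h01).1
        · push Not at hex
          rw [Finset.sum_eq_zero]
          · exact hB
          · intro t ht
            rw [hex t ht, abs_zero]
    _ = S.card * (P.al j * B) := by rw [Finset.sum_const, nsmul_eq_mul]
    _ ≤ P.C j * (P.al j * B) := by
        refine mul_le_mul_of_nonneg_right ?_ (by positivity)
        exact_mod_cast hS1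

private theorem sum_half (D : Finset ℕ) : ∑ k ∈ D, ((1 : ℝ) / 2) ^ k ≤ 2 := by
  have h1 := Summable.sum_le_tsum D (fun k _ => by positivity) summable_geometric_two
  rwa [tsum_geometric_two] at h1

private theorem part_small {P : Par} (hG : Good P) (j N : ℕ) (v' : ℕ → ℝ)
    (h2 : ∀ l, N ≤ l → |v' l| ≤ (1 / 2) ^ l) (z : ℕ → ℝ) (B : ℝ) (hB : 0 ≤ B) (hz : Kle P z B)
    (T : Finset (List Fn)) :
    |∑ t ∈ T.filter (fun t => N ≤ P.code j t), co P j v' t * ev (hd t) z| ≤
      2 * (P.al j * B) := by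
  have hal := hG.al_pos j
  calc |∑ t ∈ T.filter (fun t => N ≤ P.code j t), co P j v' t * ev (hd t) z|
      ≤ ∑ t ∈ T.filter (fun t => N ≤ P.code j t), |co P j v' t * ev (hd t) z| :=
        Finset.abs_sum_le_sum_abs _ _
    _ ≤ ∑ t ∈ T.filter (fun t => N ≤ P.code j t), (P.al j * B) * (1 / 2) ^ (P.code j t) := by
        refine Finset.sum_le_sum fun t ht => ?_
        have hN := (Finset.mem_filter.1 ht).2
        by_cases hH : Heavy P j v' t
        · rw [co, if_pos hH, abs_mul, abs_mul, abs_of_pos hal]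
          have h3 := h2 _ hN
          have h4 := hz _ ⟨_, tree_hd hH.1⟩
          calc P.al j * |v' (P.code j t)| * |ev (hd t) z|
              ≤ P.al j * (1 / 2) ^ (P.code j t) * B := by gcongr
            _ = _ := by ring
        · rw [co, if_neg hH, zero_mul, abs_zero]
          positivity
    _ = (P.al j * B) * ∑ k ∈ (T.filter (fun t => N ≤ P.code j t)).image (P.code j),
          ((1 : ℝ) / 2) ^ k := by
        rw [Finset.sum_image (fun s _ t _ h => code_inj P j h), Finset.mul_sum]
    _ ≤ (P.al j * B) * 2 := mul_le_mul_of_nonneg_left (sum_half _) (by positivity)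
    _ = _ := by ring

theorem cut_cmp {P : Par} (hG : Good P) (j N : ℕ) (v v' : ℕ → ℝ) (hv : v ∈ P.VS)
    (hv' : v' ∈ P.VS) (h1 : ∀ l < N, v' l = v l) (h2 : ∀ l, N ≤ l → |v' l| ≤ (1 / 2) ^ l)
    (z : ℕ → ℝ) (B : ℝ) (hB : 0 ≤ B) (hz : Kle P z B) :
    |Fj P j v (cutv 0 (N + 1) z) - Fj P j v' z| ≤ (2 / P.A j + 3 * P.C j * P.al j) * B := by
  have hal := hG.al_pos j
  obtain ⟨T, hT⟩ : ∃ T : Finset (List Fn), T = (heavy_finite hG j v hv).toFinset ∪
    (heavy_finite hG j v' hv').toFinset := ⟨_, rfl⟩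
  have hmT : ∀ t, t ∈ T ↔ Heavy P j v t ∨ Heavy P j v' t := by
    intro t
    rw [hT, Finset.mem_union, Set.Finite.mem_toFinset, Set.Finite.mem_toFinset]
    rfl
  rw [Fj_eq_sum hG j v hv T (fun t ht => (hmT t).2 (Or.inl ht)),
    Fj_eq_sum hG j v' hv' T (fun t ht => (hmT t).2 (Or.inr ht)), ← Finset.sum_sub_distrib]
  have hE : ∀ t ∈ T, P.code j t < N → ev (hd t) (cutv 0 (N + 1) z) = ev (hd t) z := by
    intro t ht hN
    have hne : t ≠ [] := by
      rcases (hmT t).1 ht with h | h
      · exact h.1.1.1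
      · exact h.1.1.1
    obtain ⟨g, p, rfl⟩ := List.exists_cons_of_ne_nil hne
    refine ev_congr _ _ _ fun i hi => ?_
    have h3 : blk i ≤ P.code j (g :: p) := blk_le_code P j g p i hi
    rw [cutv, if_pos]
    omega
  have hterm : ∀ t ∈ T, co P j v t * ev (hd t) (cutv 0 (N + 1) z) - co P j v' t * ev (hd t) z =
      (if P.code j t < N ∧ Heavy P j v t ∧ ¬ Heavy P j v' t then
        P.al j * v (P.code j t) * ev (hd t) z else 0) -
      (if P.code j t < N ∧ Heavy P j v' t ∧ ¬ Heavy P j v t then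
        P.al j * v' (P.code j t) * ev (hd t) z else 0) +
      (if N ≤ P.code j t then co P j v t * ev (hd t) (cutv 0 (N + 1) z) else 0) -
      (if N ≤ P.code j t then co P j v' t * ev (hd t) z else 0) := by
    intro t ht
    by_cases hN : P.code j t < N
    · rw [hE t ht hN, if_neg (not_le.2 hN), if_neg (not_le.2 hN)]
      have hvv := h1 _ hN
      by_cases ha : Heavy P j v t <;> by_cases hb : Heavy P j v' t <;>
        simp [co, ha, hb, hN, hvv]
    · rw [if_neg (fun h => hN h.1), if_neg (fun h => hN h.1), if_pos (not_lt.1 hN),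
        if_pos (not_lt.1 hN)]
      ring
  rw [Finset.sum_congr rfl hterm, Finset.sum_sub_distrib, Finset.sum_add_distrib,
    Finset.sum_sub_distrib, ← Finset.sum_filter, ← Finset.sum_filter, ← Finset.sum_filter,
    ← Finset.sum_filter]
  have i1 := part_light hG j N v v' hv h1 z B hz T
  have i2 := part_light hG j N v' v hv' (fun l hl => (h1 l hl).symm) z B hz T
  have i3 := part_high hG j N v hv z B hB hz T
  have i4 := part_small hG j N v' h2 z B hB hz T
  have hC : (1 : ℝ) ≤ P.C j := by exact_mod_cast hG.C_pos j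
  have hCB : P.al j * B ≤ P.C j * (P.al j * B) := by
    have : 0 ≤ P.al j * B := by positivity
    nlinarith
  generalize (∑ t ∈ T.filter (fun t => P.code j t < N ∧ Heavy P j v t ∧ ¬ Heavy P j v' t),
      P.al j * v (P.code j t) * ev (hd t) z) = x1 at i1 ⊢
  generalize (∑ t ∈ T.filter (fun t => P.code j t < N ∧ Heavy P j v' t ∧ ¬ Heavy P j v t),
      P.al j * v' (P.code j t) * ev (hd t) z) = x2 at i2 ⊢
  generalize (∑ t ∈ T.filter (fun t => N ≤ P.code j t),
    co P j v t * ev (hd t) (cutv 0 (N + 1) z)) = x3 at i3 ⊢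
  generalize (∑ t ∈ T.filter (fun t => N ≤ P.code j t), co P j v' t * ev (hd t) z) = x4 at i4 ⊢
  have h5 : |x1 - x2 + x3 - x4| ≤ |x1| + |x2| + |x3| + |x4| := by
    calc |x1 - x2 + x3 - x4| ≤ |x1 - x2 + x3| + |x4| := abs_sub _ _
      _ ≤ |x1 - x2| + |x3| + |x4| := by gcongr; exact abs_add_le _ _
      _ ≤ |x1| + |x2| + |x3| + |x4| := by gcongr; exact abs_sub _ _
  refine h5.trans ?_
  have h6 : (2 / P.A j + 3 * P.C j * P.al j) * B =
      B / P.A j + B / P.A j + P.C j * (P.al j * B) + 2 * (P.C j * (P.al j * B)) := by ring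
  rw [h6]
  linarith

end Pool.Agent.HI61
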