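import Pool.Agent.HI61.Chi
import Pool.Agent.HI61.QAlg
import Pool.Agent.HI61.CutCmp

/-!
# HI61/QBound : the projections are bounded

PROOF.  `B = pW w`; `N3` with the bound `6 B`.
`Kle (hat (Q_k w)) (4 B)`: by `hat_Qk`, `Kle_cutv` (bound `B`) and `Kle_hat` for the vector
`(0, single k (σ, 0))` (bound `q k (σ, 0) = max (p k σ) 0 ≤ 3 B`, `chi`).
Let `‖v‖ ≤ 1`, `v' = v ∘ R k`, `‖v'‖ ≤ 1` (`R_le`).  By `pos_Qk`
`|v (pos (Q_k w)) - v' (pos w)| = |v (R_k ι x_k - R_k R_k ι x_k)|`, `x_k = (w.2 k).1 = y + z + x'` (`p_rep`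
with any `η > 0`): `R_k ι x_k = ι y + R_k ι x'`, `R_k R_k ι x_k = ι y + R_k R_k ι x'`: at most `2 (B + η)`, so `≤ 2 B`.
`vs v'` versus `vs v`: for `l < k`, `b l ∈ Xk (l+1) ≤ Xk k`, so `R k (ι (b l)) = ι (b l)` and they agree; for
`l ≥ k`, `|v (R k (ι (b l)))| ≤ ‖R l (ι (b l))‖ ≤ (1/2)^l` (`R_lt`, `R_le`, `b_small` with `l := l`, `kap ≥ 1`).
For every `j`: `Fj (vs v) (hat (Q_k w)) - Fj (vs v') (hat w)
 = [Fj (vs v) (cutv 0 (k+1) (hat w)) - Fj (vs v') (hat w)] + Fj (vs v) (hat (0, single k (σ, 0)))`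
(`hat_Qk`, `Fj_add`); the first bracket is at most `(2 / A_j + 3 C_j al_j) B` (`cut_cmp` with `N = k`), the second
term at most `al_j C_j 3 B` (`Fj_l1`).  Sum over `j` (finitely many nonzero terms):
`∑ 2 / A_j ≤ 1` (`A_high` with `w = 0`: `A_j ≥ 2^(j+2)`), `∑ 6 C_j al_j ≤ 12 / 100` (`off`).  So at most `2 B`.
Total `|Th 0 v (Q_k w)| ≤ |Th 0 v' w| + 2 B + 2 B ≤ 5 B`.
-/

namespace Pool.Agent.HI61

open Finset
open scoped Classical

variable {X V : Type} [NormedAddCommGroup X] [NormedSpace ℝ X]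
  [NormedAddCommGroup V] [NormedSpace ℝ V]

private theorem geo' (J : ℕ) : ∑ l ∈ Ico 0 J, ((1 : ℝ) / 2) ^ l ≤ 2 := by
  rw [← Finset.range_eq_Ico]
  exact sum_geometric_two_le _

private theorem coef (H : Host X V) (j : ℕ) (B : ℝ) (hB : 0 ≤ B) :
    (2 / H.P.A j + 3 * H.P.C j * H.P.al j) * B + H.P.al j * H.P.C j * (3 * B) ≤
      (1 / 2) ^ j * B := by
  have hA : (1 : ℝ) ≤ H.P.A j := by exact_mod_cast H.good.A_pos j
  have hA' : (2 : ℝ) ^ (j + 2) ≤ H.P.A j := by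
    have h := H.good.A_high 0 j (Nat.zero_le _)
    have h2 : 2 ^ (j + 2) ≤ H.P.A j := (Nat.le_mul_of_pos_right _ (Nat.succ_pos _)).trans h
    exact_mod_cast h2
  have hC : (1 : ℝ) ≤ H.P.C j := by exact_mod_cast H.good.C_pos j
  have hal := H.good.al_pos j
  have hoff := H.good.off j
  have h1 : 2 / (H.P.A j : ℝ) ≤ 1 / 2 * (1 / 2) ^ j := by
    rw [div_le_iff₀ (by linarith)]
    calc (2 : ℝ) = 1 / 2 * (1 / 2) ^ j * 2 ^ (j + 2) := by
          rw [one_div, inv_pow, pow_add]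
          field_simp
      _ ≤ _ := mul_le_mul_of_nonneg_left hA' (by positivity)
  have h2 : H.P.C j * H.P.al j ≤ 1 / 100 * (1 / 2) ^ j := by
    have h3 : (H.P.C j : ℝ) * H.P.al j ≤ H.P.A j * (H.P.C j * H.P.al j) :=
      le_mul_of_one_le_left (by positivity) hA
    nlinarith
  have h4 : (2 / H.P.A j + 3 * H.P.C j * H.P.al j) * B + H.P.al j * H.P.C j * (3 * B) =
      (2 / H.P.A j + 6 * (H.P.C j * H.P.al j)) * B := by ring
  rw [h4]
  refine mul_le_mul_of_nonneg_right ?_ hB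
  have h5 : (0 : ℝ) ≤ (1 / 2) ^ j := by positivity
  linarith

theorem Q_bound (H : Host X V) (pW : Seminorm ℝ (W0 X)) (hN : H.IsNorm pW) (k : ℕ) (w : W0 X) :
    pW (Qk X k w) ≤ 6 * pW w := by
  obtain ⟨B, hBdef⟩ : ∃ B, B = pW w := ⟨_, rfl⟩
  have hK : Kle H.P (H.hat w) B := hBdef ▸ hN.N2 w
  have hB : 0 ≤ B := hBdef ▸ apply_nonneg _ _
  have hchi : H.F.p k (Host.sig' k w) ≤ 3 * B := hBdef ▸ chi H pW hN k w
  rw [← hBdef]
  obtain ⟨σ, hσ⟩ : ∃ σ, σ = Host.sig' k w := ⟨_, rfl⟩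
  obtain ⟨u, hu⟩ : ∃ u : W0 X, u = (0, Finsupp.single k (Host.sig' k w, 0)) := ⟨_, rfl⟩
  have hqk : H.q k (Host.sig' k w, 0) ≤ 3 * B := by
    unfold Host.q
    refine max_le hchi ?_
    show (H.pel k).pH 0 ≤ 3 * B
    rw [map_zero]
    positivity
  have hu2 : ∀ l, u.2 l = if k = l then ((Host.sig' k w, 0) : Eb X) else 0 := by
    intro l
    rw [hu, Finsupp.single_apply]
  have hqu : ∀ l, H.q l (u.2 l) ≤ if l = k then 3 * B else 0 := by
    intro l
    rw [hu2]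
    by_cases h : k = l
    · subst h
      rw [if_pos rfl, if_pos rfl]
      exact hqk
    · rw [if_neg h, if_neg (Ne.symm h), q_zero]
  have hKu : Kle H.P (H.hat u) (3 * B) := by
    intro f hf
    refine (Kle_hat H u f hf).trans ?_
    refine (Finset.sum_le_sum fun l _ => hqu l).trans ?_
    rw [Finset.sum_ite_eq']
    split_ifs
    · exact le_rfl
    · positivity
  have hhat : H.hat (Qk X k w) = fun i => cutv 0 (k + 1) (H.hat w) i + H.hat u i := by
    rw [hat_Qk, hu]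
  have hKQ : Kle H.P (H.hat (Qk X k w)) (4 * B) := by
    intro f hf
    rw [hhat, ev_add_right]
    refine (abs_add_le _ _).trans ?_
    have h1 := Kle_cutv H.good hK 0 (k + 1) f hf
    have h2 := hKu f hf
    linarith
  refine hN.N3 _ (6 * B) (by positivity) (fun v hv => ?_) (fun f hf => (hKQ f hf).trans (by linarith))
  -- the second functional
  obtain ⟨v', hv'⟩ : ∃ v' : V →L[ℝ] ℝ, v' = v.comp (H.F.R k) := ⟨_, rfl⟩
  have hv'ap : ∀ t, v' t = v (H.F.R k t) := fun t => by rw [hv']; rfl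
  have v_le : ∀ t, |v t| ≤ ‖t‖ := by
    intro t
    rw [← Real.norm_eq_abs]
    exact (v.le_opNorm t).trans (mul_le_of_le_one_left (norm_nonneg _) hv)
  have hv'1 : ‖v'‖ ≤ 1 := by
    refine ContinuousLinearMap.opNorm_le_bound _ zero_le_one fun t => ?_
    rw [hv'ap, one_mul, Real.norm_eq_abs]
    exact (v_le _).trans (H.F.R_le k t)
  have hTh' : |H.Th 0 v' w| ≤ B := hBdef ▸ hN.N1 w v' hv'1
  -- positions
  have hpos : |v (H.pos (Qk X k w)) - v' (H.pos w)| ≤ 2 * B := by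
    rw [pos_Qk, map_add, hv'ap, add_sub_cancel_left]
    refine (v_le _).trans ?_
    refine le_of_forall_pos_le_add fun δ hδ => ?_
    obtain ⟨y, hy, z, hz, hx'⟩ := p_rep H.F k (w.2 k).1 (δ / 2) (by positivity)
    obtain ⟨x', hx'def⟩ : ∃ x' : X, x' = (w.2 k).1 - y - z := ⟨_, rfl⟩
    rw [← hx'def] at hx'
    have hp := p_le_of_Kle H w B hK k
    have hx : (w.2 k).1 = y + z + x' := by rw [hx'def]; abel
    have hRx : H.F.R k (H.F.ι (w.2 k).1) = H.F.ι y + H.F.R k (H.F.ι x') := by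
      rw [hx, map_add, map_add, map_add, map_add, hz, H.F.Xk_fix k y hy k le_rfl, add_zero]
    have hRR : H.F.R k (H.F.R k (H.F.ι (w.2 k).1)) =
        H.F.ι y + H.F.R k (H.F.R k (H.F.ι x')) := by
      rw [hRx, map_add, H.F.Xk_fix k y hy k le_rfl]
    rw [hRR, hRx, add_sub_add_left_eq_sub]
    have n1 : ‖H.F.R k (H.F.ι x')‖ ≤ ‖x'‖ := (H.F.R_le k _).trans (H.F.ι.norm_map _).le
    have n2 : ‖H.F.R k (H.F.R k (H.F.ι x'))‖ ≤ ‖x'‖ := (H.F.R_le k _).trans n1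
    refine (norm_sub_le _ _).trans ?_
    linarith
  -- the sums
  obtain ⟨J, hJ⟩ : ∃ J, J = max k (w.2.support.sup id) := ⟨_, rfl⟩
  have e1 := Th_eq_sum H w v' J (fun l hl => by
    rw [hJ]; exact le_max_of_le_right (Finset.le_sup (f := id) hl)) 0
  have e2 := Th_eq_sum H (Qk X k w) v J (fun l hl => by
    by_contra hlt
    rw [hJ, not_le] at hlt
    have hkl : k < l := lt_of_le_of_lt (le_max_left _ _) hlt
    exact (Finsupp.mem_support_iff.mp hl) (Qk_snd_gt k l w hkl)) 0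
  have hvs1 : ∀ l < k, H.vs v' l = H.vs v l := by
    intro l hl
    show v' (H.F.ι (H.F.b l)) = v (H.F.ι (H.F.b l))
    rw [hv'ap, H.F.Xk_fix (l + 1) _ (H.F.b_mem l) k hl]
  have hvs2 : ∀ l, k ≤ l → |H.vs v' l| ≤ (1 / 2) ^ l := by
    intro l hl
    show |v' (H.F.ι (H.F.b l))| ≤ _
    rw [hv'ap]
    refine (v_le _).trans ?_
    have h1 : ‖H.F.R k (H.F.ι (H.F.b l))‖ ≤ ‖H.F.R l (H.F.ι (H.F.b l))‖ := by
      rcases hl.eq_or_lt with h | h
      · rw [h]
      · rw [← H.F.R_lt k l h]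
        exact H.F.R_le k _
    refine h1.trans (le_trans ?_ (H.F.b_small l k hl))
    exact le_mul_of_one_le_left (norm_nonneg _) (H.F.kap_ge k)
  have hterm : ∀ j, |Fj H.P j (H.vs v) (H.hat (Qk X k w)) - Fj H.P j (H.vs v') (H.hat w)| ≤
      (1 / 2) ^ j * B := by
    intro j
    refine le_trans ?_ (coef H j B hB)
    rw [hhat, Fj_add H.good j _ (vs_mem H v hv)]
    have c1 := cut_cmp H.good j k (H.vs v) (H.vs v') (vs_mem H v hv) (vs_mem H v' hv'1) hvs1 hvs2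
      (H.hat w) B hB hK
    have c2 : |Fj H.P j (H.vs v) (H.hat u)| ≤ H.P.al j * H.P.C j * (3 * B) := by
      have c3 := Fj_l1 H.good j (H.vs v) (vs_mem H v hv) (H.hat u)
        (fun l => if l = k then 3 * B else 0)
        (fun i => (hat_le H u i).trans (hqu _)) (k + 1) (fun i hi => by
          have hi' := hat_supp H u i hi
          rw [Finsupp.mem_support_iff, hu2] at hi'
          by_cases h : k = blk i
          · omega
          · rw [if_neg h] at hi'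
            exact absurd rfl hi')
      rw [Finset.sum_ite_eq', if_pos (Finset.mem_range.2 (Nat.lt_succ_self k))] at c3
      exact c3
    have c4 : Fj H.P j (H.vs v) (fun i => cutv 0 (k + 1) (H.hat w) i) =
      Fj H.P j (H.vs v) (cutv 0 (k + 1) (H.hat w)) := rfl
    rw [show Fj H.P j (H.vs v) (cutv 0 (k + 1) (H.hat w)) + Fj H.P j (H.vs v) (H.hat u) -
      Fj H.P j (H.vs v') (H.hat w) = (Fj H.P j (H.vs v) (cutv 0 (k + 1) (H.hat w)) -
      Fj H.P j (H.vs v') (H.hat w)) + Fj H.P j (H.vs v) (H.hat u) by ring]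
    exact (abs_add_le _ _).trans (add_le_add c1 c2)
  have hsum : |∑ j ∈ Ico 0 J, (Fj H.P j (H.vs v) (H.hat (Qk X k w)) -
      Fj H.P j (H.vs v') (H.hat w))| ≤ 2 * B := by
    refine (Finset.abs_sum_le_sum_abs _ _).trans ?_
    refine (Finset.sum_le_sum fun j _ => hterm j).trans ?_
    rw [← Finset.sum_mul]
    exact mul_le_mul_of_nonneg_right (geo' J) hB
  rw [Finset.sum_sub_distrib] at hsum
  have a1 := abs_le.1 hsum
  have a2 := abs_le.1 hpos
  have a3 := abs_le.1 hTh'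
  rw [abs_le]
  constructor <;> linarith [a1.1, a1.2, a2.1, a2.2, a3.1, a3.2]

end Pool.Agent.HI61
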