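import Pool.Agent.HI61.FrameP
import Pool.Agent.HI61.QAlg
import Pool.Agent.HI61.SingleB

/-!
# HI61/QConv : the projections converge to the identity

PROOF.  For `n` larger than the support, `sub_Qk`: `u = w - Q_n w = (x; -(x, 0) at n)`, `x = w.1`.
`pos u = ι x - R n (ι x)`, `q n (-(x, 0)) = p n x` (the second component is `0`).  By `pW_le`,
`pW u ≤ ‖ι x - R n (ι x)‖ + p n x`.  For `y ∈ Xk m` and `n ≥ m`: `R n (ι y) = ι y`, `p n y = 0`
(`Xk_mono`, `mem_N_of_Xk`), so `pW u ≤ 2 ‖x - y‖ + ‖x - y‖`.  `Xk_dense` (`Metric.tendsto`, `Dense.exists_dist_lt`).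
-/

namespace Pool.Agent.HI61

open Finset Filter Topology
open scoped Classical

variable {X V : Type} [NormedAddCommGroup X] [NormedSpace ℝ X]
  [NormedAddCommGroup V] [NormedSpace ℝ V]

theorem Q_conv (H : Host X V) (pW : Seminorm ℝ (W0 X)) (hN : H.IsNorm pW) (w : W0 X) :
    Tendsto (fun n => pW (w - Qk X n w)) atTop (𝓝 0) := by
  have key : ∀ (n m : ℕ) (y : X), (∀ l ∈ w.2.support, l < n) → y ∈ H.F.Xk m → m ≤ n →
      pW (w - Qk X n w) ≤ 3 * ‖w.1 - y‖ := by
    intro n m y hn hy hmn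
    rw [sub_Qk w n hn]
    refine (pW_le H pW hN _).trans ?_
    have hsup : (- Finsupp.single n ((w.1, 0) : Eb X)).support ⊆ {n} := by
      rw [Finsupp.support_neg]
      exact Finsupp.support_single_subset
    have hpos : H.pos ((w.1, - Finsupp.single n (w.1, 0)) : W0 X) =
        H.F.ι w.1 - H.F.R n (H.F.ι w.1) := by
      rw [pos_apply]
      dsimp only
      rw [← Finsupp.single_neg, Finsupp.sum_single_index (by simp)]
      simp [sub_eq_add_neg]
    have hyn : y ∈ H.F.Xk n := H.F.Xk_mono hmn hy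
    have hp0 : H.F.p n y = 0 := p_zero H.F n y (mem_N_of_Xk H.F n y hyn)
    have hp : H.F.p n w.1 ≤ ‖w.1 - y‖ := by
      have h1 : H.F.p n w.1 ≤ H.F.p n (w.1 - y) + H.F.p n y := by
        have := map_add_le_add (H.F.p n) (w.1 - y) y
        rwa [sub_add_cancel] at this
      have h2 := p_le H.F n (w.1 - y)
      linarith
    have hsum : ∑ k ∈ (- Finsupp.single n ((w.1, 0) : Eb X)).support,
        H.q k ((- Finsupp.single n ((w.1, 0) : Eb X)) k) ≤ ‖w.1 - y‖ := by
      refine (Finset.sum_le_sum_of_subset_of_nonneg hsup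
        (fun i _ _ => q_nonneg H i ((- Finsupp.single n ((w.1, 0) : Eb X)) i))).trans ?_
      rw [Finset.sum_singleton]
      simp only [Host.q, Finsupp.coe_neg, Pi.neg_apply, Finsupp.single_eq_same, Prod.neg_mk,
        neg_zero, map_neg_eq_map, map_zero]
      exact max_le hp (norm_nonneg _)
    have hR : H.F.R n (H.F.ι y) = H.F.ι y := H.F.Xk_fix m y hy n hmn
    have hn1 : ‖H.F.ι w.1 - H.F.R n (H.F.ι w.1)‖ ≤ 2 * ‖w.1 - y‖ := by
      have e1 : H.F.ι w.1 - H.F.R n (H.F.ι w.1) =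
          H.F.ι (w.1 - y) - H.F.R n (H.F.ι (w.1 - y)) := by
        rw [map_sub, map_sub, hR]
        abel
      rw [e1]
      have h2 := norm_sub_le (H.F.ι (w.1 - y)) (H.F.R n (H.F.ι (w.1 - y)))
      have h3 := H.F.R_le n (H.F.ι (w.1 - y))
      rw [LinearIsometry.norm_map] at h2 h3
      linarith
    rw [hpos]
    dsimp only
    linarith
  rw [Metric.tendsto_atTop]
  intro ε hε
  obtain ⟨y, hy, hdist⟩ := H.F.Xk_dense.exists_dist_lt w.1 (show (0 : ℝ) < ε / 3 by positivity)
  obtain ⟨m, hm⟩ := Set.mem_iUnion.1 hy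
  refine ⟨max m (w.2.support.sup id + 1), fun n hn => ?_⟩
  have h1 := key n m y (fun l hl => by
    have h2 : l ≤ w.2.support.sup id := Finset.le_sup (f := id) hl
    have h3 := (le_max_right m (w.2.support.sup id + 1)).trans hn
    omega) hm ((le_max_left _ _).trans hn)
  rw [dist_eq_norm] at hdist
  rw [Real.dist_eq, sub_zero, abs_of_nonneg (apply_nonneg pW _)]
  linarith

end Pool.Agent.HI61
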