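import Pool.Agent.HI61.WDefs3
import Pool.Agent.HI61.Compl
import Pool.Agent.HI61.QBound
import Pool.Agent.HI61.QConv
import Pool.Agent.HI61.BlockB

/-!
# HI61/CompEx : the completed space exists

PROOF.  `exists_completion` for `pW`; `Q k` from `extend_op` with `C = 6` (`Q_bound`).
`Q_comp`: equal on the dense range of `j` (`Qk_Qk`).  `Q_lim`: on `range j` from `Q_conv`; for general `x`
choose `w` with `‖x - j w‖ < ε`: `‖Q k x - x‖ ≤ 6 ε + ‖Q k (j w) - j w‖ + ε`.
`Q_range`: let `S_k` be that span; it is finite dimensional (finitely many generators), hence closed.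
For `w : W0 X`, `Qk k w = ∑_{l ≤ k} (Qk l w - Qk (l-1) w)` (`Qk (-1) = 0`) and by `diff_eb` each
difference is `eb l β_l` modulo a vector of norm zero, and `eb l β_l = ∑_{i ∈ supp} β_l i • eb l (single i 1)`
(`eb_add`, `eb_smul`).  So `Q k (j w) = j (Qk k w) ∈ S_k`; by density and continuity `Q k x ∈ closure S_k`.
-/

namespace Pool.Agent.HI61

variable {X V : Type} [NormedAddCommGroup X] [NormedSpace ℝ X]
  [NormedAddCommGroup V] [NormedSpace ℝ V]

open Finset Filter Topology

private theorem w_completion (p : Seminorm ℝ (W0 X)) :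
    ∃ (W : Type) (_ : NormedAddCommGroup W) (_ : NormedSpace ℝ W) (_ : CompleteSpace W)
      (j : W0 X →ₗ[ℝ] W), (∀ e, ‖j e‖ = p e) ∧ DenseRange j := by
  have h := @exists_completion (W0 X) inferInstance
    (by exact (inferInstance : Module ℝ (W0 X))) (by exact p)
  exact h

private theorem w_extend (p : Seminorm ℝ (W0 X)) {W : Type}
    [NormedAddCommGroup W] [NormedSpace ℝ W] [CompleteSpace W] (j : W0 X →ₗ[ℝ] W)
    (hj : ∀ e, ‖j e‖ = p e) (hd : DenseRange j) (T : W0 X →ₗ[ℝ] W0 X) (C : ℝ) (hC : 0 ≤ C)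
    (hT : ∀ e, p (T e) ≤ C * p e) :
    ∃ T' : W →L[ℝ] W, (∀ e, T' (j e) = j (T e)) ∧ ∀ w, ‖T' w‖ ≤ C * ‖w‖ := by
  have h := @extend_op (W0 X) inferInstance
    (by exact (inferInstance : Module ℝ (W0 X))) (by exact p) W _ _ _ (by exact j)
    (by exact hj) (by exact hd) (by exact T) C hC (by exact hT)
  exact h

private theorem j_sub {W : Type} [NormedAddCommGroup W] [NormedSpace ℝ W] (j : W0 X →ₗ[ℝ] W)
    (a b : W0 X) : j (a - b) = j a - j b := by
  have h : j (a - b) + j b = j a := by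
    rw [← map_add]
    exact congrArg j (sub_add_cancel a b)
  rw [← h, add_sub_cancel_right]

private theorem p_rev (p : Seminorm ℝ (W0 X)) (a b : W0 X) : p (a - b) = p (b - a) := by
  have h : p ((-1 : ℝ) • (b - a)) = ‖(-1 : ℝ)‖ * p (b - a) := map_smul_eq_mul p _ _
  have h2 : (-1 : ℝ) • (b - a) = a - b := by
    have h3 : (-1 : ℝ) • (b - a) = -(b - a) :=
      Prod.ext (neg_one_smul ℝ (b - a).1) (Finsupp.ext fun i => neg_one_smul ℝ ((b - a).2 i))
    rw [h3]
    exact neg_sub b a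
  rw [h2] at h
  rw [h, norm_neg, norm_one, one_mul]

theorem exists_comp (H : Host X V) (pW : Seminorm ℝ (W0 X)) (hN : H.IsNorm pW) :
    ∃ (W : Type) (_ : NormedAddCommGroup W) (_ : NormedSpace ℝ W) (_ : CompleteSpace W),
      Nonempty (Comp H pW W) := by
  obtain ⟨W, i1, i2, i3, j, hj, hd⟩ := w_completion pW
  have hQ : ∀ k, ∃ T' : W →L[ℝ] W, (∀ e, T' (j e) = j (Qk X k e)) ∧ ∀ w, ‖T' w‖ ≤ 6 * ‖w‖ :=
    fun k => w_extend pW j hj hd (Qk X k) 6 (by norm_num) (Q_bound H pW hN k)
  choose Q hQj hQle using hQ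
  have hj0 : ∀ e, pW e = 0 → j e = 0 := fun e he => by
    rw [← norm_eq_zero, hj, he]
  have hcomp : ∀ k l x, Q k (Q l x) = Q (min k l) x := by
    intro k l x
    have h := hd.equalizer ((Q k).continuous.comp (Q l).continuous) (Q (min k l)).continuous (by
      funext e
      simp only [Function.comp]
      rw [hQj, hQj, hQj, Qk_Qk])
    exact congrFun h x
  have hlim : ∀ x, Tendsto (fun k => Q k x) atTop (𝓝 x) := by
    intro x
    rw [Metric.tendsto_atTop]
    intro ε hε
    obtain ⟨e, he⟩ := Metric.denseRange_iff.1 hd x (ε / 14) (by positivity)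
    have h1 := Q_conv H pW hN e
    rw [Metric.tendsto_atTop] at h1
    obtain ⟨N, hN'⟩ := h1 (ε / 14) (by positivity)
    refine ⟨N, fun n hn => ?_⟩
    have h2 := hN' n hn
    rw [Real.dist_eq, sub_zero, abs_of_nonneg (apply_nonneg _ _)] at h2
    have h3 : Q n x - x = Q n (x - j e) + (j (Qk X n e - e) + (j e - x)) := by
      rw [map_sub, hQj, j_sub]
      abel
    have h4 : ‖j (Qk X n e - e)‖ < ε / 14 := by
      rw [hj, p_rev]
      exact h2
    have h5 : ‖x - j e‖ < ε / 14 := by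
      rw [← dist_eq_norm]
      exact he
    have h6 : ‖j e - x‖ < ε / 14 := by
      rw [norm_sub_rev]
      exact h5
    rw [dist_eq_norm, h3]
    have h7 := hQle n (x - j e)
    have h8 := norm_add_le (Q n (x - j e)) (j (Qk X n e - e) + (j e - x))
    have h9 := norm_add_le (j (Qk X n e - e)) (j e - x)
    linarith
  have hfin : ∀ k, ({y | ∃ l i, l ≤ k ∧ i < (H.pel l).n ∧
      y = j (H.eb l (Finsupp.single i 1))} : Set W).Finite := by
    intro k
    refine Set.Finite.subset (((Finset.range (k + 1)).sigma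
      (fun l => Finset.range (H.pel l).n)).finite_toSet.image
      (fun p : (Σ _ : ℕ, ℕ) => j (H.eb p.1 (Finsupp.single p.2 1)))) ?_
    rintro y ⟨l, i, hl, hi, rfl⟩
    refine ⟨⟨l, i⟩, ?_, rfl⟩
    simp only [Finset.coe_sigma, Finset.coe_range, Set.mem_sigma_iff, Set.mem_Iio]
    exact ⟨Nat.lt_succ_of_le hl, hi⟩
  have heb : ∀ (k l : ℕ) (β : ℕ →₀ ℝ), l ≤ k → (∀ i ∈ β.support, i < (H.pel l).n) →
      j (H.eb l β) ∈ Submodule.span ℝ
        {y | ∃ l i, l ≤ k ∧ i < (H.pel l).n ∧ y = j (H.eb l (Finsupp.single i 1))} := by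
    intro k l β hl hβ
    let ebL : (ℕ →₀ ℝ) →ₗ[ℝ] W0 X :=
      { toFun := H.eb l
        map_add' := eb_add H l
        map_smul' := eb_smul H l }
    have e1 : j (H.eb l β) = ∑ i ∈ β.support, β i • j (H.eb l (Finsupp.single i 1)) := by
      have e2 : β = ∑ i ∈ β.support, β i • Finsupp.single i (1 : ℝ) := by
        conv_lhs => rw [← Finsupp.sum_single β]
        refine Finset.sum_congr rfl fun i _ => ?_
        rw [Finsupp.smul_single, smul_eq_mul, mul_one]
      have e3 : j (ebL β) = j (ebL (∑ i ∈ β.support, β i • Finsupp.single i (1 : ℝ))) :=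
        congrArg (fun b => j (ebL b)) e2
      rw [map_sum, map_sum] at e3
      refine Eq.trans e3 (Finset.sum_congr rfl fun i _ => ?_)
      rw [map_smul, map_smul]
      rfl
    rw [e1]
    refine Submodule.sum_mem _ fun i hi => Submodule.smul_mem _ _ (Submodule.subset_span ?_)
    exact ⟨l, i, hl, hβ i hi, rfl⟩
  have hmono : ∀ k, Submodule.span ℝ
        {y | ∃ l i, l ≤ k ∧ i < (H.pel l).n ∧ y = j (H.eb l (Finsupp.single i 1))} ≤
      Submodule.span ℝ
        {y | ∃ l i, l ≤ k + 1 ∧ i < (H.pel l).n ∧ y = j (H.eb l (Finsupp.single i 1))} := by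
    intro k
    refine Submodule.span_mono ?_
    rintro y ⟨l, i, hl, hi, rfl⟩
    exact ⟨l, i, hl.trans (Nat.le_succ k), hi, rfl⟩
  have hmem : ∀ (k : ℕ) (e : W0 X), j (Qk X k e) ∈ Submodule.span ℝ
        {y | ∃ l i, l ≤ k ∧ i < (H.pel l).n ∧ y = j (H.eb l (Finsupp.single i 1))} := by
    intro k
    induction k with
    | zero =>
      intro e
      obtain ⟨β, hβ, hz⟩ := diff_eb H pW hN 0 e
      have h1 := hj0 _ hz
      rw [if_pos rfl, j_sub, j_sub, map_zero, sub_zero, sub_eq_zero] at h1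
      rw [h1]
      exact heb 0 0 β le_rfl hβ
    | succ k ih =>
      intro e
      obtain ⟨β, hβ, hz⟩ := diff_eb H pW hN (k + 1) e
      have h1 := hj0 _ hz
      rw [if_neg (Nat.succ_ne_zero k), j_sub, j_sub, sub_eq_zero, sub_eq_iff_eq_add] at h1
      rw [h1]
      refine Submodule.add_mem _ (heb (k + 1) (k + 1) β le_rfl hβ) (hmono k ?_)
      exact ih e
  have hrange : ∀ (k : ℕ) (x : W), Q k x ∈ Submodule.span ℝ
        {y | ∃ l i, l ≤ k ∧ i < (H.pel l).n ∧ y = j (H.eb l (Finsupp.single i 1))} := by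
    intro k x
    have : FiniteDimensional ℝ (Submodule.span ℝ
        {y | ∃ l i, l ≤ k ∧ i < (H.pel l).n ∧ y = j (H.eb l (Finsupp.single i 1))}) :=
      FiniteDimensional.span_of_finite ℝ (hfin k)
    have hcl : IsClosed ((Submodule.span ℝ
        {y | ∃ l i, l ≤ k ∧ i < (H.pel l).n ∧ y = j (H.eb l (Finsupp.single i 1))} :
          Submodule ℝ W) : Set W) := Submodule.closed_of_finiteDimensional _
    have h := hd.induction_on (p := fun x => Q k x ∈ Submodule.span ℝ
        {y | ∃ l i, l ≤ k ∧ i < (H.pel l).n ∧ y = j (H.eb l (Finsupp.single i 1))}) x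
      (hcl.preimage (Q k).continuous) (fun e => by
        rw [hQj]
        exact hmem k e)
    exact h
  exact ⟨W, i1, i2, i3, ⟨⟨j, hj, hd, Q, hQj, hQle, hcomp, hlim, hrange⟩⟩⟩

end Pool.Agent.HI61
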