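import Pool.Agent.HI61.OffBranch
import Pool.Agent.HI61.FBasic

/-!
# HI61/SpecF : the value of `F_j(v)` at the special vector

PROOF.  `comb z = be * x`, `x = lc (comb ∘ u) (range ℓ) 1` (`comb_smul`, `comb_sum`).  Let `T0` be the
finite set of the heavy nodes of `v`.  `Fj v x = ∑_{t ∈ T0} al v(code t) ev (hd t) x`.
ON the branch: `t = p (k+1)`, `hd t = g k`, `ev (g k) x = 1` (`on_one`).  So the on-branch part is
`al ∑_{k < ℓ, p (k+1) heavy} v (code (p (k+1)))`; it differs from `al ∑_{k < ℓ} v (code (p (k+1)))` by at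
most `al * th` (`light_tail` for the set of the non-heavy `p (k+1)`, chain `s = p ℓ`; `p_inj`).
OFF the branch: at most `al * C * 100`: cover the heavy set by the chains of `heavy_chains`,
`off_chain` with `a = 0` and `b` large (so `res a b (hd t) = hd t`), `VS_le`.
Multiply by `be`: `be * al = 1 / psi` (`al_pos, psi_pos`), error `(th + 100 C) / psi ≤ 1 / (j + 1)`
by `psi_big`.
-/

namespace Pool.Agent.HI61

open Finset
open scoped Classical

variable {P : Par} {Z : BSeq} {G : ℕ → (ℕ →₀ ℝ) → Prop} {j : ℕ}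

theorem spec_F (hG : Good P) (B : Branch P Z G j) (v : ℕ → ℝ) (hv : v ∈ P.VS) :
    |Fj P j v (Z.comb B.z) - 1 / P.psi j * ∑ k ∈ range (P.ell j), v (P.code j (B.p (k + 1)))| ≤
      1 / (j + 1) := by
  have hal := hG.al_pos j
  have hpsi := hG.psi_pos j
  obtain ⟨x, hx⟩ : ∃ x, x = lc (fun k => Z.comb (B.u k)) (range (P.ell j)) (fun _ => 1) :=
    ⟨_, rfl⟩
  have hz : Z.comb B.z = fun i => P.be j * x i := by
    unfold Branch.z
    rw [comb_smul, hx, ← comb_sum]
    simp only [one_smul]
  obtain ⟨T0, hT0⟩ : ∃ T0 : Finset (List Fn), ∀ t, t ∈ T0 ↔ Heavy P j v t :=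
    ⟨(heavy_finite hG j v hv).toFinset, fun t => by
      rw [Set.Finite.mem_toFinset, Set.mem_setOf_eq]⟩
  have hF : Fj P j v x = ∑ t ∈ T0, P.al j * v (P.code j t) * ev (hd t) x := by
    rw [Fj_eq_sum hG j v hv T0 (fun t ht => (hT0 t).2 ht)]
    refine Finset.sum_congr rfl fun t ht => ?_
    unfold co
    rw [if_pos ((hT0 t).1 ht)]
  -- the part off the branch
  obtain ⟨b, hb⟩ : ∃ b, ∀ t ∈ T0, res 0 b (hd t) = hd t := by
    refine ⟨T0.sup (fun t => (hd t).support.sup blk + 1), fun t ht => res_eq_self _ _ _ ?_⟩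
    intro i hi
    refine ⟨Nat.zero_le _, ?_⟩
    have h1 : blk i ≤ (hd t).support.sup blk := Finset.le_sup (f := blk) hi
    have h2 : (hd t).support.sup blk + 1 ≤ T0.sup (fun t => (hd t).support.sup blk + 1) :=
      Finset.le_sup (f := fun t : List Fn => (hd t).support.sup blk + 1) ht
    omega
  obtain ⟨S, hSc, -, hS⟩ := heavy_chains hG j v hv
  have hoff : ∑ t ∈ T0.filter (fun t => ¬ t <:+ B.p (P.ell j)), |ev (hd t) x| ≤ P.C j * 100 := by
    calc ∑ t ∈ T0.filter (fun t => ¬ t <:+ B.p (P.ell j)), |ev (hd t) x|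
        ≤ ∑ t ∈ T0.filter (fun t => ¬ t <:+ B.p (P.ell j)), ∑ s ∈ S,
            (if t <:+ s then |ev (hd t) x| else 0) := by
          refine Finset.sum_le_sum fun t ht => ?_
          rw [Finset.mem_filter] at ht
          obtain ⟨s, hs, hts⟩ := hS t ((hT0 t).1 ht.1)
          have h1 := Finset.single_le_sum (f := fun s => if t <:+ s then |ev (hd t) x| else 0)
            (s := S) (fun s _ => by
              show 0 ≤ if t <:+ s then |ev (hd t) x| else 0
              split_ifs
              · exact abs_nonneg _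
              · exact le_refl _) hs
          simp only [if_pos hts] at h1
          exact h1
      _ = ∑ s ∈ S, ∑ t ∈ T0.filter (fun t => ¬ t <:+ B.p (P.ell j)),
            (if t <:+ s then |ev (hd t) x| else 0) := Finset.sum_comm
      _ ≤ ∑ s ∈ S, (100 : ℝ) := by
          refine Finset.sum_le_sum fun s _ => ?_
          rw [← Finset.sum_filter, Finset.filter_filter]
          have h1 := off_chain hG B (range (P.ell j)) (fun _ h => h) (fun _ => 1)
            (fun _ => by simp) T0 (fun t ht => ((hT0 t).1 ht).1) 0 b s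
          refine le_trans (le_of_eq ?_) h1
          have e : T0.filter (fun t => ¬ t <:+ B.p (P.ell j) ∧ t <:+ s) =
              T0.filter (fun t => t <:+ s ∧ ¬ t <:+ B.p (P.ell j)) :=
            Finset.filter_congr fun t _ => and_comm
          rw [e]
          refine Finset.sum_congr rfl fun t ht => ?_
          rw [hb t (Finset.mem_filter.1 ht).1, hx]
      _ = S.card * 100 := by rw [Finset.sum_const, nsmul_eq_mul]
      _ ≤ P.C j * 100 := by
          have : (S.card : ℝ) ≤ P.C j := by exact_mod_cast hSc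
          linarith
  -- the part on the branch
  have hinj : Set.InjOn (fun k => B.p (k + 1)) (range (P.ell j) : Set ℕ) := by
    intro k _ k' _ h
    have := p_inj B h
    omega
  obtain ⟨Q, hQ⟩ : ∃ Q : Finset (List Fn), Q = (range (P.ell j)).image (fun k => B.p (k + 1)) :=
    ⟨_, rfl⟩
  have hQm : ∀ t, t ∈ Q ↔ ∃ k < P.ell j, t = B.p (k + 1) := by
    intro t
    rw [hQ, Finset.mem_image]
    constructor
    · rintro ⟨k, hk, rfl⟩
      exact ⟨k, Finset.mem_range.1 hk, rfl⟩
    · rintro ⟨k, hk, rfl⟩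
      exact ⟨k, Finset.mem_range.2 hk, rfl⟩
  have hQne : ∀ t ∈ Q, t ≠ [] := by
    intro t ht
    obtain ⟨k, -, rfl⟩ := (hQm t).1 ht
    rw [B.ps]
    exact List.cons_ne_nil _ _
  have hQs : ∀ t, t ≠ [] → (t ∈ Q ↔ t <:+ B.p (P.ell j)) := by
    intro t ht
    rw [hQm, on_iff B _ t ht]
  have hsumQ : ∑ k ∈ range (P.ell j), v (P.code j (B.p (k + 1))) = ∑ t ∈ Q, v (P.code j t) := by
    rw [hQ, Finset.sum_image hinj]
  have hon : ∑ t ∈ T0.filter (fun t => t <:+ B.p (P.ell j)),
      P.al j * v (P.code j t) * ev (hd t) x =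
      P.al j * ∑ t ∈ Q.filter (fun t => t ∈ T0), v (P.code j t) := by
    have e : T0.filter (fun t => t <:+ B.p (P.ell j)) = Q.filter (fun t => t ∈ T0) := by
      ext t
      rw [Finset.mem_filter, Finset.mem_filter]
      constructor
      · rintro ⟨h1, h2⟩
        exact ⟨(hQs t ((hT0 t).1 h1).1.1.1).2 h2, h1⟩
      · rintro ⟨h1, h2⟩
        exact ⟨h2, (hQs t (hQne t h1)).1 h1⟩
    rw [e, Finset.mul_sum]
    refine Finset.sum_congr rfl fun t ht => ?_
    obtain ⟨k, hk, rfl⟩ := (hQm t).1 (Finset.mem_filter.1 ht).1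
    have h1 : hd (B.p (k + 1)) = B.g k := by
      rw [B.ps]
      rfl
    rw [h1, hx, on_one hG B (range (P.ell j)) (fun _ h => h) (fun _ => 1) k
      (Finset.mem_range.2 hk), mul_one]
  have hlight : |∑ t ∈ Q.filter (fun t => t ∉ T0), v (P.code j t)| ≤ P.th j := by
    refine (Finset.abs_sum_le_sum_abs _ _).trans ?_
    have h1 := light_tail hG j v (Q.filter (fun t => t ∉ T0)) (fun t ht => by
      obtain ⟨k, hk, rfl⟩ := (hQm t).1 (Finset.mem_filter.1 ht).1
      exact B.tree k hk) (fun t ht h => (Finset.mem_filter.1 ht).2 ((hT0 t).2 h))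
      (B.p (P.ell j))
    rw [Finset.filter_true_of_mem (fun t ht => (hQs t (hQne t (Finset.mem_filter.1 ht).1)).1
      (Finset.mem_filter.1 ht).1)] at h1
    exact h1
  have hsplit : ∑ t ∈ Q, v (P.code j t) = ∑ t ∈ Q.filter (fun t => t ∈ T0), v (P.code j t) +
      ∑ t ∈ Q.filter (fun t => t ∉ T0), v (P.code j t) :=
    (Finset.sum_filter_add_sum_filter_not Q (fun t => t ∈ T0) _).symm
  have hF2 : Fj P j v x = ∑ t ∈ T0.filter (fun t => t <:+ B.p (P.ell j)),
      P.al j * v (P.code j t) * ev (hd t) x + ∑ t ∈ T0.filter (fun t => ¬ t <:+ B.p (P.ell j)),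
      P.al j * v (P.code j t) * ev (hd t) x := by
    rw [hF]
    exact (Finset.sum_filter_add_sum_filter_not T0 (fun t => t <:+ B.p (P.ell j)) _).symm
  have hoff2 : |∑ t ∈ T0.filter (fun t => ¬ t <:+ B.p (P.ell j)),
      P.al j * v (P.code j t) * ev (hd t) x| ≤ P.al j * (P.C j * 100) := by
    refine (Finset.abs_sum_le_sum_abs _ _).trans ?_
    refine le_trans ?_ (mul_le_mul_of_nonneg_left hoff hal.le)
    rw [Finset.mul_sum]
    refine Finset.sum_le_sum fun t _ => ?_
    rw [abs_mul, abs_mul, abs_of_pos hal]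
    have h1 := hG.VS_le v hv (P.code j t)
    have h2 := abs_nonneg (ev (hd t) x)
    have h3 : P.al j * |v (P.code j t)| ≤ P.al j * 1 := mul_le_mul_of_nonneg_left h1 hal.le
    calc P.al j * |v (P.code j t)| * |ev (hd t) x| ≤ P.al j * 1 * |ev (hd t) x| :=
          mul_le_mul_of_nonneg_right h3 h2
      _ = P.al j * |ev (hd t) x| := by rw [mul_one]
  have hmain : |Fj P j v x - P.al j * ∑ k ∈ range (P.ell j), v (P.code j (B.p (k + 1)))| ≤
      P.al j * (P.th j + 100 * P.C j) := by
    rw [hsumQ, hsplit, hF2, hon]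
    have e : ∀ a c d : ℝ, P.al j * a + c - P.al j * (a + d) = c - P.al j * d := fun a c d => by ring
    rw [e]
    refine (abs_sub _ _).trans ?_
    rw [abs_mul, abs_of_pos hal]
    have h1 := mul_le_mul_of_nonneg_left hlight hal.le
    linarith
  have hbe : P.be j * P.al j = 1 / P.psi j := by
    unfold Par.be
    field_simp
  have hbe0 : 0 < P.be j := by
    unfold Par.be
    positivity
  rw [hz, Fj_smul hG j v hv, ← hbe, mul_assoc, ← mul_sub, abs_mul, abs_of_pos hbe0]
  have h1 := mul_le_mul_of_nonneg_left hmain hbe0.le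
  refine h1.trans ?_
  rw [← mul_assoc, hbe, div_mul_eq_mul_div, one_mul, div_le_div_iff₀ hpsi (by positivity), one_mul]
  exact hG.psi_big j

end Pool.Agent.HI61
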