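import Pool.Agent.HI61.SpecLeaf
import Pool.Agent.HI61.BI

/-!
# HI61/SpecNorm : the special vector has a small norm

PROOF.  `comb z = be * lc x (range ℓ) 1` (`comb_smul`, `comb_sum` with `θ = 1`).  `BI` with
`Ex = {2 j + 1}`, `dl = dl j` (leaf bound: `spec_leaf`), `κ0 = 2 j + 2`, `k = k j`,
`Lm = Lam (2 j + 1)` (`Lam_L` for `κ < 2 j + 1`, `kj` and monotonicity of `e`): for `f ∈ K`
`|ev f (lc x (range ℓ) 1)| ≤ 98 (1 + (8 Lam)^k + ((1/2)^k + dl) ℓ^{1/r}) + 1`; now `eta`
(`be j ≥ 0` by `al_pos`, `psi_pos`).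
-/

namespace Pool.Agent.HI61

open Finset
open scoped Classical

variable {P : Par} {Z : BSeq} {G : ℕ → (ℕ →₀ ℝ) → Prop} {j : ℕ}

theorem spec_norm (hG : Good P) (B : Branch P Z G j) :
    Kle P (Z.comb B.z) (4 / ((j + 1) * (P.Bs j + 1))) := by
  intro f hf
  have hbe : 0 ≤ P.be j := by
    unfold Par.be
    have h1 := hG.al_pos j
    have h2 := hG.psi_pos j
    positivity
  have he : Monotone P.e := monotone_nat_of_le_succ fun κ => by
    have := hG.e_step κ
    omega
  have hz : Z.comb B.z = fun i => P.be j *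
      lc (fun k => Z.comb (B.u k)) (range (P.ell j)) (fun _ => 1) i := by
    unfold Branch.z
    rw [comb_smul]
    have h1 : ∑ t ∈ range (P.ell j), B.u t = ∑ t ∈ range (P.ell j), (1 : ℝ) • B.u t := by
      simp
    rw [h1, comb_sum Z B.u (range (P.ell j)) (fun _ => 1)]
  rw [hz, ev_smul_right, abs_mul, abs_of_nonneg hbe]
  have hb := BI hG B.ris {2 * j + 1} (P.dl j) (hG.dl_nonneg j)
    (by
      intro κ hκ f hf S hS θ hθ
      rw [Set.mem_singleton_iff] at hκ
      subst hκ
      exact spec_leaf hG B f hf S hS θ hθ)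
    (2 * j + 2) (P.k j) (P.Lam (2 * j + 1))
    (by
      have := hG.Lam_ge (2 * j + 1)
      omega)
    (by
      intro κ h1 h2
      rw [Set.mem_singleton_iff] at h2
      exact hG.Lam_L (2 * j + 1) κ (by omega))
    (by
      intro κ h1 _
      exact (hG.kj j).trans (he h1))
    f hf (range (P.ell j)) (subset_refl _) (fun _ => 1) (fun _ => by simp)
  rw [card_range] at hb
  have hd := B.δsum
  calc P.be j * |ev f (lc (fun k => Z.comb (B.u k)) (range (P.ell j)) fun _ => 1)|
      ≤ P.be j * (98 * (1 + (8 * (P.Lam (2 * j + 1) : ℝ)) ^ P.k j +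
        ((1 / 2) ^ P.k j + P.dl j) * (P.ell j : ℝ) ^ (1 / P.r)) + 1) := by
        refine mul_le_mul_of_nonneg_left ?_ hbe
        linarith
    _ ≤ _ := hG.eta j

end Pool.Agent.HI61
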