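import Pool.Agent.HI61.HighP
import Pool.Agent.HI61.Chain
import Pool.Agent.HI61.SpecNorm
import Pool.Agent.HI61.SpecF

/-!
# HI61/Contra : there is no far sequence

PROOF.  Let `G w a` be the property in `high`, `w0` from `high`.  Let `j ≥ w0` (so `W j ≥ w0`, `W_ge`) and `Bz` a
branch of level `j` (`exists_branch`).  `ℓ = ell j`, `w_t = sig j (p t) ≥ W j ≥ j + 1`, `y = T0 z Bz.z = be ∑_t T0 z (u_t)`.
(a) By `spec_norm` and `far`: `pW y ≤ CZ * 4 / (j + 1)` (`Bs ≥ 0`).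
(b) Let `‖v‖ ≤ 1`.  `Th 0 v y = Fj j (vs v) (hat y) + ∑_{i<j} Fj i (vs v) (hat y) + be ∑_{t<ℓ} Th (j+1) v (T0 z u_t)`
(`Th_split`, `Th_sum`).
 * `i < j`: `Fj_crude`: `∑_{i<j} ell i * 4 / ((j+1) (Bs j + 1)) ≤ 4 / (j + 1)`.
 * `Th (j+1) v (T0 z u_t) = Th w_t v (T0 z u_t) + ∑_{j<i<w_t} Fj i (vs v) (hat (T0 z u_t))`.  By `dec`, `u_t = c ∑_{k<L} x_k`
   with `|c| ≤ 2 M / L^{1/r}`, `L = L (2 w_t)`, `M = M (2 w_t)` and `|Th w_t v (T0 z x_k)| ≤ 1/L^2`: the first term is at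
   most `2 (M / L^{1/r}) / L ≤ 2 / L ≤ 2 / M (2 W j)` (`Lreg`: `L ≥ L^{1/r} ≥ M`; monotonicity).  Times `be ℓ`:
   `≤ 1 / (j + 1)` (`W2`).
   `Fj_plus` for `j < i < w_t`: `KS P (2 i + 1) (comb u_t) 98` is `R2` (`2 i + 1 < 2 w_t = lo t`):
   `|Fj i| ≤ 98 / (A i M (2i+1)) ≤ 98 / A i`; times `be ℓ`, by `A_next`, `≤ (1/2)^i / (j + 1)`, sum over `i > j`: `≤ 1 / (j+1)`.
 * `Fj j (vs v) (hat y)` differs from `(1/psi) ∑_k vs v (code j (p (k+1)))` by at most `1 / (j+1)` (`spec_F`, `vs_mem`).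
 So `|Th 0 v y - (1/psi) ∑_{k<ℓ} vs v (code j (p (k+1)))| ≤ 7 / (j + 1)`.
(c) The set `D = {code j (p (k+1)) | k < ℓ}` has `ℓ` elements (`code_inj`, `p_inj`), all `≥ base j`; `low` gives `v0 ∈ VS`
with `psi ≤ 16 ∑_D v0`; `v0 k = f (b k)`, `‖f‖ ≤ 1` (`hVS`); extend `f` to `v` on `V` with `v ∘ ι = f`, `‖v‖ ≤ 1`
(Hahn-Banach, `Real.exists_extension_norm_eq`).  Then `vs v = v0` and `Th 0 v y ≥ 1/16 - 7/(j+1)`, while
`Th 0 v y ≤ pW y ≤ 4 CZ / (j+1)` (`N1`).  For `j` large this is a contradiction.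
-/

namespace Pool.Agent.HI61

open Finset
open scoped Classical

variable {X V : Type} [NormedAddCommGroup X] [NormedSpace ℝ X]
  [NormedAddCommGroup V] [NormedSpace ℝ V]

private theorem ct_ext (F : Frame X V) (f : X →L[ℝ] ℝ) (hf : ‖f‖ ≤ 1) :
    ∃ v : V →L[ℝ] ℝ, ‖v‖ ≤ 1 ∧ ∀ x, v (F.ι x) = f x := by
  obtain ⟨g, hg⟩ : ∃ g : (LinearMap.range F.ι.toLinearMap) →L[ℝ] ℝ,
      g = f.comp (F.ι.equivRange.symm.toContinuousLinearEquiv : _ →L[ℝ] X) := ⟨_, rfl⟩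
  obtain ⟨v, hv1, hv2⟩ := exists_extension_norm_eq _ g
  refine ⟨v, ?_, fun x => ?_⟩
  · rw [hv2]
    refine ContinuousLinearMap.opNorm_le_bound _ zero_le_one fun y => ?_
    rw [hg]
    change ‖f (F.ι.equivRange.symm y)‖ ≤ 1 * ‖y‖
    refine (f.le_opNorm _).trans ?_
    rw [LinearIsometryEquiv.norm_map]
    exact mul_le_mul_of_nonneg_right hf (norm_nonneg _)
  · have h1 := hv1 (F.ι.equivRange x)
    have h2 : ((F.ι.equivRange x : LinearMap.range F.ι.toLinearMap) : V) = F.ι x := rfl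
    rw [h2] at h1
    rw [h1, hg]
    change f (F.ι.equivRange.symm (F.ι.equivRange x)) = f x
    rw [LinearIsometryEquiv.symm_apply_apply]

private theorem ct_T0 (z : ℕ → W0 X) (c : ℝ) (S : Finset ℕ) (u : ℕ → (ℕ →₀ ℝ)) :
    T0 z (c • ∑ t ∈ S, u t) = ∑ t ∈ S, c • T0 z (u t) := by
  have h1 : ∀ a : ℕ →₀ ℝ, T0 z a = Finsupp.linearCombination ℝ z a := fun a => rfl
  rw [h1, map_smul, map_sum]
  exact Finset.smul_sum (r := c) (f := fun t => T0 z (u t)) (s := S)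

private theorem ct_e_mono {P : Par} (hG : Good P) : Monotone P.e :=
  monotone_nat_of_le_succ fun κ => by
    have := hG.e_step κ
    omega

private theorem ct_M_mono {P : Par} (hG : Good P) {a b : ℕ} (h : a ≤ b) : P.M a ≤ P.M b := by
  unfold Par.M
  exact Nat.mul_le_mul_left _ (Nat.pow_le_pow_right (by norm_num) (ct_e_mono hG h))

private theorem ct_M_pos (P : Par) (κ : ℕ) : (0 : ℝ) < P.M κ := by
  have : 0 < P.M κ := by unfold Par.M; positivity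
  exact_mod_cast this

private theorem ct_M_le {P : Par} (hG : Good P) (w : ℕ) :
    (P.M (2 * w) : ℝ) ≤ (P.L (2 * w) : ℝ) ^ (1 / P.r) := by
  have h1 := hG.Lreg w
  have h2 := ct_M_pos P (2 * w)
  have h3 : (0 : ℝ) ≤ 6 * (3 + (8 * (P.Lam (2 * w) : ℝ)) ^ P.e (2 * w)) * P.Lam (2 * w) := by
    positivity
  nlinarith

private theorem ct_rpow_le {P : Par} (hG : Good P) (κ : ℕ) :
    (P.L κ : ℝ) ^ (1 / P.r) ≤ P.L κ := by
  have h1 : (1 : ℝ) ≤ P.L κ := by exact_mod_cast hG.L_pos κ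
  have h2 : 1 / P.r ≤ 1 := by
    have := hG.q1
    unfold Par.r
    rw [div_le_one (by linarith)]
    linarith
  calc (P.L κ : ℝ) ^ (1 / P.r) ≤ (P.L κ : ℝ) ^ (1 : ℝ) := Real.rpow_le_rpow_of_exponent_le h1 h2
    _ = P.L κ := Real.rpow_one _

private theorem ct_dec {H : Host X V} {pW : Seminorm ℝ (W0 X)} (Fs : FarSeq H pW) (j w : ℕ)
    (hw : H.P.W j ≤ w) (G : (ℕ →₀ ℝ) → Prop) (v : V →L[ℝ] ℝ) (hv : ‖v‖ ≤ 1)
    (hGd : ∀ a, G a → |H.Th w v (T0 Fs.z a)| ≤ 1 / (H.P.L (2 * w) : ℝ) ^ 2)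
    (u : ℕ →₀ ℝ) (hu : Dec H.P G w 2 u) :
    |H.Th w v (T0 Fs.z u)| ≤ 2 / H.P.M (2 * H.P.W j) := by
  obtain ⟨x, c, hc, hx, rfl⟩ := hu
  rw [ct_T0, Th_sum H w v hv]
  have hL1 : (1 : ℝ) ≤ H.P.L (2 * w) := by exact_mod_cast H.good.L_pos (2 * w)
  have hM := ct_M_le H.good w
  have hM0 := ct_M_pos H.P (2 * w)
  have hLr := ct_rpow_le H.good (2 * w)
  have hc2 : |c| ≤ 2 := by
    refine hc.trans ?_
    have : (H.P.M (2 * w) : ℝ) / (H.P.L (2 * w) : ℝ) ^ (1 / H.P.r) ≤ 1 := by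
      rw [div_le_one (lt_of_lt_of_le hM0 hM)]
      exact hM
    linarith
  have h1 : |∑ k ∈ range (H.P.L (2 * w)), c * H.Th w v (T0 Fs.z (x k))| ≤
      ∑ k ∈ range (H.P.L (2 * w)), 2 * (1 / (H.P.L (2 * w) : ℝ) ^ 2) := by
    refine (Finset.abs_sum_le_sum_abs _ _).trans (Finset.sum_le_sum fun k hk => ?_)
    rw [abs_mul]
    exact mul_le_mul hc2 (hGd _ (hx k (Finset.mem_range.1 hk))) (abs_nonneg _) (by norm_num)
  refine h1.trans ?_
  rw [Finset.sum_const, Finset.card_range, nsmul_eq_mul]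
  have hMW : (H.P.M (2 * H.P.W j) : ℝ) ≤ H.P.M (2 * w) := by
    exact_mod_cast ct_M_mono H.good (by omega : 2 * H.P.W j ≤ 2 * w)
  have hMW0 := ct_M_pos H.P (2 * H.P.W j)
  have e1 : (H.P.L (2 * w) : ℝ) * (2 * (1 / (H.P.L (2 * w) : ℝ) ^ 2)) = 2 / H.P.L (2 * w) := by
    field_simp
  rw [e1]
  exact div_le_div_of_nonneg_left (by norm_num) hMW0 (by linarith)

private theorem ct_geo (j n : ℕ) : ∑ i ∈ Ico (j + 1) n, ((1 : ℝ) / 2) ^ i ≤ 1 := by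
  have h1 : ∀ m, ∑ i ∈ Ico 1 m, ((1 : ℝ) / 2) ^ i ≤ 1 - (1 / 2) ^ (m - 1) := by
    intro m
    induction m with
    | zero => simp
    | succ m ih =>
      rcases Nat.eq_zero_or_pos m with rfl | hm
      · simp
      · rw [Finset.sum_Ico_succ_top hm]
        obtain ⟨k, rfl⟩ : ∃ k, m = k + 1 := ⟨m - 1, by omega⟩
        simp only [Nat.add_sub_cancel] at ih ⊢
        rw [pow_succ]
        linarith
  calc ∑ i ∈ Ico (j + 1) n, ((1 : ℝ) / 2) ^ i ≤ ∑ i ∈ Ico 1 n, ((1 : ℝ) / 2) ^ i := by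
        refine Finset.sum_le_sum_of_subset_of_nonneg ?_ fun i _ _ => by positivity
        intro i hi
        rw [Finset.mem_Ico] at hi ⊢
        omega
    _ ≤ 1 - (1 / 2) ^ (n - 1) := h1 n
    _ ≤ 1 := by
        have : (0 : ℝ) ≤ (1 / 2) ^ (n - 1) := by positivity
        linarith

private theorem ct_main {H : Host X V} {pW : Seminorm ℝ (W0 X)} (Fs : FarSeq H pW) (j : ℕ)
    (G : ℕ → (ℕ →₀ ℝ) → Prop)
    (hGd : ∀ w a, G w a → ∀ v : V →L[ℝ] ℝ, ‖v‖ ≤ 1 →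
      |H.Th w v (T0 Fs.z a)| ≤ 1 / (H.P.L (2 * w) : ℝ) ^ 2)
    (B : Branch H.P Fs.toB G j) (v : V →L[ℝ] ℝ) (hv : ‖v‖ ≤ 1) :
    |H.Th 0 v (T0 Fs.z B.z) -
      1 / H.P.psi j * ∑ k ∈ range (H.P.ell j), H.vs v (H.P.code j (B.p (k + 1)))| ≤
      7 / ((j : ℝ) + 1) := by
  have hG := H.good
  have hbe : 0 ≤ H.P.be j := by
    unfold Par.be
    have h1 := hG.al_pos j
    have h2 := hG.psi_pos j
    positivity
  have hj1 : (0 : ℝ) < (j : ℝ) + 1 := by positivity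
  have hvs := vs_mem H v hv
  have hspec := spec_F hG B (H.vs v) hvs
  have hnorm := spec_norm hG B
  rw [toB_comb] at hspec hnorm
  -- the terms below `j`
  have hA : |∑ i ∈ Ico 0 j, Fj H.P i (H.vs v) (H.hat (T0 Fs.z B.z))| ≤ 4 / ((j : ℝ) + 1) := by
    refine (Finset.abs_sum_le_sum_abs _ _).trans ?_
    refine (Finset.sum_le_sum fun i _ => Fj_crude hG i (H.vs v) hvs _ _ hnorm).trans ?_
    rw [← Finset.sum_mul, ← Finset.range_eq_Ico, ← Nat.cast_sum]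
    change ((H.P.Bs j : ℕ) : ℝ) * _ ≤ _
    have hB0 : (0 : ℝ) ≤ H.P.Bs j := Nat.cast_nonneg _
    rw [mul_div_assoc', div_le_div_iff₀ (by positivity) hj1]
    nlinarith
  -- the terms above `j`
  have hC : ∀ t ∈ range (H.P.ell j), |H.Th (j + 1) v (T0 Fs.z (B.u t))| ≤
      2 / H.P.M (2 * H.P.W j) + ∑ i ∈ Ico (j + 1) (H.P.sig j (B.p t)), 98 / (H.P.A i : ℝ) := by
    intro t ht
    have ht := Finset.mem_range.1 ht
    have hwt : H.P.W j ≤ H.P.sig j (B.p t) := W_le_sig H.P j (B.p t)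
    have hWj := hG.W_ge j
    rw [Th_split H _ v (j + 1) (H.P.sig j (B.p t)) (hWj.trans hwt)]
    refine (abs_add_le _ _).trans (add_le_add ?_ ?_)
    · exact ct_dec Fs j _ hwt (G (H.P.sig j (B.p t))) v hv (fun a ha => hGd _ a ha v hv) _
        (B.dec t ht)
    · refine (Finset.abs_sum_le_sum_abs _ _).trans (Finset.sum_le_sum fun i hi => ?_)
      rw [Finset.mem_Ico] at hi
      have hKS := B.ris.R2 t ht (2 * i + 1) (by omega)
      simp only [toB_comb] at hKS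
      have h1 := Fj_plus hG i (H.vs v) hvs _ 98 hKS
      have hA0 : (0 : ℝ) < H.P.A i := by
        have := hG.A_pos i
        exact_mod_cast (by omega : 0 < H.P.A i)
      have hM1 : (1 : ℝ) ≤ H.P.M (2 * i + 1) := by
        have : 1 ≤ H.P.M (2 * i + 1) := by
          unfold Par.M
          have := Nat.one_le_two_pow (n := H.P.e (2 * i + 1))
          omega
        exact_mod_cast this
      rw [le_div_iff₀ hA0, mul_comm]
      refine h1.trans ?_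
      rw [div_le_iff₀ (by linarith)]
      linarith
  have hD : |H.Th (j + 1) v (T0 Fs.z B.z)| ≤ 2 / ((j : ℝ) + 1) := by
    unfold Branch.z
    rw [ct_T0, Th_sum H (j + 1) v hv, ← Finset.mul_sum, abs_mul, abs_of_nonneg hbe]
    have h1 : |∑ t ∈ range (H.P.ell j), H.Th (j + 1) v (T0 Fs.z (B.u t))| ≤
        ∑ t ∈ range (H.P.ell j), (2 / H.P.M (2 * H.P.W j) +
          ∑ i ∈ Ico (j + 1) (H.P.sig j (B.p t)), 98 / (H.P.A i : ℝ)) :=
      (Finset.abs_sum_le_sum_abs _ _).trans (Finset.sum_le_sum hC)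
    obtain ⟨n, hn⟩ : ∃ n, ∀ t ∈ range (H.P.ell j), H.P.sig j (B.p t) ≤ n :=
      ⟨(range (H.P.ell j)).sup (fun t => H.P.sig j (B.p t)), fun t ht =>
        Finset.le_sup (f := fun t => H.P.sig j (B.p t)) ht⟩
    have h2 : ∑ t ∈ range (H.P.ell j), (2 / (H.P.M (2 * H.P.W j) : ℝ) +
          ∑ i ∈ Ico (j + 1) (H.P.sig j (B.p t)), 98 / (H.P.A i : ℝ)) ≤
        ∑ t ∈ range (H.P.ell j), (2 / (H.P.M (2 * H.P.W j) : ℝ) +
          ∑ i ∈ Ico (j + 1) n, 98 / (H.P.A i : ℝ)) := by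
      refine Finset.sum_le_sum fun t ht => ?_
      have : ∑ i ∈ Ico (j + 1) (H.P.sig j (B.p t)), 98 / (H.P.A i : ℝ) ≤
          ∑ i ∈ Ico (j + 1) n, 98 / (H.P.A i : ℝ) :=
        Finset.sum_le_sum_of_subset_of_nonneg
          (Finset.Ico_subset_Ico (le_refl _) (hn t ht)) fun i _ _ => by positivity
      linarith
    rw [Finset.sum_const, Finset.card_range, nsmul_eq_mul] at h2
    refine (mul_le_mul_of_nonneg_left (h1.trans h2) hbe).trans ?_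
    have e : H.P.be j * ((H.P.ell j : ℝ) * (2 / (H.P.M (2 * H.P.W j) : ℝ) +
        ∑ i ∈ Ico (j + 1) n, 98 / (H.P.A i : ℝ))) =
        2 * (H.P.be j * H.P.ell j) / (H.P.M (2 * H.P.W j) : ℝ) +
        ∑ i ∈ Ico (j + 1) n, 98 * (H.P.be j * H.P.ell j) / (H.P.A i : ℝ) := by
      have e2 : ∑ i ∈ Ico (j + 1) n, 98 * (H.P.be j * H.P.ell j) / (H.P.A i : ℝ) =
          (H.P.be j * H.P.ell j) * ∑ i ∈ Ico (j + 1) n, 98 / (H.P.A i : ℝ) := by
        rw [Finset.mul_sum]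
        exact Finset.sum_congr rfl fun i _ => by ring
      rw [e2]
      ring
    rw [e]
    have h3 : 2 * (H.P.be j * H.P.ell j) / (H.P.M (2 * H.P.W j) : ℝ) ≤ 1 / ((j : ℝ) + 1) := by
      rw [div_le_div_iff₀ (ct_M_pos _ _) hj1]
      have := hG.W2 j
      linarith
    have h4 : ∑ i ∈ Ico (j + 1) n, 98 * (H.P.be j * H.P.ell j) / (H.P.A i : ℝ) ≤
        1 / ((j : ℝ) + 1) := by
      have h5 : ∑ i ∈ Ico (j + 1) n, 98 * (H.P.be j * H.P.ell j) / (H.P.A i : ℝ) ≤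
          ∑ i ∈ Ico (j + 1) n, (1 / ((j : ℝ) + 1)) * ((1 : ℝ) / 2) ^ i := by
        refine Finset.sum_le_sum fun i hi => ?_
        rw [Finset.mem_Ico] at hi
        have hA0 : (0 : ℝ) < H.P.A i := by
          have := hG.A_pos i
          exact_mod_cast (by omega : 0 < H.P.A i)
        have h6 := hG.A_next j i (by omega)
        have h7 : (1 / ((j : ℝ) + 1)) * ((1 : ℝ) / 2) ^ i = 1 / (2 ^ i * ((j : ℝ) + 1)) := by
          rw [one_div_pow]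
          field_simp
        rw [h7, div_le_div_iff₀ hA0 (by positivity)]
        linarith
      rw [← Finset.mul_sum] at h5
      have h8 := ct_geo j n
      have h9 : (1 / ((j : ℝ) + 1)) * ∑ i ∈ Ico (j + 1) n, ((1 : ℝ) / 2) ^ i ≤
          (1 / ((j : ℝ) + 1)) * 1 := mul_le_mul_of_nonneg_left h8 (by positivity)
      linarith
    have e3 : (2 : ℝ) / ((j : ℝ) + 1) = 1 / ((j : ℝ) + 1) + 1 / ((j : ℝ) + 1) := by ring
    rw [e3]
    exact add_le_add h3 h4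
  rw [Th_split H _ v 0 j (Nat.zero_le _), Th_split H _ v j (j + 1) (Nat.le_succ _)]
  rw [Finset.sum_Ico_succ_top (le_refl j), Finset.Ico_self, Finset.sum_empty, zero_add]
  rw [abs_le] at hA hD hspec ⊢
  have e4 : (7 : ℝ) / ((j : ℝ) + 1) = 4 / ((j : ℝ) + 1) + 2 / ((j : ℝ) + 1) + 1 / ((j : ℝ) + 1) := by
    ring
  rw [e4]
  constructor <;> linarith [hA.1, hA.2, hD.1, hD.2, hspec.1, hspec.2]

theorem no_farSeq {H : Host X V} (hrefl : Reflexive' X) {pW : Seminorm ℝ (W0 X)}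
    (hN : H.IsNorm pW) (c0 : ℝ) (hc0 : 0 < c0) (hcot : SignCotype X H.P.q c0) (Ct : ℝ)
    (hCt : 1 ≤ Ct) (hCt2 : 38 / c0 ≤ Ct)
    (hnst : ∀ w : ℕ, (Ct * (H.P.L (2 * w) : ℝ) ^ 2 * (w + H.P.Bs w + 2)) ^ H.P.r ≤ H.P.nst w)
    (Fs : FarSeq H pW) : False := by
  have hG := H.good
  obtain ⟨w0, hw0⟩ := high hrefl hN Fs c0 hc0 hcot Ct hCt hCt2 hnst
  obtain ⟨G, hGdef⟩ : ∃ G : ℕ → (ℕ →₀ ℝ) → Prop, G = fun w a => ∀ v : V →L[ℝ] ℝ, ‖v‖ ≤ 1 →
    |H.Th w v (T0 Fs.z a)| ≤ 1 / (H.P.L (2 * w) : ℝ) ^ 2 := ⟨_, rfl⟩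
  obtain ⟨j0, hj0⟩ := exists_nat_gt (16 * (7 + 4 * Fs.CZ))
  obtain ⟨j, hj⟩ : ∃ j, j = max w0 j0 := ⟨_, rfl⟩
  have hjw : w0 ≤ j := by rw [hj]; exact le_max_left _ _
  have hjj : (j0 : ℝ) ≤ j := by rw [hj]; exact_mod_cast le_max_right _ _
  have hS : ∀ w, H.P.W j ≤ w → Supply H.P Fs.toB (G w) := by
    intro w hw
    have h1 := hG.W_ge j
    rw [hGdef]
    exact hw0 w (by omega)
  obtain ⟨B⟩ := exists_branch hG Fs.toB j G hS
  have hj1 : (0 : ℝ) < (j : ℝ) + 1 := by positivity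
  -- the chain of codes
  have hinj : Function.Injective (fun k => H.P.code j (B.p (k + 1))) := by
    intro a b hab
    have h1 := p_inj B (code_inj H.P j hab)
    omega
  obtain ⟨v0, hv0, hlow⟩ := hG.low j
    ((range (H.P.ell j)).image (fun k => H.P.code j (B.p (k + 1))))
    (by rw [Finset.card_image_of_injective _ hinj, Finset.card_range])
    (by
      intro k hk
      rw [Finset.mem_image] at hk
      obtain ⟨a, _, rfl⟩ := hk
      exact base_le_code H.P j _)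
  rw [Finset.sum_image (fun a _ b _ h => hinj h)] at hlow
  rw [H.hVS] at hv0
  obtain ⟨f, hf, rfl⟩ := hv0
  obtain ⟨v, hv, hvf⟩ := ct_ext H.F f hf
  have hvs : H.vs v = fun k => f (H.F.b k) := by
    funext k
    exact hvf _
  have hmain := ct_main Fs j G (fun w a ha v hv => by
    rw [hGdef] at ha
    exact ha v hv) B v hv
  rw [hvs] at hmain
  have hN1 := hN.N1 (T0 Fs.z B.z) v hv
  have hK := spec_norm hG B
  rw [toB_comb] at hK
  have hfar := Fs.far B.z _ (by positivity) hK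
  have hCZ : 0 < Fs.CZ := lt_of_lt_of_le one_pos Fs.CZ1
  have hfar2 : Fs.CZ * (4 / (((j : ℝ) + 1) * ((H.P.Bs j : ℝ) + 1))) ≤ 4 * Fs.CZ / ((j : ℝ) + 1) := by
    rw [mul_div_assoc', div_le_div_iff₀ (by positivity) hj1]
    have hB0 : (0 : ℝ) ≤ H.P.Bs j := Nat.cast_nonneg _
    nlinarith [mul_nonneg (mul_nonneg hCZ.le hj1.le) hB0]
  have hpsi := hG.psi_pos j
  have h16 : (1 : ℝ) / 16 ≤ 1 / H.P.psi j *
      ∑ k ∈ range (H.P.ell j), f (H.F.b (H.P.code j (B.p (k + 1)))) := by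
    rw [one_div_mul_eq_div, div_le_div_iff₀ (by norm_num) hpsi]
    linarith
  rw [abs_le] at hmain hN1
  have h7 : (1 : ℝ) / 16 - 7 / ((j : ℝ) + 1) ≤ 4 * Fs.CZ / ((j : ℝ) + 1) := by
    linarith [hmain.1, hN1.2]
  have h8 : (1 : ℝ) / 16 ≤ (7 + 4 * Fs.CZ) / ((j : ℝ) + 1) := by
    have : (7 + 4 * Fs.CZ) / ((j : ℝ) + 1) = 7 / ((j : ℝ) + 1) + 4 * Fs.CZ / ((j : ℝ) + 1) := by
      ring
    linarith
  rw [div_le_div_iff₀ (by norm_num) hj1] at h8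
  linarith

end Pool.Agent.HI61
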