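import Mathlib

/-!
# HI61/Defs : the Gowers-Maurey type norming set (combinatorial part) of MP_598d42_an

All the objects here live on real sequences `z : ℕ → ℝ`; the index `i` is the number of a
ground functional, which acts at the block `blk i`.  Formal functionals are finitely supported
rational sequences (so there are countably many of them).
-/

namespace Pool.Agent.HI61

open Finset
open scoped Classical

/-- block of the ground functional number `i` -/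
def blk (i : ℕ) : ℕ := (Nat.unpair i).1

/-- formal functionals -/
abbrev Fn := ℕ →₀ ℚ

/-- evaluation of a formal functional at a sequence -/
noncomputable def ev (f : Fn) (z : ℕ → ℝ) : ℝ := f.sum fun i q => (q : ℝ) * z i

/-- restriction of a functional to the blocks in `[a, b)` -/
noncomputable def res (a b : ℕ) (f : Fn) : Fn := f.filter fun i => a ≤ blk i ∧ blk i < b

/-- restriction of a vector to the blocks in `[a, b)` -/
noncomputable def cutv (a b : ℕ) (z : ℕ → ℝ) : ℕ → ℝ :=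
  fun i => if a ≤ blk i ∧ blk i < b then z i else 0

/-- all the blocks of `f` are before all the blocks of `g` -/
def Before (f g : Fn) : Prop := ∀ i ∈ f.support, ∀ j ∈ g.support, blk i < blk j

/-- an injective numbering of the formal functionals -/
noncomputable def enc : Fn → ℕ := Classical.choose (exists_injective_nat Fn)

theorem enc_inj : Function.Injective enc := Classical.choose_spec (exists_injective_nat Fn)

/-- nodes are lists of functionals, NEWEST FIRST -/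
noncomputable def encL : List Fn → ℕ
  | [] => 0
  | g :: p => Nat.pair (enc g) (encL p) + 1

/-- the largest block in a node -/
noncomputable def mb : List Fn → ℕ
  | [] => 0
  | g :: p => max (g.support.sup blk) (mb p)

/-- the newest functional of a node -/
noncomputable def hd (t : List Fn) : Fn := t.headD 0

/-- parameters -/
structure Par where
  /-- the cotype exponent; the exponent of the norm is `r = 2 q` -/
  q : ℝ
  /-- the weight of type `κ` is `8 * 2 ^ e κ` -/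
  e : ℕ → ℕ
  /-- length of type `κ` -/
  L : ℕ → ℕ
  /-- the factor of the light special functionals of level `j` -/
  A : ℕ → ℕ
  /-- the number of chains of level `j` -/
  C : ℕ → ℕ
  al : ℕ → ℝ
  /-- the threshold `ε_j φ(ℓ_j)` of heavy tails -/
  th : ℕ → ℝ
  base : ℕ → ℕ
  W : ℕ → ℕ
  /-- upper bound for the masses of sets with `n` elements (fundamental function of `b`) -/
  ph : ℕ → ℝ
  /-- slope of the special functionals of level `j` on the special vectors -/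
  dl : ℕ → ℝ
  k : ℕ → ℕ
  /-- bound for the lengths of the previous types -/
  Lam : ℕ → ℕ
  /-- number of members of an RIS which may have a large `X`-component -/
  nst : ℕ → ℕ
  /-- the sequences `(v (b_k))_k`, `v` in the dual ball -/
  VS : Set (ℕ → ℝ)

namespace Par

variable (P : Par)

/-- weight of type `κ`; type `2 i` is regular, type `2 j + 1` is special of level `j` -/
def M (κ : ℕ) : ℕ := 8 * 2 ^ P.e κ

noncomputable def r : ℝ := 2 * P.q

/-- the conjugate exponent of `r` -/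
noncomputable def rc : ℝ := P.r / (P.r - 1)

/-- chain length of level `j` -/
def ell (j : ℕ) : ℕ := P.L (2 * j + 1)

/-- the index of the vector `b` attached to a node -/
noncomputable def code (j : ℕ) (t : List Fn) : ℕ := P.base j + Nat.pair (encL t) (mb t)

/-- the regular type `2 * sig j p` is the type of the functionals which may follow `p` -/
noncomputable def sig (j : ℕ) (p : List Fn) : ℕ := P.W j + encL p

/-- `φ(ℓ_j)` -/
noncomputable def psi (j : ℕ) : ℝ := P.ph (P.ell j)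

/-- `β_j = 1 / (α_j φ(ℓ_j))` -/
noncomputable def be (j : ℕ) : ℝ := 1 / (P.al j * P.psi j)

/-- sum of the previous chain lengths -/
def Bs (j : ℕ) : ℕ := ∑ i ∈ range j, P.ell i

def NodeOK (j : ℕ) (t : List Fn) : Prop :=
  t ≠ [] ∧ t.length ≤ P.ell j ∧
    ∀ g p, (g :: p) <:+ t → ∀ i ∈ g.support, P.code j p < blk i

/-- coefficient functions supported by at most `C j` chains and dominated by some `v` -/
def Atom (j : ℕ) : Set (List Fn → ℝ) :=
  {c | ∃ v ∈ P.VS, ∃ S : Finset (List Fn), S.card ≤ P.C j ∧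
    (∀ t, c t ≠ 0 → ∃ s ∈ S, t <:+ s) ∧ ∀ t, |c t| ≤ P.al j * |v (P.code j t)|}

/-- light coefficient functions -/
def Light (j : ℕ) (c : List Fn → ℝ) (T : Finset (List Fn)) : Prop :=
  ∀ s : List Fn, ∑ t ∈ T.filter (fun t => t <:+ s), |c t| ≤ P.al j * P.th j

end Par

/-- The norming set.  `InK P ty f`: the functional `f` is in `K` with type `ty`. -/
inductive InK (P : Par) : Option ℕ → Fn → Prop
  | ground (i : ℕ) (s : ℚ) (hs : |s| ≤ 1) : InK P none (Finsupp.single i s)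
  | reg (κ i n : ℕ) (hκ : κ = 2 * i) (hn : n ≤ P.L κ) (d : Fin n → ℚ) (f : Fin n → Fn)
      (ty : Fin n → Option ℕ) (hf : ∀ l, InK P (ty l) (f l))
      (hb : ∀ l l', l < l' → Before (f l) (f l'))
      (hd : ∑ l, |(d l : ℝ)| ^ P.rc ≤ 1) :
      InK P (some κ) ((1 / (P.M κ : ℚ)) • ∑ l, d l • f l)
  | spec (κ j a b : ℕ) (hκ : κ = 2 * j + 1) (c : List Fn →₀ ℚ)
      (hN : ∀ t ∈ c.support, P.NodeOK j t)
      (hK : ∀ t ∈ c.support, ∀ g p, (g :: p) <:+ t → InK P (some (2 * P.sig j p)) g)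
      (h1 : P.Light j (fun t => (c t : ℝ)) c.support)
      (h2 : (fun t => (c t : ℝ)) ∈ convexHull ℝ (P.Atom j)) :
      InK P (some κ) ((P.A j : ℚ) • ∑ t ∈ c.support, c t • res a b (hd t))

/-- membership in `K`, any type -/
def K (P : Par) (f : Fn) : Prop := ∃ ty, InK P ty f

/-- `‖z‖_K ≤ B` -/
def Kle (P : Par) (z : ℕ → ℝ) (B : ℝ) : Prop := ∀ f, K P f → |ev f z| ≤ B

/-- bound `T` for all the combinations `∑ d_l f_l`, `‖d‖_{r'} ≤ 1`, of at most `L κ` successive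
functionals from `K` (the functionals of weight `M κ` are bounded by `T / M κ`) -/
def KS (P : Par) (κ : ℕ) (z : ℕ → ℝ) (T : ℝ) : Prop :=
  ∀ n ≤ P.L κ, ∀ (d : Fin n → ℝ) (f : Fin n → Fn), (∀ l, K P (f l)) →
    (∀ l l', l < l' → Before (f l) (f l')) → ∑ l, |d l| ^ P.rc ≤ 1 →
    |∑ l, d l * ev (f l) z| ≤ T

/-- nodes of the tree of level `j` -/
def Tree (P : Par) (j : ℕ) (t : List Fn) : Prop :=
  P.NodeOK j t ∧ ∀ g p, (g :: p) <:+ t → InK P (some (2 * P.sig j p)) g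

/-- `v`-mass of the part of the chain `s` from `t` on -/
noncomputable def mass (P : Par) (j : ℕ) (v : ℕ → ℝ) (t s : List Fn) : ℝ :=
  ∑ u ∈ s.tails.toFinset.filter (fun u => t <:+ u), |v (P.code j u)|

/-- heavy nodes -/
def Heavy (P : Par) (j : ℕ) (v : ℕ → ℝ) (t : List Fn) : Prop :=
  Tree P j t ∧ ∃ s, Tree P j s ∧ t <:+ s ∧ P.th j ≤ mass P j v t s

/-- the coefficients of `F_j(v)` -/
noncomputable def co (P : Par) (j : ℕ) (v : ℕ → ℝ) (t : List Fn) : ℝ :=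
  if Heavy P j v t then P.al j * v (P.code j t) else 0

/-- the functional `F_j(v)` -/
noncomputable def Fj (P : Par) (j : ℕ) (v : ℕ → ℝ) (z : ℕ → ℝ) : ℝ :=
  ∑ᶠ t, co P j v t * ev (hd t) z

/-- `z` has norm one up to the factor `3/4` -/
def Unit' (P : Par) (z : ℕ → ℝ) : Prop := Kle P z 1 ∧ ∃ f, K P f ∧ 3 / 4 ≤ ev f z

/-- successive blocks of ground coordinates -/
structure BSeq where
  ζ : ℕ → ℕ → ℝ
  s : ℕ → ℕ
  mono : StrictMono s
  supp : ∀ n i, ζ n i ≠ 0 → s n ≤ blk i ∧ blk i < s (n + 1)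
  bd : ∀ n, ∃ B : ℝ, ∀ i, |ζ n i| ≤ B

/-- finite combinations of the members of a block sequence -/
noncomputable def BSeq.comb (Z : BSeq) (a : ℕ →₀ ℝ) : ℕ → ℝ :=
  fun i => a.sum fun n c => c * Z.ζ n i

/-- `a` is supported in `[m, ∞)` -/
def Tail (m : ℕ) (a : ℕ →₀ ℝ) : Prop := ∀ n ∈ a.support, m ≤ n

/-- rapidly increasing sequences -/
structure RIS (P : Par) (x : ℕ → ℕ → ℝ) (s : ℕ → ℕ) (N : ℕ) (C : ℝ) (lo hi : ℕ → ℕ)
    (δ : ℕ → ℝ) : Prop where
  C0 : 0 ≤ C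
  δ0 : ∀ k, 0 ≤ δ k
  mono : Monotone s
  supp : ∀ k < N, ∀ i, x k i ≠ 0 → s k ≤ blk i ∧ blk i < s (k + 1)
  R1 : ∀ k < N, Kle P (x k) C
  R2 : ∀ k < N, ∀ κ < lo k, KS P κ (x k) C
  R3 : ∀ k < N, ∀ κ, hi k ≤ κ → ∀ f, InK P (some κ) f → |ev f (x k)| ≤ δ k
  lh : ∀ k < N, lo k ≤ hi k
  hl : ∀ k, k + 1 < N → hi k ≤ lo (k + 1)

/-- finite combinations of a sequence of vectors -/
noncomputable def lc (x : ℕ → ℕ → ℝ) (S : Finset ℕ) (θ : ℕ → ℝ) : ℕ → ℝ :=
  fun i => ∑ k ∈ S, θ k * x k i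

/-- The conditions on the parameters. -/
structure Good (P : Par) : Prop where
  q1 : 1 ≤ P.q
  VS_ne : P.VS.Nonempty
  VS_neg : ∀ v ∈ P.VS, -v ∈ P.VS
  VS_le : ∀ v ∈ P.VS, ∀ k, |v k| ≤ 1
  e_step : ∀ κ, 2 * P.e κ + 3 ≤ P.e (κ + 1)
  L_pos : ∀ κ, 1 ≤ P.L κ
  A_pos : ∀ j, 1 ≤ P.A j
  C_pos : ∀ j, 1 ≤ P.C j
  al_pos : ∀ j, 0 < P.al j
  th_ge : ∀ j, 4 ≤ P.th j
  base_ge : ∀ j, j ≤ P.base j
  /-- the coefficients of one chain are admissible for the type `2 j + 1` -/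
  lr : ∀ j, ∀ v ∈ P.VS, ∀ D : Finset ℕ, D.card ≤ P.ell j → (∀ k ∈ D, P.base j ≤ k) →
    ∑ k ∈ D, (P.al j * P.C j * P.A j * P.M (2 * j + 1) * |v k|) ^ P.rc ≤ 1
  /-- at most `C j` disjoint sets are heavy -/
  hv : ∀ j, ∀ v ∈ P.VS, ∀ (n : ℕ) (D : Fin n → Finset ℕ), (∀ a b, a ≠ b → Disjoint (D a) (D b)) →
    (∀ a, (D a).card ≤ P.ell j) → (∀ a, ∀ k ∈ D a, P.base j ≤ k) →
    (∀ a, P.th j ≤ ∑ k ∈ D a, |v k|) → n ≤ P.C j
  off : ∀ j, 100 * (P.A j : ℝ) * P.C j * P.al j ≤ (1 / 2) ^ j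
  ph_le : ∀ j, ∀ v ∈ P.VS, ∀ n, 1 ≤ n → n ≤ P.ell j → ∀ D : Finset ℕ, D.card ≤ n →
    (∀ k ∈ D, P.base j ≤ k) → ∑ k ∈ D, |v k| ≤ P.ph n
  psi_pos : ∀ j, 0 < P.psi j
  dl_nonneg : ∀ j, 0 ≤ P.dl j
  slope : ∀ j n, 1 ≤ n → n ≤ P.ell j →
    P.A j * P.al j * min (P.th j) (P.ph n) ≤ P.dl j * (n : ℝ) ^ (1 / P.r)
  low : ∀ j, ∀ D : Finset ℕ, D.card = P.ell j → (∀ k ∈ D, P.base j ≤ k) →
    ∃ v ∈ P.VS, P.psi j ≤ 16 * ∑ k ∈ D, v k
  psi_big : ∀ j, (P.th j + 100 * P.C j) * (j + 1) ≤ P.psi j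
  Lam_ge : ∀ κ, κ + 1 ≤ P.Lam κ
  Lam_L : ∀ κ κ', κ' < κ → P.L κ' ≤ P.Lam κ
  Lreg : ∀ i, (P.M (2 * i) : ℝ) * (7 + 6 * (3 + (8 * (P.Lam (2 * i) : ℝ)) ^ P.e (2 * i)) *
    P.Lam (2 * i)) ≤ (P.L (2 * i) : ℝ) ^ (1 / P.r)
  kj : ∀ j, P.k j ≤ P.e (2 * j + 2)
  eta : ∀ j, P.be j * (98 * (1 + (8 * (P.Lam (2 * j + 1) : ℝ)) ^ P.k j +
    ((1 / 2) ^ P.k j + P.dl j) * (P.ell j : ℝ) ^ (1 / P.r)) + 1) ≤
      4 / ((j + 1) * (P.Bs j + 1))
  W_ge : ∀ j, j + 1 ≤ P.W j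
  W1 : ∀ j, 124 * (P.ell j : ℝ) ^ 2 ≤ P.M (2 * P.W j)
  W2 : ∀ j, 2 * (j + 1) * (P.be j * P.ell j) ≤ P.M (2 * P.W j)
  A_next : ∀ j i, j < i → 98 * (P.be j * P.ell j) * 2 ^ i * (j + 1) ≤ P.A i
  A_high : ∀ w i, w ≤ i → 2 ^ (i + 2) * (P.nst w + 1) ≤ P.A i

end Pool.Agent.HI61
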