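import Pool.Agent.HI61.Basic

/-!
# HI61/Defs2 : auxiliary definitions (domination, hits, the function beta, branches)
-/

namespace Pool.Agent.HI61

open Finset
open scoped Classical

/-- `f` (of type `κ`) is dominated by the combinations of successive members of `K` which
satisfy `Pr` -/
def Dom (P : Par) (κ : ℕ) (Pr : Fn → Prop) (f : Fn) : Prop :=
  ∀ (z : ℕ → ℝ) (T : ℝ),
    (∀ n ≤ P.L κ, ∀ (d : Fin n → ℝ) (f' : Fin n → Fn), (∀ l, K P (f' l) ∧ Pr (f' l)) →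
      (∀ l l', l < l' → Before (f' l) (f' l')) → ∑ l, |d l| ^ P.rc ≤ 1 →
      |∑ l, d l * ev (f' l) z| ≤ T) →
    |ev f z| ≤ T / P.M κ

/-- `f` meets the `k`-th interval of blocks -/
def Hit (s : ℕ → ℕ) (f : Fn) (k : ℕ) : Prop := ∃ i ∈ f.support, s k ≤ blk i ∧ blk i < s (k + 1)

/-- the vectors `v 0, ..., v (N-1)` are successive: `v k` is supported in `[μ k, μ (k+1))` -/
def Blks (μ : ℕ → ℕ) (v : ℕ → (ℕ →₀ ℝ)) (N : ℕ) : Prop :=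
  Monotone μ ∧ ∀ k < N, ∀ n ∈ (v k).support, μ k ≤ n ∧ n < μ (k + 1)

/-- admissible values for `beta` -/
def betaSet (P : Par) (Z : BSeq) (m d : ℕ) : Set ℝ :=
  {t | ∃ (v : ℕ → (ℕ →₀ ℝ)) (μ : ℕ → ℕ), m ≤ μ 0 ∧ Blks μ v d ∧
    (∀ l < d, Kle P (Z.comb (v l)) 1) ∧
    ∃ f, K P f ∧ t = |ev f (Z.comb (∑ l ∈ range d, v l))|}

/-- the largest norm of a sum of `d` successive vectors of norm at most one -/
noncomputable def beta (P : Par) (Z : BSeq) (m d : ℕ) : ℝ := sSup (betaSet P Z m d)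

/-- all the tails contain vectors of norm one -/
def NonTriv (P : Par) (Z : BSeq) : Prop :=
  ∀ m, ∃ a : ℕ →₀ ℝ, Tail m a ∧ Unit' P (Z.comb a)

/-- there are good vectors (averages) with the property `G` arbitrarily far -/
def Supply (P : Par) (Z : BSeq) (G : (ℕ →₀ ℝ) → Prop) : Prop :=
  ∀ m lo : ℕ, ∃ a : ℕ →₀ ℝ, Tail m a ∧ G a ∧ Unit' P (Z.comb a) ∧
    ∀ κ < lo, KS P κ (Z.comb a) 6

/-- `u` is a multiple of the sum of `L (2 w)` vectors with the property `G` -/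
def Dec (P : Par) (G : (ℕ →₀ ℝ) → Prop) (w : ℕ) (D : ℝ) (u : ℕ →₀ ℝ) : Prop :=
  ∃ (x : ℕ → (ℕ →₀ ℝ)) (c : ℝ), |c| ≤ D * (P.M (2 * w) / (P.L (2 * w) : ℝ) ^ (1 / P.r)) ∧
    (∀ k < P.L (2 * w), G (x k)) ∧ u = c • ∑ k ∈ range (P.L (2 * w)), x k

/-- a branch of the tree of level `j` with exact vectors -/
structure Branch (P : Par) (Z : BSeq) (G : ℕ → (ℕ →₀ ℝ) → Prop) (j : ℕ) where
  g : ℕ → Fn
  p : ℕ → List Fn
  u : ℕ → (ℕ →₀ ℝ)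
  S : ℕ → ℕ
  hi : ℕ → ℕ
  δ : ℕ → ℝ
  p0 : p 0 = []
  ps : ∀ t, p (t + 1) = g t :: p t
  ris : RIS P (fun t => Z.comb (u t)) S (P.ell j) 98 (fun t => 2 * P.sig j (p t)) hi δ
  δsum : ∑ t ∈ range (P.ell j), δ t ≤ 1
  tree : ∀ t < P.ell j, Tree P j (p (t + 1))
  gsupp : ∀ t < P.ell j, ∀ i ∈ (g t).support, S t ≤ blk i ∧ blk i < S (t + 1)
  one : ∀ t < P.ell j, ev (g t) (Z.comb (u t)) = 1
  big : ∀ t < P.ell j, ∀ κ, 2 * P.sig j (p t) < κ → ∀ f, InK P (some κ) f →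
    |ev f (Z.comb (u t))| ≤ 16 * (P.M (2 * P.sig j (p t)) /
      (P.L (2 * P.sig j (p t)) : ℝ) ^ (1 / P.r)) + 62 * P.M (2 * P.sig j (p t)) / P.M κ
  dec : ∀ t < P.ell j, Dec P (G (P.sig j (p t))) (P.sig j (p t)) 2 (u t)

/-- the special vector of a branch -/
noncomputable def Branch.z {P : Par} {Z : BSeq} {G : ℕ → (ℕ →₀ ℝ) → Prop} {j : ℕ}
    (B : Branch P Z G j) : ℕ →₀ ℝ := P.be j • ∑ t ∈ range (P.ell j), B.u t

end Pool.Agent.HI61
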