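import Pool.Agent.HI61.LightReal
import Pool.Agent.HI61.FBasic

/-!
# HI61/ErrLin : `F_j` is linear in `v` up to `1 / A j`

PROOF.  We may assume `Λ = ∑ |lam a| > 0` and, dividing by `Λ`, that it is 1.  Let `T0` be the union
of the heavy sets of the `v a` (finite).  `c t = ∑_a lam a * co P j (v a) t`.
Convex hull: `c = ∑_a |lam a| * (sgn (lam a) * co P j (v a))` and `sgn(..) * co P j (v a) ∈ Atom j`
(`co_atom`, atoms are defined by absolute values).
Light: for `t ∈ T0` (a tree node) `∑_a lam a * v a (code t) = 0`, hence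
`c t = - al ∑_a lam a * v a (code t) [t is not heavy for v a]`, so for every `s`
`∑_{t ∈ T0, t <:+ s} |c t| ≤ al ∑_a |lam a| ∑_{t ∈ T0, t <:+ s, not heavy for v a} |v a (code t)| ≤ al th`
(`light_tail` for `T0.filter (¬ Heavy (v a))`).
`∑_a lam a * Fj (v a) z = ∑_{t ∈ T0} c t * ev (hd t) z` (`Fj_eq_sum`); apply `light_real`.
-/

namespace Pool.Agent.HI61

open Finset
open scoped Classical

private lemma atom_smul {P : Par} (j : ℕ) {c : List Fn → ℝ} (hc : c ∈ P.Atom j) {σ : ℝ}
    (hσ : |σ| ≤ 1) : σ • c ∈ P.Atom j := by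
  obtain ⟨v, hv, S, hS, h1, h2⟩ := hc
  refine ⟨v, hv, S, hS, fun t ht => h1 t ?_, fun t => ?_⟩
  · intro h0
    apply ht
    rw [Pi.smul_apply, h0, smul_zero]
  · rw [Pi.smul_apply, smul_eq_mul, abs_mul]
    calc |σ| * |c t| ≤ 1 * |c t| := by gcongr
      _ = |c t| := one_mul _
      _ ≤ _ := h2 t

theorem err_lin {P : Par} (hG : Good P) (j n : ℕ) (lam : Fin n → ℝ) (v : Fin n → ℕ → ℝ)
    (hv : ∀ a, v a ∈ P.VS) (h0 : ∀ k, ∑ a, lam a * v a k = 0) (z : ℕ → ℝ) (B : ℝ)
    (hz : Kle P z B) :
    P.A j * |∑ a, lam a * Fj P j (v a) z| ≤ (∑ a, |lam a|) * B := by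
  set Λ : ℝ := ∑ a, |lam a| with hΛ
  have hΛ0 : 0 ≤ Λ := Finset.sum_nonneg fun a _ => abs_nonneg _
  rcases hΛ0.eq_or_lt with hz0 | hpos
  · have hl : ∀ a, lam a = 0 := by
      intro a
      have h1 := (Finset.sum_eq_zero_iff_of_nonneg (s := Finset.univ)
        (f := fun a => |lam a|) (fun a _ => abs_nonneg _)).1 hz0.symm a (Finset.mem_univ a)
      exact abs_eq_zero.1 h1
    simp [hl, ← hz0]
  · set T0 : Finset (List Fn) := Finset.univ.biUnion
      (fun a : Fin n => (heavy_finite hG j (v a) (hv a)).toFinset) with hT0def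
    have hmem : ∀ a t, Heavy P j (v a) t → t ∈ T0 := by
      intro a t ht
      rw [hT0def, Finset.mem_biUnion]
      exact ⟨a, Finset.mem_univ a, (Set.Finite.mem_toFinset _).2 ht⟩
    have hT0 : ∀ t ∈ T0, Tree P j t := by
      intro t ht
      rw [hT0def, Finset.mem_biUnion] at ht
      obtain ⟨a, -, h⟩ := ht
      exact ((Set.Finite.mem_toFinset _).1 h).1
    set μ : Fin n → ℝ := fun a => lam a / Λ with hμ
    have hμs : ∑ a, |μ a| = 1 := by
      simp only [hμ, abs_div, abs_of_pos hpos]
      rw [← Finset.sum_div, ← hΛ, div_self hpos.ne']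
    set c : List Fn → ℝ := fun t => ∑ a, μ a * co P j (v a) t with hcdef
    have hc : ∀ t, c t ≠ 0 → t ∈ T0 := by
      intro t ht
      obtain ⟨a, -, ha⟩ := Finset.exists_ne_zero_of_sum_ne_zero ht
      by_contra hcon
      apply ha
      have : ¬ Heavy P j (v a) t := fun h => hcon (hmem a t h)
      rw [co, if_neg this, mul_zero]
    have hal := hG.al_pos j
    have h1 : P.Light j c T0 := by
      intro s
      have hbd : ∀ t, |c t| ≤ ∑ a, |μ a| * (P.al j *
          (if Heavy P j (v a) t then 0 else |v a (P.code j t)|)) := by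
        intro t
        have e1 : ∑ a, μ a * v a (P.code j t) = 0 := by
          have h2 := h0 (P.code j t)
          simp only [hμ, div_mul_eq_mul_div]
          rw [← Finset.sum_div, h2, zero_div]
        have e2 : c t = - ∑ a, μ a * (P.al j *
            (if Heavy P j (v a) t then 0 else v a (P.code j t))) := by
          have e3 : c t + ∑ a, μ a * (P.al j *
              (if Heavy P j (v a) t then 0 else v a (P.code j t))) =
              P.al j * ∑ a, μ a * v a (P.code j t) := by
            rw [hcdef]
            simp only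
            rw [← Finset.sum_add_distrib, Finset.mul_sum]
            refine Finset.sum_congr rfl fun a _ => ?_
            rw [co]
            split_ifs <;> ring
          rw [e1, mul_zero] at e3
          linarith
        rw [e2, abs_neg]
        refine (Finset.abs_sum_le_sum_abs _ _).trans (Finset.sum_le_sum fun a _ => ?_)
        rw [abs_mul, abs_mul, abs_of_pos hal]
        split_ifs
        · simp
        · exact le_rfl
      calc ∑ t ∈ T0.filter (fun t => t <:+ s), |c t|
          ≤ ∑ t ∈ T0.filter (fun t => t <:+ s), ∑ a, |μ a| * (P.al j *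
            (if Heavy P j (v a) t then 0 else |v a (P.code j t)|)) :=
            Finset.sum_le_sum fun t _ => hbd t
        _ = ∑ a, |μ a| * (P.al j * ∑ t ∈ T0.filter (fun t => t <:+ s),
            (if Heavy P j (v a) t then 0 else |v a (P.code j t)|)) := by
            rw [Finset.sum_comm]
            refine Finset.sum_congr rfl fun a _ => ?_
            rw [Finset.mul_sum, Finset.mul_sum]
        _ ≤ ∑ a, |μ a| * (P.al j * P.th j) := by
            refine Finset.sum_le_sum fun a _ => ?_
            have h3 := light_tail hG j (v a) (T0.filter (fun t => ¬ Heavy P j (v a) t))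
              (fun t ht => hT0 t (Finset.mem_filter.1 ht).1)
              (fun t ht => (Finset.mem_filter.1 ht).2) s
            have h4 : ∑ t ∈ T0.filter (fun t => t <:+ s),
                (if Heavy P j (v a) t then 0 else |v a (P.code j t)|) =
                ∑ t ∈ (T0.filter (fun t => ¬ Heavy P j (v a) t)).filter (fun t => t <:+ s),
                |v a (P.code j t)| := by
              rw [Finset.filter_comm, Finset.sum_filter (p := fun t => ¬ Heavy P j (v a) t)]
              refine Finset.sum_congr rfl fun t _ => ?_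
              by_cases hh : Heavy P j (v a) t
              · rw [if_pos hh, if_neg (not_not.2 hh)]
              · rw [if_neg hh, if_pos hh]
            rw [h4]
            gcongr
        _ = P.al j * P.th j := by rw [← Finset.sum_mul, hμs, one_mul]
    have h2 : c ∈ convexHull ℝ (P.Atom j) := by
      have e : c = ∑ a, |μ a| • (SignType.sign (μ a) : ℝ) • co P j (v a) := by
        funext t
        rw [Finset.sum_apply]
        refine Finset.sum_congr rfl fun a _ => ?_
        rw [Pi.smul_apply, Pi.smul_apply, smul_eq_mul, smul_eq_mul, ← mul_assoc,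
          abs_mul_sign]
      rw [e]
      refine (convex_convexHull ℝ (P.Atom j)).sum_mem (fun a _ => abs_nonneg _) hμs
        (fun a _ => subset_convexHull ℝ _ (atom_smul j (co_atom hG j (v a) (hv a)) ?_))
      rcases lt_trichotomy (μ a) 0 with h | h | h
      · simp [sign_neg h]
      · simp [h]
      · simp [sign_pos h]
    have h3 := light_real hG j T0 hT0 c hc h1 h2 z B hz
    have e4 : ∑ a, lam a * Fj P j (v a) z = Λ * ∑ t ∈ T0, c t * ev (hd t) z := by
      have e5 : ∀ a, lam a = Λ * μ a := by
        intro a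
        rw [hμ]
        field_simp
      calc ∑ a, lam a * Fj P j (v a) z
          = ∑ a, Λ * μ a * ∑ t ∈ T0, co P j (v a) t * ev (hd t) z := by
            refine Finset.sum_congr rfl fun a _ => ?_
            rw [Fj_eq_sum hG j (v a) (hv a) T0 (hmem a) z, ← e5 a]
        _ = ∑ a, ∑ t ∈ T0, Λ * (μ a * co P j (v a) t * ev (hd t) z) := by
            refine Finset.sum_congr rfl fun a _ => ?_
            rw [Finset.mul_sum]
            refine Finset.sum_congr rfl fun t _ => ?_
            ring
        _ = ∑ t ∈ T0, Λ * (c t * ev (hd t) z) := by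
            rw [Finset.sum_comm]
            refine Finset.sum_congr rfl fun t _ => ?_
            rw [← Finset.mul_sum]
            congr 1
            exact (Finset.sum_mul _ _ _).symm
        _ = Λ * ∑ t ∈ T0, c t * ev (hd t) z := by rw [Finset.mul_sum]
    rw [e4, abs_mul, abs_of_pos hpos]
    calc (P.A j : ℝ) * (Λ * |∑ t ∈ T0, c t * ev (hd t) z|)
        = Λ * (P.A j * |∑ t ∈ T0, c t * ev (hd t) z|) := by ring
      _ ≤ Λ * B := by gcongr

end Pool.Agent.HI61
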