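import Pool.Agent.HI61.RISBuild
import Pool.Agent.HI61.BI

/-!
# HI61/Exact : exact vectors

PROOF.  `n = L (2 w)`, `M = M (2 w)`, `e = e (2 w)`, `Lam = Lam (2 w)`, `r = P.r`.  Take the RIS
`x k` of `ris_build` with `N = n`, `lo0 = 2 w`, starting at `m`; `m' = μ n`;
`u = (M / n^{1/r}) • ∑_{k < n} x k`.  `comb_sum` with `θ = 1`: `comb (∑ x k) = lc x S 1`, `S = range n`.
`Kle 49`: `BI_noex` with `κ0 = 2 w`, `k = e`, `Lm = Lam` (`Lam_L`, `e` is monotone by `e_step`):
`|ev f (∑ x)| ≤ 6 (1 + (8 Lam)^e + (1/2)^e n^{1/r}) + 1`; multiply by `M / n^{1/r}`: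
`6 M (1/2)^e = 48` and `(M / n^{1/r}) (7 + 6 (8 Lam)^e) ≤ 1` by `Lreg`.
`KS 49`, `κ < 2 w`: `one_step` with `a = (8 Lam)^e`, `b = (1/2)^e` (bound for the components from
`BI_noex`; `κ < 2 w ≤ lo k`), and `(min n (L κ))^{1/r} ≤ Lam`:
`(M / n^{1/r}) (6 ((3 + (8 Lam)^e) Lam + (1/2)^e n^{1/r}) + 1) ≤ 48 + 1` by `Lreg`.
`κ > 2 w`: `BI_large`: `|ev f (∑ x)| ≤ 6 + 1 + (30 n^{1/r} + 1) / M κ`; times `M / n^{1/r}`:
`≤ 8 M / n^{1/r} + 31 M / M κ` (use `M κ ≥ 1`, `n^{1/r} ≥ 1`).
The functionals: `g_k ∈ K` with `ev (g_k) (comb (x k)) ≥ 3/4` (`Unit'`), restricted to the blocks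
`[Z.s (μ k), Z.s (μ (k+1)))` (`K_res`, `ev_res`, `comb_supp`), so successive and
`ev (g_k) (comb (x l)) = 0` for `k ≠ l`.  For rationals `d_k` with `3/4 n^{-1/rc} ≤ d_k ≤ n^{-1/rc}`
the functional `g = (1 / M) • ∑ d_k • g_k` is in `K` with type `2 w` (constructor `reg`, `i = w`;
`∑ |d_k|^rc ≤ 1`), its support is contained in the blocks `[Z.s m, Z.s m')`, and
`ev g (comb u) = n^{-1/r} ∑ d_k ev (g_k) (comb (x k)) ∈ [9/16, 1]` (`ev (g_k) ≤ 1` by `Unit'`,
`n · n^{-1/r} · n^{-1/rc} = 1`).  Fix `d_k` for `k ≥ 1` and let `d_0` run over the infinitely many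
rationals in the interval (`0 < n^{-1/rc}`): the functionals are pairwise different because
`g_0 ≠ 0`; this gives the infinite set `Gs`.
-/

namespace Pool.Agent.HI61

open Finset
open scoped Classical

private theorem e_monoE {P : Par} (hG : Good P) : Monotone P.e := by
  apply monotone_nat_of_le_succ
  intro κ
  have := hG.e_step κ
  omega

private theorem hcutE (Z : BSeq) (x : ℕ → (ℕ →₀ ℝ)) (μ : ℕ → ℕ) (n : ℕ) (hB : Blks μ x n)
    (l l' : ℕ) (hl' : l' < n) :
    cutv (Z.s (μ l)) (Z.s (μ (l + 1))) (Z.comb (x l')) =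
      if l = l' then Z.comb (x l') else fun _ => 0 := by
  funext k
  by_cases hk : Z.comb (x l') k = 0
  · have h1 : cutv (Z.s (μ l)) (Z.s (μ (l + 1))) (Z.comb (x l')) k = 0 := by
      unfold cutv
      rw [hk, ite_self]
    rw [h1]
    split_ifs
    · exact hk.symm
    · rfl
  · have h1 := comb_supp Z (x l') (μ l') (μ (l' + 1)) (hB.2 l' hl') k hk
    by_cases hll : l = l'
    · subst hll
      rw [if_pos rfl]
      unfold cutv
      rw [if_pos h1]
    · rw [if_neg hll]
      unfold cutv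
      refine if_neg fun h2 => ?_
      rcases lt_or_gt_of_ne hll with h3 | h3
      · have h4 := Z.mono.monotone (hB.1 (Nat.succ_le_of_lt h3))
        exact absurd (h2.2.trans_le (h4.trans h1.1)) (lt_irrefl _)
      · have h4 := Z.mono.monotone (hB.1 (Nat.succ_le_of_lt h3))
        exact absurd (h1.2.trans_le (h4.trans h2.1)) (lt_irrefl _)

private theorem rE {P : Par} (hG : Good P) : 2 ≤ P.r := by
  have := hG.q1
  unfold Par.r
  linarith

/-- the numerical facts -/
private theorem numE {P : Par} (hG : Good P) (w : ℕ) :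
    (0 : ℝ) < P.M (2 * w) ∧ (1 : ℝ) ≤ P.M (2 * w) ∧ (1 : ℝ) ≤ P.Lam (2 * w) ∧
    (P.M (2 * w) : ℝ) * (1 / 2) ^ P.e (2 * w) = 8 ∧ 1 ≤ (P.L (2 * w) : ℝ) ^ (1 / P.r) := by
  have hr := rE hG
  refine ⟨?_, ?_, ?_, ?_, ?_⟩
  · unfold Par.M
    positivity
  · have : 1 ≤ P.M (2 * w) := by
      unfold Par.M
      have := Nat.one_le_two_pow (n := P.e (2 * w))
      omega
    exact_mod_cast this
  · have := hG.Lam_ge (2 * w)
    have h : 1 ≤ P.Lam (2 * w) := by omega
    exact_mod_cast h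
  · unfold Par.M
    push_cast
    rw [mul_assoc, ← mul_pow]
    norm_num
  · apply Real.one_le_rpow
    · exact_mod_cast hG.L_pos (2 * w)
    · have : 0 < P.r := by linarith
      positivity

theorem exact_vec {P : Par} (hG : Good P) (Z : BSeq) (w : ℕ) (G : (ℕ →₀ ℝ) → Prop)
    (hS : Supply P Z G) (m : ℕ) :
    ∃ (u : ℕ →₀ ℝ) (m' : ℕ), m ≤ m' ∧ (∀ n ∈ u.support, m ≤ n ∧ n < m') ∧ Dec P G w 1 u ∧
      Kle P (Z.comb u) 49 ∧ (∀ κ < 2 * w, KS P κ (Z.comb u) 49) ∧
      (∀ κ, 2 * w < κ → ∀ f, InK P (some κ) f → |ev f (Z.comb u)| ≤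
        8 * (P.M (2 * w) / (P.L (2 * w) : ℝ) ^ (1 / P.r)) + 31 * P.M (2 * w) / P.M κ) ∧
      ∃ Gs : Set Fn, Gs.Infinite ∧ ∀ g ∈ Gs, InK P (some (2 * w)) g ∧
        (∀ i ∈ g.support, Z.s m ≤ blk i ∧ blk i < Z.s m') ∧
        1 / 2 ≤ ev g (Z.comb u) ∧ ev g (Z.comb u) ≤ 1 := by
  classical
  have hr2 := rE hG
  have hr0 : 0 < P.r := by linarith
  have hr1 : 0 < P.r - 1 := by linarith
  have hrc : 0 < P.rc := div_pos hr0 hr1
  obtain ⟨hMpos, hM1, hLam1, hMe, hν1⟩ := numE hG w
  have hreg := hG.Lreg w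
  obtain ⟨x, μ, lo, hi, δ, hμ0, hB, hlo, hR, hδ, hGU⟩ := ris_build hG Z G hS (P.L (2 * w)) m (2 * w)
  have hn1 : 1 ≤ P.L (2 * w) := hG.L_pos _
  obtain ⟨n, hn⟩ : ∃ n, n = P.L (2 * w) := ⟨_, rfl⟩
  rw [← hn] at hB hR hδ hGU hn1 hν1 hreg
  rw [← hn]
  have hn0 : (0 : ℝ) < n := by exact_mod_cast hn1
  obtain ⟨ν, hν⟩ : ∃ ν, ν = (n : ℝ) ^ (1 / P.r) := ⟨_, rfl⟩
  obtain ⟨M, hM⟩ : ∃ M, M = (P.M (2 * w) : ℝ) := ⟨_, rfl⟩
  obtain ⟨Q, hQ⟩ : ∃ Q, Q = (8 * (P.Lam (2 * w) : ℝ)) ^ P.e (2 * w) := ⟨_, rfl⟩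
  obtain ⟨h, hh⟩ : ∃ h, h = ((1 : ℝ) / 2) ^ P.e (2 * w) := ⟨_, rfl⟩
  have hQ0 : 0 ≤ Q := by rw [hQ]; positivity
  have hh0 : 0 ≤ h := by rw [hh]; positivity
  have hν0 : 0 < ν := by rw [hν]; linarith
  rw [← hν, ← hM, ← hQ] at hreg
  rw [← hM, ← hh] at hMe
  rw [← hν] at hν1
  rw [← hM] at hMpos hM1
  obtain ⟨c, hc⟩ : ∃ c, c = M / ν := ⟨_, rfl⟩
  have hc0 : 0 < c := by rw [hc]; exact div_pos hMpos hν0
  set X : ℕ → ℕ → ℝ := fun k => Z.comb (x k) with hX
  set S : ℕ → ℕ := fun k => Z.s (μ k) with hSdef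
  have hcomb : Z.comb (c • ∑ k ∈ range n, x k) = fun i => c * lc X (range n) (fun _ => 1) i := by
    rw [comb_smul]
    have := comb_sum Z x (range n) (fun _ => 1)
    simp only [one_smul] at this
    rw [this]
  have hevu : ∀ f : Fn, ev f (Z.comb (c • ∑ k ∈ range n, x k)) =
      c * ev f (lc X (range n) (fun _ => 1)) := by
    intro f
    rw [hcomb, ev_smul_right]
  have hBI : ∀ f, K P f → ∀ S' ⊆ range n, |ev f (lc X S' (fun _ => 1))| ≤
      6 * (1 + Q + h * (S'.card : ℝ) ^ (1 / P.r)) + ∑ k ∈ S', δ k := by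
    intro f hf S' hS'
    rw [hQ, hh]
    refine BI_noex hG hR (2 * w) (P.e (2 * w)) (P.Lam (2 * w)) ?_ ?_ ?_ f hf S' hS' _ ?_
    · have := hG.Lam_ge (2 * w)
      omega
    · intro κ hκ
      exact hG.Lam_L (2 * w) κ hκ
    · intro κ hκ
      exact e_monoE hG hκ
    · intro k
      simp
  have hu_supp : ∀ k ∈ (c • ∑ k ∈ range n, x k).support, m ≤ k ∧ k < μ n := by
    intro k hk
    have h1 := Finsupp.support_smul hk
    have h2 := Finsupp.support_finsetSum h1
    rw [Finset.mem_biUnion] at h2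
    obtain ⟨l, hl, hln⟩ := h2
    have hl' := Finset.mem_range.1 hl
    have h3 := hB.2 l hl' k hln
    exact ⟨(hμ0.trans (hB.1 (Nat.zero_le l))).trans h3.1, h3.2.trans_le (hB.1 hl')⟩
  refine ⟨c • ∑ k ∈ range n, x k, μ n, hμ0.trans (hB.1 (Nat.zero_le _)), hu_supp, ?_, ?_, ?_, ?_, ?_⟩
  · refine ⟨x, c, ?_, ?_, ?_⟩
    · rw [← hn, ← hν, ← hM, abs_of_pos hc0, one_mul, hc]
    · intro k hk
      rw [← hn] at hk
      exact (hGU k hk).1
    · rw [← hn]
  · -- Kle
    intro f hf
    rw [hevu, abs_mul, abs_of_pos hc0]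
    have h1 := hBI f hf (range n) (fun _ h => h)
    rw [Finset.card_range, ← hν] at h1
    have h2 : c * |ev f (lc X (range n) (fun _ => 1))| ≤ c * (6 * (1 + Q + h * ν) + 1) :=
      mul_le_mul_of_nonneg_left (by linarith) hc0.le
    have h3 : c * (6 * (1 + Q + h * ν) + 1) = (M * (7 + 6 * Q)) / ν + 6 * (M * h) := by
      rw [hc]
      field_simp
      ring
    have h4 : (M * (7 + 6 * Q)) / ν ≤ 1 := by
      rw [div_le_one hν0]
      refine le_trans ?_ hreg
      refine mul_le_mul_of_nonneg_left ?_ hMpos.le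
      have : 6 * (3 + Q) * 1 ≤ 6 * (3 + Q) * (P.Lam (2 * w) : ℝ) :=
        mul_le_mul_of_nonneg_left hLam1 (by linarith)
      linarith
    rw [hMe] at h3
    linarith
  · -- KS
    intro κ hκ n' hn' d f hf hb hd
    have h1 := one_step hG hR κ (range n) (fun _ h => h) (fun k _ => lt_of_lt_of_le hκ (hlo k))
      (fun _ => 1) (fun k => by simp) Q h hQ0 hh0 n' hn' d f hf hb hd
      (fun l S' hS' => by
        have := hBI (f l) (hf l) S' hS'
        exact this)
    rw [Finset.card_range, ← hν] at h1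
    have h2 : ∑ l, d l * ev (f l) (Z.comb (c • ∑ k ∈ range n, x k)) =
        c * ∑ l, d l * ev (f l) (lc X (range n) (fun _ => 1)) := by
      rw [Finset.mul_sum]
      refine Finset.sum_congr rfl fun l _ => ?_
      rw [hevu]
      ring
    rw [h2, abs_mul, abs_of_pos hc0]
    have h3 : ((min n (P.L κ) : ℕ) : ℝ) ^ (1 / P.r) ≤ (P.Lam (2 * w) : ℝ) := by
      have a1 : ((min n (P.L κ) : ℕ) : ℝ) ≤ (P.Lam (2 * w) : ℝ) := by
        exact_mod_cast (min_le_right _ _).trans (hG.Lam_L (2 * w) κ hκ)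
      have a2 : 1 / P.r ≤ 1 := by
        rw [div_le_one hr0]
        linarith
      calc ((min n (P.L κ) : ℕ) : ℝ) ^ (1 / P.r) ≤ (P.Lam (2 * w) : ℝ) ^ (1 / P.r) :=
            Real.rpow_le_rpow (Nat.cast_nonneg _) a1 (by positivity)
        _ ≤ (P.Lam (2 * w) : ℝ) ^ (1 : ℝ) := Real.rpow_le_rpow_of_exponent_le hLam1 a2
        _ = _ := Real.rpow_one _
    have h4 : (3 + Q) * ((min n (P.L κ) : ℕ) : ℝ) ^ (1 / P.r) ≤ (3 + Q) * (P.Lam (2 * w) : ℝ) :=
      mul_le_mul_of_nonneg_left h3 (by linarith)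
    have h5 : c * |∑ l, d l * ev (f l) (lc X (range n) (fun _ => 1))| ≤
        c * (6 * ((3 + Q) * (P.Lam (2 * w) : ℝ) + h * ν) + 1) :=
      mul_le_mul_of_nonneg_left (by linarith) hc0.le
    have h6 : c * (6 * ((3 + Q) * (P.Lam (2 * w) : ℝ) + h * ν) + 1) =
        (M * (1 + 6 * (3 + Q) * (P.Lam (2 * w) : ℝ))) / ν + 6 * (M * h) := by
      rw [hc]
      field_simp
      ring
    have h7 : (M * (1 + 6 * (3 + Q) * (P.Lam (2 * w) : ℝ))) / ν ≤ 1 := by
      rw [div_le_one hν0]
      refine le_trans ?_ hreg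
      refine mul_le_mul_of_nonneg_left ?_ hMpos.le
      linarith
    rw [hMe] at h6
    linarith
  · -- large types
    intro κ hκ f hf
    rw [hevu, abs_mul, abs_of_pos hc0, ← hν, ← hM, ← hc]
    have h1 := BI_large hG hR κ f hf (range n) (fun _ h => h) (fun _ => 1) (fun k => by simp)
    rw [Finset.card_range, ← hν] at h1
    have hMκ : (1 : ℝ) ≤ P.M κ := by
      have : 1 ≤ P.M κ := by
        unfold Par.M
        have := Nat.one_le_two_pow (n := P.e κ)
        omega
      exact_mod_cast this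
    have hMκ0 : (0 : ℝ) < P.M κ := by linarith
    have h2 : (5 * 6 * ν + ∑ k ∈ range n, δ k) / (P.M κ : ℝ) ≤ (5 * 6 * ν + 1) / (P.M κ : ℝ) :=
      div_le_div_of_nonneg_right (by linarith) hMκ0.le
    have h3 : c * |ev f (lc X (range n) (fun _ => 1))| ≤
        c * (7 + (5 * 6 * ν + 1) / (P.M κ : ℝ)) :=
      mul_le_mul_of_nonneg_left (by linarith) hc0.le
    have h4 : c * (7 + (5 * 6 * ν + 1) / (P.M κ : ℝ)) = 7 * c + 30 * M / P.M κ + c / P.M κ := by
      have : c * ν = M := by rw [hc]; field_simp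
      rw [← this]
      field_simp
      ring
    have h5 : c / P.M κ ≤ M / P.M κ := by
      refine div_le_div_of_nonneg_right ?_ hMκ0.le
      rw [hc]
      exact div_le_self hMpos.le hν1
    have h6 : 31 * M / (P.M κ : ℝ) = 30 * M / P.M κ + M / P.M κ := by ring
    have h7 : 0 < c := hc0
    linarith
  · -- the functionals
    have hg0 : ∀ l, ∃ f, l < n → K P f ∧ 3 / 4 ≤ ev f (Z.comb (x l)) := by
      intro l
      by_cases hl : l < n
      · obtain ⟨f, hf⟩ := (hGU l hl).2.2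
        exact ⟨f, fun _ => hf⟩
      · exact ⟨0, fun h => absurd h hl⟩
    choose g0 hg0' using hg0
    let g : ℕ → Fn := fun l => res (Z.s (μ l)) (Z.s (μ (l + 1))) (g0 l)
    have hgev : ∀ l l', l' < n → ev (g l) (Z.comb (x l')) =
        if l = l' then ev (g0 l) (Z.comb (x l)) else 0 := by
      intro l l' hl'
      show ev (res _ _ (g0 l)) _ = _
      rw [ev_res, hcutE Z x μ n hB l l' hl']
      split_ifs with h
      · rw [h]
      · exact ev_zero_right _
    have hgK : ∀ l : Fin n, K P (g l) := fun l => K_res hG (hg0' l l.2).1 _ _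
    choose ty hty using hgK
    have hbef : ∀ l l', l < l' → Before (g l) (g l') := by
      intro l l' hl a ha b hb
      have ha' := ha
      have hb' := hb
      rw [res_support, Finset.mem_filter] at ha' hb'
      exact lt_of_lt_of_le ha'.2.2 ((Z.mono.monotone (hB.1 (Nat.succ_le_of_lt hl))).trans hb'.2.1)
    obtain ⟨τ, hτ⟩ : ∃ τ, τ = (n : ℝ) ^ (-(1 / P.rc)) := ⟨_, rfl⟩
    have hτ0 : 0 < τ := by rw [hτ]; exact Real.rpow_pos_of_pos hn0 _
    obtain ⟨q0, hq1, hq2⟩ := exists_rat_btwn (show 3 / 4 * τ < τ by linarith)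
    obtain ⟨q1, hq3, hq4⟩ := exists_rat_btwn hq2
    have hq01 : q0 < q1 := by exact_mod_cast hq3
    let dd : ℚ → Fin n → ℚ := fun t l => if (l : ℕ) = 0 then t else q0
    let F : ℚ → Fn := fun t => (1 / (P.M (2 * w) : ℚ)) • ∑ l : Fin n, dd t l • g l
    have hdd : ∀ t ∈ Set.Ioo q0 q1, ∀ l, 3 / 4 * τ ≤ (dd t l : ℝ) ∧ (dd t l : ℝ) ≤ τ := by
      intro t ht l
      have h1 : (q0 : ℝ) < t := by exact_mod_cast ht.1
      have h2 : (t : ℝ) < q1 := by exact_mod_cast ht.2
      simp only [dd]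
      split_ifs
      · exact ⟨by linarith, by linarith⟩
      · exact ⟨by linarith, by linarith⟩
    have hMq : ((1 / (P.M (2 * w) : ℚ) : ℚ) : ℝ) = 1 / M := by rw [hM]; push_cast; rfl
    have hev : ∀ (t : ℚ) (z : ℕ → ℝ), ev (F t) z = 1 / M * ∑ l : Fin n, (dd t l : ℝ) * ev (g l) z := by
      intro t z
      simp only [F]
      rw [ev_smul_left, ev_sum_left, hMq]
      congr 1
      exact Finset.sum_congr rfl fun l _ => ev_smul_left _ _ _
    refine ⟨F '' Set.Ioo q0 q1, ?_, ?_⟩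
    · refine (Set.Ioo_infinite hq01).image ?_
      intro t _ t' _ htt
      have h1 := congrArg (fun f => ev f (Z.comb (x 0))) htt
      simp only [hev] at h1
      have h2 : ∀ t : ℚ, ∑ l : Fin n, (dd t l : ℝ) * ev (g l) (Z.comb (x 0)) =
          t * ev (g0 0) (Z.comb (x 0)) := by
        intro t
        rw [Finset.sum_eq_single (⟨0, hn1⟩ : Fin n)]
        · rw [hgev _ 0 hn1]
          simp [dd]
        · intro l _ hl
          rw [hgev _ 0 hn1, if_neg, mul_zero]
          intro h0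
          exact hl (Fin.ext h0)
        · intro h0
          exact absurd (Finset.mem_univ _) h0
      rw [h2, h2] at h1
      have h3 := (hg0' 0 hn1).2
      have h4 : 1 / M ≠ 0 := by positivity
      have h5 := mul_left_cancel₀ h4 h1
      have h6 := mul_right_cancel₀ (by linarith : ev (g0 0) (Z.comb (x 0)) ≠ 0) h5
      exact_mod_cast h6
    · rintro _ ⟨t, ht, rfl⟩
      refine ⟨?_, ?_, ?_⟩
      · refine InK.reg (2 * w) w n rfl (le_of_eq hn) (dd t) (fun l => g l) ty hty
          (fun l l' hl => hbef l l' hl) ?_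
        calc ∑ l : Fin n, |(dd t l : ℝ)| ^ P.rc ≤ ∑ _l : Fin n, τ ^ P.rc := by
              refine Finset.sum_le_sum fun l _ => ?_
              have := hdd t ht l
              rw [abs_of_nonneg (by linarith)]
              exact Real.rpow_le_rpow (by linarith) this.2 hrc.le
          _ = n * τ ^ P.rc := by
              rw [Finset.sum_const, Finset.card_univ, Fintype.card_fin, nsmul_eq_mul]
          _ = n * (n : ℝ) ^ (-1 : ℝ) := by
              rw [hτ, ← Real.rpow_mul hn0.le]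
              congr 2
              field_simp
          _ = 1 := by
              rw [Real.rpow_neg_one]
              exact mul_inv_cancel₀ hn0.ne'
          _ ≤ 1 := le_rfl
      · intro i hi
        have h1 := Finsupp.support_smul hi
        have h2 := Finsupp.support_finsetSum h1
        rw [Finset.mem_biUnion] at h2
        obtain ⟨l, -, hln⟩ := h2
        have h3 := Finsupp.support_smul hln
        rw [res_support, Finset.mem_filter] at h3
        refine ⟨le_trans ?_ h3.2.1, lt_of_lt_of_le h3.2.2 ?_⟩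
        · exact Z.mono.monotone (hμ0.trans (hB.1 (Nat.zero_le _)))
        · exact Z.mono.monotone (hB.1 l.2)
      · have hgu : ∀ l : Fin n, ev (g l) (Z.comb (c • ∑ k ∈ range n, x k)) =
            c * ev (g0 l) (Z.comb (x l)) := by
          intro l
          rw [hevu, ev_lc]
          congr 1
          rw [Finset.sum_eq_single (l : ℕ)]
          · rw [one_mul]
            show ev (g l) (Z.comb (x l)) = _
            rw [hgev _ _ l.2, if_pos rfl]
          · intro l' hl' hne
            rw [one_mul]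
            show ev (g l) (Z.comb (x l')) = _
            rw [hgev _ _ (Finset.mem_range.1 hl'), if_neg (Ne.symm hne)]
          · intro hl
            exact absurd (Finset.mem_range.2 l.2) hl
        have hbd : ∀ l : Fin n, 3 / 4 ≤ ev (g0 l) (Z.comb (x l)) ∧ ev (g0 l) (Z.comb (x l)) ≤ 1 := by
          intro l
          refine ⟨(hg0' l l.2).2, ?_⟩
          have := (hGU l l.2).2.1 (g0 l) (hg0' l l.2).1
          exact (le_abs_self _).trans this
        have hprod : (n : ℝ) * τ = ν := by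
          have h5 : (n : ℝ) * (n : ℝ) ^ (-(1 / P.rc)) = (n : ℝ) ^ (1 + -(1 / P.rc)) := by
            rw [Real.rpow_add hn0, Real.rpow_one]
          rw [hτ, h5, hν]
          congr 1
          unfold Par.rc
          field_simp
          ring
        have hsum : ev (F t) (Z.comb (c • ∑ k ∈ range n, x k)) =
            1 / ν * ∑ l : Fin n, (dd t l : ℝ) * ev (g0 l) (Z.comb (x l)) := by
          rw [hev]
          have : ∑ l : Fin n, (dd t l : ℝ) * ev (g l) (Z.comb (c • ∑ k ∈ range n, x k)) =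
              c * ∑ l : Fin n, (dd t l : ℝ) * ev (g0 l) (Z.comb (x l)) := by
            rw [Finset.mul_sum]
            refine Finset.sum_congr rfl fun l _ => ?_
            rw [hgu]
            ring
          rw [this, hc]
          field_simp
        rw [hsum]
        have lo1 : (n : ℝ) * (3 / 4 * τ * (3 / 4)) ≤
            ∑ l : Fin n, (dd t l : ℝ) * ev (g0 l) (Z.comb (x l)) := by
          calc (n : ℝ) * (3 / 4 * τ * (3 / 4)) = ∑ _l : Fin n, (3 / 4 * τ * (3 / 4)) := by
                rw [Finset.sum_const, Finset.card_univ, Fintype.card_fin, nsmul_eq_mul]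
            _ ≤ _ := by
                refine Finset.sum_le_sum fun l _ => ?_
                have a := hdd t ht l
                have b := hbd l
                exact mul_le_mul a.1 b.1 (by norm_num) (by linarith)
        have hi1 : ∑ l : Fin n, (dd t l : ℝ) * ev (g0 l) (Z.comb (x l)) ≤ (n : ℝ) * τ := by
          calc _ ≤ ∑ _l : Fin n, τ := by
                refine Finset.sum_le_sum fun l _ => ?_
                have a := hdd t ht l
                have b := hbd l
                calc _ ≤ τ * 1 := mul_le_mul a.2 b.2 (by linarith) hτ0.le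
                  _ = τ := mul_one _
            _ = (n : ℝ) * τ := by
                rw [Finset.sum_const, Finset.card_univ, Fintype.card_fin, nsmul_eq_mul]
        constructor
        · calc (1 : ℝ) / 2 ≤ 1 / ν * (ν * (9 / 16)) := by
                rw [← mul_assoc, one_div_mul_cancel hν0.ne']
                norm_num
            _ ≤ _ := by
                refine mul_le_mul_of_nonneg_left ?_ (by positivity)
                calc ν * (9 / 16) = (n : ℝ) * (3 / 4 * τ * (3 / 4)) := by rw [← hprod]; ring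
                  _ ≤ _ := lo1
        · calc _ ≤ 1 / ν * ν := by
                refine mul_le_mul_of_nonneg_left ?_ (by positivity)
                rw [← hprod]
                exact hi1
            _ = 1 := one_div_mul_cancel hν0.ne'

end Pool.Agent.HI61
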