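import Pool.Agent.HI61.PosNear
import Pool.Agent.HI61.ALin

/-!
# HI61/ZL : the `X`-component of a vector

PROOF.  Let `ξ0` be from `pos_near` (`p_le_of_Kle`), `J` a bound of the support of `w.2`.  On
`Y = X →L[ℝ] ℝ` let `θ f = f ξ0 + ∑_{n ≤ j < J} Fj P j (f ∘ b) (hat w)`.  `θ (-f) = - θ f` (`Fj_neg`);
bounded on the ball by `Fj_l1` (or `Fj_crude`: `|Fj| ≤ ell j * B`).  If `∑ lam a • f a = 0`, `‖f a‖ ≤ 1`,
then the first part contributes `0` and by `err_lin` (`seq_mem`)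
`|∑ lam a θ (f a)| ≤ ∑_{n ≤ j < J} (B / A j) ∑ |lam a| ≤ M ∑ |lam a|` with `M = B / (2 (nst n + 1))`, because
`A j ≥ 2^(j+2) (nst n + 1)` (`A_high`) and `∑_{j ≥ n} 2^{-j-2} ≤ 1/2`.
`approx_linear` gives `L` on the dual of `X`; by reflexivity `L f = f ξ` for some `ξ : X`.
For `‖v‖ ≤ 1` let `f = v ∘ ι` (`‖f‖ ≤ 1`, `H.vs v = fun k => f (b k)`): by `Th_eq_sum`
`|Th n v w - v (ι ξ)| ≤ |v (pos w) - v (ι ξ0)| + |θ f - f ξ| ≤ 2 B ∑ ep + M`.
`dist_X`: take `n = 0`: the vector `w - (ξ, 0)` has the same `hat` and `|Th 0 v (w - (ξ,0))| ≤ (...) B ≤ 2 B`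
(`∑ ep ≤ ∑ (1/2)^(k+2) ≤ 1/2`), `N3`.
-/

namespace Pool.Agent.HI61

open Finset
open scoped Classical

variable {X V : Type} [NormedAddCommGroup X] [NormedSpace ℝ X]
  [NormedAddCommGroup V] [NormedSpace ℝ V]

private theorem geo (J : ℕ) : ∑ j ∈ range J, (1 / 2 : ℝ) ^ (j + 2) ≤ 1 / 2 := by
  have h : ∀ J : ℕ, ∑ j ∈ range J, (1 / 2 : ℝ) ^ (j + 2) = 1 / 2 - (1 / 2) ^ (J + 1) := by
    intro J
    induction J with
    | zero => norm_num
    | succ J ih =>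
      rw [sum_range_succ, ih]
      ring
  rw [h]
  have : (0 : ℝ) < (1 / 2) ^ (J + 1) := by positivity
  linarith

private theorem geo' (s : Finset ℕ) : ∑ j ∈ s, (1 / 2 : ℝ) ^ (j + 2) ≤ 1 / 2 := by
  refine (sum_le_sum_of_subset_of_nonneg (t := range (s.sup id + 1)) ?_ ?_).trans (geo _)
  · intro j hj
    exact mem_range.2 (Nat.lt_succ_of_le (le_sup (f := id) hj))
  · intro j _ _
    positivity

theorem zl (H : Host X V) (hrefl : Function.Surjective (NormedSpace.inclusionInDoubleDual ℝ X))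
    (w : W0 X) (n : ℕ) (B : ℝ) (hB : 0 < B) (hw : Kle H.P (H.hat w) B) :
    ∃ ξ : X, ∀ v : V →L[ℝ] ℝ, ‖v‖ ≤ 1 → |H.Th n v w - v (H.F.ι ξ)| ≤
      (2 * ∑ k ∈ w.2.support, H.F.ep k + 1 / (2 * (H.P.nst n + 1))) * B := by
  obtain ⟨ξ0, hξ0⟩ := pos_near H w B hB (p_le_of_Kle H w B hw)
  obtain ⟨J, hJ⟩ : ∃ J, ∀ k ∈ w.2.support, k ≤ J :=
    ⟨w.2.support.sup id, fun k hk => le_sup (f := id) hk⟩
  have hnst : (0 : ℝ) < 2 * ((H.P.nst n : ℝ) + 1) := by positivity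
  obtain ⟨θ, hθ⟩ : ∃ θ : (X →L[ℝ] ℝ) → ℝ, ∀ f, θ f = f ξ0 +
      ∑ j ∈ Ico n J, Fj H.P j (fun k => f (H.F.b k)) (H.hat w) := ⟨_, fun _ => rfl⟩
  have key := approx_linear θ (B / (2 * ((H.P.nst n : ℝ) + 1)))
    (‖ξ0‖ + ∑ j ∈ Ico n J, (H.P.ell j : ℝ) * B) (by positivity) ?_ ?_ ?_
  · obtain ⟨L, hL⟩ := key
    obtain ⟨ξ, hξ⟩ := hrefl L
    refine ⟨ξ, fun v hv => ?_⟩
    have hf : ‖v.comp H.F.ι.toContinuousLinearMap‖ ≤ 1 := by
      refine ContinuousLinearMap.opNorm_le_bound _ zero_le_one fun x => ?_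
      rw [one_mul]
      calc ‖v (H.F.ι x)‖ ≤ ‖v‖ * ‖H.F.ι x‖ := v.le_opNorm _
        _ ≤ 1 * ‖H.F.ι x‖ := mul_le_mul_of_nonneg_right hv (norm_nonneg _)
        _ = ‖x‖ := by rw [one_mul, LinearIsometry.norm_map]
    have h1 := hL _ hf
    rw [← hξ, hθ] at h1
    have h2 : |v (H.pos w) - v (H.F.ι ξ0)| ≤ 2 * B * ∑ k ∈ w.2.support, H.F.ep k := by
      rw [← map_sub]
      calc |v (H.pos w - H.F.ι ξ0)| ≤ ‖v‖ * ‖H.pos w - H.F.ι ξ0‖ := v.le_opNorm _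
        _ ≤ 1 * ‖H.pos w - H.F.ι ξ0‖ := mul_le_mul_of_nonneg_right hv (norm_nonneg _)
        _ ≤ _ := by rw [one_mul]; exact hξ0
    rw [Th_eq_sum H w v J hJ n]
    have h3 : v (H.pos w) + ∑ j ∈ Ico n J, Fj H.P j (H.vs v) (H.hat w) - v (H.F.ι ξ) =
        (v (H.pos w) - v (H.F.ι ξ0)) + ((v.comp H.F.ι.toContinuousLinearMap) ξ0 +
          ∑ j ∈ Ico n J, Fj H.P j (fun k => (v.comp H.F.ι.toContinuousLinearMap) (H.F.b k))
            (H.hat w) - (NormedSpace.inclusionInDoubleDual ℝ X ξ)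
              (v.comp H.F.ι.toContinuousLinearMap)) := by
      have h4 : (NormedSpace.inclusionInDoubleDual ℝ X ξ)
          (v.comp H.F.ι.toContinuousLinearMap) = v (H.F.ι ξ) := rfl
      have h5 : (v.comp H.F.ι.toContinuousLinearMap) ξ0 = v (H.F.ι ξ0) := rfl
      have h6 : (fun k => (v.comp H.F.ι.toContinuousLinearMap) (H.F.b k)) = H.vs v := rfl
      rw [h4, h5, h6]
      ring
    rw [h3]
    refine (abs_add_le _ _).trans ((add_le_add h2 h1).trans (le_of_eq ?_))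
    ring
  · intro f hf
    rw [hθ]
    refine (abs_add_le _ _).trans (add_le_add ?_ ?_)
    · calc |f ξ0| ≤ ‖f‖ * ‖ξ0‖ := f.le_opNorm _
        _ ≤ 1 * ‖ξ0‖ := mul_le_mul_of_nonneg_right hf (norm_nonneg _)
        _ = ‖ξ0‖ := one_mul _
    · refine (abs_sum_le_sum_abs _ _).trans (sum_le_sum fun j _ => ?_)
      exact Fj_crude H.good j _ (seq_mem H f hf) _ B hw
  · intro f
    rw [hθ, hθ]
    have h1 : (fun k => (-f) (H.F.b k)) = -(fun k => f (H.F.b k)) := rfl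
    rw [h1]
    simp only [Fj_neg, sum_neg_distrib, neg_apply]
    ring
  · intro m lam y hy h0
    have hlin : ∀ x : X, ∑ a, lam a * (y a) x = 0 := by
      intro x
      have h1 : (∑ a, lam a • y a) x = 0 := by rw [h0]; rfl
      rw [_root_.sum_apply] at h1
      exact h1
    have h1 : ∑ a, lam a * θ (y a) = ∑ j ∈ Ico n J,
        ∑ a, lam a * Fj H.P j (fun k => (y a) (H.F.b k)) (H.hat w) := by
      rw [sum_comm]
      simp only [hθ, mul_add, sum_add_distrib, hlin, zero_add]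
      exact sum_congr rfl fun a _ => mul_sum _ _ _
    have hL0 : 0 ≤ ∑ a, |lam a| := sum_nonneg fun a _ => abs_nonneg _
    rw [h1]
    refine (abs_sum_le_sum_abs _ _).trans ?_
    have h2 : ∀ j ∈ Ico n J,
        |∑ a, lam a * Fj H.P j (fun k => (y a) (H.F.b k)) (H.hat w)| ≤
          (1 / 2 : ℝ) ^ (j + 2) * ((∑ a, |lam a|) * B / ((H.P.nst n : ℝ) + 1)) := by
      intro j hj
      have h3 := err_lin H.good j m lam (fun a k => (y a) (H.F.b k))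
        (fun a => seq_mem H (y a) (hy a)) (fun k => hlin _) (H.hat w) B hw
      have h4 : (2 : ℝ) ^ (j + 2) * ((H.P.nst n : ℝ) + 1) ≤ H.P.A j := by
        exact_mod_cast H.good.A_high n j (mem_Ico.1 hj).1
      have h5 := (mul_le_mul_of_nonneg_right h4 (abs_nonneg _)).trans h3
      have h6 : (0 : ℝ) < (2 : ℝ) ^ (j + 2) * ((H.P.nst n : ℝ) + 1) := by positivity
      rw [← le_div_iff₀' h6] at h5
      refine h5.trans (le_of_eq ?_)
      rw [one_div, inv_pow]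
      field_simp
    refine (sum_le_sum h2).trans ?_
    rw [← sum_mul]
    have h7 := geo' (Ico n J)
    have h8 : 0 ≤ (∑ a, |lam a|) * B / ((H.P.nst n : ℝ) + 1) := by positivity
    refine (mul_le_mul_of_nonneg_right h7 h8).trans (le_of_eq ?_)
    field_simp

theorem dist_X (H : Host X V) (hrefl : Function.Surjective (NormedSpace.inclusionInDoubleDual ℝ X))
    (pW : Seminorm ℝ (W0 X)) (hN : H.IsNorm pW) (w : W0 X) (B : ℝ) (hB : 0 < B)
    (hw : Kle H.P (H.hat w) B) : ∃ ξ : X, pW (w - (ξ, 0)) ≤ 2 * B := by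
  obtain ⟨ξ, hξ⟩ := zl H hrefl w 0 B hB hw
  have hhat : H.hat (w - (ξ, 0)) = H.hat w := by
    funext i
    rw [hat_apply, hat_apply]
    have h1 : (w - (ξ, 0) : W0 X).2 = w.2 := by
      rw [Prod.snd_sub]
      exact sub_zero w.2
    rw [h1]
  refine ⟨ξ, hN.N3 _ _ (by positivity) (fun v hv => ?_) ?_⟩
  · have h1 : (w - (ξ, 0) : W0 X) = w + (-1 : ℝ) • ((ξ, 0) : W0 X) := by
      refine Prod.ext ?_ ?_
      · show w.1 - ξ = w.1 + (-1 : ℝ) • ξ
        rw [neg_smul, one_smul, sub_eq_add_neg]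
      · show w.2 - 0 = w.2 + (-1 : ℝ) • (0 : ℕ →₀ Eb X)
        rw [smul_zero]
        exact (sub_zero w.2).trans (add_zero w.2).symm
    rw [h1, Th_add H 0 v hv, Th_smul H 0 v hv, Th_X]
    have h2 : H.Th 0 v w + -1 * v (H.F.ι ξ) = H.Th 0 v w - v (H.F.ι ξ) := by ring
    rw [h2]
    refine (hξ v hv).trans (mul_le_mul_of_nonneg_right ?_ hB.le)
    have h3 : ∑ k ∈ w.2.support, H.F.ep k ≤ 1 / 2 :=
      (sum_le_sum fun k _ => H.F.ep_le k).trans (geo' _)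
    have h4 : 1 / (2 * ((H.P.nst 0 : ℝ) + 1)) ≤ 1 := by
      rw [div_le_one (by positivity)]
      have : (0 : ℝ) ≤ H.P.nst 0 := Nat.cast_nonneg _
      linarith
    linarith
  · rw [hhat]
    intro f hf
    exact (hw f hf).trans (by linarith)

end Pool.Agent.HI61
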