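import Pool.Agent.HI61.WDefs3
import Pool.Agent.HI61.ZL
import Pool.Agent.HI61.QAlg

/-!
# HI61/FarExt : a subspace far from `X` contains (up to a perturbation) a far sequence

PROOF.  Let `η_n > 0` be such that `η_n ≤ 1/2` and `24 (1 + c) ∑ η_n ≤ c / 2` (e.g. `η_n = c (1/2)^(n+8) / (1+c)`,
`c ≤ 1`: take `u ∈ U`, `x = 0`).  Choose recursively `s 0 = 0`, and for every `n` a vector `u_n ∈ U` with
`‖u_n‖ = 1`, `Q (s n) u_n = 0` (possible: `Q (s n)` has finite rank by `Q_range`, `U` is infinite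
dimensional), `w ∈ W0` with `‖u_n - j w‖ ≤ η_n / 16` (`dense`), `N ≥ s n` with
`‖Q N (j w) - j w‖ ≤ η_n / 2` (`Q_lim`), `z n = Qk N w - Qk (s n) w`, `s (n+1) = N + 1`.
Then `‖u_n - j (z n)‖ ≤ ‖u_n - j w‖ + ‖j w - Q N (j w)‖ + ‖Q (s n) (j w - u_n)‖ ≤ η_n/16 + η_n/2 + 6 η_n/16 ≤ η_n`.
`Qk_diff_supp`: `(z n).1 = 0`, the support of `z n` is in `[s n, s (n+1))`, and `Qk k (z n) = 0` for `k < s n`; also
`Qk k (z n) = z n` for `k ≥ s (n+1) - 1` (`Qk_of_supp`).  `pW (z n) = ‖j (z n)‖ ≥ 1 - η_n ≥ 1/2 > 0`.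
Let `a : ℕ →₀ ℝ`, `y = T0 z a`, `u = ∑ a n • u_n ∈ U`.  For every `n`,
`Qk (s (n+1) - 1) y - Qk (s n - 1) y = a n • z n` (for `s n = 0` the second term is missing; use `s n ≤ s (n+1) - 1`),
so `|a n| / 2 ≤ |a n| pW (z n) ≤ 12 pW y`, `|a n| ≤ 24 pW y`, and
`‖u - j y‖ ≤ ∑ |a n| η_n ≤ 24 (∑ η_n) pW y`.
Let `Kle (hat y) B`, and `B' > B` arbitrary, so `B' > 0`: by `dist_X` there is `ξ` with `‖j y - j (ξ, 0)‖ ≤ 2 B'`.  Hence
`c ‖u‖ ≤ ‖u - j (ξ, 0)‖ ≤ ‖u - j y‖ + 2 B'` and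
`c pW y ≤ c ‖u‖ + c ‖u - j y‖ ≤ 2 B' + (1 + c) ‖u - j y‖ ≤ 2 B' + (c/2) pW y`, so `pW y ≤ (4 / c) B'`.  Let
`B' → B`: `CZ = max 1 (4 / c)`.
-/

namespace Pool.Agent.HI61

open Finset

variable {X V : Type} [NormedAddCommGroup X] [NormedSpace ℝ X]
  [NormedAddCommGroup V] [NormedSpace ℝ V]

private theorem fe_ker {H : Host X V} {pW : Seminorm ℝ (W0 X)} {W : Type}
    [NormedAddCommGroup W] [NormedSpace ℝ W] (Cm : Comp H pW W) (U : Submodule ℝ W)
    (hUinf : ¬ FiniteDimensional ℝ U) (k : ℕ) : ∃ u ∈ U, ‖u‖ = 1 ∧ Cm.Q k u = 0 := by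
  classical
  have hfin : {y | ∃ l i, l ≤ k ∧ i < (H.pel l).n ∧
      y = Cm.j (H.eb l (Finsupp.single i 1))}.Finite := by
    have h1 : {y | ∃ l i, l ≤ k ∧ i < (H.pel l).n ∧
        y = Cm.j (H.eb l (Finsupp.single i 1))} ⊆
        ↑((range (k + 1)).biUnion fun l => (range (H.pel l).n).image fun i =>
          Cm.j (H.eb l (Finsupp.single i 1))) := by
      rintro y ⟨l, i, hl, hi, rfl⟩
      refine mem_coe.2 (mem_biUnion.2 ⟨l, mem_range.2 (by omega), mem_image.2 ⟨i, mem_range.2 hi,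
        rfl⟩⟩)
    exact (Finset.finite_toSet _).subset h1
  set F := Submodule.span ℝ {y | ∃ l i, l ≤ k ∧ i < (H.pel l).n ∧
      y = Cm.j (H.eb l (Finsupp.single i 1))} with hF
  have : FiniteDimensional ℝ F := FiniteDimensional.span_of_finite ℝ hfin
  let L : U →ₗ[ℝ] F := LinearMap.codRestrict F
    ((Cm.Q k : W →ₗ[ℝ] W).comp U.subtype) (fun x => Cm.Q_range k x)
  have hni : ¬ Function.Injective L := fun h => hUinf (FiniteDimensional.of_injective L h)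
  have hker : ∃ v : U, v ≠ 0 ∧ L v = 0 := by
    by_contra hcon
    push Not at hcon
    apply hni
    rw [← LinearMap.ker_eq_bot, LinearMap.ker_eq_bot']
    intro v hv
    by_contra hv0
    exact hcon v hv0 hv
  obtain ⟨v, hv0, hv⟩ := hker
  have hv1 : (v : W) ≠ 0 := fun h => hv0 (Subtype.ext h)
  have hn : 0 < ‖(v : W)‖ := norm_pos_iff.2 hv1
  have hQ : Cm.Q k (v : W) = 0 := congrArg Subtype.val hv
  refine ⟨‖(v : W)‖⁻¹ • (v : W), U.smul_mem _ v.2, ?_, ?_⟩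
  · rw [norm_smul, norm_inv, norm_norm, inv_mul_cancel₀ hn.ne']
  · rw [map_smul, hQ, smul_zero]

private theorem j_sub {H : Host X V} {pW : Seminorm ℝ (W0 X)} {W : Type}
    [NormedAddCommGroup W] [NormedSpace ℝ W] (Cm : Comp H pW W) (a b : W0 X) :
    Cm.j (a - b) = Cm.j a - Cm.j b := map_sub Cm.j a b

private theorem fe_step {H : Host X V} {pW : Seminorm ℝ (W0 X)} {W : Type}
    [NormedAddCommGroup W] [NormedSpace ℝ W] (Cm : Comp H pW W) (U : Submodule ℝ W)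
    (hUinf : ¬ FiniteDimensional ℝ U) (k : ℕ) (η : ℝ) (hη : 0 < η) :
    ∃ (N : ℕ) (w : W0 X) (u : W), k ≤ N ∧ u ∈ U ∧ ‖u‖ = 1 ∧
      ‖u - Cm.j (Qk X N w - Qk X k w)‖ ≤ η := by
  obtain ⟨u, hu, hu1, hu0⟩ := fe_ker Cm U hUinf k
  obtain ⟨w, hw⟩ := Cm.dense.exists_dist_lt u (show 0 < η / 16 by positivity)
  rw [dist_eq_norm] at hw
  obtain ⟨N, hN1, hN2⟩ : ∃ N, k ≤ N ∧ ‖Cm.Q N (Cm.j w) - Cm.j w‖ < η / 2 := by
    have h1 := (Metric.tendsto_atTop.1 (Cm.Q_lim (Cm.j w))) (η / 2) (by positivity)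
    obtain ⟨M, hM⟩ := h1
    refine ⟨max k M, le_max_left _ _, ?_⟩
    rw [← dist_eq_norm]
    exact hM _ (le_max_right _ _)
  refine ⟨N, w, u, hN1, hu, hu1, ?_⟩
  rw [j_sub, ← Cm.Q_j, ← Cm.Q_j]
  have h1 : u - (Cm.Q N (Cm.j w) - Cm.Q k (Cm.j w)) =
      (u - Cm.j w) - (Cm.Q N (Cm.j w) - Cm.j w) - Cm.Q k (u - Cm.j w) := by
    rw [map_sub, hu0]
    abel
  rw [h1]
  have h2 := Cm.Q_le k (u - Cm.j w)
  calc ‖(u - Cm.j w) - (Cm.Q N (Cm.j w) - Cm.j w) - Cm.Q k (u - Cm.j w)‖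
      ≤ ‖(u - Cm.j w) - (Cm.Q N (Cm.j w) - Cm.j w)‖ + ‖Cm.Q k (u - Cm.j w)‖ := norm_sub_le _ _
    _ ≤ (‖u - Cm.j w‖ + ‖Cm.Q N (Cm.j w) - Cm.j w‖) + ‖Cm.Q k (u - Cm.j w)‖ := by
        gcongr
        exact norm_sub_le _ _
    _ ≤ η := by linarith

private theorem fe_geo (S : Finset ℕ) : ∑ n ∈ S, (1 / 2 : ℝ) ^ (n + 8) ≤ 1 / 128 := by
  have h : ∀ J : ℕ, ∑ j ∈ range J, (1 / 2 : ℝ) ^ (j + 8) = 1 / 128 - (1 / 2) ^ (J + 7) := by
    intro J
    induction J with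
    | zero => norm_num
    | succ J ih =>
      rw [sum_range_succ, ih]
      ring
  refine (sum_le_sum_of_subset_of_nonneg (t := range (S.sup id + 1)) ?_ ?_).trans ?_
  · intro j hj
    exact mem_range.2 (Nat.lt_succ_of_le (le_sup (f := id) hj))
  · intro j _ _
    positivity
  · rw [h]
    have : (0 : ℝ) < (1 / 2) ^ (S.sup id + 1 + 7) := by positivity
    linarith

theorem exists_farSeq (H : Host X V) (hrefl : Reflexive' X) (pW : Seminorm ℝ (W0 X))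
    (hN : H.IsNorm pW) {W : Type} [NormedAddCommGroup W] [NormedSpace ℝ W] [CompleteSpace W]
    (Cm : Comp H pW W) (U : Submodule ℝ W) (hU : IsClosed (U : Set W))
    (hUinf : ¬ FiniteDimensional ℝ U) (c : ℝ) (hc : 0 < c)
    (hfar : ∀ u ∈ U, ∀ x : X, c * ‖u‖ ≤ ‖u - Cm.j (x, 0)‖) : Nonempty (FarSeq H pW) := by
  classical
  obtain ⟨η, hη⟩ : ∃ η : ℕ → ℝ, ∀ n, η n = c / (1 + c) * (1 / 2) ^ (n + 8) := ⟨_, fun _ => rfl⟩
  have hc1 : c / (1 + c) ≤ 1 := by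
    rw [div_le_one (by linarith)]
    linarith
  have hη0 : ∀ n, 0 < η n := fun n => by
    rw [hη]
    positivity
  have hη1 : ∀ n, η n ≤ 1 / 2 := fun n => by
    rw [hη]
    have h1 : ((1 : ℝ) / 2) ^ (n + 8) ≤ 1 / 2 := by
      have := fe_geo {n}
      rw [sum_singleton] at this
      linarith
    calc c / (1 + c) * (1 / 2) ^ (n + 8) ≤ 1 * (1 / 2) ^ (n + 8) := by gcongr
      _ ≤ 1 / 2 := by rw [one_mul]; exact h1
  have hstep := fun (k n : ℕ) => fe_step Cm U hUinf k (η n) (hη0 n)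
  choose N w u hN1 hu hu1 hclose using hstep
  obtain ⟨s, hs0, hs⟩ : ∃ s : ℕ → ℕ, s 0 = 0 ∧ ∀ n, s (n + 1) = N (s n) n + 1 :=
    ⟨fun n => Nat.rec 0 (fun n k => N k n + 1) n, rfl, fun _ => rfl⟩
  obtain ⟨z, hz⟩ : ∃ z : ℕ → W0 X, ∀ n, z n = Qk X (N (s n) n) (w (s n) n) -
      Qk X (s n) (w (s n) n) := ⟨_, fun _ => rfl⟩
  have hmono : StrictMono s := strictMono_nat_of_lt_succ fun n => by
    rw [hs]
    exact Nat.lt_succ_of_le (hN1 _ _)
  have hz1 : ∀ n, (z n).1 = 0 := fun n => by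
    rw [hz]
    exact (Qk_diff_supp _ _ _ (hN1 _ _)).1
  have hz2 : ∀ n, ∀ k ∈ (z n).2.support, s n ≤ k ∧ k ≤ N (s n) n := fun n k hk => by
    rw [hz] at hk
    exact (Qk_diff_supp _ _ _ (hN1 _ _)).2.1 k hk
  have hz3 : ∀ n, ∀ k < s n, Qk X k (z n) = 0 := fun n k hk => by
    rw [hz]
    exact (Qk_diff_supp _ _ _ (hN1 _ _)).2.2 k hk
  have hz4 : ∀ n, ∀ k, N (s n) n ≤ k → Qk X k (z n) = z n := fun n k hk =>
    Qk_of_supp k (z n) (hz1 n) fun l hl => ((hz2 n l hl).2).trans hk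
  have hcl : ∀ n, ‖u (s n) n - Cm.j (z n)‖ ≤ η n := fun n => by
    rw [hz]
    exact hclose _ _
  have hpos : ∀ n, 1 / 2 ≤ ‖Cm.j (z n)‖ := fun n => by
    have h1 := norm_sub_norm_le (u (s n) n) (Cm.j (z n))
    have h2 := hcl n
    have h3 := hη1 n
    rw [hu1] at h1
    linarith
  -- the coordinate operators
  have hD : ∀ n, ∃ D : W →ₗ[ℝ] W, (∀ x, ‖D x‖ ≤ 12 * ‖x‖) ∧
      ∀ m, D (Cm.j (z m)) = if m = n then Cm.j (z m) else 0 := by
    intro n
    have hA : ∀ m k, k < s m → Cm.Q k (Cm.j (z m)) = 0 := fun m k hk => by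
      rw [Cm.Q_j, hz3 m k hk, map_zero]
    have hB : ∀ m k, N (s m) m ≤ k → Cm.Q k (Cm.j (z m)) = Cm.j (z m) := fun m k hk => by
      rw [Cm.Q_j, hz4 m k hk]
    cases n with
    | zero =>
      refine ⟨(Cm.Q (N (s 0) 0) : W →ₗ[ℝ] W), fun x => ?_, fun m => ?_⟩
      · have h1 := Cm.Q_le (N (s 0) 0) x
        have h2 := norm_nonneg x
        show ‖Cm.Q (N (s 0) 0) x‖ ≤ 12 * ‖x‖
        linarith
      · show Cm.Q (N (s 0) 0) (Cm.j (z m)) = _
        split_ifs with h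
        · rw [h]
          exact hB 0 _ le_rfl
        · refine hA m _ ?_
          have h1 : s 1 ≤ s m := hmono.monotone (by omega)
          rw [hs 0] at h1
          omega
    | succ n =>
      refine ⟨(Cm.Q (N (s (n + 1)) (n + 1)) : W →ₗ[ℝ] W) - (Cm.Q (N (s n) n) : W →ₗ[ℝ] W),
        fun x => ?_, fun m => ?_⟩
      · show ‖Cm.Q (N (s (n + 1)) (n + 1)) x - Cm.Q (N (s n) n) x‖ ≤ 12 * ‖x‖
        have h1 := Cm.Q_le (N (s (n + 1)) (n + 1)) x
        have h2 := Cm.Q_le (N (s n) n) x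
        have h3 := norm_sub_le (Cm.Q (N (s (n + 1)) (n + 1)) x) (Cm.Q (N (s n) n) x)
        linarith
      · show Cm.Q (N (s (n + 1)) (n + 1)) (Cm.j (z m)) - Cm.Q (N (s n) n) (Cm.j (z m)) = _
        rcases lt_trichotomy m (n + 1) with h | h | h
        · have h1 : s (m + 1) ≤ s (n + 1) := hmono.monotone (by omega)
          rw [hs m, hs n] at h1
          have h2 := hN1 (s (n + 1)) (n + 1)
          rw [hs n] at h2
          rw [if_neg (by omega), hB m _ (by rw [hs n]; omega), hB m _ (by omega), sub_self]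
        · subst h
          rw [if_pos rfl, hB (n + 1) _ le_rfl, hA (n + 1) _ (by rw [hs n]; omega), sub_zero]
        · have h1 : s (n + 1 + 1) ≤ s m := hmono.monotone (by omega)
          have h3 := h1
          rw [hs (n + 1)] at h1
          have h2 : s (n + 1) ≤ s m := hmono.monotone (by omega)
          rw [hs n] at h2
          rw [if_neg (by omega), hA m _ (by omega), hA m _ (by omega), sub_self]
  have hcoef : ∀ (a : ℕ →₀ ℝ) (n : ℕ), |a n| ≤ 24 * pW (T0 z a) := by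
    intro a n
    obtain ⟨D, hD1, hD2⟩ := hD n
    have h1 : D (Cm.j (T0 z a)) = a n • Cm.j (z n) := by
      rw [T0, Finsupp.sum, map_sum, map_sum]
      simp only [map_smul, hD2, smul_ite, smul_zero]
      rw [sum_ite_eq' a.support n (fun m => a m • Cm.j (z m))]
      split_ifs with h
      · rfl
      · rw [Finsupp.notMem_support_iff.1 h, zero_smul]
    have h2 := hD1 (Cm.j (T0 z a))
    rw [h1, norm_smul, Real.norm_eq_abs, Cm.norm_j (T0 z a)] at h2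
    have h3 := hpos n
    have h4 := abs_nonneg (a n)
    nlinarith
  refine ⟨⟨z, s, hmono, hz1, fun n k hk => ?_, fun n => ?_, max 1 (4 / c), le_max_left _ _, ?_⟩⟩
  · have h1 := hz2 n k hk
    rw [hs]
    omega
  · rw [← Cm.norm_j]
    have := hpos n
    linarith
  · intro a B hB hK
    have hpy : 0 ≤ pW (T0 z a) := apply_nonneg pW _
    obtain ⟨v, hv⟩ : ∃ v : W, v = ∑ n ∈ a.support, a n • u (s n) n := ⟨_, rfl⟩
    have hvU : v ∈ U := by
      rw [hv]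
      exact U.sum_mem fun n _ => U.smul_mem _ (hu _ _)
    have hdist : ‖v - Cm.j (T0 z a)‖ ≤ 24 * pW (T0 z a) * (c / (1 + c) * (1 / 128)) := by
      rw [hv, T0, Finsupp.sum, map_sum, ← sum_sub_distrib]
      refine (norm_sum_le _ _).trans ?_
      have h1 : ∀ n ∈ a.support, ‖a n • u (s n) n - Cm.j (a n • z n)‖ ≤
          24 * pW (T0 z a) * (c / (1 + c)) * (1 / 2) ^ (n + 8) := by
        intro n _
        rw [map_smul, ← smul_sub, norm_smul, Real.norm_eq_abs]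
        calc |a n| * ‖u (s n) n - Cm.j (z n)‖ ≤ (24 * pW (T0 z a)) * η n :=
              mul_le_mul (hcoef a n) (hcl n) (norm_nonneg _) (by positivity)
          _ = _ := by rw [hη]; ring
      refine (sum_le_sum h1).trans ?_
      rw [← mul_sum]
      have h2 := fe_geo a.support
      have h3 : 0 ≤ 24 * pW (T0 z a) * (c / (1 + c)) := by positivity
      calc _ ≤ 24 * pW (T0 z a) * (c / (1 + c)) * (1 / 128) := mul_le_mul_of_nonneg_left h2 h3
        _ = _ := by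
          rw [T0, Finsupp.sum]
          ring
    have hkey : ∀ B', B < B' → c * pW (T0 z a) ≤ 4 * B' := by
      intro B' hB'
      have hB0 : 0 < B' := lt_of_le_of_lt hB hB'
      obtain ⟨ξ, hξ⟩ := dist_X H hrefl pW hN (T0 z a) B' hB0 fun f hf => (hK f hf).trans hB'.le
      rw [← Cm.norm_j, j_sub] at hξ
      have h1 := hfar v hvU ξ
      have h2 : ‖v - Cm.j (ξ, 0)‖ ≤ ‖v - Cm.j (T0 z a)‖ + 2 * B' := by
        have h3 : v - Cm.j (ξ, 0) = (v - Cm.j (T0 z a)) + (Cm.j (T0 z a) - Cm.j (ξ, 0)) := by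
          abel
        rw [h3]
        exact (norm_add_le _ _).trans (by linarith)
      have h4 : pW (T0 z a) ≤ ‖v‖ + ‖v - Cm.j (T0 z a)‖ := by
        rw [← Cm.norm_j]
        have h5 : Cm.j (T0 z a) = v - (v - Cm.j (T0 z a)) := by abel
        calc ‖Cm.j (T0 z a)‖ = ‖v - (v - Cm.j (T0 z a))‖ := by rw [← h5]
          _ ≤ _ := norm_sub_le _ _
      have h6 : c * pW (T0 z a) ≤ c * ‖v‖ + c * ‖v - Cm.j (T0 z a)‖ := by
        rw [← mul_add]
        exact mul_le_mul_of_nonneg_left h4 hc.le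
      have h7 : (1 + c) * ‖v - Cm.j (T0 z a)‖ ≤ c * pW (T0 z a) / 2 := by
        calc (1 + c) * ‖v - Cm.j (T0 z a)‖ ≤
              (1 + c) * (24 * pW (T0 z a) * (c / (1 + c) * (1 / 128))) := by gcongr
          _ = c * pW (T0 z a) * (24 / 128) := by field_simp
          _ ≤ c * pW (T0 z a) / 2 := by
              have : 0 ≤ c * pW (T0 z a) := by positivity
              linarith
      linarith
    have hfin : c * pW (T0 z a) ≤ 4 * B := by
      refine le_of_forall_pos_le_add fun ε hε => ?_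
      have := hkey (B + ε / 4) (by linarith)
      linarith
    have h8 : pW (T0 z a) ≤ 4 / c * B := by
      rw [div_mul_eq_mul_div, le_div_iff₀ hc]
      linarith
    exact h8.trans (mul_le_mul_of_nonneg_right (le_max_right _ _) hB)

end Pool.Agent.HI61
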