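import Pool.Agent.HI61.WDefs3
import Pool.Agent.HI61.Coord

/-!
# HI61/FarUnit : the tails of a far sequence contain vectors of norm one

PROOF.  For `m` let `z = Fs.toB.comb (single m 1) = hat (Fs.z m)`.  Let `S = sup {|ev f z| | f ∈ K}`; finite by
`Kle_of_bounded` (bounded, supported in blocks `< Fs.s (m+1)`).  `S > 0`: otherwise `Kle (hat (T0 z (single m 1))) 0`
and `far` gives `pW (z m) ≤ 0`, contradiction to `pos`.  `a = single m S⁻¹`: `Kle 1`, and there is `f` with
`|ev f z| ≥ 3/4 S`; change the sign of `f` if necessary (`K_neg`).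
-/

namespace Pool.Agent.HI61

variable {X V : Type} [NormedAddCommGroup X] [NormedSpace ℝ X]
  [NormedAddCommGroup V] [NormedSpace ℝ V]

theorem far_nonTriv {H : Host X V} {pW : Seminorm ℝ (W0 X)} (Fs : FarSeq H pW) :
    NonTriv H.P Fs.toB := by
  classical
  intro m
  have hG := H.good
  set a0 : ℕ →₀ ℝ := Finsupp.single m 1 with ha0
  set z : ℕ → ℝ := Fs.toB.comb a0 with hz
  obtain ⟨B, hB⟩ := comb_bd Fs.toB a0
  have hsupp : ∀ i, z i ≠ 0 → blk i < Fs.toB.s (m + 1) := by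
    intro i hi
    refine (comb_supp Fs.toB a0 m (m + 1) ?_ i hi).2
    intro n hn
    have h1 : n ∈ ({m} : Finset ℕ) := Finsupp.support_single_subset hn
    rw [Finset.mem_singleton] at h1
    omega
  have hKle := Kle_of_bounded hG z B hB (Fs.toB.s (m + 1)) hsupp
  let T : Set ℝ := {t | ∃ f, K H.P f ∧ t = |ev f z|}
  have hTne : T.Nonempty := ⟨_, 0, K_zero hG, rfl⟩
  have hTbd : BddAbove T := by
    refine ⟨(Fs.toB.s (m + 1) : ℝ) * B, ?_⟩
    rintro t ⟨f, hf, rfl⟩
    exact hKle f hf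
  have hle : ∀ f, K H.P f → |ev f z| ≤ sSup T := fun f hf => le_csSup hTbd ⟨f, hf, rfl⟩
  have hS : 0 < sSup T := by
    by_contra hcon
    push Not at hcon
    have h0 : Kle H.P (H.hat (T0 Fs.z a0)) 0 := by
      rw [← toB_comb]
      intro f hf
      exact (hle f hf).trans hcon
    have h1 := Fs.far a0 0 le_rfl h0
    rw [mul_zero] at h1
    have h2 : T0 Fs.z a0 = Fs.z m := by
      rw [T0, ha0, Finsupp.sum_single_index (by simp)]
      exact one_smul ℝ (Fs.z m)
    rw [h2] at h1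
    exact absurd (Fs.pos m) (not_lt.2 h1)
  have hcomb : Fs.toB.comb (Finsupp.single m (sSup T)⁻¹) = fun i => (sSup T)⁻¹ * z i := by
    have h1 : (Finsupp.single m (sSup T)⁻¹ : ℕ →₀ ℝ) = (sSup T)⁻¹ • a0 := by
      rw [ha0, Finsupp.smul_single, smul_eq_mul, mul_one]
    rw [h1, comb_smul]
  refine ⟨Finsupp.single m (sSup T)⁻¹, ?_, ?_, ?_⟩
  · intro n hn
    have h1 : n ∈ ({m} : Finset ℕ) := Finsupp.support_single_subset hn
    rw [Finset.mem_singleton] at h1
    omega
  · intro f hf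
    rw [hcomb, ev_smul_right, abs_mul, abs_of_pos (inv_pos.2 hS)]
    calc (sSup T)⁻¹ * |ev f z| ≤ (sSup T)⁻¹ * sSup T :=
          mul_le_mul_of_nonneg_left (hle f hf) (inv_pos.2 hS).le
      _ = 1 := inv_mul_cancel₀ hS.ne'
  · have h34 : 3 / 4 * sSup T < sSup T := by linarith
    obtain ⟨t, ⟨f, hf, rfl⟩, ht⟩ := exists_lt_of_lt_csSup hTne h34
    have key : ∀ x : ℝ, 3 / 4 * sSup T < x → 3 / 4 ≤ (sSup T)⁻¹ * x := by
      intro x hx
      rw [inv_mul_eq_div, le_div_iff₀ hS]
      exact hx.le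
    rcases abs_choice (ev f z) with h | h
    · refine ⟨f, hf, ?_⟩
      rw [hcomb, ev_smul_right]
      apply key
      rw [← h]
      exact ht
    · refine ⟨-f, K_neg hG hf, ?_⟩
      rw [hcomb, ev_smul_right, ev_neg_left]
      apply key
      rw [← h]
      exact ht

end Pool.Agent.HI61
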