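import Pool.Agent.HI61.AV

/-!
# HI61/FrameBuild : construction of the frame

PROOF.  `Xf = {x | ∃ n, Pn n (ι x) = ι x}` is a dense subspace (`Pn m (Pn n v) = Pn n v` for `m ≥ n`).  Let `d_i` be a dense
sequence in `X`.  Construct recursively for `k = 0, 1, ...`; state before step `k`: a finite dimensional subspace
`Xk k ≤ Xf`, a level `N_k` with `Pn n (ι x) = ι x` for `x ∈ Xk k`, `n ≥ N_k`, a number `κ' ≥ 1` (bound of `kap j`, `j < k`), and
a natural number bounding `m j`, `j < k`.  Start: `Xk 0 = ⊥`, `N_0 = 0`, `κ' = 1`.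
Step `k`:
 1. `ep k = (1/2)^(k+2) / (1 + κ')`.
 2. `almost_invariant` with `N = N_k`, `ε = ep k / 2`: weights `w`, `M_k`; `R k = ∑_{n<M_k} w n • Pn n`.
    `‖R k v‖ ≤ ‖v‖`; finite rank; `R k (ι x) = ι x` for `x ∈ Xk k` (weights only for `n ≥ N_k`, sum 1).
 3. `kap k ≥ 1`: the map `T = R k ∘ ι` has finite rank, so there is `κ` with: for all `x` there is `y`,
    `T y = 0`, `‖x - y‖ ≤ κ ‖T x‖` (choose a basis `t_i` of `range T`, `x_i` with `T x_i = t_i`, `y = x - ∑ c_i(T x) x_i` where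
    `c_i` are the coordinate functionals on the finite dimensional space `range T`, which are bounded).
 4. `b k`: `‖R k (ι (x m))‖ → 0` as `m → ∞` (finite rank: `T x = ∑ g_i(x) t_i` with `g_i ∈ X*`).  Choose `m k` larger than the
    previous ones with `κ'' ‖R k (ι (x (m k)))‖ ≤ (1/2)^(k+1)`, `κ'' = max κ' (kap k)`, and `b k ∈ Xf` with
    `‖b k - x (m k)‖ ≤ min (δ k) (min (1/2) ((1/2)^(k+1) / κ''))`.  Then `‖b k‖ ≤ 1` and `b_small`.
 5. `Xk (k+1) = Xk k ⊔ span (b k) ⊔ span {y'_i} ⊔ span {d'_{i,k} | i ≤ k}` where `d'_{i,k} ∈ Xf`, `‖d'_{i,k} - d_i‖ ≤ (1/2)^k`, and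
    the `y'_i` are chosen for `near`: `T (ball)` is a bounded subset of a finite dimensional space, so there are finitely
    many `x_i`, `‖x_i‖ ≤ 1`, such that every `‖x‖ ≤ 1` has an `i` with `‖T x - T x_i‖ ≤ ep k / 8`; `y_i ∈ X` with
    `‖T x_i - ι y_i‖ ≤ ep k / 2`, `y'_i ∈ Xf` with `‖y_i - y'_i‖ ≤ ep k / 8`.  So `‖T x - ι y'_i‖ ≤ ep k` for `‖x‖ ≤ 1`; for general
    `x ≠ 0` scale: `y = ‖x‖ • y'_i`.
 6. `N_{k+1} ≥ M_k`, `≥ N_k`, and large enough for the finitely many generators of `Xk (k+1)`.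
`R_lt`, `R_gt` (`k < l`): `R k = ∑_{n<M_k} w n Pn n`, `R l = ∑_{n ≥ N_l} w' n Pn n`, `N_l ≥ M_k`, `Pn n (Pn n' v) = Pn n v` for
`n ≤ n'`, and both sums of weights are 1.  `Xk_fix`: `l ≥ k`: `R l = ∑_{n ≥ N_l}`, `N_l ≥ N_k`.  `ep_kap`: `κ'` at step `l` bounds
`kap k`.  `Xk_dense`: `d'_{i,k} → d_i`.
(For the recursion use a structure for the state and `Classical.choose` of a one-step statement, or
`exists_seq`-style dependent choice.)
-/

namespace Pool.Agent.HI61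

open Finset Filter Topology

namespace FrameBuild

theorem exists_kap {X V : Type} [NormedAddCommGroup X] [NormedSpace ℝ X]
    [NormedAddCommGroup V] [NormedSpace ℝ V] (T : X →L[ℝ] V)
    (hT : FiniteDimensional ℝ (LinearMap.range (T : X →ₗ[ℝ] V))) :
    ∃ κ : ℝ, 1 ≤ κ ∧ ∀ x, ∃ y, T y = 0 ∧ ‖x - y‖ ≤ κ * ‖T x‖ := by
  obtain ⟨g, hg⟩ := LinearMap.exists_rightInverse_of_surjective
    ((T : X →ₗ[ℝ] V).rangeRestrict) (LinearMap.range_rangeRestrict _)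
  have hg' : ∀ z, (T : X →ₗ[ℝ] V).rangeRestrict (g z) = z := fun z =>
    LinearMap.congr_fun hg z
  let G : (LinearMap.range (T : X →ₗ[ℝ] V)) →L[ℝ] X := LinearMap.toContinuousLinearMap g
  have hG : ∀ z, G z = g z := fun z => rfl
  refine ⟨max 1 ‖G‖, le_max_left _ _, fun x => ?_⟩
  have h1 : T (g ((T : X →ₗ[ℝ] V).rangeRestrict x)) = T x := by
    have := hg' ((T : X →ₗ[ℝ] V).rangeRestrict x)
    exact congrArg Subtype.val this
  refine ⟨x - g ((T : X →ₗ[ℝ] V).rangeRestrict x), ?_, ?_⟩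
  · rw [map_sub, h1, sub_self]
  · rw [sub_sub_cancel, ← hG]
    calc ‖G ((T : X →ₗ[ℝ] V).rangeRestrict x)‖ ≤ ‖G‖ * ‖(T : X →ₗ[ℝ] V).rangeRestrict x‖ :=
          G.le_opNorm _
      _ = ‖G‖ * ‖T x‖ := rfl
      _ ≤ max 1 ‖G‖ * ‖T x‖ := mul_le_mul_of_nonneg_right (le_max_right _ _) (norm_nonneg _)

theorem tendsto_fin {X V : Type} [NormedAddCommGroup X] [NormedSpace ℝ X]
    [NormedAddCommGroup V] [NormedSpace ℝ V] (T : X →L[ℝ] V)
    (hT : FiniteDimensional ℝ (LinearMap.range (T : X →ₗ[ℝ] V))) (x : ℕ → X)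
    (hx0 : ∀ f : X →L[ℝ] ℝ, Tendsto (fun m => f (x m)) atTop (𝓝 0)) :
    Tendsto (fun m => T (x m)) atTop (𝓝 0) := by
  let S := LinearMap.range (T : X →ₗ[ℝ] V)
  let bs := Module.finBasis ℝ S
  let T' : X →L[ℝ] S := T.codRestrict S (fun x => LinearMap.mem_range_self (T : X →ₗ[ℝ] V) x)
  have hT' : ∀ x, (T' x : V) = T x := fun x => rfl
  let f : Fin (Module.finrank ℝ S) → X →L[ℝ] ℝ := fun i =>
    (LinearMap.toContinuousLinearMap (bs.coord i)).comp T'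
  have hrep : ∀ x, T x = ∑ i, f i x • (bs i : V) := by
    intro x
    have h := bs.sum_repr (T' x)
    calc T x = ((T' x : S) : V) := rfl
      _ = ((∑ i, bs.repr (T' x) i • bs i : S) : V) := by rw [h]
      _ = ∑ i, f i x • (bs i : V) := by
          rw [Submodule.coe_sum]
          rfl
  have h0 : Tendsto (fun m => ∑ i, f i (x m) • (bs i : V)) atTop
      (𝓝 (∑ i, (0 : ℝ) • (bs i : V))) := by
    refine tendsto_finsetSum _ fun i _ => ?_
    exact (hx0 (f i)).smul_const _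
  simp only [zero_smul, Finset.sum_const_zero] at h0
  refine h0.congr fun m => ?_
  rw [hrep]

theorem exists_net {X V : Type} [NormedAddCommGroup X] [NormedSpace ℝ X]
    [NormedAddCommGroup V] [NormedSpace ℝ V] (T : X →L[ℝ] V)
    (hT : FiniteDimensional ℝ (LinearMap.range (T : X →ₗ[ℝ] V))) (ε : ℝ) (hε : 0 < ε) :
    ∃ A : Set X, A.Finite ∧ (∀ a ∈ A, ‖a‖ ≤ 1) ∧
      ∀ x, ‖x‖ ≤ 1 → ∃ a ∈ A, ‖T x - T a‖ ≤ ε := by
  let S := LinearMap.range (T : X →ₗ[ℝ] V)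
  let T' : X →L[ℝ] S := T.codRestrict S (fun x => LinearMap.mem_range_self (T : X →ₗ[ℝ] V) x)
  have hT' : ∀ x, (T' x : V) = T x := fun x => rfl
  have : ProperSpace S := FiniteDimensional.proper ℝ S
  have hb : Bornology.IsBounded (T' '' Metric.closedBall 0 1) := by
    refine (Metric.isBounded_closedBall (x := (0 : S)) (r := ‖T'‖)).subset ?_
    rintro _ ⟨x, hx, rfl⟩
    rw [mem_closedBall_zero_iff] at hx ⊢
    calc ‖T' x‖ ≤ ‖T'‖ * ‖x‖ := T'.le_opNorm x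
      _ ≤ ‖T'‖ * 1 := mul_le_mul_of_nonneg_left hx (ContinuousLinearMap.opNorm_nonneg _)
      _ = ‖T'‖ := mul_one _
  have htb : TotallyBounded (T' '' Metric.closedBall 0 1) :=
    hb.isCompact_closure.totallyBounded.subset subset_closure
  obtain ⟨t, hts, htf, htc⟩ := Metric.finite_approx_of_totallyBounded htb ε hε
  have hch : ∀ z : S, ∃ a : X, z ∈ t → (‖a‖ ≤ 1 ∧ T' a = z) := by
    intro z
    by_cases hz : z ∈ t
    · obtain ⟨a, ha, haz⟩ := hts hz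
      exact ⟨a, fun _ => ⟨by simpa using ha, haz⟩⟩
    · exact ⟨0, fun h => absurd h hz⟩
  choose g hg using hch
  refine ⟨g '' t, htf.image g, ?_, ?_⟩
  · rintro _ ⟨z, hz, rfl⟩
    exact (hg z hz).1
  · intro x hx
    have hx' : T' x ∈ T' '' Metric.closedBall 0 1 := ⟨x, by simpa using hx, rfl⟩
    obtain ⟨z, hz, hxz⟩ := Set.mem_iUnion₂.1 (htc hx')
    refine ⟨g z, ⟨z, hz, rfl⟩, ?_⟩
    have h1 : T (g z) = (z : V) := by
      rw [← hT', (hg z hz).2]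
    rw [h1, ← hT']
    have h2 : dist (T' x) z < ε := hxz
    rw [dist_eq_norm] at h2
    exact h2.le

/-- the averages -/
noncomputable def avg {V : Type} [NormedAddCommGroup V] [NormedSpace ℝ V] (Pn : ℕ → V →L[ℝ] V)
    (w : ℕ → ℝ) (M : ℕ) : V →L[ℝ] V := ∑ n ∈ range M, w n • Pn n

theorem avg_apply {V : Type} [NormedAddCommGroup V] [NormedSpace ℝ V] (Pn : ℕ → V →L[ℝ] V)
    (w : ℕ → ℝ) (M : ℕ) (v : V) : avg Pn w M v = ∑ n ∈ range M, w n • Pn n v := by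
  simp [avg]

theorem avg_le {V : Type} [NormedAddCommGroup V] [NormedSpace ℝ V] (Pn : ℕ → V →L[ℝ] V)
    (h1 : ∀ n v, ‖Pn n v‖ ≤ ‖v‖) (w : ℕ → ℝ) (M : ℕ) (hw : ∀ n, 0 ≤ w n)
    (hs : ∑ n ∈ range M, w n = 1) (v : V) : ‖avg Pn w M v‖ ≤ ‖v‖ := by
  rw [avg_apply]
  calc ‖∑ n ∈ range M, w n • Pn n v‖ ≤ ∑ n ∈ range M, ‖w n • Pn n v‖ := norm_sum_le _ _
    _ ≤ ∑ n ∈ range M, w n * ‖v‖ := by
        refine Finset.sum_le_sum fun n _ => ?_
        rw [norm_smul, Real.norm_of_nonneg (hw n)]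
        exact mul_le_mul_of_nonneg_left (h1 n v) (hw n)
    _ = ‖v‖ := by rw [← Finset.sum_mul, hs, one_mul]

theorem avg_avg {V : Type} [NormedAddCommGroup V] [NormedSpace ℝ V] (Pn : ℕ → V →L[ℝ] V)
    (h2 : ∀ n m v, Pn n (Pn m v) = Pn (min n m) v) (w w' : ℕ → ℝ) (M M' N' : ℕ)
    (hN : M ≤ N') (hw' : ∀ n, w' n ≠ 0 → N' ≤ n ∧ n < M')
    (hs' : ∑ n ∈ range M', w' n = 1) (v : V) :
    avg Pn w M (avg Pn w' M' v) = avg Pn w M v := by
  rw [avg_apply Pn w M (avg Pn w' M' v), avg_apply Pn w M v]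
  refine Finset.sum_congr rfl fun n hn => ?_
  congr 1
  rw [avg_apply, map_sum]
  have : ∀ m ∈ range M', Pn n (w' m • Pn m v) = w' m • Pn n v := by
    intro m _
    rw [map_smul, h2]
    by_cases h : w' m = 0
    · rw [h, zero_smul, zero_smul]
    · have h3 := (hw' m h).1
      have h4 := Finset.mem_range.1 hn
      rw [min_eq_left (by omega)]
  rw [Finset.sum_congr rfl this, ← Finset.sum_smul, hs', one_smul]

theorem avg_avg' {V : Type} [NormedAddCommGroup V] [NormedSpace ℝ V] (Pn : ℕ → V →L[ℝ] V)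
    (h2 : ∀ n m v, Pn n (Pn m v) = Pn (min n m) v) (w w' : ℕ → ℝ) (M M' N' : ℕ)
    (hN : M ≤ N') (hw' : ∀ n, w' n ≠ 0 → N' ≤ n ∧ n < M')
    (hs' : ∑ n ∈ range M', w' n = 1) (v : V) :
    avg Pn w' M' (avg Pn w M v) = avg Pn w M v := by
  rw [avg_apply Pn w' M']
  have : ∀ m ∈ range M', w' m • Pn m (avg Pn w M v) = w' m • avg Pn w M v := by
    intro m _
    by_cases h : w' m = 0
    · rw [h, zero_smul, zero_smul]
    · congr 1
      have h3 := (hw' m h).1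
      rw [avg_apply, map_sum]
      refine Finset.sum_congr rfl fun n hn => ?_
      have h4 := Finset.mem_range.1 hn
      rw [map_smul, h2, min_eq_right (by omega)]
  rw [Finset.sum_congr rfl this, ← Finset.sum_smul, hs', one_smul]

theorem avg_fin {V : Type} [NormedAddCommGroup V] [NormedSpace ℝ V] (Pn : ℕ → V →L[ℝ] V)
    (h2 : ∀ n m v, Pn n (Pn m v) = Pn (min n m) v)
    (h4 : ∀ n, FiniteDimensional ℝ (LinearMap.range (Pn n : V →ₗ[ℝ] V))) (w : ℕ → ℝ) (M : ℕ) :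
    FiniteDimensional ℝ (LinearMap.range (avg Pn w M : V →ₗ[ℝ] V)) := by
  have := h4 M
  refine Submodule.finiteDimensional_of_le (S₂ := LinearMap.range (Pn M : V →ₗ[ℝ] V)) ?_
  rintro _ ⟨v, rfl⟩
  refine ⟨avg Pn w M v, ?_⟩
  change Pn M (avg Pn w M v) = avg Pn w M v
  rw [avg_apply, map_sum]
  refine Finset.sum_congr rfl fun n hn => ?_
  have h5 := Finset.mem_range.1 hn
  rw [map_smul, h2, min_eq_right (by omega)]

theorem comp_fin {X V : Type} [NormedAddCommGroup X] [NormedSpace ℝ X]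
    [NormedAddCommGroup V] [NormedSpace ℝ V] (ι : X →ₗᵢ[ℝ] V) (R : V →L[ℝ] V)
    (hR : FiniteDimensional ℝ (LinearMap.range (R : V →ₗ[ℝ] V))) :
    FiniteDimensional ℝ
      (LinearMap.range ((R.comp ι.toContinuousLinearMap : X →L[ℝ] V) : X →ₗ[ℝ] V)) := by
  refine Submodule.finiteDimensional_of_le (S₂ := LinearMap.range (R : V →ₗ[ℝ] V)) ?_
  rintro _ ⟨v, rfl⟩
  exact ⟨ι v, rfl⟩

/-- the state of the recursion -/
structure St (X : Type) [NormedAddCommGroup X] [NormedSpace ℝ X] where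
  Xs : Submodule ℝ X
  N : ℕ
  kp : ℝ
  m : ℕ
  w : ℕ → ℝ
  M : ℕ
  kap : ℝ
  b : X

section

variable {X V : Type} [NormedAddCommGroup X] [NormedSpace ℝ X]
  [NormedAddCommGroup V] [NormedSpace ℝ V]

/-- the invariant -/
structure Inv (ι : X →ₗᵢ[ℝ] V) (Pn : ℕ → V →L[ℝ] V) (s : St X) : Prop where
  kp_ge : 1 ≤ s.kp
  fd : FiniteDimensional ℝ s.Xs
  fix : ∀ x ∈ s.Xs, ∀ n, s.N ≤ n → Pn n (ι x) = ι x

/-- the number `ep k` -/
noncomputable def epk (k : ℕ) (s : St X) : ℝ := (1 / 2) ^ (k + 2) / (1 + s.kp)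

/-- one step -/
structure Step (ι : X →ₗᵢ[ℝ] V) (Pn : ℕ → V →L[ℝ] V) (x d : ℕ → X) (δ : ℕ → ℝ) (k : ℕ)
    (s s' : St X) : Prop where
  w0 : ∀ n, 0 ≤ s'.w n
  ws : ∀ n, s'.w n ≠ 0 → s.N ≤ n ∧ n < s'.M
  w1 : ∑ n ∈ range s'.M, s'.w n = 1
  kap_ge : 1 ≤ s'.kap
  kap_le : s'.kap ≤ s'.kp
  kp_le : s.kp ≤ s'.kp
  near : ∀ x, ∃ y ∈ s'.Xs, ‖avg Pn s'.w s'.M (ι x) - ι y‖ ≤ epk k s * ‖x‖
  ker : ∀ x, ∃ y, avg Pn s'.w s'.M (ι y) = 0 ∧
    ‖x - y‖ ≤ s'.kap * ‖avg Pn s'.w s'.M (ι x)‖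
  m_lt : s.m < s'.m
  b_near : ‖s'.b - x s'.m‖ ≤ δ k
  b_le : ‖s'.b‖ ≤ 1
  b_mem : s'.b ∈ s'.Xs
  b_small : s'.kp * ‖avg Pn s'.w s'.M (ι s'.b)‖ ≤ (1 / 2) ^ k
  Xs_le : s.Xs ≤ s'.Xs
  N_le : s.N ≤ s'.N
  M_le : s'.M ≤ s'.N
  dn : ∀ i ≤ k, ∃ y ∈ s'.Xs, ‖y - d i‖ ≤ (1 / 2) ^ k

theorem exists_level (ι : X →ₗᵢ[ℝ] V) (Pn : ℕ → V →L[ℝ] V)
    (h2 : ∀ n m v, Pn n (Pn m v) = Pn (min n m) v) (G : Set X) (hG : G.Finite)
    (hGf : ∀ g ∈ G, ∃ n, Pn n (ι g) = ι g) :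
    ∃ N, ∀ g ∈ G, ∀ n, N ≤ n → Pn n (ι g) = ι g := by
  have hch : ∀ g, ∃ n, g ∈ G → Pn n (ι g) = ι g := by
    intro g
    by_cases hg : g ∈ G
    · obtain ⟨n, hn⟩ := hGf g hg
      exact ⟨n, fun _ => hn⟩
    · exact ⟨0, fun h => absurd h hg⟩
  choose f hf using hch
  refine ⟨∑ g ∈ hG.toFinset, f g, fun g hg n hn => ?_⟩
  have h3 : f g ≤ ∑ g ∈ hG.toFinset, f g :=
    Finset.single_le_sum (f := f) (fun _ _ => Nat.zero_le _) (hG.mem_toFinset.2 hg)
  have h4 := hf g hg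
  calc Pn n (ι g) = Pn n (Pn (f g) (ι g)) := by rw [h4]
    _ = Pn (f g) (ι g) := by rw [h2, min_eq_right (h3.trans hn)]
    _ = ι g := h4

theorem exists_step [CompleteSpace X] (ι : X →ₗᵢ[ℝ] V) (Pn : ℕ → V →L[ℝ] V)
    (h1 : ∀ n v, ‖Pn n v‖ ≤ ‖v‖) (h2 : ∀ n m v, Pn n (Pn m v) = Pn (min n m) v)
    (h3 : ∀ v, Tendsto (fun n => Pn n v) atTop (𝓝 v))
    (h4 : ∀ n, FiniteDimensional ℝ (LinearMap.range (Pn n : V →ₗ[ℝ] V)))
    (hrefl : Reflexive' X) (hfin : Dense {x : X | ∃ n, Pn n (ι x) = ι x})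
    (x : ℕ → X) (hx1 : ∀ m, ‖x m‖ ≤ 1 / 2)
    (hx0 : ∀ f : X →L[ℝ] ℝ, Tendsto (fun m => f (x m)) atTop (𝓝 0)) (d : ℕ → X) (δ : ℕ → ℝ)
    (hδ : ∀ k, 0 < δ k) (k : ℕ) (s : St X) (hs : Inv ι Pn s) :
    ∃ s', Inv ι Pn s' ∧ Step ι Pn x d δ k s s' := by
  have hkp : 0 < 1 + s.kp := by linarith [hs.kp_ge]
  have hep : 0 < epk k s := by unfold epk; positivity
  obtain ⟨w, M, hw0, hws, hw1, hnear⟩ :=
    almost_invariant ι Pn h1 h3 h4 hrefl s.N (epk k s / 2) (by positivity)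
  let T : X →L[ℝ] V := (avg Pn w M).comp ι.toContinuousLinearMap
  have hT : ∀ x, T x = avg Pn w M (ι x) := fun x => rfl
  have hTle : ∀ x, ‖T x‖ ≤ ‖x‖ := fun x => by
    rw [hT, ← ι.norm_map x]
    exact avg_le Pn h1 w M hw0 hw1 _
  have hTf : FiniteDimensional ℝ (LinearMap.range (T : X →ₗ[ℝ] V)) :=
    comp_fin ι _ (avg_fin Pn h2 h4 w M)
  have hnear' : ∀ x : X, ∃ y : X, ‖T x - ι y‖ ≤ epk k s / 2 * ‖x‖ := by
    intro x
    obtain ⟨y, hy⟩ := hnear x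
    exact ⟨y, by rw [hT, avg_apply]; exact hy⟩
  obtain ⟨kap, hkap1, hkap⟩ := exists_kap T hTf
  -- the new bound
  obtain ⟨kp, hkp1, hkp2⟩ : ∃ kp, s.kp ≤ kp ∧ kap ≤ kp := ⟨max s.kp kap, le_max_left _ _, le_max_right _ _⟩
  have hkpp : 0 < kp := by linarith
  -- the vector b
  have hlim : Tendsto (fun m => kp * ‖T (x m)‖) atTop (𝓝 0) := by
    have := ((tendsto_fin T hTf x hx0).norm).const_mul kp
    simpa using this
  have hev : ∀ᶠ m in atTop, kp * ‖T (x m)‖ < (1 / 2) ^ (k + 1) :=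
    hlim.eventually_lt_const (by positivity)
  obtain ⟨m, hm1, hm2⟩ := (hev.and (eventually_gt_atTop s.m)).exists
  have hη : 0 < min (δ k) (min (1 / 2) ((1 / 2) ^ (k + 1) / kp)) :=
    lt_min (hδ k) (lt_min (by norm_num) (by positivity))
  obtain ⟨b, hbf, hb⟩ := Metric.dense_iff.1 hfin (x m) _ hη
  have hb' : ‖b - x m‖ < min (δ k) (min (1 / 2) ((1 / 2) ^ (k + 1) / kp)) := by
    have : dist b (x m) < _ := hbf
    rwa [dist_eq_norm] at this
  have hb1 : ‖b - x m‖ < δ k := hb'.trans_le (min_le_left _ _)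
  have hb2 : ‖b - x m‖ < 1 / 2 := hb'.trans_le ((min_le_right _ _).trans (min_le_left _ _))
  have hb3 : ‖b - x m‖ < (1 / 2) ^ (k + 1) / kp :=
    hb'.trans_le ((min_le_right _ _).trans (min_le_right _ _))
  have hbn : ‖b‖ ≤ 1 := by
    calc ‖b‖ = ‖(b - x m) + x m‖ := by rw [sub_add_cancel]
      _ ≤ ‖b - x m‖ + ‖x m‖ := norm_add_le _ _
      _ ≤ 1 / 2 + 1 / 2 := add_le_add hb2.le (hx1 m)
      _ = 1 := by norm_num
  have hbs : kp * ‖T b‖ ≤ (1 / 2) ^ k := by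
    have h5 : ‖T b‖ ≤ ‖b - x m‖ + ‖T (x m)‖ := by
      calc ‖T b‖ = ‖T (b - x m) + T (x m)‖ := by rw [← map_add, sub_add_cancel]
        _ ≤ ‖T (b - x m)‖ + ‖T (x m)‖ := norm_add_le _ _
        _ ≤ _ := by gcongr; exact hTle _
    have h6 : kp * ‖b - x m‖ ≤ (1 / 2) ^ (k + 1) := by
      rw [lt_div_iff₀ hkpp] at hb3
      linarith [hb3, mul_comm kp ‖b - x m‖]
    calc kp * ‖T b‖ ≤ kp * (‖b - x m‖ + ‖T (x m)‖) := mul_le_mul_of_nonneg_left h5 hkpp.le
      _ = kp * ‖b - x m‖ + kp * ‖T (x m)‖ := by ring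
      _ ≤ (1 / 2) ^ (k + 1) + (1 / 2) ^ (k + 1) := add_le_add h6 hm1.le
      _ = (1 / 2) ^ k := by rw [pow_succ]; ring
  -- the net
  obtain ⟨A, hAf, hA1, hA⟩ := exists_net T hTf (epk k s / 8) (by positivity)
  have hYc : ∀ a : X, ∃ y : X, (∃ n, Pn n (ι y) = ι y) ∧
      (‖a‖ ≤ 1 → ‖T a - ι y‖ ≤ epk k s / 2 + epk k s / 8) := by
    intro a
    obtain ⟨y, hy⟩ := hnear' a
    obtain ⟨z, hz1, hz2⟩ := Metric.dense_iff.1 hfin y (epk k s / 8) (by positivity)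
    refine ⟨z, hz2, fun ha => ?_⟩
    have hz1' : ‖y - z‖ < epk k s / 8 := by
      have : dist z y < _ := hz1
      rwa [dist_comm, dist_eq_norm] at this
    calc ‖T a - ι z‖ = ‖(T a - ι y) + ι (y - z)‖ := by rw [map_sub]; congr 1; abel
      _ ≤ ‖T a - ι y‖ + ‖ι (y - z)‖ := norm_add_le _ _
      _ ≤ epk k s / 2 + epk k s / 8 := by
          rw [ι.norm_map]
          refine add_le_add (hy.trans ?_) hz1'.le
          calc epk k s / 2 * ‖a‖ ≤ epk k s / 2 * 1 :=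
                mul_le_mul_of_nonneg_left ha (by positivity)
            _ = _ := mul_one _
  choose yf hyf1 hyf2 using hYc
  -- the approximations of d
  have hdc : ∀ i : ℕ, ∃ y : X, (∃ n, Pn n (ι y) = ι y) ∧ ‖y - d i‖ ≤ (1 / 2) ^ k := by
    intro i
    obtain ⟨z, hz1, hz2⟩ := Metric.dense_iff.1 hfin (d i) ((1 / 2) ^ k) (by positivity)
    refine ⟨z, hz2, ?_⟩
    have : dist z (d i) < _ := hz1
    rw [dist_eq_norm] at this
    exact this.le
  choose df hdf1 hdf2 using hdc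
  let G : Set X := yf '' A ∪ {b} ∪ df '' (Set.Iic k)
  have hGfin : G.Finite := ((hAf.image yf).union (Set.finite_singleton b)).union
    ((Set.finite_Iic k).image df)
  have hGf : ∀ g ∈ G, ∃ n, Pn n (ι g) = ι g := by
    rintro g ((⟨a, -, rfl⟩ | hg) | ⟨i, -, rfl⟩)
    · exact hyf1 a
    · rw [Set.mem_singleton_iff.1 hg]; exact hb
    · exact hdf1 i
  obtain ⟨N0, hN0⟩ := exists_level ι Pn h2 G hGfin hGf
  have := hs.fd
  have : FiniteDimensional ℝ (Submodule.span ℝ G) := FiniteDimensional.span_of_finite ℝ hGfin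
  have hGX : ∀ g ∈ G, g ∈ s.Xs ⊔ Submodule.span ℝ G := fun g hg =>
    Submodule.mem_sup_right (Submodule.subset_span hg)
  refine ⟨⟨s.Xs ⊔ Submodule.span ℝ G, max (max s.N M) N0, kp, m, w, M, kap, b⟩, ?_, ?_⟩
  · refine ⟨hs.kp_ge.trans hkp1, ?_, ?_⟩
    · change FiniteDimensional ℝ ↥(s.Xs ⊔ Submodule.span ℝ G)
      infer_instance
    · intro x hx n hn
      change x ∈ s.Xs ⊔ Submodule.span ℝ G at hx
      change max (max s.N M) N0 ≤ n at hn
      let E : Submodule ℝ X := LinearMap.eqLocus ((Pn n : V →ₗ[ℝ] V) ∘ₗ ι.toLinearMap) ι.toLinearMap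
      have hE : ∀ x, x ∈ E ↔ Pn n (ι x) = ι x := fun x => Iff.rfl
      have hle : s.Xs ⊔ Submodule.span ℝ G ≤ E := by
        refine sup_le ?_ (Submodule.span_le.2 ?_)
        · intro y hy
          exact (hE y).2 (hs.fix y hy n (by omega))
        · intro g hg
          exact (hE g).2 (hN0 g hg n (by omega))
      exact (hE x).1 (hle hx)
  · refine
      { w0 := hw0, ws := hws, w1 := hw1, kap_ge := hkap1, kap_le := hkp2, kp_le := hkp1
        near := ?_, ker := hkap, m_lt := hm2, b_near := hb1.le, b_le := hbn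
        b_mem := hGX b (Or.inl (Or.inr rfl)), b_small := hbs, Xs_le := le_sup_left
        N_le := (le_max_left _ _).trans (le_max_left _ _)
        M_le := (le_max_right _ _).trans (le_max_left _ _), dn := ?_ }
    · intro x
      change ∃ y ∈ s.Xs ⊔ Submodule.span ℝ G, ‖T x - ι y‖ ≤ epk k s * ‖x‖
      by_cases hx : x = 0
      · refine ⟨0, Submodule.zero_mem _, ?_⟩
        rw [hx]; simp
      · have hxn : 0 < ‖x‖ := norm_pos_iff.2 hx
        have hu : ‖‖x‖⁻¹ • x‖ ≤ 1 := by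
          rw [norm_smul, norm_inv, norm_norm, inv_mul_cancel₀ hxn.ne']
        obtain ⟨a, ha, hau⟩ := hA _ hu
        refine ⟨‖x‖ • yf a, Submodule.smul_mem _ _ (hGX _ (Or.inl (Or.inl ⟨a, ha, rfl⟩))), ?_⟩
        have h7 : ‖T (‖x‖⁻¹ • x) - ι (yf a)‖ ≤ epk k s := by
          calc ‖T (‖x‖⁻¹ • x) - ι (yf a)‖
              = ‖(T (‖x‖⁻¹ • x) - T a) + (T a - ι (yf a))‖ := by rw [sub_add_sub_cancel]
            _ ≤ ‖T (‖x‖⁻¹ • x) - T a‖ + ‖T a - ι (yf a)‖ := norm_add_le _ _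
            _ ≤ epk k s / 8 + (epk k s / 2 + epk k s / 8) :=
                add_le_add hau (hyf2 a (hA1 a ha))
            _ ≤ epk k s := by linarith
        have h8 : T x - ι (‖x‖ • yf a) = ‖x‖ • (T (‖x‖⁻¹ • x) - ι (yf a)) := by
          rw [smul_sub, ← map_smul, ← map_smul, smul_smul, mul_inv_cancel₀ hxn.ne', one_smul]
        rw [h8, norm_smul, norm_norm, mul_comm]
        exact mul_le_mul_of_nonneg_right h7 (norm_nonneg _)
    · intro i hi
      exact ⟨df i, hGX _ (Or.inr ⟨i, hi, rfl⟩), hdf2 i⟩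

end

end FrameBuild

open FrameBuild in
theorem exists_frame {X V : Type} [NormedAddCommGroup X] [NormedSpace ℝ X] [CompleteSpace X]
    [TopologicalSpace.SeparableSpace X]
    [NormedAddCommGroup V] [NormedSpace ℝ V] (ι : X →ₗᵢ[ℝ] V) (Pn : ℕ → V →L[ℝ] V)
    (h1 : ∀ n v, ‖Pn n v‖ ≤ ‖v‖) (h2 : ∀ n m v, Pn n (Pn m v) = Pn (min n m) v)
    (h3 : ∀ v, Tendsto (fun n => Pn n v) atTop (𝓝 v))
    (h4 : ∀ n, FiniteDimensional ℝ (LinearMap.range (Pn n : V →ₗ[ℝ] V)))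
    (hrefl : Reflexive' X) (hfin : Dense {x : X | ∃ n, Pn n (ι x) = ι x})
    (x : ℕ → X) (hx1 : ∀ m, ‖x m‖ ≤ 1 / 2)
    (hx0 : ∀ f : X →L[ℝ] ℝ, Tendsto (fun m => f (x m)) atTop (𝓝 0)) (δ : ℕ → ℝ)
    (hδ : ∀ k, 0 < δ k) :
    ∃ (F : Frame X V) (m : ℕ → ℕ), F.ι = ι ∧ StrictMono m ∧ ∀ k, ‖F.b k - x (m k)‖ ≤ δ k := by
  let d : ℕ → X := TopologicalSpace.denseSeq X
  have hd : DenseRange d := TopologicalSpace.denseRange_denseSeq X
  have hstep := exists_step ι Pn h1 h2 h3 h4 hrefl hfin x hx1 hx0 d δ hδ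
  choose g hgI hgS using hstep
  let s0 : St X := ⟨⊥, 0, 1, 0, 0, 0, 1, 0⟩
  have hs0 : Inv ι Pn s0 := by
    refine ⟨le_refl _, ?_, ?_⟩
    · change FiniteDimensional ℝ (⊥ : Submodule ℝ X)
      infer_instance
    · intro x hx n _
      have : x = 0 := hx
      rw [this]; simp
  let f' : ℕ → {s : St X // Inv ι Pn s} := fun k =>
    Nat.rec ⟨s0, hs0⟩ (fun k s => ⟨g k s.1 s.2, hgI k s.1 s.2⟩) k
  let f : ℕ → St X := fun k => (f' k).1
  have hI : ∀ k, Inv ι Pn (f k) := fun k => (f' k).2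
  have hS : ∀ k, Step ι Pn x d δ k (f k) (f (k + 1)) := fun k => hgS k (f' k).1 (f' k).2
  have hXm : Monotone fun k => (f k).Xs := monotone_nat_of_le_succ fun k => (hS k).Xs_le
  have hNm : Monotone fun k => (f k).N := monotone_nat_of_le_succ fun k => (hS k).N_le
  have hkm : Monotone fun k => (f k).kp := monotone_nat_of_le_succ fun k => (hS k).kp_le
  have hkpos : ∀ k, 0 < 1 + (f k).kp := fun k => by linarith [(hI k).kp_ge]
  refine ⟨{ ι := ι
            R := fun k => avg Pn (f (k + 1)).w (f (k + 1)).M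
            R_le := fun k v => avg_le Pn h1 _ _ (hS k).w0 (hS k).w1 v
            R_lt := ?_
            R_gt := ?_
            R_fin := fun k => avg_fin Pn h2 h4 _ _
            Xk := fun k => (f k).Xs
            Xk_fin := fun k => (hI k).fd
            Xk_mono := hXm
            Xk_dense := ?_
            Xk_fix := ?_
            ep := fun k => epk k (f k)
            ep_pos := ?_
            ep_le := ?_
            near := fun k x => (hS k).near x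
            kap := fun k => (f (k + 1)).kap
            kap_ge := fun k => (hS k).kap_ge
            ker := fun k x => (hS k).ker x
            ep_kap := ?_
            b := fun k => (f (k + 1)).b
            b_le := fun k => (hS k).b_le
            b_mem := fun k => (hS k).b_mem
            b_small := ?_ }, fun k => (f (k + 1)).m, rfl, ?_, fun k => (hS k).b_near⟩
  · intro k l hkl v
    exact avg_avg Pn h2 _ _ _ _ (f l).N ((hS k).M_le.trans (hNm hkl)) (hS l).ws (hS l).w1 v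
  · intro k l hkl v
    exact avg_avg' Pn h2 _ _ _ _ (f l).N ((hS k).M_le.trans (hNm hkl)) (hS l).ws (hS l).w1 v
  · rw [Metric.dense_iff]
    intro z r hr
    obtain ⟨i, hi⟩ := hd.exists_dist_lt z (half_pos hr)
    obtain ⟨k0, hk0⟩ := exists_pow_lt_of_lt_one (half_pos hr) (show (1 / 2 : ℝ) < 1 by norm_num)
    obtain ⟨y, hy1, hy2⟩ := (hS (max i k0)).dn i (le_max_left _ _)
    refine ⟨y, ?_, Set.mem_iUnion.2 ⟨max i k0 + 1, hy1⟩⟩
    have h5 : (1 / 2 : ℝ) ^ (max i k0) ≤ (1 / 2) ^ k0 :=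
      pow_le_pow_of_le_one (by norm_num) (by norm_num) (le_max_right _ _)
    rw [Metric.mem_ball]
    calc dist y z ≤ dist y (d i) + dist (d i) z := dist_triangle _ _ _
      _ < r / 2 + r / 2 := by
          refine add_lt_add_of_lt_of_le ?_ ?_
          · rw [dist_eq_norm]
            exact (hy2.trans h5).trans_lt hk0
          · rw [dist_comm]; exact hi.le
      _ = r := add_halves r
  · intro k z hz l hkl
    have hz' : z ∈ (f l).Xs := hXm hkl hz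
    rw [avg_apply]
    have h5 : ∀ n ∈ range (f (l + 1)).M, (f (l + 1)).w n • Pn n (ι z) = (f (l + 1)).w n • ι z := by
      intro n _
      by_cases h : (f (l + 1)).w n = 0
      · rw [h, zero_smul, zero_smul]
      · rw [(hI l).fix z hz' n ((hS l).ws n h).1]
    rw [Finset.sum_congr rfl h5, ← Finset.sum_smul, (hS l).w1, one_smul]
  · intro k
    have := hkpos k
    unfold epk
    positivity
  · intro k
    unfold epk
    exact div_le_self (by positivity) (by linarith [(hI k).kp_ge])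
  · intro k l hkl
    have h5 : (f (k + 1)).kap ≤ (f l).kp := (hS k).kap_le.trans (hkm hkl)
    unfold epk
    rw [div_mul_eq_mul_div, div_le_iff₀ (hkpos l)]
    exact mul_le_mul_of_nonneg_left (by linarith) (by positivity)
  · intro k l hlk
    have h5 : (f (l + 1)).kap ≤ (f (k + 1)).kp :=
      (hS l).kap_le.trans (hkm (Nat.succ_le_succ hlk))
    exact (mul_le_mul_of_nonneg_right h5 (norm_nonneg _)).trans (hS k).b_small
  · exact strictMono_nat_of_lt_succ fun k => (hS (k + 1)).m_lt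

end Pool.Agent.HI61
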