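import Pool.Agent.HI61.WDefs

/-!
# HI61/FrameP : the distance seminorms of a frame

PROOFS.  `p k x = ‖mk x‖` in the (seminormed) quotient `X ⧸ N k`.
`p_le`: `Submodule.Quotient.norm_mk_le`.  `p_zero`: `mk x = 0`.
`p_rep`: the quotient norm is the infimum of the norms of the representatives
(`Submodule.Quotient.norm_mk_lt` or the quotient-group version `QuotientAddGroup.norm_mk_lt`/`norm_lt_iff`);
`x - n` with `n ∈ N k = Xk k ⊔ ker`, `Submodule.mem_sup`.
`p_dual`: Hahn-Banach in the seminormed quotient: a functional of norm at most 1 on `X ⧸ N k` with the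
value `‖mk x‖` at `mk x` (`exists_dual_vector''`; if it needs a normed group, use
`exists_extension_of_le_sublinear` / `Real.exists_extension_norm_eq`, or apply the real Hahn-Banach
theorem on `X` to the sublinear functional `p k`: there is `f : X → ℝ` linear, `f ≤ p k`,
`f x = p k x`), composed with `mkQ`.
-/

namespace Pool.Agent.HI61

variable {X V : Type} [NormedAddCommGroup X] [NormedSpace ℝ X]
  [NormedAddCommGroup V] [NormedSpace ℝ V]

private theorem p_eq (F : Frame X V) (k : ℕ) (x : X) :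
    F.p k x = ‖(Submodule.Quotient.mk x : X ⧸ F.N k)‖ := rfl

theorem p_le (F : Frame X V) (k : ℕ) (x : X) : F.p k x ≤ ‖x‖ := by
  rw [p_eq]
  exact Submodule.Quotient.norm_mk_le _ x

theorem mem_N_of_Xk (F : Frame X V) (k : ℕ) (x : X) (h : x ∈ F.Xk k) : x ∈ F.N k :=
  Submodule.mem_sup_left h

theorem mem_N_of_ker (F : Frame X V) (k : ℕ) (x : X) (h : F.R k (F.ι x) = 0) : x ∈ F.N k := by
  refine Submodule.mem_sup_right ?_
  rw [LinearMap.mem_ker]
  simpa using h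

theorem p_zero (F : Frame X V) (k : ℕ) (x : X) (h : x ∈ F.N k) : F.p k x = 0 := by
  rw [p_eq, (Submodule.Quotient.mk_eq_zero _).2 h, norm_zero]

theorem p_rep (F : Frame X V) (k : ℕ) (x : X) (η : ℝ) (hη : 0 < η) :
    ∃ y ∈ F.Xk k, ∃ z, F.R k (F.ι z) = 0 ∧ ‖x - y - z‖ ≤ F.p k x + η := by
  obtain ⟨m, hm, hlt⟩ := Submodule.Quotient.norm_mk_lt
    (Submodule.Quotient.mk x : X ⧸ F.N k) hη
  rw [← p_eq] at hlt
  have h1 : x - m ∈ F.N k := (Submodule.Quotient.eq _).1 hm.symm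
  obtain ⟨y, hy, z, hz, hyz⟩ := Submodule.mem_sup.1 h1
  refine ⟨y, hy, z, ?_, ?_⟩
  · rw [LinearMap.mem_ker] at hz
    simpa using hz
  · have h2 : x - y - z = m := by
      rw [sub_sub, hyz]; abel
    rw [h2]
    exact hlt.le

theorem p_dual (F : Frame X V) (k : ℕ) (x : X) :
    ∃ f : X →L[ℝ] ℝ, ‖f‖ ≤ 1 ∧ (∀ y ∈ F.N k, f y = 0) ∧ f x = F.p k x := by
  obtain ⟨g, hg1, hg2⟩ := exists_dual_vector'' ℝ (Submodule.Quotient.mk x : X ⧸ F.N k)
  refine ⟨g.comp (F.N k).mkQL, ?_, ?_, ?_⟩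
  · refine ContinuousLinearMap.opNorm_le_bound _ zero_le_one ?_
    intro y
    have h1 : ‖g ((F.N k).mkQL y)‖ ≤ ‖g‖ * ‖(F.N k).mkQL y‖ := g.le_opNorm _
    have h2 : ‖(F.N k).mkQL y‖ ≤ ‖y‖ := by
      rw [Submodule.mkQL_apply]
      exact Submodule.Quotient.norm_mk_le _ y
    calc ‖(g.comp (F.N k).mkQL) y‖ ≤ ‖g‖ * ‖(F.N k).mkQL y‖ := h1
      _ ≤ 1 * ‖y‖ := mul_le_mul hg1 h2 (norm_nonneg _) zero_le_one
  · intro y hy
    have h0 : (F.N k).mkQL y = 0 := by
      rw [Submodule.mkQL_apply, Submodule.mkQ_apply, (Submodule.Quotient.mk_eq_zero _).2 hy]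
    rw [ContinuousLinearMap.comp_apply, h0, map_zero]
  · rw [p_eq]
    exact hg2

end Pool.Agent.HI61
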