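import Pool.Agent.HI61.PelEx
import Pool.Agent.HI61.FrameP

/-!
# HI61/HostEx : from the frame and the parameters to the host

PROOF.  `pel k` by `exists_pel` for `s = F.s k`: let `Kr = ker (R k ∘ ι) ⊓ ker (R' k ∘ ι)`, a subspace of finite codimension of `X`
(`R_fin`), `G` a complement.  For `z ∈ Kr`: `nr k z = 0`, `p k z = 0` (`mem_N_of_ker`, `p_zero`), `p' k z = 0`.
`gam`: lemma `exists_norming` (below) for the seminorm `q k (x, h) = max (p k x) (pH h)` on `Eb X` and the index
`i = Nat.pair k n`: `gam i = g k (n)`, `blk i = k` (`Nat.unpair_pair`).  Countable dense set for `q k`: pairs `(d, h)` with `d` in a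
countable dense subset of `X` and `h` finitely supported with rational values:
`q k (x - d, h - h') ≤ max ‖x - d‖ (∑_{i ∈ supp} |h_i - h'_i| pH (single i 1))` (`p_le`).
`exists_norming`: for every `n` Hahn-Banach (`exists_extension_of_le_sublinear`) gives a linear `g n ≤ q` with
`g n (D n) = q (D n)`; then `|g n e| ≤ q e` (seminorm).  Given `c < q e` let `ε = (q e - c) / 2`, `q (e - D n) < ε`:
`g n e ≥ g n (D n) - ε = q (D n) - ε ≥ q e - 2 ε = c`... (use `ε = (q e - c)/3` to get a strict inequality).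
-/

namespace Pool.Agent.HI61

open Finset

theorem exists_norming {E : Type*} [AddCommGroup E] [Module ℝ E] (q : Seminorm ℝ E) (D : ℕ → E)
    (hD : ∀ e, ∀ ε : ℝ, 0 < ε → ∃ n, q (e - D n) < ε) :
    ∃ g : ℕ → (E →ₗ[ℝ] ℝ), (∀ n e, |g n e| ≤ q e) ∧ ∀ e c, c < q e → ∃ n, c < |g n e| := by
  have key : ∀ d : E, ∃ g : E →ₗ[ℝ] ℝ, (∀ e, |g e| ≤ q e) ∧ g d = q d := by
    intro d
    by_cases hd : d = 0
    · refine ⟨0, ?_, ?_⟩
      · intro e; simp
      · rw [hd]; simp
    · obtain ⟨f, hf⟩ : ∃ f : E →ₗ.[ℝ] ℝ, f = LinearPMap.mkSpanSingleton d (q d) hd := ⟨_, rfl⟩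
      have hle : ∀ x : f.domain, f x ≤ q (x : E) := by
        subst hf
        rintro ⟨x, hx⟩
        obtain ⟨c, rfl⟩ := Submodule.mem_span_singleton.1 hx
        have h0 := LinearPMap.mkSpanSingleton'_apply (R := ℝ) d (q d)
          (fun c hc => (smul_eq_zero.1 hc).elim (fun h => by rw [h]; simp)
            (fun h => absurd h hd)) c hx
        refine le_of_eq_of_le h0 ?_
        change c • q d ≤ q (c • d)
        rw [map_smul_eq_mul, Real.norm_eq_abs, smul_eq_mul]
        exact mul_le_mul_of_nonneg_right (le_abs_self c) (apply_nonneg q d)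
      obtain ⟨g, hg1, hg2⟩ := exists_extension_of_le_sublinear
        f (fun x => q x)
        (fun c hc x => by
          rw [map_smul_eq_mul, Real.norm_eq_abs, abs_of_pos hc])
        (fun x y => map_add_le_add q x y) hle
      refine ⟨g, ?_, ?_⟩
      · intro e
        refine abs_le.2 ⟨?_, hg2 e⟩
        have h1 := hg2 (-e)
        rw [map_neg] at h1
        have h2 : q (-e) = q e := map_neg_eq_map q e
        simp only [h2] at h1
        linarith
      · subst hf
        have h1 := hg1 ⟨d, Submodule.mem_span_singleton_self d⟩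
        rw [LinearPMap.mkSpanSingleton_apply] at h1
        exact h1
  choose g hg1 hg2 using key
  refine ⟨fun n => g (D n), fun n e => hg1 _ _, ?_⟩
  intro e c hc
  have hε : 0 < (q e - c) / 3 := by linarith
  obtain ⟨n, hn⟩ := hD e _ hε
  refine ⟨n, ?_⟩
  have h1 : |g (D n) (e - D n)| ≤ q (e - D n) := hg1 _ _
  have h2 : g (D n) (e - D n) = g (D n) e - q (D n) := by rw [map_sub, hg2]
  have h3 : q e ≤ q (e - D n) + q (D n) := by
    have h4 := map_add_le_add q (e - D n) (D n)
    rwa [sub_add_cancel] at h4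
  have h5 := (abs_le.1 h1).1
  have h6 := le_abs_self (g (D n) e)
  rw [h2] at h5
  linarith

/-- rational finitely supported sequences are dense for every seminorm -/
private theorem rat_dense (pH : Seminorm ℝ (ℕ →₀ ℝ)) (h : ℕ →₀ ℝ) :
    ∀ ε : ℝ, 0 < ε → ∃ h' : ℕ →₀ ℚ,
      pH (h - Finsupp.mapRange (fun a : ℚ => (a : ℝ)) (by simp) h') < ε := by
  induction h using Finsupp.induction_linear with
  | zero =>
    intro ε hε
    refine ⟨0, ?_⟩
    simpa using hε
  | add f g hf hg =>
    intro ε hε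
    obtain ⟨f', hf'⟩ := hf (ε / 2) (by linarith)
    obtain ⟨g', hg'⟩ := hg (ε / 2) (by linarith)
    refine ⟨f' + g', ?_⟩
    have h1 : f + g - Finsupp.mapRange (fun a : ℚ => (a : ℝ)) (by simp) (f' + g') =
        (f - Finsupp.mapRange (fun a : ℚ => (a : ℝ)) (by simp) f') +
        (g - Finsupp.mapRange (fun a : ℚ => (a : ℝ)) (by simp) g') := by
      rw [Finsupp.mapRange_add (by intro x y; push_cast; rfl)]
      abel
    rw [h1]
    have h2 := map_add_le_add pH (f - Finsupp.mapRange (fun a : ℚ => (a : ℝ)) (by simp) f')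
      (g - Finsupp.mapRange (fun a : ℚ => (a : ℝ)) (by simp) g')
    linarith
  | single i a =>
    intro ε hε
    have hp : 0 ≤ pH (Finsupp.single i (1 : ℝ)) := apply_nonneg _ _
    have hpos : 0 < ε / (pH (Finsupp.single i (1 : ℝ)) + 1) := by positivity
    obtain ⟨r, hr1, hr2⟩ := exists_rat_btwn (show a < a + ε / (pH (Finsupp.single i (1 : ℝ)) + 1) by
      linarith)
    refine ⟨Finsupp.single i r, ?_⟩
    have h1 : Finsupp.single i a - Finsupp.mapRange (fun a : ℚ => (a : ℝ)) (by simp)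
        (Finsupp.single i r) = (a - r) • Finsupp.single i (1 : ℝ) := by
      rw [Finsupp.mapRange_single, ← Finsupp.single_sub, Finsupp.smul_single, smul_eq_mul, mul_one]
    rw [h1, map_smul_eq_mul, Real.norm_eq_abs]
    have h2 : |a - (r : ℝ)| < ε / (pH (Finsupp.single i (1 : ℝ)) + 1) := by
      rw [abs_lt]; constructor <;> linarith
    have h3 : |a - (r : ℝ)| * pH (Finsupp.single i (1 : ℝ)) ≤
        |a - (r : ℝ)| * (pH (Finsupp.single i (1 : ℝ)) + 1) :=
      mul_le_mul_of_nonneg_left (by linarith) (abs_nonneg _)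
    have h4 : |a - (r : ℝ)| * (pH (Finsupp.single i (1 : ℝ)) + 1) < ε := by
      rwa [lt_div_iff₀ (by linarith)] at h2
    linarith

private theorem exists_fin_compl {X W : Type*} [AddCommGroup X] [Module ℝ X] [AddCommGroup W]
    [Module ℝ W] [FiniteDimensional ℝ W] (T : X →ₗ[ℝ] W) :
    ∃ G : Submodule ℝ X, FiniteDimensional ℝ G ∧ ∀ x, ∃ g ∈ G, T (x - g) = 0 := by
  obtain ⟨G, hG⟩ := Submodule.exists_isCompl (LinearMap.ker T)
  refine ⟨G, ?_, ?_⟩
  · have hinj : Function.Injective (T.domRestrict G) := by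
      rw [← LinearMap.ker_eq_bot, LinearMap.ker_eq_bot']
      rintro ⟨m, hm⟩ h
      have h1 : T m = 0 := h
      have h2 : m ∈ LinearMap.ker T ⊓ G := ⟨h1, hm⟩
      rw [hG.inf_eq_bot] at h2
      have h3 : m = 0 := by simpa using h2
      exact Subtype.ext h3
    exact FiniteDimensional.of_injective _ hinj
  · intro x
    have hx : x ∈ LinearMap.ker T ⊔ G := by rw [hG.sup_eq_top]; exact Submodule.mem_top
    obtain ⟨y, hy, g, hg, hyg⟩ := Submodule.mem_sup.1 hx
    refine ⟨g, hg, ?_⟩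
    have h1 : x - g = y := by rw [← hyg]; abel
    rw [h1]
    exact hy

private theorem exists_pel_frame {X V : Type} [NormedAddCommGroup X] [NormedSpace ℝ X]
    [NormedAddCommGroup V] [NormedSpace ℝ V] (F : Frame X V) (k : ℕ) : Nonempty (Pel (F.s k)) := by
  have hfin : FiniteDimensional ℝ (LinearMap.range (F.R' k : V →ₗ[ℝ] V)) := by
    cases k with
    | zero =>
      have h0 : LinearMap.range (F.R' 0 : V →ₗ[ℝ] V) = ⊥ := by
        rw [LinearMap.range_eq_bot]
        rfl
      rw [h0]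
      infer_instance
    | succ k => exact F.R_fin k
  have hfin' := F.R_fin k
  obtain ⟨G, hG, hG2⟩ := exists_fin_compl
    (((F.R k : V →ₗ[ℝ] V).rangeRestrict ∘ₗ F.ι.toLinearMap).prod
      ((F.R' k : V →ₗ[ℝ] V).rangeRestrict ∘ₗ F.ι.toLinearMap))
  refine exists_pel (F.s k) G hG ?_
  intro x
  obtain ⟨g, hg, hx⟩ := hG2 x
  refine ⟨g, hg, ?_⟩
  have h1 : F.R k (F.ι (x - g)) = 0 := by
    have h := congrArg (fun z => ((z.1 : LinearMap.range (F.R k : V →ₗ[ℝ] V)) : V)) hx
    simpa using h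
  have h2 : F.R' k (F.ι (x - g)) = 0 := by
    have h := congrArg (fun z => ((z.2 : LinearMap.range (F.R' k : V →ₗ[ℝ] V)) : V)) hx
    simpa using h
  have h3 : F.nr k (x - g) = 0 := by
    change ‖(F.R k - F.R' k) (F.ι (x - g))‖ = 0
    rw [sub_apply, h1, h2, sub_zero, norm_zero]
  have h4 : F.p k (x - g) = 0 := p_zero F k _ (mem_N_of_ker F k _ h1)
  have h5 : F.p' k (x - g) = 0 := by
    cases k with
    | zero => rfl
    | succ k => exact p_zero F k _ (mem_N_of_ker F k _ h2)
  change max (max (F.nr k (x - g)) (F.p k (x - g))) (F.p' k (x - g)) = 0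
  rw [h3, h4, h5]
  simp

theorem exists_host {X V : Type} [NormedAddCommGroup X] [NormedSpace ℝ X]
    [TopologicalSpace.SeparableSpace X] [NormedAddCommGroup V] [NormedSpace ℝ V]
    (F : Frame X V) (P : Par) (good : Good P)
    (hVS : P.VS = {s | ∃ f : X →L[ℝ] ℝ, ‖f‖ ≤ 1 ∧ s = fun k => f (F.b k)}) :
    ∃ H : Host X V, H.F = F ∧ H.P = P := by
  have pel : ∀ k, Pel (F.s k) := fun k => (exists_pel_frame F k).some
  obtain ⟨u, hu⟩ := exists_surjective_nat (ℕ × (ℕ →₀ ℚ))
  have hg : ∀ k, ∃ g : ℕ → (Eb X →ₗ[ℝ] ℝ),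
      (∀ n e, |g n e| ≤ max (F.p k e.1) ((pel k).pH e.2)) ∧
      ∀ e c, c < max (F.p k e.1) ((pel k).pH e.2) → ∃ n, c < |g n e| := by
    intro k
    refine exists_norming
      ((F.p k).comp (LinearMap.fst ℝ X (ℕ →₀ ℝ)) ⊔ ((pel k).pH).comp (LinearMap.snd ℝ X (ℕ →₀ ℝ)))
      (fun n => (TopologicalSpace.denseSeq X (u n).1,
        Finsupp.mapRange (fun a : ℚ => (a : ℝ)) (by simp) (u n).2)) ?_
    rintro ⟨x, h⟩ ε hε
    obtain ⟨h', hh'⟩ := rat_dense (pel k).pH h ε hε
    obtain ⟨m, hm⟩ := (TopologicalSpace.denseRange_denseSeq X).exists_dist_lt x hε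
    obtain ⟨n, hn⟩ := hu (m, h')
    refine ⟨n, ?_⟩
    change max (F.p k (x - TopologicalSpace.denseSeq X (u n).1))
      ((pel k).pH (h - Finsupp.mapRange (fun a : ℚ => (a : ℝ)) (by simp) (u n).2)) < ε
    rw [hn]
    refine max_lt ?_ hh'
    refine lt_of_le_of_lt (p_le F k _) ?_
    rwa [dist_eq_norm] at hm
  choose g hg1 hg2 using hg
  refine ⟨{ F := F, P := P, good := good, hVS := hVS, pel := pel,
            gam := fun i => g (blk i) (Nat.unpair i).2,
            gam_le := fun i e => hg1 _ _ _,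
            gam_sup := ?_ }, rfl, rfl⟩
  intro k e c hc
  obtain ⟨n, hn⟩ := hg2 k e c hc
  refine ⟨Nat.pair k n, ?_, ?_⟩
  · simp [blk]
  · have h1 : blk (Nat.pair k n) = k := by simp [blk]
    have h2 : (Nat.unpair (Nat.pair k n)).2 = n := by simp
    simp only [h1, h2]
    exact hn

end Pool.Agent.HI61
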