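import Pool.Agent.HI61.ParDefs

/-!
# HI61/LrBound : the `ℓ_{r'}` norm of the coefficients of one chain

PROOF.  Let `n = #D ≤ ℓ`; if `D = ∅` the sum is `0`.  Order `D` so that
`a_1 ≥ a_2 ≥ ... ≥ a_n` are the numbers `|v k|`.  For `1 ≤ m ≤ n`,
`m a_m ≤ a_1 + ... + a_m ≤ φ m ≤ K2 (m/ℓ)^{1/q} φ ℓ`, so
`a_m ≤ K2 φ(ℓ) ℓ^{-1/q} m^{1/q - 1}`.  Let `rc = 2q/(2q-1)` and
`s = (1 - 1/q) rc = 1 - 1/(2q-1) ∈ [0,1)`.  Then
`∑ a_m^{rc} ≤ (K2 φ(ℓ) ℓ^{-1/q})^{rc} ∑_{m ≤ ℓ} m^{-s} ≤ (K2 φ(ℓ) ℓ^{-1/q})^{rc} (2q-1) ℓ^{1/(2q-1)}`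
(`sum_rpow_le`: `∑_{m=1}^ℓ m^{-s} ≤ ℓ^{1-s}/(1-s)`, by induction on `ℓ`, from
`(1-s) m^{-s} ≤ m^{1-s} - (m-1)^{1-s}`: Bernoulli `(1 - 1/m)^{1-s} ≤ 1 - (1-s)/m`,
`Real.rpow_one_add_le_one_add_mul_self` or concavity).  Since `(2q-1) ≤ (2q)^{rc}` (`rc ≥ 1`) and
`ℓ^{1/(2q-1)} = (ℓ^{1/(2q)})^{rc}`, the right side is at most
`(2 q K2 φ(ℓ) ℓ^{-1/q} ℓ^{1/(2q)})^{rc} = (2 q K2 φ(ℓ) / ℓ^{1/(2q)})^{rc}`.
Avoiding the ordering: choose an enumeration of `D` by `Fin n` which is antitone in `|v|`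
(`Finset.exists_...`, `Tuple.sort`, or induct on `#D` by removing the element with the smallest
`|v k|`: that element satisfies `#D |v k| ≤ φ(#D)`, the induction gives
`∑_{k ∈ D} |v k|^{rc} ≤ Q^{rc} ∑_{m=1}^{#D} m^{-s}` with `Q = K2 φ(ℓ) ℓ^{-1/q}`.)
-/

namespace Pool.Agent.HI61

open Finset

theorem sum_rpow_le (s : ℝ) (h0 : 0 ≤ s) (h1 : s < 1) (n : ℕ) :
    ∑ m ∈ range n, ((m : ℝ) + 1) ^ (-s) ≤ (n : ℝ) ^ (1 - s) / (1 - s) := by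
  have h2 : 0 < 1 - s := by linarith
  induction n with
  | zero =>
    rw [Finset.sum_range_zero, Nat.cast_zero, Real.zero_rpow h2.ne', zero_div]
  | succ n ih =>
    rw [Finset.sum_range_succ]
    have hN : (0 : ℝ) < (n : ℝ) + 1 := by positivity
    have h3 : (1 + (-(1 / ((n : ℝ) + 1)))) ^ (1 - s) ≤ 1 + (1 - s) * (-(1 / ((n : ℝ) + 1))) := by
      apply rpow_one_add_le_one_add_mul_self
      · have : 1 / ((n : ℝ) + 1) ≤ 1 := by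
          rw [div_le_one hN]
          linarith [Nat.cast_nonneg (α := ℝ) n]
        linarith
      · linarith
      · linarith
    have h4 : (1 + (-(1 / ((n : ℝ) + 1)))) = (n : ℝ) / ((n : ℝ) + 1) := by
      field_simp
      ring
    rw [h4, Real.div_rpow (Nat.cast_nonneg n) hN.le] at h3
    have h5 : (0 : ℝ) < ((n : ℝ) + 1) ^ (1 - s) := Real.rpow_pos_of_pos hN _
    have h6 : ((n : ℝ) + 1) ^ (-s) = ((n : ℝ) + 1) ^ (1 - s) / ((n : ℝ) + 1) := by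
      rw [show (-s) = (1 - s) - 1 by ring, Real.rpow_sub_one hN.ne']
    have h7 : (n : ℝ) ^ (1 - s) ≤ ((n : ℝ) + 1) ^ (1 - s) -
        (1 - s) * (((n : ℝ) + 1) ^ (1 - s) / ((n : ℝ) + 1)) := by
      rw [div_le_iff₀ h5] at h3
      calc (n : ℝ) ^ (1 - s)
          ≤ (1 + (1 - s) * -(1 / ((n : ℝ) + 1))) * ((n : ℝ) + 1) ^ (1 - s) := h3
        _ = _ := by ring
    rw [h6]
    have h8 : (((n + 1 : ℕ) : ℝ)) = (n : ℝ) + 1 := by push_cast; ring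
    rw [h8]
    calc ∑ m ∈ range n, ((m : ℝ) + 1) ^ (-s) + ((n : ℝ) + 1) ^ (1 - s) / ((n : ℝ) + 1)
        ≤ (n : ℝ) ^ (1 - s) / (1 - s) + ((n : ℝ) + 1) ^ (1 - s) / ((n : ℝ) + 1) := by linarith
      _ ≤ (((n : ℝ) + 1) ^ (1 - s) - (1 - s) * (((n : ℝ) + 1) ^ (1 - s) / ((n : ℝ) + 1))) /
            (1 - s) + ((n : ℝ) + 1) ^ (1 - s) / ((n : ℝ) + 1) := by
          have := div_le_div_of_nonneg_right h7 h2.le
          linarith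
      _ = ((n : ℝ) + 1) ^ (1 - s) / (1 - s) := by
          rw [sub_div, mul_div_cancel_left₀ _ h2.ne']
          ring

private theorem lr_ind (q : ℝ) (hq : 1 ≤ q) (φ : ℕ → ℝ) (K2 : ℝ) (hK2 : 1 ≤ K2)
    (hφ : ∀ n, 1 ≤ n → 0 < φ n)
    (hgr : ∀ k n : ℕ, 1 ≤ k → k ≤ n → φ k ≤ K2 * ((k : ℝ) / n) ^ (1 / q) * φ n)
    (v : ℕ → ℝ) (ℓ : ℕ) (hℓ : 1 ≤ ℓ) (rc : ℝ) (hrc : 0 ≤ rc) (n : ℕ) :
    ∀ D : Finset ℕ, D.card = n → n ≤ ℓ → (∀ D' ⊆ D, 1 ≤ D'.card → ∑ k ∈ D', |v k| ≤ φ D'.card) →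
    ∑ k ∈ D, |v k| ^ rc ≤ (K2 * φ ℓ * (ℓ : ℝ) ^ (-(1 / q))) ^ rc *
      ∑ m ∈ range n, ((m : ℝ) + 1) ^ (-((1 - 1 / q) * rc)) := by
  induction n with
  | zero =>
    intro D hD _ _
    rw [Finset.card_eq_zero] at hD
    subst hD
    simp
  | succ n ih =>
    intro D hD hn hv
    have hne : D.Nonempty := by
      rw [← Finset.card_pos, hD]; omega
    obtain ⟨k0, hk0, hmin⟩ := Finset.exists_min_image D (fun k => |v k|) hne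
    have h1 := ih (D.erase k0) (by rw [Finset.card_erase_of_mem hk0, hD]; rfl) (by omega)
      (fun D' hD' => hv D' (hD'.trans (Finset.erase_subset _ _)))
    rw [← Finset.add_sum_erase D (fun k => |v k| ^ rc) hk0, Finset.sum_range_succ, mul_add]
    have hN : (0 : ℝ) < (n : ℝ) + 1 := by positivity
    have hℓ0 : (0 : ℝ) < ℓ := by exact_mod_cast hℓ
    have hφℓ := hφ ℓ hℓ
    have hQ : 0 ≤ K2 * φ ℓ * (ℓ : ℝ) ^ (-(1 / q)) := by positivity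
    have h2 : ((n : ℝ) + 1) * |v k0| ≤ ∑ k ∈ D, |v k| := by
      have h3 : ∑ _k ∈ D, |v k0| ≤ ∑ k ∈ D, |v k| := Finset.sum_le_sum fun k hk => hmin k hk
      rw [Finset.sum_const, hD, nsmul_eq_mul] at h3
      push_cast at h3
      exact h3
    have h3 := hv D (Finset.Subset.refl _) (by omega)
    rw [hD] at h3
    have h4 := hgr (n + 1) ℓ (by omega) hn
    have h5 : |v k0| ≤ (K2 * φ ℓ * (ℓ : ℝ) ^ (-(1 / q))) * ((n : ℝ) + 1) ^ (-(1 - 1 / q)) := by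
      have h6 : ((n : ℝ) + 1) * |v k0| ≤ K2 * (((n : ℝ) + 1) / ℓ) ^ (1 / q) * φ ℓ := by
        push_cast at h4
        linarith
      have h7 : (((n : ℝ) + 1) / ℓ) ^ (1 / q) =
          ((n : ℝ) + 1) * (((n : ℝ) + 1) ^ (-(1 - 1 / q)) * (ℓ : ℝ) ^ (-(1 / q))) := by
        rw [Real.div_rpow hN.le hℓ0.le, Real.rpow_neg hℓ0.le, div_eq_mul_inv,
          show -(1 - 1 / q) = 1 / q - 1 by ring, Real.rpow_sub_one hN.ne']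
        field_simp
      rw [h7] at h6
      have h8 : K2 * (((n : ℝ) + 1) * (((n : ℝ) + 1) ^ (-(1 - 1 / q)) * (ℓ : ℝ) ^ (-(1 / q)))) * φ ℓ =
          ((n : ℝ) + 1) * ((K2 * φ ℓ * (ℓ : ℝ) ^ (-(1 / q))) * ((n : ℝ) + 1) ^ (-(1 - 1 / q))) := by
        ring
      rw [h8] at h6
      exact le_of_mul_le_mul_left h6 hN
    have h6 : |v k0| ^ rc ≤ (K2 * φ ℓ * (ℓ : ℝ) ^ (-(1 / q))) ^ rc *
        ((n : ℝ) + 1) ^ (-((1 - 1 / q) * rc)) := by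
      have h7 := Real.rpow_le_rpow (abs_nonneg _) h5 hrc
      rw [Real.mul_rpow hQ (Real.rpow_nonneg hN.le _), ← Real.rpow_mul hN.le] at h7
      rw [show -((1 - 1 / q) * rc) = -(1 - 1 / q) * rc by ring]
      exact h7
    linarith

theorem lr_bound (q : ℝ) (hq : 1 ≤ q) (φ : ℕ → ℝ) (K2 : ℝ) (hK2 : 1 ≤ K2)
    (hφ : ∀ n, 1 ≤ n → 0 < φ n)
    (hgr : ∀ k n : ℕ, 1 ≤ k → k ≤ n → φ k ≤ K2 * ((k : ℝ) / n) ^ (1 / q) * φ n)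
    (v : ℕ → ℝ) (ℓ : ℕ) (hℓ : 1 ≤ ℓ) (D : Finset ℕ) (hD : D.card ≤ ℓ)
    (hv : ∀ D' ⊆ D, 1 ≤ D'.card → ∑ k ∈ D', |v k| ≤ φ D'.card) :
    ∑ k ∈ D, |v k| ^ (2 * q / (2 * q - 1)) ≤
      (2 * q * K2 * φ ℓ / (ℓ : ℝ) ^ (1 / (2 * q))) ^ (2 * q / (2 * q - 1)) := by
  have hq0 : 0 < q := by linarith
  have hq2 : 0 < 2 * q - 1 := by linarith
  obtain ⟨rc, hrc⟩ : ∃ rc, rc = 2 * q / (2 * q - 1) := ⟨_, rfl⟩
  have hrc1 : 1 ≤ rc := by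
    rw [hrc, le_div_iff₀ hq2]; linarith
  rw [← hrc]
  have h1 := lr_ind q hq φ K2 hK2 hφ hgr v ℓ hℓ rc (by linarith) D.card D rfl hD hv
  obtain ⟨s, hs⟩ : ∃ s, s = (1 - 1 / q) * rc := ⟨_, rfl⟩
  have hs' : 1 - s = 1 / (2 * q - 1) := by
    have hq3 : 2 * q - 1 ≠ 0 := hq2.ne'
    rw [hs, hrc]
    have e1 : (1 - 1 / q) * (2 * q / (2 * q - 1)) = (2 * q - 2) / (2 * q - 1) := by
      rw [one_sub_div hq0.ne', div_mul_div_comm, div_eq_div_iff (by positivity) hq3]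
      ring
    rw [e1, eq_div_iff hq3, sub_mul, div_mul_cancel₀ _ hq3]
    ring
  have hs1 : s < 1 := by
    have : 0 < 1 - s := by rw [hs']; positivity
    linarith
  have hs0 : 0 ≤ s := by
    rw [hs]
    have : 1 / q ≤ 1 := by rw [div_le_one hq0]; exact hq
    have h2 : 0 ≤ 1 - 1 / q := by linarith
    have h3 : 0 ≤ rc := by linarith
    positivity
  rw [← hs] at h1
  have h2 := sum_rpow_le s hs0 hs1 D.card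
  have hℓ0 : (0 : ℝ) < ℓ := by exact_mod_cast hℓ
  have hφℓ := hφ ℓ hℓ
  have hQ : 0 ≤ K2 * φ ℓ * (ℓ : ℝ) ^ (-(1 / q)) := by positivity
  have h3 : (D.card : ℝ) ^ (1 - s) ≤ (ℓ : ℝ) ^ (1 - s) :=
    Real.rpow_le_rpow (Nat.cast_nonneg _) (by exact_mod_cast hD) (by linarith)
  have h4 : ∑ m ∈ range D.card, ((m : ℝ) + 1) ^ (-s) ≤ (2 * q - 1) * (ℓ : ℝ) ^ (1 - s) := by
    refine h2.trans ?_
    rw [div_le_iff₀ (by linarith)]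
    have h5 : (2 * q - 1) * (1 - s) = 1 := by rw [hs']; field_simp
    calc (D.card : ℝ) ^ (1 - s) ≤ (ℓ : ℝ) ^ (1 - s) := h3
      _ = ((2 * q - 1) * (1 - s)) * (ℓ : ℝ) ^ (1 - s) := by rw [h5, one_mul]
      _ = _ := by ring
  have h5 : (ℓ : ℝ) ^ (1 - s) = ((ℓ : ℝ) ^ (1 / (2 * q))) ^ rc := by
    rw [← Real.rpow_mul hℓ0.le, hs', hrc]
    congr 1
    field_simp
  have h6 : K2 * φ ℓ * (ℓ : ℝ) ^ (-(1 / q)) * (ℓ : ℝ) ^ (1 / (2 * q)) =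
      K2 * φ ℓ / (ℓ : ℝ) ^ (1 / (2 * q)) := by
    rw [mul_assoc, ← Real.rpow_add hℓ0, div_eq_mul_inv (K2 * φ ℓ), ← Real.rpow_neg hℓ0.le]
    congr 2
    field_simp
    ring
  have h7 : (2 * q - 1) ≤ (2 * q) ^ rc := by
    have h8 : (2 * q) ^ (1 : ℝ) ≤ (2 * q) ^ rc :=
      Real.rpow_le_rpow_of_exponent_le (by linarith) hrc1
    rw [Real.rpow_one] at h8
    linarith
  have hY : 0 ≤ K2 * φ ℓ / (ℓ : ℝ) ^ (1 / (2 * q)) := by positivity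
  calc ∑ k ∈ D, |v k| ^ rc
      ≤ (K2 * φ ℓ * (ℓ : ℝ) ^ (-(1 / q))) ^ rc * ∑ m ∈ range D.card, ((m : ℝ) + 1) ^ (-s) := h1
    _ ≤ (K2 * φ ℓ * (ℓ : ℝ) ^ (-(1 / q))) ^ rc * ((2 * q - 1) * (ℓ : ℝ) ^ (1 - s)) :=
        mul_le_mul_of_nonneg_left h4 (Real.rpow_nonneg hQ _)
    _ = (2 * q - 1) * ((K2 * φ ℓ * (ℓ : ℝ) ^ (-(1 / q))) * (ℓ : ℝ) ^ (1 / (2 * q))) ^ rc := by
        rw [Real.mul_rpow hQ (Real.rpow_nonneg hℓ0.le _), h5]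
        ring
    _ = (2 * q - 1) * (K2 * φ ℓ / (ℓ : ℝ) ^ (1 / (2 * q))) ^ rc := by rw [h6]
    _ ≤ (2 * q) ^ rc * (K2 * φ ℓ / (ℓ : ℝ) ^ (1 / (2 * q))) ^ rc :=
        mul_le_mul_of_nonneg_right h7 (Real.rpow_nonneg hY _)
    _ = (2 * q * (K2 * φ ℓ / (ℓ : ℝ) ^ (1 / (2 * q)))) ^ rc := by
        rw [Real.mul_rpow (by linarith) hY]
    _ = (2 * q * K2 * φ ℓ / (ℓ : ℝ) ^ (1 / (2 * q))) ^ rc := by
        congr 1
        ring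

end Pool.Agent.HI61
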