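import Pool.Agent.HI61.ParStep
import Pool.Agent.HI61.LrBound

/-!
# HI61/ParAssemble : the parameters exist

PROOF.  Let `K2` be from `growth`, `Cr = 2 q K2 ≥ 1`.  By `step_exists` and dependent choice there are
`S : ℕ → St`, `O : ℕ → Out`, `S 0 = ⟨1, 0, 0, 1⟩`, with `Step ... i (S i) (O i) (S (i+1))` for all `i`.
Define `P`: `q, VS`; `e (2i) = (O i).e0`, `e (2i+1) = (O i).e1`; `L (2i) = max 1 L0`... (`L0 ≥ 1` follows
from `Lreg`: the left side is positive), `L (2i+1) = ell`; `A, C, k, nst` from `O i`; `al i = (O i).al q φ Cr`;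
`th i = ep * φ ell`; `ph = φ`; `dl i = A K2 √ep / mu`; `Lam (2i) = (S i).lam`,
`Lam (2i+1) = (S i).lam + 1 + L0`; `base i` = max of `i`, the `K` of `upper` for `N = (C+1) ell`, the `K`
of `lower` for `N = ell`; `W i` = max of `i + 1`, `⌈124 ell²⌉`, `⌈2 (i+1) be ell⌉`.
`P.r = 2 q`, `P.rc = 2q/(2q-1)`, `P.M (2i) = 8·2^e0`, `P.M (2i+1) = 8·2^e1`, `P.psi i = φ ell`,
`P.be i = (O i).be q Cr` (algebra, `ell^{1/r} > 0`), `P.Bs i = (S i).B` (induction).
Verification of `Good P`:
* `e_step`: `e1`, `e'` and `e0` of the next stage; `kj`: `k'`, `e0`.  `Lam_ge`, `Lam_L`: induction on `i`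
  from `lam'`.  `th_ge`: `th`.  `off`: `off`.  `psi_pos`: `one`, `mono`.  `psi_big`: `ep2`, `psi`.
* `lr`: `∑ (al C A M |v k|)^{rc} = (al C A M)^{rc} ∑ |v k|^{rc} ≤ (al C A M Cr φ(ell)/ell^{1/r})^{rc} = 1`
  by `lr_bound` (its hypothesis is `upper` for `N = (C+1) ell`) since `al φ(ell) / ell^{1/r} = 1/mu` and
  `mu = M A C Cr`.
* `hv`: if `n ≥ C + 1` take the first `m = C + 1` of the sets; their union has at most `m ell` elements
  (and at least one, as `th > 0`), so `m ep φ(ell) ≤ ∑ |v| ≤ φ(#union) ≤ φ(m ell) < m ep φ(ell)` (`Ch`, `mono`).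
* `ph_le`: `upper` and `mono` (`D = ∅`: `0 ≤ φ n`).  `low`: `lower`.
* `slope`: `min (ep φ(ell)) (φ n) ≤ √(ep φ(ell) φ n) ≤ √(ep φ(ell) K2 (n/ell)^{1/q} φ(ell))
  ≤ K2 √ep φ(ell) (n/ell)^{1/(2q)}`, times `A al = A ell^{1/(2q)} / (mu φ(ell))`.
* `eta`: `be (98 (1 + (8 Lam)^k) + 1) ≤ 99 mu (2 + (8 Lam)^k) / ell^{1/r} ≤ 1/((i+1)(B+1))` by `eta`;
  `98 be (1/2)^k ell^{1/r} = 98 mu (1/2)^k ≤ 1/((i+1)(B+1))` by `k1`; `98 be dl ell^{1/r} = 98 mu dl
  = 98 A K2 √ep ≤ 1/((i+1)(B+1))` by `ep1`; `3 ≤ 4`.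
* `W1, W2`: `M (2 w) = 8·2^{e(2w)} ≥ 2^{2w} ≥ w` (`e κ ≥ κ`).
* `A_next`: `98 be_j ell_j (j+1) ≤ (S (j+1)).b ≤ (S i).b`, `2^i (S i).b ≤ A i`.
* `A_high`: `w = i`: `A2`; `w < i`: `4 (nst w + 1) ≤ (S (w+1)).b ≤ (S i).b`, `A1`.
The last property is `nst`.
-/

namespace Pool.Agent.HI61

open Finset

private theorem exists_parity (a0 a1 : ℕ → ℕ) :
    ∃ f : ℕ → ℕ, (∀ i, f (2 * i) = a0 i) ∧ ∀ i, f (2 * i + 1) = a1 i := by
  refine ⟨fun κ => if κ % 2 = 0 then a0 (κ / 2) else a1 (κ / 2), fun i => ?_, fun i => ?_⟩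
  · have h1 : 2 * i % 2 = 0 := by omega
    have h2 : 2 * i / 2 = i := by omega
    simp only [h1, h2, if_true]
  · have h1 : (2 * i + 1) % 2 ≠ 0 := by omega
    have h2 : (2 * i + 1) / 2 = i := by omega
    simp only [h1, h2, if_false]

private theorem parity_ind {p : ℕ → Prop} (h0 : ∀ i, p (2 * i)) (h1 : ∀ i, p (2 * i + 1)) :
    ∀ κ, p κ := by
  intro κ
  rcases Nat.even_or_odd' κ with ⟨i, rfl | rfl⟩
  · exact h0 i
  · exact h1 i

section stages

variable {q : ℝ} {φ : ℕ → ℝ} {VS : Set (ℕ → ℝ)} {K2 Cr Ct : ℝ} {S : ℕ → St} {O : ℕ → Out}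

private theorem phi_pos (h : SeqData q φ VS) {n : ℕ} (hn : 1 ≤ n) : 1 ≤ φ n :=
  h.one.trans (h.mono 1 n le_rfl hn)

private theorem b_mono (hs : ∀ i, Step q φ K2 Cr Ct i (S i) (O i) (S (i + 1))) :
    Monotone fun i => (S i).b :=
  monotone_nat_of_le_succ fun i => (hs i).b'1

private theorem A_pos' (hs : ∀ i, Step q φ K2 Cr Ct i (S i) (O i) (S (i + 1)))
    (h0 : 1 ≤ (S 0).b) (i : ℕ) : 1 ≤ (O i).A := by
  have h1 : 1 ≤ (S i).b := h0.trans (b_mono hs (Nat.zero_le i))
  have h2 := (hs i).A1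
  have h3 : 1 ≤ 2 ^ i := Nat.one_le_two_pow
  nlinarith

private theorem mu_pos (hs : ∀ i, Step q φ K2 Cr Ct i (S i) (O i) (S (i + 1)))
    (h0 : 1 ≤ (S 0).b) (hCr : 1 ≤ Cr) (i : ℕ) : 0 < (O i).mu Cr := by
  unfold Out.mu
  have h1 : (0 : ℝ) < (O i).A := by exact_mod_cast A_pos' hs h0 i
  have h2 : (0 : ℝ) < (O i).C := by exact_mod_cast (hs i).C1
  positivity

private theorem E_pos (hs : ∀ i, Step q φ K2 Cr Ct i (S i) (O i) (S (i + 1))) (i : ℕ) :
    0 < ((O i).ell : ℝ) ^ (1 / (2 * q)) := by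
  have h2 : (0 : ℝ) < (O i).ell := by exact_mod_cast (hs i).ell1
  exact Real.rpow_pos_of_pos h2 _

private theorem L0_pos (h : SeqData q φ VS)
    (hs : ∀ i, Step q φ K2 Cr Ct i (S i) (O i) (S (i + 1))) (i : ℕ) : 1 ≤ (O i).L0 := by
  by_contra hc
  have h1 : (O i).L0 = 0 := by omega
  have h2 := (hs i).Lreg
  have h3 : (1 / (2 * q)) ≠ 0 := by
    have := h.q1
    positivity
  rw [h1, Nat.cast_zero, Real.zero_rpow h3] at h2
  have h4 : 0 < 8 * 2 ^ (O i).e0 * (7 + 6 * (3 + (8 * ((S i).lam : ℝ)) ^ (O i).e0) * (S i).lam) := by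
    positivity
  linarith

private theorem slope_aux {K ep X F Fn : ℝ} (hK : 1 ≤ K) (hep : 0 < ep) (hX : 0 ≤ X)
    (hF : 0 < F) (hFn : 0 < Fn) (hgr : Fn ≤ K * X ^ 2 * F) :
    min (ep * F) Fn ≤ K * Real.sqrt ep * X * F := by
  have hs := Real.sq_sqrt hep.le
  have hs0 := Real.sqrt_nonneg ep
  by_contra hc
  push Not at hc
  have h1 : min (ep * F) Fn ≤ ep * F := min_le_left _ _
  have h2 : min (ep * F) Fn ≤ Fn := min_le_right _ _
  have h0 : 0 ≤ K * Real.sqrt ep * X * F := by positivity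
  have h3 : (K * Real.sqrt ep * X * F) ^ 2 < min (ep * F) Fn ^ 2 :=
    pow_lt_pow_left₀ hc h0 two_ne_zero
  have h4 : min (ep * F) Fn ^ 2 ≤ (ep * F) * Fn := by
    rw [sq]
    exact mul_le_mul h1 h2 (h0.trans hc.le) (by positivity)
  have h5 : (ep * F) * Fn ≤ (ep * F) * (K * X ^ 2 * F) :=
    mul_le_mul_of_nonneg_left hgr (by positivity)
  have h6 : (ep * F) * (K * X ^ 2 * F) ≤ K * ((ep * F) * (K * X ^ 2 * F)) := by
    have : 0 ≤ (ep * F) * (K * X ^ 2 * F) := by positivity
    nlinarith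
  have h7 : (K * Real.sqrt ep * X * F) ^ 2 = K * ((ep * F) * (K * X ^ 2 * F)) := by
    have : (K * Real.sqrt ep * X * F) ^ 2 = K ^ 2 * (Real.sqrt ep ^ 2) * X ^ 2 * F ^ 2 := by ring
    rw [this, hs]
    ring
  linarith

end stages

theorem exists_par (q : ℝ) (φ : ℕ → ℝ) (VS : Set (ℕ → ℝ)) (h : SeqData q φ VS) (Ct : ℝ)
    (hCt : 0 ≤ Ct) :
    ∃ P : Par, Good P ∧ P.VS = VS ∧ P.q = q ∧
      ∀ w : ℕ, (Ct * (P.L (2 * w) : ℝ) ^ 2 * (w + P.Bs w + 2)) ^ P.r ≤ P.nst w := by
  obtain ⟨K2, hK2, hgr⟩ := h.growth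
  have hq1 := h.q1
  have hq0 : 0 < q := by linarith
  obtain ⟨Cr, hCr⟩ : ∃ Cr, Cr = 2 * q * K2 := ⟨_, rfl⟩
  have hCr1 : 1 ≤ Cr := by rw [hCr]; nlinarith
  have hstep := step_exists q φ VS h K2 hK2 hgr Cr hCr1 Ct hCt
  choose O' S' hOS using hstep
  obtain ⟨S, hS0, hS1⟩ : ∃ S : ℕ → St, S 0 = ⟨1, 0, 0, 1⟩ ∧ ∀ i, S (i + 1) = S' i (S i) :=
    ⟨fun i => Nat.rec ⟨1, 0, 0, 1⟩ (fun i s => S' i s) i, rfl, fun _ => rfl⟩
  obtain ⟨O, hO⟩ : ∃ O : ℕ → Out, ∀ i, O i = O' i (S i) := ⟨_, fun _ => rfl⟩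
  have hs : ∀ i, Step q φ K2 Cr Ct i (S i) (O i) (S (i + 1)) := by
    intro i
    rw [hO, hS1]
    exact hOS i (S i)
  have hb0 : 1 ≤ (S 0).b := by rw [hS0]
  have hA1 := A_pos' hs hb0
  have hmu := mu_pos hs hb0 hCr1
  have hE := E_pos hs
  have hL01 := L0_pos h hs
  have hφ1 : ∀ n, 1 ≤ n → 1 ≤ φ n := fun n hn => phi_pos h hn
  obtain ⟨Ku, hKu⟩ : ∃ Ku : ℕ → ℕ, ∀ N, ∀ v ∈ VS, ∀ D : Finset ℕ, 1 ≤ D.card → D.card ≤ N →
      (∀ k ∈ D, Ku N ≤ k) → ∑ k ∈ D, |v k| ≤ φ D.card := by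
    choose Ku hKu using h.upper
    exact ⟨Ku, hKu⟩
  obtain ⟨Kl, hKl⟩ : ∃ Kl : ℕ → ℕ, ∀ N, 1 ≤ N → ∀ D : Finset ℕ, D.card = N →
      (∀ k ∈ D, Kl N ≤ k) → ∃ v ∈ VS, φ N ≤ 16 * ∑ k ∈ D, v k := by
    have h1 : ∀ N, ∃ K : ℕ, 1 ≤ N → ∀ D : Finset ℕ, D.card = N →
        (∀ k ∈ D, K ≤ k) → ∃ v ∈ VS, φ N ≤ 16 * ∑ k ∈ D, v k := by
      intro N
      by_cases hN : 1 ≤ N
      · obtain ⟨K, hK⟩ := h.lower N hN
        exact ⟨K, fun _ => hK⟩
      · exact ⟨0, fun h => absurd h hN⟩
    choose Kl hKl using h1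
    exact ⟨Kl, hKl⟩
  obtain ⟨fe, fe0, fe1⟩ := exists_parity (fun i => (O i).e0) (fun i => (O i).e1)
  obtain ⟨fL, fL0, fL1⟩ := exists_parity (fun i => (O i).L0) (fun i => (O i).ell)
  obtain ⟨fLam, fLam0, fLam1⟩ := exists_parity (fun i => (S i).lam)
    (fun i => (S i).lam + 1 + (O i).L0)
  obtain ⟨P, pq, pVS, pe, pL, pA, pC, pal, pth, pbase, pW, pph, pdl, pk, pLam, pnst⟩ :
      ∃ P : Par, P.q = q ∧ P.VS = VS ∧ P.e = fe ∧ P.L = fL ∧ (∀ i, P.A i = (O i).A) ∧
        (∀ i, P.C i = (O i).C) ∧ (∀ i, P.al i = (O i).al q φ Cr) ∧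
        (∀ i, P.th i = (O i).ep * φ (O i).ell) ∧
        (∀ i, P.base i = max i (max (Ku (((O i).C + 1) * (O i).ell)) (Kl (O i).ell))) ∧
        (∀ i, P.W i = max (i + 1) (max (124 * (O i).ell ^ 2)
          ⌈2 * (i + 1) * ((O i).be q Cr * (O i).ell)⌉₊)) ∧ P.ph = φ ∧
        (∀ i, P.dl i = (O i).A * K2 * Real.sqrt (O i).ep / (O i).mu Cr) ∧
        (∀ i, P.k i = (O i).k) ∧ P.Lam = fLam ∧ ∀ i, P.nst i = (O i).nst :=
    ⟨{ q := q, e := fe, L := fL, A := fun i => (O i).A, C := fun i => (O i).C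
       al := fun i => (O i).al q φ Cr, th := fun i => (O i).ep * φ (O i).ell
       base := fun i => max i (max (Ku (((O i).C + 1) * (O i).ell)) (Kl (O i).ell))
       W := fun i => max (i + 1) (max (124 * (O i).ell ^ 2)
          ⌈2 * (i + 1) * ((O i).be q Cr * (O i).ell)⌉₊)
       ph := φ, dl := fun i => (O i).A * K2 * Real.sqrt (O i).ep / (O i).mu Cr
       k := fun i => (O i).k, Lam := fLam, nst := fun i => (O i).nst, VS := VS },
      rfl, rfl, rfl, rfl, fun _ => rfl, fun _ => rfl, fun _ => rfl, fun _ => rfl, fun _ => rfl,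
      fun _ => rfl, rfl, fun _ => rfl, fun _ => rfl, rfl, fun _ => rfl⟩
  rw [← pe] at fe0 fe1
  rw [← pL] at fL0 fL1
  rw [← pLam] at fLam0 fLam1
  have pell : ∀ i, P.ell i = (O i).ell := fun i => fL1 i
  have pr : P.r = 2 * q := by unfold Par.r; rw [pq]
  have prc : P.rc = 2 * q / (2 * q - 1) := by unfold Par.rc; rw [pr]
  have pM0 : ∀ i, P.M (2 * i) = 8 * 2 ^ (O i).e0 := fun i => by unfold Par.M; rw [fe0]
  have pM1 : ∀ i, P.M (2 * i + 1) = 8 * 2 ^ (O i).e1 := fun i => by unfold Par.M; rw [fe1]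
  have ppsi : ∀ i, P.psi i = φ (O i).ell := fun i => by unfold Par.psi; rw [pph, pell]
  have hφe : ∀ i, 1 ≤ φ (O i).ell := fun i => hφ1 _ (hs i).ell1
  have pbe : ∀ i, P.be i = (O i).be q Cr := by
    intro i
    unfold Par.be
    rw [pal, ppsi]
    unfold Out.al Out.be
    have h1 := hmu i
    have h2 := hφe i
    have h3 := hE i
    have h4 : 0 < φ (O i).ell := by linarith
    field_simp
  have pBs : ∀ i, P.Bs i = (S i).B := by
    intro i
    induction i with
    | zero => unfold Par.Bs; rw [Finset.sum_range_zero, hS0]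
    | succ i ih =>
      unfold Par.Bs at ih ⊢
      rw [Finset.sum_range_succ, ih, pell, (hs i).B']
  have hbase1 : ∀ i, Ku (((O i).C + 1) * (O i).ell) ≤ P.base i := fun i => by
    rw [pbase]
    exact (le_max_left _ _).trans (le_max_right _ _)
  have hbase2 : ∀ i, Kl (O i).ell ≤ P.base i := fun i => by
    rw [pbase]
    exact (le_max_right _ _).trans (le_max_right _ _)
  have hupper : ∀ i, ∀ v ∈ VS, ∀ D : Finset ℕ, 1 ≤ D.card → D.card ≤ ((O i).C + 1) * (O i).ell →
      (∀ k ∈ D, P.base i ≤ k) → ∑ k ∈ D, |v k| ≤ φ D.card := by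
    intro i v hv D h1 h2 h3
    exact hKu _ v hv D h1 h2 fun k hk => (hbase1 i).trans (h3 k hk)
  have hestep : ∀ κ, 2 * P.e κ + 3 ≤ P.e (κ + 1) := by
    apply parity_ind
    · intro i
      rw [fe0, fe1]
      exact (hs i).e1
    · intro i
      have e1 : 2 * i + 1 + 1 = 2 * (i + 1) := by ring
      rw [e1, fe0, fe1]
      exact (hs i).e'.trans (hs (i + 1)).e0
  have hek : ∀ κ, κ ≤ P.e κ := by
    intro κ
    induction κ with
    | zero => exact Nat.zero_le _
    | succ κ ih =>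
      have := hestep κ
      omega
  have hLpos : ∀ κ, 1 ≤ P.L κ := by
    apply parity_ind
    · intro i
      rw [fL0]
      exact hL01 i
    · intro i
      rw [fL1]
      exact (hs i).ell1
  have hlam : ∀ i, 2 * i + 1 ≤ (S i).lam := by
    intro i
    induction i with
    | zero => rw [hS0]
    | succ i ih =>
      have := (hs i).lam'
      omega
  have hLam_mono : Monotone P.Lam := by
    apply monotone_nat_of_le_succ
    apply parity_ind
    · intro i
      rw [fLam0, fLam1]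
      omega
    · intro i
      have e1 : 2 * i + 1 + 1 = 2 * (i + 1) := by ring
      rw [e1, fLam0, fLam1, (hs i).lam']
      omega
  have hLamL : ∀ κ, P.L κ ≤ P.Lam (κ + 1) := by
    apply parity_ind
    · intro i
      rw [fL0, fLam1]
      omega
    · intro i
      have e1 : 2 * i + 1 + 1 = 2 * (i + 1) := by ring
      rw [e1, fL1, fLam0, (hs i).lam']
      omega
  have hMW : ∀ w : ℕ, (w : ℝ) ≤ P.M (2 * w) := by
    intro w
    have h1 : w ≤ P.M (2 * w) := by
      unfold Par.M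
      have h2 := hek (2 * w)
      have h3 : 2 * w < 2 ^ (2 * w) := Nat.lt_two_pow_self
      have h4 : 2 ^ (2 * w) ≤ 2 ^ P.e (2 * w) := Nat.pow_le_pow_right (by norm_num) h2
      omega
    exact_mod_cast h1
  have hWM : ∀ i, (P.W i : ℝ) ≤ P.M (2 * P.W i) := fun i => hMW _
  refine ⟨P, ?_, pVS, pq, ?_⟩
  · constructor
    case q1 => rw [pq]; exact hq1
    case VS_ne => rw [pVS]; exact h.ne
    case VS_neg => rw [pVS]; exact h.neg
    case VS_le => rw [pVS]; exact h.le1
    case e_step => exact hestep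
    case L_pos => exact hLpos
    case A_pos => intro j; rw [pA]; exact hA1 j
    case C_pos => intro j; rw [pC]; exact (hs j).C1
    case al_pos =>
      intro j
      rw [pal]
      unfold Out.al
      have h1 := hmu j
      have h2 := hφe j
      have h3 := hE j
      have h4 : 0 < φ (O j).ell := by linarith
      positivity
    case th_ge => intro j; rw [pth]; exact (hs j).th
    case base_ge => intro j; rw [pbase]; exact le_max_left _ _
    case lr =>
      intro j v hv D hD hk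
      rw [pVS] at hv
      rw [pell] at hD
      have h1 := hmu j
      have h2 := hφe j
      have h3 := hE j
      have h4 : 0 < φ (O j).ell := by linarith
      have hAp : (0 : ℝ) < (O j).A := by exact_mod_cast hA1 j
      have hCp : (0 : ℝ) < (O j).C := by exact_mod_cast (hs j).C1
      have hCrp : 0 < Cr := by linarith
      have hb := lr_bound q hq1 φ K2 hK2 (fun n hn => by have := hφ1 n hn; linarith) hgr v
        (O j).ell (hs j).ell1 D hD (by
          intro D' hD' h1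
          refine hupper j v hv D' h1 ((Finset.card_le_card hD').trans (hD.trans ?_))
            fun k hk' => hk k (hD' hk')
          nlinarith [(hs j).ell1])
      rw [← hCr] at hb
      have e1 : P.al j * P.C j * P.A j * P.M (2 * j + 1) =
          ((O j).ell : ℝ) ^ (1 / (2 * q)) / (Cr * φ (O j).ell) := by
        rw [pal, pC, pA, pM1]
        unfold Out.al Out.mu
        push_cast
        field_simp
      rw [prc, e1]
      have h0 : (0 : ℝ) ≤ ((O j).ell : ℝ) ^ (1 / (2 * q)) / (Cr * φ (O j).ell) := by positivity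
      have e2 : ∀ k, (((O j).ell : ℝ) ^ (1 / (2 * q)) / (Cr * φ (O j).ell) * |v k|) ^
          (2 * q / (2 * q - 1)) = (((O j).ell : ℝ) ^ (1 / (2 * q)) / (Cr * φ (O j).ell)) ^
          (2 * q / (2 * q - 1)) * |v k| ^ (2 * q / (2 * q - 1)) :=
        fun k => Real.mul_rpow h0 (abs_nonneg _)
      simp only [e2]
      rw [← Finset.mul_sum]
      refine (mul_le_mul_of_nonneg_left hb (Real.rpow_nonneg h0 _)).trans ?_
      rw [← Real.mul_rpow h0 (by positivity)]
      have e3 : ((O j).ell : ℝ) ^ (1 / (2 * q)) / (Cr * φ (O j).ell) *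
          (Cr * φ (O j).ell / ((O j).ell : ℝ) ^ (1 / (2 * q))) = 1 := by
        field_simp
      rw [e3, Real.one_rpow]
    case hv =>
      intro j v hv n D hdis hcard hk hth
      rw [pVS] at hv
      rw [pC]
      simp only [pell] at hcard
      simp only [pth] at hth
      by_contra hc
      push Not at hc
      obtain ⟨m, hm0⟩ : ∃ m, m = (O j).C + 1 := ⟨_, rfl⟩
      have hm : m ≤ n := by omega
      obtain ⟨E, hEd⟩ : ∃ E : Finset ℕ, E = Finset.univ.biUnion fun a : Fin m =>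
        D (Fin.castLE hm a) := ⟨_, rfl⟩
      have hEc : E.card ≤ ((O j).C + 1) * (O j).ell := by
        rw [hEd, ← hm0]
        refine Finset.card_biUnion_le.trans ?_
        refine (Finset.sum_le_card_nsmul _ _ (O j).ell fun a _ => hcard _).trans ?_
        simp
      have hEs : ∑ k ∈ E, |v k| = ∑ a : Fin m, ∑ k ∈ D (Fin.castLE hm a), |v k| := by
        rw [hEd]
        apply Finset.sum_biUnion
        intro a _ b _ hab
        exact hdis _ _ (fun h => hab (Fin.castLE_injective hm h))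
      have hEge : (m : ℝ) * ((O j).ep * φ (O j).ell) ≤ ∑ k ∈ E, |v k| := by
        rw [hEs]
        calc (m : ℝ) * ((O j).ep * φ (O j).ell) = ∑ _a : Fin m, ((O j).ep * φ (O j).ell) := by
              simp
          _ ≤ _ := Finset.sum_le_sum fun a _ => hth _
      have hpos : 0 < (O j).ep * φ (O j).ell :=
        mul_pos (hs j).ep0 (by have := hφe j; linarith)
      have hmpos : (0 : ℝ) < m := by
        have : 0 < m := by omega
        exact_mod_cast this
      have hE1 : 1 ≤ E.card := by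
        by_contra hc0
        have h0 : E.card = 0 := by omega
        rw [Finset.card_eq_zero.1 h0, Finset.sum_empty] at hEge
        have := mul_pos hmpos hpos
        linarith
      have h1 := hupper j v hv E hE1 hEc (by
        intro k hkE
        rw [hEd] at hkE
        obtain ⟨a, _, ha⟩ := Finset.mem_biUnion.1 hkE
        exact hk _ k ha)
      have h2 := h.mono _ _ hE1 hEc
      have h3 := (hs j).Ch (O j).ell m (hs j).ell1 (by omega)
      rw [← hm0] at h2
      have h4 : (m : ℝ) * (O j).ep * φ (O j).ell = (m : ℝ) * ((O j).ep * φ (O j).ell) := by ring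
      linarith
    case off =>
      intro j
      rw [pA, pC, pal]
      exact (hs j).off
    case ph_le =>
      intro j v hv n hn1 hn2 D hD hk
      rw [pVS] at hv
      rw [pell] at hn2
      rw [pph]
      rcases Nat.eq_zero_or_pos D.card with h0 | h0
      · rw [Finset.card_eq_zero.1 h0, Finset.sum_empty]
        have := hφ1 n hn1
        linarith
      · refine (hupper j v hv D h0 ?_ hk).trans (h.mono _ _ h0 hD)
        nlinarith
    case psi_pos => intro j; rw [ppsi]; have := hφe j; linarith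
    case dl_nonneg =>
      intro j
      rw [pdl]
      have h1 := hmu j
      positivity
    case slope =>
      intro j n hn1 hn2
      rw [pell] at hn2
      rw [pA, pal, pth, pph, pdl, pr]
      have h1 := hmu j
      have h2 := hφe j
      have h3 := hE j
      have h4 : 0 < φ (O j).ell := by linarith
      have hl : (0 : ℝ) < (O j).ell := by exact_mod_cast (hs j).ell1
      have hn : (0 : ℝ) < n := by exact_mod_cast hn1
      have hX : 0 ≤ ((n : ℝ) / (O j).ell) ^ (1 / (2 * q)) := by positivity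
      have hX2 : (((n : ℝ) / (O j).ell) ^ (1 / (2 * q))) ^ 2 =
          ((n : ℝ) / (O j).ell) ^ (1 / q) := by
        rw [← Real.rpow_natCast, ← Real.rpow_mul (by positivity)]
        congr 1
        push_cast
        field_simp
      have hgr' := hgr n (O j).ell hn1 hn2
      rw [← hX2] at hgr'
      have hφn : 0 < φ n := by have := hφ1 n hn1; linarith
      have hs' := slope_aux hK2 (hs j).ep0 hX h4 hφn hgr'
      have hEX : ((O j).ell : ℝ) ^ (1 / (2 * q)) * ((n : ℝ) / (O j).ell) ^ (1 / (2 * q)) =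
          (n : ℝ) ^ (1 / (2 * q)) := by
        rw [← Real.mul_rpow hl.le (by positivity)]
        congr 1
        field_simp
      have hal : 0 ≤ (O j).al q φ Cr := by
        unfold Out.al
        positivity
      calc ((O j).A : ℝ) * (O j).al q φ Cr * min ((O j).ep * φ (O j).ell) (φ n)
          ≤ (O j).A * (O j).al q φ Cr * (K2 * Real.sqrt (O j).ep *
            ((n : ℝ) / (O j).ell) ^ (1 / (2 * q)) * φ (O j).ell) :=
            mul_le_mul_of_nonneg_left hs' (by positivity)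
        _ = (O j).A * K2 * Real.sqrt (O j).ep / (O j).mu Cr *
            (((O j).ell : ℝ) ^ (1 / (2 * q)) * ((n : ℝ) / (O j).ell) ^ (1 / (2 * q))) := by
            unfold Out.al
            field_simp
        _ = _ := by rw [hEX]
    case low =>
      intro j D hD hk
      rw [pell] at hD
      rw [pVS, ppsi]
      exact hKl _ (hs j).ell1 D hD fun k hk' => (hbase2 j).trans (hk k hk')
    case psi_big =>
      intro j
      rw [pth, pC, ppsi]
      have h1 := (hs j).ep2
      have h2 := (hs j).psi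
      have h3 := hφe j
      nlinarith
    case Lam_ge =>
      apply parity_ind
      · intro i
        rw [fLam0]
        exact hlam i
      · intro i
        rw [fLam1]
        have := hlam i
        omega
    case Lam_L =>
      intro κ κ' hκ
      exact (hLamL κ').trans (hLam_mono hκ)
    case Lreg =>
      intro i
      rw [pM0, fLam0, fe0, fL0, pr]
      push_cast
      exact (hs i).Lreg
    case kj =>
      intro j
      have e1 : 2 * j + 2 = 2 * (j + 1) := by ring
      rw [pk, e1, fe0]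
      exact (hs j).k'.trans (hs (j + 1)).e0
    case eta =>
      intro j
      rw [pbe, fLam1, pk, pdl, pell, pr, pBs]
      have h1 := hmu j
      have h3 := hE j
      have heta := (hs j).eta
      have hk1 := (hs j).k1
      have hep1 := (hs j).ep1
      push_cast
      unfold Out.be
      obtain ⟨E, hEd⟩ : ∃ E, E = ((O j).ell : ℝ) ^ (1 / (2 * q)) := ⟨_, rfl⟩
      obtain ⟨mu, hmud⟩ : ∃ mu, mu = (O j).mu Cr := ⟨_, rfl⟩
      obtain ⟨y, hyd⟩ : ∃ y, y = (8 * ((S j).lam + 1 + (O j).L0 : ℝ)) ^ (O j).k := ⟨_, rfl⟩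
      obtain ⟨T, hTd⟩ : ∃ T, T = ((j : ℝ) + 1) * ((S j).B + 1) := ⟨_, rfl⟩
      obtain ⟨X, hXd⟩ : ∃ X, X = Real.sqrt (O j).ep := ⟨_, rfl⟩
      rw [← hEd, ← hmud, ← hyd, ← hTd] at heta
      rw [← hmud, ← hTd] at hk1
      rw [← hXd, ← hTd] at hep1
      rw [← hEd, ← hmud, ← hyd, ← hTd, ← hXd]
      rw [← hEd] at h3
      rw [← hmud] at h1
      have hT : 0 < T := by rw [hTd]; positivity
      have hy : 0 ≤ y := by rw [hyd]; positivity
      rw [le_div_iff₀ hT]
      have t1 : mu / E * (99 * (2 + y)) * T ≤ 1 := by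
        have e1 : mu / E * (99 * (2 + y)) * T = 99 * mu * (2 + y) * T / E := by ring
        rw [e1, div_le_one h3]
        exact heta
      have t2 : 98 * mu * (1 / 2) ^ (O j).k * T ≤ 1 := by
        have e1 : 98 * mu * (1 / 2) ^ (O j).k * T = 98 * mu * T / 2 ^ (O j).k := by
          rw [one_div, inv_pow]
          ring
        rw [e1, div_le_one (by positivity)]
        exact hk1
      have t3 : mu / E * (98 * (1 + y) + 1) * T ≤ mu / E * (99 * (2 + y)) * T := by
        have h5 : 0 ≤ mu / E := by positivity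
        have h6 : 98 * (1 + y) + 1 ≤ 99 * (2 + y) := by linarith
        exact mul_le_mul_of_nonneg_right (mul_le_mul_of_nonneg_left h6 h5) hT.le
      have e : mu / E * (98 * (1 + y + ((1 / 2) ^ (O j).k + (O j).A * K2 * X / mu) * E) + 1) * T =
          mu / E * (98 * (1 + y) + 1) * T + 98 * mu * (1 / 2) ^ (O j).k * T +
          98 * (O j).A * K2 * X * T := by
        field_simp
        ring
      rw [e]
      linarith
    case W_ge => intro j; rw [pW]; exact le_max_left _ _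
    case W1 =>
      intro j
      refine le_trans ?_ (hWM j)
      rw [pW, pell]
      have h1 : 124 * (O j).ell ^ 2 ≤ max (j + 1) (max (124 * (O j).ell ^ 2)
          ⌈2 * (j + 1) * ((O j).be q Cr * (O j).ell)⌉₊) :=
        (le_max_left _ _).trans (le_max_right _ _)
      exact_mod_cast h1
    case W2 =>
      intro j
      refine le_trans ?_ (hWM j)
      rw [pbe, pell, pW]
      have h1 : ⌈2 * ((j : ℝ) + 1) * ((O j).be q Cr * (O j).ell)⌉₊ ≤ max (j + 1)
          (max (124 * (O j).ell ^ 2) ⌈2 * ((j : ℝ) + 1) * ((O j).be q Cr * (O j).ell)⌉₊) :=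
        (le_max_right _ _).trans (le_max_right _ _)
      exact (Nat.le_ceil _).trans (by exact_mod_cast h1)
    case A_next =>
      intro j i hji
      rw [pbe, pell, pA]
      have h1 := (hs j).b'3
      have h2 : (S (j + 1)).b ≤ (S i).b := b_mono hs hji
      have h3 := (hs i).A1
      have h2' : ((S (j + 1)).b : ℝ) ≤ (S i).b := by exact_mod_cast h2
      have h3' : (2 : ℝ) ^ i * (S i).b ≤ (O i).A := by exact_mod_cast h3
      have h4 : (0 : ℝ) < 2 ^ i := by positivity
      have h5 : 98 * ((O j).be q Cr * (O j).ell) * (j + 1) * 2 ^ i ≤ (S i).b * 2 ^ i :=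
        mul_le_mul_of_nonneg_right (h1.trans h2') h4.le
      linarith
    case A_high =>
      intro w i hwi
      rw [pnst, pA]
      rcases hwi.eq_or_lt with rfl | hlt
      · exact (hs w).A2
      · have h1 := (hs w).b'2
        have h2 : (S (w + 1)).b ≤ (S i).b := b_mono hs hlt
        have h3 := (hs i).A1
        have h4 : 2 ^ (i + 2) * ((O w).nst + 1) = 2 ^ i * (4 * ((O w).nst + 1)) := by ring
        rw [h4]
        exact (Nat.mul_le_mul_left _ (h1.trans h2)).trans h3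
  · intro w
    rw [fL0, pBs, pr, pnst]
    exact (hs w).nst

end Pool.Agent.HI61
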