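import Mathlib

/-!
# HI61/Perturb : after an isomorphism of `V` the vectors of finite type are dense in `X`

PROOF.  Let `Fn = {v | ∃ n, Pn n v = v}`; a linear subspace (if `Pn n v = v` and `m ≥ n` then `Pn m v = Pn m (Pn n v) = Pn n v = v`),
dense in `V` (`Pn n v → v` and `Pn n (Pn n v) = Pn n v`).  Let `d_n` be a dense sequence in `X` (if `X` is
trivial everything is clear), `e_n = ι d_n`.  If `e_n ∈ span {e_i | i < n}` put `f_n = 0`, `w_n = 0`.  Otherwise there is
`f_n ∈ V*` with `f_n e_i = 0` for `i < n` and `f_n e_n = 1` (the span is finite dimensional, hence closed: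
`Submodule.exists_dual_map_eq_bot...`/`geometric_hahn_banach`, or `LinearMap` on the finite dimensional space
`span {e_i | i ≤ n}` extended by `Real.exists_extension_norm_eq`), and recursively
`w_n = u_n - (e_n + ∑_{i<n} f_i e_n • w_i)` where `u_n ∈ Fn` is chosen (density) with
`‖w_n‖ ‖f_n‖ ≤ (1/2)^(n+2)`.
`B v = ∑_n f_n v • w_n` converges absolutely, `‖B‖ ≤ 1/2`, so `A = 1 + B` is invertible (Neumann series,
`Units.oneSub`, `ContinuousLinearEquiv.unitsEquiv`).
For an independent index `n`: `A e_n = e_n + ∑_{i<n} f_i e_n • w_i + w_n = u_n ∈ Fn` (`f_i e_n = 0` for `i > n`).  For a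
dependent index, `A e_n` is a combination of `A e_i`, `i < n`, so by induction all `A e_n ∈ Fn`.  The `d_n` are dense.
-/

namespace Pool.Agent.HI61

open Filter Topology

section PT

variable {V : Type} [NormedAddCommGroup V] [NormedSpace ℝ V]

private theorem exists_func_pt (S : Submodule ℝ V) [FiniteDimensional ℝ S] (v : V) (hv : v ∉ S) :
    ∃ f : StrongDual ℝ V, (∀ s ∈ S, f s = 0) ∧ f v = 1 := by
  obtain ⟨f, hf1, hf2⟩ := Submodule.exists_dual_map_eq_bot_of_notMem hv inferInstance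
  have hfS : ∀ s ∈ S, f s = 0 := by
    intro s hs
    have : f s ∈ Submodule.map f S := Submodule.mem_map_of_mem hs
    rw [hf2] at this
    exact (Submodule.mem_bot ℝ).1 this
  let q : Submodule ℝ V := S ⊔ Submodule.span ℝ {v}
  have : FiniteDimensional ℝ q := Submodule.finiteDimensional_sup _ _
  let f' : q →ₗ[ℝ] ℝ := f.comp q.subtype
  obtain ⟨g, hg, _⟩ := exists_extension_norm_eq q (LinearMap.toContinuousLinearMap f')
  have hvq : v ∈ q := Submodule.mem_sup_right (Submodule.mem_span_singleton_self v)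
  refine ⟨(f v)⁻¹ • g, fun s hs => ?_, ?_⟩
  · have h1 := hg ⟨s, Submodule.mem_sup_left hs⟩
    have h2 : (LinearMap.toContinuousLinearMap f') ⟨s, Submodule.mem_sup_left hs⟩ = f s := rfl
    rw [h2, hfS s hs] at h1
    change (f v)⁻¹ • g s = 0
    rw [show g s = 0 from h1, smul_zero]
  · have h1 := hg ⟨v, hvq⟩
    have h2 : (LinearMap.toContinuousLinearMap f') ⟨v, hvq⟩ = f v := rfl
    rw [h2] at h1
    change (f v)⁻¹ • g v = 1
    rw [show g v = f v from h1, smul_eq_mul, inv_mul_cancel₀ hf1]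

/-- the recursive corrections -/
private noncomputable def wseq_pt (e : ℕ → V) (f : ℕ → StrongDual ℝ V) (U : ℕ → V → V) : ℕ → V
  | n =>
    U n (e n + ∑ i : Fin n, f i.1 (e n) • wseq_pt e f U i.1) -
      (e n + ∑ i : Fin n, f i.1 (e n) • wseq_pt e f U i.1)
termination_by n => n
decreasing_by all_goals exact i.2

private theorem wseq_eq_pt (e : ℕ → V) (f : ℕ → StrongDual ℝ V) (U : ℕ → V → V) (n : ℕ) :
    e n + ∑ i ∈ Finset.range n, f i (e n) • wseq_pt e f U i + wseq_pt e f U n =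
      U n (e n + ∑ i ∈ Finset.range n, f i (e n) • wseq_pt e f U i) := by
  have h := wseq_pt.eq_1 e f U n
  have h2 : ∑ i : Fin n, f i.1 (e n) • wseq_pt e f U i.1 =
      ∑ i ∈ Finset.range n, f i (e n) • wseq_pt e f U i :=
    Fin.sum_univ_eq_sum_range (fun i => f i (e n) • wseq_pt e f U i) n
  rw [h2] at h
  conv_lhs => rw [h]
  abel

private theorem wseq_eq_pt' (e : ℕ → V) (f : ℕ → StrongDual ℝ V) (U : ℕ → V → V) (n : ℕ) :
    wseq_pt e f U n = U n (e n + ∑ i ∈ Finset.range n, f i (e n) • wseq_pt e f U i) -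
      (e n + ∑ i ∈ Finset.range n, f i (e n) • wseq_pt e f U i) := by
  have h := wseq_pt.eq_1 e f U n
  have h2 : ∑ i : Fin n, f i.1 (e n) • wseq_pt e f U i.1 =
      ∑ i ∈ Finset.range n, f i (e n) • wseq_pt e f U i :=
    Fin.sum_univ_eq_sum_range (fun i => f i (e n) • wseq_pt e f U i) n
  rw [h2] at h
  exact h

/-- vectors of finite type -/
private def Fn_pt (Pn : ℕ → V →L[ℝ] V) (h2 : ∀ n m v, Pn n (Pn m v) = Pn (min n m) v) :
    Submodule ℝ V where
  carrier := {v | ∃ n, Pn n v = v}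
  zero_mem' := ⟨0, map_zero _⟩
  add_mem' := by
    rintro a b ⟨n, hn⟩ ⟨m, hm⟩
    refine ⟨max n m, ?_⟩
    rw [map_add]
    congr 1
    · conv_lhs => rw [← hn]
      rw [h2, Nat.min_eq_right (le_max_left n m), hn]
    · conv_lhs => rw [← hm]
      rw [h2, Nat.min_eq_right (le_max_right n m), hm]
  smul_mem' := by
    rintro c a ⟨n, hn⟩
    exact ⟨n, by rw [map_smul, hn]⟩

private theorem dense_pt (Pn : ℕ → V →L[ℝ] V) (h2 : ∀ n m v, Pn n (Pn m v) = Pn (min n m) v)
    (h3 : ∀ v, Tendsto (fun n => Pn n v) atTop (𝓝 v)) (v : V) (ε : ℝ) (hε : 0 < ε) :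
    ∃ u ∈ Fn_pt Pn h2, ‖u - v‖ < ε := by
  have h := (Metric.tendsto_atTop.1 (h3 v)) ε hε
  obtain ⟨N, hN⟩ := h
  refine ⟨Pn N v, ⟨N, by rw [h2, min_self]⟩, ?_⟩
  have := hN N le_rfl
  rwa [dist_eq_norm] at this

end PT

theorem perturb {X : Type*} [NormedAddCommGroup X] [NormedSpace ℝ X]
    [TopologicalSpace.SeparableSpace X] {V : Type} [NormedAddCommGroup V] [NormedSpace ℝ V]
    [CompleteSpace V] (ι : X →ₗᵢ[ℝ] V) (Pn : ℕ → V →L[ℝ] V)
    (h2 : ∀ n m v, Pn n (Pn m v) = Pn (min n m) v)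
    (h3 : ∀ v, Tendsto (fun n => Pn n v) atTop (𝓝 v)) :
    ∃ A : V ≃L[ℝ] V, Dense {x : X | ∃ n, Pn n (A (ι x)) = A (ι x)} := by
  obtain ⟨d, hd⟩ := TopologicalSpace.exists_dense_seq X
  obtain ⟨e, he⟩ : ∃ e : ℕ → V, ∀ n, e n = ι (d n) := ⟨_, fun _ => rfl⟩
  have hf : ∀ n, ∃ f : StrongDual ℝ V, (∀ i, i < n → f (e i) = 0) ∧
      (e n ∉ Submodule.span ℝ (e '' Set.Iio n) → f (e n) = 1) ∧
      (e n ∈ Submodule.span ℝ (e '' Set.Iio n) → f = 0) := by
    intro n
    by_cases h : e n ∈ Submodule.span ℝ (e '' Set.Iio n)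
    · exact ⟨0, fun _ _ => rfl, fun h' => absurd h h', fun _ => rfl⟩
    · haveI : FiniteDimensional ℝ (Submodule.span ℝ (e '' Set.Iio n)) :=
        FiniteDimensional.span_of_finite ℝ ((Set.finite_Iio n).image _)
      obtain ⟨f, hf1, hf2⟩ := exists_func_pt (Submodule.span ℝ (e '' Set.Iio n)) (e n) h
      exact ⟨f, fun i hi => hf1 _ (Submodule.subset_span ⟨i, hi, rfl⟩), fun _ => hf2,
        fun h' => absurd h' h⟩
  choose f hf1 hf2 hf3 using hf
  have hU : ∀ (n : ℕ) (t : V), ∃ u ∈ Fn_pt Pn h2, ‖u - t‖ * ‖f n‖ ≤ (1 / 2 : ℝ) ^ (n + 2) := by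
    intro n t
    have hpos : 0 < (1 / 2 : ℝ) ^ (n + 2) / (‖f n‖ + 1) := by positivity
    obtain ⟨u, hu, hu2⟩ := dense_pt Pn h2 h3 t _ hpos
    refine ⟨u, hu, ?_⟩
    have h4 : 0 < ‖f n‖ + 1 := by positivity
    rw [lt_div_iff₀ h4] at hu2
    have h5 := norm_nonneg (u - t)
    nlinarith
  choose U hU1 hU2 using hU
  obtain ⟨w, hw1, hw2⟩ : ∃ w : ℕ → V,
      (∀ n, e n + ∑ i ∈ Finset.range n, f i (e n) • w i + w n ∈ Fn_pt Pn h2) ∧
      (∀ n, ‖w n‖ * ‖f n‖ ≤ (1 / 2 : ℝ) ^ (n + 2)) := by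
    refine ⟨wseq_pt e f U, fun n => ?_, fun n => ?_⟩
    · rw [wseq_eq_pt]
      exact hU1 _ _
    · rw [wseq_eq_pt']
      exact hU2 _ _
  have hnorm : ∀ n, ‖(f n).smulRight (w n)‖ ≤ (1 / 2 : ℝ) ^ (n + 2) := by
    intro n
    rw [ContinuousLinearMap.norm_smulRight_apply, mul_comm]
    exact hw2 n
  have hgeo : HasSum (fun n : ℕ => (1 / 2 : ℝ) ^ (n + 2)) (1 / 2) := by
    have h := (hasSum_geometric_of_lt_one (r := (1 / 2 : ℝ)) (by norm_num) (by norm_num)).mul_left
      (1 / 4 : ℝ)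
    have e1 : (fun n : ℕ => (1 / 4 : ℝ) * (1 / 2 : ℝ) ^ n) = fun n => (1 / 2 : ℝ) ^ (n + 2) := by
      funext n
      rw [pow_add]
      ring
    rw [e1] at h
    have e2 : (1 / 4 : ℝ) * (1 - 1 / 2)⁻¹ = 1 / 2 := by norm_num
    rw [e2] at h
    exact h
  have hsum : Summable fun n => (f n).smulRight (w n) :=
    Summable.of_norm_bounded hgeo.summable hnorm
  obtain ⟨B, hB⟩ : ∃ B : V →L[ℝ] V, B = ∑' n, (f n).smulRight (w n) := ⟨_, rfl⟩
  have hBn : ‖B‖ ≤ 1 / 2 := by
    rw [hB]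
    exact tsum_of_norm_bounded hgeo hnorm
  have hBv : ∀ v, B v = ∑' n, f n v • w n := by
    intro v
    rw [hB]
    exact (ContinuousLinearMap.apply ℝ V v).map_tsum hsum
  have hlt : ‖-B‖ < 1 := by
    rw [norm_neg]
    linarith
  obtain ⟨A, hA⟩ : ∃ A : V ≃L[ℝ] V, ∀ v, A v = v + B v := by
    refine ⟨ContinuousLinearEquiv.unitsEquiv ℝ V (Units.oneSub (-B) hlt), fun v => ?_⟩
    rw [ContinuousLinearEquiv.unitsEquiv_apply, Units.val_oneSub]
    simp
  refine ⟨A, ?_⟩
  have hAe : ∀ n, A (e n) ∈ Fn_pt Pn h2 := by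
    intro n
    induction n using Nat.strong_induction_on with
    | _ n ih =>
      by_cases h : e n ∈ Submodule.span ℝ (e '' Set.Iio n)
      · have key : ∀ y ∈ Submodule.span ℝ (e '' Set.Iio n), A y ∈ Fn_pt Pn h2 := by
          intro y hy
          induction hy using Submodule.span_induction with
          | mem y hy =>
            obtain ⟨i, hi, rfl⟩ := hy
            exact ih i hi
          | zero => rw [map_zero]; exact Submodule.zero_mem _
          | add y z _ _ hy hz => rw [map_add]; exact Submodule.add_mem _ hy hz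
          | smul c y _ hy => rw [map_smul]; exact Submodule.smul_mem _ _ hy
        exact key _ h
      · have hz : ∀ i, i ∉ Finset.range (n + 1) → f i (e n) • w i = 0 := by
          intro i hi
          rw [Finset.mem_range, not_lt] at hi
          rw [hf1 i n (by omega), zero_smul]
        rw [hA, hBv, tsum_eq_sum (s := Finset.range (n + 1)) hz, Finset.sum_range_succ,
          hf2 n h, one_smul, ← add_assoc]
        exact hw1 n
  refine hd.mono ?_
  rintro x ⟨n, rfl⟩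
  have h := hAe n
  rw [he] at h
  exact h

end Pool.Agent.HI61
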