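import Pool.Agent.HI61.ParDefs
import Pool.Agent.HI61.WDefs3

/-!
# HI61/SeqOf : the sequence data of the vectors `b_k`

Hypotheses: `x` = the extracted sequence of `exists_spread` (already composed with `m`), `Φ`; all `x k ∈ Y`;
`b k` is `(1/2)^(k+4)`-close to `x (m' k)`, `m'` strictly increasing.  `φ n = 4 Φ n`.
PROOF.  For `A` far out, `|‖∑ θ b‖ - ‖∑ θ x∘m'‖| ≤ ∑_{k ∈ A} (1/2)^(k+4) ≤ 1/8`, and `‖∑_{k∈A} θ_k x (m' k)‖` is a signed sum over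
the set `m' '' A`, of the same cardinality, with `m' k ≥ k` (signs `θ` composed with the inverse of `m'`).  `Φ n ≥ Φ 1 = 1/2`.
`one`: `φ 1 = 2`.  `mono` clear.  `le1`: `|f (b k)| ≤ 1`.  `ne`: `f = 0`.  `neg`: `-f`.
`upper`: choose signs `θ_k` with `∑ |f (b k)| = f (∑ θ_k b_k) ≤ ‖∑ θ_k b_k‖ ≤ 2 Φ + δ + 1/8 ≤ 4 Φ` for `δ = 1/4`.
`lower`: `‖∑_D b_k‖ ≥ Φ N - δ - 1/8 ≥ Φ N / 4` for `δ = 1/8` (`Φ N ≥ 1/2`), take a norming functional `f` of `∑_D b_k`.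
`growth`: let `a, l ≥ 1`; take `a` disjoint sets `A_i` of cardinality `l` far out, `y_i = ∑_{A_i} x_k`, `‖y_i‖ ≥ Φ l - δ`.  By `SignCotype`
(scaled) there are signs with `c a^{1/q} (Φ l - δ) ≤ ‖∑ θ_i y_i‖ ≤ 2 Φ (a l) + δ`; let `δ → 0`: `Φ (a l) ≥ (c/2) a^{1/q} Φ l`.  For
`k ≤ n` let `a = n / k` (integer part), `a ≥ n / (2 k)`: `Φ n ≥ Φ (a k) ≥ (c/2) (n / (2k))^{1/q} Φ k`, so
`Φ k ≤ (2/c) 2^{1/q} (k/n)^{1/q} Φ n`; `K2 = max 1 ((2/c) 2^{1/q})`.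
`heavy`: the same with `SignType` for `Y` (`y_i ∈ Y`, `‖y_i‖ ≤ Φ l + δ`): `(1/2) Φ (a l) - δ ≤ ‖∑ θ_i y_i‖ ≤ C a^{1/p} (Φ l + δ)`, so
`Φ (a l) ≤ 2 C a^{1/p} Φ l` (`C ≥ 0` may be assumed: replace `C` by `max C 0`); and `2 C m^{1/p} < m ε` for large `m` as `p > 1`.
-/

namespace Pool.Agent.HI61

open Finset Filter Topology

/-- the spreading estimate for injective families -/
private theorem fam {X : Type*} [NormedAddCommGroup X] [NormedSpace ℝ X] {x : ℕ → X} {Φ : ℕ → ℝ}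
    {N : ℕ} {δ : ℝ} {K : ℕ}
    (h : ∀ A : Finset ℕ, 1 ≤ A.card → A.card ≤ N → (∀ k ∈ A, K ≤ k) →
        |‖∑ k ∈ A, x k‖ - Φ A.card| ≤ δ ∧
        ∀ θ : ℕ → ℝ, (∀ k, |θ k| = 1) →
          1 / 2 * Φ A.card - δ ≤ ‖∑ k ∈ A, θ k • x k‖ ∧
          ‖∑ k ∈ A, θ k • x k‖ ≤ 2 * Φ A.card + δ)
    {ι : Type*} [Fintype ι] (e : ι → ℕ) (he : Function.Injective e) (hK : ∀ i, K ≤ e i)
    (h1 : 1 ≤ Fintype.card ι) (hN : Fintype.card ι ≤ N) :
    |‖∑ i, x (e i)‖ - Φ (Fintype.card ι)| ≤ δ ∧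
      ∀ θ : ι → ℝ, (∀ i, |θ i| = 1) →
        1 / 2 * Φ (Fintype.card ι) - δ ≤ ‖∑ i, θ i • x (e i)‖ ∧
        ‖∑ i, θ i • x (e i)‖ ≤ 2 * Φ (Fintype.card ι) + δ := by
  classical
  have hc : (univ.map ⟨e, he⟩ : Finset ℕ).card = Fintype.card ι := by
    rw [card_map, card_univ]
  obtain ⟨h2, h3⟩ := h (univ.map ⟨e, he⟩) (by rw [hc]; exact h1) (by rw [hc]; exact hN) (by
    intro k hk
    obtain ⟨i, -, rfl⟩ := mem_map.1 hk
    exact hK i)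
  rw [hc] at h2 h3
  rw [sum_map] at h2
  refine ⟨h2, fun θ hθ => ?_⟩
  have h4 := h3 (Function.extend e θ (fun _ => 1)) (by
    intro k
    by_cases hk : ∃ i, e i = k
    · obtain ⟨i, rfl⟩ := hk
      rw [he.extend_apply]
      exact hθ i
    · rw [Function.extend_apply' _ _ _ hk]
      exact abs_one)
  rw [sum_map] at h4
  simp only [Function.Embedding.coeFn_mk, he.extend_apply] at h4
  exact h4

private theorem sum_geo (D : Finset ℕ) : ∑ k ∈ D, ((1 : ℝ) / 2) ^ (k + 4) ≤ 1 / 8 := by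
  have h1 : Summable (fun k : ℕ => ((1 : ℝ) / 2) ^ (k + 4)) := by
    simp_rw [pow_add]
    exact summable_geometric_two.mul_right _
  have h2 : ∑' k : ℕ, ((1 : ℝ) / 2) ^ (k + 4) = 1 / 8 := by
    simp_rw [pow_add]
    rw [tsum_mul_right, tsum_geometric_two]
    norm_num
  rw [← h2]
  exact h1.sum_le_tsum D (fun k _ => by positivity)

section

variable {X : Type*} [NormedAddCommGroup X] [NormedSpace ℝ X] {Y : Submodule ℝ X}
    {x : ℕ → X} {Φ : ℕ → ℝ}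

/-- the hypothesis about the spreading sequence -/
private def Sp (x : ℕ → X) (Φ : ℕ → ℝ) : Prop :=
  ∀ (N : ℕ) (δ : ℝ), 0 < δ → ∃ K, ∀ A : Finset ℕ, 1 ≤ A.card → A.card ≤ N →
        (∀ k ∈ A, K ≤ k) →
        |‖∑ k ∈ A, x k‖ - Φ A.card| ≤ δ ∧
        ∀ θ : ℕ → ℝ, (∀ k, |θ k| = 1) →
          1 / 2 * Φ A.card - δ ≤ ‖∑ k ∈ A, θ k • x k‖ ∧
          ‖∑ k ∈ A, θ k • x k‖ ≤ 2 * Φ A.card + δ

/-- the blocks of a far interval -/
private def ee (K l : ℕ) {a : ℕ} (p : Fin a × Fin l) : ℕ := K + p.1 * l + p.2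

private theorem ee_inj (K l a : ℕ) : Function.Injective (ee K l (a := a)) := by
  rintro ⟨i, j⟩ ⟨i', j'⟩ h
  unfold ee at h
  dsimp only at h
  have h1 : (i : ℕ) * l + j = i' * l + j' := by omega
  have hj := j.2
  have hj' := j'.2
  have h2 : (i : ℕ) = i' := by
    have e1 : ((i : ℕ) * l + j) / l = i := by
      rw [add_comm, Nat.add_mul_div_right _ _ (by omega), Nat.div_eq_of_lt hj, zero_add]
    have e2 : ((i' : ℕ) * l + j') / l = i' := by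
      rw [add_comm, Nat.add_mul_div_right _ _ (by omega), Nat.div_eq_of_lt hj', zero_add]
    rw [← e1, ← e2, h1]
  have h3 : (j : ℕ) = j' := by
    rw [h2] at h1
    omega
  exact Prod.ext (Fin.ext h2) (Fin.ext h3)

private theorem ee_inj' (K l a : ℕ) (i : Fin a) : Function.Injective (fun j : Fin l => ee K l (i, j)) :=
  fun j j' h => by
    have := ee_inj K l a h
    exact (Prod.mk.inj this).2

/-- sums over blocks -/
private theorem blocks (hsp : Sp x Φ) {a l : ℕ} (ha : 1 ≤ a) (hl : 1 ≤ l) {δ : ℝ} (hδ : 0 < δ) :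
    ∃ y : Fin a → X, (∀ i, ∃ e : Fin l → ℕ, y i = ∑ j, x (e j)) ∧ (∀ i, |‖y i‖ - Φ l| ≤ δ) ∧
      ∀ θ : Fin a → ℝ, (∀ i, |θ i| = 1) →
        1 / 2 * Φ (a * l) - δ ≤ ‖∑ i, θ i • y i‖ ∧ ‖∑ i, θ i • y i‖ ≤ 2 * Φ (a * l) + δ := by
  obtain ⟨K, hK⟩ := hsp (a * l) δ hδ
  have hal : 1 ≤ a * l := Nat.mul_pos ha hl
  refine ⟨fun i => ∑ j : Fin l, x (ee K l (i, j)), fun i => ⟨_, rfl⟩, fun i => ?_, fun θ hθ => ?_⟩
  · have h1 := (fam hK (fun j : Fin l => ee K l (i, j)) (ee_inj' K l a i)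
      (fun j => by unfold ee; omega) (by rw [Fintype.card_fin]; exact hl)
      (by rw [Fintype.card_fin]; exact Nat.le_mul_of_pos_left l ha)).1
    rw [Fintype.card_fin] at h1
    exact h1
  · have h1 := (fam hK (ee K l (a := a)) (ee_inj K l a)
      (fun j => by unfold ee; omega) (by simpa using hal)
      (by simp)).2 (fun p => θ p.1) (fun p => hθ p.1)
    rw [Fintype.card_prod, Fintype.card_fin, Fintype.card_fin, Fintype.sum_prod_type] at h1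
    have h2 : ∑ i, θ i • ∑ j : Fin l, x (ee K l (i, j)) =
        ∑ i, ∑ j : Fin l, θ i • x (ee K l (i, j)) := by
      refine sum_congr rfl fun i _ => ?_
      rw [smul_sum]
    rw [h2]
    exact h1

private theorem cot (hsp : Sp x Φ) (hΦ : ∀ n, 1 ≤ n → 1 / 2 ≤ Φ n) {q c : ℝ} (hc : 0 < c)
    (hcot : SignCotype X q c) {a l : ℕ} (ha : 1 ≤ a) (hl : 1 ≤ l) :
    c * (a : ℝ) ^ (1 / q) * Φ l ≤ 2 * Φ (a * l) := by
  have hB : 0 ≤ c * (a : ℝ) ^ (1 / q) := by positivity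
  have key : ∀ δ : ℝ, 0 < δ → δ < 1 / 2 → c * (a : ℝ) ^ (1 / q) * (Φ l - δ) ≤ 2 * Φ (a * l) + δ := by
    intro δ hδ hδ'
    obtain ⟨y, -, hy, hθ⟩ := blocks hsp ha hl hδ
    have hρ : 0 < Φ l - δ := by linarith [hΦ l hl]
    obtain ⟨θ, h1, h2⟩ := hcot a (fun i => (Φ l - δ)⁻¹ • y i) (fun i => by
      rw [norm_smul, Real.norm_eq_abs, abs_of_pos (inv_pos.2 hρ), ← div_eq_inv_mul,
        one_le_div hρ]
      linarith [(abs_le.1 (hy i)).1])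
    have h3 : ∑ i, θ i • (Φ l - δ)⁻¹ • y i = (Φ l - δ)⁻¹ • ∑ i, θ i • y i := by
      rw [smul_sum]
      exact sum_congr rfl fun i _ => smul_comm _ _ _
    rw [h3, norm_smul, Real.norm_eq_abs, abs_of_pos (inv_pos.2 hρ), ← div_eq_inv_mul,
      le_div_iff₀ hρ] at h2
    exact h2.trans (hθ θ h1).2
  have h1 : ∀ ε : ℝ, 0 < ε → c * (a : ℝ) ^ (1 / q) * Φ l ≤ 2 * Φ (a * l) + ε := by
    intro ε hε
    obtain ⟨B, hBe⟩ : ∃ B : ℝ, B = c * (a : ℝ) ^ (1 / q) := ⟨_, rfl⟩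
    rw [← hBe] at hB key ⊢
    have hδ : 0 < min (1 / 4) (ε / (B + 1)) := by positivity
    have h2 := key _ hδ (lt_of_le_of_lt (min_le_left _ _) (by norm_num))
    have h3 : (B + 1) * min (1 / 4) (ε / (B + 1)) ≤ ε := by
      calc (B + 1) * min (1 / 4) (ε / (B + 1)) ≤ (B + 1) * (ε / (B + 1)) :=
            mul_le_mul_of_nonneg_left (min_le_right _ _) (by linarith)
        _ = ε := by
          field_simp
    have h4 : B * (Φ l - min (1 / 4) (ε / (B + 1))) =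
        B * Φ l - B * min (1 / 4) (ε / (B + 1)) := by ring
    have h5 : (B + 1) * min (1 / 4) (ε / (B + 1)) =
        B * min (1 / 4) (ε / (B + 1)) + min (1 / 4) (ε / (B + 1)) := by ring
    linarith
  exact le_of_forall_pos_le_add h1

private theorem typ (hsp : Sp x Φ) (hΦ : ∀ n, 1 ≤ n → 1 / 2 ≤ Φ n) (hxY : ∀ k, x k ∈ Y) {p C : ℝ}
    (hC : 0 ≤ C) (htyp : SignType Y p C) {a l : ℕ} (ha : 1 ≤ a) (hl : 1 ≤ l) :
    Φ (a * l) ≤ 2 * C * (a : ℝ) ^ (1 / p) * Φ l := by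
  have hB : 0 ≤ C * (a : ℝ) ^ (1 / p) := by positivity
  have key : ∀ δ : ℝ, 0 < δ → 1 / 2 * Φ (a * l) - δ ≤ C * (a : ℝ) ^ (1 / p) * (Φ l + δ) := by
    intro δ hδ
    obtain ⟨y, hye, hy, hθ⟩ := blocks hsp ha hl hδ
    have hρ : 0 < Φ l + δ := by linarith [hΦ l hl]
    have hyY : ∀ i, y i ∈ Y := fun i => by
      obtain ⟨e, he⟩ := hye i
      rw [he]
      exact Submodule.sum_mem _ fun j _ => hxY _
    obtain ⟨θ, h1, h2⟩ := htyp a (fun i => (Φ l + δ)⁻¹ • (⟨y i, hyY i⟩ : Y)) (fun i => by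
      rw [norm_smul, Real.norm_eq_abs, abs_of_pos (inv_pos.2 hρ), ← div_eq_inv_mul,
        div_le_one hρ, Submodule.coe_norm]
      linarith [(abs_le.1 (hy i)).2])
    have h3 : ∑ i, θ i • (Φ l + δ)⁻¹ • (⟨y i, hyY i⟩ : Y) =
        (Φ l + δ)⁻¹ • ∑ i, θ i • (⟨y i, hyY i⟩ : Y) := by
      rw [smul_sum]
      exact sum_congr rfl fun i _ => smul_comm _ _ _
    have h4 : ‖∑ i, θ i • (⟨y i, hyY i⟩ : Y)‖ = ‖∑ i, θ i • y i‖ := by
      rw [Submodule.coe_norm, Submodule.coe_sum]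
      rfl
    rw [h3, norm_smul, Real.norm_eq_abs, abs_of_pos (inv_pos.2 hρ), ← div_eq_inv_mul,
      div_le_iff₀ hρ, h4] at h2
    exact (hθ θ h1).1.trans h2
  have h1 : ∀ ε : ℝ, 0 < ε → 1 / 2 * Φ (a * l) ≤ C * (a : ℝ) ^ (1 / p) * Φ l + ε := by
    intro ε hε
    obtain ⟨B, hBe⟩ : ∃ B : ℝ, B = C * (a : ℝ) ^ (1 / p) := ⟨_, rfl⟩
    rw [← hBe] at hB key ⊢
    have h2 := key (ε / (B + 1)) (by positivity)
    have h3 : (B + 1) * (ε / (B + 1)) = ε := by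
      field_simp
    have h4 : B * (Φ l + ε / (B + 1)) = B * Φ l + B * (ε / (B + 1)) := by ring
    have h5 : (B + 1) * (ε / (B + 1)) = B * (ε / (B + 1)) + ε / (B + 1) := by ring
    linarith
  have h2 := le_of_forall_pos_le_add h1
  linarith

end

theorem seqData_of {X : Type*} [NormedAddCommGroup X] [NormedSpace ℝ X] (Y : Submodule ℝ X)
    (x : ℕ → X) (hxY : ∀ k, x k ∈ Y) (Φ : ℕ → ℝ) (hΦ1 : Φ 1 = 1 / 2)
    (hmono : ∀ k n, 1 ≤ k → k ≤ n → Φ k ≤ Φ n)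
    (hsp : ∀ (N : ℕ) (δ : ℝ), 0 < δ → ∃ K, ∀ A : Finset ℕ, 1 ≤ A.card → A.card ≤ N →
        (∀ k ∈ A, K ≤ k) →
        |‖∑ k ∈ A, x k‖ - Φ A.card| ≤ δ ∧
        ∀ θ : ℕ → ℝ, (∀ k, |θ k| = 1) →
          1 / 2 * Φ A.card - δ ≤ ‖∑ k ∈ A, θ k • x k‖ ∧
          ‖∑ k ∈ A, θ k • x k‖ ≤ 2 * Φ A.card + δ)
    (m' : ℕ → ℕ) (hm' : StrictMono m') (b : ℕ → X) (hb1 : ∀ k, ‖b k‖ ≤ 1)
    (hb : ∀ k, ‖b k - x (m' k)‖ ≤ (1 / 2) ^ (k + 4)) (q c p C : ℝ) (hq : 1 ≤ q) (hc : 0 < c)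
    (hcot : SignCotype X q c) (hp : 1 < p) (htyp : SignType Y p C) :
    SeqData q (fun n => 4 * Φ n) {s | ∃ f : X →L[ℝ] ℝ, ‖f‖ ≤ 1 ∧ s = fun k => f (b k)} := by
  classical
  have hΦ : ∀ n, 1 ≤ n → 1 / 2 ≤ Φ n := fun n hn => hΦ1 ▸ hmono 1 n le_rfl hn
  have hS : Sp x Φ := hsp
  -- the sequence `b`
  have hbs : ∀ (D : Finset ℕ) (θ : ℕ → ℝ), (∀ k, |θ k| = 1) →
      |‖∑ k ∈ D, θ k • b k‖ - ‖∑ k ∈ D, θ k • x (m' k)‖| ≤ 1 / 8 := by
    intro D θ hθ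
    refine (abs_norm_sub_norm_le _ _).trans ?_
    rw [← sum_sub_distrib]
    refine (norm_sum_le _ _).trans (le_trans ?_ (sum_geo D))
    refine sum_le_sum fun k _ => ?_
    rw [← smul_sub, norm_smul, Real.norm_eq_abs, hθ k, one_mul]
    exact hb k
  have hfar : ∀ (N : ℕ) (δ : ℝ), 0 < δ → ∃ K, ∀ D : Finset ℕ, 1 ≤ D.card → D.card ≤ N →
      (∀ k ∈ D, K ≤ k) → Φ D.card - δ - 1 / 8 ≤ ‖∑ k ∈ D, b k‖ ∧
        ∀ θ : ℕ → ℝ, (∀ k, |θ k| = 1) → ‖∑ k ∈ D, θ k • b k‖ ≤ 2 * Φ D.card + δ + 1 / 8 := by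
    intro N δ hδ
    obtain ⟨K, hK⟩ := hsp N δ hδ
    refine ⟨K, fun D h1 hN hD => ?_⟩
    have h2 := fam hK (fun k : D => m' k) (fun k k' h => Subtype.ext (hm'.injective h))
      (fun k => (hD k k.2).trans (hm'.le_apply)) (by rw [Fintype.card_coe]; exact h1)
      (by rw [Fintype.card_coe]; exact hN)
    rw [Fintype.card_coe] at h2
    constructor
    · have h3 := hbs D (fun _ => 1) (fun _ => abs_one)
      simp only [one_smul] at h3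
      have h4 := h2.1
      rw [sum_coe_sort D (fun k => x (m' k))] at h4
      linarith [(abs_le.1 h3).1, (abs_le.1 h4).1]
    · intro θ hθ
      have h3 := hbs D θ hθ
      have h4 := (h2.2 (fun k => θ k) (fun k => hθ k)).2
      rw [sum_coe_sort D (fun k => θ k • x (m' k))] at h4
      linarith [(abs_le.1 h3).2]
  refine ⟨hq, ⟨fun k => 0, 0, by simp, by simp⟩, ?_, ?_, ?_, ?_, ?_, ?_, ?_, ?_⟩
  · rintro v ⟨f, hf, rfl⟩
    exact ⟨-f, by rw [norm_neg]; exact hf, rfl⟩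
  · rintro v ⟨f, hf, rfl⟩ k
    calc |f (b k)| = ‖f (b k)‖ := (Real.norm_eq_abs _).symm
      _ ≤ ‖f‖ * ‖b k‖ := f.le_opNorm _
      _ ≤ 1 * 1 := mul_le_mul hf (hb1 k) (norm_nonneg _) zero_le_one
      _ = 1 := one_mul 1
  · show 1 ≤ 4 * Φ 1
    rw [hΦ1]
    norm_num
  · intro k n hk hn
    have := hmono k n hk hn
    show 4 * Φ k ≤ 4 * Φ n
    linarith
  · -- growth
    refine ⟨max 1 (2 / c * 2 ^ (1 / q)), le_max_left _ _, fun k n hk hn => ?_⟩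
    show 4 * Φ k ≤ max 1 (2 / c * 2 ^ (1 / q)) * ((k : ℝ) / n) ^ (1 / q) * (4 * Φ n)
    have hk0 : (0 : ℝ) < k := by exact_mod_cast hk
    have hn0 : (0 : ℝ) < n := by exact_mod_cast hk.trans hn
    have ha : 1 ≤ n / k := (Nat.one_le_div_iff hk).2 hn
    have h1 := cot hS hΦ hc hcot ha hk
    have h2 : Φ (n / k * k) ≤ Φ n :=
      hmono _ _ (Nat.mul_pos ha hk) (Nat.div_mul_le_self n k)
    have h3 : (n : ℝ) / (2 * k) ≤ ((n / k : ℕ) : ℝ) := by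
      rw [div_le_iff₀ (by positivity)]
      have h4 : n < (n / k + 1) * k := by
        rw [mul_comm]
        exact Nat.lt_mul_div_succ n hk
      have h5 : n ≤ (n / k) * (2 * k) := by
        have h6 : (n / k + 1) * k ≤ (2 * (n / k)) * k := Nat.mul_le_mul_right k (by omega)
        calc n ≤ (2 * (n / k)) * k := h4.le.trans h6
          _ = (n / k) * (2 * k) := by ring
      exact_mod_cast h5
    have hΦk := hΦ k hk
    have hΦn := hΦ n (hk.trans hn)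
    have h4 : c * ((n : ℝ) / (2 * k)) ^ (1 / q) * Φ k ≤ 2 * Φ n := by
      refine le_trans ?_ (h1.trans (by linarith))
      gcongr
    have h5 : ((n : ℝ) / (2 * k)) ^ (1 / q) * (2 ^ (1 / q) * ((k : ℝ) / n) ^ (1 / q)) = 1 := by
      rw [← Real.mul_rpow (by positivity) (by positivity), ← Real.mul_rpow (by positivity) (by positivity)]
      have : (n : ℝ) / (2 * k) * (2 * ((k : ℝ) / n)) = 1 := by
        field_simp
      rw [this, Real.one_rpow]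
    have h6 : Φ k ≤ 2 / c * 2 ^ (1 / q) * ((k : ℝ) / n) ^ (1 / q) * Φ n := by
      have h7 : 0 < 2 ^ (1 / q) * ((k : ℝ) / n) ^ (1 / q) := by positivity
      calc Φ k = (((n : ℝ) / (2 * k)) ^ (1 / q) * (2 ^ (1 / q) * ((k : ℝ) / n) ^ (1 / q))) * Φ k := by
            rw [h5, one_mul]
        _ = (c * ((n : ℝ) / (2 * k)) ^ (1 / q) * Φ k) * (2 ^ (1 / q) * ((k : ℝ) / n) ^ (1 / q)) / c := by
          field_simp
        _ ≤ (2 * Φ n) * (2 ^ (1 / q) * ((k : ℝ) / n) ^ (1 / q)) / c := by gcongr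
        _ = 2 / c * 2 ^ (1 / q) * ((k : ℝ) / n) ^ (1 / q) * Φ n := by ring
    have h8 : 2 / c * 2 ^ (1 / q) * ((k : ℝ) / n) ^ (1 / q) * Φ n ≤
        max 1 (2 / c * 2 ^ (1 / q)) * ((k : ℝ) / n) ^ (1 / q) * Φ n := by
      gcongr
      exact le_max_right _ _
    linarith
  · -- upper
    intro N
    obtain ⟨K, hK⟩ := hfar N (1 / 4) (by norm_num)
    refine ⟨K, ?_⟩
    rintro v ⟨f, hf, rfl⟩ D h1 hN hD
    show ∑ k ∈ D, |f (b k)| ≤ 4 * Φ D.card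
    have h2 := (hK D h1 hN hD).2 (fun k => if 0 ≤ f (b k) then 1 else -1) (fun k => by
      split_ifs <;> simp)
    have h3 : ∑ k ∈ D, |f (b k)| = f (∑ k ∈ D, (if 0 ≤ f (b k) then (1 : ℝ) else -1) • b k) := by
      rw [map_sum]
      refine sum_congr rfl fun k _ => ?_
      rw [map_smul, smul_eq_mul]
      split_ifs with h
      · rw [abs_of_nonneg h, one_mul]
      · rw [abs_of_neg (not_le.1 h), neg_one_mul]
    have h4 := hΦ D.card h1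
    rw [h3]
    calc f (∑ k ∈ D, (if 0 ≤ f (b k) then (1 : ℝ) else -1) • b k)
        ≤ ‖f (∑ k ∈ D, (if 0 ≤ f (b k) then (1 : ℝ) else -1) • b k)‖ := Real.le_norm_self _
      _ ≤ ‖f‖ * ‖∑ k ∈ D, (if 0 ≤ f (b k) then (1 : ℝ) else -1) • b k‖ := f.le_opNorm _
      _ ≤ 1 * ‖∑ k ∈ D, (if 0 ≤ f (b k) then (1 : ℝ) else -1) • b k‖ :=
        mul_le_mul_of_nonneg_right hf (norm_nonneg _)
      _ ≤ 4 * Φ D.card := by
        rw [one_mul]
        linarith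
  · -- lower
    intro N hN
    obtain ⟨K, hK⟩ := hfar N (1 / 8) (by norm_num)
    refine ⟨K, fun D hDN hD => ?_⟩
    have h1 := (hK D (by omega) (by omega) hD).1
    obtain ⟨g, hg, hg'⟩ := exists_dual_vector'' ℝ (∑ k ∈ D, b k)
    refine ⟨fun k => g (b k), ⟨g, hg, rfl⟩, ?_⟩
    have h2 : ∑ k ∈ D, g (b k) = ‖∑ k ∈ D, b k‖ := by
      rw [← map_sum, hg']
      simp
    show 4 * Φ N ≤ 16 * ∑ k ∈ D, g (b k)
    rw [h2]
    have h3 := hΦ N hN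
    rw [hDN] at h1
    linarith
  · -- heavy
    intro ε hε
    have hC0 : 0 ≤ max C 0 := le_max_right _ _
    have htyp' : SignType Y p (max C 0) := by
      intro n y hy
      obtain ⟨θ, h1, h2⟩ := htyp n y hy
      exact ⟨θ, h1, h2.trans (by gcongr; exact le_max_left _ _)⟩
    have hp0 : 0 < 1 - 1 / p := by
      rw [sub_pos, div_lt_one (by linarith)]
      exact hp
    have hT : Tendsto (fun m : ℕ => ε * (m : ℝ) ^ (1 - 1 / p)) atTop atTop :=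
      ((tendsto_rpow_atTop hp0).comp tendsto_natCast_atTop_atTop).const_mul_atTop hε
    obtain ⟨C₀, hC₀⟩ := (hT.eventually_gt_atTop (2 * max C 0)).exists_forall_of_atTop
    refine ⟨max C₀ 1, fun ℓ m hℓ hm => ?_⟩
    have hm1 : 1 ≤ m := (le_max_right _ _).trans hm
    have hm0 : (0 : ℝ) < m := by exact_mod_cast hm1
    have h1 := typ hS hΦ hxY hC0 htyp' hm1 hℓ
    have h2 := hC₀ m ((le_max_left _ _).trans hm)
    have h3 := hΦ ℓ hℓ
    have h4 : 2 * max C 0 * (m : ℝ) ^ (1 / p) < m * ε := by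
      calc 2 * max C 0 * (m : ℝ) ^ (1 / p) < ε * (m : ℝ) ^ (1 - 1 / p) * (m : ℝ) ^ (1 / p) := by
            gcongr
        _ = m * ε := by
          rw [mul_assoc, ← Real.rpow_add hm0]
          norm_num
          ring
    show 4 * Φ (m * ℓ) < m * ε * (4 * Φ ℓ)
    have h5 : 2 * max C 0 * (m : ℝ) ^ (1 / p) * Φ ℓ < m * ε * Φ ℓ := by
      gcongr
    linarith

end Pool.Agent.HI61
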