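import Mathlib

/-!
# HI61/Spread : spreading models by iterated ultrafilter limits

PROOF.  Let `𝒰 = Filter.hyperfilter ℕ` (non principal).  For a list `L` of reals define `Ψ [] y = ‖y‖`,
`Ψ (θ :: L) y = lim_{m → 𝒰} Ψ L (y + θ • x m)` (bounded real functions have limits along ultrafilters).
Suppression by Mazur's lemma, sign changes by subadditivity, extraction by a recursive choice.
-/

namespace Pool.Agent.HI61

open Finset Filter Topology

section SpreadAux

/-- limit along the hyperfilter -/
noncomputable def spLim (u : ℕ → ℝ) : ℝ := limUnder (hyperfilter ℕ : Filter ℕ) u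

theorem spLim_tendsto {u : ℕ → ℝ} {c : ℝ} (hu : ∀ m, |u m| ≤ c) :
    Tendsto u (hyperfilter ℕ : Filter ℕ) (𝓝 (spLim u)) := by
  apply tendsto_nhds_limUnder
  have hcomp : IsCompact (Set.Icc (-c) c) := isCompact_Icc
  have hle : (↑(Ultrafilter.map u (hyperfilter ℕ)) : Filter ℝ) ≤ 𝓟 (Set.Icc (-c) c) := by
    rw [Ultrafilter.coe_map, le_principal_iff, Filter.mem_map]
    exact Filter.Eventually.of_forall (fun m => abs_le.1 (hu m))
  obtain ⟨a, _, ha⟩ := hcomp.ultrafilter_le_nhds _ hle
  exact ⟨a, ha⟩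

variable {X : Type*} [NormedAddCommGroup X] [NormedSpace ℝ X]

/-- iterated limits -/
noncomputable def spPsi (x : ℕ → X) : List ℝ → X → ℝ
  | [], y => ‖y‖
  | θ :: L, y => spLim (fun m => spPsi x L (y + θ • x m))

variable {x : ℕ → X} (hx1 : ∀ m, ‖x m‖ = 1 / 2)

include hx1

theorem spPsi_bound (L : List ℝ) : ∀ y, |spPsi x L y| ≤ ‖y‖ + (L.map (fun t => |t|)).sum := by
  induction L with
  | nil => intro y; simp [spPsi]
  | cons θ L ih =>
    intro y
    have h1 : ∀ m, |spPsi x L (y + θ • x m)| ≤ ‖y‖ + ((θ :: L).map (fun t => |t|)).sum := by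
      intro m
      refine (ih _).trans ?_
      rw [List.map_cons, List.sum_cons]
      have h2 : ‖y + θ • x m‖ ≤ ‖y‖ + |θ| := by
        refine (norm_add_le _ _).trans ?_
        rw [norm_smul, hx1, Real.norm_eq_abs]
        have := abs_nonneg θ
        linarith
      linarith
    have h2 := (spLim_tendsto h1).abs
    exact le_of_tendsto' h2 h1

theorem spPsi_tendsto (θ : ℝ) (L : List ℝ) (y : X) :
    Tendsto (fun m => spPsi x L (y + θ • x m)) (hyperfilter ℕ : Filter ℕ)
      (𝓝 (spPsi x (θ :: L) y)) := by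
  have h1 : ∀ m, |spPsi x L (y + θ • x m)| ≤ ‖y‖ + ((θ :: L).map (fun t => |t|)).sum := by
    intro m
    refine (spPsi_bound hx1 L _).trans ?_
    rw [List.map_cons, List.sum_cons]
    have h2 : ‖y + θ • x m‖ ≤ ‖y‖ + |θ| := by
      refine (norm_add_le _ _).trans ?_
      rw [norm_smul, hx1, Real.norm_eq_abs]
      have := abs_nonneg θ
      linarith
    linarith
  exact spLim_tendsto h1

theorem spPsi_lip (L : List ℝ) : ∀ y z, |spPsi x L y - spPsi x L z| ≤ ‖y - z‖ := by
  induction L with
  | nil => intro y z; exact abs_norm_sub_norm_le y z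
  | cons θ L ih =>
    intro y z
    have h1 := ((spPsi_tendsto hx1 θ L y).sub (spPsi_tendsto hx1 θ L z)).abs
    refine le_of_tendsto' h1 (fun m => ?_)
    have h2 := ih (y + θ • x m) (z + θ • x m)
    rwa [add_sub_add_right_eq_sub] at h2

theorem spPsi_convex (L : List ℝ) : ∀ (y z : X) (a b : ℝ), 0 ≤ a → 0 ≤ b → a + b = 1 →
    spPsi x L (a • y + b • z) ≤ a * spPsi x L y + b * spPsi x L z := by
  induction L with
  | nil =>
    intro y z a b ha hb _
    show ‖a • y + b • z‖ ≤ a * ‖y‖ + b * ‖z‖
    refine (norm_add_le _ _).trans ?_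
    rw [norm_smul, norm_smul, Real.norm_of_nonneg ha, Real.norm_of_nonneg hb]
  | cons θ L ih =>
    intro y z a b ha hb hab
    have h1 := spPsi_tendsto hx1 θ L (a • y + b • z)
    have h2 := ((spPsi_tendsto hx1 θ L y).const_mul a).add
      ((spPsi_tendsto hx1 θ L z).const_mul b)
    refine le_of_tendsto_of_tendsto' h1 h2 (fun m => ?_)
    have h3 := ih (y + θ • x m) (z + θ • x m) a b ha hb hab
    have h4 : a • (y + θ • x m) + b • (z + θ • x m) = a • y + b • z + θ • x m := by
      have : θ • x m = a • θ • x m + b • θ • x m := by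
        rw [← add_smul, hab, one_smul]
      rw [smul_add, smul_add]
      nth_rewrite 3 [this]
      abel
    rwa [h4] at h3

/-- negation -/
theorem spPsi_neg (L : List ℝ) : ∀ y : X, spPsi x (L.map (fun t => -t)) (-y) = spPsi x L y := by
  induction L with
  | nil => intro y; exact norm_neg y
  | cons θ L ih =>
    intro y
    have h1 := spPsi_tendsto hx1 θ L y
    have h2 := spPsi_tendsto hx1 (-θ) (L.map (fun t => -t)) (-y)
    have h3 : (fun m => spPsi x (L.map (fun t => -t)) (-y + (-θ) • x m))
        = fun m => spPsi x L (y + θ • x m) := by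
      funext m
      rw [← ih (y + θ • x m)]
      congr 1
      rw [neg_smul, neg_add]
    rw [h3] at h2
    exact tendsto_nhds_unique h2 h1

theorem spPsi_zero_cons (L : List ℝ) (y : X) : spPsi x (0 :: L) y = spPsi x L y := by
  have h1 := spPsi_tendsto hx1 0 L y
  have h3 : (fun m => spPsi x L (y + (0 : ℝ) • x m)) = fun _ => spPsi x L y := by
    funext m
    rw [zero_smul, add_zero]
  rw [h3] at h1
  exact tendsto_nhds_unique h1 tendsto_const_nhds

/-- subadditivity -/
theorem spPsi_add (L : List ℝ) : ∀ (L' : List ℝ), L.length = L'.length → ∀ y y' : X,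
    spPsi x (List.zipWith (· + ·) L L') (y + y') ≤ spPsi x L y + spPsi x L' y' := by
  induction L with
  | nil =>
    intro L' hL y y'
    have : L' = [] := by
      rw [List.length_nil] at hL
      exact List.length_eq_zero_iff.1 hL.symm
    subst this
    exact norm_add_le y y'
  | cons θ L ih =>
    intro L' hL y y'
    cases L' with
    | nil => simp at hL
    | cons θ' L' =>
      have hL' : L.length = L'.length := by simpa using hL
      have h1 := spPsi_tendsto hx1 (θ + θ') (List.zipWith (· + ·) L L') (y + y')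
      have h2 := (spPsi_tendsto hx1 θ L y).add (spPsi_tendsto hx1 θ' L' y')
      rw [List.zipWith_cons_cons]
      refine le_of_tendsto_of_tendsto' h1 h2 (fun m => ?_)
      have h3 := ih L' hL' (y + θ • x m) (y' + θ' • x m)
      have h4 : y + θ • x m + (y' + θ' • x m) = y + y' + (θ + θ') • x m := by
        rw [add_smul]; abel
      rwa [h4] at h3

variable (hx0 : ∀ f : X →L[ℝ] ℝ, Tendsto (fun m => f (x m)) atTop (𝓝 0))

include hx0

/-- suppression (Mazur) -/
theorem spPsi_suppress (θ : ℝ) (L : List ℝ) (y : X) : spPsi x L y ≤ spPsi x (θ :: L) y := by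
  refine le_of_forall_pos_le_add (fun ε hε => ?_)
  have hT := spPsi_tendsto hx1 θ L y
  set a := spPsi x (θ :: L) y with ha
  set S : Set ℕ := {m | spPsi x L (y + θ • x m) ≤ a + ε / 2} with hS
  have hSmem : S ∈ (hyperfilter ℕ : Filter ℕ) := by
    have := hT.eventually (ge_mem_nhds (show a < a + ε / 2 by linarith))
    exact this
  have hSinf : S.Infinite := by
    intro hfin
    have h1 := hfin.compl_mem_hyperfilter
    have h2 := Filter.inter_mem hSmem h1
    rw [Set.inter_compl_self] at h2
    exact (NeBot.ne (hyperfilter ℕ).neBot) (empty_mem_iff_bot.1 h2)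
  have h0 : (0 : X) ∈ closure (convexHull ℝ (x '' S)) := by
    by_contra hcon
    obtain ⟨f, u, hfu, hfb⟩ := geometric_hahn_banach_point_closed
      ((convex_convexHull ℝ (x '' S)).closure) isClosed_closure hcon
    rw [map_zero] at hfu
    have h1 := (hx0 f).eventually (gt_mem_nhds hfu)
    obtain ⟨N, hN⟩ := eventually_atTop.1 h1
    obtain ⟨m, hm, hmN⟩ := hSinf.exists_gt N
    have h2 := hN m hmN.le
    have h3 := hfb (x m) (subset_closure (subset_convexHull ℝ _ ⟨m, hm, rfl⟩))
    linarith
  have hδ : 0 < ε / 2 / (1 + |θ|) := by positivity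
  obtain ⟨u, hu, hdist⟩ := Metric.mem_closure_iff.1 h0 _ hδ
  rw [dist_zero_left] at hdist
  have hconv : Convex ℝ {v : X | spPsi x L (y + θ • v) ≤ a + ε / 2} := by
    intro v hv w hw c d hc hd hcd
    simp only [Set.mem_ofPred_eq] at hv hw ⊢
    have h1 := spPsi_convex hx1 L (y + θ • v) (y + θ • w) c d hc hd hcd
    have h2 : c • (y + θ • v) + d • (y + θ • w) = y + θ • (c • v + d • w) := by
      have : y = c • y + d • y := by rw [← add_smul, hcd, one_smul]
      nth_rewrite 3 [this]
      rw [smul_add, smul_add, smul_add, smul_comm θ c v, smul_comm θ d w]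
      abel
    rw [h2] at h1
    have h3 : c * spPsi x L (y + θ • v) ≤ c * (a + ε / 2) := mul_le_mul_of_nonneg_left hv hc
    have h4 : d * spPsi x L (y + θ • w) ≤ d * (a + ε / 2) := mul_le_mul_of_nonneg_left hw hd
    have h5 : c * (a + ε / 2) + d * (a + ε / 2) = a + ε / 2 := by rw [← add_mul, hcd, one_mul]
    linarith
  have hsub : convexHull ℝ (x '' S) ⊆ {v : X | spPsi x L (y + θ • v) ≤ a + ε / 2} := by
    refine convexHull_min ?_ hconv
    rintro _ ⟨m, hm, rfl⟩
    exact hm
  have h1 : spPsi x L (y + θ • u) ≤ a + ε / 2 := hsub hu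
  have h2 := (abs_le.1 (spPsi_lip hx1 L y (y + θ • u))).2
  have h3 : ‖y - (y + θ • u)‖ ≤ ε / 2 := by
    rw [sub_add_cancel_left, norm_neg, norm_smul, Real.norm_eq_abs]
    have h4 : |θ| * ‖u‖ ≤ (1 + |θ|) * (ε / 2 / (1 + |θ|)) := by
      have := abs_nonneg θ
      exact mul_le_mul (by linarith) hdist.le (norm_nonneg _) (by linarith)
    have h5 : (1 + |θ|) * (ε / 2 / (1 + |θ|)) = ε / 2 := by
      have : (1 + |θ|) ≠ 0 := by positivity
      field_simp
    linarith
  linarith

/-- replacing entries by zero decreases -/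
theorem spPsi_zeroing {L₀ L : List ℝ} (h : List.Forall₂ (fun a b => a = 0 ∨ a = b) L₀ L) :
    ∀ y : X, spPsi x L₀ y ≤ spPsi x L y := by
  induction h with
  | nil => intro y; exact le_rfl
  | @cons a b L₀ L hab _ ih =>
    intro y
    rcases hab with rfl | rfl
    · rw [spPsi_zero_cons hx1]
      exact (ih y).trans (spPsi_suppress hx1 hx0 b L y)
    · exact le_of_tendsto_of_tendsto' (spPsi_tendsto hx1 a L₀ y) (spPsi_tendsto hx1 a L y)
        (fun m => ih _)

omit hx1 hx0 in
theorem forall2_map_map {α : Type*} (f g : α → ℝ) (l : List α)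
    (h : ∀ t ∈ l, f t = 0 ∨ f t = g t) :
    List.Forall₂ (fun a b : ℝ => a = 0 ∨ a = b) (l.map f) (l.map g) := by
  induction l with
  | nil => exact List.Forall₂.nil
  | cons t l ih =>
    rw [List.map_cons, List.map_cons]
    exact List.Forall₂.cons (h t (List.mem_cons_self)) (ih (fun s hs => h s (List.mem_cons_of_mem _ hs)))

omit hx1 hx0 in
theorem zipWith_map_map' {α : Type*} (f g k : α → ℝ) (l : List α)
    (h : ∀ t ∈ l, f t + g t = k t) :
    List.zipWith (· + ·) (l.map f) (l.map g) = l.map k := by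
  induction l with
  | nil => rfl
  | cons t l ih =>
    rw [List.map_cons, List.map_cons, List.map_cons, List.zipWith_cons_cons,
      ih (fun s hs => h s (List.mem_cons_of_mem _ hs)), h t (List.mem_cons_self)]

/-- sign changes -/
theorem spPsi_sign (b : List Bool) :
    spPsi x (b.map (fun t => if t then (1 : ℝ) else -1)) 0 ≤
        2 * spPsi x (b.map (fun _ => (1 : ℝ))) 0 ∧
      spPsi x (b.map (fun _ => (1 : ℝ))) 0 ≤
        2 * spPsi x (b.map (fun t => if t then (1 : ℝ) else -1)) 0 := by
  set P : List ℝ := b.map (fun t => if t then (1 : ℝ) else 0) with hP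
  set M : List ℝ := b.map (fun t => if t then (0 : ℝ) else -1) with hM
  set M' : List ℝ := b.map (fun t => if t then (0 : ℝ) else 1) with hM'
  have hlen1 : P.length = M.length := by rw [hP, hM, List.length_map, List.length_map]
  have hlen2 : P.length = M'.length := by rw [hP, hM', List.length_map, List.length_map]
  have hneg : spPsi x M 0 = spPsi x M' 0 := by
    have h1 := spPsi_neg hx1 M (0 : X)
    rw [neg_zero] at h1
    rw [← h1]
    congr 1
    rw [hM, hM', List.map_map]
    refine List.map_congr_left (fun t _ => ?_)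
    cases t <;> simp
  have s1 : spPsi x (b.map (fun t => if t then (1 : ℝ) else -1)) 0 ≤
      spPsi x P 0 + spPsi x M 0 := by
    have h1 := spPsi_add hx1 P M hlen1 (0 : X) 0
    rw [add_zero] at h1
    rw [zipWith_map_map' _ _ (fun t => if t then (1 : ℝ) else -1) b ?_] at h1
    · exact h1
    · intro t _
      cases t <;> simp
  have s2 : spPsi x (b.map (fun _ => (1 : ℝ))) 0 ≤ spPsi x P 0 + spPsi x M' 0 := by
    have h1 := spPsi_add hx1 P M' hlen2 (0 : X) 0
    rw [add_zero] at h1
    rw [zipWith_map_map' _ _ (fun _ => (1 : ℝ)) b ?_] at h1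
    · exact h1
    · intro t _
      cases t <;> simp
  have p1 : spPsi x P 0 ≤ spPsi x (b.map (fun _ => (1 : ℝ))) 0 := by
    refine spPsi_zeroing hx1 hx0 (forall2_map_map _ _ b ?_) 0
    intro t _
    cases t <;> simp
  have p2 : spPsi x M' 0 ≤ spPsi x (b.map (fun _ => (1 : ℝ))) 0 := by
    refine spPsi_zeroing hx1 hx0 (forall2_map_map _ _ b ?_) 0
    intro t _
    cases t <;> simp
  have p3 : spPsi x P 0 ≤ spPsi x (b.map (fun t => if t then (1 : ℝ) else -1)) 0 := by
    refine spPsi_zeroing hx1 hx0 (forall2_map_map _ _ b ?_) 0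
    intro t _
    cases t <;> simp
  have p4 : spPsi x M 0 ≤ spPsi x (b.map (fun t => if t then (1 : ℝ) else -1)) 0 := by
    refine spPsi_zeroing hx1 hx0 (forall2_map_map _ _ b ?_) 0
    intro t _
    cases t <;> simp
  constructor
  · linarith
  · linarith

omit hx0 in
/-- one step of the extraction -/
theorem spPsi_pick (k N : ℕ) (Y : Finset X) : ∃ m, N ≤ m ∧ ∀ y ∈ Y, ∀ L : List Bool,
    L.length ≤ k → ∀ s : Bool,
      |spPsi x (L.map (fun t => if t then (1 : ℝ) else -1))
          (y + (if s then (1 : ℝ) else -1) • x m)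
        - spPsi x ((if s then (1 : ℝ) else -1) ::
            L.map (fun t => if t then (1 : ℝ) else -1)) y| ≤ (1 / 2) ^ k := by
  have hfin : {L : List Bool | L.length ≤ k}.Finite := List.finite_length_le Bool k
  have key : ∀ᶠ m in (hyperfilter ℕ : Filter ℕ), ∀ y ∈ Y, ∀ L ∈ {L : List Bool | L.length ≤ k},
      ∀ s : Bool,
      |spPsi x (L.map (fun t => if t then (1 : ℝ) else -1))
          (y + (if s then (1 : ℝ) else -1) • x m)
        - spPsi x ((if s then (1 : ℝ) else -1) ::
            L.map (fun t => if t then (1 : ℝ) else -1)) y| ≤ (1 / 2) ^ k := by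
    rw [Filter.eventually_all_finset]
    intro y _
    rw [Filter.eventually_all_finite hfin]
    intro L _
    rw [Filter.eventually_all]
    intro s
    have h1 := spPsi_tendsto hx1 (if s then (1 : ℝ) else -1)
      (L.map (fun t => if t then (1 : ℝ) else -1)) y
    rw [tendsto_iff_norm_sub_tendsto_zero] at h1
    have h2 := h1.eventually (ge_mem_nhds (show (0 : ℝ) < (1 / 2) ^ k by positivity))
    exact h2
  have hN : ∀ᶠ m in (hyperfilter ℕ : Filter ℕ), N ≤ m := by
    have h1 : (hyperfilter ℕ : Filter ℕ) ≤ atTop := by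
      rw [← Nat.cofinite_eq_atTop]
      exact hyperfilter_le_cofinite
    exact h1 (eventually_ge_atTop N)
  obtain ⟨m, hm1, hm2⟩ := (key.and hN).exists
  exact ⟨m, hm2, hm1⟩

end SpreadAux

theorem sp_sort_sum {β : Type*} [AddCommMonoid β] (A : Finset ℕ) (f : ℕ → β) :
    ((A.sort (· ≤ ·)).map f).sum = ∑ k ∈ A, f k := by
  rw [Finset.sum_eq_multiset_sum, ← Finset.sort_eq A (· ≤ ·), Multiset.map_coe,
    Multiset.sum_coe]

theorem exists_spread {X : Type*} [NormedAddCommGroup X] [NormedSpace ℝ X] (x : ℕ → X)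
    (hx1 : ∀ m, ‖x m‖ = 1 / 2)
    (hx0 : ∀ f : X →L[ℝ] ℝ, Tendsto (fun m => f (x m)) atTop (𝓝 0)) :
    ∃ (m : ℕ → ℕ) (Φ : ℕ → ℝ), StrictMono m ∧ Φ 1 = 1 / 2 ∧
      (∀ k n, 1 ≤ k → k ≤ n → Φ k ≤ Φ n) ∧
      ∀ (N : ℕ) (δ : ℝ), 0 < δ → ∃ K, ∀ A : Finset ℕ, 1 ≤ A.card → A.card ≤ N →
        (∀ k ∈ A, K ≤ k) →
        |‖∑ k ∈ A, x (m k)‖ - Φ A.card| ≤ δ ∧
        ∀ θ : ℕ → ℝ, (∀ k, |θ k| = 1) →
          1 / 2 * Φ A.card - δ ≤ ‖∑ k ∈ A, θ k • x (m k)‖ ∧
          ‖∑ k ∈ A, θ k • x (m k)‖ ≤ 2 * Φ A.card + δ := by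
  classical
  choose pick hpick1 hpick2 using spPsi_pick (x := x) hx1
  let st : ℕ → ℕ × Finset X := fun k => Nat.rec (0, {0})
    (fun k s => (pick k s.1 s.2 + 1,
      s.2 ∪ (s.2.image (fun y => y + x (pick k s.1 s.2)) ∪
        s.2.image (fun y => y - x (pick k s.1 s.2))))) k
  let m : ℕ → ℕ := fun k => pick k (st k).1 (st k).2
  have st_succ : ∀ k, st (k + 1) = (m k + 1,
      (st k).2 ∪ ((st k).2.image (fun y => y + x (m k)) ∪
        (st k).2.image (fun y => y - x (m k)))) := fun k => rfl
  have hmono1 : ∀ k, (st k).1 ≤ m k := fun k => hpick1 _ _ _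
  have hstrict : StrictMono m := by
    refine strictMono_nat_of_lt_succ (fun k => ?_)
    have h1 := hmono1 (k + 1)
    rw [st_succ] at h1
    exact Nat.lt_of_succ_le h1
  have hYmono : ∀ k l, k ≤ l → (st k).2 ⊆ (st l).2 := by
    intro k l hkl
    induction l, hkl using Nat.le_induction with
    | base => exact Finset.Subset.refl _
    | succ l _ ih =>
      refine ih.trans ?_
      rw [st_succ]
      exact Finset.subset_union_left
  have hY0 : ∀ k, (0 : X) ∈ (st k).2 := by
    intro k
    exact hYmono 0 k (Nat.zero_le k) (Finset.mem_singleton_self 0)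
  have hcond : ∀ k, ∀ y ∈ (st k).2, ∀ L : List Bool, L.length ≤ k → ∀ s : Bool,
      |spPsi x (L.map (fun t => if t then (1 : ℝ) else -1))
          (y + (if s then (1 : ℝ) else -1) • x (m k))
        - spPsi x ((if s then (1 : ℝ) else -1) ::
            L.map (fun t => if t then (1 : ℝ) else -1)) y| ≤ (1 / 2) ^ k :=
    fun k => hpick2 k _ _
  -- telescoping
  have htel : ∀ (b : ℕ → Bool) (l : List ℕ), l.Pairwise (· < ·) → ∀ (B : ℕ) (y : X),
      y ∈ (st B).2 → (∀ k ∈ l, B ≤ k) → l.length ≤ B →
      |‖y + (l.map (fun k => (if b k then (1 : ℝ) else -1) • x (m k))).sum‖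
        - spPsi x ((l.map b).map (fun t => if t then (1 : ℝ) else -1)) y|
        ≤ (l.map (fun k => (1 / 2 : ℝ) ^ k)).sum := by
    intro b l
    induction l with
    | nil =>
      intro _ B y _ _ _
      simp [spPsi]
    | cons k l ih =>
      intro hl B y hy hB hlen
      have hBk : B ≤ k := hB k List.mem_cons_self
      have hyk : y ∈ (st k).2 := hYmono B k hBk hy
      have hlen' : l.length ≤ B := by
        have : l.length + 1 ≤ B := by simpa using hlen
        omega
      have hy' : y + (if b k then (1 : ℝ) else -1) • x (m k) ∈ (st (k + 1)).2 := by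
        rw [st_succ]
        cases b k
        · refine Finset.mem_union_right _ (Finset.mem_union_right _ ?_)
          refine Finset.mem_image.2 ⟨y, hyk, ?_⟩
          simp [sub_eq_add_neg]
        · refine Finset.mem_union_right _ (Finset.mem_union_left _ ?_)
          refine Finset.mem_image.2 ⟨y, hyk, ?_⟩
          simp
      have hgt : ∀ j ∈ l, k + 1 ≤ j := fun j hj => List.rel_of_pairwise_cons hl hj
      have h1 := ih (List.Pairwise.of_cons hl) (k + 1) _ hy' hgt (by omega)
      have h2 := hcond k y hyk (l.map b) (by rw [List.length_map]; omega) (b k)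
      rw [List.map_cons, List.sum_cons, List.map_cons, List.map_cons, List.map_cons,
        List.sum_cons, ← add_assoc]
      have h3 := abs_sub_le
        ‖y + (if b k then (1 : ℝ) else -1) • x (m k) +
          (l.map (fun k => (if b k then (1 : ℝ) else -1) • x (m k))).sum‖
        (spPsi x ((l.map b).map (fun t => if t then (1 : ℝ) else -1))
          (y + (if b k then (1 : ℝ) else -1) • x (m k)))
        (spPsi x ((if b k then (1 : ℝ) else -1) ::
            (l.map b).map (fun t => if t then (1 : ℝ) else -1)) y)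
      linarith
  have hrep : ∀ n, spPsi x (List.replicate n (1 : ℝ)) 0 ≤
      spPsi x (List.replicate (n + 1) (1 : ℝ)) 0 := by
    intro n
    rw [List.replicate_succ]
    exact spPsi_suppress hx1 hx0 1 _ 0
  refine ⟨m, fun n => spPsi x (List.replicate n (1 : ℝ)) 0, hstrict, ?_, ?_, ?_⟩
  · have h1 := spPsi_tendsto hx1 1 [] (0 : X)
    have h2 : (fun m => spPsi x [] ((0 : X) + (1 : ℝ) • x m)) = fun _ => (1 / 2 : ℝ) := by
      funext m
      show ‖(0 : X) + (1 : ℝ) • x m‖ = 1 / 2
      rw [zero_add, one_smul, hx1]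
    rw [h2] at h1
    exact tendsto_nhds_unique h1 tendsto_const_nhds
  · intro k n _ hkn
    exact monotone_nat_of_le_succ hrep hkn
  · intro N δ hδ
    obtain ⟨K0, hK0⟩ : ∃ K0 : ℕ, ∀ K ≥ K0, (N : ℝ) * (1 / 2) ^ K ≤ δ := by
      have h1 : Tendsto (fun K : ℕ => (N : ℝ) * (1 / 2) ^ K) atTop (𝓝 ((N : ℝ) * 0)) :=
        (tendsto_pow_atTop_nhds_zero_of_lt_one (by norm_num) (by norm_num)).const_mul _
      rw [mul_zero] at h1
      exact eventually_atTop.1 (h1.eventually (ge_mem_nhds hδ))
    refine ⟨max K0 N, fun A hA1 hAN hAK => ?_⟩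
    set l : List ℕ := A.sort (· ≤ ·) with hl
    have hllen : l.length = A.card := Finset.length_sort _
    have hlpw : l.Pairwise (· < ·) := Finset.sortedLT_sort A |>.pairwise
    have hmem : ∀ k ∈ l, max K0 N ≤ k := by
      intro k hk
      exact hAK k ((Finset.mem_sort _).1 hk)
    have hsmall : ∑ k ∈ A, (1 / 2 : ℝ) ^ k ≤ δ := by
      calc ∑ k ∈ A, (1 / 2 : ℝ) ^ k ≤ ∑ _k ∈ A, (1 / 2 : ℝ) ^ (max K0 N) := by
            refine Finset.sum_le_sum (fun k hk => ?_)
            exact pow_le_pow_of_le_one (by norm_num) (by norm_num) (hAK k hk)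
        _ = (A.card : ℝ) * (1 / 2) ^ (max K0 N) := by rw [Finset.sum_const, nsmul_eq_mul]
        _ ≤ (N : ℝ) * (1 / 2) ^ (max K0 N) := by
            refine mul_le_mul_of_nonneg_right ?_ (by positivity)
            exact_mod_cast hAN
        _ ≤ δ := hK0 _ (le_max_left _ _)
    have main : ∀ b : ℕ → Bool,
        |‖∑ k ∈ A, (if b k then (1 : ℝ) else -1) • x (m k)‖
          - spPsi x ((l.map b).map (fun t => if t then (1 : ℝ) else -1)) 0| ≤ δ := by
      intro b
      have h1 := htel b l hlpw (max K0 N) 0 (hY0 _) hmem (by rw [hllen]; exact hAN.trans (le_max_right _ _))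
      rw [zero_add, hl, sp_sort_sum, sp_sort_sum, ← hl] at h1
      exact h1.trans hsmall
    have hones : ∀ b : ℕ → Bool, (l.map b).map (fun _ => (1 : ℝ)) = List.replicate A.card (1 : ℝ) := by
      intro b
      rw [List.map_const', List.length_map, hllen]
    constructor
    · have h1 := main (fun _ => true)
      have h2 : (l.map (fun _ => true)).map (fun t => if t then (1 : ℝ) else -1)
          = List.replicate A.card (1 : ℝ) := by
        rw [List.map_map, ← hones (fun _ => true), List.map_map]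
        refine List.map_congr_left (fun t _ => ?_)
        simp
      rw [h2] at h1
      simpa using h1
    · intro θ hθ
      have hb : ∀ k, θ k = if (decide (θ k = 1)) then (1 : ℝ) else -1 := by
        intro k
        rcases eq_or_eq_neg_of_abs_eq (hθ k) with h | h
        · simp [h]
        · rw [h]; norm_num
      have h1 := main (fun k => decide (θ k = 1))
      have h2 : ∑ k ∈ A, (if (decide (θ k = 1)) then (1 : ℝ) else -1) • x (m k)
          = ∑ k ∈ A, θ k • x (m k) := by
        refine Finset.sum_congr rfl (fun k _ => ?_)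
        rw [← hb k]
      rw [h2] at h1
      have h3 := spPsi_sign hx1 hx0 (l.map (fun k => decide (θ k = 1)))
      rw [hones] at h3
      have h4 := abs_le.1 h1
      constructor
      · linarith [h3.2, h4.1]
      · linarith [h3.1, h4.2]

end Pool.Agent.HI61
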