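import Pool.Agent.HI61.WDefs3

/-!
# HI61/Transfer : isomorphic invariance of the hypotheses

PROOFS.  `e : X ≃L[ℝ] Y`.  Reflexive: for `Φ ∈ Y**` let `Ψ f = Φ (f ∘ e.symm)`, `Ψ = J x`, then `Φ = J (e x)`.
HI: map the subspaces by `e.symm` (`Submodule.map`/`comap`; closedness, dimension, `⊓`, `⊔` are preserved).
Cotype: let `A ≥ 1` with `‖e x‖ ≤ A ‖x‖` and `‖e.symm y‖ ≤ A ‖y‖`.  For `‖y_i‖ ≥ 1`: `‖A e.symm y_i‖ ≥ 1`, so signs with
`c n^{1/q} ≤ ‖∑ θ_i A e.symm y_i‖ ≤ A^2 ‖∑ θ_i y_i‖`.  Type: similarly for the restricted isomorphism `Z ≃ Z.map e`.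
Separable: continuous image.
-/

namespace Pool.Agent.HI61

variable {X Y : Type*} [NormedAddCommGroup X] [NormedSpace ℝ X] [NormedAddCommGroup Y]
  [NormedSpace ℝ Y]

theorem reflexive_congr (e : X ≃L[ℝ] Y) (h : Reflexive' X) : Reflexive' Y := by
  intro Φ
  obtain ⟨x, hx⟩ := h (Φ.comp ((ContinuousLinearMap.compL ℝ Y X ℝ).flip
    (e.symm : Y →L[ℝ] X)))
  refine ⟨e x, ?_⟩
  ext g
  have h1 := congrArg (fun Ψ => Ψ (g.comp (e : X →L[ℝ] Y))) hx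
  have h2 : (g.comp (e : X →L[ℝ] Y)).comp (e.symm : Y →L[ℝ] X) = g := by
    ext y
    simp
  change g (e x) = Φ g
  change g (e x) = Φ ((g.comp (e : X →L[ℝ] Y)).comp (e.symm : Y →L[ℝ] X)) at h1
  rw [h1, h2]

private theorem tr_mem (e : X ≃L[ℝ] Y) (S : Submodule ℝ Y) (x : X) :
    x ∈ S.comap (e.toLinearEquiv : X →ₗ[ℝ] Y) ↔ e x ∈ S := Iff.rfl

private theorem tr_fd (e : X ≃L[ℝ] Y) (S : Submodule ℝ Y) (h : ¬ FiniteDimensional ℝ S) :
    ¬ FiniteDimensional ℝ (S.comap (e.toLinearEquiv : X →ₗ[ℝ] Y)) := by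
  intro h1
  apply h
  have h2 : (S.comap (e.toLinearEquiv : X →ₗ[ℝ] Y)).map (e.toLinearEquiv : X →ₗ[ℝ] Y) = S :=
    Submodule.map_comap_eq_of_surjective e.surjective S
  rw [← h2]
  infer_instance

theorem HI_congr (e : X ≃L[ℝ] Y) (h : HI X) : HI Y := by
  intro S hS hSf ⟨Z₀, Z₁, h0, h1, h0f, h1f, hinf, hsup⟩
  have hcl : ∀ T : Submodule ℝ Y, IsClosed (T : Set Y) →
      IsClosed ((T.comap (e.toLinearEquiv : X →ₗ[ℝ] Y) : Submodule ℝ X) : Set X) := by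
    intro T hT
    exact hT.preimage e.continuous
  refine h (S.comap (e.toLinearEquiv : X →ₗ[ℝ] Y)) (hcl S hS) (tr_fd e S hSf)
    ⟨Z₀.comap (e.toLinearEquiv : X →ₗ[ℝ] Y), Z₁.comap (e.toLinearEquiv : X →ₗ[ℝ] Y),
      hcl Z₀ h0, hcl Z₁ h1, tr_fd e Z₀ h0f, tr_fd e Z₁ h1f, ?_, ?_⟩
  · rw [eq_bot_iff]
    intro x hx
    rw [Submodule.mem_inf, tr_mem, tr_mem] at hx
    have h2 : e x ∈ Z₀ ⊓ Z₁ := Submodule.mem_inf.2 hx
    rw [hinf, Submodule.mem_bot] at h2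
    rw [Submodule.mem_bot]
    exact (map_eq_zero_iff e e.injective).1 h2
  · ext x
    rw [tr_mem, ← hsup]
    constructor
    · intro hx
      obtain ⟨a, ha, b, hb, rfl⟩ := Submodule.mem_sup.1 hx
      rw [map_add]
      exact Submodule.add_mem_sup ha hb
    · intro hx
      obtain ⟨a, ha, b, hb, hab⟩ := Submodule.mem_sup.1 hx
      refine Submodule.mem_sup.2 ⟨e.symm a, ?_, e.symm b, ?_, ?_⟩
      · rw [tr_mem, ContinuousLinearEquiv.apply_symm_apply]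
        exact ha
      · rw [tr_mem, ContinuousLinearEquiv.apply_symm_apply]
        exact hb
      · rw [← map_add, hab, ContinuousLinearEquiv.symm_apply_apply]

private theorem tr_A (e : X ≃L[ℝ] Y) : ∃ A : ℝ, 1 ≤ A ∧ (∀ x, ‖e x‖ ≤ A * ‖x‖) ∧
    ∀ y, ‖e.symm y‖ ≤ A * ‖y‖ := by
  refine ⟨max 1 (max ‖(e : X →L[ℝ] Y)‖ ‖(e.symm : Y →L[ℝ] X)‖), le_max_left _ _, ?_, ?_⟩
  · intro x
    refine ((e : X →L[ℝ] Y).le_opNorm x).trans ?_
    exact mul_le_mul_of_nonneg_right ((le_max_left _ _).trans (le_max_right _ _)) (norm_nonneg _)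
  · intro y
    refine ((e.symm : Y →L[ℝ] X).le_opNorm y).trans ?_
    exact mul_le_mul_of_nonneg_right ((le_max_right _ _).trans (le_max_right _ _)) (norm_nonneg _)

theorem signCotype_congr (e : X ≃L[ℝ] Y) (q c : ℝ) (hc : 0 < c) (h : SignCotype X q c) :
    ∃ c' : ℝ, 0 < c' ∧ SignCotype Y q c' := by
  obtain ⟨A, hA, hA1, hA2⟩ := tr_A e
  have hA0 : 0 < A := by linarith
  refine ⟨c / (A * A), by positivity, fun n y hy => ?_⟩
  obtain ⟨θ, hθ, hn⟩ := h n (fun i => A • e.symm (y i)) (by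
    intro i
    rw [norm_smul, Real.norm_of_nonneg hA0.le]
    have := hA1 (e.symm (y i))
    rw [ContinuousLinearEquiv.apply_symm_apply] at this
    exact (hy i).trans this)
  refine ⟨θ, hθ, ?_⟩
  have h1 : ∑ i, θ i • A • e.symm (y i) = A • e.symm (∑ i, θ i • y i) := by
    rw [map_sum, Finset.smul_sum]
    refine Finset.sum_congr rfl fun i _ => ?_
    rw [map_smul, smul_comm]
  rw [h1, norm_smul, Real.norm_of_nonneg hA0.le] at hn
  have h2 := mul_le_mul_of_nonneg_left (hA2 (∑ i, θ i • y i)) hA0.le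
  rw [div_mul_eq_mul_div, div_le_iff₀ (by positivity)]
  calc c * (n : ℝ) ^ (1 / q) ≤ A * ‖e.symm (∑ i, θ i • y i)‖ := hn
    _ ≤ A * (A * ‖∑ i, θ i • y i‖) := h2
    _ = ‖∑ i, θ i • y i‖ * (A * A) := by ring

theorem signType_congr (e : X ≃L[ℝ] Y) (Z : Submodule ℝ X) (p C : ℝ) (h : SignType Z p C) :
    ∃ (Z' : Submodule ℝ Y) (C' : ℝ), SignType Z' p C' ∧
      (¬ FiniteDimensional ℝ Z → ¬ FiniteDimensional ℝ Z') := by
  obtain ⟨A, hA, hA1, hA2⟩ := tr_A e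
  have hA0 : 0 < A := by linarith
  have hmem : ∀ y, y ∈ Z.comap (e.symm.toLinearEquiv : Y →ₗ[ℝ] X) ↔ e.symm y ∈ Z :=
    fun y => Iff.rfl
  refine ⟨Z.comap (e.symm.toLinearEquiv : Y →ₗ[ℝ] X), A * A * C, ?_, fun hZ => tr_fd e.symm Z hZ⟩
  intro n y hy
  obtain ⟨θ, hθ, hn⟩ := h n (fun i => ⟨A⁻¹ • e.symm (y i : Y), Z.smul_mem _ ((hmem _).1 (y i).2)⟩)
    (by
      intro i
      rw [Submodule.coe_norm]
      change ‖A⁻¹ • e.symm (y i : Y)‖ ≤ 1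
      rw [norm_smul, Real.norm_of_nonneg (inv_nonneg.2 hA0.le), inv_mul_le_iff₀ hA0, mul_one]
      refine (hA2 _).trans ?_
      have h1 : ‖(y i : Y)‖ ≤ 1 := hy i
      calc A * ‖(y i : Y)‖ ≤ A * 1 := mul_le_mul_of_nonneg_left h1 hA0.le
        _ = A := mul_one A)
  refine ⟨θ, hθ, ?_⟩
  rw [Submodule.coe_norm, Submodule.coe_sum] at hn ⊢
  simp only [Submodule.coe_smul] at hn ⊢
  have h1 : ∑ i, θ i • A⁻¹ • e.symm (y i : Y) = A⁻¹ • e.symm (∑ i, θ i • (y i : Y)) := by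
    rw [map_sum, Finset.smul_sum]
    refine Finset.sum_congr rfl fun i _ => ?_
    rw [map_smul, smul_comm]
  rw [h1, norm_smul, Real.norm_of_nonneg (inv_nonneg.2 hA0.le), inv_mul_le_iff₀ hA0] at hn
  have h2 := hA1 (e.symm (∑ i, θ i • (y i : Y)))
  rw [ContinuousLinearEquiv.apply_symm_apply] at h2
  calc ‖∑ i, θ i • (y i : Y)‖ ≤ A * ‖e.symm (∑ i, θ i • (y i : Y))‖ := h2
    _ ≤ A * (A * (C * (n : ℝ) ^ (1 / p))) := mul_le_mul_of_nonneg_left hn hA0.le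
    _ = A * A * C * (n : ℝ) ^ (1 / p) := by ring

end Pool.Agent.HI61
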