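import Pool.Agent.HI61.WBasic

/-!
# HI61/WNorm : the norm exists

PROOF.  `pW w = max (⨆_{‖v‖ ≤ 1} |Th 0 v w|) (⨆_{f ∈ K} |ev f (hat w)|)`.  Both families are
bounded: `|ev f (hat w)| ≤ ∑_{k < b} q k (w.2 k)` (`coord_supp`), and by `Th_eq_sum`
`|Th 0 v w| ≤ ‖pos w‖ + ∑_{j < J} |Fj|`, `|Fj| ≤ al C ∑_{k < b} q k (w.2 k)` (`Fj_l1`), uniformly in `v`.
Every `w ↦ Th 0 v w` (`‖v‖ ≤ 1`) and every `w ↦ ev f (hat w)` is linear, so both suprema are
seminorms (subadditive: `le_csSup`, `csSup_le`; homogeneous: `≤` for `c` and `c⁻¹`, or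
`Real.mul_iSup_of_nonneg`).  One may use `Seminorm.of` or an explicit structure.
-/

namespace Pool.Agent.HI61

open Finset
open scoped Classical

variable {X V : Type} [NormedAddCommGroup X] [NormedSpace ℝ X]
  [NormedAddCommGroup V] [NormedSpace ℝ V]

/-- a pointwise bounded family of linear functionals gives a seminorm -/
private theorem exists_sup {W I : Type} [AddGroup W] [SMul ℝ W] [Nonempty I]
    (φ : I → W → ℝ) (hadd : ∀ i w w', φ i (w + w') = φ i w + φ i w')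
    (hsmul : ∀ i (c : ℝ) w, φ i (c • w) = c * φ i w) (hb : ∀ w, ∃ B, ∀ i, |φ i w| ≤ B) :
    ∃ p : Seminorm ℝ W, (∀ i w, |φ i w| ≤ p w) ∧ ∀ w B, (∀ i, |φ i w| ≤ B) → p w ≤ B := by
  have hbd : ∀ w, BddAbove (Set.range fun i => |φ i w|) := by
    intro w
    obtain ⟨B, hB⟩ := hb w
    exact ⟨B, by rintro _ ⟨i, rfl⟩; exact hB i⟩
  have h0 : ∀ i, φ i 0 = 0 := by
    intro i
    have := hadd i 0 0
    rw [add_zero] at this
    linarith
  have hneg : ∀ i w, φ i (-w) = -φ i w := by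
    intro i w
    have := hadd i w (-w)
    rw [add_neg_cancel, h0] at this
    linarith
  let p : Seminorm ℝ W :=
    { toFun := fun w => ⨆ i, |φ i w|
      map_zero' := by simp [h0]
      add_le' := fun w w' => ciSup_le fun i => by
        rw [hadd]
        exact (abs_add_le _ _).trans (add_le_add (le_ciSup (hbd w) i) (le_ciSup (hbd w') i))
      neg' := fun w => by simp only [hneg, abs_neg]
      smul' := fun c w => by
        rw [Real.norm_eq_abs, Real.mul_iSup_of_nonneg (abs_nonneg c)]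
        congr 1
        funext i
        rw [hsmul, abs_mul] }
  exact ⟨p, fun i w => le_ciSup (hbd w) i, fun w B h => ciSup_le h⟩

theorem exists_norm (H : Host X V) : ∃ pW : Seminorm ℝ (W0 X), H.IsNorm pW := by
  let φ : ({v : V →L[ℝ] ℝ // ‖v‖ ≤ 1} ⊕ {f : Fn // K H.P f}) → W0 X → ℝ :=
    fun i w => Sum.elim (fun v => H.Th 0 v.1 w) (fun f => ev f.1 (H.hat w)) i
  haveI : Nonempty ({v : V →L[ℝ] ℝ // ‖v‖ ≤ 1} ⊕ {f : Fn // K H.P f}) :=
    ⟨Sum.inl ⟨0, by simp⟩⟩
  have hA : ∀ i w w', φ i (w + w') = φ i w + φ i w' := by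
    rintro (⟨v, hv⟩ | ⟨f, hf⟩) w w'
    · exact Th_add H 0 v hv w w'
    · show ev f (H.hat (w + w')) = ev f (H.hat w) + ev f (H.hat w')
      rw [map_add, ← ev_add_right]
      rfl
  have hS : ∀ i (c : ℝ) w, φ i (c • w) = c * φ i w := by
    rintro (⟨v, hv⟩ | ⟨f, hf⟩) c w
    · exact Th_smul H 0 v hv c w
    · show ev f (H.hat (c • w)) = c * ev f (H.hat w)
      rw [map_smul, ← ev_smul_right]
      rfl
  have hB : ∀ w, ∃ B, ∀ i, |φ i w| ≤ B := by
    intro w
    have hJ : ∀ k ∈ w.2.support, k ≤ w.2.support.sup id := fun k hk => Finset.le_sup (f := id) hk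
    set J := w.2.support.sup id with hJd
    have hsup : ∀ i, H.hat w i ≠ 0 → blk i < J + 1 := fun i hi =>
      Nat.lt_succ_of_le (hJ _ (hat_supp H w i hi))
    have hq : ∀ i, |H.hat w i| ≤ (fun k => H.q k (w.2 k)) (blk i) := fun i => hat_le H w i
    refine ⟨max (‖H.pos w‖ + ∑ j ∈ Ico 0 J, H.P.al j * H.P.C j *
      ∑ k ∈ range (J + 1), H.q k (w.2 k)) (∑ k ∈ range (J + 1), H.q k (w.2 k)), ?_⟩
    rintro (⟨v, hv⟩ | ⟨f, hf⟩)
    · refine le_trans ?_ (le_max_left _ _)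
      show |H.Th 0 v w| ≤ _
      rw [Th_eq_sum H w v J hJ 0]
      refine (abs_add_le _ _).trans (add_le_add ?_ ?_)
      · have h1 := v.le_opNorm (H.pos w)
        rw [Real.norm_eq_abs] at h1
        exact h1.trans (by nlinarith [norm_nonneg (H.pos w)])
      · refine (Finset.abs_sum_le_sum_abs _ _).trans (Finset.sum_le_sum fun j _ => ?_)
        exact Fj_l1 H.good j (H.vs v) (vs_mem H v hv) (H.hat w) (fun k => H.q k (w.2 k)) hq
          (J + 1) hsup
    · refine le_trans ?_ (le_max_right _ _)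
      exact coord_supp H.good (H.hat w) (fun k => H.q k (w.2 k)) hq (J + 1) hsup f hf
  obtain ⟨p, hp1, hp2⟩ := exists_sup φ hA hS hB
  refine ⟨p, fun w v hv => hp1 (Sum.inl ⟨v, hv⟩) w, fun w f hf => hp1 (Sum.inr ⟨f, hf⟩) w,
    fun w B _ h1 h2 => hp2 w B ?_⟩
  rintro (⟨v, hv⟩ | ⟨f, hf⟩)
  · exact h1 v hv
  · exact h2 f hf

/-- the norm of `X` -/
theorem pW_X (H : Host X V) (pW : Seminorm ℝ (W0 X)) (hN : H.IsNorm pW) (x : X) :
    pW (x, 0) = ‖x‖ := by
  refine le_antisymm (hN.N3 _ _ (norm_nonneg x) ?_ ?_) ?_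
  · intro v hv
    rw [Th_X]
    have h1 := v.le_opNorm (H.F.ι x)
    rw [Real.norm_eq_abs, LinearIsometry.norm_map] at h1
    exact h1.trans (by nlinarith [norm_nonneg x])
  · intro f _
    have h0 : H.hat ((x, 0) : W0 X) = fun _ => 0 := by
      funext i
      show H.gam i ((0 : ℕ →₀ Eb X) (blk i)) = 0
      rw [Finsupp.zero_apply, map_zero]
    rw [h0, ev_zero_right, abs_zero]
    exact norm_nonneg x
  · obtain ⟨v, hv, hvx⟩ := exists_dual_vector'' ℝ (H.F.ι x)
    have h1 := hN.N1 (x, 0) v hv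
    rw [Th_X, hvx, LinearIsometry.norm_map] at h1
    exact (le_abs_self _).trans h1

end Pool.Agent.HI61
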