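import Pool.Agent.HI61.BasisGlue
import Pool.Agent.HI61.BlockB
import Pool.Agent.HI61.WNorm

/-!
# HI61/WBasis : the completed space has a Schauder basis

PROOF.  `basis_of_blocks` with `n l = (H.pel l).n`, `e l i = j (eb l (single i 1))`, `C = 30`.
`hQe`: `Q_j`, `Q_eb`.  `hrange`: `Q_range`.  `hne`: `eb_pos`, `norm_j`.
`hblock`: with the finitely supported `β' = ∑_{i<n} single i (β i)`:
`∑_{i<m} β i • e k i = j (eb k (β'.filter (· < m)))` (`eb_add`, `eb_smul`), `eb_trunc`.
`hinf`: `x ↦ j (x, 0)` is a linear isometry of `X` into `W` (`pW_X`), so if `W` were finite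
dimensional, so would be `X`.
-/

namespace Pool.Agent.HI61

variable {X V : Type} [NormedAddCommGroup X] [NormedSpace ℝ X]
  [NormedAddCommGroup V] [NormedSpace ℝ V]

theorem comp_infinite (H : Host X V) (pW : Seminorm ℝ (W0 X)) (hN : H.IsNorm pW) {W : Type}
    [NormedAddCommGroup W] [NormedSpace ℝ W] (Cm : Comp H pW W)
    (hX : ¬ FiniteDimensional ℝ X) : ¬ FiniteDimensional ℝ W := by
  intro hW
  apply hX
  have hinj : Function.Injective (Cm.j.comp (LinearMap.inl ℝ X (ℕ →₀ Eb X))) := by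
    rw [← LinearMap.ker_eq_bot, LinearMap.ker_eq_bot']
    intro x hx
    have h1 : ‖Cm.j ((x, 0) : W0 X)‖ = ‖x‖ := by
      rw [Cm.norm_j, pW_X H pW hN]
    have h2 : Cm.j ((x, 0) : W0 X) = 0 := hx
    rw [h2, norm_zero] at h1
    exact norm_eq_zero.1 h1.symm
  exact FiniteDimensional.of_injective _ hinj

/-- the linear map `β ↦ j (eb k β)` -/
private noncomputable def jeb (H : Host X V) (pW : Seminorm ℝ (W0 X)) {W : Type}
    [NormedAddCommGroup W] [NormedSpace ℝ W] (Cm : Comp H pW W) (k : ℕ) : (ℕ →₀ ℝ) →ₗ[ℝ] W where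
  toFun β := Cm.j (H.eb k β)
  map_add' β β' := by rw [eb_add, map_add]
  map_smul' c β := by rw [eb_smul, map_smul, RingHom.id_apply]

theorem comp_basis (H : Host X V) (pW : Seminorm ℝ (W0 X)) (hN : H.IsNorm pW) {W : Type}
    [NormedAddCommGroup W] [NormedSpace ℝ W] [CompleteSpace W] (Cm : Comp H pW W)
    (hX : ¬ FiniteDimensional ℝ X) : HasSchauderBasis W := by
  classical
  have hsum : ∀ (k : ℕ) (β : ℕ → ℝ) (m : ℕ),
      ∑ i ∈ Finset.range m, β i • Cm.j (H.eb k (Finsupp.single i 1)) =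
        Cm.j (H.eb k (∑ i ∈ Finset.range m, β i • Finsupp.single i (1 : ℝ))) := by
    intro k β m
    have h1 : Cm.j (H.eb k (∑ i ∈ Finset.range m, β i • Finsupp.single i (1 : ℝ))) =
        jeb H pW Cm k (∑ i ∈ Finset.range m, β i • Finsupp.single i (1 : ℝ)) := rfl
    rw [h1, map_sum]
    refine Finset.sum_congr rfl fun i _ => ?_
    rw [map_smul]
    rfl
  have hap : ∀ (β : ℕ → ℝ) (m i : ℕ),
      (∑ i ∈ Finset.range m, β i • Finsupp.single i (1 : ℝ)) i = if i < m then β i else 0 := by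
    intro β m i
    rw [Finsupp.finsetSum_apply]
    by_cases hi : i < m
    · rw [if_pos hi, Finset.sum_eq_single i]
      · rw [Finsupp.smul_apply, Finsupp.single_eq_same, smul_eq_mul, mul_one]
      · intro b _ hb
        rw [Finsupp.smul_apply, Finsupp.single_eq_of_ne (Ne.symm hb), smul_zero]
      · intro h
        exact absurd (Finset.mem_range.2 hi) h
    · rw [if_neg hi]
      refine Finset.sum_eq_zero fun b hb => ?_
      rw [Finsupp.smul_apply, Finsupp.single_eq_of_ne, smul_zero]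
      intro h
      rw [h] at hi
      exact hi (Finset.mem_range.1 hb)
  refine basis_of_blocks (fun l => (H.pel l).n)
    (fun l i => Cm.j (H.eb l (Finsupp.single i 1))) Cm.Q 30 Cm.Q_comp ?_ Cm.Q_lim Cm.Q_range ?_ ?_
    (comp_infinite H pW hN Cm hX)
  · intro k l i _
    show Cm.Q k (Cm.j (H.eb l (Finsupp.single i 1))) = _
    rw [Cm.Q_j, Q_eb]
    split_ifs
    · rfl
    · rw [map_zero]
  · intro l i hi h
    have h1 := Cm.norm_j (H.eb l (Finsupp.single i 1))
    have h2 : Cm.j (H.eb l (Finsupp.single i 1)) = 0 := h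
    rw [h2, norm_zero] at h1
    exact absurd h1.symm (eb_pos H pW hN l i hi).ne'
  · intro k β m hm
    show ‖∑ i ∈ Finset.range m, β i • Cm.j (H.eb k (Finsupp.single i 1))‖ ≤
      30 * ‖∑ i ∈ Finset.range (H.pel k).n, β i • Cm.j (H.eb k (Finsupp.single i 1))‖
    rw [hsum, hsum, Cm.norm_j, Cm.norm_j]
    have h1 : (∑ i ∈ Finset.range m, β i • Finsupp.single i (1 : ℝ)) =
        (∑ i ∈ Finset.range (H.pel k).n, β i • Finsupp.single i (1 : ℝ)).filter
          (fun i => i < m) := by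
      ext i
      rw [hap, Finsupp.filter_apply, hap]
      by_cases hi : i < m
      · rw [if_pos hi, if_pos hi, if_pos (lt_of_lt_of_le hi hm)]
      · rw [if_neg hi, if_neg hi]
    rw [h1]
    exact eb_trunc H pW hN k _ m

end Pool.Agent.HI61
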