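import Pool.Agent.HI61.WDefs3

/-!
# HI61/WNull : weakly null sequences in separable reflexive spaces

PROOF.  (1) If the dual `Z*` of a normed space `Z` is separable then `Z` is separable; applied to `Z = X*`: the dual of `X*`
is the image of the separable space `X` (reflexivity, `inclusionInDoubleDual` is continuous and surjective), so `X*` is
separable.  Proof of the general fact: let `(f_n)` be dense in the unit sphere of `Z*` (or: dense in `Z*`), choose `‖z_n‖ ≤ 1`
with `f_n z_n ≥ ‖f_n‖ / 2`; the closed span of the `z_n` is separable; if it were not `Z`, by Hahn-Banach there is `f ≠ 0`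
vanishing on all `z_n`; choose `n` with `‖f - f_n‖ < ‖f‖ / 4`; then `‖f_n‖/2 ≤ f_n z_n = (f_n - f) z_n < ‖f‖/4`, so
`‖f_n‖ < ‖f‖/2`, contradiction to `‖f_n‖ ≥ 3‖f‖/4`.
(2) Let `(f_i)` be dense in `X*`.  For every `m` the subspace `Y ⊓ ⋂_{i<m} ker f_i` has finite codimension in the infinite
dimensional `Y`, so it contains `x_m` with `‖x_m‖ = 1/2`.  Then `f_i (x_m) = 0` for `m > i` and by density and boundedness
`f (x_m) → 0` for every `f`.
-/

namespace Pool.Agent.HI61

open Filter Topology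

theorem exists_vanish {Z : Type*} [NormedAddCommGroup Z] [NormedSpace ℝ Z] (W : Submodule ℝ Z)
    (hW : IsClosed (W : Set Z)) (x : Z) (hx : x ∉ W) :
    ∃ f : StrongDual ℝ Z, f ≠ 0 ∧ ∀ w ∈ W, f w = 0 := by
  obtain ⟨f, u, h1, h2⟩ := geometric_hahn_banach_point_closed W.convex hW hx
  have h0 : ∀ w ∈ W, f w = 0 := by
    intro w hw
    by_contra hne
    have h3 := h2 (((u - 1) / f w) • w) (W.smul_mem _ hw)
    rw [map_smul, smul_eq_mul, div_mul_cancel₀ _ hne] at h3
    linarith
  refine ⟨f, ?_, h0⟩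
  rintro rfl
  have h3 := h2 0 W.zero_mem
  simp at h1 h3
  linarith

theorem separable_of_dual {Z : Type*} [NormedAddCommGroup Z] [NormedSpace ℝ Z]
    [TopologicalSpace.SeparableSpace (StrongDual ℝ Z)] : TopologicalSpace.SeparableSpace Z := by
  let f : ℕ → StrongDual ℝ Z := TopologicalSpace.denseSeq (StrongDual ℝ Z)
  have hz : ∀ n, ∃ z : Z, ‖z‖ ≤ 1 ∧ ‖f n‖ / 2 ≤ ‖f n z‖ := by
    intro n
    rcases (norm_nonneg (f n)).eq_or_lt with h | h
    · refine ⟨0, by simp, ?_⟩
      rw [← h]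
      simp
    · obtain ⟨z, hz1, hz2⟩ := (f n).exists_lt_apply_of_lt_opNorm (half_lt_self h)
      exact ⟨z, hz1.le, hz2.le⟩
  choose z hz1 hz2 using hz
  let W : Submodule ℝ Z := (Submodule.span ℝ (Set.range z)).topologicalClosure
  have hWtop : ∀ x : Z, x ∈ W := by
    intro x
    by_contra hx
    obtain ⟨g, hg0, hgW⟩ := exists_vanish W (Submodule.isClosed_topologicalClosure _) x hx
    have hgpos : 0 < ‖g‖ := norm_pos_iff.2 hg0
    obtain ⟨n, hn⟩ := (TopologicalSpace.denseRange_denseSeq (StrongDual ℝ Z)).exists_dist_lt g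
      (show 0 < ‖g‖ / 4 by positivity)
    have hn' : ‖g - f n‖ < ‖g‖ / 4 := by rw [← dist_eq_norm]; exact hn
    have hgz : g (z n) = 0 := hgW _ (Submodule.le_topologicalClosure _
      (Submodule.subset_span (Set.mem_range_self n)))
    have h1 : ‖f n (z n)‖ ≤ ‖g - f n‖ := by
      have h2 : f n (z n) = -((g - f n) (z n)) := by
        rw [sub_apply, hgz]
        ring
      rw [h2, norm_neg]
      calc ‖(g - f n) (z n)‖ ≤ ‖g - f n‖ * ‖z n‖ := (g - f n).le_opNorm _
        _ ≤ ‖g - f n‖ * 1 := mul_le_mul_of_nonneg_left (hz1 n) (norm_nonneg _)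
        _ = ‖g - f n‖ := mul_one _
    have h3 := hz2 n
    have h4 : ‖g‖ ≤ ‖g - f n‖ + ‖f n‖ := by
      calc ‖g‖ = ‖(g - f n) + f n‖ := by rw [sub_add_cancel]
        _ ≤ _ := norm_add_le _ _
    linarith
  have hsep : TopologicalSpace.IsSeparable (Set.univ : Set Z) := by
    have h1 : TopologicalSpace.IsSeparable ((Submodule.span ℝ (Set.range z) : Submodule ℝ Z) : Set Z) :=
      (Set.countable_range z).isSeparable.span
    have h2 := h1.closure
    have h3 : closure ((Submodule.span ℝ (Set.range z) : Submodule ℝ Z) : Set Z) = Set.univ := by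
      rw [← Submodule.topologicalClosure_coe]
      exact Set.eq_univ_of_forall hWtop
    rw [h3] at h2
    exact h2
  exact TopologicalSpace.isSeparable_univ_iff.1 hsep

theorem exists_wnull {X : Type*} [NormedAddCommGroup X] [NormedSpace ℝ X]
    [TopologicalSpace.SeparableSpace X] (hrefl : Reflexive' X) (Y : Submodule ℝ X)
    (hY : ¬ FiniteDimensional ℝ Y) :
    ∃ x : ℕ → X, (∀ m, x m ∈ Y) ∧ (∀ m, ‖x m‖ = 1 / 2) ∧
      ∀ f : X →L[ℝ] ℝ, Tendsto (fun m => f (x m)) atTop (𝓝 0) := by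
  have s1 : TopologicalSpace.SeparableSpace (StrongDual ℝ (StrongDual ℝ X)) :=
    (Function.Surjective.denseRange hrefl).separableSpace
      (NormedSpace.inclusionInDoubleDual ℝ X).continuous
  have s2 : TopologicalSpace.SeparableSpace (StrongDual ℝ X) := separable_of_dual
  let f : ℕ → StrongDual ℝ X := TopologicalSpace.denseSeq (StrongDual ℝ X)
  have hx : ∀ m : ℕ, ∃ x : X, x ∈ Y ∧ ‖x‖ = 1 / 2 ∧ ∀ i < m, f i x = 0 := by
    intro m
    let L : Y →ₗ[ℝ] (Fin m → ℝ) :=
      { toFun := fun y i => f i (y : X)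
        map_add' := fun y y' => by
          funext i
          exact map_add (f i) (y : X) (y' : X)
        map_smul' := fun c y => by
          funext i
          exact map_smul (f i) c (y : X) }
    have hL : ¬ Function.Injective L := fun h => hY (FiniteDimensional.of_injective L h)
    have hk : LinearMap.ker L ≠ ⊥ := fun h => hL (LinearMap.ker_eq_bot.1 h)
    obtain ⟨y, hy, hy0⟩ := Submodule.exists_mem_ne_zero_of_ne_bot hk
    have hy0' : (y : X) ≠ 0 := fun h => hy0 (Subtype.ext h)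
    have hyn : 0 < ‖(y : X)‖ := norm_pos_iff.2 hy0'
    refine ⟨(1 / 2 / ‖(y : X)‖) • (y : X), Y.smul_mem _ y.2, ?_, ?_⟩
    · rw [norm_smul, Real.norm_of_nonneg (by positivity), div_mul_cancel₀ _ hyn.ne']
    · intro i hi
      have h1 : L y = 0 := hy
      have h2 : f i (y : X) = 0 := congrFun h1 ⟨i, hi⟩
      rw [map_smul, h2, smul_zero]
  choose x hx1 hx2 hx3 using hx
  refine ⟨x, hx1, hx2, ?_⟩
  intro g
  rw [Metric.tendsto_atTop]
  intro ε hε
  obtain ⟨i, hi⟩ := (TopologicalSpace.denseRange_denseSeq (StrongDual ℝ X)).exists_dist_lt g hε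
  have hi' : ‖g - f i‖ < ε := by rw [← dist_eq_norm]; exact hi
  refine ⟨i + 1, fun m hm => ?_⟩
  have h1 : f i (x m) = 0 := hx3 m i (by omega)
  rw [dist_zero_right]
  have h2 : g (x m) = (g - f i) (x m) := by
    rw [sub_apply, h1, sub_zero]
  rw [h2]
  calc ‖(g - f i) (x m)‖ ≤ ‖g - f i‖ * ‖x m‖ := (g - f i).le_opNorm _
    _ = ‖g - f i‖ * (1 / 2) := by rw [hx2]
    _ ≤ ‖g - f i‖ := by linarith [norm_nonneg (g - f i)]
    _ < ε := hi'

end Pool.Agent.HI61
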