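import Pool.Agent.HI61.HIW
import Pool.Agent.HI61.WBasis
import Pool.Agent.HI61.CompEx
import Pool.Agent.HI61.HostEx
import Pool.Agent.HI61.FrameBuild
import Pool.Agent.HI61.CantorC
import Pool.Agent.HI61.Perturb
import Pool.Agent.HI61.WNull
import Pool.Agent.HI61.Spread
import Pool.Agent.HI61.SeqOf
import Pool.Agent.HI61.ParAssemble
import Pool.Agent.HI61.Transfer

/-!
# HI61/Final : assembly
-/

namespace Pool.Agent.HI61

open Finset Filter Topology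

/-- the case of a subspace of a space with good projections in which the vectors of finite type
are dense -/
theorem embed_core {X V : Type} [NormedAddCommGroup X] [NormedSpace ℝ X] [CompleteSpace X]
    [TopologicalSpace.SeparableSpace X] [NormedAddCommGroup V] [NormedSpace ℝ V]
    (hX : ¬ FiniteDimensional ℝ X) (hHI : HI X) (hrefl : Reflexive' X) (q c : ℝ) (hq : 1 ≤ q)
    (hc : 0 < c) (hcot : SignCotype X q c) (Y : Submodule ℝ X) (hY : ¬ FiniteDimensional ℝ Y)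
    (p C : ℝ) (hp : 1 < p) (htyp : SignType Y p C)
    (ι : X →ₗᵢ[ℝ] V) (Pn : ℕ → V →L[ℝ] V)
    (h1 : ∀ n v, ‖Pn n v‖ ≤ ‖v‖) (h2 : ∀ n m v, Pn n (Pn m v) = Pn (min n m) v)
    (h3 : ∀ v, Tendsto (fun n => Pn n v) atTop (𝓝 v))
    (h4 : ∀ n, FiniteDimensional ℝ (LinearMap.range (Pn n : V →ₗ[ℝ] V)))
    (hfin : Dense {x : X | ∃ n, Pn n (ι x) = ι x}) :
    ∃ (W : Type) (_ : NormedAddCommGroup W) (_ : NormedSpace ℝ W), CompleteSpace W ∧
      ¬ FiniteDimensional ℝ W ∧ HI W ∧ HasSchauderBasis W ∧ Nonempty (X →ₗᵢ[ℝ] W) := by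
  obtain ⟨x, hxY, hx1, hx0⟩ := exists_wnull hrefl Y hY
  obtain ⟨m, Φ, hm, hΦ1, hΦm, hsp⟩ := exists_spread x hx1 hx0
  obtain ⟨F, m', hFι, hm', hFb⟩ := exists_frame ι Pn h1 h2 h3 h4 hrefl hfin (fun k => x (m k))
    (fun k => (hx1 (m k)).le) (fun f => (hx0 f).comp hm.tendsto_atTop)
    (fun k => (1 / 2 : ℝ) ^ (k + 4)) (fun k => by positivity)
  have hsd := seqData_of Y (fun k => x (m k)) (fun k => hxY (m k)) Φ hΦ1 hΦm hsp m' hm' F.b
    F.b_le hFb q c p C hq hc hcot hp htyp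
  obtain ⟨P, hgood, hVS, hPq, hnst⟩ := exists_par q _ _ hsd (max 1 (38 / c))
    (le_trans zero_le_one (le_max_left _ _))
  obtain ⟨H, hHF, hHP⟩ := exists_host F P hgood hVS
  obtain ⟨pW, hN⟩ := exists_norm H
  obtain ⟨W, i1, i2, i3, ⟨Cm⟩⟩ := exists_comp H pW hN
  refine ⟨W, i1, i2, i3, comp_infinite H pW hN Cm hX, ?_, comp_basis H pW hN Cm hX, ?_⟩
  · have hcot' : SignCotype X H.P.q c := by rw [hHP, hPq]; exact hcot
    have hnst' : ∀ w : ℕ, (max 1 (38 / c) * (H.P.L (2 * w) : ℝ) ^ 2 *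
        (w + H.P.Bs w + 2)) ^ H.P.r ≤ H.P.nst w := by
      rw [hHP]; exact hnst
    exact comp_HI hrefl hN c hc hcot' (max 1 (38 / c)) (le_max_left _ _) (le_max_right _ _)
      hnst' Cm hHI
  · refine ⟨{ toLinearMap := Cm.j ∘ₗ LinearMap.inl ℝ X (ℕ →₀ Eb X), norm_map' := fun x => ?_ }⟩
    change ‖Cm.j (x, 0)‖ = ‖x‖
    rw [Cm.norm_j, pW_X H pW hN]

/-- Main theorem: a separable reflexive HI space with finite (equal norm, sign) cotype which has
an infinite dimensional subspace with non-trivial (equal norm, sign) type embeds into an HI space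
with a Schauder basis. -/
theorem embed_main {X₀ : Type*} [NormedAddCommGroup X₀] [NormedSpace ℝ X₀] [CompleteSpace X₀]
    [TopologicalSpace.SeparableSpace X₀]
    (hX : ¬ FiniteDimensional ℝ X₀) (hHI : HI X₀) (hrefl : Reflexive' X₀) (q c : ℝ) (hq : 1 ≤ q)
    (hc : 0 < c) (hcot : SignCotype X₀ q c) (Y : Submodule ℝ X₀)
    (hY : ¬ FiniteDimensional ℝ Y) (p C : ℝ) (hp : 1 < p) (htyp : SignType Y p C) :
    ∃ (W : Type) (_ : NormedAddCommGroup W) (_ : NormedSpace ℝ W), CompleteSpace W ∧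
      ¬ FiniteDimensional ℝ W ∧ HI W ∧ HasSchauderBasis W ∧
      ∃ (T : X₀ →L[ℝ] W) (δ : ℝ), 0 < δ ∧ ∀ x, δ * ‖x‖ ≤ ‖T x‖ := by
  obtain ⟨ι₀⟩ := embed_C X₀
  obtain ⟨Pn, h1, h2, h3, h4⟩ := cantor_proj
  obtain ⟨A, hA⟩ := perturb ι₀ Pn h2 h3
  -- the image
  let g : X₀ →L[ℝ] C(ℕ → Bool, ℝ) := (A : C(ℕ → Bool, ℝ) →L[ℝ] C(ℕ → Bool, ℝ)).comp
    ι₀.toContinuousLinearMap
  have hg : ∀ x, g x = A (ι₀ x) := fun x => rfl
  have hanti : ∃ K : NNReal, AntilipschitzWith K g := ⟨_, A.antilipschitz.comp ι₀.antilipschitz⟩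
  obtain ⟨K, hK⟩ := hanti
  have hinj : Function.Injective g := hK.injective
  have hcl : IsClosed (Set.range g) := hK.isClosed_range g.uniformContinuous
  obtain ⟨X, e, he⟩ : ∃ (X : Submodule ℝ C(ℕ → Bool, ℝ)) (e : X₀ ≃L[ℝ] X),
      ∀ x, ((e x : X) : C(ℕ → Bool, ℝ)) = g x :=
    ⟨_, g.equivRange hinj hcl, fun _ => rfl⟩
  have : CompleteSpace X := (completeSpace_congr (e := e.toEquiv) e.isUniformEmbedding).1 inferInstance
  have : TopologicalSpace.SeparableSpace X := by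
    infer_instance
  have hXfd : ¬ FiniteDimensional ℝ X := fun h =>
    hX (LinearEquiv.finiteDimensional e.toLinearEquiv.symm)
  obtain ⟨c', hc', hcot'⟩ := signCotype_congr (X := X₀) (Y := X) e q c hc hcot
  obtain ⟨Y', C', htyp', hY'⟩ := signType_congr (X := X₀) (Y := X) e Y p C htyp
  have hfin : Dense {x : X | ∃ n, Pn n (X.subtypeₗᵢ x) = X.subtypeₗᵢ x} := by
    have := e.surjective.denseRange.dense_image e.continuous hA
    refine this.mono ?_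
    rintro _ ⟨x, ⟨n, hn⟩, rfl⟩
    refine ⟨n, ?_⟩
    change Pn n ((e x : X) : C(ℕ → Bool, ℝ)) = ((e x : X) : C(ℕ → Bool, ℝ))
    rw [he, hg, hn]
  obtain ⟨W, i1, i2, i3, h5, h6, h7, ⟨T⟩⟩ := embed_core hXfd (HI_congr (X := X₀) (Y := X) e hHI)
    (reflexive_congr (X := X₀) (Y := X) e hrefl) q c' hq hc' hcot' Y' (hY' hY) p C' hp htyp' X.subtypeₗᵢ Pn h1 h2 h3
    h4 hfin
  refine ⟨W, i1, i2, i3, h5, h6, h7, T.toContinuousLinearMap.comp (e : X₀ →L[ℝ] X), ?_⟩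
  refine ⟨1 / (K + 1), by positivity, fun x => ?_⟩
  have h8 := hK.le_mul_dist x 0
  rw [map_zero, dist_zero_right, dist_zero_right] at h8
  have h9 : ‖(T.toContinuousLinearMap.comp (e : X₀ →L[ℝ] X)) x‖ = ‖g x‖ := by
    change ‖T (e x)‖ = _
    rw [T.norm_map, ← he]
    rfl
  rw [h9, one_div, inv_mul_le_iff₀ (by positivity)]
  nlinarith [norm_nonneg (g x)]

end Pool.Agent.HI61
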