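import Pool.Agent.HI61.WDefs2

/-!
# HI61/HICrit : HI spaces and the distance of unit spheres

PROOFS.
`HI_of_close`: suppose `Y = Z₀ ⊔ Z₁` closed, `Z₀ ⊓ Z₁ = ⊥`, both closed.  In the Banach space `Y` the
subspaces `Z₀, Z₁` are closed complements, so the projection of `Y` onto `Z₀` along `Z₁` is bounded
(closed graph: `Submodule.linearProjOfClosedCompl`, `IsCompl`, or the open mapping theorem for
`Z₀ × Z₁ → Y`): `‖z₀‖ ≤ C ‖z₀ - z₁‖`.  Take `δ = 1 / (C + 1)` in the hypothesis: contradiction.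
`close_of_HI`: otherwise there is `δ > 0` with `‖y₁ - y₂‖ ≥ δ ‖y₁‖` for all `y₁ ∈ Y₁`, `y₂ ∈ Y₂` (homogeneity).  So
`Y₁ ⊓ Y₂ = ⊥`, and `Y = Y₁ ⊔ Y₂` is closed: if `y₁ⁿ + y₂ⁿ` converges then `‖y₁ⁿ - y₁ᵐ‖ ≤ δ⁻¹ ‖(y₁ⁿ + y₂ⁿ) - (y₁ᵐ + y₂ᵐ)‖`, so
`y₁ⁿ` is Cauchy and converges in `Y₁`, and then `y₂ⁿ` converges in `Y₂`.  `Y` is infinite dimensional.
-/

namespace Pool.Agent.HI61

theorem HI_of_close {W : Type*} [NormedAddCommGroup W] [NormedSpace ℝ W] [CompleteSpace W]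
    (h : ∀ U₁ U₂ : Submodule ℝ W, IsClosed (U₁ : Set W) → IsClosed (U₂ : Set W) →
      ¬ FiniteDimensional ℝ U₁ → ¬ FiniteDimensional ℝ U₂ → ∀ δ : ℝ, 0 < δ →
      ∃ u₁ ∈ U₁, ∃ u₂ ∈ U₂, ‖u₁‖ = 1 ∧ ‖u₁ - u₂‖ < δ) : HI W := by
  intro Y hY hYinf
  rintro ⟨Z₀, Z₁, hc0, hc1, hi0, hi1, hbot, hsup⟩
  have : CompleteSpace Z₀ := hc0.completeSpace_coe
  have : CompleteSpace Z₁ := hc1.completeSpace_coe
  have : CompleteSpace Y := hY.completeSpace_coe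
  have hle0 : Z₀ ≤ Y := hsup ▸ le_sup_left
  have hle1 : Z₁ ≤ Y := hsup ▸ le_sup_right
  let L0 : (Z₀ × Z₁) →L[ℝ] W :=
    Z₀.subtypeL.comp (ContinuousLinearMap.fst ℝ Z₀ Z₁) -
      Z₁.subtypeL.comp (ContinuousLinearMap.snd ℝ Z₀ Z₁)
  have hL0 : ∀ z : Z₀ × Z₁, L0 z = (z.1 : W) - (z.2 : W) := fun z => rfl
  let L : (Z₀ × Z₁) →L[ℝ] Y := L0.codRestrict Y (fun z => by
    rw [hL0]
    exact Y.sub_mem (hle0 z.1.2) (hle1 z.2.2))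
  have hL : ∀ z : Z₀ × Z₁, ((L z : Y) : W) = (z.1 : W) - (z.2 : W) := fun z => rfl
  have hsurj : Function.Surjective L := by
    rintro ⟨y, hy⟩
    rw [← hsup, Submodule.mem_sup] at hy
    obtain ⟨a, ha, b, hb, rfl⟩ := hy
    refine ⟨(⟨a, ha⟩, ⟨-b, Z₁.neg_mem hb⟩), ?_⟩
    apply Subtype.ext
    rw [hL]
    simp
  obtain ⟨C, hC, hC2⟩ := L.exists_preimage_norm_le hsurj
  obtain ⟨u₁, hu₁, u₂, hu₂, hn, hlt⟩ := h Z₀ Z₁ hc0 hc1 hi0 hi1 (1 / (C + 1)) (by positivity)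
  obtain ⟨z, hz, hz2⟩ := hC2 ⟨u₁ - u₂, Y.sub_mem (hle0 hu₁) (hle1 hu₂)⟩
  have h1 : (z.1 : W) - (z.2 : W) = u₁ - u₂ := by
    rw [← hL, hz]
  have h2 : (z.1 : W) - u₁ ∈ Z₀ ⊓ Z₁ := by
    refine ⟨Z₀.sub_mem z.1.2 hu₁, ?_⟩
    have : (z.1 : W) - u₁ = (z.2 : W) - u₂ := by
      rw [sub_eq_sub_iff_add_eq_add] at h1 ⊢
      rw [h1, add_comm]
    rw [this]
    exact Z₁.sub_mem z.2.2 hu₂
  rw [hbot, Submodule.mem_bot, sub_eq_zero] at h2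
  have h3 : ‖u₁‖ ≤ C * ‖u₁ - u₂‖ := by
    calc ‖u₁‖ = ‖z.1‖ := by rw [← h2]; rfl
      _ ≤ ‖z‖ := norm_fst_le z
      _ ≤ C * ‖u₁ - u₂‖ := hz2
  rw [hn] at h3
  have h4 : C * ‖u₁ - u₂‖ ≤ C * (1 / (C + 1)) := mul_le_mul_of_nonneg_left hlt.le hC.le
  have h5 : C * (1 / (C + 1)) < 1 := by
    rw [mul_one_div, div_lt_one (by positivity)]
    linarith
  linarith

theorem close_of_HI {X : Type*} [NormedAddCommGroup X] [NormedSpace ℝ X] [CompleteSpace X]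
    (hX : HI X) (Y₁ Y₂ : Submodule ℝ X) (h1 : IsClosed (Y₁ : Set X)) (h2 : IsClosed (Y₂ : Set X))
    (h1' : ¬ FiniteDimensional ℝ Y₁) (h2' : ¬ FiniteDimensional ℝ Y₂) (δ : ℝ) (hδ : 0 < δ) :
    ∃ y₁ ∈ Y₁, ∃ y₂ ∈ Y₂, ‖y₁‖ = 1 ∧ ‖y₁ - y₂‖ < δ := by
  by_contra hcon
  push Not at hcon
  have key : ∀ y₁ ∈ Y₁, ∀ y₂ ∈ Y₂, δ * ‖y₁‖ ≤ ‖y₁ - y₂‖ := by
    intro y₁ hy₁ y₂ hy₂
    rcases eq_or_ne y₁ 0 with rfl | hne
    · simp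
    · have hn : 0 < ‖y₁‖ := norm_pos_iff.2 hne
      have h3 := hcon (‖y₁‖⁻¹ • y₁) (Y₁.smul_mem _ hy₁) (‖y₁‖⁻¹ • y₂) (Y₂.smul_mem _ hy₂)
        (by rw [norm_smul, norm_inv, norm_norm, inv_mul_cancel₀ hn.ne'])
      rw [← smul_sub, norm_smul, norm_inv, norm_norm, inv_mul_eq_div, le_div_iff₀ hn] at h3
      exact h3
  have : CompleteSpace Y₁ := h1.completeSpace_coe
  have : CompleteSpace Y₂ := h2.completeSpace_coe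
  let L : (Y₁ × Y₂) →L[ℝ] X :=
    Y₁.subtypeL.comp (ContinuousLinearMap.fst ℝ Y₁ Y₂) +
      Y₂.subtypeL.comp (ContinuousLinearMap.snd ℝ Y₁ Y₂)
  have hL : ∀ z : Y₁ × Y₂, L z = (z.1 : X) + (z.2 : X) := fun z => rfl
  have hb : ∀ z : Y₁ × Y₂, ‖z‖ ≤ (⟨1 + δ⁻¹, by positivity⟩ : NNReal) * ‖L z‖ := by
    intro z
    have h3 := key z.1 z.1.2 (-(z.2 : X)) (Y₂.neg_mem z.2.2)
    rw [sub_neg_eq_add, ← hL] at h3
    have h4 : ‖(z.1 : X)‖ ≤ δ⁻¹ * ‖L z‖ := by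
      rw [inv_mul_eq_div, le_div_iff₀ hδ, mul_comm]
      exact h3
    have h5 : ‖(z.2 : X)‖ ≤ ‖L z‖ + ‖(z.1 : X)‖ := by
      have : (z.2 : X) = L z - (z.1 : X) := by rw [hL]; abel
      calc ‖(z.2 : X)‖ = ‖L z - (z.1 : X)‖ := by rw [← this]
        _ ≤ _ := norm_sub_le _ _
    have h6 := norm_nonneg (L z)
    have h7 : ((⟨1 + δ⁻¹, by positivity⟩ : NNReal) : ℝ) = 1 + δ⁻¹ := rfl
    rw [h7, Prod.norm_def, max_le_iff]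
    constructor
    · change ‖(z.1 : X)‖ ≤ _
      linarith
    · change ‖(z.2 : X)‖ ≤ _
      linarith
  have hcl : IsClosed (Set.range L) :=
    (L.antilipschitz_of_bound hb).isClosed_range L.uniformContinuous
  have hr : Set.range L = ((Y₁ ⊔ Y₂ : Submodule ℝ X) : Set X) := by
    ext x
    constructor
    · rintro ⟨z, rfl⟩
      rw [hL]
      exact Submodule.add_mem_sup z.1.2 z.2.2
    · intro hx
      obtain ⟨a, ha, b, hb', rfl⟩ := Submodule.mem_sup.1 hx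
      exact ⟨(⟨a, ha⟩, ⟨b, hb'⟩), rfl⟩
  rw [hr] at hcl
  refine hX (Y₁ ⊔ Y₂) hcl (fun hf => h1' ?_) ⟨Y₁, Y₂, h1, h2, h1', h2', ?_, rfl⟩
  · exact Submodule.finiteDimensional_of_le (le_sup_left : Y₁ ≤ Y₁ ⊔ Y₂)
  · rw [Submodule.eq_bot_iff]
    intro x hx
    have h3 := key x hx.1 x hx.2
    rw [sub_self, norm_zero] at h3
    have h4 : ‖x‖ ≤ 0 := by
      by_contra h5
      push Not at h5
      have := mul_pos hδ h5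
      linarith
    exact norm_le_zero_iff.1 h4

end Pool.Agent.HI61
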