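import Pool.Agent.HI61.Contra
import Pool.Agent.HI61.FarExt
import Pool.Agent.HI61.CloseSub
import Pool.Agent.HI61.HICrit
import Pool.Agent.HI61.WNorm

/-!
# HI61/HIW : the completed space is hereditarily indecomposable

PROOF.  `T x = j (x, 0)` is a linear isometry (`pW_X`); `X' = range T` is closed (`X` is complete).
By `exists_farSeq` and `no_farSeq`: for every closed infinite dimensional `U ≤ W` and `c > 0` there are
`u ∈ U`, `x` with `‖u - T x‖ < c ‖u‖`.  `HI_of_close`: let `U₁, U₂`, `δ` be given (`δ ≤ 1`).  By `close_subspace`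
(`Q`, `C = 6`; finite rank by `Q_range`) there are closed infinite dimensional `Y_i ≤ X'` such that every `y ∈ Y_i` is
within `(δ/8) ‖y‖` of `U_i`.  The preimages of `Y_i` under `T` are closed infinite dimensional
subspaces of `X`, so by `close_of_HI` there are `y_i ∈ Y_i` with `‖y₁‖ = 1`, `‖y₁ - y₂‖ < δ/8`.  Choose `u_i ∈ U_i`
with `‖y_i - u_i‖ ≤ (δ/8) ‖y_i‖ ≤ δ/4`; `‖u₁ - u₂‖ ≤ 3δ/8 + δ/8`, `‖u₁‖ ≥ 7/8`; normalize `u₁` (divide both by `‖u₁‖`).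
-/

namespace Pool.Agent.HI61

open Finset

variable {X V : Type} [NormedAddCommGroup X] [NormedSpace ℝ X] [CompleteSpace X]
  [NormedAddCommGroup V] [NormedSpace ℝ V]

/-- the embedding of `X` into the completed space -/
private noncomputable def emb {H : Host X V} {pW : Seminorm ℝ (W0 X)} (hN : H.IsNorm pW)
    {W : Type} [NormedAddCommGroup W] [NormedSpace ℝ W] (Cm : Comp H pW W) : X →ₗᵢ[ℝ] W where
  toLinearMap := Cm.j ∘ₗ LinearMap.inl ℝ X (ℕ →₀ Eb X)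
  norm_map' x := by
    show ‖Cm.j (x, 0)‖ = ‖x‖
    rw [Cm.norm_j, pW_X H pW hN]

private theorem Q_fin {H : Host X V} {pW : Seminorm ℝ (W0 X)}
    {W : Type} [NormedAddCommGroup W] [NormedSpace ℝ W] (Cm : Comp H pW W) (k : ℕ) :
    FiniteDimensional ℝ (LinearMap.range (Cm.Q k : W →ₗ[ℝ] W)) := by
  have hfin : {y | ∃ l i, l ≤ k ∧ i < (H.pel l).n ∧
      y = Cm.j (H.eb l (Finsupp.single i 1))}.Finite := by
    have h1 : (⋃ l ∈ Finset.range (k + 1), ⋃ i ∈ Finset.range (H.pel l).n,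
        ({Cm.j (H.eb l (Finsupp.single i 1))} : Set W)).Finite := by
      refine Set.Finite.biUnion (Finset.finite_toSet _) fun l _ => ?_
      exact Set.Finite.biUnion (Finset.finite_toSet _) fun i _ => Set.finite_singleton _
    refine h1.subset ?_
    rintro y ⟨l, i, hl, hi, rfl⟩
    simp only [Set.mem_iUnion]
    exact ⟨l, Finset.mem_range.2 (by omega), i, Finset.mem_range.2 hi, rfl⟩
  have : FiniteDimensional ℝ (Submodule.span ℝ {y | ∃ l i, l ≤ k ∧ i < (H.pel l).n ∧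
      y = Cm.j (H.eb l (Finsupp.single i 1))}) := FiniteDimensional.span_of_finite ℝ hfin
  refine Submodule.finiteDimensional_of_le (S₂ := Submodule.span ℝ
    {y | ∃ l i, l ≤ k ∧ i < (H.pel l).n ∧ y = Cm.j (H.eb l (Finsupp.single i 1))}) ?_
  rintro y ⟨x, rfl⟩
  exact Cm.Q_range k x

theorem comp_HI {H : Host X V} (hrefl : Reflexive' X) {pW : Seminorm ℝ (W0 X)}
    (hN : H.IsNorm pW) (c0 : ℝ) (hc0 : 0 < c0) (hcot : SignCotype X H.P.q c0) (Ct : ℝ)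
    (hCt : 1 ≤ Ct) (hCt2 : 38 / c0 ≤ Ct)
    (hnst : ∀ w : ℕ, (Ct * (H.P.L (2 * w) : ℝ) ^ 2 * (w + H.P.Bs w + 2)) ^ H.P.r ≤ H.P.nst w)
    {W : Type} [NormedAddCommGroup W] [NormedSpace ℝ W] [CompleteSpace W] (Cm : Comp H pW W)
    (hHI : HI X) : HI W := by
  obtain ⟨T, hT⟩ : ∃ T : X →ₗᵢ[ℝ] W, T = emb hN Cm := ⟨_, rfl⟩
  have hTj : ∀ x, T x = Cm.j (x, 0) := by
    intro x
    rw [hT]
    rfl
  obtain ⟨X', hX'⟩ : ∃ X' : Submodule ℝ W, X' = LinearMap.range T.toLinearMap := ⟨_, rfl⟩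
  have hX'c : IsClosed (X' : Set W) := by
    have h1 := T.isometry.isClosedEmbedding.isClosed_range
    have h2 : (X' : Set W) = Set.range T := by
      rw [hX']
      rfl
    rw [h2]
    exact h1
  have hfar : ∀ U : Submodule ℝ W, IsClosed (U : Set W) → ¬ FiniteDimensional ℝ U →
      ∀ c : ℝ, 0 < c → ∃ u ∈ U, ∃ x ∈ X', ‖u - x‖ < c * ‖u‖ := by
    intro U hU hUinf c hc
    by_contra hcon
    push Not at hcon
    obtain ⟨Fs⟩ := exists_farSeq H hrefl pW hN Cm U hU hUinf c hc (fun u hu x =>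
      hcon u hu (Cm.j (x, 0)) (by
        rw [hX', ← hTj]
        exact ⟨x, rfl⟩))
    exact no_farSeq hrefl hN c0 hc0 hcot Ct hCt hCt2 hnst Fs
  have hclose : ∀ U : Submodule ℝ W, IsClosed (U : Set W) → ¬ FiniteDimensional ℝ U →
      ∀ δ : ℝ, 0 < δ → ∃ Z : Submodule ℝ X, IsClosed (Z : Set X) ∧ ¬ FiniteDimensional ℝ Z ∧
        ∀ z ∈ Z, ∃ u ∈ U, ‖T z - u‖ ≤ δ * ‖z‖ := by
    intro U hU hUinf δ hδ
    obtain ⟨Y, hYX, hYc, hYinf, hY⟩ := close_subspace Cm.Q 6 Cm.Q_le Cm.Q_comp Cm.Q_lim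
      (fun k => Q_fin Cm k) X' U hX'c hU hUinf
      (fun U' _ h1 h2 c hc => hfar U' h1 h2 c hc) δ hδ
    refine ⟨Y.comap T.toLinearMap, ?_, ?_, ?_⟩
    · have h1 : ((Y.comap T.toLinearMap : Submodule ℝ X) : Set X) = T ⁻¹' (Y : Set W) := rfl
      rw [h1]
      exact hYc.preimage T.continuous
    · intro hfd
      apply hYinf
      have h1 : Y = (Y.comap T.toLinearMap).map T.toLinearMap := by
        rw [Submodule.map_comap_eq, ← hX']
        exact (inf_eq_right.2 hYX).symm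
      rw [h1]
      infer_instance
    · intro z hz
      obtain ⟨u, hu, h1⟩ := hY (T z) hz
      rw [T.norm_map] at h1
      exact ⟨u, hu, h1⟩
  refine HI_of_close fun U₁ U₂ hU₁ hU₂ hi₁ hi₂ δ hδ => ?_
  obtain ⟨δ', hδ'⟩ : ∃ δ', δ' = min δ 1 := ⟨_, rfl⟩
  have hd0 : 0 < δ' := by rw [hδ']; exact lt_min hδ one_pos
  have hd1 : δ' ≤ 1 := by rw [hδ']; exact min_le_right _ _
  have hd2 : δ' ≤ δ := by rw [hδ']; exact min_le_left _ _
  obtain ⟨Z₁, hZ₁, hf₁, h₁⟩ := hclose U₁ hU₁ hi₁ (δ' / 8) (by positivity)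
  obtain ⟨Z₂, hZ₂, hf₂, h₂⟩ := hclose U₂ hU₂ hi₂ (δ' / 8) (by positivity)
  obtain ⟨y₁, hy₁, y₂, hy₂, hn, hd⟩ := close_of_HI hHI Z₁ Z₂ hZ₁ hZ₂ hf₁ hf₂ (δ' / 8)
    (by positivity)
  obtain ⟨u₁, hu₁, e₁⟩ := h₁ y₁ hy₁
  obtain ⟨u₂, hu₂, e₂⟩ := h₂ y₂ hy₂
  have hn2 : ‖y₂‖ ≤ 2 := by
    have h3 : ‖y₂‖ ≤ ‖y₁‖ + ‖y₁ - y₂‖ := by
      have h4 := norm_sub_le y₁ (y₁ - y₂)
      rwa [sub_sub_cancel] at h4
    linarith
  rw [hn, mul_one] at e₁
  have e₂' : ‖T y₂ - u₂‖ ≤ δ' / 4 := by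
    refine e₂.trans ?_
    have h3 := mul_le_mul_of_nonneg_left hn2 (show 0 ≤ δ' / 8 by positivity)
    linarith
  have e3 : ‖T y₁ - T y₂‖ < δ' / 8 := by
    rw [← map_sub, T.norm_map]
    exact hd
  have e4 : ‖u₁ - u₂‖ < δ' / 2 := by
    have h3 : u₁ - u₂ = -(T y₁ - u₁) + (T y₁ - T y₂) + (T y₂ - u₂) := by abel
    rw [h3]
    have h4 := norm_add_le (-(T y₁ - u₁) + (T y₁ - T y₂)) (T y₂ - u₂)
    have h5 := norm_add_le (-(T y₁ - u₁)) (T y₁ - T y₂)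
    rw [norm_neg] at h5
    linarith
  have e5 : 7 / 8 ≤ ‖u₁‖ := by
    have h3 : ‖T y₁‖ ≤ ‖T y₁ - u₁‖ + ‖u₁‖ := by
      have h4 := norm_add_le (T y₁ - u₁) u₁
      rwa [sub_add_cancel] at h4
    rw [T.norm_map, hn] at h3
    linarith
  have hu0 : 0 < ‖u₁‖ := by linarith
  refine ⟨‖u₁‖⁻¹ • u₁, U₁.smul_mem _ hu₁, ‖u₁‖⁻¹ • u₂, U₂.smul_mem _ hu₂, ?_, ?_⟩
  · rw [norm_smul, norm_inv, norm_norm, inv_mul_cancel₀ hu0.ne']
  · rw [← smul_sub, norm_smul, norm_inv, norm_norm, inv_mul_lt_iff₀ hu0]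
    have h3 : 7 / 8 * δ ≤ ‖u₁‖ * δ := mul_le_mul_of_nonneg_right e5 hδ.le
    linarith

end Pool.Agent.HI61
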