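import Pool.Agent.HI61.TreeBasic

/-!
# HI61/HeavyChains : the heavy set is a union of at most `C j` chains

PROOFS.
`heavy_suffix`: if `t` is heavy with `s'` and `s <:+ t`, `s ≠ []`, then `s` is in the tree
(`tree_suffix`) and `mass s s' ≥ mass t s'` (more terms).
`antichain`: let `t_0, ..., t_{n-1}` be heavy and pairwise incomparable for `<:+`, with `s_a ⊇ t_a`,
`mass t_a s_a ≥ th`.  `D a = {code u | t_a <:+ u <:+ s_a}`.  These sets are pairwise disjoint: a
common `u` (codes are injective) has both `t_a` and `t_b` as suffixes, so they are comparable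
(`List.suffix_or_suffix_of_suffix`).  `#D a ≤ ell j` (the `u` have different lengths in
`[1, s_a.length]`), all elements are `≥ base j`, `∑_{D a} |v| = mass ≥ th`.  So `n ≤ C j` by `hv`.
`heavy_chains`: let `Mx` be the set of the heavy `t` which are not proper suffixes of a heavy node.
`Mx` is an antichain, so it has at most `C j` elements (an infinite or larger set would contain
`C j + 1` of them).  Lengths of nodes are at most `ell j`, so every heavy node is a suffix of an element
of `Mx`.  `heavy_finite`: subset of the union of the sets of the suffixes of the elements of `S`.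
`co_atom`: `v`, the set `S` of `heavy_chains`.
`light_tail`: if `T0.filter (· <:+ s)` is empty the sum is `0 ≤ th`.  Otherwise let `t0` be its shortest and
`t1` its longest element; all the elements `u` of the filter satisfy `t0 <:+ u <:+ t1` (suffixes of
the same list `s`).  As `t0` is not heavy and `t1` is in the tree, `mass t0 t1 < th`, and the sum is
at most `mass t0 t1`.
-/

namespace Pool.Agent.HI61

open Finset
open scoped Classical

theorem heavy_suffix {P : Par} {j : ℕ} {v : ℕ → ℝ} {s t : List Fn} (h : Heavy P j v t)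
    (hs : s <:+ t) (hne : s ≠ []) : Heavy P j v s := by
  obtain ⟨ht, s', hs', hts', hm⟩ := h
  refine ⟨tree_suffix ht hs hne, s', hs', hs.trans hts', hm.trans ?_⟩
  unfold mass
  refine Finset.sum_le_sum_of_subset_of_nonneg (fun u hu => ?_) fun _ _ _ => abs_nonneg _
  rw [Finset.mem_filter] at hu ⊢
  exact ⟨hu.1, hs.trans hu.2⟩

/-- two suffixes of a list with the same length are equal -/
private theorem suffix_eq {s t u : List Fn} (hs : s <:+ u) (ht : t <:+ u)
    (h : s.length = t.length) : s = t :=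
  (List.suffix_of_suffix_length_le hs ht h.le).eq_of_length h

/-- the set of the codes of the nodes between `t` and `s` -/
private noncomputable def Dset (P : Par) (j : ℕ) (t s : List Fn) : Finset ℕ :=
  (s.tails.toFinset.filter (fun u => t <:+ u)).image (P.code j)

private theorem mem_Dset {P : Par} {j : ℕ} {t s : List Fn} {k : ℕ} :
    k ∈ Dset P j t s ↔ ∃ u, t <:+ u ∧ u <:+ s ∧ P.code j u = k := by
  unfold Dset
  rw [Finset.mem_image]
  constructor
  · rintro ⟨u, hu, rfl⟩
    rw [Finset.mem_filter, List.mem_toFinset, List.mem_tails] at hu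
    exact ⟨u, hu.2, hu.1, rfl⟩
  · rintro ⟨u, h1, h2, rfl⟩
    refine ⟨u, ?_, rfl⟩
    rw [Finset.mem_filter, List.mem_toFinset, List.mem_tails]
    exact ⟨h2, h1⟩

private theorem Dset_sum {P : Par} {j : ℕ} {t s : List Fn} (v : ℕ → ℝ) :
    ∑ k ∈ Dset P j t s, |v k| = mass P j v t s := by
  unfold Dset mass
  rw [Finset.sum_image fun x _ y _ h => code_inj P j h]

private theorem Dset_card {P : Par} {j : ℕ} {t s : List Fn} (ht : t ≠ []) :
    (Dset P j t s).card ≤ s.length := by
  refine Finset.card_image_le.trans ?_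
  have h := Finset.card_le_card_of_injOn (s := s.tails.toFinset.filter (fun u => t <:+ u))
    (t := Finset.Icc 1 s.length) (fun u => u.length) (fun u hu => by
      rw [Finset.mem_coe, Finset.mem_filter, List.mem_toFinset, List.mem_tails] at hu
      rw [Finset.mem_coe, Finset.mem_Icc]
      have h1 := hu.2.length_le
      have h2 := List.length_pos_iff.2 ht
      show 1 ≤ u.length ∧ u.length ≤ s.length
      exact ⟨by omega, hu.1.length_le⟩) (fun x hx y hy h => by
      rw [Finset.mem_coe, Finset.mem_filter, List.mem_toFinset, List.mem_tails] at hx hy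
      exact suffix_eq hx.1 hy.1 h)
  rw [Nat.card_Icc] at h
  omega

/-- a finite antichain of heavy nodes has at most `C j` elements -/
private theorem antichain {P : Par} (hG : Good P) (j : ℕ) (v : ℕ → ℝ) (hv : v ∈ P.VS)
    (T : Finset (List Fn)) (hT : ∀ t ∈ T, Heavy P j v t)
    (ha : ∀ s ∈ T, ∀ t ∈ T, s <:+ t → s = t) : T.card ≤ P.C j := by
  have hT' : ∀ a : Fin T.card, ∃ s, Tree P j s ∧ (T.equivFin.symm a : List Fn) <:+ s ∧
      P.th j ≤ mass P j v (T.equivFin.symm a : List Fn) s := fun a =>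
    (hT _ (T.equivFin.symm a).2).2
  choose s hs hts hms using hT'
  refine hG.hv j v hv T.card (fun a => Dset P j (T.equivFin.symm a : List Fn) (s a))
    (fun a b hab => ?_) (fun a => ?_) (fun a k hk => ?_) fun a => ?_
  · rw [Finset.disjoint_left]
    intro k h1 h2
    obtain ⟨u, u1, u2, u3⟩ := mem_Dset.1 h1
    obtain ⟨w, w1, w2, w3⟩ := mem_Dset.1 h2
    have e : u = w := code_inj P j (u3.trans w3.symm)
    subst e
    rcases List.suffix_or_suffix_of_suffix u1 w1 with h | h
    · have h3 := ha _ (T.equivFin.symm a).2 _ (T.equivFin.symm b).2 h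
      exact hab (T.equivFin.symm.injective (Subtype.ext h3))
    · have h3 := ha _ (T.equivFin.symm b).2 _ (T.equivFin.symm a).2 h
      exact hab (T.equivFin.symm.injective (Subtype.ext h3)).symm
  · exact (Dset_card (hT _ (T.equivFin.symm a).2).1.1.1).trans (hs a).1.2.1
  · obtain ⟨u, -, -, rfl⟩ := mem_Dset.1 hk
    exact base_le_code P j u
  · rw [Dset_sum]
    exact hms a

theorem heavy_chains {P : Par} (hG : Good P) (j : ℕ) (v : ℕ → ℝ) (hv : v ∈ P.VS) :
    ∃ S : Finset (List Fn), S.card ≤ P.C j ∧ (∀ s ∈ S, Heavy P j v s) ∧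
      ∀ t, Heavy P j v t → ∃ s ∈ S, t <:+ s := by
  obtain ⟨Mx, hMx⟩ : ∃ Mx : Set (List Fn), Mx = {t | Heavy P j v t ∧
    ∀ s, Heavy P j v s → t <:+ s → t = s} := ⟨_, rfl⟩
  have hmem : ∀ t, t ∈ Mx ↔ Heavy P j v t ∧ ∀ s, Heavy P j v s → t <:+ s → t = s := by
    intro t
    rw [hMx]
    rfl
  have hanti : ∀ T : Finset (List Fn), (∀ t ∈ T, t ∈ Mx) → T.card ≤ P.C j := by
    intro T hT
    refine antichain hG j v hv T (fun t ht => ((hmem t).1 (hT t ht)).1) ?_
    intro s hs t ht hst
    exact ((hmem s).1 (hT s hs)).2 t ((hmem t).1 (hT t ht)).1 hst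
  have hfin : Mx.Finite := by
    by_contra hinf
    obtain ⟨T, hT1, hT2⟩ := Set.Infinite.exists_subset_card_eq hinf (P.C j + 1)
    have := hanti T fun t ht => hT1 ht
    omega
  refine ⟨hfin.toFinset, hanti _ fun t ht => hfin.mem_toFinset.1 ht, fun s hs =>
    ((hmem s).1 (hfin.mem_toFinset.1 hs)).1, fun t ht => ?_⟩
  have hex : ∃ m, ∃ s, Heavy P j v s ∧ t <:+ s ∧ P.ell j - s.length = m :=
    ⟨_, t, ht, List.suffix_refl t, rfl⟩
  obtain ⟨s, hs, hts, hm⟩ := Nat.find_spec hex
  refine ⟨s, hfin.mem_toFinset.2 ((hmem s).2 ⟨hs, fun s' hs' hss' => ?_⟩), hts⟩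
  have h1 := Nat.find_min' hex ⟨s', hs', hts.trans hss', rfl⟩
  have h2 := hs'.1.1.2.1
  have h3 := hs.1.1.2.1
  have h4 := hss'.length_le
  exact hss'.eq_of_length (by omega)

theorem heavy_finite {P : Par} (hG : Good P) (j : ℕ) (v : ℕ → ℝ) (hv : v ∈ P.VS) :
    {t | Heavy P j v t}.Finite := by
  obtain ⟨S, -, -, hS⟩ := heavy_chains hG j v hv
  refine Set.Finite.subset (S.biUnion fun s => s.tails.toFinset).finite_toSet fun t ht => ?_
  obtain ⟨s, hs, hts⟩ := hS t ht
  rw [Finset.mem_coe, Finset.mem_biUnion]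
  exact ⟨s, hs, by rw [List.mem_toFinset, List.mem_tails]; exact hts⟩

theorem co_atom {P : Par} (hG : Good P) (j : ℕ) (v : ℕ → ℝ) (hv : v ∈ P.VS) :
    co P j v ∈ P.Atom j := by
  obtain ⟨S, hc, -, hS⟩ := heavy_chains hG j v hv
  refine ⟨v, hv, S, hc, fun t ht => hS t ?_, fun t => ?_⟩
  · by_contra h
    apply ht
    unfold co
    rw [if_neg h]
  · unfold co
    by_cases h : Heavy P j v t
    · rw [if_pos h, abs_mul, abs_of_pos (hG.al_pos j)]
    · rw [if_neg h, abs_zero]
      exact mul_nonneg (hG.al_pos j).le (abs_nonneg _)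

theorem light_tail {P : Par} (hG : Good P) (j : ℕ) (v : ℕ → ℝ) (T0 : Finset (List Fn))
    (hT0 : ∀ t ∈ T0, Tree P j t) (hnh : ∀ t ∈ T0, ¬ Heavy P j v t) (s : List Fn) :
    ∑ t ∈ T0.filter (fun t => t <:+ s), |v (P.code j t)| ≤ P.th j := by
  have hth : 0 ≤ P.th j := by
    have := hG.th_ge j
    linarith
  rcases (T0.filter (fun t => t <:+ s)).eq_empty_or_nonempty with h | h
  · rw [h, Finset.sum_empty]
    exact hth
  · obtain ⟨t0, ht0, hmin⟩ := Finset.exists_min_image _ List.length h
    obtain ⟨t1, ht1, hmax⟩ := Finset.exists_max_image _ List.length h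
    rw [Finset.mem_filter] at ht0 ht1
    have h01 : t0 <:+ t1 := List.suffix_of_suffix_length_le ht0.2 ht1.2
      (hmin t1 (Finset.mem_filter.2 ht1))
    have hlt : mass P j v t0 t1 < P.th j := by
      by_contra hc
      push Not at hc
      exact hnh t0 ht0.1 ⟨hT0 t0 ht0.1, t1, hT0 t1 ht1.1, h01, hc⟩
    refine le_trans ?_ hlt.le
    unfold mass
    refine Finset.sum_le_sum_of_subset_of_nonneg (fun u hu => ?_) fun _ _ _ => abs_nonneg _
    have hu' := hu
    rw [Finset.mem_filter] at hu
    rw [Finset.mem_filter, List.mem_toFinset, List.mem_tails]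
    exact ⟨List.suffix_of_suffix_length_le hu.2 ht1.2 (hmax u hu'),
      List.suffix_of_suffix_length_le ht0.2 hu.2 (hmin u hu')⟩

end Pool.Agent.HI61
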