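import Pool.Agent.HI61.Coord

/-!
# HI61/RISBuild : rapidly increasing sequences of good vectors

PROOF.  Choose recursively `x k` from the supply with `m = μ k`, `lo = lo k`, where `μ 0 = m`,
`lo 0 = lo0`, `μ (k+1) > ` all the elements of `(x k).support` and `μ (k+1) ≥ μ k`,
`δ k = (1/2)^(k+1)`, `hi k ≥ lo k` so large that `Z.s (μ (k+1)) / M κ ≤ δ k` for `κ ≥ hi k`
(`M κ ≥ κ` because `e κ ≥ κ` by `e_step`), `lo (k+1) = hi k`.
`R3`: `coord_ty_supp` with `q = 1` (`Kle_abs`) and `b = Z.s (μ (k+1))` (`comb_supp`).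
`R1`: `Kle 1` gives `Kle 6`.  `∑_{k<N} (1/2)^(k+1) ≤ 1`.
-/

namespace Pool.Agent.HI61

open Finset
open scoped Classical

private theorem e_ge {P : Par} (hG : Good P) (κ : ℕ) : κ ≤ P.e κ := by
  induction κ with
  | zero => exact Nat.zero_le _
  | succ n ih =>
    have := hG.e_step n
    omega

private theorem M_ge {P : Par} (hG : Good P) (κ : ℕ) : κ ≤ P.M κ := by
  have h1 := e_ge hG κ
  have h2 : P.e κ < 2 ^ P.e κ := Nat.lt_two_pow_self
  unfold Par.M
  omega

private theorem sum_half (N : ℕ) : ∑ k ∈ range N, ((1 : ℝ) / 2) ^ (k + 1) = 1 - (1 / 2) ^ N := by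
  induction N with
  | zero => simp
  | succ n ih =>
    rw [Finset.sum_range_succ, ih, pow_succ]
    ring

theorem ris_build {P : Par} (hG : Good P) (Z : BSeq) (G : (ℕ →₀ ℝ) → Prop) (hS : Supply P Z G)
    (N m lo0 : ℕ) :
    ∃ (x : ℕ → (ℕ →₀ ℝ)) (μ lo hi : ℕ → ℕ) (δ : ℕ → ℝ), m ≤ μ 0 ∧ Blks μ x N ∧
      (∀ k, lo0 ≤ lo k) ∧
      RIS P (fun k => Z.comb (x k)) (fun k => Z.s (μ k)) N 6 lo hi δ ∧
      ∑ k ∈ range N, δ k ≤ 1 ∧ ∀ k < N, G (x k) ∧ Unit' P (Z.comb (x k)) := by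
  choose A hA1 hA2 hA3 hA4 using hS
  let nx : ℕ × ℕ → ℕ := fun p => max p.1 ((A p.1 p.2).support.sup id + 1)
  let st : ℕ → ℕ × ℕ := fun k => Nat.rec (m, lo0)
    (fun k p => (nx p, max p.2 (Z.s (nx p) * 2 ^ (k + 1)))) k
  have st0 : st 0 = (m, lo0) := rfl
  have sts : ∀ k, st (k + 1) = (nx (st k), max (st k).2 (Z.s (nx (st k)) * 2 ^ (k + 1))) :=
    fun k => rfl
  have mono1 : Monotone fun k => (st k).1 := by
    apply monotone_nat_of_le_succ
    intro k
    rw [sts]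
    exact le_max_left _ _
  have mono2 : Monotone fun k => (st k).2 := by
    apply monotone_nat_of_le_succ
    intro k
    rw [sts]
    exact le_max_left _ _
  have hblk : ∀ k, ∀ n ∈ (A (st k).1 (st k).2).support, (st k).1 ≤ n ∧ n < (st (k + 1)).1 := by
    intro k n hn
    refine ⟨hA1 _ _ n hn, ?_⟩
    rw [sts]
    have h1 : n ≤ (A (st k).1 (st k).2).support.sup id := Finset.le_sup (f := id) hn
    have h2 : (A (st k).1 (st k).2).support.sup id + 1 ≤ nx (st k) := le_max_right _ _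
    show n < nx (st k)
    omega
  refine ⟨fun k => A (st k).1 (st k).2, fun k => (st k).1, fun k => (st k).2,
    fun k => (st (k + 1)).2, fun k => (1 / 2) ^ (k + 1), le_rfl, ⟨mono1, fun k _ => hblk k⟩,
    fun k => mono2 (Nat.zero_le k), ?_, ?_, fun k _ => ⟨hA2 _ _, hA3 _ _⟩⟩
  · constructor
    · norm_num
    · intro k
      positivity
    · intro a b hab
      exact Z.mono.monotone (mono1 hab)
    · intro k _ i hi
      exact comb_supp Z _ _ _ (hblk k) i hi
    · intro k _ f hf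
      exact ((hA3 _ _).1 f hf).trans (by norm_num)
    · intro k _ κ hκ
      exact hA4 _ _ κ hκ
    · intro k _ κ hκ f hf
      have h1 := coord_ty_supp hG (Z.comb (A (st k).1 (st k).2)) (fun _ => 1)
        (fun i => Kle_abs (hA3 _ _).1 i) (Z.s (st (k + 1)).1)
        (fun i hi => (comb_supp Z _ _ _ (hblk k) i hi).2) hf
      refine h1.trans ?_
      simp only [Finset.sum_const, Finset.card_range, nsmul_eq_mul, mul_one]
      have h2 : Z.s (st (k + 1)).1 * 2 ^ (k + 1) ≤ P.M κ := by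
        refine le_trans ?_ ((hκ : (st (k + 1)).2 ≤ κ).trans (M_ge hG κ))
        rw [sts]
        exact le_max_right _ _
      have h3 : ((Z.s (st (k + 1)).1 : ℕ) : ℝ) * 2 ^ (k + 1) ≤ (P.M κ : ℝ) := by exact_mod_cast h2
      have h4 : (0 : ℝ) < P.M κ := by
        have : 0 < P.M κ := by unfold Par.M; positivity
        exact_mod_cast this
      rw [div_le_iff₀ h4]
      have h5 : (1 / 2 : ℝ) ^ (k + 1) * 2 ^ (k + 1) = 1 := by
        rw [← mul_pow]
        norm_num
      calc ((Z.s (st (k + 1)).1 : ℕ) : ℝ)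
          = (1 / 2 : ℝ) ^ (k + 1) * (((Z.s (st (k + 1)).1 : ℕ) : ℝ) * 2 ^ (k + 1)) := by
            rw [mul_left_comm, h5, mul_one]
        _ ≤ (1 / 2 : ℝ) ^ (k + 1) * P.M κ := mul_le_mul_of_nonneg_left h3 (by positivity)
    · intro k _
      exact mono2 (Nat.le_succ k)
    · intro k _
      exact le_rfl
  · rw [sum_half]
    have : (0 : ℝ) ≤ (1 / 2) ^ N := by positivity
    linarith

end Pool.Agent.HI61
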