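import Pool.Agent.HI61.FarUnit
import Pool.Agent.HI61.ZL
import Pool.Agent.HI61.Avg
import Pool.Agent.HI61.RISBuild
import Pool.Agent.HI61.BI

/-!
# HI61/HighP : good vectors of a far sequence have small `X`-components

Notation: `r = P.r = 2 q`, `L = L (2 w)`, `τ = 1 / L^2`, `N = nst w + 1`, `G a := ∀ ‖v‖ ≤ 1, |Th w v (T0 z a)| ≤ τ`.
`N > nst w ≥ (Ct L^2 (w + Bs w + 2))^r`, so `N^{1/r} > Ct L^2 (w + Bs w + 2)`; in particular `N ≥ N^{1/r} ≥ 2 L^2`.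
PROOF.  Let `w0 ≥ CZ`, `w ≥ w0`, and suppose that `Supply P toB G` fails: there are `m, lo` such that no `a`
with `Tail m a`, `Unit'`, `KS κ 6` (`κ < lo`) satisfies `G`.  By `avg` (with `max m m'`, `max lo lo'`; `far_nonTriv`)
`Supply P toB (¬ G)` holds.  Let `m1` be such that `2 ∑_{k ∈ S} ep k ≤ 1/(2N)` for every finite
`S ⊆ [Fs.s m1, ∞)` (`ep_le`, `Fs.s m1 ≥ m1`).  `ris_build` with `N`, starting at `m1`: `x_k`, `k < N`,
RIS with constant 6, `∑ δ ≤ 1`, `¬ G (x_k)`, `Kle (x_k) 1`.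
By `zl` with `B = 1`, `n = w`: `ξ_k ∈ X` with `|Th w v (T0 z x_k) - v (ι ξ_k)| ≤ 1/(2N) + 1/(2N) = 1/N` for all
`‖v‖ ≤ 1` (the support of `(T0 z x_k).2` is in `[Fs.s m1, ∞)`).  As `|Th w v (T0 z x_k)| > τ` for some `v`,
`‖ξ_k‖ ≥ τ - 1/N ≥ τ/2`.  `SignCotype` for `(2/τ) ξ_k`: signs `θ` with `‖∑ θ_k ξ_k‖ ≥ (τ/2) c0 N^{1/q}`.
Let `a = ∑ θ_k x_k`, and `v`, `‖v‖ ≤ 1`, norming `ι (∑ θ_k ξ_k)`.  By linearity (`Th_sum`)
`|Th w v (T0 z a)| ≥ (τ/2) c0 N^{1/q} - N (1/N)`.  On the other hand by `Th_split`, `N1`, `Fj_crude`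
`|Th w v (T0 z a)| ≤ pW (T0 z a) + ∑_{j<w} ell j * B ≤ (CZ + Bs w) B` where `B = 6 (2 + N^{1/r}) + 1 ≤ 19 N^{1/r}` is a
bound for the `K`-norm of `a` (`BI_zero`; `far`).  So (as `N^{1/q} = N^{1/r} N^{1/r}`)
`N^{1/r} ≤ (2 / (c0 τ)) (19 (CZ + Bs w) + 1) ≤ (38 / c0) L^2 (w + Bs w + 1) ≤ Ct L^2 (w + Bs w + 2) < N^{1/r}`,
a contradiction.
-/

namespace Pool.Agent.HI61

open Finset
open scoped Classical

variable {X V : Type} [NormedAddCommGroup X] [NormedSpace ℝ X]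
  [NormedAddCommGroup V] [NormedSpace ℝ V]

private theorem ep_tail (F : Frame X V) (M : ℕ) (S : Finset ℕ) (hS : ∀ k ∈ S, M ≤ k) :
    ∑ k ∈ S, F.ep k ≤ (1 / 2 : ℝ) ^ (M + 1) := by
  obtain ⟨J, hJ⟩ : ∃ J, ∀ k ∈ S, k < M + J := by
    refine ⟨S.sup id + 1, fun k hk => ?_⟩
    have h1 : id k ≤ S.sup id := Finset.le_sup (f := id) hk
    simp only [id] at h1
    omega
  have hsub : S ⊆ Ico M (M + J) := fun k hk => mem_Ico.2 ⟨hS k hk, hJ k hk⟩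
  have hgeo : ∀ J : ℕ, ∑ k ∈ Ico M (M + J), (1 / 2 : ℝ) ^ (k + 2) =
      (1 / 2) ^ (M + 1) - (1 / 2) ^ (M + J + 1) := by
    intro J
    induction J with
    | zero => simp
    | succ J ih =>
      rw [← add_assoc, sum_Ico_succ_top (by omega), ih]
      ring
  calc ∑ k ∈ S, F.ep k ≤ ∑ k ∈ S, (1 / 2 : ℝ) ^ (k + 2) := sum_le_sum fun k _ => F.ep_le k
    _ ≤ ∑ k ∈ Ico M (M + J), (1 / 2 : ℝ) ^ (k + 2) :=
      sum_le_sum_of_subset_of_nonneg hsub fun _ _ _ => by positivity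
    _ ≤ (1 / 2 : ℝ) ^ (M + 1) := by
      rw [hgeo]
      have : (0 : ℝ) < (1 / 2) ^ (M + J + 1) := by positivity
      linarith

private theorem T0_eq (z : ℕ → W0 X) (a : ℕ →₀ ℝ) :
    T0 z a = Finsupp.linearCombination ℝ z a := rfl

private theorem T0_lin {κ : Type*} (z : ℕ → W0 X) (S : Finset κ) (θ : κ → ℝ)
    (x : κ → (ℕ →₀ ℝ)) : T0 z (∑ k ∈ S, θ k • x k) = ∑ k ∈ S, θ k • T0 z (x k) := by
  rw [T0_eq, map_sum]
  exact sum_congr rfl fun k _ => by rw [map_smul, T0_eq]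

private theorem T0_supp {H : Host X V} {pW : Seminorm ℝ (W0 X)} (Fs : FarSeq H pW) (m : ℕ)
    (a : ℕ →₀ ℝ) (ha : Tail m a) : ∀ k ∈ (T0 Fs.z a).2.support, Fs.s m ≤ k := by
  intro k hk
  have h1 : (T0 Fs.z a).2 = ∑ n ∈ a.support, a n • (Fs.z n).2 := by
    unfold T0
    rw [Finsupp.sum, Prod.snd_sum]
    rfl
  rw [Finsupp.mem_support_iff, h1, Finsupp.finsetSum_apply] at hk
  obtain ⟨n, hn, hne⟩ := Finset.exists_ne_zero_of_sum_ne_zero hk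
  have h2 : k ∈ (Fs.z n).2.support := by
    rw [Finsupp.mem_support_iff]
    intro h0
    exact hne (by rw [Finsupp.smul_apply, h0, smul_zero])
  exact (Fs.mono.monotone (ha n hn)).trans (Fs.supp n k h2).1

theorem high {H : Host X V} (hrefl : Reflexive' X) {pW : Seminorm ℝ (W0 X)} (hN : H.IsNorm pW)
    (Fs : FarSeq H pW) (c0 : ℝ) (hc0 : 0 < c0) (hcot : SignCotype X H.P.q c0) (Ct : ℝ)
    (hCt : 1 ≤ Ct) (hCt2 : 38 / c0 ≤ Ct)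
    (hnst : ∀ w : ℕ, (Ct * (H.P.L (2 * w) : ℝ) ^ 2 * (w + H.P.Bs w + 2)) ^ H.P.r ≤ H.P.nst w) :
    ∃ w0 : ℕ, ∀ w, w0 ≤ w → Supply H.P Fs.toB
      (fun a => ∀ v : V →L[ℝ] ℝ, ‖v‖ ≤ 1 →
        |H.Th w v (T0 Fs.z a)| ≤ 1 / (H.P.L (2 * w) : ℝ) ^ 2) := by
  refine ⟨⌈Fs.CZ⌉₊, fun w hw => ?_⟩
  have hCZ : Fs.CZ ≤ w := (Nat.le_ceil _).trans (by exact_mod_cast hw)
  obtain ⟨L, hL⟩ : ∃ L : ℝ, L = (H.P.L (2 * w) : ℝ) := ⟨_, rfl⟩
  have hL1 : 1 ≤ L := by rw [hL]; exact_mod_cast H.good.L_pos (2 * w)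
  rw [← hL]
  obtain ⟨G, hG⟩ : ∃ G : (ℕ →₀ ℝ) → Prop, G = fun a => ∀ v : V →L[ℝ] ℝ, ‖v‖ ≤ 1 →
    |H.Th w v (T0 Fs.z a)| ≤ 1 / L ^ 2 := ⟨_, rfl⟩
  rw [← hG]
  by_contra hcon
  unfold Supply at hcon
  push Not at hcon
  obtain ⟨m0, lo0, hcon⟩ := hcon
  have hS : Supply H.P Fs.toB (fun a => ¬ G a) := by
    intro m lo
    obtain ⟨a, ha1, -, ha3, ha4⟩ := avg H.good Fs.toB (far_nonTriv Fs) (max m0 m) (max lo0 lo)
    have ht1 : Tail m0 a := fun n hn => (le_max_left _ _).trans (ha1 n hn)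
    have ht2 : Tail m a := fun n hn => (le_max_right _ _).trans (ha1 n hn)
    refine ⟨a, ht2, fun hGa => ?_, ha3, fun κ hκ => ha4 κ (hκ.trans_le (le_max_right _ _))⟩
    obtain ⟨κ, hκ, hκ2⟩ := hcon a ht1 hGa ha3
    exact hκ2 (ha4 κ (hκ.trans_le (le_max_left _ _)))
  -- numbers
  obtain ⟨N, hNdef⟩ : ∃ N : ℕ, N = H.P.nst w + 1 := ⟨_, rfl⟩
  have hN1 : (1 : ℝ) ≤ N := by
    rw [hNdef]
    push_cast
    have : (0 : ℝ) ≤ H.P.nst w := Nat.cast_nonneg _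
    linarith
  have hN0 : (0 : ℝ) < N := by linarith
  have hq1 := H.good.q1
  have hr2 : 2 ≤ H.P.r := by unfold Par.r; linarith
  have hr0 : 0 < H.P.r := by linarith
  obtain ⟨n1, hn1⟩ : ∃ n1 : ℝ, n1 = (N : ℝ) ^ (1 / H.P.r) := ⟨_, rfl⟩
  have hBs : (0 : ℝ) ≤ H.P.Bs w := Nat.cast_nonneg _
  have hw0 : (0 : ℝ) ≤ (w : ℝ) := Nat.cast_nonneg _
  have hYpos : 0 < Ct * L ^ 2 * (w + H.P.Bs w + 2) := by positivity
  have hY : Ct * L ^ 2 * (w + H.P.Bs w + 2) < n1 := by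
    have h1 : (Ct * L ^ 2 * (w + H.P.Bs w + 2)) ^ H.P.r < (N : ℝ) := by
      have h0 := hnst w
      rw [← hL] at h0
      have h2 : (H.P.nst w : ℝ) < (N : ℝ) := by
        rw [hNdef]
        push_cast
        linarith
      exact lt_of_le_of_lt h0 h2
    have h2 := Real.rpow_lt_rpow (Real.rpow_nonneg hYpos.le _) h1
      (show 0 < 1 / H.P.r by positivity)
    rw [← Real.rpow_mul hYpos.le, mul_one_div_cancel hr0.ne', Real.rpow_one] at h2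
    rw [hn1]
    exact h2
  have hL2 : 1 ≤ L ^ 2 := one_le_pow₀ hL1
  have h2L : 2 * L ^ 2 ≤ Ct * L ^ 2 * (w + H.P.Bs w + 2) := by
    have h1 : L ^ 2 ≤ Ct * L ^ 2 := by nlinarith
    have h3 : (2 : ℝ) ≤ w + H.P.Bs w + 2 := by linarith
    calc 2 * L ^ 2 = L ^ 2 * 2 := by ring
      _ ≤ (Ct * L ^ 2) * (w + H.P.Bs w + 2) :=
        mul_le_mul h1 h3 (by norm_num) (by positivity)
  have hn1N : n1 ≤ N := by
    rw [hn1]
    have h1 : (N : ℝ) ^ (1 / H.P.r) ≤ (N : ℝ) ^ (1 : ℝ) := by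
      refine Real.rpow_le_rpow_of_exponent_le hN1 ?_
      rw [div_le_one hr0]
      linarith
    rwa [Real.rpow_one] at h1
  have hNL : 2 * L ^ 2 ≤ N := by linarith
  have hn11 : 1 ≤ n1 := by linarith
  have hn1q : (N : ℝ) ^ (1 / H.P.q) = n1 * n1 := by
    rw [hn1, ← Real.rpow_add hN0]
    congr 1
    unfold Par.r
    field_simp
    ring
  -- the tail of the numbers ep
  have hm1 : (1 / 2 : ℝ) ^ (2 * N) ≤ 1 / (2 * N) := by
    have h1 : ((2 * N : ℕ) : ℝ) < 2 ^ (2 * N) := by exact_mod_cast Nat.lt_two_pow_self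
    push_cast at h1
    rw [one_div, inv_pow, one_div]
    exact inv_anti₀ (by positivity) h1.le
  obtain ⟨x, μ, lo, hi, δ, hμ, hBl, -, hR, hδ, hx⟩ := ris_build H.good Fs.toB _ hS N (2 * N) 0
  have htail : ∀ k < N, Tail (2 * N) (x k) := by
    intro k hk n hn
    exact hμ.trans ((hBl.1 (Nat.zero_le k)).trans (hBl.2 k hk n hn).1)
  have hξ : ∀ k : Fin N, ∃ ξ : X, (∀ v : V →L[ℝ] ℝ, ‖v‖ ≤ 1 →
      |H.Th w v (T0 Fs.z (x k)) - v (H.F.ι ξ)| ≤ 1 / N) ∧ 1 / L ^ 2 / 2 ≤ ‖ξ‖ := by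
    intro k
    obtain ⟨hxG, hxU⟩ := hx k k.2
    have hK : Kle H.P (H.hat (T0 Fs.z (x k))) 1 := by
      rw [← toB_comb]
      exact hxU.1
    obtain ⟨ξ, hξ⟩ := zl H hrefl (T0 Fs.z (x k)) w 1 one_pos hK
    have hep : ∑ k ∈ (T0 Fs.z (x k)).2.support, H.F.ep k ≤ 1 / (2 * N) / 2 := by
      refine (ep_tail H.F (Fs.s (2 * N)) _ (T0_supp Fs (2 * N) (x k) (htail k k.2))).trans ?_
      have h1 : 2 * N ≤ Fs.s (2 * N) := Fs.mono.le_apply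
      calc (1 / 2 : ℝ) ^ (Fs.s (2 * N) + 1) ≤ (1 / 2 : ℝ) ^ (2 * N + 1) :=
            pow_le_pow_of_le_one (by norm_num) (by norm_num) (by omega)
        _ = (1 / 2 : ℝ) ^ (2 * N) / 2 := by rw [pow_succ]; ring
        _ ≤ 1 / (2 * N) / 2 := by linarith
    have hbd : ∀ v : V →L[ℝ] ℝ, ‖v‖ ≤ 1 →
        |H.Th w v (T0 Fs.z (x k)) - v (H.F.ι ξ)| ≤ 1 / N := by
      intro v hv
      refine (hξ v hv).trans ?_
      have h1 : (1 : ℝ) / (2 * (H.P.nst w + 1)) = 1 / (2 * N) := by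
        rw [hNdef]
        push_cast
        ring
      rw [h1, mul_one]
      have h2 : (1 : ℝ) / N = 1 / (2 * N) + 1 / (2 * N) := by
        field_simp
        norm_num
      rw [h2]
      linarith
    refine ⟨ξ, hbd, ?_⟩
    rw [hG] at hxG
    push Not at hxG
    obtain ⟨v, hv, hv2⟩ := hxG
    have h1 := hbd v hv
    have h2 : |H.Th w v (T0 Fs.z (x k))| ≤
        |H.Th w v (T0 Fs.z (x k)) - v (H.F.ι ξ)| + |v (H.F.ι ξ)| := by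
      have := abs_add_le (H.Th w v (T0 Fs.z (x k)) - v (H.F.ι ξ)) (v (H.F.ι ξ))
      rwa [sub_add_cancel] at this
    have h3 : |v (H.F.ι ξ)| ≤ ‖ξ‖ := by
      calc |v (H.F.ι ξ)| ≤ ‖v‖ * ‖H.F.ι ξ‖ := v.le_opNorm _
        _ ≤ 1 * ‖H.F.ι ξ‖ := mul_le_mul_of_nonneg_right hv (norm_nonneg _)
        _ = ‖ξ‖ := by rw [one_mul, LinearIsometry.norm_map]
    have h4 : 1 / (N : ℝ) ≤ 1 / L ^ 2 / 2 := by
      rw [div_div]
      refine one_div_le_one_div_of_le (by positivity) ?_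
      linarith
    linarith
  choose ξ hξ1 hξ2 using hξ
  have hτ : 0 < 1 / L ^ 2 / 2 := by positivity
  obtain ⟨θ, hθ1, hθ2⟩ := hcot N (fun i => (1 / L ^ 2 / 2)⁻¹ • ξ i) (by
    intro i
    rw [norm_smul, norm_inv, Real.norm_of_nonneg hτ.le, inv_mul_eq_div, le_div_iff₀ hτ, one_mul]
    exact hξ2 i)
  obtain ⟨y, hy⟩ : ∃ y : X, y = ∑ i, θ i • ξ i := ⟨_, rfl⟩
  have hyn : c0 * (n1 * n1) * (1 / L ^ 2 / 2) ≤ ‖y‖ := by
    have h1 : ∑ i, θ i • ((1 / L ^ 2 / 2)⁻¹ • ξ i) = (1 / L ^ 2 / 2)⁻¹ • y := by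
      rw [hy, smul_sum]
      exact sum_congr rfl fun i _ => smul_comm _ _ _
    rw [h1, hn1q, norm_smul, norm_inv, Real.norm_of_nonneg hτ.le, inv_mul_eq_div,
      le_div_iff₀ hτ] at hθ2
    exact hθ2
  obtain ⟨v, hv1, hv2⟩ := exists_dual_vector'' ℝ (H.F.ι y)
  have hv2' : v (H.F.ι y) = ‖y‖ := by
    rw [hv2, LinearIsometry.norm_map]
    rfl
  obtain ⟨θ', hθ'⟩ : ∃ θ' : ℕ → ℝ, θ' = fun k => if h : k < N then θ ⟨k, h⟩ else 0 := ⟨_, rfl⟩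
  have hθ'1 : ∀ k, |θ' k| ≤ 1 := by
    intro k
    rw [hθ']
    by_cases h : k < N
    · simp only [dif_pos h]
      exact (hθ1 _).le
    · simp only [dif_neg h, abs_zero]
      exact zero_le_one
  have hθ'2 : ∀ i : Fin N, θ' i = θ i := by
    intro i
    rw [hθ']
    simp only [dif_pos i.2]
  obtain ⟨a, ha⟩ : ∃ a : ℕ →₀ ℝ, a = ∑ k ∈ range N, θ' k • x k := ⟨_, rfl⟩
  have hTa : H.Th w v (T0 Fs.z a) = ∑ i : Fin N, θ i * H.Th w v (T0 Fs.z (x i)) := by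
    rw [ha, T0_lin, Th_sum H w v hv1, sum_range]
    exact sum_congr rfl fun i _ => by rw [hθ'2]
  have hlow : ‖y‖ - 1 ≤ H.Th w v (T0 Fs.z a) := by
    have h1 : H.Th w v (T0 Fs.z a) - ‖y‖ =
        ∑ i : Fin N, θ i * (H.Th w v (T0 Fs.z (x i)) - v (H.F.ι (ξ i))) := by
      rw [hTa, ← hv2', hy]
      simp only [map_sum, map_smul, smul_eq_mul, mul_sub, sum_sub_distrib]
    have h2 : |∑ i : Fin N, θ i * (H.Th w v (T0 Fs.z (x i)) - v (H.F.ι (ξ i)))| ≤ 1 := by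
      refine (abs_sum_le_sum_abs _ _).trans ?_
      calc ∑ i : Fin N, |θ i * (H.Th w v (T0 Fs.z (x i)) - v (H.F.ι (ξ i)))|
          ≤ ∑ _i : Fin N, (1 : ℝ) / N := by
            refine sum_le_sum fun i _ => ?_
            rw [abs_mul, hθ1, one_mul]
            exact hξ1 i v hv1
        _ = 1 := by
            rw [sum_const, card_univ, Fintype.card_fin, nsmul_eq_mul]
            field_simp
    have h3 := (abs_le.1 h2).1
    rw [← h1] at h3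
    linarith
  obtain ⟨B, hB⟩ : ∃ B : ℝ, B = 6 * (2 + n1) + 1 := ⟨_, rfl⟩
  have hB0 : 0 ≤ B := by rw [hB]; linarith
  have hKa : Kle H.P (H.hat (T0 Fs.z a)) B := by
    intro f hf
    rw [← toB_comb, ha, comb_sum]
    refine (BI_zero H.good hR f hf (range N) (Subset.refl _) θ' hθ'1).trans ?_
    rw [card_range, ← hn1, hB]
    linarith
  have hup : H.Th w v (T0 Fs.z a) ≤ (Fs.CZ + H.P.Bs w) * B := by
    have h1 := Th_split H (T0 Fs.z a) v 0 w (Nat.zero_le w)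
    have h2 : |∑ j ∈ Ico 0 w, Fj H.P j (H.vs v) (H.hat (T0 Fs.z a))| ≤ H.P.Bs w * B := by
      refine (abs_sum_le_sum_abs _ _).trans ?_
      have h3 : (H.P.Bs w : ℝ) * B = ∑ j ∈ Ico 0 w, (H.P.ell j : ℝ) * B := by
        rw [← sum_mul]
        unfold Par.Bs
        push_cast
        rw [Nat.Ico_zero_eq_range]
      rw [h3]
      exact sum_le_sum fun j _ => Fj_crude H.good j _ (vs_mem H v hv1) _ B hKa
    have h4 := hN.N1 (T0 Fs.z a) v hv1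
    have h5 := Fs.far a B hB0 hKa
    have h6 := (abs_le.1 h2).1
    have h7 := (abs_le.1 h4).2
    have h8 : (Fs.CZ + H.P.Bs w) * B = Fs.CZ * B + H.P.Bs w * B := by ring
    rw [h8]
    linarith
  -- the contradiction
  have hB19 : B ≤ 19 * n1 := by rw [hB]; linarith
  have hCZ0 : 0 ≤ Fs.CZ := by linarith [Fs.CZ1]
  have h1 : (Fs.CZ + H.P.Bs w) * B ≤ (Fs.CZ + H.P.Bs w) * (19 * n1) :=
    mul_le_mul_of_nonneg_left hB19 (by linarith)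
  have h2 : c0 * (n1 * n1) * (1 / L ^ 2 / 2) ≤ (19 * (Fs.CZ + H.P.Bs w) + 1) * n1 := by
    have h3 : (19 * (Fs.CZ + H.P.Bs w) + 1) * n1 = (Fs.CZ + H.P.Bs w) * (19 * n1) + n1 := by ring
    rw [h3]
    linarith
  have h3 : c0 * n1 * (1 / L ^ 2 / 2) ≤ 19 * (Fs.CZ + H.P.Bs w) + 1 := by
    have h4 : c0 * (n1 * n1) * (1 / L ^ 2 / 2) = (c0 * n1 * (1 / L ^ 2 / 2)) * n1 := by ring
    rw [h4] at h2
    exact le_of_mul_le_mul_right h2 (by linarith)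
  have h5 : 19 * (Fs.CZ + H.P.Bs w) + 1 ≤ 19 * (w + H.P.Bs w + 2) := by linarith
  have h6 : c0 * n1 ≤ 38 * L ^ 2 * (w + H.P.Bs w + 2) := by
    have h7 : c0 * n1 * (1 / L ^ 2 / 2) = c0 * n1 / (2 * L ^ 2) := by
      field_simp
    rw [h7, div_le_iff₀ (by positivity)] at h3
    have h8 := mul_le_mul_of_nonneg_right h5 (show 0 ≤ 2 * L ^ 2 by positivity)
    linarith
  have h7 : n1 ≤ 38 / c0 * (L ^ 2 * (w + H.P.Bs w + 2)) := by
    rw [div_mul_eq_mul_div, le_div_iff₀ hc0]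
    linarith
  have h8 : 38 / c0 * (L ^ 2 * (w + H.P.Bs w + 2)) ≤ Ct * (L ^ 2 * (w + H.P.Bs w + 2)) :=
    mul_le_mul_of_nonneg_right hCt2 (by positivity)
  have h9 : Ct * (L ^ 2 * (w + H.P.Bs w + 2)) = Ct * L ^ 2 * (w + H.P.Bs w + 2) := by ring
  linarith

end Pool.Agent.HI61
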