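import Pool.Agent.HI61.Defs2

/-!
# HI61/KClosure : the norming set is closed under interval restriction and sign change

PROOFS.
`InK_zero`: `ty = none`: `ground 0 0`.  `ty = some (2 i)`: constructor `reg` with `n = 0`
(`∑ l : Fin 0 = 0`).  `ty = some (2 j + 1)`: constructor `spec` with `c = 0`; `Light` is
`0 ≤ al * th` (`hG.al_pos`, `hG.th_ge`); `0 ∈ convexHull` because `0 ∈ Atom j` (take any `v ∈ VS`,
`S = ∅`).
`InK_res`: induction on `InK`.  ground: `res_single` (the new coefficient is `s` or `0`).
reg: `res_smul`, `res_sum`: the functionals `res a b (f l)` are in `K` with the same types by the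
induction hypothesis, still successive (`before_res`), same `d`.
spec: `res a b (A • ∑ c t • res a' b' (hd t)) = A • ∑ c t • res (max a a') (min b b') (hd t)`
(`res_res`), same `c`.
`InK_neg`: cases on `InK` (induction not needed).  ground: `-single i s = single i (-s)`.
reg: `d ↦ -d`.  spec: `c ↦ -c` (the support of `-c` is the support of `c`); `Light` is the same;
`-c ∈ convexHull (Atom j)` because `Atom j = - Atom j` (`convexHull_neg`, or: the set
`{c | -c ∈ convexHull (Atom j)}` is convex and contains `Atom j`).
-/

namespace Pool.Agent.HI61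

open Finset
open scoped Classical

theorem InK_zero {P : Par} (hG : Good P) (ty : Option ℕ) : InK P ty 0 := by
  cases ty with
  | none =>
    have h := InK.ground (P := P) 0 0 (by simp)
    rwa [Finsupp.single_zero] at h
  | some κ =>
    rcases Nat.even_or_odd' κ with ⟨i, hi | hi⟩
    · have h := InK.reg (P := P) κ i 0 hi (Nat.zero_le _) (fun _ => 0) (fun _ => 0)
        (fun _ => none) (fun l => l.elim0) (fun l => l.elim0) (by simp)
      have e : ((1 / (P.M κ : ℚ)) • ∑ l : Fin 0, ((0 : ℚ) • (0 : Fn))) = 0 := by
        simp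
      rw [e] at h
      exact h
    · have hth := hG.th_ge i
      have hal := hG.al_pos i
      have h := InK.spec (P := P) κ i 0 0 hi 0 (by simp) (by simp)
        (by
          intro s
          simp only [Finsupp.support_zero, Finset.filter_empty, Finset.sum_empty]
          positivity)
        (by
          obtain ⟨v, hv⟩ := hG.VS_ne
          refine subset_convexHull ℝ _ ⟨v, hv, ∅, by simp, fun t ht => ?_, fun t => ?_⟩
          · exact absurd (by simp) ht
          · simp only [Finsupp.coe_zero, Pi.zero_apply, Rat.cast_zero, abs_zero]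
            positivity)
      have e : ((P.A i : ℚ) • ∑ t ∈ (0 : List Fn →₀ ℚ).support,
          (0 : List Fn →₀ ℚ) t • res 0 0 (hd t)) = 0 := by
        simp
      rw [e] at h
      exact h

theorem InK_res {P : Par} (hG : Good P) {ty : Option ℕ} {f : Fn} (h : InK P ty f) (a b : ℕ) :
    InK P ty (res a b f) := by
  induction h with
  | ground i s hs =>
    rw [res_single]
    refine InK.ground i _ ?_
    split_ifs
    · exact hs
    · simp
  | reg κ i n hκ hn d f ty hf hb hd ih =>
    rw [res_smul, res_sum]
    simp only [res_smul]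
    exact InK.reg κ i n hκ hn d (fun l => res a b (f l)) ty ih
      (fun l l' h => before_res (hb l l' h) a b) hd
  | spec κ j a' b' hκ c hN hK h1 h2 ih =>
    rw [res_smul, res_sum]
    simp only [res_smul, res_res]
    exact InK.spec κ j (max a a') (min b b') hκ c hN hK h1 h2

theorem InK_neg {P : Par} (hG : Good P) {ty : Option ℕ} {f : Fn} (h : InK P ty f) :
    InK P ty (-f) := by
  cases h with
  | ground i s hs =>
    rw [← Finsupp.single_neg]
    exact InK.ground i (-s) (by rwa [abs_neg])
  | reg κ i n hκ hn d f ty hf hb hd =>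
    have e : -((1 / (P.M κ : ℚ)) • ∑ l, d l • f l) = (1 / (P.M κ : ℚ)) • ∑ l, (-d l) • f l := by
      simp only [neg_smul, Finset.sum_neg_distrib, smul_neg]
    rw [e]
    refine InK.reg κ i n hκ hn (fun l => -d l) f ty hf hb ?_
    simp only [Rat.cast_neg, abs_neg]
    exact hd
  | spec κ j a b hκ c hN hK h1 h2 =>
    have hs : (-c).support = c.support := Finsupp.support_neg c
    have e : -((P.A j : ℚ) • ∑ t ∈ c.support, c t • res a b (hd t)) =
        (P.A j : ℚ) • ∑ t ∈ (-c).support, (-c) t • res a b (hd t) := by
      rw [hs]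
      simp only [Finsupp.neg_apply, neg_smul, Finset.sum_neg_distrib, smul_neg]
    rw [e]
    refine InK.spec κ j a b hκ (-c) (by rw [hs]; exact hN) (by rw [hs]; exact hK) ?_ ?_
    · intro s
      have := h1 s
      rw [hs]
      simp only [Finsupp.neg_apply, Rat.cast_neg, abs_neg]
      exact this
    · have e2 : (fun t => (((-c) t : ℚ) : ℝ)) = -(fun t => (c t : ℝ)) := by
        funext t
        simp
      rw [e2]
      have h3 : -(fun t => (c t : ℝ)) ∈ convexHull ℝ (-P.Atom j) := by
        rw [convexHull_neg]
        simpa using h2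
      refine convexHull_mono ?_ h3
      rintro x ⟨v, hv, S, hS, h4, h5⟩
      refine ⟨v, hv, S, hS, fun t ht => h4 t ?_, fun t => ?_⟩
      · simpa using ht
      · have := h5 t
        simpa using this

theorem K_zero {P : Par} (hG : Good P) : K P 0 := ⟨none, InK_zero hG none⟩

theorem K_res {P : Par} (hG : Good P) {f : Fn} (h : K P f) (a b : ℕ) : K P (res a b f) :=
  let ⟨ty, ht⟩ := h; ⟨ty, InK_res hG ht a b⟩

theorem K_neg {P : Par} (hG : Good P) {f : Fn} (h : K P f) : K P (-f) :=
  let ⟨ty, ht⟩ := h; ⟨ty, InK_neg hG ht⟩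

/-- norms of restricted vectors -/
theorem Kle_cutv {P : Par} (hG : Good P) {z : ℕ → ℝ} {B : ℝ} (h : Kle P z B) (a b : ℕ) :
    Kle P (cutv a b z) B := fun f hf => by
  rw [← ev_res]; exact h _ (K_res hG hf a b)

theorem KS_cutv {P : Par} (hG : Good P) {κ : ℕ} {z : ℕ → ℝ} {T : ℝ} (h : KS P κ z T) (a b : ℕ) :
    KS P κ (cutv a b z) T := fun n hn d f hf hb hd => by
  simp only [← ev_res]
  exact h n hn d (fun l => res a b (f l)) (fun l => K_res hG (hf l) a b)
    (fun l l' hl => before_res (hb l l' hl) a b) hd

/-- the ground functionals give the sup norm -/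
theorem Kle_abs {P : Par} {z : ℕ → ℝ} {B : ℝ} (h : Kle P z B) (i : ℕ) : |z i| ≤ B := by
  have := h (Finsupp.single i 1) ⟨none, InK.ground i 1 (by simp)⟩
  simpa [ev_single] using this

end Pool.Agent.HI61
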