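import Pool.Agent.HI61.KInduct

/-!
# HI61/LightReal : light special functionals with real coefficients are bounded by `1 / A j`

PROOF.  For `n ≥ 1` choose rationals `c_n t`, `t ∈ T0`, with the sign of `c t`, `|c_n t| ≤ |c t|`,
`c_n t → c t` (`c_n t = 0` if `c t = 0`); extend by `0` outside of `T0` (`Finsupp`).  The functional
`f_n = A • ∑_{t ∈ supp} c_n t • res a b (hd t)` with `a = 0` and `b` larger than all the blocks of the
`hd t`, `t ∈ T0` (so `res a b (hd t) = hd t`), is in `K` (constructor `spec`): `Light`: smaller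
coefficients, `supp c_n ⊆ T0`; convex hull: write `c = ∑ λ_a c^a` (`mem_convexHull_iff_exists_fintype` or
`convexHull_eq`); with `ρ t = c_n t / c t ∈ [0,1]` (`0` if `c t = 0` or `t ∉ T0`) we have
`c_n = ∑ λ_a (ρ c^a)` and `ρ c^a ∈ Atom j`.  [Better: the map `c ↦ ρ c` is linear and maps
`Atom j` into `Atom j`, so it maps `convexHull (Atom j)` into itself, and `ρ c = c_n` because `c` vanishes
outside of `T0`.]  Hence `|ev f_n z| ≤ B`; let `n → ∞`.
-/

namespace Pool.Agent.HI61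

open Finset
open scoped Classical

/-- rational approximation of a real number from the side of zero -/
private theorem rat_app (x ε : ℝ) (hε : 0 < ε) :
    ∃ (q : ℚ) (ρ : ℝ), 0 ≤ ρ ∧ ρ ≤ 1 ∧ (q : ℝ) = ρ * x ∧ |(q : ℝ) - x| ≤ ε := by
  rcases lt_trichotomy x 0 with h | h | h
  · obtain ⟨q, h1, h2⟩ := exists_rat_btwn (lt_min h (show x < x + ε by linarith))
    have h3 : (q : ℝ) < 0 := h2.trans_le (min_le_left _ _)
    have h4 : (q : ℝ) < x + ε := h2.trans_le (min_le_right _ _)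
    refine ⟨q, q / x, (div_nonneg_iff.2 (Or.inr ⟨h3.le, h.le⟩)), ?_, ?_, ?_⟩
    · rw [div_le_one_of_neg h]
      exact h1.le
    · rw [div_mul_cancel₀ _ h.ne]
    · rw [abs_le]
      constructor <;> linarith
  · refine ⟨0, 0, le_refl _, zero_le_one, ?_, ?_⟩
    · rw [zero_mul, Rat.cast_zero]
    · rw [h, Rat.cast_zero, sub_zero, abs_zero]
      exact hε.le
  · obtain ⟨q, h1, h2⟩ := exists_rat_btwn (max_lt h (show x - ε < x by linarith))
    have h3 : (0 : ℝ) < q := (le_max_left _ _).trans_lt h1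
    have h4 : x - ε < q := (le_max_right _ _).trans_lt h1
    refine ⟨q, q / x, (div_nonneg h3.le h.le), ?_, ?_, ?_⟩
    · rw [div_le_one h]
      exact h2.le
    · rw [div_mul_cancel₀ _ h.ne']
    · rw [abs_le]
      constructor <;> linarith

/-- multiplication by a bounded function preserves the convex hull of the atoms -/
private theorem mul_hull {P : Par} (j : ℕ) (ρ : List Fn → ℝ) (h0 : ∀ t, 0 ≤ ρ t)
    (h1 : ∀ t, ρ t ≤ 1) (c : List Fn → ℝ) (h2 : c ∈ convexHull ℝ (P.Atom j)) :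
    (fun t => ρ t * c t) ∈ convexHull ℝ (P.Atom j) := by
  let Lm : (List Fn → ℝ) →ₗ[ℝ] (List Fn → ℝ) :=
    { toFun := fun c t => ρ t * c t
      map_add' := fun c d => by
        funext t
        show ρ t * (c t + d t) = ρ t * c t + ρ t * d t
        ring
      map_smul' := fun a c => by
        funext t
        show ρ t * (a * c t) = a * (ρ t * c t)
        ring }
  have h3 : Lm c ∈ Lm '' convexHull ℝ (P.Atom j) := ⟨c, h2, rfl⟩
  rw [LinearMap.image_convexHull] at h3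
  refine convexHull_mono ?_ h3
  rintro _ ⟨d, ⟨v, hv, S, hS, hd1, hd2⟩, rfl⟩
  refine ⟨v, hv, S, hS, fun t ht => hd1 t fun h => ht ?_, fun t => ?_⟩
  · show ρ t * d t = 0
    rw [h, mul_zero]
  · show |ρ t * d t| ≤ _
    rw [abs_mul, abs_of_nonneg (h0 t)]
    calc ρ t * |d t| ≤ 1 * |d t| := mul_le_mul_of_nonneg_right (h1 t) (abs_nonneg _)
      _ = |d t| := one_mul _
      _ ≤ _ := hd2 t

theorem light_real {P : Par} (hG : Good P) (j : ℕ) (T0 : Finset (List Fn))
    (hT0 : ∀ t ∈ T0, Tree P j t) (c : List Fn → ℝ) (hc : ∀ t, c t ≠ 0 → t ∈ T0)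
    (h1 : P.Light j c T0) (h2 : c ∈ convexHull ℝ (P.Atom j)) (z : ℕ → ℝ) (B : ℝ)
    (hz : Kle P z B) : P.A j * |∑ t ∈ T0, c t * ev (hd t) z| ≤ B := by
  obtain ⟨S, hS⟩ : ∃ S : ℝ, S = ∑ t ∈ T0, |ev (hd t) z| := ⟨_, rfl⟩
  have hS0 : 0 ≤ S := by
    rw [hS]
    exact Finset.sum_nonneg fun _ _ => abs_nonneg _
  have hA0 : (0 : ℝ) ≤ P.A j := Nat.cast_nonneg _
  refine le_of_forall_pos_le_add fun δ hδ => ?_
  obtain ⟨ε, hε⟩ : ∃ ε : ℝ, ε = δ / (P.A j * S + 1) := ⟨_, rfl⟩
  have hden : 0 < (P.A j : ℝ) * S + 1 := by positivity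
  have hε0 : 0 < ε := by
    rw [hε]
    positivity
  choose q ρ hρ0 hρ1 hq hqε using fun t => rat_app (c t) ε hε0
  have hq0 : ∀ t, q t ≠ 0 → t ∈ T0 := by
    intro t ht
    apply hc
    intro h
    apply ht
    have h3 := hq t
    rw [h, mul_zero] at h3
    exact_mod_cast h3
  have hqle : ∀ t, |(q t : ℝ)| ≤ |c t| := by
    intro t
    rw [hq t, abs_mul, abs_of_nonneg (hρ0 t)]
    calc ρ t * |c t| ≤ 1 * |c t| := mul_le_mul_of_nonneg_right (hρ1 t) (abs_nonneg _)
      _ = |c t| := one_mul _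
  obtain ⟨cc, hcc⟩ : ∃ cc : List Fn →₀ ℚ, ∀ t, cc t = q t :=
    ⟨Finsupp.onFinset T0 q hq0, fun t => rfl⟩
  have hsub : cc.support ⊆ T0 := by
    intro t ht
    rw [Finsupp.mem_support_iff, hcc] at ht
    exact hq0 t ht
  obtain ⟨b, hb⟩ : ∃ b : ℕ, ∀ t ∈ T0, res 0 b (hd t) = hd t := by
    refine ⟨(T0.sup fun t => (hd t).support.sup blk) + 1, fun t ht => res_eq_self _ _ _
      fun i hi => ⟨Nat.zero_le _, ?_⟩⟩
    refine Nat.lt_succ_of_le ?_
    exact (Finset.le_sup (f := blk) hi).trans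
      (Finset.le_sup (f := fun t => (hd t).support.sup blk) ht)
  have hIn : InK P (some (2 * j + 1))
      ((P.A j : ℚ) • ∑ t ∈ cc.support, cc t • res 0 b (hd t)) := by
    refine InK.spec (2 * j + 1) j 0 b rfl cc (fun t ht => (hT0 t (hsub ht)).1)
      (fun t ht => (hT0 t (hsub ht)).2) (fun s => ?_) ?_
    · refine le_trans ?_ (h1 s)
      refine le_trans (Finset.sum_le_sum_of_subset_of_nonneg
        (t := T0.filter (fun t => t <:+ s)) (fun t ht => ?_) fun _ _ _ => abs_nonneg _) ?_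
      · rw [Finset.mem_filter] at ht ⊢
        exact ⟨hsub ht.1, ht.2⟩
      · refine Finset.sum_le_sum fun t _ => ?_
        show |(cc t : ℝ)| ≤ |c t|
        rw [hcc]
        exact hqle t
    · have h3 := mul_hull j ρ hρ0 hρ1 c h2
      have h4 : (fun t => (cc t : ℝ)) = fun t => ρ t * c t := by
        funext t
        rw [hcc, hq]
      rw [h4]
      exact h3
  have hev := hz _ ⟨_, hIn⟩
  rw [ev_smul_left, ev_sum_left, abs_mul] at hev
  have hAc : |(((P.A j : ℕ) : ℚ) : ℝ)| = (P.A j : ℝ) := by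
    rw [Rat.cast_natCast, abs_of_nonneg hA0]
  rw [hAc] at hev
  have hsum : ∑ t ∈ cc.support, ev (cc t • res 0 b (hd t)) z =
      ∑ t ∈ T0, (q t : ℝ) * ev (hd t) z := by
    have h5 : ∑ t ∈ cc.support, ev (cc t • res 0 b (hd t)) z =
        ∑ t ∈ cc.support, (q t : ℝ) * ev (hd t) z := by
      refine Finset.sum_congr rfl fun t ht => ?_
      rw [ev_smul_left, hcc, hb t (hsub ht)]
    rw [h5]
    refine Finset.sum_subset hsub fun t _ ht => ?_
    rw [Finsupp.notMem_support_iff, hcc] at ht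
    rw [ht, Rat.cast_zero, zero_mul]
  rw [hsum] at hev
  have hdiff : |∑ t ∈ T0, c t * ev (hd t) z| ≤
      |∑ t ∈ T0, (q t : ℝ) * ev (hd t) z| + ε * S := by
    have h5 : ∑ t ∈ T0, c t * ev (hd t) z = ∑ t ∈ T0, (q t : ℝ) * ev (hd t) z +
        ∑ t ∈ T0, (c t - q t) * ev (hd t) z := by
      rw [← Finset.sum_add_distrib]
      exact Finset.sum_congr rfl fun t _ => by ring
    rw [h5]
    refine (abs_add_le _ _).trans (add_le_add (le_refl _) ?_)
    refine (Finset.abs_sum_le_sum_abs _ _).trans ?_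
    rw [hS, Finset.mul_sum]
    refine Finset.sum_le_sum fun t _ => ?_
    rw [abs_mul]
    refine mul_le_mul_of_nonneg_right ?_ (abs_nonneg _)
    rw [abs_sub_comm]
    exact hqε t
  have h6 : (P.A j : ℝ) * (ε * S) ≤ δ := by
    have h7 : ε * (P.A j * S + 1) = δ := by
      rw [hε]
      field_simp
    nlinarith
  calc (P.A j : ℝ) * |∑ t ∈ T0, c t * ev (hd t) z|
      ≤ P.A j * (|∑ t ∈ T0, (q t : ℝ) * ev (hd t) z| + ε * S) :=
        mul_le_mul_of_nonneg_left hdiff hA0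
    _ = P.A j * |∑ t ∈ T0, (q t : ℝ) * ev (hd t) z| + P.A j * (ε * S) := by ring
    _ ≤ B + δ := add_le_add hev h6

end Pool.Agent.HI61
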