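import Pool.Agent.HI61.WDefs3

/-!
# HI61/MilPet : uniformly convex Banach spaces are reflexive (Milman-Pettis)

PROOFS.
`helly`: let `Φ ∈ X**`, `‖Φ‖ ≤ 1`, `f : Fin n → X*`, `ε > 0`: there is `x`, `‖x‖ ≤ 1 + ε`, with `f_i x = Φ f_i` for all `i`.  Let
`T : X → ℝ^n`, `T x = (f_i x)_i` and `a = (Φ f_i)_i`.  `a ∈ range T`: otherwise some linear `λ` on `ℝ^n` vanishes on `range T`
and `λ a ≠ 0`; then `∑ λ_i f_i = 0` but `∑ λ_i Φ f_i ≠ 0`, contradiction.  The set `D = T (ball 0 (1 + ε))` (open ball) is convex,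
symmetric, and open in `range T`; if `a ∉ D`, separate: there is `λ` with `λ (T x) < λ a`... i.e. for `g = ∑ λ_i f_i`:
`g x ≤ Φ g` for all `‖x‖ < 1 + ε` and `g ≠ 0`, so `(1 + ε) ‖g‖ ≤ Φ g ≤ ‖g‖`, contradiction (if `g = 0` then `λ` vanishes on
`range T ∋ a`, not a strict separation).
(One may use the quotient `X / ⋂ ker f_i`, finite dimensional, instead.)
`reflexive_of_uniformConvex`: let `Φ ∈ X**`, w.l.o.g. `‖Φ‖ = 1`.  Choose `g_n ∈ X*`, `‖g_n‖ ≤ 1`, `Φ g_n ≥ 1 - 1/(n+1)`.  By `helly` choose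
`x_n`, `‖x_n‖ ≤ 1 + 1/(n+1)`, with `g_i x_n = Φ g_i` for `i ≤ n`.  `(x_n)` is Cauchy: for `m ≥ n`,
`‖x_n + x_m‖ ≥ g_n (x_n + x_m) = 2 Φ g_n ≥ 2 - 2/(n+1)` while the norms are at most `1 + 1/(n+1)`; uniform convexity
(`exists_forall_closed_ball_dist_add_le_two_mul_sub` or after scaling into the unit ball) gives `‖x_n - x_m‖ → 0`.  Let
`x = lim x_n`; `‖x‖ ≤ 1`, `g_i x = Φ g_i` for all `i`.  Let `f ∈ X*` be arbitrary: repeat the construction with the
functionals `f, g_0, g_1, ...` to get `x'` with `‖x'‖ ≤ 1`, `g_i x' = Φ g_i`, `f x' = Φ f`.  Then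
`‖x + x'‖ ≥ g_i (x + x') ≥ 2 - 2/(i+1)` for all `i`, so `‖x + x'‖ = 2` and `x = x'` by (uniform) convexity.  So `f x = Φ f`.
-/

namespace Pool.Agent.HI61

/-- the finitely many equations are solvable -/
private theorem solvable (X : Type*) [NormedAddCommGroup X] [NormedSpace ℝ X] (n : ℕ)
    (f : Fin n → (X →L[ℝ] ℝ)) (Φ : (X →L[ℝ] ℝ) →L[ℝ] ℝ) : ∃ x : X, ∀ i, f i x = Φ (f i) := by
  obtain ⟨T, hT⟩ : ∃ T : X →ₗ[ℝ] (Fin n → ℝ), T = LinearMap.pi fun i => (f i : X →ₗ[ℝ] ℝ) :=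
    ⟨_, rfl⟩
  by_contra hcon
  have ha : (fun i => Φ (f i)) ∉ LinearMap.range T := by
    rintro ⟨x, hx⟩
    apply hcon
    refine ⟨x, fun i => ?_⟩
    have h1 := congrFun hx i
    rw [hT] at h1
    exact h1
  obtain ⟨l, hl, hker⟩ := Submodule.exists_le_ker_of_notMem ha
  have hg : ∑ i, l (Pi.single i 1) • f i = 0 := by
    ext x
    have h1 : T x ∈ LinearMap.ker l := hker ⟨x, rfl⟩
    rw [LinearMap.mem_ker] at h1
    have h2 : T x = ∑ i, (f i x) • (Pi.single i (1 : ℝ) : Fin n → ℝ) := by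
      rw [hT]
      ext j
      simp [Finset.sum_apply, Pi.single_apply]
    rw [h2, map_sum] at h1
    rw [sum_apply]
    rw [zero_apply, ← h1]
    refine Finset.sum_congr rfl fun i _ => ?_
    rw [map_smul, smul_apply, smul_eq_mul, smul_eq_mul, mul_comm]
  apply hl
  have h3 : (fun i => Φ (f i)) = ∑ i, (Φ (f i)) • (Pi.single i (1 : ℝ) : Fin n → ℝ) := by
    ext j
    simp [Finset.sum_apply, Pi.single_apply]
  rw [h3, map_sum]
  have h4 := congrArg Φ hg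
  rw [map_sum, map_zero] at h4
  rw [← h4]
  refine Finset.sum_congr rfl fun i _ => ?_
  rw [map_smul, map_smul, smul_eq_mul, smul_eq_mul, mul_comm]

theorem helly (X : Type*) [NormedAddCommGroup X] [NormedSpace ℝ X] (n : ℕ)
    (f : Fin n → (X →L[ℝ] ℝ)) (Φ : (X →L[ℝ] ℝ) →L[ℝ] ℝ) (hΦ : ‖Φ‖ ≤ 1) (ε : ℝ) (hε : 0 < ε) :
    ∃ x : X, ‖x‖ ≤ 1 + ε ∧ ∀ i, f i x = Φ (f i) := by
  obtain ⟨x₀, hx₀⟩ := solvable X n f Φ
  obtain ⟨S, hS⟩ : ∃ S : Submodule ℝ X, S = ⨅ i, LinearMap.ker (f i : X →ₗ[ℝ] ℝ) := ⟨_, rfl⟩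
  have hmem : ∀ x, x ∈ S ↔ ∀ i, f i x = 0 := by
    intro x
    rw [hS, Submodule.mem_iInf]
    rfl
  have hclosed : IsClosed (S : Set X) := by
    have h1 : (S : Set X) = ⋂ i, {x | f i x = 0} := by
      ext x
      rw [Set.mem_iInter]
      exact hmem x
    rw [h1]
    exact isClosed_iInter fun i => isClosed_eq (f i).continuous continuous_const
  obtain ⟨g, hg1, hg2⟩ := exists_dual_vector'' ℝ (Submodule.Quotient.mk x₀ : X ⧸ S)
  have hG : ∃ G : X →L[ℝ] ℝ, ‖G‖ ≤ 1 ∧ ∀ x, G x = g (Submodule.Quotient.mk x : X ⧸ S) := by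
    refine ⟨LinearMap.mkContinuous ((g : (X ⧸ S) →ₗ[ℝ] ℝ) ∘ₗ S.mkQ) 1 (fun x => ?_), ?_, fun x => rfl⟩
    · have h1 := g.le_opNorm (Submodule.Quotient.mk x : X ⧸ S)
      have h2 := Submodule.Quotient.norm_mk_le S x
      refine h1.trans ?_
      exact mul_le_mul hg1 h2 (norm_nonneg _) zero_le_one
    · exact LinearMap.mkContinuous_norm_le _ zero_le_one _
  obtain ⟨G, hG1, hG2⟩ := hG
  have hspan : (G : X →ₗ[ℝ] ℝ) ∈ Submodule.span ℝ
      (Set.range fun i => (f i : X →ₗ[ℝ] ℝ)) := by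
    refine mem_span_of_iInf_ker_le_ker ?_
    intro x hx
    rw [← hS] at hx
    rw [LinearMap.mem_ker]
    show G x = 0
    rw [hG2, (Submodule.Quotient.mk_eq_zero S).2 hx, map_zero]
  obtain ⟨c, hc⟩ := (Submodule.mem_span_range_iff_exists_fun ℝ).1 hspan
  have hGc : G = ∑ i, c i • f i := by
    ext x
    have h1 := congrArg (fun L : X →ₗ[ℝ] ℝ => L x) hc
    simp only [LinearMap.sum_apply, LinearMap.smul_apply] at h1
    rw [sum_apply]
    exact h1.symm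
  have h1 : Φ G = G x₀ := by
    rw [hGc, map_sum, sum_apply]
    refine Finset.sum_congr rfl fun i _ => ?_
    rw [map_smul, smul_apply, hx₀]
  have h2 : ‖(Submodule.Quotient.mk x₀ : X ⧸ S)‖ ≤ 1 := by
    have h3 : ‖(Submodule.Quotient.mk x₀ : X ⧸ S)‖ = Φ G := by
      rw [h1, hG2, hg2]
      rfl
    rw [h3]
    refine (le_abs_self _).trans ?_
    rw [← Real.norm_eq_abs]
    refine (Φ.le_opNorm G).trans ?_
    calc ‖Φ‖ * ‖G‖ ≤ 1 * 1 := mul_le_mul hΦ hG1 (norm_nonneg _) zero_le_one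
      _ = 1 := one_mul 1
  obtain ⟨x, hx1, hx2⟩ := Submodule.Quotient.norm_mk_lt
    (Submodule.Quotient.mk x₀ : X ⧸ S) hε
  refine ⟨x, by linarith, fun i => ?_⟩
  have h3 : x - x₀ ∈ S := (Submodule.Quotient.eq S).1 hx1
  have h4 := (hmem _).1 h3 i
  rw [map_sub, sub_eq_zero] at h4
  rw [h4, hx₀]

private theorem reflexive_one (X : Type*) [NormedAddCommGroup X] [NormedSpace ℝ X]
    [CompleteSpace X] [UniformConvexSpace X] (Φ : (X →L[ℝ] ℝ) →L[ℝ] ℝ) (hΦ : ‖Φ‖ = 1) :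
    ∃ x : X, ∀ f : X →L[ℝ] ℝ, f x = Φ f := by
  classical
  have hex : ∀ p : Finset (X →L[ℝ] ℝ) × ℕ, ∃ x : X, ‖x‖ ≤ 1 + 1 / ((p.2 : ℝ) + 1) ∧
      ∀ f ∈ p.1, f x = Φ f := by
    intro p
    obtain ⟨x, hx1, hx2⟩ := helly X p.1.card (fun i => (p.1.equivFin.symm i).1) Φ hΦ.le
      (1 / ((p.2 : ℝ) + 1)) (by positivity)
    refine ⟨x, hx1, fun f hf => ?_⟩
    have h1 := hx2 (p.1.equivFin ⟨f, hf⟩)
    rw [Equiv.symm_apply_apply] at h1
    exact h1
  choose u hu1 hu2 using hex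
  have hcau : CauchySeq u := by
    rw [Metric.cauchySeq_iff']
    intro ε hε
    obtain ⟨δ, hδ, hconv⟩ := exists_forall_closed_ball_dist_add_le_two_sub X
      (show 0 < ε / 2 by positivity)
    obtain ⟨η, hη⟩ : ∃ η, η = min 1 (δ / 5) := ⟨_, rfl⟩
    have hη0 : 0 < η := by rw [hη]; exact lt_min one_pos (by positivity)
    have hη1 : η ≤ 1 := by rw [hη]; exact min_le_left _ _
    have hη2 : η ≤ δ / 5 := by rw [hη]; exact min_le_right _ _
    obtain ⟨k, hk⟩ := exists_nat_one_div_lt hη0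
    -- a functional which almost norms
    obtain ⟨g, hg1, hg2⟩ : ∃ g : X →L[ℝ] ℝ, ‖g‖ ≤ 1 ∧ 1 - η ≤ Φ g := by
      by_contra hcon
      push Not at hcon
      have h1 : ‖Φ‖ ≤ max (1 - η) 0 := by
        refine Φ.opNorm_le_bound (le_max_right _ _) fun g => ?_
        rcases eq_or_ne g 0 with rfl | hg
        · simp
        · have hgn : 0 < ‖g‖ := norm_pos_iff.2 hg
          have hs : ∀ σ : ℝ, |σ| = 1 → σ * Φ g ≤ (1 - η) * ‖g‖ := by
            intro σ hσ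
            have h2 := hcon ((σ * ‖g‖⁻¹) • g) (by
              rw [norm_smul, norm_mul, norm_inv, norm_norm, Real.norm_eq_abs, hσ, one_mul,
                inv_mul_cancel₀ hgn.ne'])
            rw [map_smul, smul_eq_mul] at h2
            have h3 : σ * Φ g = (σ * ‖g‖⁻¹ * Φ g) * ‖g‖ := by
              field_simp
            rw [h3]
            exact mul_le_mul_of_nonneg_right h2.le hgn.le
          have h4 := hs 1 (by norm_num)
          have h5 := hs (-1) (by norm_num)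
          rw [Real.norm_eq_abs]
          have h6 : |Φ g| ≤ (1 - η) * ‖g‖ := abs_le.2 ⟨by linarith, by linarith⟩
          exact h6.trans (mul_le_mul_of_nonneg_right (le_max_left _ _) hgn.le)
      rw [hΦ] at h1
      rcases le_max_iff.1 h1 with h2 | h2
      · linarith
      · linarith
    refine ⟨({g}, k), fun p hp => ?_⟩
    have hgp : g ∈ p.1 := hp.1 (Finset.mem_singleton_self g)
    have hkp : k ≤ p.2 := hp.2
    have hb : ∀ r : Finset (X →L[ℝ] ℝ) × ℕ, k ≤ r.2 → ‖u r‖ ≤ 1 + η := by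
      intro r hr
      refine (hu1 r).trans ?_
      have h1 : (1 : ℝ) / ((r.2 : ℝ) + 1) ≤ 1 / ((k : ℝ) + 1) := by
        refine one_div_le_one_div_of_le (by positivity) ?_
        have : (k : ℝ) ≤ r.2 := by exact_mod_cast hr
        linarith
      linarith
    have hx := hb p hkp
    have hy := hb ({g}, k) le_rfl
    obtain ⟨x, hxe⟩ : ∃ x, x = u p := ⟨_, rfl⟩
    obtain ⟨y, hye⟩ : ∃ y, y = u ({g}, k) := ⟨_, rfl⟩
    have hgx : g x = Φ g := by rw [hxe]; exact hu2 p g hgp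
    have hgy : g y = Φ g := by rw [hye]; exact hu2 ({g}, k) g (Finset.mem_singleton_self g)
    rw [← hxe] at hx
    rw [← hye] at hy
    rw [← hxe, ← hye, dist_eq_norm]
    by_contra hcon
    push Not at hcon
    obtain ⟨t, ht⟩ : ∃ t, t = (1 + η)⁻¹ := ⟨_, rfl⟩
    have ht0 : 0 < t := by rw [ht]; positivity
    have ht1 : 1 / 2 ≤ t := by
      rw [ht, one_div]
      exact inv_anti₀ (by positivity) (by linarith)
    have htη : t * (1 + η) = 1 := by rw [ht]; exact inv_mul_cancel₀ (by positivity)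
    have hn : ∀ z : X, ‖t • z‖ = t * ‖z‖ := fun z => by
      rw [norm_smul, Real.norm_eq_abs, abs_of_pos ht0]
    have h1 : ‖t • x‖ ≤ 1 := by
      rw [hn, ← htη]
      exact mul_le_mul_of_nonneg_left hx ht0.le
    have h2 : ‖t • y‖ ≤ 1 := by
      rw [hn, ← htη]
      exact mul_le_mul_of_nonneg_left hy ht0.le
    have h3 : ε / 2 ≤ ‖t • x - t • y‖ := by
      rw [← smul_sub, hn]
      nlinarith
    have h4 := hconv h1 h2 h3
    rw [← smul_add, hn] at h4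
    have h5 : 2 * (1 - η) ≤ ‖x + y‖ := by
      have h6 : g (x + y) ≤ ‖x + y‖ := by
        refine (le_abs_self _).trans ?_
        rw [← Real.norm_eq_abs]
        refine (g.le_opNorm _).trans ?_
        have := mul_le_mul_of_nonneg_right hg1 (norm_nonneg (x + y))
        rwa [one_mul] at this
      rw [map_add, hgx, hgy] at h6
      linarith
    have h7 : t * (2 * (1 - η)) ≤ 2 - δ := (mul_le_mul_of_nonneg_left h5 ht0.le).trans h4
    have h8 : t ≤ 1 := by nlinarith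
    -- `t (2 - 2 η) = 2 - 4 η t`
    have h9 : t * (2 * (1 - η)) = 2 * (t * (1 + η)) - 4 * (t * η) := by ring
    rw [h9, htη] at h7
    nlinarith
  obtain ⟨x, hx⟩ := cauchySeq_tendsto_of_complete hcau
  refine ⟨x, fun f => ?_⟩
  have h1 : Filter.Tendsto (fun p => f (u p)) Filter.atTop (nhds (f x)) :=
    (f.continuous.tendsto x).comp hx
  have h2 : Filter.Tendsto (fun p => f (u p)) Filter.atTop (nhds (Φ f)) := by
    refine tendsto_const_nhds.congr' ?_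
    filter_upwards [Filter.eventually_ge_atTop (({f}, 0) : Finset (X →L[ℝ] ℝ) × ℕ)] with p hp
    exact (hu2 p f (hp.1 (Finset.mem_singleton_self f))).symm
  exact tendsto_nhds_unique h1 h2

private theorem smul_bound (X : Type*) [NormedAddCommGroup X] [NormedSpace ℝ X]
    (Φ : (X →L[ℝ] ℝ) →L[ℝ] ℝ) (c : ℝ) : ‖c • Φ‖ ≤ |c| * ‖Φ‖ := by
  refine ContinuousLinearMap.opNorm_le_bound _ (mul_nonneg (abs_nonneg c) (norm_nonneg Φ))
    fun g => ?_
  rw [smul_apply, norm_smul, mul_assoc]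
  exact mul_le_mul_of_nonneg_left (Φ.le_opNorm g) (norm_nonneg c)

private theorem reflexive_all (X : Type*) [NormedAddCommGroup X] [NormedSpace ℝ X]
    [CompleteSpace X] [UniformConvexSpace X] (Φ : (X →L[ℝ] ℝ) →L[ℝ] ℝ) :
    ∃ x : X, ∀ f : X →L[ℝ] ℝ, f x = Φ f := by
  by_cases hne : ‖Φ‖ = 0
  · refine ⟨0, fun f => ?_⟩
    have h1 := Φ.le_opNorm f
    rw [hne, zero_mul] at h1
    rw [map_zero, norm_le_zero_iff.1 h1]
  · have hn0 : 0 ≤ ‖Φ‖ := norm_nonneg Φ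
    have hn : 0 < ‖Φ‖ := lt_of_le_of_ne hn0 (Ne.symm hne)
    have h1 : ‖(‖Φ‖⁻¹ : ℝ) • Φ‖ = 1 := by
      refine le_antisymm ?_ ?_
      · refine (smul_bound X Φ _).trans (le_of_eq ?_)
        rw [abs_of_pos (inv_pos.2 hn), inv_mul_cancel₀ hne]
      · have h2 := smul_bound X ((‖Φ‖⁻¹ : ℝ) • Φ) ‖Φ‖
        rw [smul_smul, mul_inv_cancel₀ hne, one_smul, abs_of_pos hn] at h2
        exact le_of_mul_le_mul_left (by rwa [mul_one]) hn
    obtain ⟨x, hx⟩ := reflexive_one X (‖Φ‖⁻¹ • Φ) h1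
    refine ⟨‖Φ‖ • x, fun f => ?_⟩
    rw [map_smul, hx f]
    show ‖Φ‖ * (‖Φ‖⁻¹ * Φ f) = Φ f
    field_simp

theorem reflexive_of_uniformConvex (X : Type*) [NormedAddCommGroup X] [NormedSpace ℝ X]
    [CompleteSpace X] [UniformConvexSpace X] : Reflexive' X := by
  intro Φ
  obtain ⟨x, hx⟩ := reflexive_all X Φ
  refine ⟨x, ?_⟩
  ext f
  exact hx f

end Pool.Agent.HI61
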