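import Pool.Agent.HI61.TreeBasic
import Pool.Agent.HI61.KInduct

/-!
# HI61/OffBranch : tree functionals against the vectors of a branch

Notation: `x t = comb (u t)`, `w_t = sig j (p t)`, `ℓ = ell j`, `S ⊆ range ℓ`, `|θ| ≤ 1`.
PROOFS.
`on_iff`: the suffixes of `p ℓ` different from `[]` are exactly the `p (t+1)`, `t < ℓ` (`ps`, `p0`).
`on_value`: `res a b (g t)` has its support in the blocks `[S t, S (t+1))` (`gsupp`), so it only
sees `x t` (`RIS.supp`, `RIS.mono`); `|ev| ≤ 98` by `R1` (`K_res`).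
`on_one`: `one`.
`off_chain`: let `t' = g' :: p'` be a tree node which is not a suffix of `p ℓ`, `w' = sig j p' ≥ W j`,
`f = res a b g'`, of type `2 w'` (`tree_hd`, `InK_res`).  For `t` with `w_t ≠ w'`:
 * `w' < w_t`: `R2` (`2 w' < lo t = 2 w_t`) and `dom_K`: `|ev f (x t)| ≤ 98 / M (2 w') ≤ 1 / ℓ^2`
   (`W1`, `M` monotone);
 * `w' > w_t`: `big`: `≤ 16 M / L^{1/r} + 62 M / M (2 w')` with `M = M (2 w_t)`, `L = L (2 w_t)`.  By
   `Lreg`, `L^{1/r} ≥ M * 6 * (8 Lam)^e ≥ 6 M 8^e`, `8^e ≥ 2^e = M / 8 ≥ 15 ℓ^2` (`W1`), so the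
   first term is `≤ 1 / (2 ℓ^2)`; by `e_step`, `M (2 w') ≥ M (2 w_t + 1) ≥ M^2`,
   so the second one is `≤ 62 / M ≤ 1 / (2 ℓ^2)`.
 Hence, if `p'` is not one of the `p t`, `t < ℓ` (then `w' ≠ w_t` for all `t`, `sig_inj`), the value
 at `lc x S θ` is at most `ℓ / ℓ^2 = 1 / ℓ`.  If `p' = p t` then it is at most `98 + 1/ℓ ≤ 99` (`R1`).
 On a chain `s` at most one off-branch node has `p' ∈ {p t}`: if `t1' <:+ t2'`, `t1' ≠ t2'` are two
 such, then `t1' <:+ p2' = p t`, so `t1'` would be a suffix of `p ℓ`.  The chain contains at most `ℓ`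
 nodes of `T0` (different lengths in `[1, ℓ]`; `chain_enum`).  Total `≤ 99 + ℓ · (1/ℓ) = 100`.
(`ell j = L (2 j + 1) ≥ 1` by `L_pos`.)
-/

namespace Pool.Agent.HI61

open Finset
open scoped Classical

variable {P : Par} {Z : BSeq} {G : ℕ → (ℕ →₀ ℝ) → Prop} {j : ℕ}

theorem on_iff (B : Branch P Z G j) (n : ℕ) (t : List Fn) (ht : t ≠ []) :
    t <:+ B.p n ↔ ∃ k < n, t = B.p (k + 1) := by
  induction n with
  | zero =>
    rw [B.p0, List.suffix_nil]
    constructor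
    · intro h; exact absurd h ht
    · rintro ⟨k, hk, _⟩; omega
  | succ n ih =>
    rw [B.ps, List.suffix_cons_iff, ih]
    constructor
    · rintro (h | ⟨k, hk, h⟩)
      · exact ⟨n, by omega, by rw [B.ps]; exact h⟩
      · exact ⟨k, by omega, h⟩
    · rintro ⟨k, hk, h⟩
      rcases Nat.lt_succ_iff_lt_or_eq.1 hk with hk | hk
      · exact Or.inr ⟨k, hk, h⟩
      · left; rw [h, hk, B.ps]

private theorem p_length (B : Branch P Z G j) (n : ℕ) : (B.p n).length = n := by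
  induction n with
  | zero => rw [B.p0]; rfl
  | succ n ih => rw [B.ps, List.length_cons, ih]

theorem p_inj (B : Branch P Z G j) : Function.Injective B.p := by
  intro a b h
  have := congrArg List.length h
  rwa [p_length, p_length] at this

private theorem p_suffix (B : Branch P Z G j) {k n : ℕ} (h : k ≤ n) : B.p k <:+ B.p n := by
  induction n, h using Nat.le_induction with
  | base => exact List.suffix_rfl
  | succ n _ ih => rw [B.ps n]; exact ih.trans (List.suffix_cons _ _)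

private theorem g_InK (B : Branch P Z G j) {t : ℕ} (ht : t < P.ell j) :
    InK P (some (2 * P.sig j (B.p t))) (B.g t) := by
  have h := (B.tree t ht).2 (B.g t) (B.p t)
  rw [B.ps] at h
  exact h List.suffix_rfl

private theorem ev_block (B : Branch P Z G j) (S : Finset ℕ) (hS : S ⊆ range (P.ell j))
    (θ : ℕ → ℝ) (t : ℕ) (f : Fn)
    (hf : ∀ i ∈ f.support, B.S t ≤ blk i ∧ blk i < B.S (t + 1)) :
    ev f (lc (fun k => Z.comb (B.u k)) S θ) =
      if t ∈ S then θ t * ev f (Z.comb (B.u t)) else 0 := by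
  have h0 : ∀ k ∈ S, k ≠ t → θ k * ev f (Z.comb (B.u k)) = 0 := by
    intro k hk hkt
    have h1 : ev f (Z.comb (B.u k)) = 0 := by
      rw [ev_eq_sum]
      refine Finset.sum_eq_zero fun i hi => ?_
      by_contra hne
      have hx : Z.comb (B.u k) i ≠ 0 := fun h => hne (by rw [h, mul_zero])
      have h2 := B.ris.supp k (Finset.mem_range.1 (hS hk)) i hx
      have h3 := hf i hi
      rcases lt_or_gt_of_ne hkt with h | h
      · have h4 : B.S (k + 1) ≤ B.S t := B.ris.mono h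
        omega
      · have h4 : B.S (t + 1) ≤ B.S k := B.ris.mono h
        omega
    rw [h1, mul_zero]
  rw [ev_lc]
  split_ifs with hts
  · rw [Finset.sum_eq_single_of_mem t hts fun k hk hkt => h0 k hk hkt]
  · exact Finset.sum_eq_zero fun k hk => h0 k hk fun h => hts (h ▸ hk)

theorem on_value (hG : Good P) (B : Branch P Z G j) (S : Finset ℕ) (hS : S ⊆ range (P.ell j))
    (θ : ℕ → ℝ) (hθ : ∀ k, |θ k| ≤ 1) (t : ℕ) (ht : t < P.ell j) (a b : ℕ) :
    |ev (res a b (B.g t)) (lc (fun k => Z.comb (B.u k)) S θ)| ≤ 98 ∧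
      (t ∉ S → ev (res a b (B.g t)) (lc (fun k => Z.comb (B.u k)) S θ) = 0) := by
  have hf : ∀ i ∈ (res a b (B.g t)).support, B.S t ≤ blk i ∧ blk i < B.S (t + 1) := by
    intro i hi
    rw [res_support, Finset.mem_filter] at hi
    exact B.gsupp t ht i hi.1
  rw [ev_block B S hS θ t _ hf]
  constructor
  · split_ifs with h
    · have h1 : |ev (res a b (B.g t)) (Z.comb (B.u t))| ≤ 98 :=
        B.ris.R1 t ht _ (K_res hG ⟨_, g_InK B ht⟩ a b)
      rw [abs_mul]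
      calc |θ t| * |ev (res a b (B.g t)) (Z.comb (B.u t))| ≤ 1 * 98 :=
            mul_le_mul (hθ t) h1 (abs_nonneg _) zero_le_one
        _ = 98 := one_mul _
    · simp
  · intro h
    rw [if_neg h]

theorem on_one (hG : Good P) (B : Branch P Z G j) (S : Finset ℕ) (hS : S ⊆ range (P.ell j))
    (θ : ℕ → ℝ) (t : ℕ) (ht : t ∈ S) :
    ev (B.g t) (lc (fun k => Z.comb (B.u k)) S θ) = θ t := by
  have htl : t < P.ell j := Finset.mem_range.1 (hS ht)
  rw [ev_block B S hS θ t _ (B.gsupp t htl), if_pos ht, B.one t htl, mul_one]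

private theorem M_cast (κ : ℕ) : (P.M κ : ℝ) = 8 * 2 ^ P.e κ := by
  simp [Par.M]

private theorem M_pos (κ : ℕ) : (0 : ℝ) < P.M κ := by
  rw [M_cast]; positivity

private theorem e_mono (hG : Good P) : Monotone P.e :=
  monotone_nat_of_le_succ fun κ => by have := hG.e_step κ; omega

private theorem M_mono (hG : Good P) {κ κ' : ℕ} (h : κ ≤ κ') : (P.M κ : ℝ) ≤ P.M κ' := by
  rw [M_cast, M_cast]
  have := e_mono hG h
  have h2 : (2 : ℝ) ^ P.e κ ≤ 2 ^ P.e κ' := pow_le_pow_right₀ (by norm_num) this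
  linarith

private theorem M_sq (hG : Good P) {κ κ' : ℕ} (h : κ < κ') : (P.M κ : ℝ) ^ 2 ≤ P.M κ' := by
  refine le_trans ?_ (M_mono hG (Nat.succ_le_of_lt h))
  rw [M_cast, M_cast]
  have h1 := hG.e_step κ
  have h2 : (2 : ℝ) ^ (2 * P.e κ + 3) ≤ 2 ^ P.e (κ + 1) := pow_le_pow_right₀ (by norm_num) h1
  have h3 : (2 : ℝ) ^ (2 * P.e κ + 3) = 8 * (2 ^ P.e κ) ^ 2 := by
    rw [pow_add, pow_mul']; norm_num; ring
  have h4 : (8 * (2 : ℝ) ^ P.e κ) ^ 2 = 8 * (8 * (2 ^ P.e κ) ^ 2) := by ring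
  rw [h4, ← h3]
  show 8 * (2 : ℝ) ^ (2 * P.e κ + 3) ≤ 8 * 2 ^ P.e (κ + 1)
  linarith

private theorem ell_pos (hG : Good P) : (1 : ℝ) ≤ P.ell j := by
  exact_mod_cast hG.L_pos (2 * j + 1)

private theorem M_sig (hG : Good P) (t : List Fn) :
    124 * (P.ell j : ℝ) ^ 2 ≤ P.M (2 * P.sig j t) :=
  (hG.W1 j).trans (M_mono hG (by have := W_le_sig P j t; omega))

private theorem first_term (hG : Good P) (t : List Fn) :
    16 * ((P.M (2 * P.sig j t) : ℝ) / (P.L (2 * P.sig j t) : ℝ) ^ (1 / P.r)) ≤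
      1 / (2 * (P.ell j : ℝ) ^ 2) := by
  have hl := ell_pos (P := P) (j := j) hG
  have hM := M_sig (P := P) (j := j) hG t
  have hMpos := M_pos (P := P) (2 * P.sig j t)
  have hL := hG.Lreg (P.sig j t)
  have hLam : (1 : ℝ) ≤ P.Lam (2 * P.sig j t) := by
    have := hG.Lam_ge (2 * P.sig j t)
    exact_mod_cast (by omega : 1 ≤ P.Lam (2 * P.sig j t))
  have hc : (P.M (2 * P.sig j t) : ℝ) = 8 * 2 ^ P.e (2 * P.sig j t) := M_cast _
  obtain ⟨e, he⟩ : ∃ e, e = P.e (2 * P.sig j t) := ⟨_, rfl⟩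
  obtain ⟨M, hMe⟩ : ∃ M : ℝ, M = (P.M (2 * P.sig j t) : ℝ) := ⟨_, rfl⟩
  obtain ⟨Λ, hΛe⟩ : ∃ Λ : ℝ, Λ = (P.Lam (2 * P.sig j t) : ℝ) := ⟨_, rfl⟩
  obtain ⟨R, hRe⟩ : ∃ R : ℝ, R = (P.L (2 * P.sig j t) : ℝ) ^ (1 / P.r) := ⟨_, rfl⟩
  obtain ⟨l, hle⟩ : ∃ l : ℝ, l = (P.ell j : ℝ) := ⟨_, rfl⟩
  rw [← he, ← hMe, ← hΛe, ← hRe] at hL
  rw [← hMe, ← hRe, ← hle]
  rw [← hMe, ← he] at hc
  rw [← hMe, ← hle] at hM
  rw [← hMe] at hMpos
  rw [← hΛe] at hLam
  rw [← hle] at hl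
  have h1 : (2 : ℝ) ^ e ≤ (8 * Λ) ^ e := pow_le_pow_left₀ (by norm_num) (by linarith) e
  have h2 : 15 * l ^ 2 ≤ 2 ^ e := by nlinarith
  have h3 : (8 * Λ) ^ e ≤ (8 * Λ) ^ e * Λ := le_mul_of_one_le_right (by positivity) hLam
  have h4 : 90 * l ^ 2 ≤ 7 + 6 * (3 + (8 * Λ) ^ e) * Λ := by nlinarith
  have h5 : M * (90 * l ^ 2) ≤ R := (mul_le_mul_of_nonneg_left h4 hMpos.le).trans hL
  have hl2 : 0 < l ^ 2 := by positivity
  have h6 : 0 < M * (90 * l ^ 2) := by positivity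
  have h7 : 0 < R := h6.trans_le h5
  rw [← mul_div_assoc, div_le_div_iff₀ h7 (by positivity)]
  nlinarith

private theorem off_one (hG : Good P) (B : Branch P Z G j) (t : List Fn) (ht : Tree P j t)
    (k : ℕ) (hk : k < P.ell j) (hne : t.tail ≠ B.p k) (a b : ℕ) :
    |ev (res a b (hd t)) (Z.comb (B.u k))| ≤ 1 / (P.ell j : ℝ) ^ 2 := by
  have hl := ell_pos (P := P) (j := j) hG
  have hK : InK P (some (2 * P.sig j t.tail)) (res a b (hd t)) := InK_res hG (tree_hd ht) a b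
  have hsig : P.sig j t.tail ≠ P.sig j (B.p k) := fun h => hne (sig_inj P j h)
  have hM := M_sig (P := P) (j := j) hG t.tail
  have hl2 : 0 < (P.ell j : ℝ) ^ 2 := by positivity
  rcases lt_or_gt_of_ne hsig with h | h
  · have h1 : KS P (2 * P.sig j t.tail) (Z.comb (B.u k)) 98 :=
      B.ris.R2 k hk _ (by show 2 * P.sig j t.tail < 2 * P.sig j (B.p k); omega)
    refine (dom_K hG hK _ _ h1).trans ?_
    rw [div_le_div_iff₀ (M_pos _) hl2]
    linarith
  · have h1 := B.big k hk (2 * P.sig j t.tail) (by omega) _ hK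
    refine h1.trans ?_
    have h2 := first_term (P := P) (j := j) hG (B.p k)
    have h3 : 62 * (P.M (2 * P.sig j (B.p k)) : ℝ) / P.M (2 * P.sig j t.tail) ≤
        1 / (2 * (P.ell j : ℝ) ^ 2) := by
      have h4 := M_sq (P := P) hG (show 2 * P.sig j (B.p k) < 2 * P.sig j t.tail by omega)
      have h5 := M_sig (P := P) (j := j) hG (B.p k)
      have h6 := M_pos (P := P) (2 * P.sig j (B.p k))
      rw [div_le_div_iff₀ (M_pos _) (by positivity)]
      nlinarith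
    have h7 : 1 / (2 * (P.ell j : ℝ) ^ 2) + 1 / (2 * (P.ell j : ℝ) ^ 2) =
        1 / (P.ell j : ℝ) ^ 2 := by
      field_simp; norm_num
    linarith

private theorem off_node (hG : Good P) (B : Branch P Z G j) (S : Finset ℕ)
    (hS : S ⊆ range (P.ell j)) (θ : ℕ → ℝ) (hθ : ∀ k, |θ k| ≤ 1) (t : List Fn)
    (ht : Tree P j t) (a b : ℕ) :
    |ev (res a b (hd t)) (lc (fun k => Z.comb (B.u k)) S θ)| ≤
      1 / (P.ell j : ℝ) + if ∃ k < P.ell j, t.tail = B.p k then 98 else 0 := by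
  have hl := ell_pos (P := P) (j := j) hG
  have hl2 : 0 < (P.ell j : ℝ) ^ 2 := by positivity
  have hcard : (S.card : ℝ) ≤ P.ell j := by
    have := Finset.card_le_card hS
    rw [Finset.card_range] at this
    exact_mod_cast this
  have hsum : ∑ _k ∈ S, 1 / (P.ell j : ℝ) ^ 2 ≤ 1 / (P.ell j : ℝ) := by
    rw [Finset.sum_const, nsmul_eq_mul, mul_one_div, div_le_div_iff₀ hl2 (by linarith)]
    nlinarith
  rw [ev_lc]
  have h1 : |∑ k ∈ S, θ k * ev (res a b (hd t)) (Z.comb (B.u k))| ≤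
      ∑ k ∈ S, |ev (res a b (hd t)) (Z.comb (B.u k))| := by
    refine (Finset.abs_sum_le_sum_abs _ _).trans (Finset.sum_le_sum fun k _ => ?_)
    rw [abs_mul]
    exact (mul_le_mul_of_nonneg_right (hθ k) (abs_nonneg _)).trans_eq (one_mul _)
  refine h1.trans ?_
  by_cases hon : ∃ k < P.ell j, t.tail = B.p k
  · rw [if_pos hon]
    obtain ⟨k0, hk0, hk0e⟩ := hon
    have h2 : ∀ k ∈ S, |ev (res a b (hd t)) (Z.comb (B.u k))| ≤
        1 / (P.ell j : ℝ) ^ 2 + if k = k0 then 98 else 0 := by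
      intro k hk
      by_cases hkk : k = k0
      · rw [if_pos hkk]
        have h3 : |ev (res a b (hd t)) (Z.comb (B.u k))| ≤ 98 :=
          B.ris.R1 k (Finset.mem_range.1 (hS hk)) _ (K_res hG ⟨_, tree_hd ht⟩ a b)
        have : 0 ≤ 1 / (P.ell j : ℝ) ^ 2 := by positivity
        linarith
      · rw [if_neg hkk, add_zero]
        exact off_one hG B t ht k (Finset.mem_range.1 (hS hk))
          (fun h => hkk (p_inj B (h.symm.trans hk0e))) a b
    refine (Finset.sum_le_sum h2).trans ?_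
    rw [Finset.sum_add_distrib, Finset.sum_ite_eq']
    split_ifs
    · linarith
    · linarith
  · rw [if_neg hon, add_zero]
    refine (Finset.sum_le_sum fun k hk => ?_).trans hsum
    exact off_one hG B t ht k (Finset.mem_range.1 (hS hk))
      (fun h => hon ⟨k, Finset.mem_range.1 (hS hk), h⟩) a b

theorem off_chain (hG : Good P) (B : Branch P Z G j) (S : Finset ℕ) (hS : S ⊆ range (P.ell j))
    (θ : ℕ → ℝ) (hθ : ∀ k, |θ k| ≤ 1) (T0 : Finset (List Fn)) (hT0 : ∀ t ∈ T0, Tree P j t)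
    (a b : ℕ) (s : List Fn) :
    ∑ t ∈ T0.filter (fun t => t <:+ s ∧ ¬ t <:+ B.p (P.ell j)),
      |ev (res a b (hd t)) (lc (fun k => Z.comb (B.u k)) S θ)| ≤ 100 := by
  have hl := ell_pos (P := P) (j := j) hG
  obtain ⟨F, hF⟩ : ∃ F, F = T0.filter (fun t => t <:+ s ∧ ¬ t <:+ B.p (P.ell j)) := ⟨_, rfl⟩
  have hFm : ∀ t ∈ F, t ∈ T0 ∧ t <:+ s ∧ ¬ t <:+ B.p (P.ell j) := by
    intro t ht; rw [hF, Finset.mem_filter] at ht; exact ht
  rw [← hF]
  have hFc : (F.card : ℝ) ≤ P.ell j := by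
    obtain ⟨n, e, hn, hinj, _, hmem⟩ := chain_enum T0 (fun t ht => (hT0 t ht).1) s
    have h1 : F ⊆ Finset.univ.image e := by
      intro t ht
      have h2 := hFm t ht
      obtain ⟨l, hl⟩ := (hmem t).1 (Finset.mem_filter.2 ⟨h2.1, h2.2.1⟩)
      exact Finset.mem_image.2 ⟨l, Finset.mem_univ _, hl⟩
    have h3 := Finset.card_le_card h1
    have h4 : (Finset.univ.image e).card ≤ n := by
      refine Finset.card_image_le.trans ?_
      simp
    exact_mod_cast h3.trans (h4.trans hn)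
  have hone : (F.filter fun t => ∃ k < P.ell j, t.tail = B.p k).card ≤ 1 := by
    rw [Finset.card_le_one]
    have key : ∀ t1 ∈ F, ∀ t2 ∈ F, (∃ k < P.ell j, t2.tail = B.p k) → t1 <:+ t2 → t1 = t2 := by
      intro t1 h1 t2 h2 h3 h4
      by_contra hne
      obtain ⟨k, hk, hke⟩ := h3
      obtain ⟨g, p, hgp⟩ := List.exists_cons_of_ne_nil (hT0 t2 (hFm t2 h2).1).1.1
      rw [hgp] at h4 hne hke
      rcases List.suffix_cons_iff.1 h4 with h5 | h5
      · exact hne h5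
      · have h6 : p = B.p k := hke
        rw [h6] at h5
        exact (hFm t1 h1).2.2 (h5.trans (p_suffix B hk.le))
    intro t1 h1 t2 h2
    rw [Finset.mem_filter] at h1 h2
    rcases List.suffix_or_suffix_of_suffix (hFm t1 h1.1).2.1 (hFm t2 h2.1).2.1 with h | h
    · exact key t1 h1.1 t2 h2.1 h2.2 h
    · exact (key t2 h2.1 t1 h1.1 h1.2 h).symm
  refine (Finset.sum_le_sum fun t ht => off_node hG B S hS θ hθ t (hT0 t (hFm t ht).1) a b).trans ?_
  rw [Finset.sum_add_distrib, Finset.sum_const, nsmul_eq_mul, ← Finset.sum_filter,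
    Finset.sum_const, nsmul_eq_mul]
  have h1 : (F.card : ℝ) * (1 / P.ell j) ≤ 1 := by
    rw [mul_one_div, div_le_one (by linarith)]
    exact hFc
  have h2 : (((F.filter fun t => ∃ k < P.ell j, t.tail = B.p k).card : ℕ) : ℝ) ≤ 1 := by
    exact_mod_cast hone
  linarith

end Pool.Agent.HI61
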