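import Pool.Agent.HI61.Split

/-!
# HI61/OneStep : one step of the basic inequality

PROOF.  Write `r = P.r ≥ 2`, `rc = r / (r - 1)` (conjugate exponents), `S2 = S2 s f S`,
`S1 = S \ S2`.  Every `k ∈ S1` is hit by at most one `f l`; put `S1(l) = {k ∈ S1 | Hit s (f l) k}`,
these sets are pairwise disjoint.  By `ev_lc` and `ev_eq_zero_of_not_hit`,
`∑_l d_l ev (f l) (lc x S θ) = ∑_{k ∈ S2} θ_k (∑_l d_l ev (f l) (x k))
   + ∑_l d_l ev (f l) (lc x S1(l) θ)`.
(1) For `k ∈ S2`: let `D_k = (∑_{l hits k} |d_l| ^ rc) ^ (1/rc)`.  If `D_k > 0`, then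
`R2` (with the coefficients `d_l / D_k` for `l` hitting `k`, `0` for the other `l`, and the same
functionals) gives `|∑_l d_l ev (f l) (x k)| ≤ C D_k` (`κ < lo k`); if `D_k = 0` all these `d_l`
vanish and the sum is zero (non-hitting `l` contribute `0`).
By Hölder (`Real.inner_le_Lp_mul_Lq`), `∑_{k ∈ S2} D_k ≤ (#S2) ^ (1/r) (∑_{k ∈ S2} D_k ^ rc) ^ (1/rc)`
and `∑_{k ∈ S2} D_k ^ rc = ∑_l |d_l| ^ rc #{k ∈ S2 | hit} ≤ 2` (`split_two`); so the first sum is at
most `2 C (#S2) ^ (1/r)`, and `#S2 ≤ min #S (L κ)` (`split_card`, `n ≤ L κ`).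
(2) Let `N1` be the number of the `l` with `S1(l) ≠ ∅`; `N1 ≤ min #S n`.  By `hf`,
`∑_l |d_l| |ev (f l) (lc x S1(l) θ)| ≤ ∑_{l : S1(l) ≠ ∅} |d_l| (C (1 + a + b #S1(l) ^ (1/r)) + ∑_{S1(l)} δ)`
`≤ C (1 + a) N1 ^ (1/r) + C b (∑_l #S1(l)) ^ (1/r) + ∑_{S1} δ`, by Hölder twice
(`∑_{N1 terms} |d_l| ≤ N1 ^ (1/r) ‖d‖_{rc}`, `∑ |d_l| #S1(l) ^ (1/r) ≤ ‖d‖_{rc} (∑ #S1(l)) ^ (1/r)`)
and `|d_l| ≤ 1`.
Total `≤ C ((3 + a) (min #S (L κ)) ^ (1/r) + b #S ^ (1/r)) + ∑_S δ`.
-/

namespace Pool.Agent.HI61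

open Finset
open scoped Classical

private lemma os_r {P : Par} (hG : Good P) : 2 ≤ P.r := by
  have := hG.q1
  unfold Par.r
  linarith

private lemma os_conj {P : Par} (hG : Good P) : P.r.HolderConjugate P.rc := by
  have h := os_r hG
  exact Real.HolderConjugate.conjExponent (by linarith)

/-- Hölder's inequality against the constant function -/
private lemma os_holder {P : Par} (hG : Good P) {ι : Type*} (A : Finset ι) (g : ι → ℝ)
    (hg : ∀ i ∈ A, 0 ≤ g i) :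
    ∑ i ∈ A, g i ≤ (A.card : ℝ) ^ (1 / P.r) * (∑ i ∈ A, g i ^ P.rc) ^ (1 / P.rc) := by
  have h := Real.inner_le_Lp_mul_Lq A (fun _ => (1 : ℝ)) g (os_conj hG)
  simp only [one_mul, abs_one, Real.one_rpow, sum_const, nsmul_eq_mul, mul_one] at h
  refine h.trans (le_of_eq ?_)
  congr 2
  exact sum_congr rfl fun i hi => by rw [abs_of_nonneg (hg i hi)]

private lemma os_holder2 {P : Par} (hG : Good P) {n : ℕ} (d : Fin n → ℝ) (c : Fin n → ℕ)
    (hd : ∑ l, |d l| ^ P.rc ≤ 1) {m : ℕ} (hc : ∑ l, c l ≤ m) :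
    ∑ l, |d l| * (c l : ℝ) ^ (1 / P.r) ≤ (m : ℝ) ^ (1 / P.r) := by
  have hr := os_r hG
  have hc1 := (os_conj hG)
  have hrc : 0 < P.rc := hc1.symm.pos
  have h := Real.inner_le_Lp_mul_Lq univ (fun l => |d l|) (fun l => (c l : ℝ) ^ (1 / P.r))
    hc1.symm
  simp only [abs_abs] at h
  have h1 : (∑ l, |d l| ^ P.rc) ^ (1 / P.rc) ≤ 1 :=
    Real.rpow_le_one (sum_nonneg fun l _ => Real.rpow_nonneg (abs_nonneg _) _) hd (by positivity)
  have h2 : ∑ l, |(c l : ℝ) ^ (1 / P.r)| ^ P.r = ((∑ l, c l : ℕ) : ℝ) := by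
    push_cast
    refine sum_congr rfl fun l _ => ?_
    rw [abs_of_nonneg (by positivity), ← Real.rpow_mul (Nat.cast_nonneg _),
      one_div_mul_cancel (by linarith), Real.rpow_one]
  rw [h2] at h
  have h3 : ((∑ l, c l : ℕ) : ℝ) ^ (1 / P.r) ≤ (m : ℝ) ^ (1 / P.r) :=
    Real.rpow_le_rpow (Nat.cast_nonneg _) (by exact_mod_cast hc) (by positivity)
  refine h.trans ?_
  calc (∑ l, |d l| ^ P.rc) ^ (1 / P.rc) * ((∑ l, c l : ℕ) : ℝ) ^ (1 / P.r)
      ≤ 1 * ((∑ l, c l : ℕ) : ℝ) ^ (1 / P.r) :=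
        mul_le_mul_of_nonneg_right h1 (by positivity)
    _ ≤ (m : ℝ) ^ (1 / P.r) := by rw [one_mul]; exact h3

private lemma os_d_le {P : Par} (hG : Good P) {n : ℕ} (d : Fin n → ℝ)
    (hd : ∑ l, |d l| ^ P.rc ≤ 1) (l : Fin n) : |d l| ≤ 1 := by
  have hrc : 0 < P.rc := (os_conj hG).symm.pos
  by_contra h
  push Not at h
  have h1 := Real.one_lt_rpow h hrc
  have h2 : |d l| ^ P.rc ≤ ∑ l, |d l| ^ P.rc :=
    single_le_sum (f := fun l => |d l| ^ P.rc)
      (fun l _ => Real.rpow_nonneg (abs_nonneg _) _) (mem_univ l)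
  linarith

/-- the bound for one vector which is hit by at least two functionals -/
private lemma os_one {P : Par} (hG : Good P) {z : ℕ → ℝ} {C : ℝ} {κ : ℕ} (hz : KS P κ z C)
    (n : ℕ) (hn : n ≤ P.L κ) (d : Fin n → ℝ) (f : Fin n → Fn) (hK : ∀ l, K P (f l))
    (hb : ∀ l l', l < l' → Before (f l) (f l')) (H : Fin n → Prop)
    (h0 : ∀ l, ¬ H l → ev (f l) z = 0) :
    |∑ l, d l * ev (f l) z| ≤ C * (∑ l with H l, |d l| ^ P.rc) ^ (1 / P.rc) := by
  have hrc : 0 < P.rc := (os_conj hG).symm.pos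
  have hE : 0 ≤ ∑ l with H l, |d l| ^ P.rc :=
    sum_nonneg fun l _ => Real.rpow_nonneg (abs_nonneg _) _
  rcases hE.eq_or_lt with hE0 | hE0
  · have h1 : ∀ l, d l * ev (f l) z = 0 := by
      intro l
      by_cases hl : H l
      · have h2 := (sum_eq_zero_iff_of_nonneg
          (fun l _ => Real.rpow_nonneg (abs_nonneg (d l)) P.rc)).1 hE0.symm l (by simp [hl])
        have h3 : |d l| = 0 := by
          rwa [Real.rpow_eq_zero (abs_nonneg _) hrc.ne'] at h2
        rw [abs_eq_zero.1 h3, zero_mul]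
      · rw [h0 l hl, mul_zero]
    rw [sum_congr rfl fun l _ => h1 l, ← hE0, sum_const_zero, abs_zero, Real.zero_rpow
      (by positivity), mul_zero]
  · set D : ℝ := (∑ l with H l, |d l| ^ P.rc) ^ (1 / P.rc) with hD
    have hDpos : 0 < D := Real.rpow_pos_of_pos hE0 _
    have hDrc : D ^ P.rc = ∑ l with H l, |d l| ^ P.rc := by
      rw [hD, ← Real.rpow_mul hE, one_div_mul_cancel hrc.ne', Real.rpow_one]
    have h1 : ∑ l, |if H l then d l / D else 0| ^ P.rc ≤ 1 := by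
      have h2 : ∑ l, |if H l then d l / D else 0| ^ P.rc = ∑ l with H l, |d l| ^ P.rc / D ^ P.rc := by
        rw [sum_filter]
        refine sum_congr rfl fun l _ => ?_
        split_ifs with hl
        · rw [abs_div, abs_of_pos hDpos, Real.div_rpow (abs_nonneg _) hDpos.le]
        · rw [abs_zero, Real.zero_rpow hrc.ne']
      rw [h2, ← sum_div, hDrc, div_self hE0.ne']
    have h3 := hz n hn (fun l => if H l then d l / D else 0) f hK hb h1
    have h4 : ∑ l, (if H l then d l / D else 0) * ev (f l) z =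
        (∑ l, d l * ev (f l) z) / D := by
      rw [sum_div]
      refine sum_congr rfl fun l _ => ?_
      split_ifs with hl
      · ring
      · rw [h0 l hl]
        simp
    rw [h4, abs_div, abs_of_pos hDpos, div_le_iff₀ hDpos] at h3
    exact h3

theorem one_step {P : Par} (hG : Good P) {x : ℕ → ℕ → ℝ} {s : ℕ → ℕ} {N : ℕ} {C : ℝ}
    {lo hi : ℕ → ℕ} {δ : ℕ → ℝ} (hR : RIS P x s N C lo hi δ) (κ : ℕ) (S : Finset ℕ)
    (hS : S ⊆ range N) (hlo : ∀ k ∈ S, κ < lo k) (θ : ℕ → ℝ) (hθ : ∀ k, |θ k| ≤ 1)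
    (a b : ℝ) (ha : 0 ≤ a) (hb0 : 0 ≤ b) (n : ℕ) (hn : n ≤ P.L κ) (d : Fin n → ℝ)
    (f : Fin n → Fn) (hK : ∀ l, K P (f l)) (hb : ∀ l l', l < l' → Before (f l) (f l'))
    (hd : ∑ l, |d l| ^ P.rc ≤ 1)
    (hf : ∀ l, ∀ S' ⊆ S, |ev (f l) (lc x S' θ)| ≤
      C * (1 + a + b * (S'.card : ℝ) ^ (1 / P.r)) + ∑ k ∈ S', δ k) :
    |∑ l, d l * ev (f l) (lc x S θ)| ≤
      C * ((3 + a) * ((min S.card (P.L κ) : ℕ) : ℝ) ^ (1 / P.r) +
        b * (S.card : ℝ) ^ (1 / P.r)) + ∑ k ∈ S, δ k := by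
  have hr := os_r hG
  have hrc : 0 < P.rc := (os_conj hG).symm.pos
  have hrc1 : 1 ≤ P.rc := (os_conj hG).symm.lt.le
  have hC := hR.C0
  have h0 : ∀ l, ∀ k ∈ S, ¬ Hit s (f l) k → ev (f l) (x k) = 0 := by
    intro l k hk hh
    exact ev_eq_zero_of_not_hit (f l) s k (x k) (hR.supp k (mem_range.1 (hS hk))) hh
  -- the two parts of `S`
  obtain ⟨A, hA⟩ : ∃ A, A = S2 s f S := ⟨_, rfl⟩
  have hAS : A ⊆ S := by rw [hA]; exact filter_subset _ _
  obtain ⟨T, hT⟩ : ∃ T : Fin n → Finset ℕ, ∀ l, T l = (S \ A).filter (fun k => Hit s (f l) k) :=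
    ⟨fun l => (S \ A).filter (fun k => Hit s (f l) k), fun _ => rfl⟩
  have hTS : ∀ l, T l ⊆ S := fun l => by
    rw [hT]
    exact (filter_subset _ _).trans sdiff_subset
  have hTd : ∀ l l', l ≠ l' → Disjoint (T l) (T l') := by
    intro l l' hll
    rw [disjoint_left]
    intro k hk hk'
    rw [hT, mem_filter, mem_sdiff] at hk hk'
    apply hk.1.2
    rw [hA, S2, mem_filter]
    exact ⟨hk.1.1, l, l', hll, hk.2, hk'.2⟩
  have hdec : ∀ l, ev (f l) (lc x S θ) = ∑ k ∈ A, θ k * ev (f l) (x k) +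
      ev (f l) (lc x (T l) θ) := by
    intro l
    rw [ev_lc, ev_lc, ← sum_sdiff hAS, add_comm]
    congr 1
    rw [hT]
    symm
    refine sum_filter_of_ne fun k hk hne => ?_
    by_contra hh
    exact hne (by rw [h0 l k (mem_sdiff.1 hk).1 hh, mul_zero])
  have htot : ∑ l, d l * ev (f l) (lc x S θ) =
      ∑ k ∈ A, θ k * (∑ l, d l * ev (f l) (x k)) + ∑ l, d l * ev (f l) (lc x (T l) θ) := by
    simp only [hdec, mul_add, sum_add_distrib]
    congr 1
    simp only [mul_sum]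
    rw [sum_comm]
    refine sum_congr rfl fun k _ => sum_congr rfl fun l _ => by ring
  -- cardinalities
  have hAm : A.card ≤ min S.card (P.L κ) := by
    refine le_min (card_le_card hAS) ?_
    rw [hA]
    exact (split_card f hb s hR.mono S).trans hn
  have hTsum : ∀ F : Finset (Fin n), ∑ l ∈ F, (T l).card ≤ S.card := by
    intro F
    rw [← card_biUnion fun l _ l' _ h => hTd l l' h]
    exact card_le_card (biUnion_subset.2 fun l _ => hTS l)
  obtain ⟨NN, hNN⟩ : ∃ NN : Finset (Fin n), NN = univ.filter (fun l => (T l).Nonempty) := ⟨_, rfl⟩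
  have hNm : NN.card ≤ min S.card (P.L κ) := by
    refine le_min ?_ ?_
    · refine le_trans ?_ (hTsum NN)
      rw [card_eq_sum_ones]
      refine sum_le_sum fun l hl => ?_
      rw [hNN, mem_filter] at hl
      exact card_pos.2 hl.2
    · refine le_trans ?_ hn
      calc NN.card ≤ (univ : Finset (Fin n)).card := card_le_univ _
        _ = n := by simp
  obtain ⟨m, hm⟩ : ∃ m, m = min S.card (P.L κ) := ⟨_, rfl⟩
  rw [← hm] at hAm hNm ⊢
  have hr0 : 0 ≤ 1 / P.r := by positivity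
  have mono : ∀ {c : ℕ}, c ≤ m → (c : ℝ) ^ (1 / P.r) ≤ (m : ℝ) ^ (1 / P.r) := fun h =>
    Real.rpow_le_rpow (Nat.cast_nonneg _) (by exact_mod_cast h) hr0
  -- first part
  have part1 : |∑ k ∈ A, θ k * (∑ l, d l * ev (f l) (x k))| ≤ C * (2 * (m : ℝ) ^ (1 / P.r)) := by
    obtain ⟨D, hD⟩ : ∃ D : ℕ → ℝ, ∀ k, D k =
        (∑ l with Hit s (f l) k, |d l| ^ P.rc) ^ (1 / P.rc) := ⟨_, fun _ => rfl⟩
    have hD0 : ∀ k, 0 ≤ D k := fun k => by
      rw [hD]
      exact Real.rpow_nonneg (sum_nonneg fun l _ => Real.rpow_nonneg (abs_nonneg _) _) _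
    have e1 : |∑ k ∈ A, θ k * (∑ l, d l * ev (f l) (x k))| ≤ ∑ k ∈ A, C * D k := by
      refine (abs_sum_le_sum_abs _ _).trans (sum_le_sum fun k hk => ?_)
      have hkS := hAS hk
      have hkN := mem_range.1 (hS hkS)
      have e2 := os_one hG (hR.R2 k hkN κ (hlo k hkS)) n hn d f hK hb
        (fun l => Hit s (f l) k) (fun l hl => h0 l k hkS hl)
      rw [← hD] at e2
      rw [abs_mul]
      calc |θ k| * |∑ l, d l * ev (f l) (x k)| ≤ 1 * (C * D k) :=
            mul_le_mul (hθ k) e2 (abs_nonneg _) zero_le_one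
        _ = C * D k := one_mul _
    rw [← mul_sum] at e1
    refine e1.trans (mul_le_mul_of_nonneg_left ?_ hC)
    have e3 := os_holder hG A D (fun k _ => hD0 k)
    have e4 : ∑ k ∈ A, D k ^ P.rc ≤ 2 := by
      have e5 : ∑ k ∈ A, D k ^ P.rc = ∑ l, |d l| ^ P.rc *
          ((A.filter fun k => Hit s (f l) k).card : ℝ) := by
        have e6 : ∀ k, D k ^ P.rc = ∑ l, if Hit s (f l) k then |d l| ^ P.rc else 0 := by
          intro k
          rw [hD, ← Real.rpow_mul (sum_nonneg fun l _ => Real.rpow_nonneg (abs_nonneg _) _),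
            one_div_mul_cancel hrc.ne', Real.rpow_one, sum_filter]
        simp only [e6]
        rw [sum_comm]
        refine sum_congr rfl fun l _ => ?_
        rw [← sum_filter, sum_const, nsmul_eq_mul, mul_comm]
      rw [e5]
      have e7 : ∀ l, |d l| ^ P.rc * ((A.filter fun k => Hit s (f l) k).card : ℝ) ≤
          |d l| ^ P.rc * 2 := by
        intro l
        refine mul_le_mul_of_nonneg_left ?_ (Real.rpow_nonneg (abs_nonneg _) _)
        have := split_two f hb s hR.mono S l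
        rw [← hA] at this
        exact_mod_cast this
      refine (sum_le_sum fun l _ => e7 l).trans ?_
      rw [← sum_mul]
      linarith
    have e8 : (∑ k ∈ A, D k ^ P.rc) ^ (1 / P.rc) ≤ 2 := by
      have e9 : 0 ≤ ∑ k ∈ A, D k ^ P.rc := sum_nonneg fun k _ => Real.rpow_nonneg (hD0 k) _
      calc (∑ k ∈ A, D k ^ P.rc) ^ (1 / P.rc) ≤ 2 ^ (1 / P.rc) :=
            Real.rpow_le_rpow e9 e4 (by positivity)
        _ ≤ 2 ^ (1 : ℝ) := Real.rpow_le_rpow_of_exponent_le (by norm_num)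
            (by rw [div_le_one hrc]; exact hrc1)
        _ = 2 := Real.rpow_one _
    calc ∑ k ∈ A, D k ≤ (A.card : ℝ) ^ (1 / P.r) * (∑ k ∈ A, D k ^ P.rc) ^ (1 / P.rc) := e3
      _ ≤ (m : ℝ) ^ (1 / P.r) * 2 :=
          mul_le_mul (mono hAm) e8 (Real.rpow_nonneg (sum_nonneg fun k _ =>
            Real.rpow_nonneg (hD0 k) _) _) (by positivity)
      _ = 2 * (m : ℝ) ^ (1 / P.r) := mul_comm _ _
  -- second part
  have part2 : |∑ l, d l * ev (f l) (lc x (T l) θ)| ≤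
      C * (1 + a) * (m : ℝ) ^ (1 / P.r) + C * b * (S.card : ℝ) ^ (1 / P.r) + ∑ k ∈ S, δ k := by
    have e1 : |∑ l, d l * ev (f l) (lc x (T l) θ)| ≤
        C * (1 + a) * ∑ l ∈ NN, |d l| + C * b * ∑ l, |d l| * ((T l).card : ℝ) ^ (1 / P.r) +
          ∑ l, ∑ k ∈ T l, δ k := by
      have e2 : ∑ l ∈ NN, |d l| = ∑ l, if (T l).Nonempty then |d l| else 0 := by
        rw [hNN, sum_filter]
      rw [e2, mul_sum, mul_sum, ← sum_add_distrib, ← sum_add_distrib]
      refine (abs_sum_le_sum_abs _ _).trans (sum_le_sum fun l _ => ?_)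
      rw [abs_mul]
      have e3 : 0 ≤ ∑ k ∈ T l, δ k := sum_nonneg fun k _ => hR.δ0 k
      have e4 : 0 ≤ C * b * (|d l| * ((T l).card : ℝ) ^ (1 / P.r)) := by positivity
      split_ifs with hl
      · have e5 := hf l (T l) (hTS l)
        have e6 := os_d_le hG d hd l
        have e7 : |d l| * ∑ k ∈ T l, δ k ≤ ∑ k ∈ T l, δ k :=
          mul_le_of_le_one_left e3 e6
        calc |d l| * |ev (f l) (lc x (T l) θ)| ≤
            |d l| * (C * (1 + a + b * ((T l).card : ℝ) ^ (1 / P.r)) + ∑ k ∈ T l, δ k) :=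
              mul_le_mul_of_nonneg_left e5 (abs_nonneg _)
          _ = C * (1 + a) * |d l| + C * b * (|d l| * ((T l).card : ℝ) ^ (1 / P.r)) +
              |d l| * ∑ k ∈ T l, δ k := by ring
          _ ≤ _ := by linarith
      · rw [not_nonempty_iff_eq_empty] at hl
        have e5 : ev (f l) (lc x (T l) θ) = 0 := by
          rw [ev_lc, hl, sum_empty]
        rw [e5, abs_zero, mul_zero, mul_zero]
        linarith
    have e2 : ∑ l ∈ NN, |d l| ≤ (m : ℝ) ^ (1 / P.r) := by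
      have e3 := os_holder hG NN (fun l => |d l|) (fun l _ => abs_nonneg _)
      have e4 : (∑ l ∈ NN, |d l| ^ P.rc) ^ (1 / P.rc) ≤ 1 := by
        refine Real.rpow_le_one (sum_nonneg fun l _ => Real.rpow_nonneg (abs_nonneg _) _) ?_
          (by positivity)
        refine le_trans (sum_le_sum_of_subset_of_nonneg (subset_univ _) ?_) hd
        intro l _ _
        exact Real.rpow_nonneg (abs_nonneg _) _
      calc ∑ l ∈ NN, |d l| ≤ (NN.card : ℝ) ^ (1 / P.r) *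
            (∑ l ∈ NN, |d l| ^ P.rc) ^ (1 / P.rc) := e3
        _ ≤ (m : ℝ) ^ (1 / P.r) * 1 :=
            mul_le_mul (mono hNm) e4 (Real.rpow_nonneg (sum_nonneg fun l _ =>
              Real.rpow_nonneg (abs_nonneg _) _) _) (by positivity)
        _ = (m : ℝ) ^ (1 / P.r) := mul_one _
    have e3 := os_holder2 hG d (fun l => (T l).card) hd (hTsum univ)
    have e4 : ∑ l, ∑ k ∈ T l, δ k ≤ ∑ k ∈ S, δ k := by
      rw [← sum_biUnion fun l _ l' _ h => hTd l l' h]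
      exact sum_le_sum_of_subset_of_nonneg (biUnion_subset.2 fun l _ => hTS l)
        (fun k _ _ => hR.δ0 k)
    have e5 : C * (1 + a) * ∑ l ∈ NN, |d l| ≤ C * (1 + a) * (m : ℝ) ^ (1 / P.r) :=
      mul_le_mul_of_nonneg_left e2 (by positivity)
    have e6 : C * b * ∑ l, |d l| * ((T l).card : ℝ) ^ (1 / P.r) ≤
        C * b * (S.card : ℝ) ^ (1 / P.r) := mul_le_mul_of_nonneg_left e3 (by positivity)
    linarith
  rw [htot]
  refine (abs_add_le _ _).trans ?_
  calc _ ≤ C * (2 * (m : ℝ) ^ (1 / P.r)) + (C * (1 + a) * (m : ℝ) ^ (1 / P.r) +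
        C * b * (S.card : ℝ) ^ (1 / P.r) + ∑ k ∈ S, δ k) := add_le_add part1 part2
    _ = _ := by ring

end Pool.Agent.HI61
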