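import Pool.Agent.HI61.Defs2

/-!
# HI61/ParDefs : data about the sequence `b`, one stage of the choice of the parameters
-/

namespace Pool.Agent.HI61

open Finset

/-- What is needed about the set `VS` of the sequences `(v (b_k))_k` and the function `φ`. -/
structure SeqData (q : ℝ) (φ : ℕ → ℝ) (VS : Set (ℕ → ℝ)) : Prop where
  q1 : 1 ≤ q
  ne : VS.Nonempty
  neg : ∀ v ∈ VS, -v ∈ VS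
  le1 : ∀ v ∈ VS, ∀ k, |v k| ≤ 1
  one : 1 ≤ φ 1
  mono : ∀ k n, 1 ≤ k → k ≤ n → φ k ≤ φ n
  growth : ∃ K2 : ℝ, 1 ≤ K2 ∧ ∀ k n : ℕ, 1 ≤ k → k ≤ n →
    φ k ≤ K2 * ((k : ℝ) / n) ^ (1 / q) * φ n
  upper : ∀ N, ∃ K, ∀ v ∈ VS, ∀ D : Finset ℕ, 1 ≤ D.card → D.card ≤ N → (∀ k ∈ D, K ≤ k) →
    ∑ k ∈ D, |v k| ≤ φ D.card
  lower : ∀ N, 1 ≤ N → ∃ K, ∀ D : Finset ℕ, D.card = N → (∀ k ∈ D, K ≤ k) →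
    ∃ v ∈ VS, φ N ≤ 16 * ∑ k ∈ D, v k
  heavy : ∀ ε : ℝ, 0 < ε → ∃ C : ℕ, ∀ ℓ m : ℕ, 1 ≤ ℓ → C ≤ m → φ (m * ℓ) < m * ε * φ ℓ

/-- state before stage `i` -/
structure St where
  lam : ℕ
  e : ℕ
  B : ℕ
  b : ℕ

/-- choices of stage `i`: the types `2 i`, `2 i + 1` and the level `i` -/
structure Out where
  e0 : ℕ
  L0 : ℕ
  nst : ℕ
  A : ℕ
  ep : ℝ
  C : ℕ
  e1 : ℕ
  k : ℕ
  ell : ℕ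

namespace Out

variable (O : Out)

/-- `μ = M (2 i + 1) A C Cr` -/
noncomputable def mu (Cr : ℝ) : ℝ := 8 * 2 ^ O.e1 * O.A * O.C * Cr

noncomputable def al (q : ℝ) (φ : ℕ → ℝ) (Cr : ℝ) : ℝ :=
  (O.ell : ℝ) ^ (1 / (2 * q)) / (O.mu Cr * φ O.ell)

noncomputable def be (q : ℝ) (Cr : ℝ) : ℝ := O.mu Cr / (O.ell : ℝ) ^ (1 / (2 * q))

end Out

/-- the conditions of stage `i` -/
structure Step (q : ℝ) (φ : ℕ → ℝ) (K2 Cr Ct : ℝ) (i : ℕ) (S : St) (O : Out) (S' : St) : Prop where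
  e0 : S.e ≤ O.e0
  e1 : 2 * O.e0 + 3 ≤ O.e1
  Lreg : 8 * 2 ^ O.e0 * (7 + 6 * (3 + (8 * (S.lam : ℝ)) ^ O.e0) * S.lam) ≤
    (O.L0 : ℝ) ^ (1 / (2 * q))
  nst : (Ct * (O.L0 : ℝ) ^ 2 * (i + S.B + 2)) ^ (2 * q) ≤ O.nst
  A1 : 2 ^ i * S.b ≤ O.A
  A2 : 2 ^ (i + 2) * (O.nst + 1) ≤ O.A
  ep0 : 0 < O.ep
  ep1 : 98 * O.A * K2 * Real.sqrt O.ep * ((i + 1) * (S.B + 1)) ≤ 1
  ep2 : 2 * O.ep * (i + 1) ≤ 1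
  C1 : 1 ≤ O.C
  Ch : ∀ ℓ m : ℕ, 1 ≤ ℓ → O.C ≤ m → φ (m * ℓ) < m * O.ep * φ ℓ
  k1 : 98 * O.mu Cr * ((i + 1) * (S.B + 1)) ≤ 2 ^ O.k
  ell1 : 1 ≤ O.ell
  th : 4 ≤ O.ep * φ O.ell
  psi : 200 * O.C * (i + 1) ≤ φ O.ell
  off : 100 * (O.A : ℝ) * O.C * O.al q φ Cr ≤ (1 / 2) ^ i
  eta : 99 * O.mu Cr * (2 + (8 * (S.lam + 1 + O.L0 : ℝ)) ^ O.k) * ((i + 1) * (S.B + 1)) ≤
    (O.ell : ℝ) ^ (1 / (2 * q))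
  lam' : S'.lam = S.lam + 2 + O.L0 + O.ell
  e' : 2 * O.e1 + 3 ≤ S'.e
  k' : O.k ≤ S'.e
  B' : S'.B = S.B + O.ell
  b'1 : S.b ≤ S'.b
  b'2 : 4 * (O.nst + 1) ≤ S'.b
  b'3 : 98 * (O.be q Cr * O.ell) * (i + 1) ≤ S'.b

end Pool.Agent.HI61
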