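import Pool.Agent.HI61.ParDefs

/-!
# HI61/ParStep : one stage of the choice of the parameters exists

PROOF.  `x^{1/(2q)} → ∞` as `x → ∞`; `φ ℓ ≥ (1/K2) ℓ^{1/q} φ 1 ≥ ℓ^{1/q} / K2 → ∞` (growth with `k = 1`).
Choose in this order: `e0 = S.e`; `L0` with `Lreg`; `nst` (a ceiling); `A = 2^i S.b + 2^(i+2) (nst+1)`;
`ep > 0` small (`Real.sqrt ep → 0`: e.g. `ep = min (1/(98 A K2 (i+1)(B+1)+1))^2 (1/(2(i+1)))`);
`C ≥ 1` from `heavy ep` (increase it by one); `e1 = 2 e0 + 3`; now `mu = 8·2^e1·A·C·Cr` is fixed, it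
does not depend on `k, ell`; `k` with `k1`; finally `ell` large: all the conditions `th, psi, eta`
hold for large `ell`, and `off`: `al = ell^{1/(2q)} / (mu φ(ell)) ≤ K2 ell^{1/(2q) - 1/q} / mu
= K2 ell^{-1/(2q)} / mu → 0`.  `S'` : `lam'`, `B'` are prescribed, `e = max (2 e1 + 3) k`, `b` a maximum
(ceiling of the real number in `b'3`).
-/

namespace Pool.Agent.HI61

open Finset

private theorem exists_rpow_ge {q : ℝ} (hq : 1 ≤ q) (R : ℝ) :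
    ∃ n : ℕ, 1 ≤ n ∧ R ≤ (n : ℝ) ^ (1 / (2 * q)) := by
  have h0 : 0 < 1 / (2 * q) := by positivity
  have h1 := (tendsto_rpow_atTop h0).comp (tendsto_natCast_atTop_atTop (R := ℝ))
  have h2 := (h1.eventually_ge_atTop R).and (Filter.eventually_ge_atTop 1)
  obtain ⟨n, hn1, hn2⟩ := h2.exists
  exact ⟨n, hn2, hn1⟩

theorem step_exists (q : ℝ) (φ : ℕ → ℝ) (VS : Set (ℕ → ℝ)) (h : SeqData q φ VS) (K2 : ℝ)
    (hK2 : 1 ≤ K2)
    (hgr : ∀ k n : ℕ, 1 ≤ k → k ≤ n → φ k ≤ K2 * ((k : ℝ) / n) ^ (1 / q) * φ n)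
    (Cr : ℝ) (hCr : 1 ≤ Cr) (Ct : ℝ) (hCt : 0 ≤ Ct) (i : ℕ) (S : St) :
    ∃ (O : Out) (S' : St), Step q φ K2 Cr Ct i S O S' := by
  have hq := h.q1
  have hK2p : 0 < K2 := by linarith
  have hCrp : 0 < Cr := by linarith
  obtain ⟨L0, hL01, hL0⟩ := exists_rpow_ge hq
    (8 * 2 ^ S.e * (7 + 6 * (3 + (8 * (S.lam : ℝ)) ^ S.e) * S.lam))
  obtain ⟨nst, hnst⟩ : ∃ n : ℕ, (Ct * (L0 : ℝ) ^ 2 * (i + S.B + 2)) ^ (2 * q) ≤ n :=
    exists_nat_ge _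
  obtain ⟨A, hA⟩ : ∃ A, A = 2 ^ i * S.b + 2 ^ (i + 2) * (nst + 1) := ⟨_, rfl⟩
  have hA1 : 1 ≤ A := by
    rw [hA]
    have h1 : 0 < 2 ^ (i + 2) * (nst + 1) := by positivity
    omega
  have hAp : (0 : ℝ) < A := by exact_mod_cast hA1
  obtain ⟨T, hT⟩ : ∃ T, T = ((i : ℝ) + 1) * (S.B + 1) := ⟨_, rfl⟩
  have hTp : 0 < T := by rw [hT]; positivity
  obtain ⟨D1, hD1⟩ : ∃ D1, D1 = 98 * (A : ℝ) * K2 * T := ⟨_, rfl⟩
  have hD1p : 0 < D1 := by rw [hD1]; positivity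
  obtain ⟨ep, hep⟩ : ∃ ep, ep = min ((1 / D1) ^ 2) (1 / (2 * ((i : ℝ) + 1))) := ⟨_, rfl⟩
  have hepp : 0 < ep := by
    rw [hep]
    exact lt_min (by positivity) (by positivity)
  have hep1 : Real.sqrt ep ≤ 1 / D1 := by
    rw [Real.sqrt_le_left (by positivity), hep]
    exact min_le_left _ _
  have hep2 : ep ≤ 1 / (2 * ((i : ℝ) + 1)) := by
    rw [hep]
    exact min_le_right _ _
  obtain ⟨C0, hC0⟩ := h.heavy ep hepp
  obtain ⟨C, hC⟩ : ∃ C, C = C0 + 1 := ⟨_, rfl⟩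
  have hCp : (0 : ℝ) < C := by
    have : 0 < C := by omega
    exact_mod_cast this
  obtain ⟨mu, hmu⟩ : ∃ mu, mu = 8 * 2 ^ (2 * S.e + 3) * (A : ℝ) * C * Cr := ⟨_, rfl⟩
  have hmup : 0 < mu := by rw [hmu]; positivity
  obtain ⟨k, hk⟩ := pow_unbounded_of_one_lt (98 * mu * T) (by norm_num : (1 : ℝ) < 2)
  obtain ⟨r1, hr1⟩ : ∃ r, r = 100 * (A : ℝ) * C * K2 * 2 ^ i / mu := ⟨_, rfl⟩
  obtain ⟨r2, hr2⟩ : ∃ r, r = 4 * K2 / ep := ⟨_, rfl⟩
  obtain ⟨r3, hr3⟩ : ∃ r, r = 200 * (C : ℝ) * (i + 1) * K2 := ⟨_, rfl⟩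
  obtain ⟨r4, hr4⟩ : ∃ r, r = 99 * mu * (2 + (8 * (S.lam + 1 + L0 : ℝ)) ^ k) *
    (((i : ℝ) + 1) * (S.B + 1)) := ⟨_, rfl⟩
  have hr1p : 0 ≤ r1 := by rw [hr1]; positivity
  have hr2p : 0 ≤ r2 := by rw [hr2]; positivity
  have hr3p : 0 ≤ r3 := by rw [hr3]; positivity
  have hr4p : 0 ≤ r4 := by rw [hr4]; positivity
  obtain ⟨ell, hell1, hell⟩ := exists_rpow_ge hq (1 + r1 + r2 + r3 + r4)
  have hellp : (0 : ℝ) < ell := by exact_mod_cast hell1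
  obtain ⟨E, hE⟩ : ∃ E, E = (ell : ℝ) ^ (1 / (2 * q)) := ⟨_, rfl⟩
  rw [← hE] at hell
  have hEp : 0 < E := by linarith
  have hE2 : E ^ 2 = (ell : ℝ) ^ (1 / q) := by
    rw [hE, ← Real.rpow_natCast, ← Real.rpow_mul (by positivity)]
    congr 1
    push_cast
    field_simp
  have hphi : E ^ 2 ≤ K2 * φ ell := by
    have h1 := hgr 1 ell le_rfl hell1
    have h2 := h.one
    have h3 : ((1 : ℕ) / (ell : ℝ)) ^ (1 / q) = (E ^ 2)⁻¹ := by
      rw [hE2, Nat.cast_one, one_div, Real.inv_rpow hellp.le]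
    rw [h3] at h1
    have h4 : 1 ≤ K2 * (E ^ 2)⁻¹ * φ ell := h2.trans h1
    have h5 : 0 < E ^ 2 := by positivity
    have h6 : E ^ 2 * 1 ≤ E ^ 2 * (K2 * (E ^ 2)⁻¹ * φ ell) :=
      mul_le_mul_of_nonneg_left h4 h5.le
    have h7 : E ^ 2 * (K2 * (E ^ 2)⁻¹ * φ ell) = K2 * φ ell := by
      field_simp
    linarith
  have hphip : 1 ≤ φ ell := h.one.trans (h.mono 1 ell le_rfl hell1)
  have hphip' : 0 < φ ell := by linarith
  have hE1 : 1 ≤ E := by linarith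
  have hEE : E ≤ K2 * φ ell := by nlinarith
  refine ⟨⟨S.e, L0, nst, A, ep, C, 2 * S.e + 3, k, ell⟩, ⟨S.lam + 2 + L0 + ell,
    max (2 * (2 * S.e + 3) + 3) k, S.B + ell, S.b + 4 * (nst + 1) +
    ⌈98 * (mu / (ell : ℝ) ^ (1 / (2 * q)) * ell) * (i + 1)⌉₊⟩, ?_⟩
  have hmu' : Out.mu ⟨S.e, L0, nst, A, ep, C, 2 * S.e + 3, k, ell⟩ Cr = mu := by
    rw [hmu]
    rfl
  constructor
  case e0 => exact le_rfl
  case e1 => exact le_rfl
  case Lreg => exact hL0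
  case nst => exact hnst
  case A1 =>
    show 2 ^ i * S.b ≤ A
    rw [hA]
    exact Nat.le_add_right _ _
  case A2 =>
    show 2 ^ (i + 2) * (nst + 1) ≤ A
    rw [hA]
    exact Nat.le_add_left _ _
  case ep0 => exact hepp
  case ep1 =>
    show 98 * (A : ℝ) * K2 * Real.sqrt ep * ((i + 1) * (S.B + 1)) ≤ 1
    rw [← hT]
    have h1 : 98 * (A : ℝ) * K2 * Real.sqrt ep * T = D1 * Real.sqrt ep := by
      rw [hD1]
      ring
    rw [h1]
    have h2 : D1 * Real.sqrt ep ≤ D1 * (1 / D1) := mul_le_mul_of_nonneg_left hep1 hD1p.le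
    have h3 : D1 * (1 / D1) = 1 := by field_simp
    linarith
  case ep2 =>
    show 2 * ep * (i + 1) ≤ 1
    rw [le_div_iff₀ (by positivity)] at hep2
    linarith
  case C1 =>
    show 1 ≤ C
    omega
  case Ch =>
    intro ℓ m hl hm
    refine hC0 ℓ m hl ?_
    have : C ≤ m := hm
    omega
  case k1 =>
    rw [hmu', ← hT]
    exact hk.le
  case ell1 => exact hell1
  case th =>
    show 4 ≤ ep * φ ell
    have h1 : r2 ≤ E := by linarith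
    have h2 : 4 * K2 / ep ≤ K2 * φ ell := by
      rw [← hr2]
      linarith
    rw [div_le_iff₀ hepp] at h2
    have h3 : K2 * 4 ≤ K2 * (ep * φ ell) := by linarith
    exact le_of_mul_le_mul_left h3 hK2p
  case psi =>
    show 200 * (C : ℝ) * (i + 1) ≤ φ ell
    have h1 : 200 * (C : ℝ) * (i + 1) * K2 ≤ K2 * φ ell := by
      rw [← hr3]
      linarith
    have h3 : K2 * (200 * (C : ℝ) * (i + 1)) ≤ K2 * φ ell := by linarith
    exact le_of_mul_le_mul_left h3 hK2p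
  case off =>
    unfold Out.al
    rw [hmu']
    show 100 * (A : ℝ) * C * ((ell : ℝ) ^ (1 / (2 * q)) / (mu * φ ell)) ≤ (1 / 2) ^ i
    rw [← hE]
    have h1 : E / (mu * φ ell) ≤ K2 / (mu * E) := by
      rw [div_le_div_iff₀ (by positivity) (by positivity)]
      nlinarith
    have h2 : 100 * (A : ℝ) * C * (E / (mu * φ ell)) ≤ 100 * (A : ℝ) * C * (K2 / (mu * E)) :=
      mul_le_mul_of_nonneg_left h1 (by positivity)
    refine h2.trans ?_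
    have h3 : r1 ≤ E := by linarith
    rw [hr1, div_le_iff₀ hmup] at h3
    have h4 : 100 * (A : ℝ) * C * (K2 / (mu * E)) = 100 * (A : ℝ) * C * K2 / (E * mu) := by
      field_simp
    rw [h4, div_le_iff₀ (by positivity), one_div, inv_pow, ← div_eq_inv_mul,
      le_div_iff₀ (by positivity)]
    exact h3
  case eta =>
    rw [hmu']
    show 99 * mu * (2 + (8 * (S.lam + 1 + L0 : ℝ)) ^ k) * ((i + 1) * (S.B + 1)) ≤
      (ell : ℝ) ^ (1 / (2 * q))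
    rw [← hE, ← hr4]
    linarith
  case lam' => rfl
  case e' => exact le_max_left _ _
  case k' => exact le_max_right _ _
  case B' => rfl
  case b'1 =>
    show S.b ≤ S.b + 4 * (nst + 1) + _
    omega
  case b'2 =>
    show 4 * (nst + 1) ≤ S.b + 4 * (nst + 1) + _
    omega
  case b'3 =>
    unfold Out.be
    rw [hmu']
    have h1 := Nat.le_ceil (98 * (mu / (ell : ℝ) ^ (1 / (2 * q)) * ell) * (i + 1))
    refine h1.trans ?_
    have h2 : ⌈98 * (mu / (ell : ℝ) ^ (1 / (2 * q)) * ell) * (i + 1)⌉₊ ≤ S.b + 4 * (nst + 1) +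
      ⌈98 * (mu / (ell : ℝ) ^ (1 / (2 * q)) * ell) * (i + 1)⌉₊ := Nat.le_add_left _ _
    exact_mod_cast h2

end Pool.Agent.HI61
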