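import Pool.Agent.HI61.WDefs

/-!
# HI61/PelEx : Pelczynski's trick

PROOF.  Let `Nul = {x | s x = 0}` (a subspace).  As `X = G + Nul` with `G` finite dimensional, `X / Nul` is finite dimensional;
let `z_0, ..., z_{d-1}` be representatives of a basis, and `zs_i : X → ℝ` linear with `x - ∑ zs_i x • z_i ∈ Nul`,
`zs_i (z_j) = δ_ij`, `zs_i = 0` on `Nul`; `s` induces a norm on the quotient, so `|zs_i x| ≤ c_i s x`.  Let
`m ≥ 1`, `m ≥ ∑ c_i s (z_i)`, `n = d m` and `z (c d + i) = z_i` for `c < m`, `i < d` (index `k`: `z k = z_{k % d}`).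
`S_m' β = ∑_{k<m'} β_k z_k`, `S = S_n`, `Bn β = max_{m' ≤ n} s (S_m' β)`, `I x = ∑_{k<n} single k (zs_{k % d} x / m)`.  Then
`S (I x) - x ∈ Nul`, `zs (S (I x)) = zs x`, and `Bn (I x) ≤ 2 s x`: `S_{c d + i} (I x) = (c/m) ∑ zs_j x z_j + (1/m) ∑_{j<i} zs_j x z_j`, of
seminorm at most `s x + (1/m) ∑ c_j s(z_j) s x ≤ 2 s x`.
`pH β = Bn (β - I (S β))` (a seminorm).
P1: `s (S_m' β) ≤ Bn β ≤ Bn (β - I S β) + Bn (I S β) ≤ pH β + 2 s (S β) ≤ 3 max`.
P2: `pH β ≤ Bn β + 2 s (S β) ≤ D + 2 D`.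
P3: let `h'` = `h` restricted to `[0, n)` and `β = I x + (h' - I (S h'))`: supported in `[0, n)`.
`x - S β = (x - S I x) - (S h' - S I S h') ∈ Nul`.  `h - β`: modulo coordinates `≥ n` (which `Bn`, `S` and `pH` ignore) it is
`I (S h') - I x = I (S h' - x)`, and for `u = S h' - x`: `I u - I (S (I u)) = I (u - S I u) = 0` since
`zs (u - S I u) = 0`.  So `pH (h - β) = 0`.
P4: `s (z_i) > 0` because `z_i ∉ Nul`.  If `d = 0` everything is trivial (`n = 0`, `pH = 0`).
-/

namespace Pool.Agent.HI61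

open Finset

theorem sum_range_mod {M : Type} [AddCommMonoid M] (f : ℕ → M) (d : ℕ) (c : ℕ) :
    ∀ i ≤ d, ∑ k ∈ range (c * d + i), f (k % d) = c • ∑ j ∈ range d, f j + ∑ j ∈ range i, f j := by
  induction c with
  | zero =>
    intro i hi
    rw [zero_mul, zero_add, zero_smul, zero_add]
    refine Finset.sum_congr rfl (fun j hj => ?_)
    rw [Nat.mod_eq_of_lt (lt_of_lt_of_le (Finset.mem_range.1 hj) hi)]
  | succ c ih =>
    intro i hi
    have h1 : (c + 1) * d = c * d + d := by ring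
    rw [Finset.sum_range_add, h1, ih d le_rfl, succ_nsmul]
    congr 1
    refine Finset.sum_congr rfl (fun j hj => ?_)
    have hj' : j < d := lt_of_lt_of_le (Finset.mem_range.1 hj) hi
    have h2 : (c * d + d + j) % d = j := by
      rw [show c * d + d + j = j + (c + 1) * d by ring, Nat.add_mul_mod_self_right,
        Nat.mod_eq_of_lt hj']
    rw [h2]

theorem exists_coords {X : Type} [AddCommGroup X] [Module ℝ X] (s : Seminorm ℝ X)
    (G : Submodule ℝ X) (hG : FiniteDimensional ℝ G) (h : ∀ x, ∃ g ∈ G, s (x - g) = 0) :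
    ∃ (d : ℕ) (z : ℕ → X) (zs : ℕ → X →ₗ[ℝ] ℝ) (c : ℝ), 0 ≤ c ∧
      (∀ j < d, ∀ x, |zs j x| ≤ c * s x) ∧ (∀ x, s (x - ∑ j ∈ range d, zs j x • z j) = 0) ∧
      (∀ j < d, zs j (z j) = 1) := by
  letI i1 : SeminormedAddCommGroup X := s.toAddGroupSeminorm.toSeminormedAddCommGroup
  letI i2 : NormedSpace ℝ X := { norm_smul_le := fun a x => (map_smul_eq_mul s a x).le }
  let mk : X →L[ℝ] SeparationQuotient X := SeparationQuotient.mkCLM ℝ X
  have hmk : Function.Surjective mk := SeparationQuotient.surjective_mk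
  have hnorm : ∀ x, ‖mk x‖ = s x := fun x => SeparationQuotient.norm_mk x
  haveI : FiniteDimensional ℝ (SeparationQuotient X) := by
    refine Module.Finite.of_surjective ((mk : X →ₗ[ℝ] SeparationQuotient X).comp G.subtype) ?_
    intro q
    obtain ⟨x, rfl⟩ := hmk q
    obtain ⟨g, hg, hxg⟩ := h x
    refine ⟨⟨g, hg⟩, ?_⟩
    have h1 : ‖mk x - mk g‖ = 0 := by rw [← map_sub, hnorm, hxg]
    exact (sub_eq_zero.1 (norm_eq_zero.1 h1)).symm
  let b := Module.finBasis ℝ (SeparationQuotient X)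
  choose r hr using hmk
  have hsum : ∀ x, s (x - ∑ j : Fin (Module.finrank ℝ (SeparationQuotient X)), b.coord j (mk x) • r (b j)) = 0 := by
    intro x
    rw [← hnorm, map_sub, map_sum]
    have h2 : ∑ j, mk (b.coord j (mk x) • r (b j)) = mk x := by
      simp only [map_smul, hr, Module.Basis.coord_apply]
      exact b.sum_repr (mk x)
    rw [h2, sub_self, norm_zero]
  refine ⟨Module.finrank ℝ (SeparationQuotient X),
    fun j => if hj : j < Module.finrank ℝ (SeparationQuotient X) then r (b ⟨j, hj⟩) else 0,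
    fun j => if hj : j < Module.finrank ℝ (SeparationQuotient X) then
      (b.coord ⟨j, hj⟩) ∘ₗ (mk : X →ₗ[ℝ] SeparationQuotient X) else 0,
    ∑ i, ‖(b.coord i).toContinuousLinearMap‖, Finset.sum_nonneg (fun _ _ => norm_nonneg _),
    ?_, ?_, ?_⟩
  · intro j hj x
    beta_reduce
    rw [dif_pos hj]
    have h3 := ((b.coord ⟨j, hj⟩).toContinuousLinearMap).le_opNorm (mk x)
    rw [hnorm] at h3
    have h4 : ‖(b.coord ⟨j, hj⟩).toContinuousLinearMap‖ ≤
        ∑ i, ‖(b.coord i).toContinuousLinearMap‖ :=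
      Finset.single_le_sum (f := fun i => ‖(b.coord i).toContinuousLinearMap‖)
        (fun _ _ => norm_nonneg _) (Finset.mem_univ _)
    have h5 : 0 ≤ s x := apply_nonneg s x
    exact h3.trans (mul_le_mul_of_nonneg_right h4 h5)
  · intro x
    rw [Finset.sum_range]
    simp only [Fin.is_lt, dif_pos, Fin.eta, LinearMap.comp_apply]
    exact hsum x
  · intro j hj
    beta_reduce
    rw [dif_pos hj, dif_pos hj]
    have h6 : mk (r (b ⟨j, hj⟩)) = b ⟨j, hj⟩ := hr _
    show b.coord ⟨j, hj⟩ (mk (r (b ⟨j, hj⟩))) = 1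
    rw [h6]
    simp

section

variable {X : Type} [AddCommGroup X] [Module ℝ X]

/-- partial sums -/
noncomputable def SLp (z : ℕ → X) (d m : ℕ) : (ℕ →₀ ℝ) →ₗ[ℝ] X :=
  ∑ k ∈ range m, (Finsupp.lapply k : (ℕ →₀ ℝ) →ₗ[ℝ] ℝ).smulRight (z (k % d))

theorem SLp_apply (z : ℕ → X) (d m : ℕ) (β : ℕ →₀ ℝ) :
    SLp z d m β = ∑ k ∈ range m, β k • z (k % d) := by
  simp [SLp]

/-- the section -/
noncomputable def IIp (zs : ℕ → X →ₗ[ℝ] ℝ) (d m n : ℕ) : X →ₗ[ℝ] (ℕ →₀ ℝ) :=
  ∑ k ∈ range n, (Finsupp.lsingle k : ℝ →ₗ[ℝ] (ℕ →₀ ℝ)) ∘ₗ ((1 / (m : ℝ)) • zs (k % d))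

theorem IIp_apply (zs : ℕ → X →ₗ[ℝ] ℝ) (d m n : ℕ) (x : X) (k : ℕ) :
    IIp zs d m n x k = if k < n then (1 / (m : ℝ)) * zs (k % d) x else 0 := by
  have h1 : IIp zs d m n x = ∑ j ∈ range n, Finsupp.single j ((1 / (m : ℝ)) * zs (j % d) x) := by
    simp [IIp]
  rw [h1, Finsupp.finset_sum_apply]
  simp only [Finsupp.single_apply]
  rw [Finset.sum_ite_eq']
  simp only [Finset.mem_range]

theorem IIp_null (s : Seminorm ℝ X) {zs : ℕ → X →ₗ[ℝ] ℝ} {d m n : ℕ} {c : ℝ}
    (hzs : ∀ j < d, ∀ x, |zs j x| ≤ c * s x) (hd : d = 0 → n = 0) {u : X} (hu : s u = 0) :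
    IIp zs d m n u = 0 := by
  ext k
  rw [IIp_apply, Finsupp.zero_apply]
  split_ifs with hk
  · have hd0 : 0 < d := by
      rcases Nat.eq_zero_or_pos d with h | h
      · have := hd h
        omega
      · exact h
    have h1 := hzs (k % d) (Nat.mod_lt _ hd0) u
    rw [hu, mul_zero] at h1
    rw [abs_nonpos_iff.1 h1, mul_zero]
  · rfl

theorem SLp_IIp (z : ℕ → X) (zs : ℕ → X →ₗ[ℝ] ℝ) (d m n m' : ℕ) (hm' : m' ≤ n) (x : X) :
    SLp z d m' (IIp zs d m n x) = ∑ k ∈ range m', (((1 / (m : ℝ)) * zs (k % d) x) • z (k % d)) := by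
  rw [SLp_apply]
  refine Finset.sum_congr rfl (fun k hk => ?_)
  rw [IIp_apply, if_pos (lt_of_lt_of_le (Finset.mem_range.1 hk) hm')]

theorem s_sum_le (s : Seminorm ℝ X) {z : ℕ → X} {zs : ℕ → X →ₗ[ℝ] ℝ} {d : ℕ}
    (hx : ∀ x, s (x - ∑ j ∈ range d, zs j x • z j) = 0) (x : X) :
    s (∑ j ∈ range d, zs j x • z j) ≤ s x := by
  have h1 : s (∑ j ∈ range d, zs j x • z j) ≤
      s x + s (x - ∑ j ∈ range d, zs j x • z j) := by
    have h2 := map_sub_le_add s x (x - ∑ j ∈ range d, zs j x • z j)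
    rwa [sub_sub_cancel] at h2
  rw [hx, add_zero] at h1
  exact h1

theorem s_SLp_IIp_le (s : Seminorm ℝ X) {z : ℕ → X} {zs : ℕ → X →ₗ[ℝ] ℝ} {d m : ℕ} {c : ℝ}
    (hc : 0 ≤ c) (hzs : ∀ j < d, ∀ x, |zs j x| ≤ c * s x)
    (hx : ∀ x, s (x - ∑ j ∈ range d, zs j x • z j) = 0)
    (hm : 1 ≤ m) (hmc : c * ∑ j ∈ range d, s (z j) ≤ m) {m' : ℕ} (hm' : m' ≤ m * d) (x : X) :
    s (SLp z d m' (IIp zs d m (m * d) x)) ≤ 2 * s x := by
  rw [SLp_IIp z zs d m (m * d) m' hm' x]
  have hsx : 0 ≤ s x := apply_nonneg s x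
  rcases Nat.eq_zero_or_pos d with hd | hd
  · have : m' = 0 := by
      rw [hd, mul_zero] at hm'
      omega
    rw [this, Finset.sum_range_zero, map_zero]
    linarith
  have hmr : (0 : ℝ) < m := by exact_mod_cast hm
  have e1 : m' = (m' / d) * d + m' % d := by
    rw [mul_comm]
    exact (Nat.div_add_mod m' d).symm
  have hc' : m' / d ≤ m := Nat.div_le_of_le_mul (by rw [mul_comm]; exact hm')
  have hi : m' % d ≤ d := (Nat.mod_lt _ hd).le
  rw [e1, sum_range_mod (fun j => ((1 / (m : ℝ)) * zs j x) • z j) d (m' / d) (m' % d) hi]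
  refine (map_add_le_add s _ _).trans ?_
  have h1 : s ((m' / d) • ∑ j ∈ range d, ((1 / (m : ℝ)) * zs j x) • z j) ≤ s x := by
    have h2 : (m' / d) • ∑ j ∈ range d, ((1 / (m : ℝ)) * zs j x) • z j =
        (((m' / d : ℕ) : ℝ) / m) • ∑ j ∈ range d, zs j x • z j := by
      rw [← Nat.cast_smul_eq_nsmul ℝ, Finset.smul_sum, Finset.smul_sum]
      refine Finset.sum_congr rfl (fun j _ => ?_)
      rw [smul_smul, smul_smul]
      congr 1
      ring
    rw [h2, map_smul_eq_mul, Real.norm_eq_abs, abs_of_nonneg (by positivity)]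
    have h3 := s_sum_le s hx x
    have h4 : ((m' / d : ℕ) : ℝ) / m ≤ 1 := by
      rw [div_le_one hmr]
      exact_mod_cast hc'
    have h5 : 0 ≤ s (∑ j ∈ range d, zs j x • z j) := apply_nonneg s _
    calc ((m' / d : ℕ) : ℝ) / m * s (∑ j ∈ range d, zs j x • z j)
        ≤ 1 * s (∑ j ∈ range d, zs j x • z j) := mul_le_mul_of_nonneg_right h4 h5
      _ ≤ s x := by rw [one_mul]; exact h3
  have h6 : s (∑ j ∈ range (m' % d), ((1 / (m : ℝ)) * zs j x) • z j) ≤ s x := by
    have h7 : s (∑ j ∈ range (m' % d), ((1 / (m : ℝ)) * zs j x) • z j) ≤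
        ∑ j ∈ range (m' % d), s (((1 / (m : ℝ)) * zs j x) • z j) := by
      exact Finset.le_sum_of_subadditive s (map_zero s).le (fun a b => map_add_le_add s a b) _ _
    have h8 : ∀ j ∈ range d, s (((1 / (m : ℝ)) * zs j x) • z j) ≤ (1 / (m : ℝ)) * (c * s x) * s (z j) := by
      intro j hj
      rw [map_smul_eq_mul, Real.norm_eq_abs, abs_mul, abs_of_nonneg (by positivity : (0 : ℝ) ≤ 1 / m)]
      exact mul_le_mul_of_nonneg_right (mul_le_mul_of_nonneg_left (hzs j (Finset.mem_range.1 hj) x)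
        (by positivity)) (apply_nonneg s _)
    have h9 : ∑ j ∈ range (m' % d), s (((1 / (m : ℝ)) * zs j x) • z j) ≤
        ∑ j ∈ range d, s (((1 / (m : ℝ)) * zs j x) • z j) :=
      Finset.sum_le_sum_of_subset_of_nonneg (Finset.range_mono hi) (fun _ _ _ => apply_nonneg s _)
    have h10 : ∑ j ∈ range d, s (((1 / (m : ℝ)) * zs j x) • z j) ≤
        (1 / (m : ℝ)) * (c * s x) * ∑ j ∈ range d, s (z j) := by
      rw [Finset.mul_sum]
      exact Finset.sum_le_sum h8
    have h11 : (1 / (m : ℝ)) * (c * s x) * ∑ j ∈ range d, s (z j) =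
        (1 / (m : ℝ)) * s x * (c * ∑ j ∈ range d, s (z j)) := by ring
    have h12 : (1 / (m : ℝ)) * s x * (c * ∑ j ∈ range d, s (z j)) ≤ (1 / (m : ℝ)) * s x * m :=
      mul_le_mul_of_nonneg_left hmc (by positivity)
    have h13 : (1 / (m : ℝ)) * s x * m = s x := by
      field_simp
    linarith
  linarith

theorem s_sub_SLp_IIp (s : Seminorm ℝ X) {z : ℕ → X} {zs : ℕ → X →ₗ[ℝ] ℝ} {d m : ℕ}
    (hx : ∀ x, s (x - ∑ j ∈ range d, zs j x • z j) = 0)
    (hm : 1 ≤ m) (x : X) :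
    s (x - SLp z d (m * d) (IIp zs d m (m * d) x)) = 0 := by
  have hmr : (0 : ℝ) < m := by exact_mod_cast hm
  rw [SLp_IIp z zs d m (m * d) (m * d) le_rfl x]
  have h1 := sum_range_mod (fun j => ((1 / (m : ℝ)) * zs j x) • z j) d m 0 (Nat.zero_le _)
  rw [add_zero, Finset.sum_range_zero, add_zero] at h1
  rw [h1]
  have h2 : m • ∑ j ∈ range d, ((1 / (m : ℝ)) * zs j x) • z j = ∑ j ∈ range d, zs j x • z j := by
    rw [← Nat.cast_smul_eq_nsmul ℝ, Finset.smul_sum]
    refine Finset.sum_congr rfl (fun j _ => ?_)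
    rw [smul_smul]
    congr 1
    field_simp
  rw [h2]
  exact hx x

end

theorem exists_pel {X : Type} [AddCommGroup X] [Module ℝ X] (s : Seminorm ℝ X)
    (G : Submodule ℝ X) (hG : FiniteDimensional ℝ G) (h : ∀ x, ∃ g ∈ G, s (x - g) = 0) :
    Nonempty (Pel s) := by
  obtain ⟨d, z, zs, c, hc, hzs, hx, hz1⟩ := exists_coords s G hG h
  obtain ⟨m0, hm0⟩ := exists_nat_ge (c * ∑ j ∈ range d, s (z j))
  set m := m0 + 1 with hmdef
  have hm : 1 ≤ m := by omega
  have hmc : c * ∑ j ∈ range d, s (z j) ≤ m := by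
    refine hm0.trans ?_
    exact_mod_cast (by omega : m0 ≤ m)
  set n := m * d with hn
  set SL : ℕ → (ℕ →₀ ℝ) →ₗ[ℝ] X := SLp z d with hSL
  set II : X →ₗ[ℝ] (ℕ →₀ ℝ) := IIp zs d m n with hII
  have hd0 : d = 0 → n = 0 := by
    intro h0
    rw [hn, h0, mul_zero]
  have hnull : ∀ u, s u = 0 → II u = 0 := fun u hu => IIp_null s hzs hd0 hu
  have hF1 : ∀ x, ∀ m' ≤ n, s (SL m' (II x)) ≤ 2 * s x := fun x m' hm' =>
    s_SLp_IIp_le s hc hzs hx hm hmc hm' x
  have hF2 : ∀ x, s (x - SL n (II x)) = 0 := fun x => s_sub_SLp_IIp s hx hm x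
  set Bn : Seminorm ℝ (ℕ →₀ ℝ) := (range (n + 1)).sup (fun m' => s.comp (SL m')) with hBn
  have hB1 : ∀ β, ∀ m' ≤ n, s (SL m' β) ≤ Bn β := by
    intro β m' hm'
    have := Seminorm.le_finset_sup_apply (p := fun m' => s.comp (SL m')) (s := range (n + 1))
      (x := β) (i := m') (Finset.mem_range.2 (by omega))
    exact this
  have hB2 : ∀ β (D : ℝ), 0 ≤ D → (∀ m' ≤ n, s (SL m' β) ≤ D) → Bn β ≤ D := by
    intro β D hD hh
    refine Seminorm.finset_sup_apply_le hD ?_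
    intro m' hm'
    exact hh m' (by have := Finset.mem_range.1 hm'; omega)
  have hBI : ∀ x, Bn (II x) ≤ 2 * s x := fun x =>
    hB2 _ _ (by have := apply_nonneg s x; linarith) (fun m' hm' => hF1 x m' hm')
  set pH : Seminorm ℝ (ℕ →₀ ℝ) := Bn.comp (LinearMap.id - II ∘ₗ (SL n)) with hpH
  have hpHe : ∀ β, pH β = Bn (β - II (SL n β)) := fun β => rfl
  have hSLe : ∀ m' β, ∑ i ∈ range m', β i • z (i % d) = SL m' β := fun m' β =>
    (SLp_apply z d m' β).symm
  refine ⟨{ n := n, z := fun k => z (k % d), pH := pH, P1 := ?_, P2 := ?_, P3 := ?_, P4 := ?_ }⟩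
  · intro β m' hm'
    rw [hSLe, hSLe]
    have h1 : Bn β ≤ Bn (β - II (SL n β)) + Bn (II (SL n β)) := by
      have h2 := map_add_le_add Bn (β - II (SL n β)) (II (SL n β))
      rwa [sub_add_cancel] at h2
    have h3 := hBI (SL n β)
    have h4 := hB1 β m' hm'
    rw [← hpHe] at h1
    have h5 := le_max_left (s (SL n β)) (pH β)
    have h6 := le_max_right (s (SL n β)) (pH β)
    linarith
  · intro β D hD
    have hD0 : 0 ≤ D := by
      have := hD 0 (Nat.zero_le _)
      rwa [Finset.sum_range_zero, map_zero] at this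
    have h1 : Bn β ≤ D := hB2 β D hD0 (fun m' hm' => by rw [← hSLe]; exact hD m' hm')
    have h2 : s (SL n β) ≤ D := by rw [← hSLe]; exact hD n le_rfl
    rw [hpHe]
    have h3 := map_sub_le_add Bn β (II (SL n β))
    have h4 := hBI (SL n β)
    linarith
  · intro x h
    set h' : ℕ →₀ ℝ := h.filter (fun i => i < n) with hh'
    have hSh : ∀ m' ≤ n, SL m' h' = SL m' h := by
      intro m' hm'
      rw [← hSLe, ← hSLe]
      refine Finset.sum_congr rfl (fun i hi => ?_)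
      rw [hh', Finsupp.filter_apply, if_pos (lt_of_lt_of_le (Finset.mem_range.1 hi) hm')]
    have hsup : ∀ (γ : ℕ →₀ ℝ), (∀ i, n ≤ i → γ i = 0) → ∀ i ∈ γ.support, i < n := by
      intro γ hγ i hi
      by_contra hcon
      exact (Finsupp.mem_support_iff.1 hi) (hγ i (by omega))
    have hIIz : ∀ (y : X) i, n ≤ i → II y i = 0 := by
      intro y i hi
      rw [hII, IIp_apply, if_neg (by omega)]
    refine ⟨II x + (h' - II (SL n h')), hsup _ ?_, ?_, ?_⟩
    · intro i hi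
      rw [Finsupp.add_apply, Finsupp.sub_apply, hIIz x i hi, hIIz _ i hi, hh',
        Finsupp.filter_apply, if_neg (by omega)]
      ring
    · rw [hSLe]
      have h1 : x - SL n (II x + (h' - II (SL n h'))) =
          (x - SL n (II x)) - (SL n h' - SL n (II (SL n h'))) := by
        rw [map_add, map_sub]
        abel
      rw [h1]
      refine le_antisymm ?_ (apply_nonneg s _)
      refine (map_sub_le_add s _ _).trans ?_
      rw [hF2, hF2, add_zero]
    · rw [hpHe]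
      set u : X := SL n h' - x with hu
      have h1 : h - (II x + (h' - II (SL n h'))) = (h - h') + II u := by
        rw [hu, map_sub]
        abel
      have h2 : SL n (h - h') = 0 := by
        rw [map_sub, hSh n le_rfl, sub_self]
      have h3 : SL n ((h - h') + II u) = SL n (II u) := by
        rw [map_add, h2, zero_add]
      have h4 : II u - II (SL n (II u)) = 0 := by
        rw [← map_sub]
        exact hnull _ (hF2 u)
      rw [h1, h3]
      have h5 : (h - h') + II u - II (SL n (II u)) = h - h' := by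
        rw [add_sub_assoc, h4, add_zero]
      rw [h5]
      refine le_antisymm ?_ (apply_nonneg Bn _)
      refine hB2 _ 0 le_rfl (fun m' hm' => ?_)
      rw [map_sub, hSh m' hm', sub_self, map_zero]
  · intro i hi
    have hd : 0 < d := by
      rcases Nat.eq_zero_or_pos d with h0 | h0
      · have := hd0 h0
        omega
      · exact h0
    have h1 := hzs (i % d) (Nat.mod_lt _ hd) (z (i % d))
    rw [hz1 _ (Nat.mod_lt _ hd), abs_one] at h1
    by_contra hcon
    have h2 : s (z (i % d)) = 0 := le_antisymm (not_lt.1 hcon) (apply_nonneg s _)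
    rw [h2, mul_zero] at h1
    linarith

end Pool.Agent.HI61
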