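import Pool.Agent.HI61.WDefs2
import Pool.Agent.HI61.ErrLin

/-!
# HI61/WBasic : elementary properties of `vs`, `hat`, `Th`

PROOFS.
`vs_mem`: `hVS` with `f = v ∘ ι`, `‖f‖ ≤ ‖v‖` (ι is an isometry).  `seq_mem`: `hVS`.
`hat_le`: `gam_le`.  `q_le_of_Kle`: if `B < q k (w.2 k)` then `gam_sup` gives `i` with `blk i = k`,
`B < |gam i (w.2 k)| = |hat w i| ≤ B` (`Kle_abs`).
`hat_supp`: `hat w i ≠ 0` implies `blk i ∈ w.2.support`.
`Fj_hat_zero`: `Fj_zero_of_supp`.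
`Th_eq_sum`: `finsum_eq_sum_of_support_subset`.
`Th_add`, `Th_smul`: from `Th_eq_sum` with a common `J`, `Fj_add`, `Fj_smul` (`vs_mem`); `hat` is linear.
`Th_neg`: `Fj_neg`.  `Th_sub_le`, `Th_split`: from `Th_eq_sum`.
`Th_sum`: induction on the finite set from `Th_add`, `Th_smul` (and `Th n v 0 = 0`).
-/

namespace Pool.Agent.HI61

open Finset
open scoped Classical

variable {X V : Type} [NormedAddCommGroup X] [NormedSpace ℝ X]
  [NormedAddCommGroup V] [NormedSpace ℝ V]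

theorem vs_mem (H : Host X V) (v : V →L[ℝ] ℝ) (hv : ‖v‖ ≤ 1) : H.vs v ∈ H.P.VS := by
  rw [H.hVS]
  refine ⟨v.comp H.F.ι.toContinuousLinearMap, ?_, rfl⟩
  refine ContinuousLinearMap.opNorm_le_bound _ zero_le_one fun x => ?_
  calc ‖v (H.F.ι x)‖ ≤ ‖v‖ * ‖H.F.ι x‖ := v.le_opNorm _
    _ ≤ 1 * ‖x‖ := by
      rw [H.F.ι.norm_map]
      exact mul_le_mul_of_nonneg_right hv (norm_nonneg x)

theorem seq_mem (H : Host X V) (f : X →L[ℝ] ℝ) (hf : ‖f‖ ≤ 1) :
    (fun k => f (H.F.b k)) ∈ H.P.VS := by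
  rw [H.hVS]
  exact ⟨f, hf, rfl⟩

theorem hat_apply (H : Host X V) (w : W0 X) (i : ℕ) : H.hat w i = H.gam i (w.2 (blk i)) := rfl

theorem pos_apply (H : Host X V) (w : W0 X) :
    H.pos w = H.F.ι w.1 + w.2.sum fun k e => H.F.R k (H.F.ι e.1) := rfl

theorem hat_le (H : Host X V) (w : W0 X) (i : ℕ) : |H.hat w i| ≤ H.q (blk i) (w.2 (blk i)) := by
  rw [hat_apply]
  exact H.gam_le i _

theorem q_nonneg (H : Host X V) (k : ℕ) (e : Eb X) : 0 ≤ H.q k e := by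
  exact le_max_of_le_left (apply_nonneg _ _)

theorem q_zero (H : Host X V) (k : ℕ) : H.q k 0 = 0 := by
  unfold Host.q
  rw [Prod.fst_zero, Prod.snd_zero, map_zero, map_zero, max_self]

theorem q_le_of_Kle (H : Host X V) (w : W0 X) (B : ℝ) (h : Kle H.P (H.hat w) B) (k : ℕ) :
    H.q k (w.2 k) ≤ B := by
  by_contra hcon
  push Not at hcon
  obtain ⟨i, hi, hlt⟩ := H.gam_sup k (w.2 k) B hcon
  have h1 := Kle_abs h i
  rw [hat_apply, hi] at h1
  exact absurd h1 (not_le.2 hlt)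

theorem p_le_of_Kle (H : Host X V) (w : W0 X) (B : ℝ) (h : Kle H.P (H.hat w) B) (k : ℕ) :
    H.F.p k (w.2 k).1 ≤ B := by
  exact (le_max_left _ _).trans (q_le_of_Kle H w B h k)

theorem hat_supp (H : Host X V) (w : W0 X) (i : ℕ) (hi : H.hat w i ≠ 0) :
    blk i ∈ w.2.support := by
  by_contra hcon
  apply hi
  rw [hat_apply, Finsupp.notMem_support_iff.1 hcon, map_zero]

theorem Fj_hat_zero (H : Host X V) (w : W0 X) (v : V →L[ℝ] ℝ) (J : ℕ)
    (hJ : ∀ k ∈ w.2.support, k ≤ J) (j : ℕ) (hj : J ≤ j) :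
    Fj H.P j (H.vs v) (H.hat w) = 0 := by
  exact Fj_zero_of_supp H.good j _ _ fun i hi => (hJ _ (hat_supp H w i hi)).trans hj

theorem Th_eq_sum (H : Host X V) (w : W0 X) (v : V →L[ℝ] ℝ) (J : ℕ)
    (hJ : ∀ k ∈ w.2.support, k ≤ J) (n : ℕ) :
    H.Th n v w = v (H.pos w) + ∑ j ∈ Ico n J, Fj H.P j (H.vs v) (H.hat w) := by
  unfold Host.Th
  congr 1
  rw [finsum_eq_sum_of_support_subset (s := Ico n J)]
  · refine Finset.sum_congr rfl fun j hj => ?_
    rw [if_pos (Finset.mem_Ico.1 hj).1]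
  · intro j hj
    rw [Function.mem_support] at hj
    rw [Finset.coe_Ico, Set.mem_Ico]
    by_cases h1 : n ≤ j
    · refine ⟨h1, ?_⟩
      by_contra hcon
      apply hj
      rw [if_pos h1]
      exact Fj_hat_zero H w v J hJ j (not_lt.1 hcon)
    · exact absurd (if_neg h1) hj

private theorem exJ (w w' : W0 X) :
    ∃ J, (∀ k ∈ w.2.support, k ≤ J) ∧ ∀ k ∈ w'.2.support, k ≤ J :=
  ⟨max (w.2.support.sup id) (w'.2.support.sup id),
    fun _ hk => le_max_of_le_left (Finset.le_sup (f := id) hk),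
    fun _ hk => le_max_of_le_right (Finset.le_sup (f := id) hk)⟩

theorem Th_add (H : Host X V) (n : ℕ) (v : V →L[ℝ] ℝ) (hv : ‖v‖ ≤ 1) (w w' : W0 X) :
    H.Th n v (w + w') = H.Th n v w + H.Th n v w' := by
  obtain ⟨J, hJ1, hJ2⟩ := exJ w w'
  have hJ3 : ∀ k ∈ (w + w').2.support, k ≤ J := by
    intro k hk
    rw [Prod.snd_add] at hk
    rcases Finset.mem_union.1 (Finsupp.support_add hk) with h | h
    · exact hJ1 k h
    · exact hJ2 k h
  rw [Th_eq_sum H _ v J hJ3, Th_eq_sum H _ v J hJ1, Th_eq_sum H _ v J hJ2, map_add, map_add]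
  have e : H.hat (w + w') = fun i => H.hat w i + H.hat w' i := by
    rw [map_add]
    rfl
  rw [e]
  simp only [Fj_add H.good _ _ (vs_mem H v hv)]
  rw [Finset.sum_add_distrib]
  ring

theorem Th_smul (H : Host X V) (n : ℕ) (v : V →L[ℝ] ℝ) (hv : ‖v‖ ≤ 1) (c : ℝ) (w : W0 X) :
    H.Th n v (c • w) = c * H.Th n v w := by
  obtain ⟨J, hJ1, -⟩ := exJ w w
  have hJ3 : ∀ k ∈ (c • w).2.support, k ≤ J := by
    intro k hk
    rw [Prod.smul_snd] at hk
    exact hJ1 k (Finsupp.support_smul hk)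
  rw [Th_eq_sum H _ v J hJ3, Th_eq_sum H _ v J hJ1, map_smul, map_smul]
  have e : H.hat (c • w) = fun i => c * H.hat w i := by
    rw [map_smul]
    rfl
  rw [e]
  simp only [Fj_smul H.good _ _ (vs_mem H v hv)]
  rw [← Finset.mul_sum, smul_eq_mul]
  ring

theorem Th_sum (H : Host X V) (n : ℕ) (v : V →L[ℝ] ℝ) (hv : ‖v‖ ≤ 1) {ι : Type*} (S : Finset ι)
    (c : ι → ℝ) (w : ι → W0 X) :
    H.Th n v (∑ k ∈ S, c k • w k) = ∑ k ∈ S, c k * H.Th n v (w k) := by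
  have h0 : H.Th n v (0 : W0 X) = 0 := by
    have := Th_smul H n v hv 0 (0 : W0 X)
    rwa [zero_smul, zero_mul] at this
  induction S using Finset.induction_on with
  | empty => rw [Finset.sum_empty, Finset.sum_empty, h0]
  | insert a s ha ih =>
    rw [Finset.sum_insert ha, Finset.sum_insert ha, Th_add H n v hv, Th_smul H n v hv, ih]

theorem Th_neg (H : Host X V) (n : ℕ) (v : V →L[ℝ] ℝ) (w : W0 X) :
    H.Th n (-v) w = - H.Th n v w := by
  unfold Host.Th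
  have e : H.vs (-v) = - H.vs v := by
    funext k
    rfl
  rw [e, neg_add, ← finsum_neg_distrib]
  congr 1
  refine finsum_congr fun j => ?_
  split_ifs
  · exact Fj_neg j _ _
  · rw [neg_zero]

/-- a vector of `X` is only seen through its position -/
theorem Th_X (H : Host X V) (n : ℕ) (v : V →L[ℝ] ℝ) (x : X) :
    H.Th n v ((x, 0) : W0 X) = v (H.F.ι x) := by
  rw [Th_eq_sum H _ v 0 (fun k hk => by simp at hk)]
  rw [Finset.Ico_eq_empty_of_le (Nat.zero_le n), Finset.sum_empty, add_zero, pos_apply]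
  simp

/-- `Th n = Th m + ∑_{n ≤ j < m} F_j` -/
theorem Th_split (H : Host X V) (w : W0 X) (v : V →L[ℝ] ℝ) (n m : ℕ) (hnm : n ≤ m) :
    H.Th n v w = H.Th m v w + ∑ j ∈ Ico n m, Fj H.P j (H.vs v) (H.hat w) := by
  obtain ⟨J, hJ1, -⟩ := exJ w w
  have hJ2 : ∀ k ∈ w.2.support, k ≤ max J m := fun k hk => (hJ1 k hk).trans (le_max_left _ _)
  rw [Th_eq_sum H w v _ hJ2, Th_eq_sum H w v _ hJ2,
    ← Finset.sum_Ico_consecutive _ hnm (le_max_right J m)]
  ring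

end Pool.Agent.HI61
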