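import Pool.Agent.HI61.FrameP
import Pool.Agent.HI61.WBasic

/-!
# HI61/PosNear : positions are close to `X`

PROOF.  For `k ∈ w.2.support` let `x_k = (w.2 k).1 = y + z + x'`, `y ∈ Xk k`, `R k (ι z) = 0`,
`‖x'‖ ≤ p k x_k + B ≤ 2 B` (`p_rep` with `η = B`).  `R k (ι x_k) = ι y + R k (ι x')` (`Xk_fix`) and there is
`y'` with `‖R k (ι x') - ι y'‖ ≤ ep k * 2 B` (`near`).  `ξ = w.1 + ∑_k (y_k + y'_k)`.
-/

namespace Pool.Agent.HI61

open Finset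
open scoped Classical

variable {X V : Type} [NormedAddCommGroup X] [NormedSpace ℝ X]
  [NormedAddCommGroup V] [NormedSpace ℝ V]

theorem pos_near (H : Host X V) (w : W0 X) (B : ℝ) (hB : 0 < B)
    (h : ∀ k, H.F.p k (w.2 k).1 ≤ B) :
    ∃ ξ : X, ‖H.pos w - H.F.ι ξ‖ ≤ 2 * B * ∑ k ∈ w.2.support, H.F.ep k := by
  have key : ∀ k, ∃ ζ : X, ‖H.F.R k (H.F.ι (w.2 k).1) - H.F.ι ζ‖ ≤ 2 * B * H.F.ep k := by
    intro k
    obtain ⟨y, hy, z, hz, hn⟩ := p_rep H.F k (w.2 k).1 B hB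
    obtain ⟨y', _, hy'⟩ := H.F.near k ((w.2 k).1 - y - z)
    refine ⟨y + y', ?_⟩
    have h1 : H.F.R k (H.F.ι y) = H.F.ι y := H.F.Xk_fix k y hy k le_rfl
    have h2 : H.F.R k (H.F.ι (w.2 k).1) - H.F.ι (y + y') =
        H.F.R k (H.F.ι ((w.2 k).1 - y - z)) - H.F.ι y' := by
      rw [map_sub, map_sub, map_sub, map_sub, h1, hz, map_add]
      abel
    rw [h2]
    refine hy'.trans ?_
    have h3 := H.F.ep_pos k
    have h4 := h k
    nlinarith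
  choose ζ hζ using key
  refine ⟨w.1 + ∑ k ∈ w.2.support, ζ k, ?_⟩
  have h5 : H.pos w - H.F.ι (w.1 + ∑ k ∈ w.2.support, ζ k) =
      ∑ k ∈ w.2.support, (H.F.R k (H.F.ι (w.2 k).1) - H.F.ι (ζ k)) := by
    rw [pos_apply, map_add, map_sum, Finset.sum_sub_distrib, Finsupp.sum]
    abel
  rw [h5, Finset.mul_sum]
  refine (norm_sum_le _ _).trans (Finset.sum_le_sum fun k _ => hζ k)

end Pool.Agent.HI61
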