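import Mathlib

/-!
# HI61/Simons : pointwise null bounded sequences in `C(K)` have small convex combinations

PROOF (Simons).  Let `C_n` be the convex hull of `{h k | k ≥ max n N}` in `C(K, ℝ)` and `S g = max_K g`.  Suppose that the
claim is false; then `S g > δ` for all `g ∈ C_0`.  Let `η = δ / 12`.  Choose recursively `g_n ∈ C_n`, `s_0 = 0`,
`s_{n+1} = 2 s_n + g_n`, such that `a_n := S (s_n + g_n) ≤ inf_{g ∈ C_n} S (s_n + g) + η 2^{-n}`.
-/

namespace Pool.Agent.HI61

open Finset Filter Topology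

section aux

variable {K : Type*} [TopologicalSpace K] [CompactSpace K] [Nonempty K]

/-- The maximum of a continuous function. -/
noncomputable def simS (g : C(K, ℝ)) : ℝ := ⨆ x, g x

omit [Nonempty K] in
lemma simS_bdd (g : C(K, ℝ)) : BddAbove (Set.range g) :=
  (isCompact_range g.continuous).bddAbove

omit [Nonempty K] in
lemma le_simS (g : C(K, ℝ)) (x : K) : g x ≤ simS g := le_ciSup (simS_bdd g) x

omit [CompactSpace K] in
lemma simS_le {g : C(K, ℝ)} {c : ℝ} (h : ∀ x, g x ≤ c) : simS g ≤ c := ciSup_le h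

lemma exists_simS (g : C(K, ℝ)) : ∃ x, g x = simS g := by
  obtain ⟨x, -, hx⟩ := isCompact_univ.exists_isMaxOn (Set.univ_nonempty (α := K))
    g.continuous.continuousOn
  exact ⟨x, le_antisymm (le_simS g x) (simS_le fun y => hx (Set.mem_univ y))⟩

lemma simS_near (C : Set C(K, ℝ)) (hne : C.Nonempty) (hb : ∀ g ∈ C, ∀ x, -1 ≤ g x)
    (s : C(K, ℝ)) (ε : ℝ) (hε : 0 < ε) :
    ∃ g ∈ C, ∀ g' ∈ C, simS (s + g) ≤ simS (s + g') + ε := by
  obtain ⟨x0⟩ := ‹Nonempty K›
  let A : Set ℝ := (fun g => simS (s + g)) '' C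
  have hA : A.Nonempty := hne.image _
  have hbd : BddBelow A := by
    refine ⟨s x0 - 1, ?_⟩
    rintro _ ⟨g, hg, rfl⟩
    have h1 := le_simS (s + g) x0
    have h2 := hb g hg x0
    simp only [ContinuousMap.add_apply] at h1
    show s x0 - 1 ≤ simS (s + g)
    linarith
  obtain ⟨a, ⟨g, hg, rfl⟩, hlt⟩ := exists_lt_of_csInf_lt hA (lt_add_of_pos_right (sInf A) hε)
  refine ⟨g, hg, fun g' hg' => ?_⟩
  have h3 : sInf A ≤ simS (s + g') := csInf_le hbd ⟨g', hg', rfl⟩
  simp only at hlt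
  linarith

end aux

theorem simons {K : Type*} [TopologicalSpace K] [CompactSpace K] [Nonempty K] (h : ℕ → C(K, ℝ))
    (hb : ∀ n x, |h n x| ≤ 1) (hlim : ∀ x, Tendsto (fun n => h n x) atTop (𝓝 0)) (N : ℕ) (δ : ℝ)
    (hδ : 0 < δ) :
    ∃ (w : ℕ → ℝ) (M : ℕ), (∀ n, 0 ≤ w n) ∧ (∀ n, w n ≠ 0 → N ≤ n ∧ n < M) ∧
      ∑ n ∈ range M, w n = 1 ∧ ∀ x, ∑ n ∈ range M, w n * h n x ≤ δ := by
  classical
  by_contra hcon
  let C : ℕ → Set C(K, ℝ) := fun n => convexHull ℝ (h '' {k | max n N ≤ k})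
  have hCmem : ∀ n k, max n N ≤ k → h k ∈ C n := fun n k hk =>
    subset_convexHull ℝ _ ⟨k, hk, rfl⟩
  have hCne : ∀ n, (C n).Nonempty := fun n => ⟨_, hCmem n _ le_rfl⟩
  have hCmono : ∀ n, C (n + 1) ⊆ C n := by
    intro n
    apply convexHull_mono
    apply Set.image_mono
    intro k hk
    simp only [Set.mem_ofPred_eq] at hk ⊢
    exact le_trans (max_le_max (Nat.le_succ n) le_rfl) hk
  have hCle : ∀ n x c, (∀ k, max n N ≤ k → h k x ≤ c) → ∀ g ∈ C n, g x ≤ c := by
    intro n x c hc g hg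
    have hconv : Convex ℝ {g : C(K, ℝ) | g x ≤ c} := by
      intro u hu v hv a b ha hb' hab
      simp only [Set.mem_ofPred_eq, ContinuousMap.add_apply, ContinuousMap.smul_apply,
        smul_eq_mul] at hu hv ⊢
      have e : c = a * c + b * c := by rw [← add_mul, hab, one_mul]
      have e1 := mul_le_mul_of_nonneg_left hu ha
      have e2 := mul_le_mul_of_nonneg_left hv hb'
      linarith
    have : C n ⊆ {g : C(K, ℝ) | g x ≤ c} := by
      apply convexHull_min _ hconv
      rintro _ ⟨k, hk, rfl⟩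
      exact hc k hk
    exact this hg
  have hCge : ∀ n x c, (∀ k, max n N ≤ k → c ≤ h k x) → ∀ g ∈ C n, c ≤ g x := by
    intro n x c hc g hg
    have hconv : Convex ℝ {g : C(K, ℝ) | c ≤ g x} := by
      intro u hu v hv a b ha hb' hab
      simp only [Set.mem_ofPred_eq, ContinuousMap.add_apply, ContinuousMap.smul_apply,
        smul_eq_mul] at hu hv ⊢
      have e : c = a * c + b * c := by rw [← add_mul, hab, one_mul]
      have e1 := mul_le_mul_of_nonneg_left hu ha
      have e2 := mul_le_mul_of_nonneg_left hv hb'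
      linarith
    have : C n ⊆ {g : C(K, ℝ) | c ≤ g x} := by
      apply convexHull_min _ hconv
      rintro _ ⟨k, hk, rfl⟩
      exact hc k hk
    exact this hg
  have hCb : ∀ n, ∀ g ∈ C n, ∀ x, |g x| ≤ 1 := by
    intro n g hg x
    rw [abs_le]
    exact ⟨hCge n x (-1) (fun k _ => (abs_le.mp (hb k x)).1) g hg,
      hCle n x 1 (fun k _ => (abs_le.mp (hb k x)).2) g hg⟩
  have hCnorm : ∀ n, ∀ g ∈ C n, ‖g‖ ≤ 1 := by
    intro n g hg
    rw [ContinuousMap.norm_le _ zero_le_one]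
    intro x
    rw [Real.norm_eq_abs]
    exact hCb n g hg x
  -- every element of `C 0` has maximum `> δ`
  have hbig : ∀ g ∈ C 0, δ < simS g := by
    intro g hg
    by_contra hle
    rw [not_lt] at hle
    apply hcon
    let W : Set C(K, ℝ) := {g | ∃ (w : ℕ → ℝ) (M : ℕ), (∀ n, 0 ≤ w n) ∧
      (∀ n, w n ≠ 0 → N ≤ n ∧ n < M) ∧ ∑ n ∈ range M, w n = 1 ∧
        ∀ x, g x = ∑ n ∈ range M, w n * h n x}
    have hext : ∀ (w : ℕ → ℝ) (M M' : ℕ) (f : ℕ → ℝ), (∀ n, w n ≠ 0 → N ≤ n ∧ n < M) → M ≤ M' →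
        ∑ n ∈ range M', w n * f n = ∑ n ∈ range M, w n * f n := by
      intro w M M' f hw hM
      symm
      apply Finset.sum_subset (Finset.range_mono hM)
      intro n _ hn
      rw [Finset.mem_range, not_lt] at hn
      have : w n = 0 := by
        by_contra h0
        exact absurd (hw n h0).2 (not_lt.mpr hn)
      rw [this, zero_mul]
    have hext' : ∀ (w : ℕ → ℝ) (M M' : ℕ), (∀ n, w n ≠ 0 → N ≤ n ∧ n < M) → M ≤ M' →
        ∑ n ∈ range M', w n = ∑ n ∈ range M, w n := by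
      intro w M M' hw hM
      have := hext w M M' (fun _ => 1) hw hM
      simpa using this
    have hWconv : Convex ℝ W := by
      rintro u ⟨w1, M1, h11, h12, h13, h14⟩ v ⟨w2, M2, h21, h22, h23, h24⟩ a b ha hb' hab
      refine ⟨fun n => a * w1 n + b * w2 n, max M1 M2, ?_, ?_, ?_, ?_⟩
      · intro n
        exact add_nonneg (mul_nonneg ha (h11 n)) (mul_nonneg hb' (h21 n))
      · intro n hn
        by_cases h1 : w1 n = 0
        · have h2 : w2 n ≠ 0 := by
            intro h2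
            apply hn
            simp [h1, h2]
          exact ⟨(h22 n h2).1, lt_of_lt_of_le (h22 n h2).2 (le_max_right _ _)⟩
        · exact ⟨(h12 n h1).1, lt_of_lt_of_le (h12 n h1).2 (le_max_left _ _)⟩
      · rw [Finset.sum_add_distrib, ← Finset.mul_sum, ← Finset.mul_sum,
          hext' w1 M1 _ h12 (le_max_left _ _), hext' w2 M2 _ h22 (le_max_right _ _), h13, h23]
        linarith
      · intro x
        simp only [ContinuousMap.add_apply, ContinuousMap.smul_apply, smul_eq_mul]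
        rw [h14 x, h24 x, ← hext w1 M1 (max M1 M2) (fun n => h n x) h12 (le_max_left _ _),
          ← hext w2 M2 (max M1 M2) (fun n => h n x) h22 (le_max_right _ _),
          Finset.mul_sum, Finset.mul_sum, ← Finset.sum_add_distrib]
        apply Finset.sum_congr rfl
        intro n _
        ring
    have hWsub : C 0 ⊆ W := by
      apply convexHull_min _ hWconv
      rintro _ ⟨k, hk, rfl⟩
      refine ⟨fun n => if n = k then 1 else 0, k + 1, ?_, ?_, ?_, ?_⟩
      · intro n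
        dsimp only
        split_ifs <;> norm_num
      · intro n hn
        have : n = k := by
          by_contra h0
          apply hn
          simp [h0]
        subst this
        simp only [Set.mem_ofPred_eq] at hk
        exact ⟨le_trans (le_max_right _ _) hk, Nat.lt_succ_self _⟩
      · simp
      · intro x
        simp
    obtain ⟨w, M, h1, h2, h3, h4⟩ := hWsub hg
    refine ⟨w, M, h1, h2, h3, fun x => ?_⟩
    rw [← h4 x]
    exact le_trans (le_simS g x) hle
  -- the recursive choice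
  have hη : 0 < δ / 12 := by positivity
  have hch : ∀ (n : ℕ) (s : C(K, ℝ)), ∃ g ∈ C n, ∀ g' ∈ C n,
      simS (s + g) ≤ simS (s + g') + δ / 12 / 2 ^ n := by
    intro n s
    exact simS_near (C n) (hCne n) (fun g hg x => (abs_le.mp (hCb n g hg x)).1) s _ (by positivity)
  choose G hG1 hG2 using hch
  let s : ℕ → C(K, ℝ) := fun n => Nat.rec 0 (fun n t => (2 : ℝ) • t + G n t) n
  have hs0 : s 0 = 0 := rfl
  have hs1 : ∀ n, s (n + 1) = (2 : ℝ) • s n + G n (s n) := fun n => rfl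
  let g : ℕ → C(K, ℝ) := fun n => G n (s n)
  have hgC : ∀ n, g n ∈ C n := fun n => hG1 n (s n)
  have hgm : ∀ n, ∀ g' ∈ C n, simS (s n + g n) ≤ simS (s n + g') + δ / 12 / 2 ^ n :=
    fun n => hG2 n (s n)
  have hs1' : ∀ n, s (n + 1) = (2 : ℝ) • s n + g n := hs1
  clear_value s g
  let a : ℕ → ℝ := fun n => simS (s n + g n)
  have ha1 : ∀ n, 2 * a n - 2 * (δ / 12 / 2 ^ n) ≤ a (n + 1) := by
    intro n
    have hmem : (1 / 2 : ℝ) • g n + (1 / 2 : ℝ) • g (n + 1) ∈ C n :=
      (convex_convexHull ℝ _) (hgC n) (hCmono n (hgC (n + 1))) (by norm_num) (by norm_num)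
        (by norm_num)
    have h1 := hgm n _ hmem
    obtain ⟨x, hx⟩ := exists_simS (s n + ((1 / 2 : ℝ) • g n + (1 / 2 : ℝ) • g (n + 1)))
    have h2 := le_simS (s (n + 1) + g (n + 1)) x
    rw [hs1' n] at h2
    simp only [ContinuousMap.add_apply, ContinuousMap.smul_apply, smul_eq_mul] at hx h2
    show 2 * simS (s n + g n) - 2 * (δ / 12 / 2 ^ n) ≤ simS (s (n + 1) + g (n + 1))
    rw [← hs1' n] at h2
    linarith
  have hb1 : ∀ n m, n ≤ m → a n / 2 ^ n - 2 * (δ / 12) * (1 / 4 ^ n - 1 / 4 ^ m) ≤ a m / 2 ^ m := by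
    intro n m hnm
    induction m, hnm using Nat.le_induction with
    | base => simp
    | succ m hm ih =>
      have h1 := ha1 m
      have h2 : a m / 2 ^ m - (δ / 12) / 4 ^ m ≤ a (m + 1) / 2 ^ (m + 1) := by
        rw [le_div_iff₀ (by positivity)]
        have h4 : (4 : ℝ) ^ m = 2 ^ m * 2 ^ m := by
          rw [← mul_pow]; norm_num
        have h5 : (a m / 2 ^ m - (δ / 12) / 4 ^ m) * 2 ^ (m + 1)
            = 2 * a m - 2 * (δ / 12 / 2 ^ m) := by
          rw [h4, pow_succ]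
          field_simp
        rw [h5]
        exact h1
      have h6 : (1 : ℝ) / 4 ^ (m + 1) = 1 / 4 * (1 / 4 ^ m) := by
        rw [pow_succ]; field_simp
      have h7 : 0 < (1 : ℝ) / 4 ^ m := by positivity
      have h8 : (δ / 12) / 4 ^ m = δ / 12 * (1 / 4 ^ m) := by ring
      rw [h6]
      rw [h8] at h2
      nlinarith
  -- the limit function
  let y : ℕ → C(K, ℝ) := fun n => ((1 : ℝ) / 2 ^ n) • s n
  have hy1 : ∀ n, y (n + 1) = y n + ((1 : ℝ) / 2 ^ (n + 1)) • g n := by
    intro n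
    show ((1 : ℝ) / 2 ^ (n + 1)) • s (n + 1) = ((1 : ℝ) / 2 ^ n) • s n + ((1 : ℝ) / 2 ^ (n + 1)) • g n
    rw [hs1', smul_add, smul_smul]
    congr 2
    rw [pow_succ]
    field_simp
  have hyd : ∀ n, dist (y n) (y (n + 1)) ≤ 1 / 2 / 2 ^ n := by
    intro n
    rw [hy1 n, dist_self_add_right, norm_smul, Real.norm_eq_abs, abs_of_pos (by positivity)]
    have := hCnorm n (g n) (hgC n)
    calc (1 : ℝ) / 2 ^ (n + 1) * ‖g n‖ ≤ 1 / 2 ^ (n + 1) * 1 :=
          mul_le_mul_of_nonneg_left this (by positivity)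
      _ = 1 / 2 / 2 ^ n := by rw [pow_succ]; field_simp
  obtain ⟨Y, hY⟩ := cauchySeq_tendsto_of_complete (cauchySeq_of_le_geometric_two hyd)
  have hYd : ∀ n, dist (y n) Y ≤ 1 / 2 ^ n := fun n =>
    dist_le_of_le_geometric_two_of_tendsto hyd hY n
  have hYd' : ∀ n x, |y n x - Y x| ≤ 1 / 2 ^ n := by
    intro n x
    have := ContinuousMap.dist_apply_le_dist (f := y n) (g := Y) x
    rw [Real.dist_eq] at this
    exact le_trans this (hYd n)
  have hyx : ∀ n x, y n x = s n x / 2 ^ n := by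
    intro n x
    show ((1 : ℝ) / 2 ^ n) * s n x = _
    ring
  -- (2)
  have h2a : ∀ m, a m / 2 ^ m - 2 / 2 ^ m ≤ simS Y := by
    intro m
    obtain ⟨x, hx⟩ := exists_simS (s m + g m)
    have h1 : a m / 2 ^ m = y m x + g m x / 2 ^ m := by
      rw [hyx m x]
      show simS (s m + g m) / 2 ^ m = _
      rw [← hx]
      simp only [ContinuousMap.add_apply]
      ring
    have h2 := (abs_le.mp (hYd' m x)).2
    have h3 := le_simS Y x
    have h4 : g m x / 2 ^ m ≤ 1 / 2 ^ m := by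
      apply div_le_div_of_nonneg_right _ (by positivity)
      exact (abs_le.mp (hCb m (g m) (hgC m) x)).2
    have h5 : (2 : ℝ) / 2 ^ m = 1 / 2 ^ m + 1 / 2 ^ m := by ring
    rw [h1, h5]
    linarith
  have hp : Tendsto (fun m : ℕ => (1 : ℝ) / 2 ^ m) atTop (𝓝 0) := by
    have := tendsto_pow_atTop_nhds_zero_of_lt_one (r := (1 / 2 : ℝ)) (by norm_num) (by norm_num)
    refine this.congr fun m => ?_
    rw [div_pow, one_pow]
  have h2b : ∀ n, a n / 2 ^ n - 2 * (δ / 12) * (1 / 4 ^ n) ≤ simS Y := by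
    intro n
    have hlim2 : Tendsto (fun m : ℕ => a n / 2 ^ n - 2 * (δ / 12) * (1 / 4 ^ n) - 2 * (1 / 2 ^ m))
        atTop (𝓝 (a n / 2 ^ n - 2 * (δ / 12) * (1 / 4 ^ n) - 2 * 0)) :=
      (hp.const_mul 2).const_sub _
    rw [mul_zero, sub_zero] at hlim2
    refine le_of_tendsto hlim2 ?_
    filter_upwards [eventually_ge_atTop n] with m hm
    have h1 := hb1 n m hm
    have h2 := h2a m
    have h3 : 0 < (1 : ℝ) / 4 ^ m := by positivity
    have h4 : (2 : ℝ) / 2 ^ m = 2 * (1 / 2 ^ m) := by ring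
    rw [h4] at h2
    nlinarith
  have h2c : ∀ n, a n - 2 * (δ / 12) * (1 / 2 ^ n) ≤ 2 ^ n * simS Y := by
    intro n
    have h1 := h2b n
    have h4 : (4 : ℝ) ^ n = 2 ^ n * 2 ^ n := by
      rw [← mul_pow]; norm_num
    have h5 : (a n / 2 ^ n - 2 * (δ / 12) * (1 / 4 ^ n)) * 2 ^ n
        = a n - 2 * (δ / 12) * (1 / 2 ^ n) := by
      rw [h4]
      field_simp
    rw [← h5, mul_comm ((2 : ℝ) ^ n)]
    exact mul_le_mul_of_nonneg_right h1 (by positivity)
  obtain ⟨z, hz⟩ := exists_simS Y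
  let r : ℕ → ℝ := fun n => 2 ^ n * Y z - s n z
  have hr0 : δ - 2 * (δ / 12) ≤ r 0 := by
    have h1 := h2c 0
    have h2 := hbig (g 0) (hgC 0)
    have h3 : a 0 = simS (g 0) := by
      show simS (s 0 + g 0) = _
      rw [hs0, zero_add]
    show δ - 2 * (δ / 12) ≤ 2 ^ 0 * Y z - s 0 z
    rw [hs0, hz]
    simp only [ContinuousMap.zero_apply]
    rw [h3] at h1
    simp only [pow_zero] at h1 ⊢
    linarith
  have hr1 : ∀ n, r (n + 1) = 2 * r n - g n z := by
    intro n
    show 2 ^ (n + 1) * Y z - s (n + 1) z = 2 * (2 ^ n * Y z - s n z) - g n z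
    rw [hs1' n]
    simp only [ContinuousMap.add_apply, ContinuousMap.smul_apply, smul_eq_mul]
    ring
  have hrg : ∀ n, g n z ≤ r n + 2 * (δ / 12) * (1 / 2 ^ n) := by
    intro n
    have h1 := h2c n
    have h2 := le_simS (s n + g n) z
    simp only [ContinuousMap.add_apply] at h2
    show g n z ≤ (2 ^ n * Y z - s n z) + 2 * (δ / 12) * (1 / 2 ^ n)
    have h3 : a n = simS (s n + g n) := rfl
    rw [hz]
    rw [h3] at h1
    linarith
  have hr2 : ∀ n, δ - 2 * (δ / 12) - 4 * (δ / 12) * (1 - 1 / 2 ^ n) ≤ r n := by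
    intro n
    induction n with
    | zero => simpa using hr0
    | succ n ih =>
      have h1 := hr1 n
      have h2 := hrg n
      have h3 : (1 : ℝ) / 2 ^ (n + 1) = 1 / 2 * (1 / 2 ^ n) := by
        rw [pow_succ]; field_simp
      rw [h1, h3]
      nlinarith
  have hr3 : ∀ n, δ / 2 ≤ r n := by
    intro n
    have h1 := hr2 n
    have h2 : 0 < (1 : ℝ) / 2 ^ n := by positivity
    nlinarith
  have hr4 : ∀ n, r n ≤ 1 := by
    intro n
    have h1 := (abs_le.mp (hYd' n z)).1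
    rw [hyx n z] at h1
    have h2 : r n = 2 ^ n * (Y z - s n z / 2 ^ n) := by
      show 2 ^ n * Y z - s n z = _
      field_simp
    have h3 : Y z - s n z / 2 ^ n ≤ 1 / 2 ^ n := by linarith
    rw [h2]
    calc (2 : ℝ) ^ n * (Y z - s n z / 2 ^ n) ≤ 2 ^ n * (1 / 2 ^ n) :=
          mul_le_mul_of_nonneg_left h3 (by positivity)
      _ = 1 := by field_simp
  -- (4)
  have hev : ∀ᶠ n in atTop, h n z < δ / 4 :=
    (tendsto_order.mp (hlim z)).2 (δ / 4) (by positivity)
  obtain ⟨n0, hn0⟩ := eventually_atTop.mp hev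
  have hgle : ∀ k, n0 ≤ k → g k z ≤ δ / 4 := by
    intro k hk
    apply hCle k z (δ / 4) _ (g k) (hgC k)
    intro j hj
    exact le_of_lt (hn0 j (le_trans hk (le_trans (le_max_left _ _) hj)))
  have hgrow : ∀ j, 2 ^ j * (δ / 4) ≤ r (n0 + j) - δ / 4 := by
    intro j
    induction j with
    | zero =>
      have := hr3 n0
      simp only [pow_zero, add_zero]
      linarith
    | succ j ih =>
      have h1 := hr1 (n0 + j)
      have h2 := hgle (n0 + j) (Nat.le_add_right _ _)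
      rw [← add_assoc, h1, pow_succ]
      linarith
  obtain ⟨j, hj⟩ := pow_unbounded_of_one_lt (4 / δ) (one_lt_two (α := ℝ))
  have h1 := hgrow j
  have h2 := hr4 (n0 + j)
  rw [div_lt_iff₀ hδ] at hj
  nlinarith

end Pool.Agent.HI61
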