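import Pool.Agent.HI61.OffBranch

/-!
# HI61/SpecLeaf : special functionals of level `j` on the vectors of a branch of level `j`

PROOF.  Cases on `InK P (some (2 j + 1)) f`: `reg` is impossible (`2 i ≠ 2 j + 1`), so
`f = A • ∑_{t ∈ T0} c t • res a b (hd t)`, `T0 = c.support`, all `t ∈ T0` in the tree (`hN`, `hK`).
Let `z = lc x S θ`; if `S = ∅` then `z = 0`.  Let `n = #S ≥ 1`, `n ≤ ell j`.
`|ev f z| ≤ A ∑_{t ∈ T0} |c t| |ev (res a b (hd t)) z|`.
ON the branch (`t <:+ p ℓ`, i.e. `t = p (k+1)`, `hd t = g k`; `on_iff`): only `k ∈ S` contribute, each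
value is at most 98 (`on_value`).  Let `D0 = {t ∈ T0 | ∃ k ∈ S, t = p (k+1)}`, `#D0 ≤ n`.
 (i) `∑_{D0} |c t| ≤ al * th` by `h1` (chain `s = p ℓ`);
 (ii) `∑_{D0} |c t| ≤ al * ph n`: the left side is a convex function of `c`, and for `c ∈ Atom j` it is
 at most `al ∑_{D0} |v (code t)| ≤ al * ph n` (`ph_le` with `D` = the image of `D0` under `code`).
 So `A ∑_{D0} |c t| ≤ A al min th (ph n) ≤ dl n^{1/r}` (`slope`); contribution `≤ 98 dl n^{1/r}`.
OFF the branch: `c ↦ A ∑_{off} |c t| |ev ...|` is convex; for an atom (`v, S', #S' ≤ C`) it is at most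
`A al ∑_{s ∈ S'} ∑_{t ∈ T0, t <:+ s, off} |ev (res a b (hd t)) z| ≤ A al C 100 ≤ 1` (`off_chain`, `off`,
`VS_le`).  Total `≤ 98 dl n^{1/r} + 1 ≤ 98 (2 + dl n^{1/r})`; the sum of `δ` is nonnegative.
-/

namespace Pool.Agent.HI61

open Finset
open scoped Classical

variable {P : Par} {Z : BSeq} {G : ℕ → (ℕ →₀ ℝ) → Prop} {j : ℕ}

private theorem hull_le (D : Finset (List Fn)) (w : List Fn → ℝ) (hw : ∀ t, 0 ≤ w t) (M : ℝ)
    (A : Set (List Fn → ℝ)) (hA : ∀ c ∈ A, ∑ t ∈ D, w t * |c t| ≤ M) (c : List Fn → ℝ)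
    (hc : c ∈ convexHull ℝ A) : ∑ t ∈ D, w t * |c t| ≤ M := by
  have h1 : Convex ℝ {c : List Fn → ℝ | ∑ t ∈ D, w t * |c t| ≤ M} := by
    intro c1 h1 c2 h2 a b ha hb hab
    rw [Set.mem_ofPred_eq] at h1 h2 ⊢
    calc ∑ t ∈ D, w t * |(a • c1 + b • c2) t|
        ≤ ∑ t ∈ D, (a * (w t * |c1 t|) + b * (w t * |c2 t|)) := by
          refine Finset.sum_le_sum fun t _ => ?_
          have h3 : |(a • c1 + b • c2) t| ≤ a * |c1 t| + b * |c2 t| := by
            simp only [Pi.add_apply, Pi.smul_apply, smul_eq_mul]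
            refine (abs_add_le _ _).trans ?_
            rw [abs_mul, abs_mul, abs_of_nonneg ha, abs_of_nonneg hb]
          calc w t * |(a • c1 + b • c2) t| ≤ w t * (a * |c1 t| + b * |c2 t|) :=
                mul_le_mul_of_nonneg_left h3 (hw t)
            _ = _ := by ring
      _ = a * ∑ t ∈ D, w t * |c1 t| + b * ∑ t ∈ D, w t * |c2 t| := by
          rw [Finset.sum_add_distrib, Finset.mul_sum, Finset.mul_sum]
      _ ≤ a * M + b * M := by gcongr
      _ = M := by rw [← add_mul, hab, one_mul]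
  exact convexHull_min (fun c hc => hA c hc) h1 hc

theorem spec_leaf (hG : Good P) (B : Branch P Z G j) (f : Fn)
    (hf : InK P (some (2 * j + 1)) f) (S : Finset ℕ) (hS : S ⊆ range (P.ell j))
    (θ : ℕ → ℝ) (hθ : ∀ k, |θ k| ≤ 1) :
    |ev f (lc (fun k => Z.comb (B.u k)) S θ)| ≤
      98 * (2 + P.dl j * (S.card : ℝ) ^ (1 / P.r)) + ∑ k ∈ S, B.δ k := by
  have hδ : 0 ≤ ∑ k ∈ S, B.δ k := Finset.sum_nonneg fun k _ => B.ris.δ0 k
  have hdl := hG.dl_nonneg j
  have hcr : 0 ≤ (S.card : ℝ) ^ (1 / P.r) := by positivity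
  rcases S.eq_empty_or_nonempty with hSe | hSn
  · subst hSe
    have h0 : lc (fun k => Z.comb (B.u k)) ∅ θ = fun _ => 0 := by
      funext i
      simp [lc]
    rw [h0, ev_zero_right, abs_zero]
    positivity
  have hn1 : 1 ≤ S.card := Finset.card_pos.2 hSn
  have hnl : S.card ≤ P.ell j := by
    have := Finset.card_le_card hS
    rwa [card_range] at this
  generalize hz : lc (fun k => Z.comb (B.u k)) S θ = z
  cases hf with
  | reg κ i n hκ => omega
  | spec κ j' a b hκ c hN hK h1 h2 =>
    have hj : j' = j := by omega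
    subst hj
    have hT0 : ∀ t ∈ c.support, Tree P j' t := fun t ht => ⟨hN t ht, hK t ht⟩
    rw [ev_smul_left, ev_sum_left]
    simp only [ev_smul_left]
    generalize hE : (fun t : List Fn => |ev (res a b (hd t)) z|) = E
    have hEt : ∀ t, |ev (res a b (hd t)) z| = E t := fun t => by rw [← hE]
    have hE0 : ∀ t, 0 ≤ E t := fun t => by rw [← hEt]; exact abs_nonneg _
    have hA0 : (0 : ℝ) < P.A j' := by exact_mod_cast hG.A_pos j'
    have hal := hG.al_pos j'
    -- the nodes on the branch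
    let D0 : Finset (List Fn) := c.support.filter (fun t => ∃ k ∈ S, t = B.p (k + 1))
    have hkl : ∀ k ∈ S, k < P.ell j' := fun k hk => Finset.mem_range.1 (hS hk)
    have hon : ∀ t ∈ c.support, t <:+ B.p (P.ell j') → E t ≤ 98 ∧ (t ∉ D0 → E t = 0) := by
      intro t ht hts
      obtain ⟨k, hk, rfl⟩ := (on_iff B (P.ell j') t (hN t ht).1).1 hts
      have hhd : hd (B.p (k + 1)) = B.g k := by rw [B.ps]; rfl
      have h3 := on_value hG B S hS θ hθ k hk a b
      rw [hz] at h3
      rw [← hEt, hhd]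
      refine ⟨h3.1, fun hD => ?_⟩
      rw [h3.2, abs_zero]
      intro hkS
      exact hD (Finset.mem_filter.2 ⟨ht, k, hkS, rfl⟩)
    have hD0s : ∀ t ∈ D0, t ∈ c.support.filter (fun t => t <:+ B.p (P.ell j')) := by
      intro t ht
      obtain ⟨ht1, k, hk, ht2⟩ := Finset.mem_filter.1 ht
      refine Finset.mem_filter.2 ⟨ht1, ?_⟩
      exact (on_iff B (P.ell j') t (hN t ht1).1).2 ⟨k, hkl k hk, ht2⟩
    have hD0c : D0.card ≤ S.card := by
      have h3 : D0 ⊆ S.image (fun k => B.p (k + 1)) := by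
        intro t ht
        obtain ⟨_, k, hk, ht2⟩ := Finset.mem_filter.1 ht
        exact Finset.mem_image.2 ⟨k, hk, ht2.symm⟩
      exact (Finset.card_le_card h3).trans Finset.card_image_le
    have hi : ∑ t ∈ D0, |(c t : ℝ)| ≤ P.al j' * P.th j' :=
      (Finset.sum_le_sum_of_subset_of_nonneg hD0s fun _ _ _ => abs_nonneg _).trans
        (h1 (B.p (P.ell j')))
    have hii : ∑ t ∈ D0, |(c t : ℝ)| ≤ P.al j' * P.ph S.card := by
      have h3 := hull_le D0 (fun _ => 1) (fun _ => zero_le_one) (P.al j' * P.ph S.card)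
        (P.Atom j') (by
          rintro c' ⟨v, hv, S', -, -, hle⟩
          calc ∑ t ∈ D0, 1 * |c' t| ≤ ∑ t ∈ D0, P.al j' * |v (P.code j' t)| :=
                Finset.sum_le_sum fun t _ => by rw [one_mul]; exact hle t
            _ = P.al j' * ∑ k ∈ D0.image (P.code j'), |v k| := by
                rw [Finset.sum_image (fun s _ t _ h => code_inj P j' h), Finset.mul_sum]
            _ ≤ P.al j' * P.ph S.card := by
                refine mul_le_mul_of_nonneg_left ?_ hal.le
                refine hG.ph_le j' v hv S.card hn1 hnl _ (Finset.card_image_le.trans hD0c) ?_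
                intro k hk
                obtain ⟨t, _, rfl⟩ := Finset.mem_image.1 hk
                exact base_le_code P j' t) _ h2
      simpa using h3
    have hmin : (P.A j' : ℝ) * ∑ t ∈ D0, |(c t : ℝ)| ≤ P.dl j' * (S.card : ℝ) ^ (1 / P.r) := by
      refine le_trans ?_ (hG.slope j' S.card hn1 hnl)
      rw [mul_assoc]
      refine mul_le_mul_of_nonneg_left ?_ hA0.le
      rw [mul_min_of_nonneg _ _ hal.le]
      exact le_min hi hii
    -- the nodes off the branch
    have hoff : ∑ t ∈ c.support.filter (fun t => ¬ t <:+ B.p (P.ell j')), E t * |(c t : ℝ)| ≤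
        P.C j' * (P.al j' * 100) := by
      refine hull_le _ E hE0 _ (P.Atom j') ?_ _ h2
      rintro c' ⟨v, hv, S', hS', hsup, hle⟩
      calc ∑ t ∈ c.support.filter (fun t => ¬ t <:+ B.p (P.ell j')), E t * |c' t|
          ≤ ∑ t ∈ c.support.filter (fun t => ¬ t <:+ B.p (P.ell j')),
            ∑ s ∈ S'.filter (fun s => t <:+ s), P.al j' * E t := by
            refine Finset.sum_le_sum fun t _ => ?_
            by_cases h0 : c' t = 0
            · rw [h0, abs_zero, mul_zero]
              exact Finset.sum_nonneg fun _ _ => mul_nonneg hal.le (hE0 t)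
            · obtain ⟨s, hs, hts⟩ := hsup t h0
              have h4 : |c' t| ≤ P.al j' := by
                refine (hle t).trans ?_
                calc P.al j' * |v (P.code j' t)| ≤ P.al j' * 1 :=
                      mul_le_mul_of_nonneg_left (hG.VS_le v hv _) hal.le
                  _ = P.al j' := mul_one _
              calc E t * |c' t| ≤ E t * P.al j' := mul_le_mul_of_nonneg_left h4 (hE0 t)
                _ = P.al j' * E t := mul_comm _ _
                _ ≤ _ := Finset.single_le_sum (f := fun _ => P.al j' * E t)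
                    (fun _ _ => mul_nonneg hal.le (hE0 t)) (Finset.mem_filter.2 ⟨hs, hts⟩)
        _ = ∑ s ∈ S', ∑ t ∈ c.support.filter (fun t => t <:+ s ∧ ¬ t <:+ B.p (P.ell j')),
            P.al j' * E t := by
            rw [Finset.sum_comm' (t' := S') (s' := fun s => c.support.filter
              (fun t => t <:+ s ∧ ¬ t <:+ B.p (P.ell j')))]
            intro t s
            simp only [Finset.mem_filter]
            tauto
        _ ≤ ∑ s ∈ S', P.al j' * 100 := by
            refine Finset.sum_le_sum fun s _ => ?_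
            rw [← Finset.mul_sum]
            refine mul_le_mul_of_nonneg_left ?_ hal.le
            have h3 := off_chain hG B S hS θ hθ c.support hT0 a b s
            rw [hz] at h3
            simp only [hEt] at h3
            exact h3
        _ = S'.card * (P.al j' * 100) := by rw [Finset.sum_const, nsmul_eq_mul]
        _ ≤ P.C j' * (P.al j' * 100) := by
            refine mul_le_mul_of_nonneg_right ?_ (by positivity)
            exact_mod_cast hS'
    have honb : ∑ t ∈ c.support.filter (fun t => t <:+ B.p (P.ell j')), E t * |(c t : ℝ)| ≤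
        98 * ∑ t ∈ D0, |(c t : ℝ)| := by
      rw [Finset.mul_sum]
      have h3 : ∑ t ∈ c.support.filter (fun t => t <:+ B.p (P.ell j')), E t * |(c t : ℝ)| =
          ∑ t ∈ D0, E t * |(c t : ℝ)| := by
        symm
        refine Finset.sum_subset hD0s fun t ht hD => ?_
        obtain ⟨ht1, ht2⟩ := Finset.mem_filter.1 ht
        rw [(hon t ht1 ht2).2 hD, zero_mul]
      rw [h3]
      refine Finset.sum_le_sum fun t ht => ?_
      obtain ⟨ht1, ht2⟩ := Finset.mem_filter.1 (hD0s t ht)
      exact mul_le_mul_of_nonneg_right (hon t ht1 ht2).1 (abs_nonneg _)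
    have htot : |∑ t ∈ c.support, (c t : ℝ) * ev (res a b (hd t)) z| ≤
        98 * ∑ t ∈ D0, |(c t : ℝ)| + P.C j' * (P.al j' * 100) := by
      refine (Finset.abs_sum_le_sum_abs _ _).trans ?_
      have h3 : ∀ t ∈ c.support, |(c t : ℝ) * ev (res a b (hd t)) z| = E t * |(c t : ℝ)| := by
        intro t _
        rw [abs_mul, hEt, mul_comm]
      rw [Finset.sum_congr rfl h3,
        ← Finset.sum_filter_add_sum_filter_not c.support (fun t => t <:+ B.p (P.ell j'))]
      exact add_le_add honb hoff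
    have hof := hG.off j'
    have hpow : ((1 : ℝ) / 2) ^ j' ≤ 1 := pow_le_one₀ (by norm_num) (by norm_num)
    have hcast : ((P.A j' : ℚ) : ℝ) = P.A j' := by push_cast; rfl
    rw [hcast, abs_mul, abs_of_pos hA0]
    calc (P.A j' : ℝ) * |∑ t ∈ c.support, (c t : ℝ) * ev (res a b (hd t)) z|
        ≤ (P.A j' : ℝ) * (98 * ∑ t ∈ D0, |(c t : ℝ)| + P.C j' * (P.al j' * 100)) :=
          mul_le_mul_of_nonneg_left htot hA0.le
      _ = 98 * ((P.A j' : ℝ) * ∑ t ∈ D0, |(c t : ℝ)|) +
          100 * (P.A j' : ℝ) * P.C j' * P.al j' := by ring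
      _ ≤ 98 * (P.dl j' * (S.card : ℝ) ^ (1 / P.r)) + 1 := by
          have := hof.trans hpow
          linarith
      _ ≤ _ := by
          rw [mul_add]
          linarith

end Pool.Agent.HI61
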