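import Pool.Agent.HI61.WDefs3

/-!
# HI61/UConvex : uniformly convex spaces have non-trivial sign type and finite sign cotype

PROOFS.
Type.  By uniform convexity (`exists_forall_closed_ball_dist_add_le_two_sub` with `ε = 1`) there is `δ ∈ (0, 1]` such that for
`‖x‖, ‖y‖ ≤ 1` and `‖x - y‖ ≥ 1`, `‖x + y‖ ≤ 2 - δ`.  So for `‖x‖, ‖y‖ ≤ 1` one of `‖x + y‖`, `‖x - y‖` is at most `ρ = 2 - δ ∈ [1, 2)`.
By induction on `k`: for `2^k` vectors of norm at most 1 there are signs with `‖∑‖ ≤ ρ^k` (combine the two halves, scaled).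
For `n ≥ 1` let `2^(k-1) < n ≤ 2^k`, add zero vectors: `‖∑‖ ≤ ρ^k ≤ ρ · ρ^(k-1) ≤ 2 n^{log2 ρ}` (`(2^(k-1))^{log2 ρ} ≤ n^{log2 ρ}`;
`log2 ρ ∈ [0, 1)`).  If `δ = 1` then `ρ = 1`, `log2 ρ = 0`: replace `ρ` by `max ρ (3/2)` so that `1/p = log2 ρ ∈ (0, 1)`.
Cotype.  There is `δ ∈ (0, 1]` such that for `‖x‖, ‖y‖ ≥ 1`, `max (‖x + y‖) (‖x - y‖) ≥ 1 + δ`: otherwise, with
`u = (x + y) / (1 + δ)`, `v = (x - y) / (1 + δ)` in the unit ball, `‖u - v‖ = 2‖y‖/(1+δ) ≥ 1`, so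
`2‖x‖/(1+δ) = ‖u + v‖ ≤ 2 - δ'` (`δ'` from uniform convexity with `ε = 1`), i.e. `2 ≤ (1 + δ)(2 - δ')`, false for small `δ`
(e.g. `δ = δ'/4` with `δ' ≤ 1`).  By homogeneity `max ≥ (1 + δ) min(‖x‖, ‖y‖)`.  Induction: for `2^k` vectors of norm at
least 1 there are signs with `‖∑‖ ≥ (1 + δ)^k`.  For `n` with `2^k ≤ n < 2^(k+1)`: use the first `2^k` vectors, then add the others one
by one with a sign which does not decrease the norm (`max ‖a ± b‖ ≥ ‖a‖`).  `(1 + δ)^k = (2^k)^{1/q} ≥ (n/2)^{1/q} ≥ (1/2) n^{1/q}` with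
`1/q = log2 (1 + δ) ∈ (0, 1]`.
-/

namespace Pool.Agent.HI61

section

variable {X : Type*} [NormedAddCommGroup X] [NormedSpace ℝ X]

private theorem uconv_scale_le {ρ : ℝ} (h : ∀ x y : X, ‖x‖ ≤ 1 → ‖y‖ ≤ 1 → ‖x + y‖ ≤ ρ ∨ ‖x - y‖ ≤ ρ)
    {R : ℝ} (hR : 0 < R) {A B : X} (hA : ‖A‖ ≤ R) (hB : ‖B‖ ≤ R) :
    ∃ s : ℝ, |s| = 1 ∧ ‖A + s • B‖ ≤ ρ * R := by
  have hn : ∀ C : X, ‖R⁻¹ • C‖ = ‖C‖ / R := by
    intro C
    rw [norm_smul, Real.norm_eq_abs, abs_of_pos (inv_pos.2 hR)]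
    field_simp
  have h1 : ‖R⁻¹ • A‖ ≤ 1 := by
    rw [hn, div_le_one hR]
    exact hA
  have h2 : ‖R⁻¹ • B‖ ≤ 1 := by
    rw [hn, div_le_one hR]
    exact hB
  rcases h _ _ h1 h2 with h3 | h3
  · refine ⟨1, by norm_num, ?_⟩
    rw [← smul_add, hn, div_le_iff₀ hR] at h3
    rwa [one_smul]
  · refine ⟨-1, by norm_num, ?_⟩
    rw [← smul_sub, hn, div_le_iff₀ hR] at h3
    rwa [neg_one_smul, ← sub_eq_add_neg]

private theorem uconv_scale_ge {ρ : ℝ}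
    (h : ∀ x y : X, 1 ≤ ‖x‖ → 1 ≤ ‖y‖ → ρ ≤ ‖x + y‖ ∨ ρ ≤ ‖x - y‖)
    {R : ℝ} (hR : 0 < R) {A B : X} (hA : R ≤ ‖A‖) (hB : R ≤ ‖B‖) :
    ∃ s : ℝ, |s| = 1 ∧ ρ * R ≤ ‖A + s • B‖ := by
  have hn : ∀ C : X, ‖R⁻¹ • C‖ = ‖C‖ / R := by
    intro C
    rw [norm_smul, Real.norm_eq_abs, abs_of_pos (inv_pos.2 hR)]
    field_simp
  have h1 : 1 ≤ ‖R⁻¹ • A‖ := by
    rw [hn, one_le_div hR]
    exact hA
  have h2 : 1 ≤ ‖R⁻¹ • B‖ := by
    rw [hn, one_le_div hR]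
    exact hB
  rcases h _ _ h1 h2 with h3 | h3
  · refine ⟨1, by norm_num, ?_⟩
    rw [← smul_add, hn, le_div_iff₀ hR] at h3
    rwa [one_smul]
  · refine ⟨-1, by norm_num, ?_⟩
    rw [← smul_sub, hn, le_div_iff₀ hR] at h3
    rwa [neg_one_smul, ← sub_eq_add_neg]

/-- joining two blocks of signs -/
private theorem uconv_join (N M : ℕ) (x : ℕ → X) (t t' : ℕ → ℝ) (s : ℝ) :
    ∑ i ∈ Finset.range (N + M), (if i < N then t i else s * t' (i - N)) • x i =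
      ∑ i ∈ Finset.range N, t i • x i + s • ∑ i ∈ Finset.range M, t' i • x (N + i) := by
  rw [Finset.sum_range_add, Finset.smul_sum]
  congr 1
  · refine Finset.sum_congr rfl fun i hi => ?_
    rw [if_pos (Finset.mem_range.1 hi)]
  · refine Finset.sum_congr rfl fun i _ => ?_
    rw [if_neg (by omega), Nat.add_sub_cancel_left, smul_smul]

private theorem uconv_join_abs (N : ℕ) {t t' : ℕ → ℝ} {s : ℝ} (ht : ∀ i, |t i| = 1)
    (ht' : ∀ i, |t' i| = 1) (hs : |s| = 1) (i : ℕ) : |if i < N then t i else s * t' (i - N)| = 1 := by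
  split_ifs
  · exact ht i
  · rw [abs_mul, hs, ht', mul_one]

private theorem uconv_type_pow {ρ : ℝ} (hρ : 0 < ρ)
    (h : ∀ x y : X, ‖x‖ ≤ 1 → ‖y‖ ≤ 1 → ‖x + y‖ ≤ ρ ∨ ‖x - y‖ ≤ ρ) (k : ℕ) :
    ∀ x : ℕ → X, (∀ i, ‖x i‖ ≤ 1) → ∃ t : ℕ → ℝ, (∀ i, |t i| = 1) ∧
      ‖∑ i ∈ Finset.range (2 ^ k), t i • x i‖ ≤ ρ ^ k := by
  induction k with
  | zero =>
    intro x hx
    refine ⟨fun _ => 1, fun _ => abs_one, ?_⟩
    simpa using hx 0
  | succ k ih =>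
    intro x hx
    obtain ⟨t, ht, h1⟩ := ih x hx
    obtain ⟨t', ht', h2⟩ := ih (fun i => x (2 ^ k + i)) (fun i => hx _)
    obtain ⟨s, hs, h3⟩ := uconv_scale_le h (pow_pos hρ k) h1 h2
    refine ⟨fun i => if i < 2 ^ k then t i else s * t' (i - 2 ^ k), fun i =>
      uconv_join_abs _ ht ht' hs i, ?_⟩
    rw [pow_succ 2 k, mul_two, uconv_join, pow_succ' ρ k]
    exact h3

private theorem uconv_cotype_pow {ρ : ℝ} (hρ : 0 < ρ)
    (h : ∀ x y : X, 1 ≤ ‖x‖ → 1 ≤ ‖y‖ → ρ ≤ ‖x + y‖ ∨ ρ ≤ ‖x - y‖) (k : ℕ) :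
    ∀ x : ℕ → X, (∀ i < 2 ^ k, 1 ≤ ‖x i‖) → ∃ t : ℕ → ℝ, (∀ i, |t i| = 1) ∧
      ρ ^ k ≤ ‖∑ i ∈ Finset.range (2 ^ k), t i • x i‖ := by
  induction k with
  | zero =>
    intro x hx
    refine ⟨fun _ => 1, fun _ => abs_one, ?_⟩
    simpa using hx 0 (by norm_num)
  | succ k ih =>
    intro x hx
    have hlt : (2 : ℕ) ^ (k + 1) = 2 ^ k + 2 ^ k := by rw [pow_succ, mul_two]
    obtain ⟨t, ht, h1⟩ := ih x (fun i hi => hx i (by omega))
    obtain ⟨t', ht', h2⟩ := ih (fun i => x (2 ^ k + i)) (fun i hi => hx _ (by omega))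
    obtain ⟨s, hs, h3⟩ := uconv_scale_ge h (pow_pos hρ k) h1 h2
    refine ⟨fun i => if i < 2 ^ k then t i else s * t' (i - 2 ^ k), fun i =>
      uconv_join_abs _ ht ht' hs i, ?_⟩
    rw [hlt, uconv_join, pow_succ' ρ k]
    exact h3

private theorem uconv_keep (A B : X) : ∃ s : ℝ, |s| = 1 ∧ ‖A‖ ≤ ‖A + s • B‖ := by
  by_contra hcon
  push Not at hcon
  have h1 := hcon 1 (by norm_num)
  have h2 := hcon (-1) (by norm_num)
  have h3 : (2 : ℝ) • A = (A + (1 : ℝ) • B) + (A + (-1 : ℝ) • B) := by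
    rw [one_smul, neg_one_smul, two_smul]
    abel
  have h4 : ‖(2 : ℝ) • A‖ = 2 * ‖A‖ := by rw [norm_smul]; norm_num
  have h5 := norm_add_le (A + (1 : ℝ) • B) (A + (-1 : ℝ) • B)
  rw [← h3, h4] at h5
  linarith

private theorem uconv_extend (N : ℕ) (x : ℕ → X) (R : ℝ)
    (h : ∃ t : ℕ → ℝ, (∀ i, |t i| = 1) ∧ R ≤ ‖∑ i ∈ Finset.range N, t i • x i‖) (m : ℕ) :
    ∃ t : ℕ → ℝ, (∀ i, |t i| = 1) ∧ R ≤ ‖∑ i ∈ Finset.range (N + m), t i • x i‖ := by
  induction m with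
  | zero => exact h
  | succ m ih =>
    obtain ⟨t, ht, h1⟩ := ih
    obtain ⟨s, hs, h2⟩ := uconv_keep (∑ i ∈ Finset.range (N + m), t i • x i) (x (N + m))
    refine ⟨fun i => if i < N + m then t i else s * (fun _ => (1 : ℝ)) (i - (N + m)), fun i =>
      uconv_join_abs _ ht (fun _ => abs_one) hs i, ?_⟩
    rw [← add_assoc, uconv_join (N + m) 1 x t (fun _ => 1) s]
    simp only [Finset.sum_range_one, one_smul, add_zero]
    exact h1.trans h2

private theorem uconv_fin {n : ℕ} (x : Fin n → X) (t : ℕ → ℝ) {N : ℕ} (hN : n ≤ N) :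
    ∑ i ∈ Finset.range N, t i • (if h : i < n then x ⟨i, h⟩ else 0) = ∑ i : Fin n, t i • x i := by
  obtain ⟨m, rfl⟩ := Nat.exists_eq_add_of_le hN
  rw [Finset.sum_range_add, Finset.sum_range]
  have h0 : ∑ i ∈ Finset.range m, t (n + i) • (if h : n + i < n then x ⟨n + i, h⟩ else 0) = 0 := by
    refine Finset.sum_eq_zero fun i _ => ?_
    rw [dif_neg (by omega), smul_zero]
  rw [h0, add_zero]
  refine Finset.sum_congr rfl fun i _ => ?_
  rw [dif_pos i.2]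

end

theorem signType_of_uniformConvex (X : Type*) [NormedAddCommGroup X] [NormedSpace ℝ X]
    [UniformConvexSpace X] : ∃ p C : ℝ, 1 < p ∧ SignType X p C := by
  obtain ⟨δ, hδ, hu⟩ := exists_forall_closed_ball_dist_add_le_two_sub X (ε := 1) one_pos
  set ρ : ℝ := max (2 - δ) (3 / 2) with hρdef
  have hρ1 : 3 / 2 ≤ ρ := le_max_right _ _
  have hρ2 : ρ < 2 := max_lt (by linarith) (by norm_num)
  have hstep : ∀ x y : X, ‖x‖ ≤ 1 → ‖y‖ ≤ 1 → ‖x + y‖ ≤ ρ ∨ ‖x - y‖ ≤ ρ := by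
    intro x y hx hy
    by_cases h : 1 ≤ ‖x - y‖
    · exact Or.inl ((hu hx hy h).trans (le_max_left _ _))
    · right
      push Not at h
      linarith
  set a : ℝ := Real.logb 2 ρ with ha
  have h2a : (2 : ℝ) ^ a = ρ := Real.rpow_logb (by norm_num) (by norm_num) (by linarith)
  have ha0 : 0 < a := Real.logb_pos (by norm_num) (by linarith)
  have ha1 : a < 1 := by
    rw [ha, Real.logb_lt_iff_lt_rpow (by norm_num) (by linarith), Real.rpow_one]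
    exact hρ2
  refine ⟨1 / a, 2, ?_, ?_⟩
  · rw [lt_div_iff₀ ha0]
    linarith
  · intro n x hx
    rw [one_div_one_div]
    rcases Nat.eq_zero_or_pos n with rfl | hn
    · refine ⟨fun _ => 1, fun _ => abs_one, ?_⟩
      simp [Real.zero_rpow ha0.ne']
    · set k : ℕ := Nat.log 2 n + 1 with hk
      have hk1 : n < 2 ^ k := Nat.lt_pow_succ_log_self (by norm_num) n
      have hk2 : 2 ^ k ≤ 2 * n := by
        have := Nat.pow_log_le_self 2 hn.ne'
        rw [hk, pow_succ]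
        omega
      obtain ⟨t, ht, h1⟩ := uconv_type_pow (by linarith : 0 < ρ) hstep k
        (fun i => if h : i < n then x ⟨i, h⟩ else 0) (fun i => by
          by_cases h : i < n
          · simp only [h, dif_pos]
            exact hx _
          · simp [h])
      rw [uconv_fin x t hk1.le] at h1
      refine ⟨fun i => t i, fun i => ht i, h1.trans ?_⟩
      have h2 : ρ ^ k = ((2 : ℝ) ^ k) ^ a := by
        rw [← h2a, ← Real.rpow_natCast ((2 : ℝ) ^ a), ← Real.rpow_natCast (2 : ℝ),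
          ← Real.rpow_mul (by norm_num), ← Real.rpow_mul (by norm_num), mul_comm]
      have h3 : ((2 : ℝ) ^ k) ≤ 2 * n := by exact_mod_cast hk2
      have h4 : ((2 : ℝ) ^ k) ^ a ≤ (2 * (n : ℝ)) ^ a :=
        Real.rpow_le_rpow (by positivity) h3 ha0.le
      rw [h2]
      refine h4.trans ?_
      rw [Real.mul_rpow (by norm_num) (Nat.cast_nonneg n), h2a]
      exact mul_le_mul_of_nonneg_right hρ2.le (Real.rpow_nonneg (Nat.cast_nonneg n) _)

theorem signCotype_of_uniformConvex (X : Type*) [NormedAddCommGroup X] [NormedSpace ℝ X]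
    [UniformConvexSpace X] : ∃ q c : ℝ, 1 ≤ q ∧ 0 < c ∧ SignCotype X q c := by
  obtain ⟨δ', hδ', hu⟩ := exists_forall_closed_ball_dist_add_le_two_sub X (ε := 1) one_pos
  set δ : ℝ := min δ' 1 / 4 with hδdef
  have hδ0 : 0 < δ := by
    rw [hδdef]
    have : 0 < min δ' 1 := lt_min hδ' one_pos
    linarith
  have hδ1 : δ ≤ 1 / 4 := by
    rw [hδdef]
    have : min δ' 1 ≤ 1 := min_le_right _ _
    linarith
  have hδ2 : 4 * δ ≤ δ' := by
    rw [hδdef]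
    have : min δ' 1 ≤ δ' := min_le_left _ _
    linarith
  set ρ : ℝ := 1 + δ with hρdef
  have hρ0 : 0 < ρ := by linarith
  have hstep : ∀ x y : X, 1 ≤ ‖x‖ → 1 ≤ ‖y‖ → ρ ≤ ‖x + y‖ ∨ ρ ≤ ‖x - y‖ := by
    intro x y hx hy
    by_contra hcon
    push Not at hcon
    obtain ⟨h1, h2⟩ := hcon
    have hn : ∀ C : X, ‖ρ⁻¹ • C‖ = ‖C‖ / ρ := by
      intro C
      rw [norm_smul, Real.norm_eq_abs, abs_of_pos (inv_pos.2 hρ0)]
      field_simp
    have h3 : ‖ρ⁻¹ • (x + y)‖ ≤ 1 := by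
      rw [hn, div_le_one hρ0]
      exact h1.le
    have h4 : ‖ρ⁻¹ • (x - y)‖ ≤ 1 := by
      rw [hn, div_le_one hρ0]
      exact h2.le
    have h2n : ∀ C : X, ‖(2 : ℝ) • C‖ = 2 * ‖C‖ := by
      intro C
      rw [norm_smul]
      norm_num
    have h5 : 1 ≤ ‖ρ⁻¹ • (x + y) - ρ⁻¹ • (x - y)‖ := by
      rw [← smul_sub, hn, one_le_div hρ0]
      have : x + y - (x - y) = (2 : ℝ) • y := by
        rw [two_smul]
        abel
      rw [this, h2n]
      linarith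
    have h6 := hu h3 h4 h5
    rw [← smul_add, hn, div_le_iff₀ hρ0] at h6
    have h7 : x + y + (x - y) = (2 : ℝ) • x := by
      rw [two_smul]
      abel
    rw [h7, h2n] at h6
    nlinarith
  set a : ℝ := Real.logb 2 ρ with ha
  have h2a : (2 : ℝ) ^ a = ρ := Real.rpow_logb (by norm_num) (by norm_num) (by linarith)
  have ha0 : 0 < a := Real.logb_pos (by norm_num) (by linarith)
  have ha1 : a < 1 := by
    rw [ha, Real.logb_lt_iff_lt_rpow (by norm_num) (by linarith), Real.rpow_one]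
    linarith
  refine ⟨1 / a, 1 / 2, ?_, by norm_num, ?_⟩
  · rw [le_div_iff₀ ha0]
    linarith
  · intro n x hx
    rw [one_div_one_div]
    rcases Nat.eq_zero_or_pos n with rfl | hn
    · refine ⟨fun _ => 1, fun _ => abs_one, ?_⟩
      simp [Real.zero_rpow ha0.ne']
    · set k : ℕ := Nat.log 2 n with hk
      have hk1 : n < 2 ^ (k + 1) := Nat.lt_pow_succ_log_self (by norm_num) n
      have hk2 : 2 ^ k ≤ n := Nat.pow_log_le_self 2 hn.ne'
      obtain ⟨m, hm⟩ := Nat.exists_eq_add_of_le hk2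
      have h0 := uconv_cotype_pow hρ0 hstep k
        (fun i => if h : i < n then x ⟨i, h⟩ else 0) (fun i hi => by
          have h : i < n := lt_of_lt_of_le hi hk2
          simp only [h, dif_pos]
          exact hx _)
      obtain ⟨t, ht, h1⟩ := uconv_extend _ _ _ h0 m
      rw [← hm, uconv_fin x t le_rfl] at h1
      refine ⟨fun i => t i, fun i => ht i, le_trans ?_ h1⟩
      have h2 : ρ ^ k = ((2 : ℝ) ^ k) ^ a := by
        rw [← h2a, ← Real.rpow_natCast ((2 : ℝ) ^ a), ← Real.rpow_natCast (2 : ℝ),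
          ← Real.rpow_mul (by norm_num), ← Real.rpow_mul (by norm_num), mul_comm]
      have h3 : (n : ℝ) ≤ 2 * (2 : ℝ) ^ k := by
        have : n ≤ 2 * 2 ^ k := by
          rw [pow_succ] at hk1
          omega
        exact_mod_cast this
      have h4 : (n : ℝ) ^ a ≤ (2 * (2 : ℝ) ^ k) ^ a :=
        Real.rpow_le_rpow (Nat.cast_nonneg n) h3 ha0.le
      rw [Real.mul_rpow (by norm_num) (by positivity), h2a] at h4
      rw [h2]
      have h5 : 0 ≤ ((2 : ℝ) ^ k) ^ a := by positivity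
      have h6 : ρ * ((2 : ℝ) ^ k) ^ a ≤ 2 * ((2 : ℝ) ^ k) ^ a :=
        mul_le_mul_of_nonneg_right (by linarith) h5
      linarith

end Pool.Agent.HI61
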