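import Pool.Agent.HI61.FBasic

/-!
# HI61/WDefs : the frame (X inside V with the almost invariant operators R_k), the algebraic space
`W0`, the functionals `Th n v` and the norm
-/

namespace Pool.Agent.HI61

open Finset
open scoped Classical

/-- `X` sits isometrically in `V`; the finite rank operators `R k` of norm at most one almost
preserve `X`. -/
structure Frame (X V : Type) [NormedAddCommGroup X] [NormedSpace ℝ X]
    [NormedAddCommGroup V] [NormedSpace ℝ V] where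
  ι : X →ₗᵢ[ℝ] V
  R : ℕ → V →L[ℝ] V
  R_le : ∀ k v, ‖R k v‖ ≤ ‖v‖
  R_lt : ∀ k l, k < l → ∀ v, R k (R l v) = R k v
  R_gt : ∀ k l, k < l → ∀ v, R l (R k v) = R k v
  R_fin : ∀ k, FiniteDimensional ℝ (LinearMap.range (R k : V →ₗ[ℝ] V))
  Xk : ℕ → Submodule ℝ X
  Xk_fin : ∀ k, FiniteDimensional ℝ (Xk k)
  Xk_mono : Monotone Xk
  Xk_dense : Dense (⋃ k, (Xk k : Set X))
  Xk_fix : ∀ k, ∀ x ∈ Xk k, ∀ l, k ≤ l → R l (ι x) = ι x
  ep : ℕ → ℝ
  ep_pos : ∀ k, 0 < ep k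
  ep_le : ∀ k, ep k ≤ (1 / 2) ^ (k + 2)
  near : ∀ k x, ∃ y ∈ Xk (k + 1), ‖R k (ι x) - ι y‖ ≤ ep k * ‖x‖
  kap : ℕ → ℝ
  kap_ge : ∀ k, 1 ≤ kap k
  ker : ∀ k x, ∃ y, R k (ι y) = 0 ∧ ‖x - y‖ ≤ kap k * ‖R k (ι x)‖
  ep_kap : ∀ k l, k < l → ep l * (1 + kap k) ≤ (1 / 2) ^ (l + 2)
  b : ℕ → X
  b_le : ∀ k, ‖b k‖ ≤ 1
  b_mem : ∀ k, b k ∈ Xk (k + 1)
  b_small : ∀ k l, l ≤ k → kap l * ‖R k (ι (b k))‖ ≤ (1 / 2) ^ k

section

variable {X V : Type} [NormedAddCommGroup X] [NormedSpace ℝ X]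
  [NormedAddCommGroup V] [NormedSpace ℝ V]

namespace Frame

/-- `X_k + ker R_k` -/
def N (F : Frame X V) (k : ℕ) : Submodule ℝ X :=
  F.Xk k ⊔ LinearMap.ker ((F.R k : V →ₗ[ℝ] V) ∘ₗ F.ι.toLinearMap)

/-- the distance to `N k` -/
noncomputable def p (F : Frame X V) (k : ℕ) : Seminorm ℝ X :=
  (normSeminorm ℝ (X ⧸ F.N k)).comp (F.N k).mkQ

/-- `R' (k+1) = R k`, `R' 0 = 0` -/
noncomputable def R' (F : Frame X V) : ℕ → V →L[ℝ] V
  | 0 => 0
  | k + 1 => F.R k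

/-- `p' (k+1) = p k`, `p' 0 = 0` -/
noncomputable def p' (F : Frame X V) : ℕ → Seminorm ℝ X
  | 0 => 0
  | k + 1 => F.p k

/-- the seminorm `x ↦ ‖R_k x - R_{k-1} x‖` -/
noncomputable def nr (F : Frame X V) (k : ℕ) : Seminorm ℝ X :=
  (normSeminorm ℝ V).comp (((F.R k - F.R' k : V →L[ℝ] V) : V →ₗ[ℝ] V) ∘ₗ F.ι.toLinearMap)

/-- the norm of the `k`-th summand -/
noncomputable def s (F : Frame X V) (k : ℕ) : Seminorm ℝ X := F.nr k ⊔ F.p k ⊔ F.p' k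

end Frame

/-- data of Pelczynski's trick for a seminorm `s`: `n` vectors `z i` and a seminorm `pH` on
finitely supported sequences -/
structure Pel {X : Type} [AddCommGroup X] [Module ℝ X] (s : Seminorm ℝ X) where
  n : ℕ
  z : ℕ → X
  pH : Seminorm ℝ (ℕ →₀ ℝ)
  P1 : ∀ (β : ℕ →₀ ℝ) (m : ℕ), m ≤ n → s (∑ i ∈ range m, β i • z i) ≤
    3 * max (s (∑ i ∈ range n, β i • z i)) (pH β)
  P2 : ∀ (β : ℕ →₀ ℝ) (D : ℝ), (∀ m ≤ n, s (∑ i ∈ range m, β i • z i) ≤ D) → pH β ≤ 3 * D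
  P3 : ∀ (x : X) (h : ℕ →₀ ℝ), ∃ β : ℕ →₀ ℝ, (∀ i ∈ β.support, i < n) ∧
    s (x - ∑ i ∈ range n, β i • z i) = 0 ∧ pH (h - β) = 0
  P4 : ∀ i < n, 0 < s (z i)

/-- the space of one block -/
abbrev Eb (X : Type) [AddCommGroup X] [Module ℝ X] : Type := X × (ℕ →₀ ℝ)

/-- the algebraic space -/
abbrev W0 (X : Type) [AddCommGroup X] [Module ℝ X] : Type := X × (ℕ →₀ Eb X)

/-- everything which is needed to define the norm -/
structure Host (X V : Type) [NormedAddCommGroup X] [NormedSpace ℝ X]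
    [NormedAddCommGroup V] [NormedSpace ℝ V] where
  F : Frame X V
  P : Par
  good : Good P
  hVS : P.VS = {s | ∃ f : X →L[ℝ] ℝ, ‖f‖ ≤ 1 ∧ s = fun k => f (F.b k)}
  pel : ∀ k, Pel (F.s k)
  gam : ℕ → (Eb X →ₗ[ℝ] ℝ)
  gam_le : ∀ i e, |gam i e| ≤ max (F.p (blk i) e.1) ((pel (blk i)).pH e.2)
  gam_sup : ∀ (k : ℕ) (e : Eb X) (c : ℝ), c < max (F.p k e.1) ((pel k).pH e.2) →
    ∃ i, blk i = k ∧ c < |gam i e|

namespace Host

variable (H : Host X V)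

/-- block seminorm -/
noncomputable def q (k : ℕ) (e : Eb X) : ℝ := max (H.F.p k e.1) ((H.pel k).pH e.2)

/-- position in `V` -/
noncomputable def pos : W0 X →ₗ[ℝ] V where
  toFun w := H.F.ι w.1 + w.2.sum fun k e => H.F.R k (H.F.ι e.1)
  map_add' w w' := by
    simp only [Prod.fst_add, Prod.snd_add, map_add]
    rw [Finsupp.sum_add_index' (by intro k; simp) (by intro k e e'; simp)]
    abel
  map_smul' c w := by
    simp only [Prod.smul_fst, Prod.smul_snd, map_smul, RingHom.id_apply]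
    rw [Finsupp.sum_smul_index' (by intro k; simp)]
    simp [Finsupp.smul_sum, smul_add]

/-- coordinates -/
noncomputable def hat : W0 X →ₗ[ℝ] (ℕ → ℝ) where
  toFun w := fun i => H.gam i (w.2 (blk i))
  map_add' w w' := by funext i; simp
  map_smul' c w := by funext i; simp

/-- the sequence `(v (b_k))_k` -/
noncomputable def vs (v : V →L[ℝ] ℝ) : ℕ → ℝ := fun k => v (H.F.ι (H.F.b k))

/-- the functionals `v ∘ pos + ∑_{j ≥ n} F_j(v)` -/
noncomputable def Th (n : ℕ) (v : V →L[ℝ] ℝ) (w : W0 X) : ℝ :=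
  v (H.pos w) + ∑ᶠ j, if n ≤ j then Fj H.P j (H.vs v) (H.hat w) else 0

/-- the seminorm `pW` is the norm of the construction -/
structure IsNorm (pW : Seminorm ℝ (W0 X)) : Prop where
  N1 : ∀ w v, ‖v‖ ≤ 1 → |H.Th 0 v w| ≤ pW w
  N2 : ∀ w, Kle H.P (H.hat w) (pW w)
  N3 : ∀ w (B : ℝ), 0 ≤ B → (∀ v, ‖v‖ ≤ 1 → |H.Th 0 v w| ≤ B) → Kle H.P (H.hat w) B → pW w ≤ B

/-- `σ_k w = x + ∑_{l > k} x_l` -/
noncomputable def sig' (k : ℕ) : W0 X →ₗ[ℝ] X where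
  toFun w := w.1 + w.2.sum fun l e => if k < l then e.1 else 0
  map_add' w w' := by
    simp only [Prod.fst_add, Prod.snd_add]
    rw [Finsupp.sum_add_index' (by intro k; simp) (by intro k e e'; split_ifs <;> simp)]
    abel
  map_smul' c w := by
    simp only [Prod.smul_fst, Prod.smul_snd, RingHom.id_apply]
    rw [Finsupp.sum_smul_index' (by intro k; simp)]
    simp [Finsupp.smul_sum, smul_add]

end Host

end

end Pool.Agent.HI61
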