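import Pool.Agent.HI61.WDefs

/-!
# HI61/WDefs2 : the projections, the basis vectors, far sequences
-/

namespace Pool.Agent.HI61

open Finset
open scoped Classical

section

variable {X V : Type} [NormedAddCommGroup X] [NormedSpace ℝ X]
  [NormedAddCommGroup V] [NormedSpace ℝ V]

/-- the projections `Q_k (x, g) = (0; g_0, ..., g_{k-1}, g_k + (σ_k, 0), 0, ...)` -/
noncomputable def Qk (X : Type) [NormedAddCommGroup X] [NormedSpace ℝ X] (k : ℕ) :
    W0 X →ₗ[ℝ] W0 X where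
  toFun w := (0, w.2.filter (fun l => l ≤ k) + Finsupp.single k (Host.sig' k w, 0))
  map_add' w w' := by
    refine Prod.ext (by simp) ?_
    simp only [Prod.snd_add, map_add, Finsupp.filter_add]
    ext l <;> simp [Finsupp.single_apply] <;> split_ifs <;> simp <;> abel
  map_smul' c w := by
    refine Prod.ext (by simp) ?_
    simp only [Prod.smul_snd, map_smul, RingHom.id_apply, Finsupp.filter_smul]
    ext l <;> simp [Finsupp.single_apply, smul_add] <;> split_ifs <;> simp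

/-- `e(k, β) = (0; -S β at k-1; (S β, β) at k)`, where `S β = ∑_{i < n} β_i z_i` -/
noncomputable def Host.eb (H : Host X V) (k : ℕ) (β : ℕ →₀ ℝ) : W0 X :=
  (0, Finsupp.single k (∑ i ∈ range (H.pel k).n, β i • (H.pel k).z i, β) -
    (if k = 0 then 0 else
      Finsupp.single (k - 1) (∑ i ∈ range (H.pel k).n, β i • (H.pel k).z i, 0)))

/-- finite combinations of a sequence in `W0` -/
noncomputable def T0 (z : ℕ → W0 X) (a : ℕ →₀ ℝ) : W0 X := a.sum fun n c => c • z n

/-- A sequence of vectors of `W0`, supported by successive blocks, whose span is far from `X`. -/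
structure FarSeq (H : Host X V) (pW : Seminorm ℝ (W0 X)) where
  z : ℕ → W0 X
  s : ℕ → ℕ
  mono : StrictMono s
  fst : ∀ n, (z n).1 = 0
  supp : ∀ n, ∀ k ∈ (z n).2.support, s n ≤ k ∧ k < s (n + 1)
  pos : ∀ n, 0 < pW (z n)
  CZ : ℝ
  CZ1 : 1 ≤ CZ
  far : ∀ (a : ℕ →₀ ℝ) (B : ℝ), 0 ≤ B → Kle H.P (H.hat (T0 z a)) B → pW (T0 z a) ≤ CZ * B

/-- Schauder bases -/
def HasSchauderBasis (W : Type*) [NormedAddCommGroup W] [NormedSpace ℝ W] : Prop :=
  ∃ e : ℕ → W, ∀ w : W, ∃! a : ℕ → ℝ,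
    Filter.Tendsto (fun n => ∑ i ∈ range n, a i • e i) Filter.atTop (nhds w)

/-- hereditarily indecomposable spaces: no closed infinite dimensional subspace `Y` is the direct
sum of two closed infinite dimensional subspaces -/
def HI (X : Type*) [NormedAddCommGroup X] [NormedSpace ℝ X] : Prop :=
  ∀ Y : Submodule ℝ X, IsClosed (Y : Set X) → ¬ FiniteDimensional ℝ Y →
    ¬ ∃ Z₀ Z₁ : Submodule ℝ X, IsClosed (Z₀ : Set X) ∧ IsClosed (Z₁ : Set X) ∧
      ¬ FiniteDimensional ℝ Z₀ ∧ ¬ FiniteDimensional ℝ Z₁ ∧ Z₀ ⊓ Z₁ = ⊥ ∧ Z₀ ⊔ Z₁ = Y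

end

end Pool.Agent.HI61
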